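import Pool.Agent.Work.MP_1ea053_nt.Interface
import Pool.Agent.Work.MP_b0c12c_nt_helper41.Mert

/-!
# Tools: primes in intervals, Mertens sums and products for `PR u v`
-/

set_option autoImplicit false

namespace Pool.Agent.GapTwo

open Finset Filter
open scoped Classical Topology

lemma mem_PR {u v : ℝ} {p : ℕ} : p ∈ PR u v ↔ p.Prime ∧ u ≤ (p : ℝ) ∧ (p : ℝ) < v := by
  unfold PR
  rw [mem_filter, mem_range, Nat.lt_ceil]
  tauto

lemma mem_XX {ι : Type} [Fintype ι] {u v : ℝ} {x : ℕ × ι} :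
    x ∈ XX ι u v ↔ x.1.Prime ∧ u ≤ (x.1 : ℝ) ∧ (x.1 : ℝ) < v := by
  unfold XX
  rw [mem_product, mem_PR]
  simp

lemma PR_union {u v w : ℝ} (huv : u ≤ v) (hvw : v ≤ w) : PR u w = PR u v ∪ PR v w := by
  ext p
  rw [mem_union, mem_PR, mem_PR, mem_PR]
  constructor
  · rintro ⟨h1, h2, h3⟩
    rcases lt_or_ge (p : ℝ) v with h | h
    · exact Or.inl ⟨h1, h2, h⟩
    · exact Or.inr ⟨h1, h, h3⟩
  · rintro (⟨h1, h2, h3⟩ | ⟨h1, h2, h3⟩)
    · exact ⟨h1, h2, by linarith⟩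
    · exact ⟨h1, by linarith, h3⟩

lemma PR_disj (u v w : ℝ) : Disjoint (PR u v) (PR v w) := by
  rw [disjoint_left]
  intro p h1 h2
  rw [mem_PR] at h1 h2
  linarith [h1.2.2, h2.2.1]

lemma PR_prod {u v w : ℝ} (huv : u ≤ v) (hvw : v ≤ w) (f : ℕ → ℝ) :
    ∏ p ∈ PR u w, f p = (∏ p ∈ PR u v, f p) * ∏ p ∈ PR v w, f p := by
  rw [PR_union huv hvw, prod_union (PR_disj u v w)]

lemma PR_sum {u v w : ℝ} (huv : u ≤ v) (hvw : v ≤ w) (f : ℕ → ℝ) :
    ∑ p ∈ PR u w, f p = (∑ p ∈ PR u v, f p) + ∑ p ∈ PR v w, f p := by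
  rw [PR_union huv hvw, sum_union (PR_disj u v w)]

lemma XX_union {ι : Type} [Fintype ι] {u v w : ℝ} (huv : u ≤ v) (hvw : v ≤ w) :
    XX ι u w = XX ι u v ∪ XX ι v w := by
  ext x
  rw [mem_union, mem_XX, mem_XX, mem_XX]
  constructor
  · rintro ⟨h1, h2, h3⟩
    rcases lt_or_ge (x.1 : ℝ) v with h | h
    · exact Or.inl ⟨h1, h2, h⟩
    · exact Or.inr ⟨h1, h, h3⟩
  · rintro (⟨h1, h2, h3⟩ | ⟨h1, h2, h3⟩)
    · exact ⟨h1, h2, by linarith⟩
    · exact ⟨h1, by linarith, h3⟩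

lemma sum_Ioc_sub_PR {u v : ℝ} (hu : 2 ≤ u) (huv : u ≤ v) :
    |∑ p ∈ PR u v, 1 / (p : ℝ) - ∑ p ∈ (Ioc ⌊u⌋₊ ⌊v⌋₊).filter Nat.Prime, 1 / (p : ℝ)| ≤
      4 / u := by
  have hfu : u / 2 ≤ (⌊u⌋₊ : ℝ) := by
    have := Nat.lt_floor_add_one u
    linarith
  have hfv : u / 2 ≤ (⌊v⌋₊ : ℝ) := by
    have := Nat.lt_floor_add_one v
    linarith
  have h1 : PR u v ⊆ insert ⌊u⌋₊ ((Ioc ⌊u⌋₊ ⌊v⌋₊).filter Nat.Prime) := by
    intro p hp
    rw [mem_PR] at hp
    rw [mem_insert, mem_filter, mem_Ioc]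
    by_cases h : p = ⌊u⌋₊
    · exact Or.inl h
    · right
      have h3 : ⌊u⌋₊ ≤ p := by
        have : ⌊u⌋₊ ≤ ⌊(p : ℝ)⌋₊ := Nat.floor_le_floor hp.2.1
        simpa using this
      refine ⟨⟨lt_of_le_of_ne h3 (Ne.symm h), Nat.le_floor hp.2.2.le⟩, hp.1⟩
  have h2 : (Ioc ⌊u⌋₊ ⌊v⌋₊).filter Nat.Prime ⊆ insert ⌊v⌋₊ (PR u v) := by
    intro p hp
    rw [mem_filter, mem_Ioc] at hp
    rw [mem_insert, mem_PR]
    by_cases h : p = ⌊v⌋₊
    · exact Or.inl h
    · right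
      refine ⟨hp.2, ?_, ?_⟩
      · exact ((Nat.floor_lt (by linarith)).1 hp.1.1).le
      · have h3 : p < ⌊v⌋₊ := lt_of_le_of_ne hp.1.2 h
        have h4 : (p : ℝ) < ⌊v⌋₊ := by exact_mod_cast h3
        exact h4.trans_le (Nat.floor_le (by linarith))
  have h3 : ∀ (s t : Finset ℕ) (a : ℕ), u / 2 ≤ (a : ℝ) → s ⊆ insert a t →
      ∑ p ∈ s, 1 / (p : ℝ) ≤ ∑ p ∈ t, 1 / (p : ℝ) + 2 / u := by
    intro s t a ha hst
    have h4 : ∑ p ∈ s, 1 / (p : ℝ) ≤ ∑ p ∈ insert a t, 1 / (p : ℝ) :=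
      sum_le_sum_of_subset_of_nonneg hst fun _ _ _ => by positivity
    have h5 : ∑ p ∈ insert a t, 1 / (p : ℝ) ≤ 1 / (a : ℝ) + ∑ p ∈ t, 1 / (p : ℝ) := by
      by_cases hat : a ∈ t
      · rw [insert_eq_of_mem hat]
        have : (0 : ℝ) ≤ 1 / (a : ℝ) := by positivity
        linarith
      · rw [sum_insert hat]
    have h6 : 1 / (a : ℝ) ≤ 2 / u := by
      have : 1 / (a : ℝ) ≤ 1 / (u / 2) := one_div_le_one_div_of_le (by linarith) ha
      have h7 : 1 / (u / 2) = 2 / u := by field_simp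
      linarith
    linarith
  have h4 := h3 _ _ _ hfu h1
  have h5 := h3 _ _ _ hfv h2
  have h6 : 2 / u ≤ 4 / u := by
    apply div_le_div_of_nonneg_right (by norm_num) (by linarith)
  rw [abs_le]
  constructor <;> linarith

lemma loglog_floor_sub {u : ℝ} (hu : 2 ≤ u) :
    0 ≤ Real.log (Real.log u) - Real.log (Real.log ⌊u⌋₊) ∧
      Real.log (Real.log u) - Real.log (Real.log ⌊u⌋₊) ≤ 4 / u := by
  have hfu : u / 2 ≤ (⌊u⌋₊ : ℝ) := by
    have := Nat.lt_floor_add_one u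
    linarith
  have hf2 : (2 : ℝ) ≤ (⌊u⌋₊ : ℝ) := by
    have : 2 ≤ ⌊u⌋₊ := Nat.le_floor (by exact_mod_cast hu)
    exact_mod_cast this
  have hle : (⌊u⌋₊ : ℝ) ≤ u := Nat.floor_le (by linarith)
  have hl2 : (0.69 : ℝ) < Real.log 2 := by linarith [Real.log_two_gt_d9]
  have hlf : Real.log 2 ≤ Real.log ⌊u⌋₊ := Real.log_le_log (by norm_num) hf2
  have hlu : Real.log ⌊u⌋₊ ≤ Real.log u := Real.log_le_log (by linarith) hle
  constructor
  · have := Real.log_le_log (by linarith) hlu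
    linarith
  · have h1 : Real.log u - Real.log ⌊u⌋₊ ≤ 1 / (⌊u⌋₊ : ℝ) := by
      rw [← Real.log_div (by linarith) (by linarith)]
      refine (Real.log_le_sub_one_of_pos (by positivity)).trans ?_
      rw [div_sub_one (by linarith)]
      apply div_le_div_of_nonneg_right _ (by linarith)
      have := Nat.lt_floor_add_one u
      linarith
    rw [← Real.log_div (by linarith) (by linarith)]
    refine (Real.log_le_sub_one_of_pos (by apply div_pos <;> linarith)).trans ?_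
    rw [div_sub_one (by linarith), div_le_iff₀ (by linarith)]
    refine h1.trans ?_
    have h2 : 1 / (⌊u⌋₊ : ℝ) ≤ 2 / u := by
      have : 1 / (⌊u⌋₊ : ℝ) ≤ 1 / (u / 2) := one_div_le_one_div_of_le (by linarith) hfu
      have h7 : 1 / (u / 2) = 2 / u := by field_simp
      linarith
    refine h2.trans ?_
    have h3 : 4 / u * Real.log ⌊u⌋₊ = 2 / u * (2 * Real.log ⌊u⌋₊) := by ring
    rw [h3]
    have h4 : 0 ≤ 2 / u := by positivity
    nlinarith

/-- Mertens' second theorem for `PR u v`. -/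
theorem mert_sum : ∃ C : ℝ, 0 < C ∧ ∀ u v : ℝ, 2 ≤ u → u ≤ v →
    |∑ p ∈ PR u v, 1 / (p : ℝ) - (Real.log (Real.log v) - Real.log (Real.log u))| ≤
      C / Real.log u := by
  obtain ⟨C, hC, h⟩ := Pool.Agent.Work.MP_b0c12c_nt_helper41.mertens2
  refine ⟨2 * C + 12, by positivity, fun u v hu huv => ?_⟩
  have hl2 : (0.69 : ℝ) < Real.log 2 := by linarith [Real.log_two_gt_d9]
  have hlu : 0 < Real.log u := Real.log_pos (by linarith)
  have hu2 : 2 ≤ ⌊u⌋₊ := Nat.le_floor (by exact_mod_cast hu)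
  have h1 := h ⌊u⌋₊ ⌊v⌋₊ hu2 (Nat.floor_le_floor huv)
  have h2 := sum_Ioc_sub_PR hu huv
  have h3 := loglog_floor_sub hu
  have h4 := loglog_floor_sub (hu.trans huv)
  have h5 : 4 / v ≤ 4 / u := div_le_div_of_nonneg_left (by norm_num) (by linarith) huv
  have h6 : 4 / u ≤ 4 / Real.log u :=
    div_le_div_of_nonneg_left (by norm_num) hlu
      (by linarith [Real.log_le_sub_one_of_pos (show 0 < u by linarith)])
  have h7 : C / Real.log ⌊u⌋₊ ≤ 2 * C / Real.log u := by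
    have hf2 : (2 : ℝ) ≤ (⌊u⌋₊ : ℝ) := by exact_mod_cast hu2
    have hfl : 0 < Real.log ⌊u⌋₊ := Real.log_pos (by linarith)
    rw [div_le_div_iff₀ hfl hlu]
    have h8 : Real.log u ≤ 2 * Real.log ⌊u⌋₊ := by
      have h9 : u ≤ (⌊u⌋₊ : ℝ) ^ 2 := by
        have := Nat.lt_floor_add_one u
        nlinarith
      calc Real.log u ≤ Real.log ((⌊u⌋₊ : ℝ) ^ 2) := Real.log_le_log (by linarith) h9
        _ = 2 * Real.log ⌊u⌋₊ := by rw [Real.log_pow]; norm_num
    nlinarith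
  have h8 : (2 * C + 12) / Real.log u = 2 * C / Real.log u + 4 / Real.log u + 4 / Real.log u +
      4 / Real.log u := by ring
  rw [h8]
  rw [abs_le] at h1 h2 ⊢
  constructor <;> linarith

lemma sum_inv_sq_le {u v : ℝ} (hu : 2 ≤ u) : ∑ p ∈ PR u v, 1 / (p : ℝ) ^ 2 ≤ 2 / u := by
  have h1 : PR u v ⊆ Ioc (⌈u⌉₊ - 1) ⌈v⌉₊ := by
    intro p hp
    rw [mem_PR] at hp
    rw [mem_Ioc]
    have h2 : ⌈u⌉₊ ≤ p := Nat.ceil_le.2 hp.2.1
    have h3 : p ≤ ⌈v⌉₊ := by
      have := hp.2.2.trans_le (Nat.le_ceil v)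
      exact_mod_cast this.le
    have h4 : 0 < p := hp.1.pos
    omega
  have h2 : ∀ a b : ℕ, 1 ≤ a → a ≤ b → ∑ n ∈ Ioc a b, 1 / (n : ℝ) ^ 2 ≤ 1 / (a : ℝ) - 1 / b := by
    intro a b ha hab
    induction b, hab using Nat.le_induction with
    | base => simp
    | succ b hb ih =>
      rw [← Finset.insert_Ioc_right_eq_Ioc_add_one (by omega), sum_insert (by simp)]
      have hb0 : (0 : ℝ) < b := by exact_mod_cast (by omega : 0 < b)
      have h3 : 1 / ((b + 1 : ℕ) : ℝ) ^ 2 ≤ 1 / (b : ℝ) - 1 / ((b + 1 : ℕ) : ℝ) := by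
        push_cast
        rw [div_sub_div _ _ (by positivity) (by positivity), div_le_div_iff₀ (by positivity) (by positivity)]
        nlinarith
      linarith
  rcases le_or_gt (⌈u⌉₊ - 1) ⌈v⌉₊ with h | h
  · have hc : 2 ≤ ⌈u⌉₊ := by
      have : (2 : ℝ) ≤ ⌈u⌉₊ := hu.trans (Nat.le_ceil u)
      exact_mod_cast this
    have h3 := h2 (⌈u⌉₊ - 1) ⌈v⌉₊ (by omega) h
    have h4 : ∑ p ∈ PR u v, 1 / (p : ℝ) ^ 2 ≤ ∑ n ∈ Ioc (⌈u⌉₊ - 1) ⌈v⌉₊, 1 / (n : ℝ) ^ 2 :=
      sum_le_sum_of_subset_of_nonneg h1 fun _ _ _ => by positivity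
    have h5 : (0 : ℝ) ≤ 1 / (⌈v⌉₊ : ℝ) := by positivity
    have h6 : u / 2 ≤ ((⌈u⌉₊ - 1 : ℕ) : ℝ) := by
      rw [Nat.cast_sub (by omega)]
      have := Nat.le_ceil u
      push_cast
      linarith
    have h7 : 1 / (((⌈u⌉₊ - 1 : ℕ)) : ℝ) ≤ 2 / u := by
      have : 1 / (((⌈u⌉₊ - 1 : ℕ)) : ℝ) ≤ 1 / (u / 2) := one_div_le_one_div_of_le (by linarith) h6
      have h7 : 1 / (u / 2) = 2 / u := by field_simp
      linarith
    linarith
  · have : PR u v = ∅ := by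
      apply Finset.eq_empty_of_forall_notMem
      intro p hp
      have := h1 hp
      rw [mem_Ioc] at this
      omega
    rw [this, sum_empty]
    positivity

/-- `log (1 - K x)` for small `x`. -/
lemma log_one_sub {x : ℝ} (h0 : 0 ≤ x) (h1 : x ≤ 1 / 2) :
    -x - x ^ 2 ≤ Real.log (1 - x) ∧ Real.log (1 - x) ≤ -x := by
  constructor
  · have h2 := Real.one_sub_inv_le_log_of_pos (show 0 < 1 - x by linarith)
    have h3 : (1 - x)⁻¹ ≤ 1 + x + 2 * x ^ 2 := by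
      rw [inv_le_iff_one_le_mul₀ (by linarith)]
      nlinarith [mul_nonneg h0 h0, mul_nonneg (mul_nonneg h0 h0) (sub_nonneg.2 h1)]
    -- the weak bound is not enough, use the series
    have h4 : -Real.log (1 - x) ≤ x + x ^ 2 := by
      have h5 := Real.abs_log_sub_add_sum_range_le (show |x| < 1 by rw [abs_of_nonneg h0]; linarith) 1
      simp only [Finset.sum_range_one, Nat.cast_zero, zero_add, pow_one, div_one] at h5
      rw [abs_of_nonneg h0] at h5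
      have h6 : x ^ 2 / (1 - x) ≤ 2 * x ^ 2 := by
        rw [div_le_iff₀ (by linarith)]
        nlinarith [mul_nonneg h0 h0]
      -- |x + log (1 - x)| ≤ x^2/(1-x): only gives 2 x^2; refine by calculus
      have h7 : Real.log ((1 - x)⁻¹) ≤ x + x ^ 2 := by
        rw [← Real.log_exp (x + x ^ 2)]
        apply Real.log_le_log (inv_pos.2 (by linarith))
        rw [inv_le_iff_one_le_mul₀ (by linarith)]
        have h8 : 1 + (x + x ^ 2) + (x + x ^ 2) ^ 2 / 2 ≤ Real.exp (x + x ^ 2) :=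
          Real.quadratic_le_exp_of_nonneg (by positivity)
        have h9 : 1 ≤ (1 - x) * (1 + (x + x ^ 2) + (x + x ^ 2) ^ 2 / 2) := by
          have : (1 - x) * (1 + (x + x ^ 2) + (x + x ^ 2) ^ 2 / 2) - 1 =
              x ^ 2 / 2 * (1 - x - x ^ 2 - x ^ 3) := by ring
          have h10 : 0 ≤ 1 - x - x ^ 2 - x ^ 3 := by
            have h11 : x ^ 2 ≤ 1 / 4 := by nlinarith
            have h12 : x ^ 3 ≤ 1 / 8 := by nlinarith [mul_nonneg h0 (sq_nonneg x)]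
            linarith
          nlinarith [mul_nonneg (sq_nonneg x) h10]
        have h13 : 0 < 1 - x := by linarith
        nlinarith [mul_le_mul_of_nonneg_left h8 h13.le]
      rw [Real.log_inv] at h7
      exact h7
    linarith
  · have := Real.log_le_sub_one_of_pos (show 0 < 1 - x by linarith)
    linarith

/-- Mertens products: `∏ (1 - K/p)` for the primes `u ≤ p < v`, `u ≥ 2K`. -/
theorem mert_prodK (K : ℕ) (hK : 1 ≤ K) : ∃ C : ℝ, 0 < C ∧ ∀ u v : ℝ, 2 * (K : ℝ) ≤ u → u ≤ v →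
    Real.exp (-(C / Real.log u)) * (Real.log u / Real.log v) ^ K ≤ ∏ p ∈ PR u v, (1 - (K : ℝ) / p) ∧
    ∏ p ∈ PR u v, (1 - (K : ℝ) / p) ≤ Real.exp (C / Real.log u) * (Real.log u / Real.log v) ^ K := by
  obtain ⟨C, hC, h⟩ := mert_sum
  have hK1 : (1 : ℝ) ≤ K := by exact_mod_cast hK
  refine ⟨K * C + 2 * K ^ 2, by positivity, fun u v hu huv => ?_⟩
  have hu2 : 2 ≤ u := by linarith
  have hlu : 0 < Real.log u := Real.log_pos (by linarith)
  have hlv : 0 < Real.log v := Real.log_pos (by linarith)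
  have h1 := h u v hu2 huv
  have h2 := sum_inv_sq_le (v := v) hu2
  have h3 : ∀ p ∈ PR u v, 0 ≤ (K : ℝ) / p ∧ (K : ℝ) / p ≤ 1 / 2 := by
    intro p hp
    rw [mem_PR] at hp
    refine ⟨by positivity, ?_⟩
    rw [div_le_iff₀ (by linarith [hp.2.1])]
    linarith [hp.2.1]
  have hpos : ∀ p ∈ PR u v, 0 < 1 - (K : ℝ) / p := fun p hp => by linarith [(h3 p hp).2]
  have h4 : Real.log (∏ p ∈ PR u v, (1 - (K : ℝ) / p)) = ∑ p ∈ PR u v, Real.log (1 - (K : ℝ) / p) :=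
    Real.log_prod fun p hp => (hpos p hp).ne'
  have hP : 0 < ∏ p ∈ PR u v, (1 - (K : ℝ) / p) := prod_pos hpos
  have h5 : ∑ p ∈ PR u v, Real.log (1 - (K : ℝ) / p) ≤ -(K * ∑ p ∈ PR u v, 1 / (p : ℝ)) := by
    rw [mul_sum, ← sum_neg_distrib]
    apply sum_le_sum
    intro p hp
    have := (log_one_sub (h3 p hp).1 (h3 p hp).2).2
    rw [mul_one_div]
    exact this
  have h6 : -(K * ∑ p ∈ PR u v, 1 / (p : ℝ)) - K ^ 2 * ∑ p ∈ PR u v, 1 / (p : ℝ) ^ 2 ≤
      ∑ p ∈ PR u v, Real.log (1 - (K : ℝ) / p) := by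
    rw [mul_sum, mul_sum, ← sum_neg_distrib, ← sum_sub_distrib]
    apply sum_le_sum
    intro p hp
    have := (log_one_sub (h3 p hp).1 (h3 p hp).2).1
    rw [mul_one_div, mul_one_div]
    rw [div_pow] at this
    exact this
  have h7 : 2 / u ≤ 2 / Real.log u := div_le_div_of_nonneg_left (by norm_num) hlu
      (by linarith [Real.log_le_sub_one_of_pos (show 0 < u by linarith)])
  have h8 : Real.log ((Real.log u / Real.log v) ^ K) =
      -(K * (Real.log (Real.log v) - Real.log (Real.log u))) := by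
    rw [Real.log_pow, Real.log_div hlu.ne' hlv.ne']; ring
  have hq : 0 < (Real.log u / Real.log v) ^ K := by positivity
  have h9 : (K * C + 2 * K ^ 2) / Real.log u = K * (C / Real.log u) + K ^ 2 * (2 / Real.log u) := by
    ring
  rw [abs_le] at h1
  constructor
  · rw [← Real.log_le_log_iff (by positivity) hP, Real.log_mul (Real.exp_pos _).ne' hq.ne',
      Real.log_exp, h8, h4, h9]
    refine le_trans ?_ h6
    have h10 : K ^ 2 * ∑ p ∈ PR u v, 1 / (p : ℝ) ^ 2 ≤ K ^ 2 * (2 / Real.log u) :=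
      mul_le_mul_of_nonneg_left (h2.trans h7) (by positivity)
    have h11 := mul_le_mul_of_nonneg_left h1.2 (show (0 : ℝ) ≤ K by linarith)
    linarith
  · rw [← Real.log_le_log_iff hP (by positivity), Real.log_mul (Real.exp_pos _).ne' hq.ne',
      Real.log_exp, h8, h4, h9]
    refine h5.trans ?_
    have h10 : 0 ≤ K ^ 2 * (2 / Real.log u) := by positivity
    have h11 := mul_le_mul_of_nonneg_left h1.1 (show (0 : ℝ) ≤ K by linarith)
    linarith

/-- Mertens product `∏ (1 - 1/p)`, `u ≤ p < v`, with explicit error. -/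
theorem mert_prod : ∃ C : ℝ, 0 < C ∧ ∀ u v : ℝ, 2 ≤ u → u ≤ v →
    Real.exp (-(C / Real.log u)) * (Real.log u / Real.log v) ≤ ∏ p ∈ PR u v, (1 - 1 / (p : ℝ)) ∧
    ∏ p ∈ PR u v, (1 - 1 / (p : ℝ)) ≤ Real.exp (C / Real.log u) * (Real.log u / Real.log v) := by
  obtain ⟨C, hC, h⟩ := mert_prodK 1 le_rfl
  refine ⟨C, hC, fun u v hu huv => ?_⟩
  have := h u v (by simpa using hu) huv
  simpa using this

/-- The same with an absolute constant. -/
theorem mert_prod' : ∃ C : ℝ, 1 ≤ C ∧ ∀ u v : ℝ, 2 ≤ u → u ≤ v →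
    1 / C * (Real.log u / Real.log v) ≤ ∏ p ∈ PR u v, (1 - 1 / (p : ℝ)) ∧
    ∏ p ∈ PR u v, (1 - 1 / (p : ℝ)) ≤ C * (Real.log u / Real.log v) := by
  obtain ⟨C, hC, h⟩ := mert_prod
  have hl2 : 0 < Real.log 2 := Real.log_pos (by norm_num)
  refine ⟨Real.exp (C / Real.log 2), Real.one_le_exp (by positivity), fun u v hu huv => ?_⟩
  have hlu : Real.log 2 ≤ Real.log u := Real.log_le_log (by norm_num) hu
  have hlv : 0 < Real.log v := Real.log_pos (by linarith)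
  have h1 : C / Real.log u ≤ C / Real.log 2 := div_le_div_of_nonneg_left hC.le hl2 hlu
  have h2 := h u v hu huv
  have hq : 0 ≤ Real.log u / Real.log v := by
    apply div_nonneg <;> linarith
  constructor
  · refine le_trans (mul_le_mul_of_nonneg_right ?_ hq) h2.1
    rw [one_div, ← Real.exp_neg]
    exact Real.exp_le_exp.2 (by linarith)
  · exact h2.2.trans (mul_le_mul_of_nonneg_right (Real.exp_le_exp.2 h1) hq)

end Pool.Agent.GapTwo
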