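import Pool.Agent.Work.MP_1ea053_nt.Interface
import Pool.Agent.Work.MP_1ea053_nt.Tool
import Pool.Agent.Work.MP_b0c12c_nt.Gam
import Pool.Agent.Work.MP_b0c12c_nt.Vz
import Pool.Agent.Work.MP_b0c12c_nt_helper41.Mert

/-!
# Mertens' third theorem: `log x * ∏_{p < x} (1 - 1 / p) → exp (-γ)`.
-/

set_option autoImplicit false

namespace Pool.Agent.GapTwoMER

open Finset Filter MeasureTheory
open scoped Topology
open Pool.Agent.Work.MP_b0c12c_nt (Vz kk Ein gg pp ph ph_mul ph_anti ph_nonneg continuous_ph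
  ph_zero_le pp_one_eq tendsto_xgg Vz_eventually)
open Pool.Agent.Work.MP_b0c12c_nt_helper41 (FF FF_succ mertens1)

/-- factorwise inequality -/
lemma factor_le {σ : ℝ} (hσ : 0 ≤ σ) {p : ℕ} (hp : p.Prime) :
    1 - 1 / (p : ℝ) ≤ (1 - (p : ℝ) ^ (-(1 + σ))) *
      Real.exp (-(Real.log p / p * ph σ (Real.log p))) := by
  have hp2 : (2 : ℝ) ≤ p := by exact_mod_cast hp.two_le
  have hp0 : (0 : ℝ) < p := by linarith
  have h1 : (p : ℝ) ^ (-(1 + σ)) = 1 / p * Real.exp (-(σ * Real.log p)) := by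
    rw [neg_add, Real.rpow_add hp0, Real.rpow_neg_one, Real.rpow_def_of_pos hp0]
    rw [one_div]
    congr 2
    ring
  obtain ⟨y, hy⟩ : ∃ y, y = Real.exp (-(σ * Real.log p)) := ⟨_, rfl⟩
  have hy0 : 0 < y := by rw [hy]; exact Real.exp_pos _
  have hy1 : y ≤ 1 := by
    rw [hy]
    apply Real.exp_le_one_iff.mpr
    have := mul_nonneg hσ (Real.log_nonneg (by linarith : (1 : ℝ) ≤ p))
    linarith
  have h2 : Real.log p / p * ph σ (Real.log p) = (1 - y) / p := by
    rw [hy, ← ph_mul (σ := σ) (t := Real.log p)]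
    ring
  rw [h2, h1, ← hy]
  have hu := Real.add_one_le_exp (-((1 - y) / (p : ℝ)))
  have hyp : 1 / (p : ℝ) * y ≤ 1 / 2 := by
    have : 1 / (p : ℝ) ≤ 1 / 2 := one_div_le_one_div_of_le (by norm_num) hp2
    have hpp : 0 < 1 / (p : ℝ) := by positivity
    nlinarith
  have h3 := mul_le_mul_of_nonneg_left hu (by linarith : (0 : ℝ) ≤ 1 - 1 / (p : ℝ) * y)
  refine le_trans ?_ h3
  have h4 : 0 ≤ (1 / (p : ℝ) * y) * ((1 - y) / p) := by
    apply mul_nonneg (by positivity)
    exact div_nonneg (by linarith) hp0.le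
  have h5 : (1 - 1 / (p : ℝ) * y) * (-((1 - y) / (p : ℝ)) + 1) =
      1 - 1 / (p : ℝ) + (1 / (p : ℝ) * y) * ((1 - y) / p) := by
    field_simp
    ring
  rw [h5]
  linarith

/-- Abel summation, step -/
lemma sum_succ (m n : ℕ) (h : m ≤ n) (f : ℕ → ℝ) :
    ∑ p ∈ (Ioc m (n + 1)).filter Nat.Prime, f p =
      ∑ p ∈ (Ioc m n).filter Nat.Prime, f p + (if (n + 1).Prime then f (n + 1) else 0) := by
  have h0 : Ioc m (n + 1) = insert (n + 1) (Ioc m n) := by
    ext x
    simp only [mem_insert, mem_Ioc]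
    omega
  rw [h0, Finset.filter_insert]
  split_ifs with hp
  · rw [Finset.sum_insert (by simp), add_comm]
  · ring

lemma log_succ_sub {n : ℕ} (hn : 1 ≤ n) :
    0 ≤ Real.log ((n + 1 : ℕ) : ℝ) - Real.log n ∧
      Real.log ((n + 1 : ℕ) : ℝ) - Real.log n ≤ 1 := by
  have hn0 : (1 : ℝ) ≤ n := by exact_mod_cast hn
  constructor
  · rw [sub_nonneg]
    apply Real.log_le_log (by linarith)
    push_cast
    linarith
  · rw [← Real.log_div (by positivity) (by positivity)]
    have h := Real.log_le_sub_one_of_pos (x := ((n + 1 : ℕ) : ℝ) / n) (by positivity)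
    refine h.trans ?_
    push_cast
    have : ((n : ℝ) + 1) / n = 1 + 1 / n := by field_simp
    rw [this]
    have : 1 / (n : ℝ) ≤ 1 := by rw [div_le_one (by linarith)]; exact hn0
    linarith

/-- integral over a step -/
lemma int_step {φ : ℝ → ℝ} (hφ : Antitone φ) (hc : Continuous φ) {n : ℕ} (hn : 1 ≤ n) :
    (Real.log ((n + 1 : ℕ) : ℝ) - Real.log n) * φ (Real.log ((n + 1 : ℕ) : ℝ)) ≤
      ∫ t in (Real.log n)..(Real.log ((n + 1 : ℕ) : ℝ)), φ t ∧
    ∫ t in (Real.log n)..(Real.log ((n + 1 : ℕ) : ℝ)), φ t ≤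
      (Real.log ((n + 1 : ℕ) : ℝ) - Real.log n) * φ (Real.log n) := by
  have hl : Real.log n ≤ Real.log ((n + 1 : ℕ) : ℝ) := by
    have := (log_succ_sub hn).1
    linarith
  constructor
  · have h6 : ∫ t in (Real.log n)..(Real.log ((n + 1 : ℕ) : ℝ)), φ (Real.log ((n + 1 : ℕ) : ℝ)) ≤
        ∫ t in (Real.log n)..(Real.log ((n + 1 : ℕ) : ℝ)), φ t := by
      apply intervalIntegral.integral_mono_on hl (by simp) (hc.intervalIntegrable _ _)
      intro t ht
      exact hφ ht.2
    simpa using h6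
  · have h6 : ∫ t in (Real.log n)..(Real.log ((n + 1 : ℕ) : ℝ)), φ t ≤
        ∫ t in (Real.log n)..(Real.log ((n + 1 : ℕ) : ℝ)), φ (Real.log n) := by
      apply intervalIntegral.integral_mono_on hl (hc.intervalIntegrable _ _) (by simp)
      intro t ht
      exact hφ ht.1
    simpa using h6

/-- Abel lower bound -/
lemma abel_lower {φ : ℝ → ℝ} (hφ : Antitone φ) (hc : Continuous φ) (h0 : ∀ t, 0 ≤ φ t)
    {C : ℝ} (hC : ∀ n : ℕ, 1 ≤ n → |FF n - Real.log n| ≤ C) {m : ℕ} (hm : 1 ≤ m) {n : ℕ}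
    (hmn : m ≤ n) :
    (FF n - Real.log n + C + 1) * φ (Real.log n) - (2 * C + 1) * φ (Real.log m) +
      ∫ t in (Real.log m)..(Real.log n), φ t ≤
      ∑ p ∈ (Ioc m n).filter Nat.Prime, Real.log p / p * φ (Real.log p) := by
  induction n, hmn using Nat.le_induction with
  | base =>
    have := abs_le.mp (hC m hm)
    have h1 := mul_le_mul_of_nonneg_right this.2 (h0 (Real.log m))
    simp only [Ioc_self, filter_empty, sum_empty, intervalIntegral.integral_same]
    nlinarith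
  | succ n hmn ih =>
    have hn : 1 ≤ n := hm.trans hmn
    rw [sum_succ m n hmn]
    obtain ⟨a, ha⟩ : ∃ a : ℝ, a = (if (n + 1).Prime then Real.log ((n + 1 : ℕ) : ℝ) /
      ((n + 1 : ℕ) : ℝ) else 0) := ⟨_, rfl⟩
    have hG1 : FF (n + 1) = FF n + a := by rw [FF_succ, ha]
    have hT2 : (if (n + 1).Prime then
        Real.log ((n + 1 : ℕ) : ℝ) / ((n + 1 : ℕ) : ℝ) * φ (Real.log ((n + 1 : ℕ) : ℝ))
        else 0) = a * φ (Real.log ((n + 1 : ℕ) : ℝ)) := by
      rw [ha]
      split_ifs <;> simp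
    rw [hT2, hG1]
    have h4 : ∫ t in (Real.log m)..(Real.log ((n + 1 : ℕ) : ℝ)), φ t =
        (∫ t in (Real.log m)..(Real.log n), φ t) +
        ∫ t in (Real.log n)..(Real.log ((n + 1 : ℕ) : ℝ)), φ t := by
      rw [intervalIntegral.integral_add_adjacent_intervals
        (hc.intervalIntegrable _ _) (hc.intervalIntegrable _ _)]
    rw [h4]
    have h5 := (int_step hφ hc hn).2
    have h6 := log_succ_sub hn
    have h7 := hφ (show Real.log n ≤ Real.log ((n + 1 : ℕ) : ℝ) by linarith [h6.1])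
    have h8 := (abs_le.mp (hC n hn)).1
    have h9 : (Real.log ((n + 1 : ℕ) : ℝ) - Real.log n) *
        (φ (Real.log n) - φ (Real.log ((n + 1 : ℕ) : ℝ))) ≤
        (FF n - Real.log n + C + 1) * (φ (Real.log n) - φ (Real.log ((n + 1 : ℕ) : ℝ))) := by
      apply mul_le_mul_of_nonneg_right _ (by linarith)
      linarith [h6.2]
    nlinarith

/-- Abel upper bound -/
lemma abel_upper {φ : ℝ → ℝ} (hφ : Antitone φ) (hc : Continuous φ) (h0 : ∀ t, 0 ≤ φ t)
    {C : ℝ} (hC : ∀ n : ℕ, 1 ≤ n → |FF n - Real.log n| ≤ C) {m : ℕ} (hm : 1 ≤ m) {n : ℕ}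
    (hmn : m ≤ n) :
    ∑ p ∈ (Ioc m n).filter Nat.Prime, Real.log p / p * φ (Real.log p) ≤
    (FF n - Real.log n - C) * φ (Real.log n) + 2 * C * φ (Real.log m) +
      ∫ t in (Real.log m)..(Real.log n), φ t := by
  induction n, hmn using Nat.le_induction with
  | base =>
    have := abs_le.mp (hC m hm)
    have h1 := mul_le_mul_of_nonneg_right this.1 (h0 (Real.log m))
    simp only [Ioc_self, filter_empty, sum_empty, intervalIntegral.integral_same]
    nlinarith
  | succ n hmn ih =>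
    have hn : 1 ≤ n := hm.trans hmn
    rw [sum_succ m n hmn]
    obtain ⟨a, ha⟩ : ∃ a : ℝ, a = (if (n + 1).Prime then Real.log ((n + 1 : ℕ) : ℝ) /
      ((n + 1 : ℕ) : ℝ) else 0) := ⟨_, rfl⟩
    have hG1 : FF (n + 1) = FF n + a := by rw [FF_succ, ha]
    have hT2 : (if (n + 1).Prime then
        Real.log ((n + 1 : ℕ) : ℝ) / ((n + 1 : ℕ) : ℝ) * φ (Real.log ((n + 1 : ℕ) : ℝ))
        else 0) = a * φ (Real.log ((n + 1 : ℕ) : ℝ)) := by
      rw [ha]
      split_ifs <;> simp
    rw [hT2, hG1]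
    have h4 : ∫ t in (Real.log m)..(Real.log ((n + 1 : ℕ) : ℝ)), φ t =
        (∫ t in (Real.log m)..(Real.log n), φ t) +
        ∫ t in (Real.log n)..(Real.log ((n + 1 : ℕ) : ℝ)), φ t := by
      rw [intervalIntegral.integral_add_adjacent_intervals
        (hc.intervalIntegrable _ _) (hc.intervalIntegrable _ _)]
    rw [h4]
    have h5 := (int_step hφ hc hn).1
    have h6 := log_succ_sub hn
    have h7 := hφ (show Real.log n ≤ Real.log ((n + 1 : ℕ) : ℝ) by linarith [h6.1])
    have h8 := (abs_le.mp (hC n hn)).2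
    have h9 : (FF n - Real.log n - C) * (φ (Real.log n) - φ (Real.log ((n + 1 : ℕ) : ℝ))) ≤ 0 := by
      apply mul_nonpos_of_nonpos_of_nonneg (by linarith) (by linarith)
    nlinarith

/-- the sum of `φ = ph σ` from below -/
lemma sum_ph_ge {C : ℝ} (hC : ∀ n : ℕ, 1 ≤ n → |FF n - Real.log n| ≤ C) {σ : ℝ} (hσ : 0 ≤ σ)
    {n : ℕ} (hn : 1 ≤ n) :
    Ein (σ * Real.log n) - (2 * C + 1) * σ ≤
      ∑ p ∈ (Icc 1 n).filter Nat.Prime, Real.log p / p * ph σ (Real.log p) := by
  have h1 := abel_lower (φ := ph σ) (fun _ _ h => ph_anti hσ h) (continuous_ph σ)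
    (fun t => ph_nonneg hσ t) hC le_rfl hn
  have hI : (Icc 1 n).filter Nat.Prime = (Ioc 1 n).filter Nat.Prime := by
    ext p
    simp only [mem_filter, mem_Icc, mem_Ioc]
    constructor
    · rintro ⟨⟨_, h⟩, hp⟩
      exact ⟨⟨hp.one_lt, h⟩, hp⟩
    · rintro ⟨⟨h', h⟩, hp⟩
      exact ⟨⟨h'.le, h⟩, hp⟩
  rw [hI]
  refine le_trans ?_ h1
  simp only [Nat.cast_one, Real.log_one]
  have h5 : ∫ t in (0 : ℝ)..(Real.log n), ph σ t = Ein (σ * Real.log n) := by
    unfold Ein ph
    rw [intervalIntegral.integral_const_mul, intervalIntegral.mul_integral_comp_mul_left]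
    simp
  rw [h5]
  have hC0 : 0 ≤ C := (abs_nonneg _).trans (hC 1 le_rfl)
  have h2 := mul_le_mul_of_nonneg_left (ph_zero_le hσ) (by linarith : 0 ≤ 2 * C + 1)
  have h3 : 0 ≤ (FF n - Real.log n + C + 1) * ph σ (Real.log n) := by
    apply mul_nonneg _ (ph_nonneg hσ _)
    have := (abs_le.mp (hC n hn)).1
    linarith
  linarith

/-- the tail of the series over the primes -/
lemma tail_le {C : ℝ} (hC : ∀ n : ℕ, 1 ≤ n → |FF n - Real.log n| ≤ C) {σ : ℝ} (hσ : 0 < σ)
    {z : ℕ} (hz : 2 ≤ z) {Y : ℕ} (hY : z ≤ Y) :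
    ∑ p ∈ (Ioc z Y).filter Nat.Prime, (p : ℝ) ^ (-(1 + σ)) ≤
      Real.exp (-(σ * Real.log z)) * (2 * C / Real.log z + 1 / (σ * Real.log z)) := by
  have hlz : 0 < Real.log z := Real.log_pos (by exact_mod_cast (by omega : 1 < z))
  have hanti : Antitone fun t : ℝ => Real.exp (-(σ * t)) := by
    intro s t h
    apply Real.exp_le_exp.mpr
    have := mul_le_mul_of_nonneg_left h hσ.le
    linarith
  have hcont : Continuous fun t : ℝ => Real.exp (-(σ * t)) := by fun_prop
  have h1 := abel_upper (φ := fun t => Real.exp (-(σ * t))) hanti hcont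
    (fun t => (Real.exp_pos _).le) hC (by omega : 1 ≤ z) hY
  have h2 : (FF Y - Real.log Y - C) * Real.exp (-(σ * Real.log Y)) ≤ 0 := by
    apply mul_nonpos_of_nonpos_of_nonneg _ (Real.exp_pos _).le
    have := (abs_le.mp (hC Y (by omega))).2
    linarith
  have h3 : ∫ t in (Real.log z)..(Real.log Y), Real.exp (-(σ * t)) =
      (-(Real.exp (-(σ * Real.log Y)) / σ)) - (-(Real.exp (-(σ * Real.log z)) / σ)) := by
    apply intervalIntegral.integral_eq_sub_of_hasDerivAt (f := fun t => -(Real.exp (-(σ * t)) / σ))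
    · intro t _
      have h4 : HasDerivAt (fun t : ℝ => -(σ * t)) (-σ) t := by
        have h5 := ((hasDerivAt_id t).const_mul (-σ))
        simp only [mul_one, id_eq] at h5
        refine h5.congr_of_eventuallyEq (Eventually.of_forall fun u => ?_)
        simp
      refine ((h4.exp.div_const σ).neg).congr_deriv ?_
      field_simp
    · exact hcont.intervalIntegrable _ _
  rw [h3] at h1
  have h5 : 0 < Real.exp (-(σ * Real.log Y)) / σ := by positivity
  have h6 : ∀ p ∈ (Ioc z Y).filter Nat.Prime, (p : ℝ) ^ (-(1 + σ)) ≤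
      1 / Real.log z * (Real.log p / p * Real.exp (-(σ * Real.log p))) := by
    intro p hp
    simp only [mem_filter, mem_Ioc] at hp
    have hp2 : (2 : ℝ) ≤ p := by exact_mod_cast hp.2.two_le
    have hp0 : (0 : ℝ) < p := by linarith
    have h1 : (p : ℝ) ^ (-(1 + σ)) = 1 / p * Real.exp (-(σ * Real.log p)) := by
      rw [neg_add, Real.rpow_add hp0, Real.rpow_neg_one, Real.rpow_def_of_pos hp0]
      rw [one_div]
      congr 2
      ring
    rw [h1]
    have h7 : Real.log z ≤ Real.log p := by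
      apply Real.log_le_log (by exact_mod_cast (by omega : 0 < z))
      exact_mod_cast hp.1.1.le
    have h8 : 1 / Real.log z * (Real.log p / p * Real.exp (-(σ * Real.log p))) =
        (Real.log p / Real.log z) * (1 / p * Real.exp (-(σ * Real.log p))) := by
      field_simp
    rw [h8]
    have h9 : 1 ≤ Real.log p / Real.log z := by rw [one_le_div hlz]; exact h7
    have h10 : 0 ≤ 1 / p * Real.exp (-(σ * Real.log p)) := by positivity
    nlinarith
  refine (Finset.sum_le_sum h6).trans ?_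
  rw [← Finset.mul_sum]
  have h11 : ∑ p ∈ (Ioc z Y).filter Nat.Prime, Real.log p / p * Real.exp (-(σ * Real.log p)) ≤
      2 * C * Real.exp (-(σ * Real.log z)) + Real.exp (-(σ * Real.log z)) / σ := by
    linarith
  refine (mul_le_mul_of_nonneg_left h11 (by positivity)).trans (le_of_eq ?_)
  field_simp

/-- product over a tail -/
lemma one_sub_sum_le_prod {s : Finset ℕ} {f : ℕ → ℝ} (h0 : ∀ p ∈ s, 0 ≤ f p)
    (h1 : ∀ p ∈ s, f p ≤ 1) : 1 - ∑ p ∈ s, f p ≤ ∏ p ∈ s, (1 - f p) := by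
  classical
  induction s using Finset.induction_on with
  | empty => simp
  | insert a s ha ih =>
    rw [Finset.sum_insert ha, Finset.prod_insert ha]
    have h2 := ih (fun p hp => h0 p (mem_insert_of_mem hp)) (fun p hp => h1 p (mem_insert_of_mem hp))
    have h3 := h0 a (mem_insert_self _ _)
    have h4 := h1 a (mem_insert_self _ _)
    have h5 : ∏ p ∈ s, (1 - f p) ≤ 1 := by
      apply Finset.prod_le_one
      · intro p hp
        linarith [h1 p (mem_insert_of_mem hp)]
      · intro p hp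
        linarith [h0 p (mem_insert_of_mem hp)]
    have h6 : ∏ p ∈ s, (1 - f p) - f a ≤ (1 - f a) * ∏ p ∈ s, (1 - f p) := by nlinarith
    linarith

/-- limit of the partial products -/
lemma tendsto_prod {s : ℝ} (hs : 1 < s) :
    Tendsto (fun n : ℕ => ∏ p ∈ (Icc 1 n).filter Nat.Prime, (1 - (p : ℝ) ^ (-s))) atTop
      (𝓝 (∑' n : ℕ, 1 / (n : ℝ) ^ s)⁻¹) := by
  let f : ℕ →*₀ ℝ :=
    { toFun := fun n => (n : ℝ) ^ (-s)
      map_zero' := by
        simp only [Nat.cast_zero]
        exact Real.zero_rpow (by linarith)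
      map_one' := by simp
      map_mul' := fun m n => by
        rw [Nat.cast_mul, Real.mul_rpow (Nat.cast_nonneg m) (Nat.cast_nonneg n)] }
  have hf : ∀ n : ℕ, f n = (n : ℝ) ^ (-s) := fun _ => rfl
  have hsum : Summable fun n => ‖f n‖ := by
    have := Real.summable_one_div_nat_rpow.mpr hs
    refine this.congr fun n => ?_
    rw [hf, Real.norm_of_nonneg (by positivity), Real.rpow_neg (Nat.cast_nonneg n), one_div]
  have h1 := EulerProduct.eulerProduct_completely_multiplicative hsum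
  have h2 : ∑' n : ℕ, 1 / (n : ℝ) ^ s = ∑' n, f n := by
    apply tsum_congr
    intro n
    rw [hf, Real.rpow_neg (Nat.cast_nonneg n), one_div]
  have hpos : ∑' n, f n ≠ 0 := by
    rw [← h2]
    have hS := Real.summable_one_div_nat_rpow.mpr hs
    have h3 : (1 : ℝ) / ((1 : ℕ) : ℝ) ^ s ≤ ∑' n : ℕ, 1 / (n : ℝ) ^ s :=
      hS.le_tsum 1 (fun j _ => by positivity)
    simp only [Nat.cast_one, Real.one_rpow, div_one] at h3
    linarith
  rw [h2]
  have h4 := (h1.inv₀ hpos).comp (tendsto_add_atTop_nat 1)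
  refine h4.congr fun n => ?_
  simp only [Function.comp_apply]
  rw [Finset.prod_inv_distrib, inv_inv]
  apply Finset.prod_congr
  · ext p
    simp only [Nat.primesBelow, mem_filter, mem_range, mem_Icc]
    constructor
    · rintro ⟨h, hp⟩
      exact ⟨⟨hp.one_lt.le, by omega⟩, hp⟩
    · rintro ⟨⟨_, h⟩, hp⟩
      exact ⟨by omega, hp⟩
  · intro p _
    rw [hf]

/-- the upper bound for the partial product -/
lemma prod_le {C : ℝ} (hC : ∀ n : ℕ, 1 ≤ n → |FF n - Real.log n| ≤ C) {σ : ℝ} (hσ : 0 < σ)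
    {z : ℕ} (hz : 2 ≤ z) :
    (∏ p ∈ (Icc 1 z).filter Nat.Prime, (1 - (p : ℝ) ^ (-(1 + σ)))) *
      (1 - Real.exp (-(σ * Real.log z)) * (2 * C / Real.log z + 1 / (σ * Real.log z))) ≤
      (∑' n : ℕ, 1 / (n : ℝ) ^ (1 + σ))⁻¹ := by
  refine ge_of_tendsto (tendsto_prod (s := 1 + σ) (by linarith)) ?_
  filter_upwards [eventually_ge_atTop z] with Y hY
  have hI : (Icc 1 Y).filter Nat.Prime = (Icc 1 z).filter Nat.Prime ∪ (Ioc z Y).filter Nat.Prime := by
    ext p
    simp only [mem_filter, mem_Icc, mem_Ioc, mem_union]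
    constructor
    · rintro ⟨⟨h1, h2⟩, hp⟩
      rcases le_or_gt p z with h | h
      · exact Or.inl ⟨⟨h1, h⟩, hp⟩
      · exact Or.inr ⟨⟨h, h2⟩, hp⟩
    · rintro (⟨⟨h1, h2⟩, hp⟩ | ⟨⟨h1, h2⟩, hp⟩)
      · exact ⟨⟨h1, h2.trans hY⟩, hp⟩
      · exact ⟨⟨hp.one_lt.le, h2⟩, hp⟩
  rw [hI, Finset.prod_union]
  · have hle1 : ∀ p : ℕ, p.Prime → (p : ℝ) ^ (-(1 + σ)) ≤ 1 := fun p hp =>
      Real.rpow_le_one_of_one_le_of_nonpos (by exact_mod_cast hp.one_lt.le) (by linarith)
    apply mul_le_mul_of_nonneg_left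
    · refine le_trans ?_ (one_sub_sum_le_prod (fun p _ => by positivity) (fun p hp => ?_))
      · have := tail_le hC hσ hz hY
        linarith
      · exact hle1 p (mem_filter.mp hp).2
    · apply Finset.prod_nonneg
      intro p hp
      linarith [hle1 p (mem_filter.mp hp).2]
  · rw [Finset.disjoint_left]
    intro p h1 h2
    simp only [mem_filter, mem_Icc, mem_Ioc] at h1 h2
    omega

/-- main upper bound, for fixed `σ` -/
lemma Vz_le {C : ℝ} (hC : ∀ n : ℕ, 1 ≤ n → |FF n - Real.log n| ≤ C) {σ : ℝ} (hσ : 0 < σ)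
    {z : ℕ} (hz : 2 ≤ z)
    (hτ : Real.exp (-(σ * Real.log z)) * (2 * C / Real.log z + 1 / (σ * Real.log z)) ≤ 1) :
    Vz z * (1 - Real.exp (-(σ * Real.log z)) * (2 * C / Real.log z + 1 / (σ * Real.log z))) ≤
      (∑' n : ℕ, 1 / (n : ℝ) ^ (1 + σ))⁻¹ *
        Real.exp (-(Ein (σ * Real.log z) - (2 * C + 1) * σ)) := by
  have h1 : Vz z ≤ (∏ p ∈ (Icc 1 z).filter Nat.Prime, (1 - (p : ℝ) ^ (-(1 + σ)))) *
      Real.exp (-∑ p ∈ (Icc 1 z).filter Nat.Prime, Real.log p / p * ph σ (Real.log p)) := by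
    unfold Vz
    rw [← Finset.sum_neg_distrib, Real.exp_sum, ← Finset.prod_mul_distrib]
    apply Finset.prod_le_prod
    · intro p hp
      rw [mem_filter] at hp
      have hp2 : (1 : ℝ) ≤ p := by exact_mod_cast hp.2.one_lt.le
      rw [sub_nonneg, div_le_one (by linarith)]
      exact hp2
    · intro p hp
      rw [mem_filter] at hp
      exact factor_le hσ.le hp.2
  have h2 := sum_ph_ge hC hσ.le (by omega : 1 ≤ z)
  have h3 : Real.exp (-∑ p ∈ (Icc 1 z).filter Nat.Prime, Real.log p / p * ph σ (Real.log p)) ≤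
      Real.exp (-(Ein (σ * Real.log z) - (2 * C + 1) * σ)) := by
    apply Real.exp_le_exp.mpr
    linarith
  have hpp : 0 ≤ ∏ p ∈ (Icc 1 z).filter Nat.Prime, (1 - (p : ℝ) ^ (-(1 + σ))) := by
    apply Finset.prod_nonneg
    intro p hp
    rw [mem_filter] at hp
    have hp2 : (1 : ℝ) ≤ p := by exact_mod_cast hp.2.one_lt.le
    rw [sub_nonneg]
    exact Real.rpow_le_one_of_one_le_of_nonpos hp2 (by linarith)
  have h4 := prod_le hC hσ hz
  have h5 := h1.trans (mul_le_mul_of_nonneg_left h3 hpp)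
  have h6 := mul_le_mul_of_nonneg_right h5 (sub_nonneg.mpr hτ)
  refine h6.trans ?_
  have h7 := mul_le_mul_of_nonneg_right h4
    (Real.exp_pos (-(Ein (σ * Real.log z) - (2 * C + 1) * σ))).le
  refine le_trans (le_of_eq ?_) h7
  ring

/-- `limsup V(z) log z ≤ p(1)` -/
lemma Vz_eventually_le {c : ℝ} (hc : pp 1 < c) : ∀ᶠ z : ℕ in atTop, Vz z * Real.log z ≤ c := by
  obtain ⟨C, hC0, hC⟩ := mertens1
  -- choose x with x g(x) / (1 - exp (-x) / x) < c
  have hx1 : Tendsto (fun x : ℝ => x * gg x / (1 - Real.exp (-x) * (1 / x))) atTop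
      (𝓝 (pp 1 / (1 - 0 * 0))) := by
    apply Tendsto.div tendsto_xgg
    · apply Tendsto.const_sub
      apply Tendsto.mul
      · exact Real.tendsto_exp_neg_atTop_nhds_zero
      · exact (tendsto_const_nhds (x := (1 : ℝ))).div_atTop tendsto_id
    · norm_num
  have hv : pp 1 / (1 - 0 * 0) = pp 1 := by norm_num
  rw [hv] at hx1
  obtain ⟨x, hx, hx0⟩ := ((hx1.eventually_lt_const hc).and (eventually_ge_atTop (1 : ℝ))).exists
  have hx0' : 0 < x := by linarith
  have hτ0 : Real.exp (-x) * (1 / x) < 1 := by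
    have h1 : Real.exp (-x) < 1 := by
      rw [Real.exp_lt_one_iff]
      linarith
    have h2 : 1 / x ≤ 1 := by rw [div_le_one hx0']; exact hx0
    have h3 := Real.exp_pos (-x)
    have h4 : 0 < 1 / x := by positivity
    nlinarith
  -- limit in z
  have hlog : Tendsto (fun z : ℕ => Real.log z) atTop atTop :=
    Real.tendsto_log_atTop.comp tendsto_natCast_atTop_atTop
  have hσ : Tendsto (fun z : ℕ => x / Real.log z) atTop (𝓝 0) := hlog.const_div_atTop x
  have hσ' : Tendsto (fun z : ℕ => 1 + x / Real.log z) atTop (𝓝[>] 1) := by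
    rw [tendsto_nhdsWithin_iff]
    constructor
    · simpa using hσ.const_add 1
    · filter_upwards [hlog.eventually_gt_atTop 0] with z hz
      show (1 : ℝ) < 1 + x / Real.log z
      have := div_pos hx0' hz
      linarith
  have hz := tendsto_sub_mul_tsum_nat_rpow.comp hσ'
  have hτl : Tendsto (fun z : ℕ => Real.exp (-x) * (2 * C / Real.log z + 1 / x)) atTop
      (𝓝 (Real.exp (-x) * (0 + 1 / x))) := by
    apply Tendsto.const_mul
    exact (hlog.const_div_atTop (2 * C)).add_const _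
  rw [zero_add] at hτl
  have hlim : Tendsto (fun z : ℕ => (x * ((1 + x / Real.log z - 1) *
      ∑' n : ℕ, 1 / (n : ℝ) ^ (1 + x / Real.log z))⁻¹ *
        Real.exp (-(Ein x - (2 * C + 1) * (x / Real.log z)))) /
        (1 - Real.exp (-x) * (2 * C / Real.log z + 1 / x)))
      atTop (𝓝 ((x * 1⁻¹ * Real.exp (-(Ein x - (2 * C + 1) * 0))) /
        (1 - Real.exp (-x) * (1 / x)))) := by
    apply Tendsto.div
    · apply Tendsto.mul
      · exact (hz.inv₀ one_ne_zero).const_mul x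
      · apply (Real.continuous_exp.tendsto _).comp
        apply Tendsto.neg
        exact (hσ.const_mul (2 * C + 1)).const_sub _
    · exact hτl.const_sub 1
    · linarith
  have hval : (x * 1⁻¹ * Real.exp (-(Ein x - (2 * C + 1) * 0))) / (1 - Real.exp (-x) * (1 / x)) =
      x * gg x / (1 - Real.exp (-x) * (1 / x)) := by
    unfold gg
    simp
  rw [hval] at hlim
  filter_upwards [hlim.eventually_lt_const hx, eventually_ge_atTop 3,
    hτl.eventually_lt_const hτ0] with z h2 hz3 hτz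
  refine le_trans ?_ h2.le
  have hlz : 0 < Real.log z := Real.log_pos (by exact_mod_cast (by omega : 1 < z))
  have h4 : x / Real.log z * Real.log z = x := by field_simp
  have h3 := Vz_le hC (σ := x / Real.log z) (div_pos hx0' hlz) (z := z) (by omega)
    (by rw [h4]; exact hτz.le)
  rw [h4] at h3
  rw [le_div_iff₀ (by linarith)]
  have h5 := mul_le_mul_of_nonneg_right h3 hlz.le
  have e1 : Vz z * Real.log z * (1 - Real.exp (-x) * (2 * C / Real.log z + 1 / x)) =
      Vz z * (1 - Real.exp (-x) * (2 * C / Real.log z + 1 / x)) * Real.log z := by ring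
  rw [e1]
  refine h5.trans (le_of_eq ?_)
  have h6 : 1 + x / Real.log z - 1 = x / Real.log z := by ring
  rw [h6, mul_inv]
  have hlz' := hlz.ne'
  have hx0'' := hx0'.ne'
  rw [inv_div]
  field_simp

/-- Mertens' third theorem over the naturals. -/
lemma tendsto_Vz : Tendsto (fun z : ℕ => Vz z * Real.log z) atTop (𝓝 (pp 1)) := by
  rw [tendsto_order]
  constructor
  · intro a ha
    obtain ⟨b, hb1, hb2⟩ := exists_between ha
    filter_upwards [Vz_eventually hb2] with z hz
    linarith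
  · intro a ha
    obtain ⟨b, hb1, hb2⟩ := exists_between ha
    filter_upwards [Vz_eventually_le hb1] with z hz
    linarith

end Pool.Agent.GapTwoMER

namespace Pool.Agent.GapTwo

open Finset Filter MeasureTheory
open scoped Topology
open Pool.Agent.Work.MP_b0c12c_nt (Vz pp_one_eq)
open Pool.Agent.GapTwoMER (tendsto_Vz)

theorem stmt_MER : Stmt_MER := by
  unfold Stmt_MER
  rw [← pp_one_eq]
  -- the natural number below `x`
  have hg : Tendsto (fun x : ℝ => ⌈x⌉₊ - 1) atTop atTop := by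
    rw [tendsto_atTop]
    intro b
    filter_upwards [eventually_gt_atTop ((b + 1 : ℕ) : ℝ)] with x hx
    have h : b + 1 < ⌈x⌉₊ := Nat.lt_ceil.mpr hx
    omega
  have h1 := tendsto_Vz.comp hg
  -- ratio of the logarithms
  have h2 : Tendsto (fun x : ℝ => Real.log x / Real.log ((⌈x⌉₊ - 1 : ℕ) : ℝ)) atTop (𝓝 1) := by
    have hl : Tendsto (fun x : ℝ => Real.log ((⌈x⌉₊ - 1 : ℕ) : ℝ)) atTop atTop :=
      (Real.tendsto_log_atTop.comp tendsto_natCast_atTop_atTop).comp hg
    have hu : Tendsto (fun x : ℝ => 1 + 1 / Real.log ((⌈x⌉₊ - 1 : ℕ) : ℝ)) atTop (𝓝 (1 + 0)) :=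
      (hl.const_div_atTop 1).const_add 1
    rw [add_zero] at hu
    refine tendsto_of_tendsto_of_tendsto_of_le_of_le' tendsto_const_nhds hu ?_ ?_
    · filter_upwards [hl.eventually_gt_atTop 0, eventually_gt_atTop (3 : ℝ)] with x hx hx3
      rw [one_le_div hx]
      have h3 : 3 < ⌈x⌉₊ := by
        apply Nat.lt_ceil.mpr
        exact_mod_cast hx3
      apply Real.log_le_log
      · exact_mod_cast (by omega : 0 < ⌈x⌉₊ - 1)
      · have h4 : (⌈x⌉₊ : ℝ) < x + 1 := Nat.ceil_lt_add_one (by linarith)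
        rw [Nat.cast_sub (by omega)]
        push_cast
        linarith
    · filter_upwards [hl.eventually_gt_atTop 0, eventually_gt_atTop (3 : ℝ)] with x hx hx3
      have h3 : 3 < ⌈x⌉₊ := by
        apply Nat.lt_ceil.mpr
        exact_mod_cast hx3
      obtain ⟨m, hm⟩ : ∃ m, m = ⌈x⌉₊ - 1 := ⟨_, rfl⟩
      rw [← hm] at hx ⊢
      have hm1 : 1 ≤ m := by omega
      have hxm : x ≤ ((m + 1 : ℕ) : ℝ) := by
        have : m + 1 = ⌈x⌉₊ := by omega
        rw [this]
        exact Nat.le_ceil x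
      have h5 := (Pool.Agent.GapTwoMER.log_succ_sub hm1).2
      have h6 : Real.log x ≤ Real.log ((m + 1 : ℕ) : ℝ) := Real.log_le_log (by linarith) hxm
      rw [div_le_iff₀ hx, add_mul, one_mul, one_div, inv_mul_cancel₀ hx.ne']
      linarith
  have h3 := h2.mul h1
  rw [one_mul] at h3
  refine h3.congr' ?_
  have hl : Tendsto (fun x : ℝ => Real.log ((⌈x⌉₊ - 1 : ℕ) : ℝ)) atTop atTop :=
    (Real.tendsto_log_atTop.comp tendsto_natCast_atTop_atTop).comp hg
  filter_upwards [hl.eventually_gt_atTop 0, eventually_gt_atTop (3 : ℝ)] with x hx hx3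
  simp only [Function.comp_apply]
  have hV : Vz (⌈x⌉₊ - 1) = ∏ p ∈ PR 2 x, (1 - 1 / (p : ℝ)) := by
    unfold Vz PR
    apply Finset.prod_congr _ (fun _ _ => rfl)
    ext p
    simp only [mem_filter, mem_Icc, mem_range]
    constructor
    · rintro ⟨⟨h1, h2⟩, hp⟩
      refine ⟨by have := hp.two_le; omega, hp, ?_⟩
      exact_mod_cast hp.two_le
    · rintro ⟨h1, hp, _⟩
      exact ⟨⟨hp.one_lt.le, by omega⟩, hp⟩
  rw [hV]
  field_simp

end Pool.Agent.GapTwo
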