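import Pool.Agent.Work.MP_1ea053_nt.BHAux

/-!
# Block BASE: the Brun–Hooley sieve for the small primes, `K` forms
-/

set_option autoImplicit false

namespace Pool.Agent.GapTwo.BASE_

open Finset Filter Pool.Agent.GapTwo.BH_
open scoped Classical Topology

variable {ι : Type}

lemma cons_union {p : ℕ} {P : Finset ℕ} {A : Finset ι} (hp : p ∉ P) {T₀ T' : Finset (ℕ × ι)}
    (h₀ : T₀ ⊆ {p} ×ˢ A) (h' : T' ⊆ P ×ˢ A) : Cons (T₀ ∪ T') ↔ Cons T₀ ∧ Cons T' := by
  constructor
  · intro h
    exact ⟨fun x hx y hy => h x (mem_union_left _ hx) y (mem_union_left _ hy),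
      fun x hx y hy => h x (mem_union_right _ hx) y (mem_union_right _ hy)⟩
  · rintro ⟨h1, h2⟩ x hx y hy hxy
    have key : ∀ x ∈ T₀, ∀ y ∈ T', x.1 ≠ y.1 := by
      intro x hx y hy he
      have h3 := (mem_product.1 (h₀ hx)).1
      have h4 := (mem_product.1 (h' hy)).1
      rw [mem_singleton] at h3
      rw [← he, h3] at h4
      exact hp h4
    rcases mem_union.1 hx with hx | hx <;> rcases mem_union.1 hy with hy | hy
    · exact h1 x hx y hy hxy
    · exact absurd hxy (key x hx y hy)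
    · exact absurd hxy.symm (key y hy x hx)
    · exact h2 x hx y hy hxy

lemma cons_empty : Cons (∅ : Finset (ℕ × ι)) := fun x hx => absurd hx (notMem_empty x)

lemma sum_cons_single (p : ℕ) (A : Finset ι) (h : Finset (ℕ × ι) → ℝ) :
    ∑ T ∈ (({p} : Finset ℕ) ×ˢ A).powerset, (if Cons T then h T else 0) =
      h ∅ + ∑ a ∈ A, h {(p, a)} := by
  have h1 : ∑ T ∈ insert ∅ (A.image fun a => ({(p, a)} : Finset (ℕ × ι))), (if Cons T then h T else 0) =
      ∑ T ∈ (({p} : Finset ℕ) ×ˢ A).powerset, (if Cons T then h T else 0) := by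
    refine sum_subset ?_ ?_
    · intro T hT
      rw [mem_powerset]
      rcases mem_insert.1 hT with rfl | hT
      · exact empty_subset _
      · obtain ⟨a, ha, rfl⟩ := mem_image.1 hT
        rw [singleton_subset_iff, mem_product]
        exact ⟨mem_singleton_self p, ha⟩
    · intro T hT hT'
      rw [mem_powerset] at hT
      rw [if_neg]
      intro hc
      apply hT'
      rw [mem_insert]
      rcases T.eq_empty_or_nonempty with h0 | ⟨x, hx⟩
      · exact Or.inl h0
      · right
        rw [mem_image]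
        have h3 := mem_product.1 (hT hx)
        rw [mem_singleton] at h3
        refine ⟨x.2, h3.2, ?_⟩
        ext y
        rw [mem_singleton]
        constructor
        · rintro rfl
          have : (p, x.2) = x := by rw [← h3.1]
          rw [this]
          exact hx
        · intro hy
          have h4 := mem_product.1 (hT hy)
          rw [mem_singleton] at h4
          have h5 := hc x hx y hy (by rw [h3.1, h4.1])
          rw [← h5, ← h3.1]
  rw [← h1, sum_insert, sum_image, if_pos cons_empty]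
  · congr 1
    refine sum_congr rfl fun a _ => ?_
    rw [if_pos]
    intro x hx y hy _
    rw [mem_singleton.1 hx, mem_singleton.1 hy]
  · intro a _ b _ hab
    have := singleton_injective hab
    exact (Prod.mk.inj this).2
  · intro h2
    obtain ⟨a, _, ha⟩ := mem_image.1 h2
    exact singleton_ne_empty _ ha

/-- Sums over sets of events without repeated primes. -/
lemma sum_cons (A : Finset ι) (w : ℕ → ℝ) (P : Finset ℕ) : ∀ g : ℕ → ℝ,
    ∑ T ∈ (P ×ˢ A).powerset, (if Cons T then g T.card * ∏ x ∈ T, w x.1 else 0) =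
      ∑ S ∈ P.powerset, g S.card * ∏ p ∈ S, (A.card * w p) := by
  induction P using Finset.induction_on with
  | empty =>
    intro g
    rw [empty_product, powerset_empty, powerset_empty, sum_singleton, sum_singleton,
      if_pos cons_empty]
    simp
  | insert p P hp ih =>
    intro g
    have h1 : (insert p P) ×ˢ A = (({p} : Finset ℕ) ×ˢ A) ∪ (P ×ˢ A) := by
      ext x
      simp only [mem_product, mem_insert, mem_union, mem_singleton]
      tauto
    have h2 : Disjoint (({p} : Finset ℕ) ×ˢ A) (P ×ˢ A) := by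
      rw [disjoint_left]
      intro x hx hx'
      rw [mem_product, mem_singleton] at hx
      rw [mem_product, hx.1] at hx'
      exact hp hx'.1
    rw [h1, sum_powerset_union h2]
    have h3 : ∀ T₀ ∈ (({p} : Finset ℕ) ×ˢ A).powerset,
        ∑ T' ∈ (P ×ˢ A).powerset, (if Cons (T₀ ∪ T') then
          g (T₀ ∪ T').card * ∏ x ∈ T₀ ∪ T', w x.1 else 0) =
        if Cons T₀ then (∏ x ∈ T₀, w x.1) *
          ∑ S ∈ P.powerset, g (T₀.card + S.card) * ∏ p ∈ S, (A.card * w p) else 0 := by
      intro T₀ hT₀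
      rw [mem_powerset] at hT₀
      have h4 : ∀ T' ∈ (P ×ˢ A).powerset, (if Cons (T₀ ∪ T') then
          g (T₀ ∪ T').card * ∏ x ∈ T₀ ∪ T', w x.1 else 0) =
          if Cons T₀ then (∏ x ∈ T₀, w x.1) *
            (if Cons T' then g (T₀.card + T'.card) * ∏ x ∈ T', w x.1 else 0) else 0 := by
        intro T' hT'
        rw [mem_powerset] at hT'
        have hd : Disjoint T₀ T' := disjoint_of_subset_left hT₀ (disjoint_of_subset_right hT' h2)
        rw [card_union_of_disjoint hd, prod_union hd]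
        have hiff := cons_union hp hT₀ hT'
        by_cases ha : Cons T₀
        · by_cases hb : Cons T'
          · rw [if_pos (hiff.2 ⟨ha, hb⟩), if_pos ha, if_pos hb]
            ring
          · rw [if_neg (fun h => hb (hiff.1 h).2), if_pos ha, if_neg hb, mul_zero]
        · rw [if_neg (fun h => ha (hiff.1 h).1), if_neg ha]
      rw [sum_congr rfl h4]
      by_cases ha : Cons T₀
      · simp only [if_pos ha]
        rw [← mul_sum, ih fun s => g (T₀.card + s)]
      · simp only [if_neg ha, sum_const_zero]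
    rw [sum_congr rfl h3, sum_cons_single p A (fun T₀ => (∏ x ∈ T₀, w x.1) *
          ∑ S ∈ P.powerset, g (T₀.card + S.card) * ∏ p ∈ S, (A.card * w p)),
      sum_powerset_insert hp]
    simp only [prod_empty, card_empty, zero_add, one_mul, prod_singleton, card_singleton,
      sum_const, nsmul_eq_mul]
    congr 1
    rw [mul_sum, mul_sum]
    refine sum_congr rfl fun S hS => ?_
    rw [mem_powerset] at hS
    have hpS : p ∉ S := fun h => hp (hS h)
    rw [card_insert_of_notMem hpS, prod_insert hpS, add_comm 1 S.card]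
    ring

/-- The density of the Brun–Hooley coefficients. -/
lemma dens (P : Finset ℕ) (A B : Finset ι) (hAB : A ⊆ B) (bk : ℕ → ℕ) (b J : ℕ)
    (hJ : ∀ p ∈ P, bk p < J) (w : ℕ → ℝ) :
    ∑ T ∈ (P ×ˢ A).powerset.filter (fun T => Cons T),
      cB (P ×ˢ B) (fun x => bk x.1) b J T * ∏ x ∈ T, w x.1 =
    ∏ j ∈ range J, AT (P.filter fun p => bk p = j) (fun p => A.card * w p) (2 * (b + j)) := by
  have hX : ∀ x ∈ P ×ˢ A, bk x.1 < J := fun x hx => hJ _ (mem_product.1 hx).1
  have h1 : ∑ T ∈ (P ×ˢ A).powerset.filter (fun T => Cons T),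
      cB (P ×ˢ B) (fun x => bk x.1) b J T * ∏ x ∈ T, w x.1 =
      ∑ T ∈ (P ×ˢ A).powerset, (∏ j ∈ range J, (fun (j : ℕ) (T : Finset (ℕ × ι)) =>
        if Cons T then cf (2 * (b + j)) T.card else 0) j (T.filter fun x => bk x.1 = j)) *
        ∏ x ∈ T, w x.1 := by
    rw [sum_filter]
    refine sum_congr rfl fun T hT => ?_
    rw [mem_powerset] at hT
    have h2 : T ⊆ P ×ˢ B := hT.trans (product_subset_product_right hAB)
    by_cases hc : Cons T
    · rw [if_pos hc]
      unfold cB
      rw [if_pos h2]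
      congr 1
      refine prod_congr rfl fun j _ => ?_
      simp only
      rw [if_pos]
      intro x hx y hy
      exact hc x (mem_filter.1 hx).1 y (mem_filter.1 hy).1
    · rw [if_neg hc]
      have h3 : ∃ j ∈ range J, ¬ Cons (T.filter fun x => bk x.1 = j) := by
        by_contra h4
        push Not at h4
        apply hc
        intro x hx y hy hxy
        exact h4 (bk x.1) (mem_range.2 (hX x (hT hx))) x (mem_filter.2 ⟨hx, rfl⟩) y
          (mem_filter.2 ⟨hy, by rw [hxy]⟩) hxy
      obtain ⟨j, hj, hjc⟩ := h3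
      rw [prod_eq_zero hj, zero_mul]
      simp only
      rw [if_neg hjc]
  rw [h1, sum_blocks_w (fun x : ℕ × ι => bk x.1) (fun (j : ℕ) (T : Finset (ℕ × ι)) =>
        if Cons T then cf (2 * (b + j)) T.card else 0) (fun x => w x.1) J _ hX]
  refine prod_congr rfl fun j _ => ?_
  have h2 : ((P ×ˢ A).filter fun x => bk x.1 = j) = (P.filter fun p => bk p = j) ×ˢ A := by
    ext x
    simp only [mem_filter, mem_product]
    tauto
  rw [h2]
  unfold AT
  have h3 := sum_cons A w (P.filter fun p => bk p = j) (cf (2 * (b + j)))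
  unfold cf at h3
  rw [← h3]
  refine sum_congr rfl fun T _ => ?_
  by_cases hc : Cons T
  · rw [if_pos hc, if_pos hc]
    rfl
  · rw [if_neg hc, if_neg hc, zero_mul]

lemma eloc_eq [Fintype ι] (P : Finset ℕ) (bk : ℕ → ℕ) (b J : ℕ) (hJ : ∀ p ∈ P, bk p < J) :
    Eloc (P ×ˢ (univ : Finset ι)) (cB (P ×ˢ univ) (fun x => bk x.1) b J) =
    ∏ j ∈ range J, AT (P.filter fun p => bk p = j) (fun p => (Fintype.card ι : ℝ) / p)
      (2 * (b + j)) := by
  have h := dens P (univ : Finset ι) univ (Subset.refl _) bk b J hJ fun p => 1 / (p : ℝ)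
  unfold Eloc
  have h1 : (fun p : ℕ => (Fintype.card ι : ℝ) / p) =
      fun p : ℕ => ((univ : Finset ι).card : ℝ) * (1 / (p : ℝ)) := by
    funext p
    rw [card_univ, mul_one_div]
  rw [h1, ← h]
  refine sum_congr rfl fun T _ => ?_
  rw [div_eq_mul_inv]
  congr 1
  unfold sz
  rw [Nat.cast_prod, ← prod_inv_distrib]
  exact prod_congr rfl fun x _ => (one_div _).symm

lemma eloI_eq [Fintype ι] (P : Finset ℕ) (bk : ℕ → ℕ) (b J : ℕ) (hJ : ∀ p ∈ P, bk p < J)
    (i : ι) :
    EloI (P ×ˢ (univ : Finset ι)) i (cB (P ×ˢ univ) (fun x => bk x.1) b J) =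
    ∏ j ∈ range J, AT (P.filter fun p => bk p = j)
      (fun p => ((Fintype.card ι : ℝ) - 1) / ((p : ℝ) - 1)) (2 * (b + j)) := by
  have h := dens P ((univ : Finset ι).erase i) univ (subset_univ _) bk b J hJ
    fun p => 1 / ((p : ℝ) - 1)
  have h1 : (fun p : ℕ => ((Fintype.card ι : ℝ) - 1) / ((p : ℝ) - 1)) =
      fun p : ℕ => (((univ : Finset ι).erase i).card : ℝ) * (1 / ((p : ℝ) - 1)) := by
    funext p
    rw [card_erase_of_mem (mem_univ i), card_univ, mul_one_div,
      Nat.cast_sub (Fintype.card_pos_iff.2 ⟨i⟩), Nat.cast_one]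
  rw [h1, ← h]
  unfold EloI
  refine sum_congr ?_ fun T _ => ?_
  · ext T
    simp only [mem_filter, mem_powerset]
    constructor
    · rintro ⟨h2, h3, h4⟩
      refine ⟨fun x hx => ?_, h3⟩
      rw [mem_product]
      exact ⟨(mem_product.1 (h2 hx)).1, mem_erase.2 ⟨h4 x hx, mem_univ _⟩⟩
    · rintro ⟨h2, h3⟩
      refine ⟨fun x hx => ?_, h3, fun x hx => ?_⟩
      · rw [mem_product]
        exact ⟨(mem_product.1 (h2 hx)).1, mem_univ _⟩
      · exact (mem_erase.1 (mem_product.1 (h2 hx)).2).1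
  · rw [div_eq_mul_inv]
    congr 1
    rw [← prod_inv_distrib]
    exact prod_congr rfl fun x _ => (one_div _).symm

/-- Lower bound. -/
lemma low (P : Finset ℕ) (bk : ℕ → ℕ) (b J : ℕ) (hJ : ∀ p ∈ P, bk p < J) (x : ℕ → ℝ)
    (hx : ∀ p ∈ P, 0 ≤ x p ∧ x p ≤ 1) :
    ∏ p ∈ P, (1 - x p) ≤ ∏ j ∈ range J, AT (P.filter fun p => bk p = j) x (2 * (b + j)) := by
  rw [← prod_fiberwise_of_maps_to (fun p hp => mem_range.2 (hJ p hp))]
  refine prod_le_prod (fun j _ => ?_) fun j _ => ?_
  · exact prod_nonneg fun p hp => by linarith [(hx p (mem_filter.1 hp).1).2]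
  · exact (bonferroni x _ (fun p hp => hx p (mem_filter.1 hp).1) _).1 (even_two_mul _)

/-- Upper bound. -/
lemma upp (P : Finset ℕ) (bk : ℕ → ℕ) (b J : ℕ) (hJ : ∀ p ∈ P, bk p < J) (x : ℕ → ℝ)
    (hx : ∀ p ∈ P, 0 ≤ x p ∧ x p ≤ 1 / 2) (C lam : ℝ) (hl : 2 ≤ lam)
    (hC : ∀ j, ∑ p ∈ P.filter (fun p => bk p = j), x p ≤ C)
    (hb : Real.exp ((lam + 2) * C) ≤ lam ^ (2 * b)) :
    ∏ j ∈ range J, AT (P.filter fun p => bk p = j) x (2 * (b + j)) ≤
      Real.exp (2 * (1 / lam)) * ∏ p ∈ P, (1 - x p) := by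
  have hl0 : 0 < lam := by linarith
  rw [← prod_fiberwise_of_maps_to (fun p hp => mem_range.2 (hJ p hp))]
  have key : ∀ j ∈ range J, AT (P.filter fun p => bk p = j) x (2 * (b + j)) ≤
      (1 + 1 / lam * ((lam ^ 2)⁻¹) ^ j) * ∏ p ∈ P.filter (fun p => bk p = j), (1 - x p) := by
    intro j _
    have hx' : ∀ p ∈ P.filter (fun p => bk p = j), 0 ≤ x p ∧ x p ≤ 1 := fun p hp =>
      ⟨(hx p (mem_filter.1 hp).1).1, by linarith [(hx p (mem_filter.1 hp).1).2]⟩
    have h1 := AT_le _ x hx' (2 * (b + j)) (even_two_mul _) lam (by linarith)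
    set S := ∑ p ∈ P.filter (fun p => bk p = j), x p with hS
    set Q := ∏ p ∈ P.filter (fun p => bk p = j), (1 - x p) with hQ
    have h2 : Real.exp (-(2 * S)) ≤ Q := by
      rw [hS, hQ, mul_sum, ← sum_neg_distrib, Real.exp_sum]
      refine prod_le_prod (fun _ _ => (Real.exp_pos _).le) fun p hp => ?_
      have h3 := hx p (mem_filter.1 hp).1
      have h4 := (log_one_sub h3.1 h3.2).1
      rw [← Real.le_log_iff_exp_le (by linarith)]
      nlinarith
    have h3 : Real.exp (lam * S) ≤ Real.exp ((lam + 2) * C) * Q := by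
      calc Real.exp (lam * S) = Real.exp ((lam + 2) * S) * Real.exp (-(2 * S)) := by
            rw [← Real.exp_add]
            congr 1
            ring
        _ ≤ Real.exp ((lam + 2) * C) * Q := by
            refine mul_le_mul (Real.exp_le_exp.2 ?_) h2 (Real.exp_pos _).le (Real.exp_pos _).le
            exact mul_le_mul_of_nonneg_left (hC j) (by linarith)
    have hQ0 : 0 ≤ Q := (Real.exp_pos _).le.trans h2
    have h4 : (lam ^ (2 * (b + j) + 1))⁻¹ * Real.exp (lam * S) ≤
        1 / lam * ((lam ^ 2)⁻¹) ^ j * Q := by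
      have h5 : Real.exp (lam * S) ≤ lam ^ (2 * b) * Q :=
        h3.trans (mul_le_mul_of_nonneg_right hb hQ0)
      have h6 : lam ^ (2 * (b + j) + 1) = lam ^ (2 * b) * (lam * (lam ^ 2) ^ j) := by
        rw [← pow_mul]
        ring
      rw [h6, mul_inv, inv_pow]
      have h7 : 0 < lam ^ (2 * b) := by positivity
      calc (lam ^ (2 * b))⁻¹ * (lam * (lam ^ 2) ^ j)⁻¹ * Real.exp (lam * S) ≤
          (lam ^ (2 * b))⁻¹ * (lam * (lam ^ 2) ^ j)⁻¹ * (lam ^ (2 * b) * Q) :=
            mul_le_mul_of_nonneg_left h5 (by positivity)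
        _ = _ := by
            field_simp
    linarith
  have hnn : ∀ j ∈ range J, 0 ≤ AT (P.filter fun p => bk p = j) x (2 * (b + j)) := by
    intro j _
    refine le_trans ?_ ((bonferroni x _ (fun p hp => ⟨(hx p (mem_filter.1 hp).1).1, by
      linarith [(hx p (mem_filter.1 hp).1).2]⟩) _).1 (even_two_mul _))
    exact prod_nonneg fun p hp => by linarith [(hx p (mem_filter.1 hp).1).2]
  refine (prod_le_prod hnn key).trans ?_
  rw [prod_mul_distrib]
  refine mul_le_mul_of_nonneg_right ?_ (prod_nonneg fun j _ => prod_nonneg fun p hp => by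
    linarith [(hx p (mem_filter.1 hp).1).2])
  refine prod_one_add_le J (1 / lam) ((lam ^ 2)⁻¹) (by positivity) (by positivity) ?_ _ fun j _ => ?_
  · rw [inv_le_comm₀ (by positivity) (by norm_num)]
    nlinarith
  · exact ⟨by positivity, le_rfl⟩

end Pool.Agent.GapTwo.BASE_

namespace Pool.Agent.GapTwo

open Finset Filter BH_ BASE_
open scoped Classical Topology

theorem stmt_BASE : Stmt_BASE := by
  intro ε δ hε hδ
  obtain ⟨C, hC1, hC⟩ := blk_sum
  have hle : 0 < Real.log (1 + ε) := Real.log_pos (by linarith)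
  set lam : ℝ := max 2 (2 / Real.log (1 + ε)) with hlam
  have hl2 : 2 ≤ lam := le_max_left _ _
  have hl0 : 0 < lam := by linarith
  have hloglam : 0 < Real.log lam := Real.log_pos (by linarith)
  have hexp : Real.exp (2 * (1 / lam)) ≤ 1 + ε := by
    rw [← Real.le_log_iff_exp_le (by linarith), mul_one_div, div_le_iff₀ hl0]
    have h1 : 2 / Real.log (1 + ε) ≤ lam := le_max_right _ _
    rw [div_le_iff₀ hle] at h1
    linarith
  set M : ℝ := 2 * (lam + 2) * C / Real.log lam + 8 with hM
  have hM0 : 0 < M := by positivity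
  refine ⟨δ / M, by positivity, ?_⟩
  intro ι _ _
  set K : ℕ := Fintype.card ι with hK
  have hK1 : (1 : ℝ) ≤ K := by
    have : 0 < K := Fintype.card_pos
    exact_mod_cast this
  refine ⟨2 * K + 2, fun D₀ hD₀ η₁ hη hKη => ?_⟩
  have hD : 2 * (K : ℝ) + 2 ≤ D₀ := by exact_mod_cast hD₀
  refine ⟨1, fun N hN => ?_⟩
  set z : ℝ := N ^ η₁ with hz
  have hz1 : 1 ≤ z := Real.one_le_rpow hN hη.le
  set b : ℕ := ⌈(lam + 2) * (K * C) / (2 * Real.log lam)⌉₊ with hb
  have hb1 : (lam + 2) * (K * C) / (2 * Real.log lam) ≤ b := Nat.le_ceil _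
  have hb2 : (b : ℝ) < (lam + 2) * (K * C) / (2 * Real.log lam) + 1 :=
    Nat.ceil_lt_add_one (by positivity)
  set P := PR D₀ z with hP'
  set J : ℕ := P.sup (blk z) + 1 with hJ'
  have hJ : ∀ p ∈ P, blk z p < J := fun p hp => Nat.lt_succ_of_le (le_sup (f := blk z) hp)
  have hP : ∀ p ∈ P, 2 ≤ p := fun p hp => by
    rw [hP', mem_PR] at hp
    exact hp.1.two_le
  have hPD : ∀ p ∈ P, (D₀ : ℝ) ≤ p := fun p hp => by
    rw [hP', mem_PR] at hp
    exact hp.2.1
  have hXX : XX ι D₀ z = P ×ˢ (univ : Finset ι) := rfl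
  have hJX : ∀ x ∈ P ×ˢ (univ : Finset ι), blk z x.1 < J := fun x hx =>
    hJ _ (mem_product.1 hx).1
  rw [hXX]
  refine ⟨cB (P ×ˢ univ) (fun x => blk z x.1) b J, ⟨?_, ?_⟩, ?_, cB_empty _ _ _ _, ?_, ?_, ?_⟩
  · intro T hT
    obtain ⟨h6, h7⟩ := cB_supp hT
    refine ⟨h6, ?_⟩
    have h8 := level_le (fun x : ℕ × ι => x.1) z hz1 b J T (fun x hx => by
      have hp' := (mem_product.1 (h6 hx)).1
      refine ⟨hP _ hp', ?_, hJ _ hp'⟩
      rw [hP', mem_PR] at hp'
      exact hp'.2.2) h7
    have h9 : ((sz T : ℕ) : ℝ) = ∏ x ∈ T, (x.1 : ℝ) := by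
      unfold sz
      rw [Nat.cast_prod]
    rw [h9]
    refine h8.trans ?_
    rw [hz, ← Real.rpow_natCast, ← Real.rpow_mul (by linarith)]
    apply Real.rpow_le_rpow_of_exponent_le hN
    push_cast
    have h10 : 4 * (b : ℝ) + 4 ≤ K * M := by
      have h11 : 4 * ((lam + 2) * (K * C) / (2 * Real.log lam)) =
          K * (2 * (lam + 2) * C / Real.log lam) := by
        field_simp
        ring
      rw [hM, mul_add]
      nlinarith
    calc η₁ * (4 * (b : ℝ) + 4) ≤ η₁ * (K * M) := mul_le_mul_of_nonneg_left h10 hη.le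
      _ = (K * η₁) * M := by ring
      _ ≤ δ / M * M := mul_le_mul_of_nonneg_right hKη hM0.le
      _ = δ := div_mul_cancel₀ _ hM0.ne'
  · intro T
    rw [one_pow]
    exact cB_abs _ _ _ _ _
  · intro S
    exact cB_sum_nonneg _ _ _ _ hJX S
  · rw [eloc_eq P (blk z) b J hJ]
    refine low P (blk z) b J hJ _ fun p hp => ⟨by positivity, ?_⟩
    have := hPD p hp
    rw [div_le_one (by linarith)]
    linarith
  · rw [eloc_eq P (blk z) b J hJ]
    have hprod : 0 ≤ ∏ p ∈ P, (1 - (K : ℝ) / p) := by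
      refine prod_nonneg fun p hp => ?_
      have := hPD p hp
      have h2 : (K : ℝ) / p ≤ 1 := by
        rw [div_le_one (by linarith)]
        linarith
      linarith
    refine (upp P (blk z) b J hJ (fun p => (K : ℝ) / p) (fun p hp => ⟨by positivity, ?_⟩) (K * C)
      lam hl2 (fun j => ?_) ?_).trans (mul_le_mul_of_nonneg_right hexp hprod)
    · have := hPD p hp
      rw [div_le_div_iff₀ (by linarith) (by norm_num)]
      linarith
    · have h1 := hC D₀ z (by linarith) j
      have h2 : ∑ p ∈ P.filter (fun p => blk z p = j), (K : ℝ) / p =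
          K * ∑ p ∈ P.filter (fun p => blk z p = j), 1 / (p : ℝ) := by
        rw [mul_sum]
        exact sum_congr rfl fun p _ => by rw [mul_one_div]
      rw [h2]
      exact mul_le_mul_of_nonneg_left h1 (by linarith)
    · rw [← Real.rpow_natCast, Real.rpow_def_of_pos hl0]
      apply Real.exp_le_exp.2
      rw [div_le_iff₀ (by positivity)] at hb1
      push_cast
      linarith
  · intro i
    rw [eloI_eq P (blk z) b J hJ i]
    refine low P (blk z) b J hJ _ fun p hp => ⟨?_, ?_⟩
    · have := hPD p hp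
      apply div_nonneg <;> linarith
    · have := hPD p hp
      rw [div_le_one (by linarith)]
      linarith

end Pool.Agent.GapTwo
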