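import Pool.Agent.Work.MP_1ea053_nt.Tool

/-!
# Common lemmas for the Brun–Hooley sieve (blocks BASE and BHM)
-/

set_option autoImplicit false

namespace Pool.Agent.GapTwo.BH_

open Finset Filter
open scoped Classical Topology

/-! ## Sums over subsets -/

lemma sum_powerset_union {α : Type*} [DecidableEq α] {X₁ X₂ : Finset α} (h : Disjoint X₁ X₂)
    (g : Finset α → ℝ) :
    ∑ T ∈ (X₁ ∪ X₂).powerset, g T = ∑ A ∈ X₁.powerset, ∑ B ∈ X₂.powerset, g (A ∪ B) := by
  rw [← sum_product']
  refine sum_nbij' (fun T => (T ∩ X₁, T ∩ X₂)) (fun AB => AB.1 ∪ AB.2) ?_ ?_ ?_ ?_ ?_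
  · intro T _
    simp only [mem_product, mem_powerset]
    exact ⟨inter_subset_right, inter_subset_right⟩
  · intro AB hAB
    simp only [mem_product, mem_powerset] at hAB ⊢
    exact union_subset_union hAB.1 hAB.2
  · intro T hT
    rw [mem_powerset] at hT
    show T ∩ X₁ ∪ T ∩ X₂ = T
    rw [← inter_union_distrib_left, inter_eq_left.2 hT]
  · rintro ⟨A, B⟩ hAB
    simp only [mem_product, mem_powerset] at hAB
    have h1 : (A ∪ B) ∩ X₁ = A := by
      rw [union_inter_distrib_right, inter_eq_left.2 hAB.1,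
        (disjoint_iff_inter_eq_empty.1 ((h.mono_right hAB.2).symm)), union_empty]
    have h2 : (A ∪ B) ∩ X₂ = B := by
      rw [union_inter_distrib_right, inter_eq_left.2 hAB.2,
        (disjoint_iff_inter_eq_empty.1 ((h.mono_left hAB.1))), empty_union]
    show ((A ∪ B) ∩ X₁, (A ∪ B) ∩ X₂) = (A, B)
    rw [h1, h2]
  · intro T hT
    rw [mem_powerset] at hT
    show g T = g (T ∩ X₁ ∪ T ∩ X₂)
    rw [← inter_union_distrib_left, inter_eq_left.2 hT]

/-- Factorisation over blocks. -/
lemma sum_blocks {α : Type*} (blk : α → ℕ) (f : ℕ → Finset α → ℝ) (J : ℕ) :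
    ∀ X : Finset α, (∀ x ∈ X, blk x < J) →
    ∑ T ∈ X.powerset, ∏ j ∈ range J, f j (T.filter fun x => blk x = j) =
      ∏ j ∈ range J, ∑ T ∈ (X.filter fun x => blk x = j).powerset, f j T := by
  induction J with
  | zero =>
    intro X hX
    have : X = ∅ := eq_empty_of_forall_notMem fun x hx => by simpa using hX x hx
    subst this
    simp
  | succ J ih =>
    intro X hX
    have h1 : X = X.filter (fun x => blk x < J) ∪ X.filter (fun x => blk x = J) := by
      ext x
      simp only [mem_union, mem_filter]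
      constructor
      · intro hx
        have := hX x hx
        rcases Nat.lt_or_ge (blk x) J with h | h
        · exact Or.inl ⟨hx, h⟩
        · exact Or.inr ⟨hx, by omega⟩
      · rintro (h | h) <;> exact h.1
    have h2 : Disjoint (X.filter (fun x => blk x < J)) (X.filter (fun x => blk x = J)) := by
      rw [disjoint_left]
      intro x hx hx'
      rw [mem_filter] at hx hx'
      omega
    have h3 : ∀ j ∈ range J, (X.filter (fun x => blk x < J)).filter (fun x => blk x = j) =
        X.filter (fun x => blk x = j) := by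
      intro j hj
      rw [mem_range] at hj
      ext x
      simp only [mem_filter]
      constructor
      · rintro ⟨⟨h, _⟩, h'⟩; exact ⟨h, h'⟩
      · rintro ⟨h, h'⟩; exact ⟨⟨h, by omega⟩, h'⟩
    have h4 := ih (X.filter (fun x => blk x < J)) (fun x hx => (mem_filter.1 hx).2)
    rw [prod_congr rfl fun j hj => by rw [h3 j hj]] at h4
    rw [prod_range_succ, ← h4, sum_mul_sum]
    conv_lhs => rw [h1]
    rw [sum_powerset_union h2]
    refine sum_congr rfl fun A hA => sum_congr rfl fun B hB => ?_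
    rw [mem_powerset] at hA hB
    rw [prod_range_succ]
    congr 1
    · refine prod_congr rfl fun j hj => ?_
      rw [mem_range] at hj
      congr 1
      ext x
      simp only [mem_filter, mem_union]
      constructor
      · rintro ⟨h | h, h'⟩
        · exact ⟨h, h'⟩
        · have := (mem_filter.1 (hB h)).2
          omega
      · rintro ⟨h, h'⟩; exact ⟨Or.inl h, h'⟩
    · congr 1
      ext x
      simp only [mem_filter, mem_union]
      constructor
      · rintro ⟨h | h, h'⟩
        · have := (mem_filter.1 (hA h)).2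
          omega
        · exact h
      · intro h; exact ⟨Or.inr h, (mem_filter.1 (hB h)).2⟩

/-- The same with multiplicative weights. -/
lemma sum_blocks_w {α : Type*} (blk : α → ℕ) (f : ℕ → Finset α → ℝ) (w : α → ℝ) (J : ℕ)
    (X : Finset α) (hX : ∀ x ∈ X, blk x < J) :
    ∑ T ∈ X.powerset, (∏ j ∈ range J, f j (T.filter fun x => blk x = j)) * ∏ x ∈ T, w x =
      ∏ j ∈ range J, ∑ T ∈ (X.filter fun x => blk x = j).powerset, f j T * ∏ x ∈ T, w x := by
  rw [← sum_blocks blk (fun j T => f j T * ∏ x ∈ T, w x) J X hX]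
  refine sum_congr rfl fun T hT => ?_
  rw [mem_powerset] at hT
  rw [prod_mul_distrib]
  congr 1
  exact (prod_fiberwise_of_maps_to (fun x hx => mem_range.2 (hX x (hT hx))) _).symm

/-! ## Truncated alternating sums -/

/-- Truncated inclusion-exclusion. -/
noncomputable def AT {α : Type*} (P : Finset α) (x : α → ℝ) (m : ℕ) : ℝ :=
  ∑ T ∈ P.powerset, (if T.card ≤ m then (-1 : ℝ) ^ T.card else 0) * ∏ p ∈ T, x p

lemma AT_empty {α : Type*} (x : α → ℝ) (m : ℕ) : AT ∅ x m = 1 := by
  simp [AT]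

lemma AT_zero {α : Type*} (P : Finset α) (x : α → ℝ) : AT P x 0 = 1 := by
  unfold AT
  rw [sum_eq_single ∅]
  · simp
  · intro T _ hT
    have : ¬ T.card ≤ 0 := by
      rw [Nat.le_zero, card_eq_zero]
      exact hT
    simp [this]
  · intro h
    exact absurd (empty_mem_powerset P) h

lemma AT_insert {α : Type*} {P : Finset α} {a : α} (ha : a ∉ P) (x : α → ℝ) (m : ℕ) :
    AT (insert a P) x (m + 1) = AT P x (m + 1) - x a * AT P x m := by
  unfold AT
  rw [sum_powerset_insert ha, sub_eq_add_neg, mul_sum, ← sum_neg_distrib]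
  congr 1
  refine sum_congr rfl fun T hT => ?_
  rw [mem_powerset] at hT
  have haT : a ∉ T := fun h => ha (hT h)
  rw [card_insert_of_notMem haT, prod_insert haT]
  by_cases h : T.card ≤ m
  · rw [if_pos h, if_pos (by omega), pow_succ]
    ring
  · rw [if_neg h, if_neg (by omega)]
    ring

/-- Bonferroni inequalities. -/
lemma bonferroni {α : Type*} (x : α → ℝ) (P : Finset α) : (∀ p ∈ P, 0 ≤ x p ∧ x p ≤ 1) →
    ∀ m : ℕ, (Even m → ∏ p ∈ P, (1 - x p) ≤ AT P x m) ∧
      (Odd m → AT P x m ≤ ∏ p ∈ P, (1 - x p)) := by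
  induction P using Finset.induction_on with
  | empty =>
    intro _ m
    rw [AT_empty]
    simp
  | insert a P ha ih =>
    intro hx m
    have hx' : ∀ p ∈ P, 0 ≤ x p ∧ x p ≤ 1 := fun p hp => hx p (mem_insert_of_mem hp)
    have hxa := hx a (mem_insert_self a P)
    have hP : 0 ≤ ∏ p ∈ P, (1 - x p) := prod_nonneg fun p hp => by linarith [(hx' p hp).2]
    have hP1 : ∏ p ∈ P, (1 - x p) ≤ 1 :=
      prod_le_one (fun p hp => by linarith [(hx' p hp).2]) fun p hp => by linarith [(hx' p hp).1]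
    rw [prod_insert ha]
    cases m with
    | zero =>
      rw [AT_zero]
      refine ⟨fun _ => ?_, fun h => by simp at h⟩
      nlinarith [hxa.1, hxa.2]
    | succ m =>
      rw [AT_insert ha]
      have h1 := ih hx' (m + 1)
      have h2 := ih hx' m
      constructor
      · intro he
        have ho : Odd m := by
          rcases Nat.even_or_odd m with h | h
          · exact absurd he (by simpa using Nat.not_even_iff_odd.2 h.add_one)
          · exact h
        have h3 := h1.1 he
        have h4 := h2.2 ho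
        nlinarith [mul_le_mul_of_nonneg_left h4 hxa.1]
      · intro ho
        have he : Even m := by
          rcases Nat.even_or_odd m with h | h
          · exact h
          · exact absurd ho (by simpa using Nat.not_odd_iff_even.2 h.add_one)
        have h3 := h1.2 ho
        have h4 := h2.1 he
        nlinarith [mul_le_mul_of_nonneg_left h4 hxa.1]

lemma AT_succ {α : Type*} (P : Finset α) (x : α → ℝ) (m : ℕ) :
    AT P x (m + 1) = AT P x m + (-1) ^ (m + 1) * ∑ T ∈ P.powersetCard (m + 1), ∏ p ∈ T, x p := by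
  have h : P.powersetCard (m + 1) = P.powerset.filter (fun T => T.card = m + 1) := by
    ext T
    rw [mem_powersetCard, mem_filter, mem_powerset]
  unfold AT
  rw [h, mul_sum, sum_filter, ← sum_add_distrib]
  refine sum_congr rfl fun T _ => ?_
  rcases lt_trichotomy T.card (m + 1) with h | h | h
  · rw [if_pos (by omega), if_pos (by omega), if_neg (by omega), add_zero]
  · rw [if_pos (by omega), if_neg (by omega), if_pos h, h]
    ring
  · rw [if_neg (by omega), if_neg (by omega), if_neg (by omega)]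
    ring

/-- The tail of the product, by Rankin's trick. -/
lemma tail_le {α : Type*} (P : Finset α) (y : α → ℝ) (hy : ∀ p ∈ P, 0 ≤ y p) (m : ℕ) (lam : ℝ)
    (hl : 1 ≤ lam) :
    ∑ T ∈ P.powerset.filter (fun T => m < T.card), ∏ p ∈ T, y p ≤
      (lam ^ (m + 1))⁻¹ * Real.exp (lam * ∑ p ∈ P, y p) := by
  have h1 : ∑ T ∈ P.powerset.filter (fun T => m < T.card), lam ^ (m + 1) * ∏ p ∈ T, y p ≤
      ∑ T ∈ P.powerset, ∏ p ∈ T, (lam * y p) := by
    have h2 : ∀ T ∈ P.powerset, 0 ≤ ∏ p ∈ T, (lam * y p) := by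
      intro T hT
      rw [mem_powerset] at hT
      exact prod_nonneg fun p hp => mul_nonneg (by linarith) (hy p (hT hp))
    refine le_trans ?_ (sum_le_sum_of_subset_of_nonneg
      (filter_subset (fun T : Finset α => m < T.card) P.powerset) (fun T hT _ => h2 T hT))
    refine sum_le_sum fun T hT => ?_
    rw [mem_filter, mem_powerset] at hT
    rw [prod_mul_distrib, prod_const]
    refine mul_le_mul_of_nonneg_right ?_ (prod_nonneg fun p hp => hy p (hT.1 hp))
    exact pow_le_pow_right₀ hl hT.2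
  rw [← mul_sum] at h1
  have h3 : ∑ T ∈ P.powerset, ∏ p ∈ T, (lam * y p) = ∏ p ∈ P, (1 + lam * y p) := by
    rw [prod_one_add]
  have h4 : ∏ p ∈ P, (1 + lam * y p) ≤ Real.exp (lam * ∑ p ∈ P, y p) := by
    rw [mul_sum, Real.exp_sum]
    refine prod_le_prod (fun p hp => ?_) fun p hp => ?_
    · have := mul_nonneg (show (0 : ℝ) ≤ lam by linarith) (hy p hp)
      linarith
    · have := Real.add_one_le_exp (lam * y p)
      linarith
  have hl' : 0 < lam ^ (m + 1) := by positivity
  rw [inv_mul_eq_div, le_div_iff₀ hl', mul_comm]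
  linarith

/-- Upper bound for the truncated sum. -/
lemma AT_le {α : Type*} (P : Finset α) (x : α → ℝ) (hx : ∀ p ∈ P, 0 ≤ x p ∧ x p ≤ 1) (m : ℕ)
    (hm : Even m) (lam : ℝ) (hl : 1 ≤ lam) :
    AT P x m ≤ ∏ p ∈ P, (1 - x p) + (lam ^ (m + 1))⁻¹ * Real.exp (lam * ∑ p ∈ P, x p) := by
  have h1 := (bonferroni x P hx (m + 1)).2 hm.add_one
  rw [AT_succ] at h1
  have h2 : (-1 : ℝ) ^ (m + 1) = -1 := hm.add_one.neg_one_pow
  rw [h2] at h1
  have h3 : ∑ T ∈ P.powersetCard (m + 1), ∏ p ∈ T, x p ≤
      ∑ T ∈ P.powerset.filter (fun T => m < T.card), ∏ p ∈ T, x p := by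
    refine sum_le_sum_of_subset_of_nonneg ?_ ?_
    · intro T hT
      rw [mem_powersetCard] at hT
      rw [mem_filter, mem_powerset]
      exact ⟨hT.1, by omega⟩
    · intro T hT _
      rw [mem_filter, mem_powerset] at hT
      exact prod_nonneg fun p hp => (hx p (hT.1 hp)).1
  have h4 := tail_le P x (fun p hp => (hx p hp).1) m lam hl
  linarith

/-! ## The blocks of primes -/

/-- The index of the block of `p`: `log z / 2 ^ (j + 1) < log p ≤ log z / 2 ^ j`. -/
noncomputable def blk (z : ℝ) (p : ℕ) : ℕ := ⌊Real.logb 2 (Real.log z / Real.log p)⌋₊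

lemma blk_spec {z : ℝ} {p : ℕ} (hp : 2 ≤ p) (hz : (p : ℝ) < z) :
    (2 : ℝ) ^ (blk z p) * Real.log p ≤ Real.log z ∧
      Real.log z < (2 : ℝ) ^ (blk z p + 1) * Real.log p := by
  have hp2 : (2 : ℝ) ≤ p := by exact_mod_cast hp
  have hlp : 0 < Real.log p := Real.log_pos (by linarith)
  have hlz : Real.log p < Real.log z := Real.log_lt_log (by linarith) hz
  have h1 : 1 < Real.log z / Real.log p := by rwa [one_lt_div hlp]
  have h0 : 0 < Real.log z / Real.log p := by linarith
  have h2 : 0 ≤ Real.logb 2 (Real.log z / Real.log p) := Real.logb_nonneg (by norm_num) h1.le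
  have h3 := Nat.floor_le h2
  have h4 := Nat.lt_floor_add_one (Real.logb 2 (Real.log z / Real.log p))
  rw [Real.le_logb_iff_rpow_le (by norm_num) h0, Real.rpow_natCast] at h3
  have h5 : Real.logb 2 (Real.log z / Real.log p) < ((blk z p + 1 : ℕ) : ℝ) := by
    push_cast
    exact h4
  rw [Real.logb_lt_iff_lt_rpow (by norm_num) h0, Real.rpow_natCast] at h5
  exact ⟨by rw [le_div_iff₀ hlp] at h3; exact h3, by rw [div_lt_iff₀ hlp] at h5; exact h5⟩

/-- The sum over a block is bounded. -/
lemma blk_sum : ∃ C : ℝ, 1 ≤ C ∧ ∀ u z : ℝ, 2 ≤ u → ∀ j : ℕ,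
    ∑ p ∈ (PR u z).filter (fun p => blk z p = j), 1 / (p : ℝ) ≤ C := by
  obtain ⟨C, hC, h⟩ := mert_sum
  have hl2 : 0 < Real.log 2 := Real.log_pos (by norm_num)
  refine ⟨1 + C / Real.log 2, by linarith [div_nonneg hC.le hl2.le], fun u z hu j => ?_⟩
  set v : ℝ := max u (Real.exp (Real.log z / 2 ^ (j + 1))) with hv
  have hv2 : 2 ≤ v := hu.trans (le_max_left _ _)
  have hlv : Real.log 2 ≤ Real.log v := Real.log_le_log (by norm_num) hv2
  have hlv0 : 0 < Real.log v := hl2.trans_le hlv
  set w : ℝ := Real.exp (5 / 2 * Real.log v) with hw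
  have hvw : v ≤ w := by
    rw [hw]
    calc v = Real.exp (Real.log v) := (Real.exp_log (by linarith)).symm
      _ ≤ _ := Real.exp_le_exp.2 (by linarith)
  have h1 : (PR u z).filter (fun p => blk z p = j) ⊆ PR v w := by
    intro p hp
    rw [mem_filter, mem_PR] at hp
    obtain ⟨⟨hp1, hp2, hp3⟩, hp4⟩ := hp
    have hs := blk_spec hp1.two_le hp3
    rw [hp4] at hs
    have hp0 : (0 : ℝ) < p := by exact_mod_cast hp1.pos
    have hvp : v ≤ p := by
      rw [hv, max_le_iff]
      refine ⟨hp2, ?_⟩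
      rw [← Real.le_log_iff_exp_le hp0, div_le_iff₀ (by positivity)]
      linarith [hs.2]
    rw [mem_PR]
    refine ⟨hp1, hvp, ?_⟩
    rw [hw, ← Real.log_lt_iff_lt_exp hp0]
    have h2 : Real.log z / 2 ^ (j + 1) ≤ Real.log v := by
      rw [Real.le_log_iff_exp_le (by linarith)]
      exact le_max_right _ _
    have h3 : Real.log p ≤ 2 * (Real.log z / 2 ^ (j + 1)) := by
      rw [pow_succ]
      have : 2 * (Real.log z / (2 ^ j * 2)) = Real.log z / 2 ^ j := by
        field_simp
      rw [this, le_div_iff₀ (by positivity)]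
      linarith [hs.1]
    linarith
  have h2 : ∑ p ∈ (PR u z).filter (fun p => blk z p = j), 1 / (p : ℝ) ≤
      ∑ p ∈ PR v w, 1 / (p : ℝ) :=
    sum_le_sum_of_subset_of_nonneg h1 fun _ _ _ => by positivity
  have h3 := (abs_le.1 (h v w hv2 hvw)).2
  have h4 : Real.log (Real.log w) - Real.log (Real.log v) ≤ 1 := by
    rw [hw, Real.log_exp, Real.log_mul (by norm_num) hlv0.ne']
    have : Real.log (5 / 2) ≤ 1 := by
      rw [Real.log_le_iff_le_exp (by norm_num)]
      linarith [Real.exp_one_gt_d9]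
    linarith
  have h5 : C / Real.log v ≤ C / Real.log 2 := div_le_div_of_nonneg_left hC.le hl2 hlv
  linarith

lemma sum_level (b J : ℕ) :
    ∑ j ∈ range J, (2 * ((b : ℝ) + j)) / 2 ^ j ≤ 4 * b + 4 := by
  have h : ∀ J : ℕ, ∑ j ∈ range J, (2 * ((b : ℝ) + j)) / 2 ^ j =
      4 * b + 4 - (4 * b + 4 * (J + 1)) / 2 ^ J := by
    intro J
    induction J with
    | zero => simp
    | succ J ih =>
      rw [sum_range_succ, ih, pow_succ]
      push_cast
      field_simp
      ring
  rw [h]
  have : 0 ≤ (4 * (b : ℝ) + 4 * (J + 1)) / 2 ^ J := by positivity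
  linarith

/-- The level of a set with at most `2 (b + j)` elements in the block `j`. -/
lemma level_le {α : Type*} (pr : α → ℕ) (z : ℝ) (hz : 1 ≤ z) (b J : ℕ) (T : Finset α)
    (hT : ∀ x ∈ T, 2 ≤ pr x ∧ (pr x : ℝ) < z ∧ blk z (pr x) < J)
    (hc : ∀ j < J, (T.filter fun x => blk z (pr x) = j).card ≤ 2 * (b + j)) :
    ∏ x ∈ T, (pr x : ℝ) ≤ z ^ (4 * b + 4) := by
  have hlz : 0 ≤ Real.log z := Real.log_nonneg hz
  have h1 : ∑ x ∈ T, Real.log (pr x) ≤ (4 * b + 4) * Real.log z := by
    have h2 := (sum_fiberwise_of_maps_to (s := T) (t := range J) (g := fun x => blk z (pr x))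
      (fun x hx => mem_range.2 (hT x hx).2.2) (fun x => Real.log (pr x)))
    rw [← h2]
    have h3 : ∀ j ∈ range J, ∑ x ∈ T.filter (fun x => blk z (pr x) = j), Real.log (pr x) ≤
        (2 * ((b : ℝ) + j)) / 2 ^ j * Real.log z := by
      intro j hj
      rw [mem_range] at hj
      have h4 : ∀ x ∈ T.filter (fun x => blk z (pr x) = j), Real.log (pr x) ≤
          Real.log z / 2 ^ j := by
        intro x hx
        rw [mem_filter] at hx
        have hs := (blk_spec (hT x hx.1).1 (hT x hx.1).2.1).1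
        rw [hx.2] at hs
        rw [le_div_iff₀ (by positivity)]
        linarith
      refine (sum_le_card_nsmul _ _ _ h4).trans ?_
      rw [nsmul_eq_mul]
      have h5 : ((T.filter fun x => blk z (pr x) = j).card : ℝ) ≤ 2 * ((b : ℝ) + j) := by
        exact_mod_cast hc j hj
      calc ((T.filter fun x => blk z (pr x) = j).card : ℝ) * (Real.log z / 2 ^ j) ≤
          (2 * ((b : ℝ) + j)) * (Real.log z / 2 ^ j) :=
            mul_le_mul_of_nonneg_right h5 (by positivity)
        _ = _ := by ring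
    refine (sum_le_sum h3).trans ?_
    rw [← sum_mul]
    exact mul_le_mul_of_nonneg_right (sum_level b J) hlz
  have h0 : ∀ x ∈ T, (0 : ℝ) < pr x := fun x hx => by
    have := (hT x hx).1
    exact_mod_cast (by omega : 0 < pr x)
  have h2 : ∏ x ∈ T, (pr x : ℝ) = Real.exp (∑ x ∈ T, Real.log (pr x)) := by
    rw [Real.exp_sum]
    exact prod_congr rfl fun x hx => (Real.exp_log (h0 x hx)).symm
  rw [h2]
  calc Real.exp (∑ x ∈ T, Real.log (pr x)) ≤ Real.exp ((4 * b + 4) * Real.log z) :=
        Real.exp_le_exp.2 h1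
    _ = z ^ (4 * b + 4) := by
        rw [← Real.exp_log (show 0 < z by linarith), ← Real.exp_nat_mul, Real.log_exp]
        push_cast
        rfl

/-- A product of factors `1 + a j`, `a j` geometric. -/
lemma prod_one_add_le (J : ℕ) (A q : ℝ) (hA : 0 ≤ A) (hq : 0 ≤ q) (hq1 : q ≤ 1 / 2)
    (a : ℕ → ℝ) (ha : ∀ j < J, 0 ≤ a j ∧ a j ≤ A * q ^ j) :
    ∏ j ∈ range J, (1 + a j) ≤ Real.exp (2 * A) := by
  have h1 : ∏ j ∈ range J, (1 + a j) ≤ ∏ j ∈ range J, Real.exp (A * q ^ j) := by
    refine prod_le_prod (fun j hj => ?_) fun j hj => ?_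
    · linarith [(ha j (mem_range.1 hj)).1]
    · have h2 := Real.add_one_le_exp (A * q ^ j)
      linarith [(ha j (mem_range.1 hj)).2]
  refine h1.trans ?_
  rw [← Real.exp_sum]
  apply Real.exp_le_exp.2
  rw [← mul_sum, mul_comm]
  refine mul_le_mul_of_nonneg_right ?_ hA
  have h3 : ∀ J : ℕ, ∑ j ∈ range J, q ^ j ≤ 2 - (1 / 2) ^ J * 2 := by
    intro J
    have h4 : ∀ J : ℕ, ∑ j ∈ range J, (1 / 2 : ℝ) ^ j = 2 - (1 / 2) ^ J * 2 := by
      intro J
      induction J with
      | zero => simp
      | succ J ih => rw [sum_range_succ, ih, pow_succ]; ring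
    rw [← h4]
    exact sum_le_sum fun j _ => pow_le_pow_left₀ hq hq1 j
  have h5 := h3 J
  have : (0 : ℝ) ≤ (1 / 2) ^ J * 2 := by positivity
  linarith

/-! ## The Brun–Hooley coefficients -/

/-- One block. -/
noncomputable def cf (m : ℕ) (s : ℕ) : ℝ := if s ≤ m then (-1) ^ s else 0

/-- The coefficients: at most `2 (b + j)` elements in the block `j`. -/
noncomputable def cB {α : Type*} (X : Finset α) (bk : α → ℕ) (b J : ℕ) (T : Finset α) : ℝ :=
  if T ⊆ X then ∏ j ∈ range J, cf (2 * (b + j)) (T.filter fun x => bk x = j).card else 0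

lemma cf_abs (m s : ℕ) : |cf m s| ≤ 1 := by
  unfold cf
  split_ifs
  · rw [abs_pow, abs_neg, abs_one, one_pow]
  · simp

lemma cB_abs {α : Type*} (X : Finset α) (bk : α → ℕ) (b J : ℕ) (T : Finset α) :
    |cB X bk b J T| ≤ 1 := by
  unfold cB
  split_ifs
  · rw [abs_prod]
    exact prod_le_one (fun j _ => abs_nonneg _) fun j _ => cf_abs _ _
  · simp

lemma cB_empty {α : Type*} (X : Finset α) (bk : α → ℕ) (b J : ℕ) : cB X bk b J ∅ = 1 := by
  unfold cB
  rw [if_pos (empty_subset X)]
  refine prod_eq_one fun j _ => ?_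
  rw [filter_empty, card_empty]
  simp [cf]

lemma cB_supp {α : Type*} {X : Finset α} {bk : α → ℕ} {b J : ℕ} {T : Finset α}
    (h : cB X bk b J T ≠ 0) :
    T ⊆ X ∧ ∀ j < J, (T.filter fun x => bk x = j).card ≤ 2 * (b + j) := by
  unfold cB at h
  split_ifs at h with h1
  · refine ⟨h1, fun j hj => ?_⟩
    rw [prod_ne_zero_iff] at h
    have h2 := h j (mem_range.2 hj)
    unfold cf at h2
    by_contra h3
    rw [if_neg h3] at h2
    exact h2 rfl
  · exact absurd rfl h

lemma cB_sum {α : Type*} [DecidableEq α] (X : Finset α) (bk : α → ℕ) (b J : ℕ) (hX : ∀ x ∈ X, bk x < J)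
    (S : Finset α) : ∑ T ∈ S.powerset, cB X bk b J T =
      ∏ j ∈ range J, AT ((S ∩ X).filter fun x => bk x = j) (fun _ => 1) (2 * (b + j)) := by
  have h1 : ∑ T ∈ S.powerset, cB X bk b J T = ∑ T ∈ (S ∩ X).powerset,
      ∏ j ∈ range J, cf (2 * (b + j)) (T.filter fun x => bk x = j).card := by
    have h2 : ∑ T ∈ (S ∩ X).powerset, cB X bk b J T = ∑ T ∈ S.powerset, cB X bk b J T := by
      refine sum_subset (powerset_mono.2 inter_subset_left) fun T hT hT' => ?_
      rw [mem_powerset] at hT hT'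
      unfold cB
      rw [if_neg fun h => hT' (subset_inter hT h)]
    rw [← h2]
    refine sum_congr rfl fun T hT => ?_
    rw [mem_powerset] at hT
    unfold cB
    rw [if_pos (hT.trans inter_subset_right)]
  rw [h1, sum_blocks bk (fun j T => cf (2 * (b + j)) T.card) J (S ∩ X)
    (fun x hx => hX x (mem_inter.1 hx).2)]
  refine prod_congr rfl fun j _ => ?_
  unfold AT cf
  refine sum_congr rfl fun T _ => ?_
  rw [prod_const_one, mul_one]

lemma AT_one_nonneg {α : Type*} (P : Finset α) (m : ℕ) (hm : Even m) :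
    0 ≤ AT P (fun _ => 1) m := by
  refine le_trans ?_ ((bonferroni (fun _ => (1 : ℝ)) P (fun _ _ => by norm_num) m).1 hm)
  exact prod_nonneg fun _ _ => by norm_num

lemma cB_sum_nonneg {α : Type*} (X : Finset α) (bk : α → ℕ) (b J : ℕ) (hX : ∀ x ∈ X, bk x < J)
    (S : Finset α) : 0 ≤ ∑ T ∈ S.powerset, cB X bk b J T := by
  rw [cB_sum X bk b J hX S]
  exact prod_nonneg fun j _ => AT_one_nonneg _ _ (even_two_mul _)

end Pool.Agent.GapTwo.BH_
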