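import Pool.Agent.Work.MP_1ea053_nt.BHAux

/-!
# Block BHM: the Brun–Hooley sieve for the medium primes, one form
-/

set_option autoImplicit false

namespace Pool.Agent.GapTwo.BHM_

open Finset Filter Pool.Agent.GapTwo.BH_
open scoped Classical Topology

lemma E1_eq (P : Finset ℕ) (hP : ∀ p ∈ P, 2 ≤ p) (f : Finset ℕ → ℝ) :
    E1 P f = (∏ p ∈ P, (1 - 1 / (p : ℝ))) *
      ∑ S ∈ P.powerset, f S * ∏ p ∈ S, 1 / ((p : ℝ) - 1) := by
  unfold E1
  rw [mul_sum]
  refine sum_congr rfl fun S hS => ?_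
  rw [mem_powerset] at hS
  rw [← prod_sdiff hS]
  have h : ∏ p ∈ S, 1 / (p : ℝ) =
      (∏ p ∈ S, (1 - 1 / (p : ℝ))) * ∏ p ∈ S, 1 / ((p : ℝ) - 1) := by
    rw [← prod_mul_distrib]
    refine prod_congr rfl fun p hp => ?_
    have h2 : (2 : ℝ) ≤ p := by exact_mod_cast hP p (hS hp)
    have h3 : (p : ℝ) ≠ 0 := by linarith
    have h4 : (p : ℝ) - 1 ≠ 0 := by
      have : 0 < (p : ℝ) - 1 := by linarith
      exact this.ne'
    field_simp
  rw [h]
  ring

lemma AT_one_abs {α : Type*} (P : Finset α) (m : ℕ) : |AT P (fun _ => 1) m| ≤ 2 ^ P.card := by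
  unfold AT
  refine (abs_sum_le_sum_abs _ _).trans ?_
  have h : ∀ T ∈ P.powerset, |(if T.card ≤ m then (-1 : ℝ) ^ T.card else 0) *
      ∏ p ∈ T, (1 : ℝ)| ≤ 1 := by
    intro T _
    rw [prod_const_one, mul_one]
    exact cf_abs m T.card
  refine (sum_le_card_nsmul _ _ _ h).trans ?_
  rw [card_powerset, nsmul_eq_mul, mul_one]
  push_cast
  exact le_rfl

lemma AT_one_zero {α : Type*} (P : Finset α) (m : ℕ) (h1 : P.Nonempty) (h2 : P.card ≤ m) :
    AT P (fun _ => 1) m = 0 := by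
  have h3 : AT P (fun _ => 1) m = ∑ T ∈ P.powerset, ∏ _p ∈ T, (-1 : ℝ) := by
    unfold AT
    refine sum_congr rfl fun T hT => ?_
    rw [mem_powerset] at hT
    rw [if_pos ((card_le_card hT).trans h2), prod_const_one, mul_one, prod_const]
  rw [h3, ← prod_one_add]
  obtain ⟨a, ha⟩ := h1
  exact prod_eq_zero ha (by norm_num)

lemma AT_one_le_sq {α : Type*} (P : Finset α) (m : ℕ) :
    AT P (fun _ => 1) m ≤ AT P (fun _ => 1) m ^ 2 := by
  have h : AT P (fun _ => 1) m =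
      ((∑ T ∈ P.powerset, (if T.card ≤ m then (-1 : ℤ) ^ T.card else 0) : ℤ) : ℝ) := by
    unfold AT
    push_cast
    refine sum_congr rfl fun T _ => ?_
    rw [prod_const_one, mul_one]
  rw [h]
  have h2 := Int.le_self_sq (∑ T ∈ P.powerset, (if T.card ≤ m then (-1 : ℤ) ^ T.card else 0))
  exact_mod_cast h2

/-- One block. -/
lemma block_le (P : Finset ℕ) (hP : ∀ p ∈ P, 2 ≤ p) (C : ℝ) (hC : ∑ p ∈ P, 1 / (p : ℝ) ≤ C)
    (m : ℕ) :
    ∑ S ∈ P.powerset, (4 : ℝ) ^ S.card * AT S (fun _ => 1) m ^ 2 * ∏ p ∈ S, 1 / ((p : ℝ) - 1) ≤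
      1 + ((2 : ℝ) ^ (m + 1))⁻¹ * Real.exp (64 * C) := by
  have h0 : ∀ p ∈ P, (0 : ℝ) ≤ 16 * (1 / ((p : ℝ) - 1)) := by
    intro p hp
    have h2 : (2 : ℝ) ≤ p := by exact_mod_cast hP p hp
    have : 0 < (p : ℝ) - 1 := by linarith
    positivity
  have h1 := tail_le P (fun p => 16 * (1 / ((p : ℝ) - 1))) h0 m 2 (by norm_num)
  have h2 : ∑ p ∈ P, 16 * (1 / ((p : ℝ) - 1)) ≤ 32 * C := by
    have h3 : ∑ p ∈ P, 16 * (1 / ((p : ℝ) - 1)) ≤ ∑ p ∈ P, 32 * (1 / (p : ℝ)) := by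
      refine sum_le_sum fun p hp => ?_
      have h2 : (2 : ℝ) ≤ p := by exact_mod_cast hP p hp
      rw [mul_one_div, mul_one_div, div_le_div_iff₀ (by linarith) (by linarith)]
      linarith
    rw [← mul_sum (f := fun p : ℕ => 1 / (p : ℝ))] at h3
    linarith
  have h3 : Real.exp (2 * ∑ p ∈ P, 16 * (1 / ((p : ℝ) - 1))) ≤ Real.exp (64 * C) :=
    Real.exp_le_exp.2 (by linarith)
  have h4 : ∑ S ∈ P.powerset, (4 : ℝ) ^ S.card * AT S (fun _ => 1) m ^ 2 *
      ∏ p ∈ S, 1 / ((p : ℝ) - 1) ≤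
      ∑ S ∈ P.powerset, ((if S = ∅ then 1 else 0) +
        if m < S.card then ∏ p ∈ S, 16 * (1 / ((p : ℝ) - 1)) else 0) := by
    refine sum_le_sum fun S hS => ?_
    rw [mem_powerset] at hS
    have h5 : 0 ≤ ∏ p ∈ S, 1 / ((p : ℝ) - 1) := by
      refine prod_nonneg fun p hp => ?_
      have := h0 p (hS hp)
      linarith
    rcases S.eq_empty_or_nonempty with rfl | hne
    · rw [AT_empty]
      simp
    · rw [if_neg hne.ne_empty, zero_add]
      by_cases hc : m < S.card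
      · rw [if_pos hc, prod_mul_distrib, prod_const]
        refine mul_le_mul_of_nonneg_right ?_ h5
        have h6 : AT S (fun _ => 1) m ^ 2 ≤ (2 ^ S.card) ^ 2 := by
          rw [← sq_abs]
          exact pow_le_pow_left₀ (abs_nonneg _) (AT_one_abs S m) 2
        calc (4 : ℝ) ^ S.card * AT S (fun _ => 1) m ^ 2 ≤ 4 ^ S.card * (2 ^ S.card) ^ 2 :=
              mul_le_mul_of_nonneg_left h6 (by positivity)
          _ = 16 ^ S.card := by
              rw [← pow_mul, mul_comm S.card 2, pow_mul, ← mul_pow]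
              norm_num
      · rw [if_neg hc, AT_one_zero S m hne (by omega)]
        simp
  rw [sum_add_distrib, ← sum_filter, ← sum_filter] at h4
  have h5 : ∑ S ∈ P.powerset.filter (fun S => S = ∅), (1 : ℝ) ≤ 1 := by
    rw [sum_const, nsmul_eq_mul, mul_one]
    have : (P.powerset.filter (fun S => S = ∅)).card ≤ 1 := by
      rw [card_le_one]
      intro a ha b hb
      rw [(mem_filter.1 ha).2, (mem_filter.1 hb).2]
    exact_mod_cast this
  have h6 : 0 ≤ ((2 : ℝ) ^ (m + 1))⁻¹ := by positivity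
  have h7 := mul_le_mul_of_nonneg_left h3 h6
  linarith

theorem stmt_BHM_aux (P : Finset ℕ) (hP : ∀ p ∈ P, 2 ≤ p) (bk : ℕ → ℕ) (b J : ℕ)
    (hJ : ∀ p ∈ P, bk p < J) (C A : ℝ)
    (hC : ∀ j, ∑ p ∈ P.filter (fun p => bk p = j), 1 / (p : ℝ) ≤ C)
    (hA : ((2 : ℝ) ^ (2 * b + 1))⁻¹ * Real.exp (64 * C) ≤ A) :
    E1 P (fun S => 4 ^ S.card * (∑ T ∈ S.powerset, cB P bk b J T) ^ 2) ≤
      Real.exp (2 * A) * ∏ p ∈ P, (1 - 1 / (p : ℝ)) := by
  have hA0 : 0 ≤ A := le_trans (by positivity) hA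
  rw [E1_eq P hP, mul_comm]
  have hpos : 0 ≤ ∏ p ∈ P, (1 - 1 / (p : ℝ)) := by
    refine prod_nonneg fun p hp => ?_
    have h2 : (2 : ℝ) ≤ p := by exact_mod_cast hP p hp
    have : 1 / (p : ℝ) ≤ 1 := by
      rw [div_le_one (by linarith)]
      linarith
    linarith
  refine mul_le_mul_of_nonneg_right ?_ hpos
  have h1 : ∑ S ∈ P.powerset, 4 ^ S.card * (∑ T ∈ S.powerset, cB P bk b J T) ^ 2 *
      ∏ p ∈ S, 1 / ((p : ℝ) - 1) =
      ∑ S ∈ P.powerset, (∏ j ∈ range J, (fun (j : ℕ) (S : Finset ℕ) =>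
        (4 : ℝ) ^ S.card * AT S (fun _ => 1) (2 * (b + j)) ^ 2) j (S.filter fun x => bk x = j)) *
      ∏ p ∈ S, 1 / ((p : ℝ) - 1) := by
    refine sum_congr rfl fun S hS => ?_
    rw [mem_powerset] at hS
    rw [cB_sum P bk b J hJ S, inter_eq_left.2 hS]
    congr 1
    simp only
    rw [prod_mul_distrib, prod_pow]
    congr 1
    rw [prod_pow_eq_pow_sum]
    congr 1
    exact card_eq_sum_card_fiberwise fun x hx => by
      simp only [coe_range, Set.mem_Iio]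
      exact hJ x (hS hx)
  rw [h1, sum_blocks_w bk (fun (j : ℕ) (S : Finset ℕ) =>
        (4 : ℝ) ^ S.card * AT S (fun _ => 1) (2 * (b + j)) ^ 2) (fun p => 1 / ((p : ℝ) - 1)) J P hJ]
  have h2 : ∏ j ∈ range J, ∑ T ∈ (P.filter fun x => bk x = j).powerset,
      (fun (j : ℕ) (S : Finset ℕ) => (4 : ℝ) ^ S.card * AT S (fun _ => 1) (2 * (b + j)) ^ 2) j T *
      ∏ p ∈ T, 1 / ((p : ℝ) - 1) ≤ ∏ j ∈ range J, (1 + A * (1 / 4) ^ j) := by
    refine prod_le_prod (fun j _ => ?_) fun j _ => ?_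
    · refine sum_nonneg fun T hT => ?_
      rw [mem_powerset] at hT
      refine mul_nonneg (by positivity) (prod_nonneg fun p hp => ?_)
      have h2 : (2 : ℝ) ≤ p := by exact_mod_cast hP p (mem_filter.1 (hT hp)).1
      have : 0 < (p : ℝ) - 1 := by linarith
      positivity
    · have h3 := block_le (P.filter fun x => bk x = j) (fun p hp => hP p (mem_filter.1 hp).1) C
        (hC j) (2 * (b + j))
      refine h3.trans ?_
      have h4 : ((2 : ℝ) ^ (2 * (b + j) + 1))⁻¹ = ((2 : ℝ) ^ (2 * b + 1))⁻¹ * (1 / 4) ^ j := by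
        rw [show 2 * (b + j) + 1 = (2 * b + 1) + 2 * j by ring, pow_add, mul_inv, pow_mul 2 2 j,
          ← inv_pow ((2 : ℝ) ^ 2), show ((2 : ℝ) ^ 2)⁻¹ = 1 / 4 by norm_num]
      rw [h4]
      have h5 : (0 : ℝ) ≤ (1 / 4) ^ j := by positivity
      nlinarith [mul_le_mul_of_nonneg_right hA h5]
  refine h2.trans (prod_one_add_le J A (1 / 4) hA0 (by norm_num) (by norm_num) _ fun j _ => ?_)
  exact ⟨by positivity, le_rfl⟩

end Pool.Agent.GapTwo.BHM_

namespace Pool.Agent.GapTwo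

open Finset Filter BH_ BHM_
open scoped Classical Topology

theorem stmt_BHM : Stmt_BHM := by
  intro ε hε
  obtain ⟨C, hC1, hC⟩ := blk_sum
  have hle : 0 < Real.log (1 + ε) := Real.log_pos (by linarith)
  obtain ⟨b, hb⟩ := exists_pow_lt_of_lt_one (show 0 < Real.log (1 + ε) / Real.exp (64 * C) by
    positivity) (show (1 / 4 : ℝ) < 1 by norm_num)
  refine ⟨4 * b + 4, fun η₁ η h1 h2 h3 => ?_⟩
  refine ⟨2 ^ (1 / η₁), fun N hN => ?_⟩
  have hN1 : 1 ≤ N := le_trans (Real.one_le_rpow (by norm_num) (by positivity)) hN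
  have hu : 2 ≤ N ^ η₁ := by
    calc (2 : ℝ) = ((2 : ℝ) ^ (1 / η₁)) ^ η₁ := by
          rw [← Real.rpow_mul (by norm_num), one_div_mul_cancel h1.ne', Real.rpow_one]
      _ ≤ _ := Real.rpow_le_rpow (by positivity) hN h1.le
  set u : ℝ := N ^ η₁ with hu'
  set z : ℝ := N ^ η with hz'
  have hz1 : 1 ≤ z := Real.one_le_rpow hN1 (by linarith)
  set P := PR u z with hP'
  set J : ℕ := P.sup (blk z) + 1 with hJ'
  have hJ : ∀ p ∈ P, blk z p < J := fun p hp => Nat.lt_succ_of_le (le_sup (f := blk z) hp)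
  have hP : ∀ p ∈ P, 2 ≤ p := fun p hp => by
    rw [hP', mem_PR] at hp
    exact hp.1.two_le
  have hA : ((2 : ℝ) ^ (2 * b + 1))⁻¹ * Real.exp (64 * C) ≤ Real.log (1 + ε) / 2 := by
    rw [lt_div_iff₀ (Real.exp_pos _)] at hb
    have h4 : ((2 : ℝ) ^ (2 * b + 1))⁻¹ = (1 / 4) ^ b / 2 := by
      rw [pow_succ, pow_mul, mul_inv, ← inv_pow]
      norm_num
      ring
    rw [h4]
    linarith
  have hmain := stmt_BHM_aux P hP (blk z) b J hJ C _ (fun j => hC u z hu j) hA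
  have h5 : Real.exp (2 * (Real.log (1 + ε) / 2)) = 1 + ε := by
    rw [mul_div_cancel₀ _ (by norm_num : (2 : ℝ) ≠ 0), Real.exp_log (by linarith)]
  rw [h5] at hmain
  refine ⟨cB P (blk z) b J, cB_empty _ _ _ _, cB_abs _ _ _ _, ?_, cB_sum_nonneg _ _ _ _ hJ, ?_,
    hmain⟩
  · intro T hT
    obtain ⟨h6, h7⟩ := cB_supp hT
    refine ⟨h6, ?_⟩
    have h8 := level_le (fun p : ℕ => p) z hz1 b J T (fun p hp => by
      have hp' := h6 hp
      refine ⟨hP p hp', ?_, hJ p hp'⟩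
      rw [hP', mem_PR] at hp'
      exact hp'.2.2) h7
    refine h8.trans (le_of_eq ?_)
    rw [hz', ← Real.rpow_natCast, ← Real.rpow_mul (by linarith)]
    congr 1
    push_cast
    ring
  · refine le_trans ?_ hmain
    unfold E1
    refine sum_le_sum fun S hS => ?_
    rw [mem_powerset] at hS
    have h9 : 0 ≤ ∏ p ∈ P \ S, (1 - 1 / (p : ℝ)) := by
      refine prod_nonneg fun p hp => ?_
      have h2 : (2 : ℝ) ≤ p := by exact_mod_cast hP p (mem_sdiff.1 hp).1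
      have : 1 / (p : ℝ) ≤ 1 := by
        rw [div_le_one (by linarith)]
        linarith
      linarith
    have h10 : 0 ≤ ∏ p ∈ S, 1 / (p : ℝ) := prod_nonneg fun p _ => by positivity
    refine mul_le_mul_of_nonneg_left ?_ (mul_nonneg h10 h9)
    refine mul_le_mul_of_nonneg_left ?_ (by positivity)
    rw [cB_sum P (blk z) b J hJ S, ← prod_pow]
    exact prod_le_prod (fun j _ => AT_one_nonneg _ _ (even_two_mul _)) fun j _ => AT_one_le_sq _ _

end Pool.Agent.GapTwo
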