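import Pool.Agent.Work.MP_1ea053_nt.Interface

/-!
# Block COMB
-/

set_option autoImplicit false

namespace Pool.Agent.GapTwo

open Finset

theorem stmt_COMB : Stmt_COMB := by
  intro T hT
  by_contra h
  push Not at h
  have hne : T.Nonempty := by
    rw [← Finset.card_pos]; omega
  obtain ⟨s₀, hs₀, hmin⟩ := T.exists_min_image (fun s => (s : ℕ)) hne
  set g : Fin 26 → ℕ := fun s => if (s : ℕ) ≤ s₀ + 6 then (s : ℕ) + 26 else s with hg
  have key : ∀ s ∈ T, ∀ s' ∈ T, g s ≤ g s' + 6 := by
    intro s hs s' hs'
    have h1 := hmin s hs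
    have h2 := hmin s' hs'
    have h3 := h s₀ hs₀ s hs
    have h4 := h s₀ hs₀ s' hs'
    have h5 := h s hs s' hs'
    have h6 := s.isLt
    have h7 := s'.isLt
    simp only [hg]
    split_ifs <;> omega
  have hinj : Set.InjOn g T := by
    intro s hs s' hs' hss
    have h6 := s.isLt
    have h7 := s'.isLt
    simp only [hg] at hss
    ext
    split_ifs at hss <;> omega
  have hne' : (T.image g).Nonempty := hne.image g
  have hsub : T.image g ⊆ Finset.Icc ((T.image g).min' hne') ((T.image g).min' hne' + 6) := by
    intro x hx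
    have h1 := (T.image g).min'_le x hx
    obtain ⟨s, hs, rfl⟩ := Finset.mem_image.1 hx
    obtain ⟨s', hs', hs'm⟩ := Finset.mem_image.1 ((T.image g).min'_mem hne')
    have := key s hs s' hs'
    rw [Finset.mem_Icc]
    omega
  have hcard := Finset.card_le_card hsub
  rw [Finset.card_image_of_injOn hinj, Nat.card_Icc] at hcard
  omega

end Pool.Agent.GapTwo
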