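import Pool.Agent.Work.MP_1ea053_nt.Interface

/-!
# Block CONST: the constant of the linear sieve, `A * exp (-γ) ≤ 2.02`.

`4 (1 - f(4)) = ∫_3^∞ (F - 1) ≥ ∫_3^4 (F - 1)`, which gives `A (log 4 + 1 / 75) ≤ 5`.
-/

set_option autoImplicit false

namespace Pool.Agent.GapTwo

namespace CONST_

open MeasureTheory Set Pool.Agent.LinearSieve

lemma hh_le_one (s : ℝ) : hh s ≤ 1 := by
  unfold hh
  rw [Real.exp_le_one_iff]
  have := le_max_right s 2
  linarith

lemma ser_J_sub {c₀ : ℝ} {e : ℕ → ℝ → ℝ} (he : ∀ n, Good (c₀ * q0 ^ n) (e n)) (a b : ℝ) :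
    ∑' n, Jt (e n) a - ∑' n, Jt (e n) b = ∫ t in a..b, ∑' n, e n (t - 1) := by
  rw [← (ser_J_summable he a).tsum_sub (ser_J_summable he b)]
  have h : ∀ n, Jt (e n) a - Jt (e n) b = ∫ t in a..b, e n (t - 1) := fun n => (he n).Jt_sub a b
  simp only [h]
  have h2 := intervalIntegral.hasSum_integral_of_dominated_convergence (μ := volume) (a := a)
    (b := b) (F := fun n t => e n (t - 1)) (f := fun t => ∑' n, e n (t - 1))
    (fun n _ => c₀ * q0 ^ n * 1)
    (fun n => ((he n).cont.comp (by fun_prop)).aestronglyMeasurable) ?_ ?_ ?_ ?_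
  · exact h2.tsum_eq
  · intro n
    refine Filter.Eventually.of_forall fun t _ => ?_
    rw [Real.norm_eq_abs, abs_of_nonneg ((he n).nonneg _)]
    exact ((he n).le _).trans (mul_le_mul_of_nonneg_left (hh_le_one _) (he n).c0)
  · exact Filter.Eventually.of_forall fun t _ => summable_geo c₀ 1
  · exact intervalIntegrable_const
  · exact Filter.Eventually.of_forall fun t _ => (ser_summable he _).hasSum

lemma Jp_sub (a b : ℝ) : fns.Jp a - fns.Jp b = ∫ t in a..b, fns.fp (t - 1) :=
  ser_J_sub good_us a b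

lemma Jm_sub (a b : ℝ) : fns.Jm a - fns.Jm b = ∫ t in a..b, fns.fm (t - 1) :=
  ser_J_sub good_ls a b

lemma log_low (u : ℝ) (h0 : 0 ≤ u) :
    56 / 125 * u - 32 / 125 * u ^ 2 ≤ Real.log (1 + u) / (2 + u) := by
  have h1 := Real.le_log_one_add_of_nonneg h0
  rw [le_div_iff₀ (by linarith)]
  refine le_trans ?_ h1
  rw [le_div_iff₀ (by linarith)]
  have h2 : 0 ≤ 32 / 125 * (u * ((u - 1 / 2) ^ 2 * (u + 13 / 4))) := by positivity
  nlinarith

lemma fp_int (a b : ℝ) : IntervalIntegrable (fun t => fns.fp (t - 1)) volume a b :=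
  (fns.fp_anti.comp_monotone (g := fns.fp) (f := fun t : ℝ => t - 1)
    (fun x y h => by simpa using h)).intervalIntegrable

lemma fm_int (a b : ℝ) : IntervalIntegrable (fun t => fns.fm (t - 1)) volume a b :=
  (fns.fm_anti.comp_monotone (g := fns.fm) (f := fun t : ℝ => t - 1)
    (fun x y h => by simpa using h)).intervalIntegrable

lemma Jm_low (s : ℝ) (h3 : 3 ≤ s) (h4 : s ≤ 4) :
    fns.A - s + fns.A * (28 / 125 * (s - 3) ^ 2 - 32 / 375 * (s - 3) ^ 3) ≤ fns.Jm s := by
  have hA := A_ge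
  have h1 := Jm_sub 3 s
  have h2 : ∫ t in (3 : ℝ)..s, fns.fm (t - 1) ≤ ∫ t in (3 : ℝ)..s,
      (1 - fns.A * (56 / 125 * (t - 3) - 32 / 125 * (t - 3) ^ 2)) := by
    refine intervalIntegral.integral_mono_on h3 (fm_int 3 s)
      (Continuous.intervalIntegrable (by fun_prop) _ _) fun t ht => ?_
    have e1 := fns.fm_small (t - 1) (by linarith [ht.1]) (by linarith [ht.2])
    have e2 := log_low (t - 3) (by linarith [ht.1])
    have e3 : (1 : ℝ) + (t - 3) = t - 1 - 1 := by ring
    have e4 : (2 : ℝ) + (t - 3) = t - 1 := by ring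
    rw [e3, e4] at e2
    have e5 := mul_le_mul_of_nonneg_left e2 (by linarith : 0 ≤ fns.A)
    rw [← mul_div_assoc] at e5
    linarith
  have h5 : ∀ t ∈ uIcc 3 s, HasDerivAt (fun t => t - fns.A * (28 / 125 * (t - 3) ^ 2 -
      32 / 375 * (t - 3) ^ 3)) (1 - fns.A * (56 / 125 * (t - 3) - 32 / 125 * (t - 3) ^ 2)) t := by
    intro t _
    have d1 : HasDerivAt (fun t : ℝ => t - 3) 1 t := (hasDerivAt_id t).sub_const 3
    have d2 := (d1.pow 2).const_mul (28 / 125)
    have d3 := (d1.pow 3).const_mul (32 / 375)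
    have d4 := (hasDerivAt_id t).sub ((d2.sub d3).const_mul fns.A)
    refine d4.congr_deriv ?_
    push_cast
    ring
  rw [intervalIntegral.integral_eq_sub_of_hasDerivAt h5
    (Continuous.intervalIntegrable (by fun_prop) _ _)] at h2
  have h6 := fns.A_eq
  generalize (∫ t in (3 : ℝ)..s, fns.fm (t - 1)) = I at h1 h2
  norm_num at h2
  linarith

lemma A_main : fns.A * (2 * Real.log 2 + 1 / 75) ≤ 5 := by
  have hA := A_ge
  have h1 := Jp_sub 4 5
  have h2 : ∫ t in (4 : ℝ)..5, (fns.A / (t - 1) - 1 + fns.A / 4 *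
      (28 / 125 * (t - 4) ^ 2 - 32 / 375 * (t - 4) ^ 3)) ≤
      ∫ t in (4 : ℝ)..5, fns.fp (t - 1) := by
    refine intervalIntegral.integral_mono_on (by norm_num) ?_ (fp_int 4 5) fun t ht => ?_
    · apply ContinuousOn.intervalIntegrable
      apply ContinuousOn.add _ (by fun_prop)
      apply ContinuousOn.sub _ continuousOn_const
      apply ContinuousOn.div continuousOn_const (by fun_prop)
      intro t ht
      rw [uIcc_of_le (by norm_num)] at ht
      linarith [ht.1]
    · have e1 := fns.fp_eq (t - 1) (by linarith [ht.1])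
      have e2 := Jm_low (t - 1) (by linarith [ht.1]) (by linarith [ht.2])
      have e3 : t - 1 - 3 = t - 4 := by ring
      rw [e3] at e2
      have hs : 0 < t - 1 := by linarith [ht.1]
      rw [← e1, le_div_iff₀ hs]
      refine le_trans ?_ e2
      have e4 : (fns.A / (t - 1) - 1 + fns.A / 4 *
          (28 / 125 * (t - 4) ^ 2 - 32 / 375 * (t - 4) ^ 3)) * (t - 1) =
          fns.A - (t - 1) + fns.A * ((28 / 125 * (t - 4) ^ 2 - 32 / 375 * (t - 4) ^ 3) *
            ((t - 1) / 4)) := by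
        field_simp
      rw [e4]
      have hP : 0 ≤ 28 / 125 * (t - 4) ^ 2 - 32 / 375 * (t - 4) ^ 3 := by
        have : 28 / 125 * (t - 4) ^ 2 - 32 / 375 * (t - 4) ^ 3 =
            (t - 4) ^ 2 * (28 / 125 - 32 / 375 * (t - 4)) := by ring
        rw [this]
        apply mul_nonneg (sq_nonneg _)
        linarith [ht.2]
      have e5 : (28 / 125 * (t - 4) ^ 2 - 32 / 375 * (t - 4) ^ 3) * ((t - 1) / 4) ≤
          28 / 125 * (t - 4) ^ 2 - 32 / 375 * (t - 4) ^ 3 :=
        mul_le_of_le_one_right hP (by linarith [ht.2])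
      have e6 := mul_le_mul_of_nonneg_left e5 (by linarith : 0 ≤ fns.A)
      linarith
  have h5 : ∀ t ∈ uIcc (4 : ℝ) 5, HasDerivAt (fun t => fns.A * Real.log (t - 1) - t + fns.A / 4 *
      (28 / 375 * (t - 4) ^ 3 - 8 / 375 * (t - 4) ^ 4)) (fns.A / (t - 1) - 1 + fns.A / 4 *
      (28 / 125 * (t - 4) ^ 2 - 32 / 375 * (t - 4) ^ 3)) t := by
    intro t ht
    rw [uIcc_of_le (by norm_num)] at ht
    have ht1 : t - 1 ≠ 0 := by linarith [ht.1]
    have d0 : HasDerivAt (fun t : ℝ => Real.log (t - 1)) (1 / (t - 1)) t :=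
      ((hasDerivAt_id t).sub_const 1).log ht1
    have d1 : HasDerivAt (fun t : ℝ => t - 4) 1 t := (hasDerivAt_id t).sub_const 4
    have d2 := (d1.pow 3).const_mul (28 / 375)
    have d3 := (d1.pow 4).const_mul (8 / 375)
    have d4 := ((d0.const_mul fns.A).sub (hasDerivAt_id t)).add ((d2.sub d3).const_mul (fns.A / 4))
    refine d4.congr_deriv ?_
    push_cast
    ring
  rw [intervalIntegral.integral_eq_sub_of_hasDerivAt h5] at h2
  swap
  · apply ContinuousOn.intervalIntegrable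
    apply ContinuousOn.add _ (by fun_prop)
    apply ContinuousOn.sub _ continuousOn_const
    apply ContinuousOn.div continuousOn_const (by fun_prop)
    intro t ht
    rw [uIcc_of_le (by norm_num)] at ht
    linarith [ht.1]
  have h6 := fns.fm_small 4 (by norm_num) le_rfl
  have h7 := fns.fm_eq 4 (by norm_num)
  have h8 := fns.Jp_nonneg 5
  have h9 : Real.log 4 = 2 * Real.log 2 := by
    rw [show (4 : ℝ) = 2 ^ 2 by norm_num, Real.log_pow]; norm_num
  have e1 : (5 : ℝ) - 1 = 4 := by norm_num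
  have e2 : (4 : ℝ) - 1 = 3 := by norm_num
  rw [e1, e2, h9] at h2
  rw [e2] at h6
  generalize (∫ t in (4 : ℝ)..5, fns.fp (t - 1)) = I at h1 h2
  norm_num at h2
  have h10 : fns.Jp 4 = 4 - fns.A * Real.log 3 := by
    rw [← h7] at h6
    linarith
  nlinarith

lemma harmonic_127 : (5425 / 1000 : ℚ) ≤ harmonic 127 := by
  decide +kernel

lemma gamma_ge : (5729 / 10000 : ℝ) ≤ Real.eulerMascheroniConstant := by
  have h1 := (Real.eulerMascheroniSeq_lt_eulerMascheroniConstant 127).le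
  refine le_trans ?_ h1
  unfold Real.eulerMascheroniSeq
  have h2 : ((5425 / 1000 : ℚ) : ℝ) ≤ ((harmonic 127 : ℚ) : ℝ) := by exact_mod_cast harmonic_127
  have h3 : Real.log (((127 : ℕ) : ℝ) + 1) = 7 * Real.log 2 := by
    rw [show (((127 : ℕ) : ℝ) + 1) = 2 ^ 7 by norm_num, Real.log_pow]; norm_num
  rw [h3]
  have h4 := Real.log_two_lt_d9
  push_cast at h2
  linarith

end CONST_

open CONST_ in
theorem stmt_CONST : Stmt_CONST := by
  unfold Stmt_CONST
  have h1 := A_main
  have h2 := Real.log_two_gt_d9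
  have hA := Pool.Agent.LinearSieve.A_ge
  have h3 : Pool.Agent.LinearSieve.fns.A ≤ 3573 / 1000 := by nlinarith
  have h4 : (1769 / 1000 : ℝ) ≤ Real.exp Real.eulerMascheroniConstant := by
    refine le_trans ?_ (Real.exp_le_exp.2 gamma_ge)
    have h5 := Real.sum_le_exp_of_nonneg (x := 5729 / 10000) (by norm_num) 5
    refine le_trans ?_ h5
    simp only [Finset.sum_range_succ, Finset.range_zero, Finset.sum_empty, Nat.factorial]
    norm_num
  rw [Real.exp_neg, ← div_eq_mul_inv, div_le_iff₀ (Real.exp_pos _)]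
  linarith

end Pool.Agent.GapTwo
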