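import Pool.Agent.Work.MP_1ea053_nt.Tool2

/-!
# CORED, part 1: sums of polynomials and of the sieve function
-/

set_option autoImplicit false

namespace Pool.Agent.GapTwo.CORED_

open Finset Filter
open scoped Classical Topology

lemma lam_pos {η : ℝ} {M : ℕ} {N : ℝ} {lam : ℕ → ℝ} (h : Ros η M N lam) {d : ℕ} (hd : lam d ≠ 0) :
    d ∈ Icc 1 ⌊N ^ θ₀⌋₊ := by
  have h1 := (h.rough d hd).1
  rw [mem_Icc]
  exact ⟨Nat.one_le_iff_ne_zero.2 h1.ne_zero, Nat.le_floor (h.supp d hd).1⟩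

/-- The sieve function as a sum over `d ≤ N^θ₀`. -/
lemma gg_eq {η : ℝ} {M : ℕ} {N : ℝ} {lam : ℕ → ℝ} (h : Ros η M N lam) {m : ℕ} (hm : 0 < m) :
    gg lam m = ∑ d ∈ Icc 1 ⌊N ^ θ₀⌋₊, if d ∣ m then lam d else 0 := by
  unfold gg
  rw [← sum_filter]
  have h1 : ∑ d ∈ m.divisors, lam d = ∑ d ∈ m.divisors.filter (fun d => lam d ≠ 0), lam d :=
    (sum_filter_ne_zero _).symm
  have h2 : ∑ d ∈ (Icc 1 ⌊N ^ θ₀⌋₊).filter (fun d => d ∣ m), lam d =
      ∑ d ∈ ((Icc 1 ⌊N ^ θ₀⌋₊).filter (fun d => d ∣ m)).filter (fun d => lam d ≠ 0), lam d :=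
    (sum_filter_ne_zero _).symm
  rw [h1, h2]
  apply sum_congr _ fun _ _ => rfl
  ext d
  simp only [mem_filter, Nat.mem_divisors]
  constructor
  · rintro ⟨⟨h3, _⟩, h4⟩
    exact ⟨⟨lam_pos h h4, h3⟩, h4⟩
  · rintro ⟨⟨_, h3⟩, h4⟩
    exact ⟨⟨h3, hm.ne'⟩, h4⟩

lemma gam_nonneg {η : ℝ} {M : ℕ} {N : ℝ} {lam : ℕ → ℝ} (h : Ros η M N lam) : 0 ≤ gam N lam := by
  set F := ⌊N ^ θ₀⌋₊ with hF
  have h1 : ∑ m ∈ Ioc 0 F.factorial, gg lam m = F.factorial * gam N lam := by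
    have h2 : ∑ m ∈ Ioc 0 F.factorial, gg lam m =
        ∑ m ∈ Ioc 0 F.factorial, ∑ d ∈ Icc 1 F, if d ∣ m then lam d else 0 :=
      sum_congr rfl fun m hm => gg_eq h (mem_Ioc.1 hm).1
    rw [h2, sum_comm]
    unfold gam
    rw [mul_sum]
    apply sum_congr rfl
    intro d hd
    rw [mem_Icc] at hd
    rw [← sum_filter, sum_const, Nat.Ioc_filter_dvd_card_eq_div, nsmul_eq_mul,
      Nat.cast_div (Nat.dvd_factorial hd.1 hd.2) (by exact_mod_cast (by omega : d ≠ 0))]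
    ring
  have h3 : 0 ≤ ∑ m ∈ Ioc 0 F.factorial, gg lam m :=
    sum_nonneg fun m hm => h.nonneg m (mem_Ioc.1 hm).1
  rw [h1] at h3
  have h4 : (0 : ℝ) < F.factorial := by exact_mod_cast F.factorial_pos
  by_contra h5
  push Not at h5
  nlinarith

/-- The sieve function is bounded on small integers. -/
lemma gg_le {η : ℝ} {M : ℕ} {N : ℝ} {lam : ℕ → ℝ} (h : Ros η M N lam) (hη : 0 < η) (hN : 1 < N)
    {m : ℕ} (hm : 0 < m) (hmN : (m : ℝ) ≤ N ^ (2 : ℝ)) : gg lam m ^ 2 ≤ 4 ^ ⌊2 / η⌋₊ := by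
  set R : Finset ℕ := m.primeFactors.filter (fun p : ℕ => N ^ η ≤ (p : ℝ)) with hR
  have hNη : 0 < N ^ η := Real.rpow_pos_of_pos (by linarith) _
  have h1 : R.card ≤ ⌊2 / η⌋₊ := by
    apply Nat.le_floor
    rw [le_div_iff₀ hη]
    have h2 : (N ^ η) ^ R.card ≤ ∏ p ∈ R, (p : ℝ) := by
      rw [← prod_const]
      apply Finset.prod_le_prod
      · intro _ _; exact hNη.le
      · intro p hp; exact (mem_filter.1 hp).2
    have h3 : ∏ p ∈ R, (p : ℝ) ≤ m := by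
      rw [← Nat.cast_prod]
      have h4 : ∏ p ∈ R, p ∣ m := (prod_dvd_prod_of_subset _ _ _ (filter_subset _ _)).trans
        (Nat.prod_primeFactors_dvd m)
      exact_mod_cast Nat.le_of_dvd hm h4
    have h5 : N ^ (η * R.card) ≤ N ^ (2 : ℝ) := by
      rw [Real.rpow_mul (by linarith), Real.rpow_natCast]
      linarith
    have h6 := (Real.rpow_le_rpow_left_iff hN).1 h5
    linarith
  have h2 : |gg lam m| ≤ 2 ^ R.card := by
    unfold gg
    have h3 : ∑ d ∈ m.divisors, lam d = ∑ d ∈ m.divisors.filter (fun d => lam d ≠ 0), lam d :=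
      (sum_filter_ne_zero _).symm
    rw [h3]
    refine (abs_sum_le_sum_abs _ _).trans ?_
    refine (sum_le_sum fun d _ => h.bd d).trans ?_
    rw [sum_const, nsmul_eq_mul, mul_one]
    have h4 : (m.divisors.filter (fun d => lam d ≠ 0)).card ≤ R.powerset.card := by
      apply card_le_card_of_injOn (fun d : ℕ => d.primeFactors)
      · intro d hd
        have hd' := mem_filter.1 (mem_coe.1 hd)
        rw [Nat.mem_divisors] at hd'
        rw [mem_coe, mem_powerset]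
        intro p hp
        rw [mem_filter]
        have hpp := Nat.prime_of_mem_primeFactors hp
        have hpd := Nat.dvd_of_mem_primeFactors hp
        exact ⟨Nat.mem_primeFactors.2 ⟨hpp, hpd.trans hd'.1.1, hm.ne'⟩,
          (h.rough d hd'.2).2 p hpp hpd⟩
      · intro d hd e he hde
        have hd' := mem_filter.1 (mem_coe.1 hd)
        have he' := mem_filter.1 (mem_coe.1 he)
        rw [← Nat.prod_primeFactors_of_squarefree (h.rough d hd'.2).1,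
          ← Nat.prod_primeFactors_of_squarefree (h.rough e he'.2).1]
        simp only at hde
        rw [hde]
    rw [card_powerset] at h4
    exact_mod_cast h4
  have h3 : |gg lam m| ≤ 2 ^ ⌊2 / η⌋₊ := h2.trans (pow_le_pow_right₀ (by norm_num) h1)
  calc gg lam m ^ 2 = |gg lam m| ^ 2 := (sq_abs _).symm
    _ ≤ (2 ^ ⌊2 / η⌋₊) ^ 2 := pow_le_pow_left₀ (abs_nonneg _) h3 2
    _ = 4 ^ ⌊2 / η⌋₊ := by rw [← pow_mul, mul_comm, pow_mul]; norm_num

/-- Sum of a polynomial over the multiples of `W`. -/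
lemma sum_NW (hT1 : Stmt_T1) {ι : Type} [Fintype ι] (a : ι → ℕ) (D₀ : ℕ) (ha : ∀ i, 0 < a i)
    (hinj : Function.Injective a) (hD : ∀ i, a i < D₀) (N κ v : ℝ) (hN : 0 ≤ N) (hκ : 0 ≤ κ)
    (c : Finset (ℕ × ι) → ℝ) :
    |∑ n ∈ NW (WW D₀) N κ, poly c (ev a (XX ι D₀ v) n) - κ * N / WW D₀ * Eloc (XX ι D₀ v) c|
      ≤ ∑ T ∈ (XX ι D₀ v).powerset, |c T| := by
  have h := hT1 a (XX ι D₀ v) (adm_XX a D₀ ha hinj hD v) c (WW D₀) 0 (WW_pos D₀)
    (fun x hx => not_dvd_WW hx) N κ hN hκ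
  have h1 : NW (WW D₀) N κ = (II N κ).filter (fun n => n ≡ 0 [MOD WW D₀]) := by
    unfold NW
    apply filter_congr
    intro n _
    exact Nat.modEq_zero_iff_dvd.symm
  rw [h1]
  exact h

/-- The class modulo `W d` of the multiples `n` of `W` with `d ∣ a n + 1`. -/
lemma exists_class {W d a : ℕ} (hd : 1 ≤ d) (hWd : W.Coprime d) (had : a.Coprime d) :
    ∃ b : ℕ, ∀ n : ℕ, n ≡ b [MOD W * d] ↔ (W ∣ n ∧ d ∣ a * n + 1) := by
  obtain ⟨r, hr⟩ : ∃ r : ℕ, d ∣ a * r + 1 := by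
    obtain ⟨k, hk1, hk2⟩ := Nat.chineseRemainder had 0 (d - 1)
    obtain ⟨r, hr⟩ := Nat.modEq_zero_iff_dvd.1 hk1
    refine ⟨r, ?_⟩
    rw [← hr]
    apply Nat.modEq_zero_iff_dvd.1
    have h1 := hk2.add_right 1
    rw [Nat.sub_add_cancel hd] at h1
    exact h1.trans (Nat.modEq_zero_iff_dvd.2 dvd_rfl)
  obtain ⟨b, hb1, hb2⟩ := Nat.chineseRemainder hWd 0 r
  refine ⟨b, fun n => ?_⟩
  rw [← Nat.modEq_and_modEq_iff_modEq_mul hWd]
  apply and_congr
  · rw [← Nat.modEq_zero_iff_dvd]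
    exact ⟨fun h => h.trans hb1, fun h => h.trans hb1.symm⟩
  · constructor
    · intro h
      have h1 := ((h.trans hb2).mul_left a).add_right 1
      exact (Nat.modEq_zero_iff_dvd.1 (h1.trans (Nat.modEq_zero_iff_dvd.2 hr)))
    · intro h
      have h1 : a * n + 1 ≡ a * r + 1 [MOD d] :=
        (Nat.modEq_zero_iff_dvd.2 h).trans (Nat.modEq_zero_iff_dvd.2 hr).symm
      have h2 := Nat.ModEq.add_right_cancel' 1 h1
      have h3 := Nat.ModEq.cancel_left_of_coprime (by rw [Nat.gcd_comm]; exact had) h2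
      exact h3.trans hb2.symm

lemma coprime_rough {d n : ℕ} {z : ℝ} (hd : Squarefree d)
    (h : ∀ p : ℕ, p.Prime → p ∣ d → z ≤ (p : ℝ)) (hn : ∀ p : ℕ, p.Prime → p ∣ n → (p : ℝ) < z) :
    n.Coprime d := by
  rw [Nat.coprime_iff_gcd_eq_one]
  by_contra hg
  obtain ⟨p, hp, hpg⟩ := Nat.exists_prime_and_dvd hg
  have h1 := h p hp (hpg.trans (Nat.gcd_dvd_right _ _))
  have h2 := hn p hp (hpg.trans (Nat.gcd_dvd_left _ _))
  linarith

/-- Sum of a polynomial times the sieve function of one form. -/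
lemma sum_gg (hT1 : Stmt_T1) {ι : Type} [Fintype ι] (a : ι → ℕ) (D₀ : ℕ) (ha : ∀ i, 0 < a i)
    (hinj : Function.Injective a) (hD : ∀ i, a i < D₀) (N κ η : ℝ) (hN : 1 ≤ N) (hκ : 0 ≤ κ)
    (hDN : (D₀ : ℝ) ≤ N ^ η) {M : ℕ} {lam : ℕ → ℝ} (hlam : Ros η M N lam)
    (c : Finset (ℕ × ι) → ℝ) (i : ι) :
    |∑ n ∈ NW (WW D₀) N κ, poly c (ev a (XX ι D₀ (N ^ η)) n) * gg lam (a i * n + 1)
      - gam N lam * (κ * N / WW D₀ * Eloc (XX ι D₀ (N ^ η)) c)|
      ≤ N ^ θ₀ * ∑ T ∈ (XX ι D₀ (N ^ η)).powerset, |c T| := by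
  set X := XX ι D₀ (N ^ η) with hX
  set F := ⌊N ^ θ₀⌋₊ with hF
  set S := ∑ T ∈ X.powerset, |c T| with hS
  have hS0 : 0 ≤ S := sum_nonneg fun _ _ => abs_nonneg _
  have h1 : ∑ n ∈ NW (WW D₀) N κ, poly c (ev a X n) * gg lam (a i * n + 1) =
      ∑ d ∈ Icc 1 F, lam d * ∑ n ∈ (NW (WW D₀) N κ).filter (fun n => d ∣ a i * n + 1),
        poly c (ev a X n) := by
    have h2 : ∀ n ∈ NW (WW D₀) N κ, poly c (ev a X n) * gg lam (a i * n + 1) =
        ∑ d ∈ Icc 1 F, if d ∣ a i * n + 1 then lam d * poly c (ev a X n) else 0 := by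
      intro n _
      rw [gg_eq hlam (by omega), mul_sum]
      apply sum_congr rfl
      intro d _
      split_ifs <;> ring
    rw [sum_congr rfl h2, sum_comm]
    apply sum_congr rfl
    intro d _
    rw [mul_sum, sum_filter]
  have h2 : ∀ d ∈ Icc 1 F, |lam d * ∑ n ∈ (NW (WW D₀) N κ).filter (fun n => d ∣ a i * n + 1),
      poly c (ev a X n) - lam d / d * (κ * N / WW D₀ * Eloc X c)| ≤ S := by
    intro d hd
    rw [mem_Icc] at hd
    by_cases hl : lam d = 0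
    · rw [hl]; simpa using hS0
    · have hr := hlam.rough d hl
      have hW : (WW D₀).Coprime d := by
        apply coprime_rough hr.1 hr.2
        intro p hp hpW
        have h3 := (prime_dvd_WW hp).1 hpW
        have : (p : ℝ) < D₀ := by exact_mod_cast h3
        linarith
      have hai : (a i).Coprime d := by
        apply coprime_rough hr.1 hr.2
        intro p hp hpa
        have h3 := Nat.le_of_dvd (ha i) hpa
        have h4 : (p : ℝ) < D₀ := by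
          have := hD i
          exact_mod_cast (by omega : p < D₀)
        linarith
      obtain ⟨b, hb⟩ := exists_class hd.1 hW hai
      have h3 := hT1 a X (adm_XX a D₀ ha hinj hD _) c (WW D₀ * d) b
        (Nat.mul_pos (WW_pos D₀) hd.1) (by
          intro x hx hdvd
          have hx' := mem_XX.1 hx
          rcases (hx'.1.dvd_mul).1 hdvd with h4 | h4
          · exact not_dvd_WW hx h4
          · linarith [hr.2 x.1 hx'.1 h4, hx'.2.2]) N κ (by linarith) hκ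
      have h4 : (II N κ).filter (fun n => n ≡ b [MOD WW D₀ * d]) =
          (NW (WW D₀) N κ).filter (fun n => d ∣ a i * n + 1) := by
        unfold NW
        rw [filter_filter]
        apply filter_congr
        intro n _
        exact hb n
      rw [h4] at h3
      have h5 : lam d * ∑ n ∈ (NW (WW D₀) N κ).filter (fun n => d ∣ a i * n + 1),
          poly c (ev a X n) - lam d / d * (κ * N / WW D₀ * Eloc X c) =
          lam d * (∑ n ∈ (NW (WW D₀) N κ).filter (fun n => d ∣ a i * n + 1),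
          poly c (ev a X n) - κ * N / (WW D₀ * d : ℕ) * Eloc X c) := by
        have hd0 : (d : ℝ) ≠ 0 := by exact_mod_cast (by omega : d ≠ 0)
        have hW0 : (WW D₀ : ℝ) ≠ 0 := by exact_mod_cast (WW_pos D₀).ne'
        push_cast
        field_simp
      rw [h5, abs_mul]
      calc |lam d| * _ ≤ 1 * S := mul_le_mul (hlam.bd d) h3 (abs_nonneg _) zero_le_one
        _ = S := one_mul S
  have h3 : gam N lam * (κ * N / WW D₀ * Eloc X c) =
      ∑ d ∈ Icc 1 F, lam d / d * (κ * N / WW D₀ * Eloc X c) := by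
    unfold gam
    rw [sum_mul]
  rw [h1, h3, ← sum_sub_distrib]
  refine (abs_sum_le_sum_abs _ _).trans ?_
  refine (sum_le_sum h2).trans ?_
  rw [sum_const, nsmul_eq_mul, Nat.card_Icc]
  apply mul_le_mul_of_nonneg_right _ hS0
  simp only [Nat.add_sub_cancel]
  exact Nat.floor_le (Real.rpow_nonneg (by linarith) _)

/-- Lower bound for a probability by the first two moments of a majorant. -/
lemma prob_lower (S : Finset ℕ) (Ω X G : ℕ → ℝ) (A : ℕ → Prop) (hΩ : ∀ n ∈ S, 0 ≤ Ω n)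
    (hXG : ∀ n ∈ S, X n ≤ G n) (hG0 : ∀ n ∈ S, 0 ≤ G n) (hA : ∀ n ∈ S, ¬ A n → X n ≤ 0)
    (x b e₁ e₂ : ℝ) (hS0 : 0 < ∑ n ∈ S, Ω n) (hx : 0 < x) (hb : 0 < b) (he₂ : 0 ≤ e₂)
    (h1 : (1 - e₁) * x * ∑ n ∈ S, Ω n ≤ ∑ n ∈ S, Ω n * X n)
    (h2 : ∑ n ∈ S, Ω n * G n ≤ b * x * ∑ n ∈ S, Ω n)
    (h3 : (∑ n ∈ S, Ω n) * ∑ n ∈ S, Ω n * G n ^ 2 - (∑ n ∈ S, Ω n * G n) ^ 2 ≤
      e₂ ^ 2 * x ^ 2 * (∑ n ∈ S, Ω n) ^ 2) :
    (1 - e₁ - e₂) / b * ∑ n ∈ S, Ω n ≤ ∑ n ∈ S.filter A, Ω n := by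
  set S₀ := ∑ n ∈ S, Ω n with hS₀
  set m := (∑ n ∈ S, Ω n * G n) / S₀ with hm
  set P := ∑ n ∈ S.filter A, Ω n with hP
  have hm0 : 0 ≤ m := div_nonneg (sum_nonneg fun n hn => mul_nonneg (hΩ n hn) (hG0 n hn)) hS0.le
  have hmS : m * S₀ = ∑ n ∈ S, Ω n * G n := by rw [hm]; field_simp
  have hmb : m ≤ b * x := by rw [hm, div_le_iff₀ hS0]; exact h2
  have hP0 : 0 ≤ P := sum_nonneg fun n hn => hΩ n (mem_filter.1 hn).1
  -- E X ≤ E G 1_A
  have h4 : ∑ n ∈ S, Ω n * X n ≤ ∑ n ∈ S.filter A, Ω n * G n := by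
    rw [← sum_filter_add_sum_filter_not S A (fun n => Ω n * X n)]
    have h5 : ∑ n ∈ S.filter (fun n => ¬ A n), Ω n * X n ≤ 0 := by
      apply sum_nonpos
      intro n hn
      rw [mem_filter] at hn
      exact mul_nonpos_of_nonneg_of_nonpos (hΩ n hn.1) (hA n hn.1 hn.2)
    have h6 : ∑ n ∈ S.filter A, Ω n * X n ≤ ∑ n ∈ S.filter A, Ω n * G n := by
      apply sum_le_sum
      intro n hn
      rw [mem_filter] at hn
      exact mul_le_mul_of_nonneg_left (hXG n hn.1) (hΩ n hn.1)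
    linarith
  -- variance
  have h5 : ∑ n ∈ S, Ω n * (G n - m) ^ 2 ≤ e₂ ^ 2 * x ^ 2 * S₀ := by
    have h6 : ∑ n ∈ S, Ω n * (G n - m) ^ 2 =
        ∑ n ∈ S, Ω n * G n ^ 2 - 2 * m * ∑ n ∈ S, Ω n * G n + m ^ 2 * S₀ := by
      rw [hS₀, mul_sum, mul_sum, ← sum_sub_distrib, ← sum_add_distrib]
      apply sum_congr rfl
      intro n _
      ring
    have h7 : (∑ n ∈ S, Ω n * (G n - m) ^ 2) * S₀ ≤ e₂ ^ 2 * x ^ 2 * S₀ * S₀ := by
      rw [h6, ← hmS]
      rw [← hmS] at h3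
      nlinarith
    exact le_of_mul_le_mul_right h7 hS0
  have h6 : (∑ n ∈ S.filter A, Ω n * (G n - m)) ^ 2 ≤ (e₂ * x * S₀) ^ 2 := by
    have h7 : ∀ n ∈ S.filter A, Ω n * (G n - m) = √(Ω n) * (√(Ω n) * (G n - m)) := by
      intro n hn
      rw [← mul_assoc, Real.mul_self_sqrt (hΩ n (mem_filter.1 hn).1)]
    rw [sum_congr rfl h7]
    refine (sum_mul_sq_le_sq_mul_sq _ _ _).trans ?_
    have h8 : ∑ n ∈ S.filter A, √(Ω n) ^ 2 ≤ S₀ := by
      have : ∑ n ∈ S.filter A, √(Ω n) ^ 2 = P := by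
        apply sum_congr rfl
        intro n hn
        exact Real.sq_sqrt (hΩ n (mem_filter.1 hn).1)
      rw [this]
      exact sum_le_sum_of_subset_of_nonneg (filter_subset _ _) fun n hn _ => hΩ n hn
    have h9 : ∑ n ∈ S.filter A, (√(Ω n) * (G n - m)) ^ 2 ≤ e₂ ^ 2 * x ^ 2 * S₀ := by
      refine le_trans ?_ h5
      have : ∑ n ∈ S.filter A, (√(Ω n) * (G n - m)) ^ 2 = ∑ n ∈ S.filter A, Ω n * (G n - m) ^ 2 := by
        apply sum_congr rfl
        intro n hn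
        rw [mul_pow, Real.sq_sqrt (hΩ n (mem_filter.1 hn).1)]
      rw [this]
      exact sum_le_sum_of_subset_of_nonneg (filter_subset _ _)
        fun n hn _ => mul_nonneg (hΩ n hn) (sq_nonneg _)
    calc (∑ n ∈ S.filter A, √(Ω n) ^ 2) * ∑ n ∈ S.filter A, (√(Ω n) * (G n - m)) ^ 2
        ≤ S₀ * (e₂ ^ 2 * x ^ 2 * S₀) :=
          mul_le_mul h8 h9 (sum_nonneg fun _ _ => sq_nonneg _) hS0.le
      _ = (e₂ * x * S₀) ^ 2 := by ring
  have h7 : ∑ n ∈ S.filter A, Ω n * (G n - m) ≤ e₂ * x * S₀ :=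
    (abs_le_of_sq_le_sq' h6 (by positivity)).2
  have h8 : ∑ n ∈ S.filter A, Ω n * (G n - m) = ∑ n ∈ S.filter A, Ω n * G n - m * P := by
    rw [hP, mul_sum, ← sum_sub_distrib]
    apply sum_congr rfl
    intro n _
    ring
  have h9 : (1 - e₁ - e₂) * x * S₀ ≤ b * x * P := by
    have h10 : m * P ≤ b * x * P := mul_le_mul_of_nonneg_right hmb hP0
    nlinarith
  rw [div_mul_eq_mul_div, div_le_iff₀ hb]
  have h10 : (1 - e₁ - e₂) * S₀ * x ≤ P * b * x := by nlinarith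
  exact le_of_mul_le_mul_right h10 hx

/-- If the probabilities add up to more than `7`, some `n` lies in at least `8` of the events. -/
lemma exists_eight (S : Finset ℕ) (Ω : ℕ → ℝ) (A : Fin 26 → ℕ → Prop) (hΩ : ∀ n ∈ S, 0 ≤ Ω n)
    (hS0 : 0 < ∑ n ∈ S, Ω n)
    (h : ∀ s, 7.0001 / 26 * ∑ n ∈ S, Ω n ≤ ∑ n ∈ S.filter (A s), Ω n) :
    ∃ n ∈ S, 8 ≤ (univ.filter fun s => A s n).card := by
  by_contra hcon
  push Not at hcon
  have h1 : ∑ s : Fin 26, ∑ n ∈ S.filter (A s), Ω n ≤ 7 * ∑ n ∈ S, Ω n := by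
    have h2 : ∑ s : Fin 26, ∑ n ∈ S.filter (A s), Ω n =
        ∑ n ∈ S, ((univ.filter fun s => A s n).card : ℝ) * Ω n := by
      simp_rw [sum_filter]
      rw [sum_comm]
      apply sum_congr rfl
      intro n _
      rw [← sum_filter, sum_const, nsmul_eq_mul]
    rw [h2, mul_sum]
    apply sum_le_sum
    intro n hn
    apply mul_le_mul_of_nonneg_right _ (hΩ n hn)
    have := hcon n hn
    exact_mod_cast (by omega : (univ.filter fun s => A s n).card ≤ 7)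
  have h3 : ∑ s : Fin 26, (7.0001 / 26 * ∑ n ∈ S, Ω n) ≤ ∑ s : Fin 26, ∑ n ∈ S.filter (A s), Ω n :=
    sum_le_sum fun s _ => h s
  rw [sum_const, card_univ, Fintype.card_fin, nsmul_eq_mul] at h3
  push_cast at h3
  nlinarith

end Pool.Agent.GapTwo.CORED_
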