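import Pool.Agent.Work.MP_1ea053_nt.Cored1

/-!
# CORED, part 2: the inequality for one cluster
-/

set_option autoImplicit false

namespace Pool.Agent.GapTwo.CORED_

open Finset Filter
open scoped Classical Topology

/-- Real algebra for the variance. -/
lemma var_alg {k U t x r r' e G1 G2 S₀ dd : ℝ} (he : e = 1 / 10 ^ 12) (hk : 1 ≤ k) (hU : 0 < U)
    (ht : 0 ≤ t) (hx : 0 < x) (hr0 : 0 ≤ r) (hr'0 : 0 ≤ r')
    (ha1 : (1 - e) * U ≤ S₀) (ha2 : S₀ ≤ (1 + 2 * e) * U)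
    (hb1 : k * ((1 - 2 * e) * t - r) ≤ G1) (hG1 : 0 ≤ G1)
    (hG2 : U * G2 ≤ k ^ 2 * ((1 + 2 * e) * t ^ 2 + U * r') + U * (k * dd))
    (hG20 : 0 ≤ G2)
    (hg : 2 * dd ≤ e * k * x ^ 2 * U) (hf : t ≤ 3.70985 * x * U)
    (hr : r ≤ e * (x * U)) (hr' : r' ≤ e * (x ^ 2 * U)) :
    S₀ * G2 - G1 ^ 2 ≤ (12 / 10 ^ 6) ^ 2 * (k * x) ^ 2 * S₀ ^ 2 := by
  set u := x * U with hu
  have hu0 : 0 < u := by positivity
  have he0 : 0 < e := by rw [he]; norm_num
  have he1 : e ≤ 1 / 10 ^ 12 := he.le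
  -- upper bound for S₀ G2
  have h1 : S₀ * G2 ≤ (1 + 2 * e) * (k ^ 2 * ((1 + 2 * e) * t ^ 2 + e * u ^ 2) + k ^ 2 * (e / 2 * u ^ 2)) := by
    have h2 : S₀ * G2 ≤ (1 + 2 * e) * (U * G2) := by
      have := mul_le_mul_of_nonneg_right ha2 hG20
      linarith
    refine h2.trans ?_
    apply mul_le_mul_of_nonneg_left _ (by positivity)
    refine hG2.trans ?_
    have h3 : U * r' ≤ e * u ^ 2 := by
      have := mul_le_mul_of_nonneg_left hr' hU.le
      refine this.trans (le_of_eq ?_)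
      rw [hu]; ring
    have h4 : U * (k * dd) ≤ k ^ 2 * (e / 2 * u ^ 2) := by
      have h5 : dd ≤ e / 2 * k * x ^ 2 * U := by linarith
      have h6 := mul_le_mul_of_nonneg_left h5 (show 0 ≤ U * k by positivity)
      have h7 : U * (k * dd) = U * k * dd := by ring
      rw [h7]
      refine h6.trans (le_of_eq ?_)
      rw [hu]; ring
    have h7 := mul_le_mul_of_nonneg_left h3 (show 0 ≤ k ^ 2 by positivity)
    linarith
  -- lower bound for G1^2
  have h2 : k ^ 2 * ((1 - 4 * e) * t ^ 2 - 2 * e * t * u) ≤ G1 ^ 2 := by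
    set A := k * ((1 - 2 * e) * t) with hA
    set B := k * r with hB
    have hA0 : 0 ≤ A := by
      have : 0 ≤ 1 - 2 * e := by rw [he]; norm_num
      positivity
    have hB0 : 0 ≤ B := by positivity
    have hAB : A - B ≤ G1 := by rw [hA, hB]; linarith
    have h3 : A ^ 2 - 2 * A * B ≤ G1 ^ 2 := by
      rcases le_total 0 (A - B) with h | h
      · nlinarith [mul_le_mul hAB hAB h hG1, sq_nonneg B]
      · have : A * (A - 2 * B) ≤ 0 := mul_nonpos_of_nonneg_of_nonpos hA0 (by linarith)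
        nlinarith [sq_nonneg G1]
    refine le_trans ?_ h3
    have h4 : A * B ≤ k ^ 2 * (t * (e * u)) := by
      have h5 : (1 - 2 * e) * t ≤ t := by nlinarith
      have h6 : A ≤ k * t := mul_le_mul_of_nonneg_left h5 (by linarith)
      have h7 : B ≤ k * (e * u) := mul_le_mul_of_nonneg_left hr (by linarith)
      calc A * B ≤ (k * t) * (k * (e * u)) := mul_le_mul h6 h7 hB0 (by positivity)
        _ = _ := by ring
    have h5 : k ^ 2 * ((1 - 4 * e) * t ^ 2) ≤ A ^ 2 := by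
      have : A ^ 2 = k ^ 2 * ((1 - 4 * e + 4 * e ^ 2) * t ^ 2) := by rw [hA]; ring
      rw [this]
      apply mul_le_mul_of_nonneg_left _ (by positivity)
      apply mul_le_mul_of_nonneg_right _ (sq_nonneg t)
      nlinarith [sq_nonneg e]
    have h6 : k ^ 2 * ((1 - 4 * e) * t ^ 2 - 2 * e * t * u) =
        k ^ 2 * ((1 - 4 * e) * t ^ 2) - 2 * (k ^ 2 * (t * (e * u))) := by ring
    rw [h6]
    linarith
  have h3 : t ≤ 3.70985 * u := by rw [hu]; linarith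
  have h4 : t ^ 2 ≤ 13.763 * u ^ 2 := by
    refine (pow_le_pow_left₀ ht h3 2).trans ?_
    rw [mul_pow]
    exact mul_le_mul_of_nonneg_right (by norm_num) (sq_nonneg u)
  have h5 : t * u ≤ 3.70985 * u ^ 2 := by
    have := mul_le_mul_of_nonneg_right h3 hu0.le
    linarith [this, sq u]
  have h6 : S₀ * G2 - G1 ^ 2 ≤ k ^ 2 * (1.35e-10 * u ^ 2) := by
    have h7 : S₀ * G2 - G1 ^ 2 ≤ k ^ 2 * ((1 + 2 * e) * ((1 + 2 * e) * t ^ 2 + e * u ^ 2 + e / 2 * u ^ 2) -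
        ((1 - 4 * e) * t ^ 2 - 2 * e * t * u)) := by linarith
    refine h7.trans ?_
    apply mul_le_mul_of_nonneg_left _ (by positivity)
    have h8 : (1 + 2 * e) * ((1 + 2 * e) * t ^ 2 + e * u ^ 2 + e / 2 * u ^ 2) -
        ((1 - 4 * e) * t ^ 2 - 2 * e * t * u) = (8 * e + 4 * e ^ 2) * t ^ 2 + 2 * e * (t * u) +
        (1 + 2 * e) * (3 / 2 * e) * u ^ 2 := by ring
    rw [h8]
    have h9 : (8 * e + 4 * e ^ 2) * t ^ 2 ≤ (8 * e + 4 * e ^ 2) * (13.763 * u ^ 2) :=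
      mul_le_mul_of_nonneg_left h4 (by positivity)
    have h10 : 2 * e * (t * u) ≤ 2 * e * (3.70985 * u ^ 2) :=
      mul_le_mul_of_nonneg_left h5 (by positivity)
    have h11 : (8 * e + 4 * e ^ 2) * 13.763 + 2 * e * 3.70985 + (1 + 2 * e) * (3 / 2 * e) ≤ 1.35e-10 := by
      rw [he]; norm_num
    have h12 := mul_le_mul_of_nonneg_right h11 (sq_nonneg u)
    linarith
  refine h6.trans ?_
  have h7 : u ^ 2 * (1 - e) ^ 2 ≤ x ^ 2 * S₀ ^ 2 := by
    have h8 : 0 ≤ (1 - e) * U := by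
      have : 0 ≤ 1 - e := by rw [he]; norm_num
      positivity
    have h9 := mul_le_mul ha1 ha1 h8 (h8.trans ha1)
    have h10 := mul_le_mul_of_nonneg_left h9 (sq_nonneg x)
    have h11 : u ^ 2 * (1 - e) ^ 2 = x ^ 2 * ((1 - e) * U * ((1 - e) * U)) := by rw [hu]; ring
    rw [h11]
    refine h10.trans (le_of_eq ?_)
    ring
  have h8 : 1.35e-10 * u ^ 2 ≤ (12 / 10 ^ 6) ^ 2 * (x ^ 2 * S₀ ^ 2) := by
    have h9 : (1.35e-10 : ℝ) ≤ (12 / 10 ^ 6) ^ 2 * (1 - e) ^ 2 := by rw [he]; norm_num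
    have h10 := mul_le_mul_of_nonneg_right h9 (sq_nonneg u)
    have h11 := mul_le_mul_of_nonneg_left h7 (show (0 : ℝ) ≤ (12 / 10 ^ 6) ^ 2 by positivity)
    linarith
  have h9 := mul_le_mul_of_nonneg_left h8 (show 0 ≤ k ^ 2 by positivity)
  refine h9.trans (le_of_eq ?_)
  ring

lemma cluster (S : Finset ℕ) (Ω : ℕ → ℝ) (k : ℕ) (hk : 1 ≤ k) (f X : Fin k → ℕ → ℝ)
    (hΩ : ∀ n ∈ S, 0 ≤ Ω n) (hf0 : ∀ l, ∀ n ∈ S, 0 ≤ f l n) (hXf : ∀ l, ∀ n ∈ S, X l n ≤ f l n)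
    {U t x r r' e dd : ℝ} (he : e = 1 / 10 ^ 12) (hU : 0 < U)
    (ht : 0 ≤ t) (hx : 0 < x) (hr0 : 0 ≤ r) (hr'0 : 0 ≤ r')
    (ha1 : (1 - e) * U ≤ ∑ n ∈ S, Ω n) (ha2 : ∑ n ∈ S, Ω n ≤ (1 + 2 * e) * U)
    (hb1 : ∀ l, (1 - 2 * e) * t - r ≤ ∑ n ∈ S, Ω n * f l n)
    (hb2 : ∀ l, ∑ n ∈ S, Ω n * f l n ≤ (1 + 2 * e) * t + r)
    (hc : ∀ l l', l ≠ l' → U * ∑ n ∈ S, Ω n * (f l n * f l' n) ≤ (1 + 2 * e) * t ^ 2 + U * r')
    (hd : ∀ l, ∑ n ∈ S, Ω n * f l n ^ 2 ≤ dd)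
    (hg : 2 * dd ≤ e * k * x ^ 2 * U)
    (hee : ∀ l, (1 - 6 * e) * (x * U) ≤ ∑ n ∈ S, Ω n * X l n)
    (hf : t ≤ 3.70985 * x * U)
    (hr : r ≤ e * (x * U)) (hr' : r' ≤ e * (x ^ 2 * U)) (A : ℕ → Prop)
    (hA : ∀ n, A n ↔ ∃ l, X l n ≠ 0) :
    7.0001 / 26 * ∑ n ∈ S, Ω n ≤ ∑ n ∈ S.filter A, Ω n := by
  have hk1 : (1 : ℝ) ≤ k := by exact_mod_cast hk
  have he0 : 0 < e := by rw [he]; norm_num
  set S₀ := ∑ n ∈ S, Ω n with hS₀
  have hS0 : 0 < S₀ := by
    have h1 : 0 < (1 - e) * U := by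
      have : 0 < 1 - e := by rw [he]; norm_num
      positivity
    linarith
  set G : ℕ → ℝ := fun n => ∑ l, f l n with hG
  set XX' : ℕ → ℝ := fun n => ∑ l, X l n with hXX
  have hG1 : ∑ n ∈ S, Ω n * G n = ∑ l, ∑ n ∈ S, Ω n * f l n := by
    rw [sum_comm]
    exact sum_congr rfl fun n _ => by rw [hG]; simp only; rw [mul_sum]
  have hX1 : ∑ n ∈ S, Ω n * XX' n = ∑ l, ∑ n ∈ S, Ω n * X l n := by
    rw [sum_comm]
    exact sum_congr rfl fun n _ => by rw [hXX]; simp only; rw [mul_sum]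
  have hG2 : ∑ n ∈ S, Ω n * G n ^ 2 = ∑ l, ∑ l', ∑ n ∈ S, Ω n * (f l n * f l' n) := by
    have h1 : ∀ n ∈ S, Ω n * G n ^ 2 = ∑ l, ∑ l', Ω n * (f l n * f l' n) := by
      intro n _
      rw [hG]; simp only
      rw [sq, sum_mul_sum, mul_sum]
      exact sum_congr rfl fun l _ => by rw [mul_sum]
    rw [sum_congr rfl h1, sum_comm]
    apply sum_congr rfl
    intro l _
    rw [sum_comm]
  have hu1 : U ≤ (1 + 2 * e) * S₀ := by
    have h1 : (1 + 2 * e) * ((1 - e) * U) ≤ (1 + 2 * e) * S₀ :=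
      mul_le_mul_of_nonneg_left ha1 (by positivity)
    have h2 : U ≤ (1 + 2 * e) * ((1 - e) * U) := by
      have : 1 ≤ (1 + 2 * e) * (1 - e) := by rw [he]; norm_num
      nlinarith
    linarith
  -- first moment of G
  have h2 : ∑ n ∈ S, Ω n * G n ≤ 3.7099 * (k * x) * S₀ := by
    rw [hG1]
    have h3 : ∑ l : Fin k, ∑ n ∈ S, Ω n * f l n ≤ ∑ l : Fin k, ((1 + 2 * e) * t + r) :=
      sum_le_sum fun l _ => hb2 l
    rw [sum_const, card_univ, Fintype.card_fin, nsmul_eq_mul] at h3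
    refine h3.trans ?_
    have h4 : (1 + 2 * e) * t + r ≤ 3.7099 * x * S₀ := by
      have h5 : (1 + 2 * e) * t ≤ (1 + 2 * e) * (3.70985 * x * U) :=
        mul_le_mul_of_nonneg_left hf (by positivity)
      have h6 : (1 + 2 * e) * (3.70985 * x * U) + e * (x * U) =
          ((1 + 2 * e) * 3.70985 + e) * (x * U) := by ring
      have h7 : x * U ≤ x * ((1 + 2 * e) * S₀) := mul_le_mul_of_nonneg_left hu1 hx.le
      have h8 : ((1 + 2 * e) * 3.70985 + e) * (x * U) ≤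
          ((1 + 2 * e) * 3.70985 + e) * (x * ((1 + 2 * e) * S₀)) :=
        mul_le_mul_of_nonneg_left h7 (by positivity)
      have h9 : ((1 + 2 * e) * 3.70985 + e) * (1 + 2 * e) ≤ 3.7099 := by rw [he]; norm_num
      have h10 : 0 ≤ x * S₀ := by positivity
      nlinarith
    have h5 := mul_le_mul_of_nonneg_left h4 (show (0 : ℝ) ≤ k by linarith)
    linarith
  -- first moment of X
  have h1 : (1 - 9 * e) * (k * x) * S₀ ≤ ∑ n ∈ S, Ω n * XX' n := by
    rw [hX1]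
    have h3 : ∑ l : Fin k, ((1 - 6 * e) * (x * U)) ≤ ∑ l : Fin k, ∑ n ∈ S, Ω n * X l n :=
      sum_le_sum fun l _ => hee l
    rw [sum_const, card_univ, Fintype.card_fin, nsmul_eq_mul] at h3
    refine le_trans ?_ h3
    have h4 : (1 - 9 * e) * x * S₀ ≤ (1 - 6 * e) * (x * U) := by
      have h5 : (1 - 9 * e) * S₀ ≤ (1 - 9 * e) * ((1 + 2 * e) * U) :=
        mul_le_mul_of_nonneg_left ha2 (by rw [he]; norm_num)
      have h6 : (1 - 9 * e) * (1 + 2 * e) ≤ 1 - 6 * e := by rw [he]; norm_num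
      have h7 : (1 - 9 * e) * S₀ ≤ (1 - 6 * e) * U := by nlinarith
      nlinarith [mul_le_mul_of_nonneg_left h7 hx.le]
    have h5 := mul_le_mul_of_nonneg_left h4 (show (0 : ℝ) ≤ k by linarith)
    linarith
  -- second moment
  have hGnn : 0 ≤ ∑ n ∈ S, Ω n * G n ^ 2 := sum_nonneg fun n hn => mul_nonneg (hΩ n hn) (sq_nonneg _)
  have hG1n : 0 ≤ ∑ n ∈ S, Ω n * G n := sum_nonneg fun n hn =>
    mul_nonneg (hΩ n hn) (sum_nonneg fun l _ => hf0 l n hn)
  have h3 : S₀ * ∑ n ∈ S, Ω n * G n ^ 2 - (∑ n ∈ S, Ω n * G n) ^ 2 ≤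
      (12 / 10 ^ 6) ^ 2 * (k * x) ^ 2 * S₀ ^ 2 := by
    apply var_alg he hk1 hU ht hx hr0 hr'0 ha1 ha2 _ hG1n _ hGnn hg hf hr hr'
    · rw [hG1]
      have h3 : ∑ l : Fin k, ((1 - 2 * e) * t - r) ≤ ∑ l : Fin k, ∑ n ∈ S, Ω n * f l n :=
        sum_le_sum fun l _ => hb1 l
      rw [sum_const, card_univ, Fintype.card_fin, nsmul_eq_mul] at h3
      exact h3
    · rw [hG2, mul_sum]
      have h4 : ∀ l : Fin k, U * ∑ l' : Fin k, ∑ n ∈ S, Ω n * (f l n * f l' n) ≤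
          k * ((1 + 2 * e) * t ^ 2 + U * r') + U * dd := by
        intro l
        rw [mul_sum]
        have h5 : ∀ l' : Fin k, U * ∑ n ∈ S, Ω n * (f l n * f l' n) ≤
            ((1 + 2 * e) * t ^ 2 + U * r') + if l' = l then U * dd else 0 := by
          intro l'
          have h6 : 0 ≤ (1 + 2 * e) * t ^ 2 + U * r' := by positivity
          split_ifs with h7
          · subst h7
            have h8 : ∑ n ∈ S, Ω n * (f l' n * f l' n) ≤ dd := by
              refine le_trans (le_of_eq ?_) (hd l')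
              exact sum_congr rfl fun n _ => by ring
            have := mul_le_mul_of_nonneg_left h8 hU.le
            linarith
          · have := hc l l' (Ne.symm h7)
            linarith
        refine (sum_le_sum fun l' _ => h5 l').trans ?_
        rw [sum_add_distrib, sum_const, card_univ, Fintype.card_fin, nsmul_eq_mul,
          sum_ite_eq' univ l (fun _ => U * dd)]
        simp
      refine (sum_le_sum fun l _ => h4 l).trans ?_
      rw [sum_const, card_univ, Fintype.card_fin, nsmul_eq_mul]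
      apply le_of_eq
      ring
  have hkx : 0 < (k : ℝ) * x := by positivity
  have h4 := prob_lower S Ω XX' G A hΩ
    (fun n hn => sum_le_sum fun l _ => hXf l n hn)
    (fun n hn => sum_nonneg fun l _ => hf0 l n hn)
    (by
      intro n _ hAn
      rw [hA] at hAn
      push Not at hAn
      rw [hXX]; simp only
      rw [sum_eq_zero fun l _ => hAn l])
    (k * x) 3.7099 (9 * e) (12 / 10 ^ 6) hS0 hkx (by norm_num) (by norm_num)
    h1 h2 h3
  refine le_trans ?_ h4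
  apply mul_le_mul_of_nonneg_right _ hS0.le
  rw [he]; norm_num

end Pool.Agent.GapTwo.CORED_
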