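import Pool.Agent.Work.MP_1ea053_nt.Cored2

/-!
# CORED, part 3: asymptotic facts
-/

set_option autoImplicit false

namespace Pool.Agent.GapTwo.CORED_

open Finset Filter
open scoped Classical Topology

/-- The Mertens product. -/
noncomputable def PP (z : ℝ) : ℝ := ∏ p ∈ PR 2 z, (1 - 1 / (p : ℝ))

lemma PP_pos (z : ℝ) : 0 < PP z := by
  apply prod_pos
  intro p hp
  rw [mem_PR] at hp
  have h2 := hp.2.1
  have : 1 / (p : ℝ) ≤ 1 / 2 := one_div_le_one_div_of_le (by norm_num) h2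
  linarith

lemma prod_PR_pos {u v : ℝ} (hu : 2 ≤ u) : 0 < ∏ p ∈ PR u v, (1 - 1 / (p : ℝ)) := by
  apply prod_pos
  intro p hp
  rw [mem_PR] at hp
  have h2 : (2 : ℝ) ≤ p := by linarith [hp.2.1]
  have : 1 / (p : ℝ) ≤ 1 / 2 := one_div_le_one_div_of_le (by norm_num) h2
  linarith

lemma PP_split {u v : ℝ} (hu : 2 ≤ u) (huv : u ≤ v) :
    PP v = PP u * ∏ p ∈ PR u v, (1 - 1 / (p : ℝ)) := PR_prod hu huv _

lemma pow_small (σ s : ℝ) (hσ : 0 < σ) (hs : 0 < s) (K : ℕ) :
    ∀ᶠ N : ℝ in atTop, N ^ (1 - σ) ≤ s * (N / Real.log N ^ K) := by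
  have h1 : (fun x : ℝ => Real.log x ^ (K : ℝ)) =o[atTop] fun x : ℝ => x ^ σ :=
    isLittleO_log_rpow_rpow_atTop (K : ℝ) hσ
  have h2 := h1.bound hs
  filter_upwards [h2, eventually_ge_atTop (3 : ℝ)] with N h3 hN
  have hl : 0 < Real.log N := Real.log_pos (by linarith)
  have hN0 : 0 < N := by linarith
  rw [Real.rpow_natCast, Real.norm_of_nonneg (by positivity),
    Real.norm_of_nonneg (by positivity)] at h3
  rw [← mul_div_assoc, le_div_iff₀ (by positivity)]
  calc N ^ (1 - σ) * Real.log N ^ K ≤ N ^ (1 - σ) * (s * N ^ σ) :=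
        mul_le_mul_of_nonneg_left h3 (by positivity)
    _ = s * (N ^ (1 - σ) * N ^ σ) := by ring
    _ = s * N := by rw [← Real.rpow_add hN0]; norm_num

lemma log_small (s : ℝ) (hs : 0 < s) (K : ℕ) :
    ∀ᶠ N : ℝ in atTop, N / Real.log N ^ (K + 1) ≤ s * (N / Real.log N ^ K) := by
  have h1 := Real.tendsto_log_atTop.eventually_ge_atTop (1 / s)
  filter_upwards [h1, eventually_ge_atTop (3 : ℝ)] with N h3 hN
  have hl : 0 < Real.log N := Real.log_pos (by linarith)
  have hN0 : 0 < N := by linarith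
  rw [pow_succ, ← div_div]
  rw [div_le_iff₀ hl]
  rw [div_le_iff₀ hs] at h3
  have h4 : 0 ≤ N / Real.log N ^ K := by positivity
  nlinarith

lemma tend_rpow {α : ℝ} (hα : 0 < α) : Tendsto (fun N : ℝ => N ^ α) atTop atTop :=
  tendsto_rpow_atTop hα

/-- `log N * P(N^α) → e^(-γ) / α`. -/
lemma mer_rpow (hMER : Stmt_MER) {α : ℝ} (hα : 0 < α) :
    Tendsto (fun N : ℝ => Real.log N * PP (N ^ α)) atTop
      (𝓝 (Real.exp (-Real.eulerMascheroniConstant) / α)) := by
  have h1 := hMER.comp (tend_rpow hα)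
  have h2 := h1.div_const α
  refine h2.congr' ?_
  filter_upwards [eventually_gt_atTop (0 : ℝ)] with N hN
  simp only [Function.comp_apply]
  rw [Real.log_rpow hN]
  unfold PP
  field_simp

lemma eg_lt : Real.exp (-Real.eulerMascheroniConstant) < 1 := by
  rw [Real.exp_lt_one_iff]
  have := Real.one_half_lt_eulerMascheroniConstant
  linarith

lemma rho_tend (hMER : Stmt_MER) {η₁ η : ℝ} (h1 : 0 < η₁) (h2 : η₁ < η) :
    Tendsto (fun N : ℝ => ∏ p ∈ PR (N ^ η₁) (N ^ η), (1 - 1 / (p : ℝ))) atTop (𝓝 (η₁ / η)) := by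
  have hη : 0 < η := h1.trans h2
  have hg : Real.exp (-Real.eulerMascheroniConstant) / η₁ ≠ 0 := by positivity
  have h3 := (mer_rpow hMER hη).div (mer_rpow hMER h1) hg
  have h4 : Real.exp (-Real.eulerMascheroniConstant) / η /
      (Real.exp (-Real.eulerMascheroniConstant) / η₁) = η₁ / η := by
    have : Real.exp (-Real.eulerMascheroniConstant) ≠ 0 := (Real.exp_pos _).ne'
    field_simp
  rw [h4] at h3
  refine h3.congr' ?_
  filter_upwards [(tend_rpow h1).eventually_ge_atTop 2, eventually_ge_atTop (3 : ℝ)] with N h5 h6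
  have h7 : N ^ η₁ ≤ N ^ η := Real.rpow_le_rpow_of_exponent_le (by linarith) h2.le
  have hl : Real.log N ≠ 0 := (Real.log_pos (by linarith)).ne'
  simp only [Pi.div_apply]
  rw [PP_split h5 h7]
  have := (PP_pos (N ^ η₁)).ne'
  field_simp

/-- Lower bound for the product over the small primes. -/
lemma small_prod (K : ℕ) (hK : 1 ≤ K) (D₀ : ℕ) (hD : 2 * K ≤ D₀) {η₁ : ℝ} (h1 : 0 < η₁)
    (h2 : η₁ ≤ 1) : ∃ c : ℝ, 0 < c ∧ ∀ᶠ N : ℝ in atTop,
      c / Real.log N ^ K ≤ ∏ p ∈ PR D₀ (N ^ η₁), (1 - (K : ℝ) / p) := by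
  obtain ⟨C, hC, h⟩ := mert_prodK K hK
  have hD2 : (2 : ℝ) ≤ D₀ := by exact_mod_cast (by omega : 2 ≤ D₀)
  have hlD : 0 < Real.log D₀ := Real.log_pos (by linarith)
  refine ⟨Real.exp (-(C / Real.log D₀)) * Real.log D₀ ^ K, by positivity, ?_⟩
  filter_upwards [(tend_rpow h1).eventually_ge_atTop (D₀ : ℝ), eventually_ge_atTop (3 : ℝ)] with N h3 h4
  have h5 := (h D₀ (N ^ η₁) (by exact_mod_cast hD) h3).1
  refine le_trans ?_ h5
  rw [mul_div_assoc]
  apply mul_le_mul_of_nonneg_left _ (Real.exp_pos _).le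
  rw [div_pow]
  have hlN : 0 < Real.log N := Real.log_pos (by linarith)
  apply div_le_div_of_nonneg_left (by positivity)
  · rw [Real.log_rpow (by linarith)]; positivity
  · apply pow_le_pow_left₀
    · rw [Real.log_rpow (by linarith)]; positivity
    · rw [Real.log_rpow (by linarith)]
      nlinarith

end Pool.Agent.GapTwo.CORED_
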