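import Pool.Agent.Work.MP_1ea053_nt.Cored3

/-!
# CORED, part 4: products of the polynomials
-/

set_option autoImplicit false

namespace Pool.Agent.GapTwo.CORED_

open Finset Filter
open scoped Classical Topology

/-- Properties of `c0 * c` with `c0` on the small and `c` on the medium primes. -/
lemma full_props (hLOC : Stmt_LOC) {ι : Type} [Fintype ι] {D₀ : ℕ} {N η₁ η δ C : ℝ} (hD : 2 ≤ D₀)
    (hDN : (D₀ : ℝ) ≤ N ^ η₁) (hη : N ^ η₁ ≤ N ^ η) (hN : 1 ≤ N) (hδ : 0 < δ) (hC : 1 ≤ C)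
    {c0 c : Finset (ℕ × ι) → ℝ} (h0 : Lev (XX ι D₀ (N ^ η₁)) c0 (N ^ δ) 1)
    (hc : Lev (XX ι (N ^ η₁) (N ^ η)) c (N ^ (4 * δ)) C) :
    Lev (XX ι D₀ (N ^ η)) (mul c0 c) (N ^ (8 * δ)) (3 * C) ∧
    Eloc (XX ι D₀ (N ^ η)) (mul c0 c) =
      Eloc (XX ι D₀ (N ^ η₁)) c0 * Eloc (XX ι (N ^ η₁) (N ^ η)) c ∧
    ∀ i, EloI (XX ι D₀ (N ^ η)) i (mul c0 c) =
      EloI (XX ι D₀ (N ^ η₁)) i c0 * EloI (XX ι (N ^ η₁) (N ^ η)) i c := by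
  obtain ⟨_, hL2, _, hL4, _⟩ := hLOC
  have hX : XX ι D₀ (N ^ η) = XX ι D₀ (N ^ η₁) ∪ XX ι (N ^ η₁) (N ^ η) := XX_union hDN hη
  have hN0 : 0 < N := by linarith
  refine ⟨?_, ?_⟩
  · have h1 := hL2 (XX ι D₀ (N ^ η)) c0 c (N ^ δ) (N ^ (4 * δ)) 1 C
      (fun x hx => (mem_XX.1 hx).1.one_le) (Real.one_le_rpow hN hδ.le)
      (Real.one_le_rpow hN (by positivity)) le_rfl hC
      (h0.mono (by rw [hX]; exact subset_union_left) le_rfl zero_le_one le_rfl)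
      (hc.mono (by rw [hX]; exact subset_union_right) le_rfl (by linarith) le_rfl)
    refine h1.mono (Subset.refl _) ?_ (by linarith) (by linarith)
    rw [← Real.rpow_add hN0]
    exact Real.rpow_le_rpow_of_exponent_le hN (by linarith)
  · have h1 := hL4 (XX ι D₀ (N ^ η₁)) (XX ι (N ^ η₁) (N ^ η)) c0 c (by
      intro x hx y hy hxy
      rw [mem_XX] at hx hy
      rw [hxy] at hx
      linarith [hx.2.2, hy.2.1]) (fun T hT => (h0.supp T hT).1) (fun T hT => (hc.supp T hT).1)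
    rw [hX]
    exact h1

/-- The three polynomials for the medium primes. -/
lemma med_props (hLOC : Stmt_LOC) {ι : Type} [Fintype ι] {N η₁ η δ Cb : ℝ}
    (hN : 1 ≤ N) (hδ : 0 < δ) (hCb : 1 ≤ Cb)
    {cL : Finset (ℕ × ι) → ℝ} {cV : ι → Finset (ℕ × ι) → ℝ}
    (hcL : Lev (XX ι (N ^ η₁) (N ^ η)) cL (N ^ δ) Cb)
    (hcV : ∀ i, Lev (XX ι (N ^ η₁) (N ^ η)) (cV i) (N ^ δ) 1) :
    Lev (XX ι (N ^ η₁) (N ^ η)) (mul cL cL) (N ^ (4 * δ)) (27 * Cb ^ 2) ∧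
    (∀ i, Lev (XX ι (N ^ η₁) (N ^ η)) (mul (mul cL cL) (cV i)) (N ^ (4 * δ)) (27 * Cb ^ 2)) ∧
    (∀ i j, Lev (XX ι (N ^ η₁) (N ^ η)) (mul (mul (mul cL cL) (cV i)) (cV j)) (N ^ (4 * δ))
      (27 * Cb ^ 2)) := by
  obtain ⟨_, hL2, _, _, _⟩ := hLOC
  have hN0 : 0 < N := by linarith
  have hX : ∀ x ∈ XX ι (N ^ η₁) (N ^ η), 1 ≤ x.1 := fun x hx => (mem_XX.1 hx).1.one_le
  have h1N : (1 : ℝ) ≤ N ^ δ := Real.one_le_rpow hN hδ.le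
  have hCC : 1 ≤ Cb * Cb := by nlinarith
  have h1 := hL2 _ cL cL _ _ _ _ hX h1N h1N hCb hCb hcL hcL
  have h2 : ∀ i, Lev (XX ι (N ^ η₁) (N ^ η)) (mul (mul cL cL) (cV i)) (N ^ δ * N ^ δ * N ^ δ)
      (3 * (3 * Cb * Cb) * 1) := fun i =>
    hL2 _ _ _ _ _ _ _ hX (by nlinarith) h1N (by nlinarith) le_rfl h1 (hcV i)
  have h3 : ∀ i j, Lev (XX ι (N ^ η₁) (N ^ η)) (mul (mul (mul cL cL) (cV i)) (cV j))
      (N ^ δ * N ^ δ * N ^ δ * N ^ δ) (3 * (3 * (3 * Cb * Cb) * 1) * 1) := fun i j =>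
    hL2 _ _ _ _ _ _ _ hX (by nlinarith [mul_le_mul h1N h1N zero_le_one (by linarith)]) h1N
      (by nlinarith) le_rfl (h2 i) (hcV j)
  have e2 : N ^ δ * N ^ δ = N ^ (2 * δ) := by rw [← Real.rpow_add hN0]; ring_nf
  have e3 : N ^ δ * N ^ δ * N ^ δ = N ^ (3 * δ) := by
    rw [e2, ← Real.rpow_add hN0]; ring_nf
  have e4 : N ^ δ * N ^ δ * N ^ δ * N ^ δ = N ^ (4 * δ) := by
    rw [e3, ← Real.rpow_add hN0]; ring_nf
  refine ⟨?_, fun i => ?_, fun i j => ?_⟩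
  · refine h1.mono (Subset.refl _) ?_ (by nlinarith) (by nlinarith)
    rw [e2]
    exact Real.rpow_le_rpow_of_exponent_le hN (by linarith)
  · refine (h2 i).mono (Subset.refl _) ?_ (by nlinarith) (by nlinarith)
    rw [e3]
    exact Real.rpow_le_rpow_of_exponent_le hN (by linarith)
  · refine (h3 i j).mono (Subset.refl _) ?_ (by nlinarith) (by nlinarith)
    rw [e4]

/-- Evaluation of the weighted sums. -/
lemma eval (hT1 : Stmt_T1) (hLOC : Stmt_LOC) {ι : Type} [Fintype ι] (a : ι → ℕ) {D₀ : ℕ}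
    (ha : ∀ i, 0 < a i) (hinj : Function.Injective a) (hDa : ∀ i, a i < D₀)
    {N η₁ η δ C κ : ℝ} (hD : 2 ≤ D₀) (hκ : 0 ≤ κ)
    (hDN : (D₀ : ℝ) ≤ N ^ η₁) (hη : N ^ η₁ ≤ N ^ η) (hN : 1 ≤ N) (hδ : 0 < δ) (hC : 1 ≤ C)
    {c0 c : Finset (ℕ × ι) → ℝ} (h0 : Lev (XX ι D₀ (N ^ η₁)) c0 (N ^ δ) 1)
    (hc : Lev (XX ι (N ^ η₁) (N ^ η)) c (N ^ (4 * δ)) C) {B : ℝ}
    (hB : ∀ c' : Finset (ℕ × ι) → ℝ, Lev (XX ι D₀ (N ^ η)) c' (N ^ (8 * δ)) (3 * C) →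
      ∑ T ∈ (XX ι D₀ (N ^ η)).powerset, |c' T| ≤ B) :
    |∑ n ∈ NW (WW D₀) N κ, poly c0 (ev a (XX ι D₀ (N ^ η)) n) * poly c (ev a (XX ι D₀ (N ^ η)) n)
      - κ * N / WW D₀ * Eloc (XX ι D₀ (N ^ η₁)) c0 * Eloc (XX ι (N ^ η₁) (N ^ η)) c| ≤ B ∧
    ∀ (M : ℕ) (lam : ℕ → ℝ), Ros η M N lam → ∀ i,
    |∑ n ∈ NW (WW D₀) N κ, poly c0 (ev a (XX ι D₀ (N ^ η)) n) * poly c (ev a (XX ι D₀ (N ^ η)) n) *
        gg lam (a i * n + 1)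
      - gam N lam * (κ * N / WW D₀ * Eloc (XX ι D₀ (N ^ η₁)) c0 *
        Eloc (XX ι (N ^ η₁) (N ^ η)) c)| ≤ N ^ θ₀ * B := by
  obtain ⟨h1, h2, _⟩ := full_props hLOC hD hDN hη hN hδ hC h0 hc
  have hB' := hB _ h1
  have hp : ∀ n, poly (mul c0 c) (ev a (XX ι D₀ (N ^ η)) n) =
      poly c0 (ev a (XX ι D₀ (N ^ η)) n) * poly c (ev a (XX ι D₀ (N ^ η)) n) :=
    fun n => hLOC.1 c0 c _
  constructor
  · have h3 := sum_NW hT1 a D₀ ha hinj hDa N κ (N ^ η) (by linarith) hκ (mul c0 c)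
    rw [h2] at h3
    simp_rw [hp] at h3
    rw [← mul_assoc] at h3
    exact h3.trans hB'
  · intro M lam hlam i
    have h3 := sum_gg hT1 a D₀ ha hinj hDa N κ η hN hκ (hDN.trans hη) hlam (mul c0 c) i
    rw [h2] at h3
    simp_rw [hp] at h3
    rw [← mul_assoc (κ * N / WW D₀)] at h3
    refine h3.trans ?_
    exact mul_le_mul_of_nonneg_left hB' (Real.rpow_nonneg (by linarith) _)

end Pool.Agent.GapTwo.CORED_
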