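import Pool.Agent.Work.MP_1ea053_nt.Interface

/-!
# Block FORMS
-/

set_option autoImplicit false

namespace Pool.Agent.GapTwo

open Finset

theorem stmt_FORMS : Stmt_FORMS := by
  intro M
  induction M with
  | zero =>
    intro τ ε _
    exact ⟨1, 0, fun i => i.elim0, one_pos, fun i => i.elim0, fun i => i.elim0,
      fun i => i.elim0, fun i => i.elim0⟩
  | succ M ih =>
    intro τ ε hε
    obtain ⟨U, b, c, hU, hc, hinj, hdiv, hpos⟩ := ih (fun i => τ i.castSucc) ε hε
    -- `Q` = product of the differences
    set Q : ℤ := ∏ i, ∏ j, (if i = j then (1 : ℤ) else |(c j : ℤ) - c i|) with hQ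
    have hQ1 : 1 ≤ Q := by
      have : 0 < Q := by
        refine Finset.prod_pos fun i _ => Finset.prod_pos fun j _ => ?_
        split_ifs with h
        · exact one_pos
        · have : (c j : ℤ) - c i ≠ 0 := by
            intro h0
            apply h
            apply hinj
            have : (c j : ℤ) = c i := by linarith
            exact_mod_cast this.symm
          exact abs_pos.2 this
      omega
    have hQd : ∀ i j, i ≠ j → ((c j : ℤ) - c i) ∣ Q := by
      intro i j hij
      have h1 : |(c j : ℤ) - c i| ∣ Q := by
        have h2 : (∏ j, (if i = j then (1 : ℤ) else |(c j : ℤ) - c i|)) ∣ Q :=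
          Finset.dvd_prod_of_mem (fun i => ∏ j, (if i = j then (1 : ℤ) else |(c j : ℤ) - c i|))
            (Finset.mem_univ i)
        have h3 := Finset.dvd_prod_of_mem (fun j => (if i = j then (1 : ℤ) else |(c j : ℤ) - c i|))
          (Finset.mem_univ j)
        simp only [if_neg hij] at h3
        exact h3.trans h2
      exact (abs_dvd _ _).1 h1
    -- a large prime
    obtain ⟨l, hlge, hlp⟩ := Nat.exists_infinite_primes (max (Q.toNat + 1) (⌈(Q : ℝ) / (U * ε)⌉₊ + 1))
    have hl1 : Q < l := by
      have := le_trans (le_max_left _ _) hlge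
      omega
    have hl2 : (Q : ℝ) / (U * ε) < l := by
      have h1 := le_trans (le_max_right _ _) hlge
      have h2 := Nat.le_ceil ((Q : ℝ) / (U * ε))
      have h3 : ((⌈(Q : ℝ) / (U * ε)⌉₊ + 1 : ℕ) : ℝ) ≤ l := by exact_mod_cast h1
      push_cast at h3
      linarith
    have hl0 : (0 : ℝ) < l := by exact_mod_cast hlp.pos
    have hlZ : Prime (l : ℤ) := Nat.prime_iff_prime_int.1 hlp
    have hlQ : ¬ (l : ℤ) ∣ Q := by
      intro h
      have := Int.le_of_dvd (by omega) h
      omega
    -- choice of `y`
    set Y0 : ℝ := l * (b + U * τ (Fin.last M)) with hY0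
    obtain ⟨y, hyQ, hly, hyY⟩ : ∃ y : ℤ, Q ∣ y ∧ ¬ (l : ℤ) ∣ y ∧ |(y : ℝ) - Y0| ≤ Q := by
      have hQr : (0 : ℝ) < Q := by exact_mod_cast (by omega : 0 < Q)
      set f : ℤ := ⌊Y0 / Q⌋ with hf
      have h1 : (f : ℝ) * Q ≤ Y0 := by
        have := Int.floor_le (Y0 / Q)
        rwa [le_div_iff₀ hQr] at this
      have h2 : Y0 < (f + 1 : ℝ) * Q := by
        have := Int.lt_floor_add_one (Y0 / Q)
        rwa [div_lt_iff₀ hQr] at this
      by_cases h : (l : ℤ) ∣ f * Q
      · refine ⟨f * Q + Q, ⟨f + 1, by ring⟩, ?_, ?_⟩
        · intro h'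
          exact hlQ ((Int.dvd_add_right h).1 h')
        · rw [abs_le]
          push_cast
          constructor <;> nlinarith
      · refine ⟨f * Q, ⟨f, by ring⟩, h, ?_⟩
        rw [abs_le]
        push_cast
        constructor <;> nlinarith
    obtain ⟨y', hy'⟩ := hyQ
    have hyne : ∀ i, y - l * c i ≠ 0 := by
      intro i h0
      apply hly
      exact ⟨c i, by linarith⟩
    set L : ℤ := ∏ i, |y - l * c i| with hL
    have hLpos : 0 < L := Finset.prod_pos fun i _ => abs_pos.2 (hyne i)
    have hLd : ∀ i, (y - l * c i) ∣ L := fun i =>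
      (abs_dvd _ _).1 (Finset.dvd_prod_of_mem (fun i => |y - l * c i|) (Finset.mem_univ i))
    have hlL : ¬ (l : ℤ) ∣ L := by
      intro h
      obtain ⟨i, _, hi⟩ := (Prime.dvd_finset_prod_iff hlZ _).1 h
      rw [dvd_abs] at hi
      exact hly (by
        have h2 : (l : ℤ) ∣ l * c i := Dvd.intro _ rfl
        have := Int.dvd_add hi h2
        simpa using this)
    have hcop : IsCoprime (l : ℤ) L := (Prime.coprime_iff_not_dvd hlZ).2 hlL
    obtain ⟨u, v, huv⟩ := hcop
    -- the shift
    set R : ℤ := |(l : ℤ) * Q * u * y'| + |y| + 1 with hR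
    set Λ : ℤ := -(l * Q * u * y') + R * (L * (l * Q)) with hΛ
    have hlpos : (0 : ℤ) < l := by exact_mod_cast hlp.pos
    have hbig : 1 ≤ L * (l * Q) := by
      have : 0 < L * (l * Q) := by positivity
      omega
    have hR1 : 1 ≤ R := by
      have h1 := abs_nonneg ((l : ℤ) * Q * u * y')
      have h2 := abs_nonneg y
      omega
    have hΛ1 : |y| < Λ := by
      have h1 := le_abs_self ((l : ℤ) * Q * u * y')
      have h3 : R ≤ R * (L * (l * Q)) := le_mul_of_one_le_right (by omega) hbig
      omega
    have hΛ0 : 0 < Λ := lt_of_le_of_lt (abs_nonneg y) hΛ1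
    have hΛy : 0 < Λ + y := by
      have := neg_abs_le y
      omega
    have hΛQ : (l : ℤ) * Q ∣ Λ := ⟨-(u * y') + R * L, by rw [hΛ]; ring⟩
    have hΛL : L ∣ Λ + y := by
      refine ⟨Q * y' * v + R * (l * Q), ?_⟩
      rw [hΛ, hy']
      linear_combination (-(Q * y')) * huv
    have hci : ∀ i, 0 < Λ + l * c i := fun i => by positivity
    refine ⟨l * U, Λ + l * b, Fin.snoc (fun i => (Λ + l * c i).toNat) (Λ + y).toNat, by positivity,
      ?_, ?_, ?_, ?_⟩
    · intro i
      refine Fin.lastCases ?_ (fun i => ?_) i
      · simpa using hΛy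
      · have := hci i
        simp only [Fin.snoc_castSucc]
        omega
    · intro i
      refine Fin.lastCases ?_ (fun i => ?_) i
      · intro j
        refine Fin.lastCases ?_ (fun j => ?_) j
        · intro _; rfl
        · intro h
          exfalso
          simp only [Fin.snoc_castSucc, Fin.snoc_last] at h
          have h1 := hci j
          have h2 := hyne j
          omega
      · intro j
        refine Fin.lastCases ?_ (fun j => ?_) j
        · intro h
          exfalso
          simp only [Fin.snoc_castSucc, Fin.snoc_last] at h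
          have h1 := hci i
          have h2 := hyne i
          omega
        · intro h
          simp only [Fin.snoc_castSucc] at h
          have h1 := hci i
          have h2 := hci j
          have h3 : (l : ℤ) * c i = l * c j := by omega
          have h4 : (c i : ℤ) = c j := mul_left_cancel₀ hlpos.ne' h3
          have h5 : i = j := hinj (by exact_mod_cast h4)
          rw [h5]
    · intro i
      refine Fin.lastCases ?_ (fun i => ?_) i
      · intro j
        refine Fin.lastCases ?_ (fun j => ?_) j
        · intro h; exact absurd rfl h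
        · intro _
          simp only [Fin.snoc_castSucc, Fin.snoc_last]
          rw [Int.toNat_of_nonneg (hci j).le, Int.toNat_of_nonneg hΛy.le]
          have h1 : (Λ + l * c j) - (Λ + y) = -(y - l * c j) := by ring
          rw [h1, neg_dvd]
          exact (hLd j).trans hΛL
      · intro j
        refine Fin.lastCases ?_ (fun j => ?_) j
        · intro _
          simp only [Fin.snoc_castSucc, Fin.snoc_last]
          rw [Int.toNat_of_nonneg (hci i).le, Int.toNat_of_nonneg hΛy.le]
          have h1 : (Λ + y) - (Λ + l * c i) = y - l * c i := by ring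
          rw [h1]
          have h2 : Λ + l * c i = (Λ + y) - (y - l * c i) := by ring
          rw [h2]
          exact Int.dvd_sub ((hLd i).trans hΛL) dvd_rfl
        · intro hij
          have hij' : i ≠ j := fun h => hij (by rw [h])
          simp only [Fin.snoc_castSucc]
          rw [Int.toNat_of_nonneg (hci i).le, Int.toNat_of_nonneg (hci j).le]
          have h1 : (Λ + l * c j) - (Λ + l * c i) = l * (c j - c i) := by ring
          rw [h1]
          exact Int.dvd_add ((mul_dvd_mul_left _ (hQd i j hij')).trans hΛQ)
            (mul_dvd_mul_left _ (hdiv i j hij'))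
    · intro i
      refine Fin.lastCases ?_ (fun i => ?_) i
      · simp only [Fin.snoc_last]
        have h1 : (((Λ + y).toNat : ℕ) : ℝ) = (Λ : ℝ) + y := by
          have : (((Λ + y).toNat : ℕ) : ℤ) = Λ + y := Int.toNat_of_nonneg hΛy.le
          exact_mod_cast this
        rw [h1]
        push_cast
        have h2 : ((Λ : ℝ) + y - (Λ + l * b)) / (l * U) - τ (Fin.last M) = (y - Y0) / (l * U) := by
          rw [hY0]; field_simp; ring
        rw [h2, abs_div, abs_of_pos (by positivity : (0 : ℝ) < l * U), div_lt_iff₀ (by positivity)]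
        have h3 : (Q : ℝ) < l * (U * ε) := by rwa [div_lt_iff₀ (by positivity)] at hl2
        calc |(y : ℝ) - Y0| ≤ Q := hyY
          _ < l * (U * ε) := h3
          _ = ε * (l * U) := by ring
      · simp only [Fin.snoc_castSucc]
        have h1 : (((Λ + l * c i).toNat : ℕ) : ℝ) = (Λ : ℝ) + l * c i := by
          have : (((Λ + l * c i).toNat : ℕ) : ℤ) = Λ + l * c i := Int.toNat_of_nonneg (hci i).le
          exact_mod_cast this
        rw [h1]
        push_cast
        have h2 : ((Λ : ℝ) + l * c i - (Λ + l * b)) / (l * U) = (c i - b) / U := by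
          field_simp; ring
        rw [h2]
        exact hpos i

end Pool.Agent.GapTwo
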