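import Pool.Agent.Work.MP_1ea053_nt.QFORM

/-!
# Block IDEAL, part A (helper1): products over the index set.
-/

set_option autoImplicit false

namespace Pool.Agent.GapTwo.IDEAL_

open Finset
open scoped Classical

variable {ι : Type}

/-- The primes of index `l`. -/
noncomputable def pr (r : Finset (ℕ × ι)) (l : ι) : Finset ℕ :=
  (r.filter fun x => x.2 = l).image Prod.fst

lemma mem_pr {r : Finset (ℕ × ι)} {l : ι} {p : ℕ} : p ∈ pr r l ↔ (p, l) ∈ r := by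
  unfold pr
  rw [mem_image]
  constructor
  · rintro ⟨x, hx, rfl⟩
    rw [mem_filter] at hx
    rw [← hx.2]
    exact hx.1
  · intro h
    exact ⟨(p, l), mem_filter.2 ⟨h, rfl⟩, rfl⟩

lemma pr_union (r s : Finset (ℕ × ι)) (l : ι) : pr (r ∪ s) l = pr r l ∪ pr s l := by
  ext p; simp only [mem_union, mem_pr]

lemma pr_mono {r s : Finset (ℕ × ι)} (h : r ⊆ s) (l : ι) : pr r l ⊆ pr s l := by
  intro p hp
  rw [mem_pr] at hp ⊢
  exact h hp

lemma pr_sub {P : Finset ℕ} {J : Finset ι} {r : Finset (ℕ × ι)} (h : r ⊆ P ×ˢ J) (l : ι) :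
    pr r l ⊆ P := by
  intro p hp
  rw [mem_pr] at hp
  exact (mem_product.1 (h hp)).1

lemma pr_out {P : Finset ℕ} {J : Finset ι} {r : Finset (ℕ × ι)} (h : r ⊆ P ×ˢ J) {l : ι}
    (hl : l ∉ J) : pr r l = ∅ := by
  rw [eq_empty_iff_forall_notMem]
  intro p hp
  rw [mem_pr] at hp
  exact hl (mem_product.1 (h hp)).2

lemma pr_sdiff {P : Finset ℕ} {J : Finset ι} {r : Finset (ℕ × ι)} {l : ι}
    (hl : l ∈ J) : pr ((P ×ˢ J) \ r) l = P \ pr r l := by
  ext p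
  simp only [mem_pr, mem_sdiff, mem_product]
  tauto

lemma prod_pr {M : Type} [CommMonoid M] (g : ℕ → M) {J : Finset ι} {r : Finset (ℕ × ι)}
    (hr : ∀ x ∈ r, x.2 ∈ J) : ∏ x ∈ r, g x.1 = ∏ l ∈ J, ∏ p ∈ pr r l, g p := by
  rw [← prod_fiberwise_of_maps_to hr]
  refine prod_congr rfl fun l _ => ?_
  unfold pr
  rw [prod_image]
  intro x hx y hy hxy
  simp only [coe_filter, Set.mem_ofPred_eq] at hx hy
  exact Prod.ext hxy (hx.2.trans hy.2.symm)

lemma sum_single (P : Finset ℕ) (l : ι) (G : Finset ℕ → ℝ) :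
    ∑ s ∈ (P ×ˢ ({l} : Finset ι)).powerset, G (pr s l) = ∑ S ∈ P.powerset, G S := by
  refine Finset.sum_nbij' (fun s => pr s l) (fun S => S ×ˢ {l}) ?_ ?_ ?_ ?_ ?_
  · intro s hs
    exact mem_powerset.2 (pr_sub (mem_powerset.1 hs) l)
  · intro S hS
    exact mem_powerset.2 (product_subset_product (mem_powerset.1 hS) (Subset.refl _))
  · intro s hs
    rw [mem_powerset] at hs
    ext ⟨p, l'⟩
    rw [mem_product, mem_singleton]
    constructor
    · rintro ⟨h1, h2⟩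
      simp only at h1 h2
      subst h2
      exact mem_pr.1 h1
    · intro h
      have := (mem_product.1 (hs h)).2
      rw [mem_singleton] at this
      simp only at this
      subst this
      exact ⟨mem_pr.2 h, rfl⟩
  · intro S _
    ext p
    simp [mem_pr]
  · intro s _
    rfl

/-- The product formula. -/
lemma PF (P : Finset ℕ) (J : Finset ι) (F : ι → Finset ℕ → ℝ) :
    ∑ r ∈ (P ×ˢ J).powerset, ∏ l ∈ J, F l (pr r l) = ∏ l ∈ J, ∑ S ∈ P.powerset, F l S := by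
  induction J using Finset.induction_on with
  | empty => simp
  | insert l J hl ih =>
    have e : P ×ˢ insert l J = (P ×ˢ J) ∪ (P ×ˢ {l}) := by
      ext x
      simp only [mem_product, mem_insert, mem_union, mem_singleton]
      tauto
    have hd : Disjoint (P ×ˢ J) (P ×ˢ ({l} : Finset ι)) := by
      rw [disjoint_left]
      intro x h1 h2
      rw [mem_product] at h1 h2
      rw [mem_singleton] at h2
      exact hl (h2.2 ▸ h1.2)
    rw [e, QFORM_.sum_union hd, prod_insert hl]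
    have h1 : ∀ s ∈ (P ×ˢ ({l} : Finset ι)).powerset, ∑ r ∈ (P ×ˢ J).powerset,
        ∏ l' ∈ insert l J, F l' (pr (r ∪ s) l') =
        F l (pr s l) * ∏ l ∈ J, ∑ S ∈ P.powerset, F l S := by
      intro s hs
      rw [← ih, mul_sum]
      refine sum_congr rfl fun r hr => ?_
      rw [mem_powerset] at hs hr
      rw [prod_insert hl, pr_union, pr_out hr hl, empty_union]
      congr 1
      refine prod_congr rfl fun l' hl' => ?_
      have : l' ∉ ({l} : Finset ι) := by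
        rw [mem_singleton]; rintro rfl; exact hl hl'
      rw [pr_union, pr_out hs this, union_empty]
    rw [sum_congr rfl h1, ← sum_mul, sum_single]

/-- Product formula for the expectation. -/
lemma Eid_PF (P : Finset ℕ) (J : Finset ι) (F : ι → Finset ℕ → ℝ) :
    Eid (P ×ˢ J) (fun r => ∏ l ∈ J, F l (pr r l)) = ∏ l ∈ J, E1 P (F l) := by
  unfold Eid E1
  rw [← PF P J (fun l S => (∏ p ∈ S, 1 / (p : ℝ)) * (∏ p ∈ P \ S, (1 - 1 / (p : ℝ))) * F l S)]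
  refine sum_congr rfl fun r hr => ?_
  rw [mem_powerset] at hr
  rw [prod_mul_distrib, prod_mul_distrib,
    prod_pr (fun p : ℕ => 1 / (p : ℝ)) (J := J) (fun x hx => (mem_product.1 (hr hx)).2),
    prod_pr (fun p : ℕ => (1 - 1 / (p : ℝ))) (J := J)
      (fun x hx => (mem_product.1 (mem_sdiff.1 hx).1).2)]
  congr 2
  exact prod_congr rfl fun l hl => by rw [pr_sdiff hl]

lemma Eid_mono {X : Finset (ℕ × ι)} (hX : ∀ x ∈ X, 1 ≤ x.1) {f g : Finset (ℕ × ι) → ℝ}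
    (h : ∀ S ⊆ X, f S ≤ g S) : Eid X f ≤ Eid X g := by
  unfold Eid
  refine sum_le_sum fun S hS => ?_
  rw [mem_powerset] at hS
  refine mul_le_mul_of_nonneg_left (h S hS) (mul_nonneg ?_ ?_)
  · positivity
  · apply prod_nonneg
    intro x hx
    have h1 : (1 : ℝ) ≤ x.1 := by exact_mod_cast hX x (mem_sdiff.1 hx).1
    have : 1 / (x.1 : ℝ) ≤ 1 := by rw [div_le_one (by linarith)]; exact h1
    linarith

lemma Eid_nonneg {X : Finset (ℕ × ι)} (hX : ∀ x ∈ X, 1 ≤ x.1) {f : Finset (ℕ × ι) → ℝ}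
    (h : ∀ S ⊆ X, 0 ≤ f S) : 0 ≤ Eid X f := by
  have h0 : Eid X (fun _ => (0 : ℝ)) = 0 := by
    unfold Eid
    simp
  rw [← h0]
  exact Eid_mono hX h

/-- Only the term `S = ∅`. -/
lemma Eid_empty_le {X : Finset (ℕ × ι)} (hX : ∀ x ∈ X, 1 ≤ x.1) {f : Finset (ℕ × ι) → ℝ}
    (h : ∀ S ⊆ X, 0 ≤ f S) : (∏ x ∈ X, (1 - 1 / (x.1 : ℝ))) * f ∅ ≤ Eid X f := by
  unfold Eid
  have h1 := single_le_sum (s := X.powerset) (f := fun S =>
    (∏ x ∈ S, 1 / (x.1 : ℝ)) * (∏ x ∈ X \ S, (1 - 1 / (x.1 : ℝ))) * f S) (fun S hS => by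
      rw [mem_powerset] at hS
      refine mul_nonneg (mul_nonneg (by positivity) ?_) (h S hS)
      apply prod_nonneg
      intro x hx
      have h1 : (1 : ℝ) ≤ x.1 := by exact_mod_cast hX x (mem_sdiff.1 hx).1
      have : 1 / (x.1 : ℝ) ≤ 1 := by rw [div_le_one (by linarith)]; exact h1
      linarith) (empty_mem_powerset X)
  simpa using h1

/-- Polynomials supported on one index. -/
noncomputable def cVf (v : Finset ℕ → ℝ) (i : ι) (T : Finset (ℕ × ι)) : ℝ :=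
  if ∀ x ∈ T, x.2 = i then v (pr T i) else 0

lemma poly_cVf (v : Finset ℕ → ℝ) (i : ι) (S : Finset (ℕ × ι)) :
    poly (cVf v i) S = ∑ T ∈ (pr S i).powerset, v T := by
  rw [← sum_single (pr S i) i v]
  unfold poly cVf
  rw [← sum_filter]
  refine sum_congr ?_ fun _ _ => rfl
  ext T
  simp only [mem_filter, mem_powerset]
  constructor
  · rintro ⟨h1, h2⟩ x hx
    rw [mem_product, mem_singleton]
    refine ⟨mem_pr.2 ?_, h2 x hx⟩
    have := h1 hx
    rw [← h2 x hx]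
    exact this
  · intro h
    refine ⟨fun x hx => ?_, fun x hx => ?_⟩
    · have := mem_product.1 (h hx)
      rw [mem_singleton] at this
      have h2 := mem_pr.1 this.1
      rw [← this.2] at h2
      exact h2
    · exact mem_singleton.1 (mem_product.1 (h hx)).2

/-- The upper bound through the quadratic form. -/
lemma moment_le (y : Finset (ℕ × ι) → ℝ) (P : Finset ℕ) (J₁ J₂ : Finset ι) (hJ : Disjoint J₁ J₂)
    (hP : ∀ p ∈ P, 2 ≤ p) (h0 : ∀ r, 0 ≤ y r) (hm : ∀ r r', r ⊆ r' → y r' ≤ y r)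
    (G : ι → Finset ℕ → ℝ) (hG : ∀ l S, 0 ≤ G l S) :
    Eid (P ×ˢ (J₁ ∪ J₂)) (fun S => Lam y (P ×ˢ (J₁ ∪ J₂)) S ^ 2 * ∏ l ∈ J₂, G l (pr S l)) ≤
      (∏ l ∈ J₂, E1 P (fun S => 4 ^ S.card * G l S)) * Qf y (P ×ˢ J₁) (P ×ˢ J₂) := by
  have hd : Disjoint (P ×ˢ J₁) (P ×ˢ J₂) := by
    rw [disjoint_left]
    intro x h1 h2
    rw [mem_product] at h1 h2
    exact (disjoint_left.1 hJ) h1.2 h2.2
  have hX : ∀ x ∈ P ×ˢ J₁ ∪ P ×ˢ J₂, 2 ≤ x.1 := by
    intro x hx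
    rw [mem_union, mem_product, mem_product] at hx
    rcases hx with hx | hx <;> exact hP _ hx.1
  obtain ⟨q1, _, q3, _⟩ := stmt_QFORM y (P ×ˢ J₁) (P ×ˢ J₂) hd hX h0 hm
  have hX2 : ∀ x ∈ P ×ˢ J₂, 1 ≤ x.1 := fun x hx => by
    have := hX x (mem_union_right _ hx); omega
  rw [product_union, q3]
  calc Eid (P ×ˢ J₂) (fun s => Eid (P ×ˢ J₁) (fun S =>
        Lam y (P ×ˢ J₁ ∪ P ×ˢ J₂) (S ∪ s) ^ 2 * ∏ l ∈ J₂, G l (pr (S ∪ s) l)))
      = Eid (P ×ˢ J₂) (fun s => (∏ l ∈ J₂, G l (pr s l)) * Eid (P ×ˢ J₁) (fun S =>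
        Lam y (P ×ˢ J₁ ∪ P ×ˢ J₂) (S ∪ s) ^ 2)) := by
        apply QFORM_.Eid_congr
        intro s hs
        rw [← QFORM_.Eid_smul]
        apply QFORM_.Eid_congr
        intro S hS
        rw [mul_comm]
        congr 1
        refine prod_congr rfl fun l hl => ?_
        rw [pr_union, pr_out hS (fun h => (disjoint_left.1 hJ) h hl), empty_union]
    _ ≤ Eid (P ×ˢ J₂) (fun s => Qf y (P ×ˢ J₁) (P ×ˢ J₂) *
        ∏ l ∈ J₂, (4 ^ (pr s l).card * G l (pr s l))) := by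
        apply Eid_mono hX2
        intro s hs
        have e : (4 : ℝ) ^ s.card = ∏ l ∈ J₂, 4 ^ (pr s l).card := by
          have := prod_pr (fun _ : ℕ => (4 : ℝ)) (J := J₂) (r := s)
            (fun x hx => (mem_product.1 (hs hx)).2)
          simpa using this
        calc (∏ l ∈ J₂, G l (pr s l)) * Eid (P ×ˢ J₁) (fun S =>
              Lam y (P ×ˢ J₁ ∪ P ×ˢ J₂) (S ∪ s) ^ 2)
            ≤ (∏ l ∈ J₂, G l (pr s l)) * (4 ^ s.card * Qf y (P ×ˢ J₁) (P ×ˢ J₂)) :=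
              mul_le_mul_of_nonneg_left (q1 s hs) (prod_nonneg fun l _ => hG l _)
          _ = _ := by
              rw [e, prod_mul_distrib]
              ring
    _ = Qf y (P ×ˢ J₁) (P ×ˢ J₂) * Eid (P ×ˢ J₂) (fun s =>
        ∏ l ∈ J₂, (fun (l : ι) (S : Finset ℕ) => 4 ^ S.card * G l S) l (pr s l)) := by
        rw [QFORM_.Eid_smul]
    _ = _ := by
        rw [Eid_PF P J₂ (fun (l : ι) (S : Finset ℕ) => 4 ^ S.card * G l S), mul_comm]

/-- The lower bound. -/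
lemma moment_ge (y : Finset (ℕ × ι) → ℝ) (P : Finset ℕ) (J₁ : Finset ι) (i : ι) (hi : i ∉ J₁)
    (hP : ∀ p ∈ P, 2 ≤ p) (h0 : ∀ r, 0 ≤ y r) (hm : ∀ r r', r ⊆ r' → y r' ≤ y r)
    (G : Finset ℕ → ℝ) (hG : ∀ S, 0 ≤ G S) (hG1 : G ∅ = 1) :
    (∏ p ∈ P, (1 - 1 / (p : ℝ))) * Qf y (P ×ˢ J₁) (P ×ˢ {i}) ≤
    Eid (P ×ˢ (J₁ ∪ {i})) (fun S => Lam y (P ×ˢ (J₁ ∪ {i})) S ^ 2 * G (pr S i)) := by
  have hJ : Disjoint J₁ {i} := by simpa using hi
  have hd : Disjoint (P ×ˢ J₁) (P ×ˢ ({i} : Finset ι)) := by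
    rw [disjoint_left]
    intro x h1 h2
    rw [mem_product] at h1 h2
    exact (disjoint_left.1 hJ) h1.2 h2.2
  have hX : ∀ x ∈ P ×ˢ J₁ ∪ P ×ˢ {i}, 2 ≤ x.1 := by
    intro x hx
    rw [mem_union, mem_product, mem_product] at hx
    rcases hx with hx | hx <;> exact hP _ hx.1
  have q := stmt_QFORM y (P ×ˢ J₁) (P ×ˢ ({i} : Finset ι)) hd hX h0 hm
  have q2 := q.2.1
  have q3 := q.2.2.1
  have hX2 : ∀ x ∈ P ×ˢ ({i} : Finset ι), 1 ≤ x.1 := fun x hx => by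
    have := hX x (mem_union_right _ hx); omega
  have hX1 : ∀ x ∈ P ×ˢ J₁, 1 ≤ x.1 := fun x hx => by
    have := hX x (mem_union_left _ hx); omega
  rw [product_union, q3]
  have h1 := Eid_empty_le hX2 (f := fun s => Eid (P ×ˢ J₁) (fun S =>
        Lam y (P ×ˢ J₁ ∪ P ×ˢ {i}) (S ∪ s) ^ 2 * G (pr (S ∪ s) i)))
        (fun s _ => Eid_nonneg hX1 fun S _ => mul_nonneg (sq_nonneg _) (hG _))
  refine le_trans (le_of_eq ?_) h1
  have e1 : ∏ x ∈ P ×ˢ ({i} : Finset ι), (1 - 1 / (x.1 : ℝ)) = ∏ p ∈ P, (1 - 1 / (p : ℝ)) := by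
    rw [prod_product]
    simp
  have e2 : Eid (P ×ˢ J₁) (fun S =>
        Lam y (P ×ˢ J₁ ∪ P ×ˢ {i}) (S ∪ ∅) ^ 2 * G (pr (S ∪ ∅) i)) =
      Qf y (P ×ˢ J₁) (P ×ˢ {i}) := by
    rw [← q2]
    apply QFORM_.Eid_congr
    intro S hS
    rw [union_empty, pr_out hS hi, hG1, mul_one]
  rw [e1, e2]

end Pool.Agent.GapTwo.IDEAL_
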