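import Pool.Agent.Work.MP_1ea053_nt.IDEALA

/-!
# Block IDEAL, part B (helper1): the quadratic forms of the product weights.
-/

set_option autoImplicit false

namespace Pool.Agent.GapTwo.IDEAL_

open Finset
open scoped Classical

variable {ι : Type} [Fintype ι]

/-- The product weights. -/
noncomputable def yy (h : Finset ℕ → ℝ) (P : Finset ℕ) (R : ℝ) (r : Finset (ℕ × ι)) : ℝ :=
  if r ⊆ P ×ˢ univ ∧ (sz r : ℝ) ≤ R then ∏ l, h (pr r l) else 0

/-- Hypotheses on the one variable weight. -/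
structure Wt (h : Finset ℕ → ℝ) (P : Finset ℕ) : Prop where
  two : ∀ p ∈ P, 2 ≤ p
  nonneg : ∀ S ⊆ P, 0 ≤ h S
  anti : ∀ S S', S ⊆ S' → S' ⊆ P → h S' ≤ h S

lemma sz_pos {P : Finset ℕ} (hP : ∀ p ∈ P, 2 ≤ p) {J : Finset ι} {r : Finset (ℕ × ι)}
    (hr : r ⊆ P ×ˢ J) : 0 < sz r := by
  unfold sz
  apply prod_pos
  intro x hx
  have := hP _ (mem_product.1 (hr hx)).1
  omega

lemma yy_nonneg {h : Finset ℕ → ℝ} {P : Finset ℕ} (H : Wt h P) (R : ℝ) (r : Finset (ℕ × ι)) :
    0 ≤ yy h P R r := by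
  unfold yy
  split_ifs with h1
  · exact prod_nonneg fun l _ => H.nonneg _ (pr_sub h1.1 l)
  · exact le_rfl

lemma yy_anti {h : Finset ℕ → ℝ} {P : Finset ℕ} (H : Wt h P) (R : ℝ) (r r' : Finset (ℕ × ι))
    (hr : r ⊆ r') : yy h P R r' ≤ yy h P R r := by
  by_cases h1 : r' ⊆ P ×ˢ univ ∧ (sz r' : ℝ) ≤ R
  · have h2 : r ⊆ P ×ˢ univ ∧ (sz r : ℝ) ≤ R := by
      refine ⟨hr.trans h1.1, le_trans ?_ h1.2⟩
      have : sz r ∣ sz r' := prod_dvd_prod_of_subset _ _ _ hr
      exact_mod_cast Nat.le_of_dvd (sz_pos H.two h1.1) this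
    rw [yy, if_pos h1, yy, if_pos h2]
    apply prod_le_prod
    · intro l _
      exact H.nonneg _ (pr_sub h1.1 l)
    · intro l _
      exact H.anti _ _ (pr_mono hr l) (pr_sub h1.1 l)
  · rw [yy, if_neg h1]
    exact yy_nonneg H R r

lemma phi_pr {P : Finset ℕ} {J : Finset ι} {r : Finset (ℕ × ι)} (hr : r ⊆ P ×ˢ J) :
    ∏ x ∈ r, ((x.1 : ℝ) - 1) = ∏ l ∈ J, ∏ p ∈ pr r l, ((p : ℝ) - 1) :=
  prod_pr (fun p : ℕ => (p : ℝ) - 1) fun x hx => (mem_product.1 (hr hx)).2

lemma phip {P : Finset ℕ} (hP : ∀ p ∈ P, 2 ≤ p) {S : Finset ℕ} (hS : S ⊆ P) :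
    0 < ∏ p ∈ S, ((p : ℝ) - 1) := by
  apply prod_pos
  intro p hp
  have h2 : (2 : ℝ) ≤ p := by exact_mod_cast hP p (hS hp)
  linarith

/-- The sums over one set of indices. -/
lemma sum_J (P : Finset ℕ) (J : Finset ι) (F : ι → Finset ℕ → ℝ) :
    ∑ r ∈ (P ×ˢ J).powerset, (∏ l ∈ J, F l (pr r l)) / ∏ x ∈ r, ((x.1 : ℝ) - 1) =
      ∏ l ∈ J, Sg P (F l) := by
  unfold Sg
  rw [← PF P J (fun l S => F l S / ∏ p ∈ S, ((p : ℝ) - 1))]
  refine sum_congr rfl fun r hr => ?_
  rw [mem_powerset] at hr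
  rw [phi_pr hr, prod_div_distrib]

lemma yy_le {h : Finset ℕ → ℝ} {P : Finset ℕ} (H : Wt h P) (R : ℝ) {J₁ J₂ : Finset ι}
    (hJ : Disjoint J₁ J₂) (hU : J₁ ∪ J₂ = univ) {r s : Finset (ℕ × ι)}
    (hr : r ⊆ P ×ˢ J₁) (hs : s ⊆ P ×ˢ J₂) :
    yy h P R (r ∪ s) ≤ (∏ l ∈ J₁, h (pr r l)) * ∏ l ∈ J₂, h (pr s l) := by
  have e : ∏ l, h (pr (r ∪ s) l) = (∏ l ∈ J₁, h (pr r l)) * ∏ l ∈ J₂, h (pr s l) := by
    rw [← hU, prod_union hJ]
    congr 1
    · refine prod_congr rfl fun l hl => ?_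
      rw [pr_union, pr_out hs (disjoint_left.1 hJ hl), union_empty]
    · refine prod_congr rfl fun l hl => ?_
      rw [pr_union, pr_out hr (fun hc => disjoint_left.1 hJ hc hl), empty_union]
  unfold yy
  split_ifs
  · exact e.le
  · apply mul_nonneg
    · exact prod_nonneg fun l _ => H.nonneg _ (pr_sub hr l)
    · exact prod_nonneg fun l _ => H.nonneg _ (pr_sub hs l)

lemma Qf_le {h : Finset ℕ → ℝ} {P : Finset ℕ} (H : Wt h P) (R : ℝ) (J₁ J₂ : Finset ι)
    (hJ : Disjoint J₁ J₂) (hU : J₁ ∪ J₂ = univ) :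
    Qf (yy h P R) (P ×ˢ J₁) (P ×ˢ J₂) ≤
      Sg P (fun S => h S ^ 2) ^ J₁.card * (Sg P h ^ J₂.card) ^ 2 := by
  have e1 : Sg P (fun S => h S ^ 2) ^ J₁.card =
      ∑ r ∈ (P ×ˢ J₁).powerset, (∏ l ∈ J₁, h (pr r l) ^ 2) / ∏ x ∈ r, ((x.1 : ℝ) - 1) := by
    rw [sum_J P J₁ (fun _ S => h S ^ 2), prod_const]
  have e2 : Sg P h ^ J₂.card =
      ∑ s ∈ (P ×ˢ J₂).powerset, (∏ l ∈ J₂, h (pr s l)) / ∏ x ∈ s, ((x.1 : ℝ) - 1) := by
    rw [sum_J P J₂ (fun _ S => h S), prod_const]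
  unfold Qf
  rw [e1, sum_mul]
  refine sum_le_sum fun r hr => ?_
  rw [mem_powerset] at hr
  have hφ : 0 < ∏ x ∈ r, ((x.1 : ℝ) - 1) := by
    rw [phi_pr hr]
    exact prod_pos fun l _ => phip H.two (pr_sub hr l)
  rw [div_mul_eq_mul_div]
  apply div_le_div_of_nonneg_right _ hφ.le
  rw [prod_pow, ← mul_pow]
  apply pow_le_pow_left₀
  · refine sum_nonneg fun s hs => div_nonneg (yy_nonneg H R _) ?_
    rw [mem_powerset] at hs
    rw [phi_pr hs]
    exact (prod_pos fun l _ => phip H.two (pr_sub hs l)).le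
  · rw [e2, mul_sum]
    refine sum_le_sum fun s hs => ?_
    rw [mem_powerset] at hs
    have hφ' : 0 < ∏ x ∈ s, ((x.1 : ℝ) - 1) := by
      rw [phi_pr hs]
      exact prod_pos fun l _ => phip H.two (pr_sub hs l)
    rw [← mul_div_assoc]
    exact div_le_div_of_nonneg_right (yy_le H R hJ hU hr hs) hφ'.le

lemma log_sz {P : Finset ℕ} (hP : ∀ p ∈ P, 2 ≤ p) {J : Finset ι} {r : Finset (ℕ × ι)}
    (hr : r ⊆ P ×ˢ J) : Real.log (sz r) = ∑ l ∈ J, Real.log (∏ p ∈ pr r l, (p : ℝ)) := by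
  unfold sz
  rw [Nat.cast_prod, prod_pr (fun p : ℕ => (p : ℝ)) (J := J)
    (fun x hx => (mem_product.1 (hr hx)).2), Real.log_prod]
  intro l _
  apply ne_of_gt
  apply prod_pos
  intro p hp
  have := hP p (pr_sub hr l hp)
  positivity

lemma Qf_ge {h : Finset ℕ → ℝ} {P : Finset ℕ} (H : Wt h P) (Y R' : ℝ) (hR' : 1 < R')
    (hY : 0 < Y) (hY' : ∀ S ⊆ P, h S ≠ 0 → ∏ p ∈ S, (p : ℝ) ≤ Y) (J₁ : Finset ι) (i : ι)
    (hi : i ∉ J₁) (hU : J₁ ∪ {i} = univ) :
    (Sg P (fun S => h S ^ 2) ^ J₁.card - 1 / Real.log R' * (J₁.card *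
      (Sg P (fun S => h S ^ 2 * Real.log (∏ p ∈ S, (p : ℝ))) *
        Sg P (fun S => h S ^ 2) ^ (J₁.card - 1)))) * Sg P h ^ 2 ≤
      Qf (yy h P (R' * Y)) (P ×ˢ J₁) (P ×ˢ {i}) := by
  have hJ : Disjoint J₁ {i} := by simpa using hi
  have hl : 0 < Real.log R' := Real.log_pos hR'
  set W : Finset (ℕ × ι) → ℝ := fun r => (∏ l ∈ J₁, h (pr r l) ^ 2) / ∏ x ∈ r, ((x.1 : ℝ) - 1)
    with hW
  have hW0 : ∀ r ⊆ P ×ˢ J₁, 0 ≤ W r := by
    intro r hr
    apply div_nonneg
    · exact prod_nonneg fun l _ => sq_nonneg _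
    · rw [phi_pr hr]
      exact (prod_pos fun l _ => phip H.two (pr_sub hr l)).le
  have e1 : Sg P (fun S => h S ^ 2) ^ J₁.card = ∑ r ∈ (P ×ˢ J₁).powerset, W r := by
    rw [hW, sum_J P J₁ (fun _ S => h S ^ 2), prod_const]
  have e3 : ∀ l ∈ J₁, ∑ r ∈ (P ×ˢ J₁).powerset, W r * Real.log (∏ p ∈ pr r l, (p : ℝ)) =
      Sg P (fun S => h S ^ 2 * Real.log (∏ p ∈ S, (p : ℝ))) *
        Sg P (fun S => h S ^ 2) ^ (J₁.card - 1) := by
    intro l hl
    have := sum_J P J₁ (fun l' S => if l' = l then h S ^ 2 * Real.log (∏ p ∈ S, (p : ℝ))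
      else h S ^ 2)
    rw [← mul_prod_erase J₁ _ hl] at this
    simp only [if_true] at this
    have e4 : ∏ x ∈ J₁.erase l, Sg P (fun S => if x = l then
        h S ^ 2 * Real.log (∏ p ∈ S, (p : ℝ)) else h S ^ 2) =
        Sg P (fun S => h S ^ 2) ^ (J₁.card - 1) := by
      rw [← card_erase_of_mem hl, ← prod_const]
      refine prod_congr rfl fun x hx => ?_
      simp only [if_neg (mem_erase.1 hx).1]
    rw [e4] at this
    rw [← this]
    refine sum_congr rfl fun r _ => ?_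
    rw [← mul_prod_erase J₁ _ hl, if_pos rfl, hW]
    simp only
    rw [← mul_prod_erase J₁ _ hl]
    have e5 : ∏ x ∈ J₁.erase l, (if x = l then h (pr r x) ^ 2 * Real.log (∏ p ∈ pr r x, (p : ℝ))
        else h (pr r x) ^ 2) = ∏ x ∈ J₁.erase l, h (pr r x) ^ 2 :=
      prod_congr rfl fun x hx => if_neg (mem_erase.1 hx).1
    rw [e5]
    ring
  have e6 : ∑ r ∈ (P ×ˢ J₁).powerset, W r * (1 - Real.log (sz r) / Real.log R') =
      Sg P (fun S => h S ^ 2) ^ J₁.card - 1 / Real.log R' * (J₁.card *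
      (Sg P (fun S => h S ^ 2 * Real.log (∏ p ∈ S, (p : ℝ))) *
        Sg P (fun S => h S ^ 2) ^ (J₁.card - 1))) := by
    have : ∑ r ∈ (P ×ˢ J₁).powerset, W r * (1 - Real.log (sz r) / Real.log R') =
        ∑ r ∈ (P ×ˢ J₁).powerset, W r - 1 / Real.log R' * ∑ l ∈ J₁,
          ∑ r ∈ (P ×ˢ J₁).powerset, W r * Real.log (∏ p ∈ pr r l, (p : ℝ)) := by
      rw [sum_comm, mul_sum, ← sum_sub_distrib]
      refine sum_congr rfl fun r hr => ?_
      rw [← mul_sum, ← log_sz H.two (mem_powerset.1 hr)]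
      ring
    rw [this, ← e1, sum_congr rfl e3, sum_const, nsmul_eq_mul]
  rw [← e6, sum_mul]
  unfold Qf
  refine sum_le_sum fun r hr => ?_
  rw [mem_powerset] at hr
  have hφ : 0 < ∏ x ∈ r, ((x.1 : ℝ) - 1) := by
    rw [phi_pr hr]
    exact prod_pos fun l _ => phip H.two (pr_sub hr l)
  have hsz : (0 : ℝ) < sz r := by exact_mod_cast sz_pos H.two hr
  rcases le_or_gt (sz r : ℝ) R' with h1 | h1
  · have h2 : Real.log (sz r) / Real.log R' ≥ 0 := by
      apply div_nonneg _ hl.le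
      apply Real.log_nonneg
      exact_mod_cast sz_pos H.two hr
    have h3 : ∑ s ∈ (P ×ˢ ({i} : Finset ι)).powerset, yy h P (R' * Y) (r ∪ s) /
        ∏ x ∈ s, ((x.1 : ℝ) - 1) = (∏ l ∈ J₁, h (pr r l)) * Sg P h := by
      have e2 : Sg P h = ∑ s ∈ (P ×ˢ ({i} : Finset ι)).powerset,
          (∏ l ∈ ({i} : Finset ι), h (pr s l)) / ∏ x ∈ s, ((x.1 : ℝ) - 1) := by
        rw [sum_J P {i} (fun _ S => h S), prod_singleton]
      rw [e2, mul_sum]
      refine sum_congr rfl fun s hs => ?_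
      rw [mem_powerset] at hs
      rw [← mul_div_assoc]
      congr 1
      apply le_antisymm (yy_le H _ hJ hU hr hs)
      rw [prod_singleton]
      by_cases h4 : h (pr s i) = 0
      · rw [h4, mul_zero]
        exact yy_nonneg H _ _
      · have h5 := hY' _ (pr_sub hs i) h4
        have hd : Disjoint r s := by
          rw [disjoint_left]
          intro x hx hx'
          exact (disjoint_left.1 hJ) (mem_product.1 (hr hx)).2 (mem_product.1 (hs hx')).2
        have h6 : (sz (r ∪ s) : ℝ) ≤ R' * Y := by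
          have : (sz s : ℝ) = ∏ p ∈ pr s i, (p : ℝ) := by
            unfold sz
            rw [Nat.cast_prod, prod_pr (fun p : ℕ => (p : ℝ)) (J := {i})
              (fun x hx => (mem_product.1 (hs hx)).2), prod_singleton]
          have h7 : sz (r ∪ s) = sz r * sz s := prod_union hd
          rw [h7, Nat.cast_mul, this]
          exact mul_le_mul h1 h5 (by positivity) (by linarith)
        rw [yy, if_pos ⟨union_subset (hr.trans (product_subset_product (Subset.refl _)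
          (subset_univ _))) (hs.trans (product_subset_product (Subset.refl _)
          (subset_univ _))), h6⟩, ← hU, prod_union hJ, prod_singleton]
        apply le_of_eq
        congr 1
        · refine prod_congr rfl fun l hl => ?_
          rw [pr_union, pr_out hs (disjoint_left.1 hJ hl), union_empty]
        · rw [pr_union, pr_out hr hi, empty_union]
    rw [h3, mul_pow, ← prod_pow, ← div_mul_eq_mul_div]
    apply mul_le_mul_of_nonneg_right _ (sq_nonneg _)
    have h4 := hW0 r hr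
    calc W r * (1 - Real.log (sz r) / Real.log R') ≤ W r * 1 := by
          apply mul_le_mul_of_nonneg_left _ h4
          linarith
      _ = _ := mul_one _
  · have h2 : 1 < Real.log (sz r) / Real.log R' := by
      rw [lt_div_iff₀ hl, one_mul]
      exact Real.log_lt_log (by linarith) h1
    have h3 : W r * (1 - Real.log (sz r) / Real.log R') * Sg P h ^ 2 ≤ 0 := by
      apply mul_nonpos_of_nonpos_of_nonneg _ (sq_nonneg _)
      apply mul_nonpos_of_nonneg_of_nonpos (hW0 r hr)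
      linarith
    exact h3.trans (div_nonneg (sq_nonneg _) hφ.le)

/-- `Qf` with an empty second set. -/
lemma Qf_empty_le {h : Finset ℕ → ℝ} {P : Finset ℕ} (H : Wt h P) (R : ℝ) :
    Qf (yy h P R) (P ×ˢ (univ : Finset ι)) ∅ ≤
      Sg P (fun S => h S ^ 2) ^ Fintype.card ι := by
  have := Qf_le H R (univ : Finset ι) ∅ (disjoint_empty_right _) (union_empty _)
  rw [product_empty, card_empty, pow_zero, one_pow, mul_one, card_univ] at this
  exact this

lemma one_le_Qf {h : Finset ℕ → ℝ} {P : Finset ℕ} (H : Wt h P) {R : ℝ} (hR : 1 ≤ R)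
    (h1 : h ∅ = 1) : 1 ≤ Qf (yy h P R) (P ×ˢ (univ : Finset ι)) ∅ := by
  unfold Qf
  have h2 := single_le_sum (s := (P ×ˢ (univ : Finset ι)).powerset) (f := fun r =>
    (∑ s ∈ (∅ : Finset (ℕ × ι)).powerset, yy h P R (r ∪ s) / ∏ x ∈ s, ((x.1 : ℝ) - 1)) ^ 2 /
      ∏ x ∈ r, ((x.1 : ℝ) - 1)) (fun r hr => by
      rw [mem_powerset] at hr
      apply div_nonneg (sq_nonneg _)
      rw [phi_pr hr]
      exact (prod_pos fun l _ => phip H.two (pr_sub hr l)).le) (empty_mem_powerset _)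
  refine le_trans (le_of_eq ?_) h2
  have e : yy h P R (∅ : Finset (ℕ × ι)) = 1 := by
    rw [yy, if_pos ⟨empty_subset _, by simpa [sz] using hR⟩]
    apply prod_eq_one
    intro l _
    have : pr (∅ : Finset (ℕ × ι)) l = ∅ := by
      rw [eq_empty_iff_forall_notMem]
      intro p hp
      rw [mem_pr] at hp
      exact absurd hp (notMem_empty _)
    rw [this, h1]
  simp [e]

/-- The coefficients are bounded. -/
lemma cLam_le {h : Finset ℕ → ℝ} {P : Finset ℕ} (H : Wt h P) (R : ℝ) (h1 : ∀ S ⊆ P, h S ≤ 1)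
    (T : Finset (ℕ × ι)) :
    |cLam (yy h P R) (P ×ˢ univ) T| ≤ 2 ^ T.card *
      (∏ p ∈ P, (1 + 1 / ((p : ℝ) - 1))) ^ Fintype.card ι := by
  have hX : ∀ x ∈ P ×ˢ (univ : Finset ι), (2 : ℝ) ≤ x.1 := fun x hx => by
    exact_mod_cast H.two _ (mem_product.1 hx).1
  have hprod1 : ∀ A ⊆ P ×ˢ (univ : Finset ι), 0 < ∏ x ∈ A, ((x.1 : ℝ) - 1) := fun A hA =>
    prod_pos fun x hx => by linarith [hX x (hA hx)]
  have hE : (∏ p ∈ P, (1 + 1 / ((p : ℝ) - 1))) ^ Fintype.card ι =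
      ∑ r ∈ (P ×ˢ (univ : Finset ι)).powerset, 1 / ∏ x ∈ r, ((x.1 : ℝ) - 1) := by
    have := sum_J P (univ : Finset ι) (fun _ _ => (1 : ℝ))
    simp only [prod_const_one, prod_const, card_univ] at this
    rw [this]
    congr 1
    rw [prod_one_add]
    unfold Sg
    refine sum_congr rfl fun S _ => ?_
    rw [prod_div_distrib, prod_const_one]
  by_cases hT : T ⊆ P ×ˢ univ
  · rw [cLam, if_pos hT]
    have hT1 := hprod1 T hT
    have b1 : (∏ x ∈ T, (x.1 : ℝ)) / ∏ x ∈ T, ((x.1 : ℝ) - 1) ≤ 2 ^ T.card := by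
      rw [← prod_div_distrib, ← prod_const]
      apply prod_le_prod
      · intro x hx
        have := hX x (hT hx)
        apply div_nonneg <;> linarith
      · intro x hx
        have := hX x (hT hx)
        rw [div_le_iff₀ (by linarith)]
        linarith
    have hTpos : 0 < ∏ x ∈ T, (x.1 : ℝ) := prod_pos fun x hx => by linarith [hX x (hT hx)]
    calc |∑ r ∈ (P ×ˢ univ).powerset.filter (fun r => T ⊆ r),
          yy h P R r * (-1) ^ T.card * (∏ x ∈ T, (x.1 : ℝ)) / ∏ x ∈ r, ((x.1 : ℝ) - 1)|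
        ≤ ∑ r ∈ (P ×ˢ univ).powerset.filter (fun r => T ⊆ r),
          |yy h P R r * (-1) ^ T.card * (∏ x ∈ T, (x.1 : ℝ)) / ∏ x ∈ r, ((x.1 : ℝ) - 1)| :=
          abs_sum_le_sum_abs _ _
      _ ≤ ∑ r ∈ (P ×ˢ univ).powerset.filter (fun r => T ⊆ r),
          2 ^ T.card * (1 / ∏ x ∈ r \ T, ((x.1 : ℝ) - 1)) := by
          refine sum_le_sum fun r hr => ?_
          rw [mem_filter, mem_powerset] at hr
          have hr1 := hprod1 r hr.1
          have hrT := hprod1 (r \ T) (sdiff_subset.trans hr.1)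
          have hy0 := yy_nonneg H R r
          have hy1 : yy h P R r ≤ 1 := by
            unfold yy
            split_ifs with hc
            · apply prod_le_one
              · intro l _
                exact H.nonneg _ (pr_sub hc.1 l)
              · intro l _
                exact h1 _ (pr_sub hc.1 l)
            · exact zero_le_one
          rw [abs_div, abs_mul, abs_mul, abs_pow, abs_neg, abs_one, one_pow, mul_one,
            abs_of_nonneg hy0, abs_of_pos hTpos, abs_of_pos hr1]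
          have e : ∏ x ∈ r, ((x.1 : ℝ) - 1) = (∏ x ∈ r \ T, ((x.1 : ℝ) - 1)) *
              ∏ x ∈ T, ((x.1 : ℝ) - 1) := (prod_sdiff hr.2).symm
          calc yy h P R r * (∏ x ∈ T, (x.1 : ℝ)) / ∏ x ∈ r, ((x.1 : ℝ) - 1)
              ≤ 1 * (∏ x ∈ T, (x.1 : ℝ)) / ∏ x ∈ r, ((x.1 : ℝ) - 1) := by gcongr
            _ = ((∏ x ∈ T, (x.1 : ℝ)) / ∏ x ∈ T, ((x.1 : ℝ) - 1)) *
                (1 / ∏ x ∈ r \ T, ((x.1 : ℝ) - 1)) := by
                rw [e]
                field_simp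
            _ ≤ _ := mul_le_mul_of_nonneg_right b1 (by positivity)
      _ = 2 ^ T.card * ∑ r ∈ (P ×ˢ univ).powerset.filter (fun r => T ⊆ r),
          (1 / ∏ x ∈ r \ T, ((x.1 : ℝ) - 1)) := by rw [mul_sum]
      _ ≤ 2 ^ T.card * ∑ r ∈ (P ×ˢ (univ : Finset ι)).powerset,
          1 / ∏ x ∈ r, ((x.1 : ℝ) - 1) := by
          apply mul_le_mul_of_nonneg_left _ (by positivity)
          calc ∑ r ∈ (P ×ˢ univ).powerset.filter (fun r => T ⊆ r),
                (1 / ∏ x ∈ r \ T, ((x.1 : ℝ) - 1))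
              = ∑ r ∈ ((P ×ˢ univ).powerset.filter (fun r => T ⊆ r)).image (fun r => r \ T),
                1 / ∏ x ∈ r, ((x.1 : ℝ) - 1) := by
                rw [sum_image]
                intro r hr r' hr' hrr
                simp only [coe_filter, Set.mem_ofPred_eq] at hr hr'
                rw [← sdiff_union_of_subset hr.2, ← sdiff_union_of_subset hr'.2]
                simp only at hrr
                rw [hrr]
            _ ≤ _ := by
                apply sum_le_sum_of_subset_of_nonneg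
                · intro r hr
                  rw [mem_image] at hr
                  obtain ⟨r', hr', rfl⟩ := hr
                  rw [mem_filter, mem_powerset] at hr'
                  exact mem_powerset.2 (sdiff_subset.trans hr'.1)
                · intro r hr _
                  have := hprod1 r (mem_powerset.1 hr)
                  positivity
      _ = _ := by rw [hE]
  · rw [cLam, if_neg hT, abs_zero]
    apply mul_nonneg (by positivity)
    apply pow_nonneg
    apply prod_nonneg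
    intro p hp
    have h2 : (2 : ℝ) ≤ p := by exact_mod_cast H.two p hp
    have : 0 ≤ 1 / ((p : ℝ) - 1) := by apply div_nonneg <;> linarith
    linarith

lemma cLam_supp {h : Finset ℕ → ℝ} {P : Finset ℕ} (H : Wt h P) (R : ℝ) (T : Finset (ℕ × ι))
    (hT : cLam (yy h P R) (P ×ˢ univ) T ≠ 0) : T ⊆ P ×ˢ univ ∧ (sz T : ℝ) ≤ R := by
  unfold cLam at hT
  split_ifs at hT with h1
  · refine ⟨h1, ?_⟩
    obtain ⟨r, hr, hne⟩ := exists_ne_zero_of_sum_ne_zero hT
    rw [mem_filter, mem_powerset] at hr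
    have hy : yy h P R r ≠ 0 := by
      intro hc
      rw [hc] at hne
      simp at hne
    unfold yy at hy
    split_ifs at hy with h2
    · have : sz T ∣ sz r := prod_dvd_prod_of_subset _ _ _ hr.2
      have h3 := Nat.le_of_dvd (sz_pos H.two h2.1) this
      have h4 : (sz T : ℝ) ≤ sz r := by exact_mod_cast h3
      linarith [h2.2]
    · exact absurd rfl hy
  · exact absurd rfl hT

end Pool.Agent.GapTwo.IDEAL_
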