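import Pool.Agent.Work.MP_1ea053_nt.IDEALB

/-!
# Block IDEAL, part C (helper1): the inequalities for the product weights.
-/

set_option autoImplicit false

namespace Pool.Agent.GapTwo.IDEAL_

open Finset
open scoped Classical

variable {ι : Type} [Fintype ι]

/-- The data of the construction. -/
structure Dat (ι : Type) [Fintype ι] (P : Finset ℕ) (h : Finset ℕ → ℝ) (v : Finset ℕ → ℝ)
    (R' Y ε : ℝ) : Prop where
  wt : Wt h P
  h1 : h ∅ = 1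
  R1 : 1 < R'
  Y1 : 1 ≤ Y
  hY : ∀ S ⊆ P, h S ≠ 0 → ∏ p ∈ S, (p : ℝ) ≤ Y
  v1 : v ∅ = 1
  V0 : ∀ S : Finset ℕ, 0 ≤ ∑ T ∈ S.powerset, v T
  e0 : 0 ≤ ε
  b1 : E1 P (fun S => 4 ^ S.card * ∑ T ∈ S.powerset, v T) ≤
    (1 + ε) * ∏ p ∈ P, (1 - 1 / (p : ℝ))
  b2 : E1 P (fun S => 4 ^ S.card * (∑ T ∈ S.powerset, v T) ^ 2) ≤
    (1 + ε) * ∏ p ∈ P, (1 - 1 / (p : ℝ))
  s3 : 1 / Real.log R' * ((Fintype.card ι - 1 : ℕ) *
    (Sg P (fun S => h S ^ 2 * Real.log (∏ p ∈ S, (p : ℝ))) *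
      Sg P (fun S => h S ^ 2) ^ (Fintype.card ι - 2))) ≤
    ε * Sg P (fun S => h S ^ 2) ^ (Fintype.card ι - 1)

variable {P : Finset ℕ} {h v : Finset ℕ → ℝ} {R' Y ε : ℝ}

lemma Dat.two_le (D : Dat ι P h v R' Y ε) : ∀ x ∈ P ×ˢ (univ : Finset ι), 2 ≤ x.1 := fun x hx =>
  D.wt.two _ (mem_product.1 hx).1

lemma Dat.expand (D : Dat ι P h v R' Y ε) {S : Finset (ℕ × ι)} (hS : S ⊆ P ×ˢ univ) :
    poly (cLam (yy h P (R' * Y)) (P ×ˢ univ)) S = Lam (yy h P (R' * Y)) (P ×ˢ univ) S :=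
  (QFORM_.expand _ _ _ D.two_le hS).symm

lemma erase_union (i : ι) : (univ.erase i) ∪ {i} = (univ : Finset ι) := by
  ext l
  simp only [mem_union, mem_erase, mem_univ, mem_singleton, and_true, iff_true]
  tauto

lemma rho_nonneg (D : Dat ι P h v R' Y ε) : 0 ≤ ∏ p ∈ P, (1 - 1 / (p : ℝ)) := by
  apply prod_nonneg
  intro p hp
  have h2 : (2 : ℝ) ≤ p := by exact_mod_cast D.wt.two p hp
  have : 1 / (p : ℝ) ≤ 1 := by
    rw [div_le_one (by linarith)]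
    linarith
  linarith

/-- The lower bound for one index. -/
lemma c1 (D : Dat ι P h v R' Y ε) (i : ι) :
    (1 - ε) * (Sg P h ^ 2 * Sg P (fun S => h S ^ 2) ^ (Fintype.card ι - 1)) ≤
      Qf (yy h P (R' * Y)) (P ×ˢ univ.erase i) (P ×ˢ {i}) := by
  have h1 := Qf_ge D.wt Y R' D.R1 (by linarith [D.Y1]) D.hY (univ.erase i) i
    (notMem_erase i univ) (erase_union i)
  rw [card_erase_of_mem (mem_univ i), card_univ, Nat.sub_sub] at h1
  refine le_trans ?_ h1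
  have h2 := D.s3
  calc (1 - ε) * (Sg P h ^ 2 * Sg P (fun S => h S ^ 2) ^ (Fintype.card ι - 1))
      = (Sg P (fun S => h S ^ 2) ^ (Fintype.card ι - 1) -
        ε * Sg P (fun S => h S ^ 2) ^ (Fintype.card ι - 1)) * Sg P h ^ 2 := by ring
    _ ≤ _ := by
        apply mul_le_mul_of_nonneg_right _ (sq_nonneg _)
        linarith

lemma c2 (D : Dat ι P h v R' Y ε) (i : ι) :
    (1 - ε) * (Sg P h ^ 2 * Sg P (fun S => h S ^ 2) ^ (Fintype.card ι - 1)) ≤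
      Eid (P ×ˢ univ.erase i)
        (fun S => poly (cLam (yy h P (R' * Y)) (P ×ˢ (univ : Finset ι))) S ^ 2) := by
  refine (c1 D i).trans (le_of_eq ?_)
  have hJ : Disjoint (univ.erase i) {i} := by simp
  have hd : Disjoint (P ×ˢ univ.erase i) (P ×ˢ ({i} : Finset ι)) := by
    rw [disjoint_left]
    intro x h1 h2
    rw [mem_product] at h1 h2
    exact (disjoint_left.1 hJ) h1.2 h2.2
  have hU : P ×ˢ univ.erase i ∪ P ×ˢ {i} = P ×ˢ (univ : Finset ι) := by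
    rw [← product_union, erase_union]
  have hX : ∀ x ∈ P ×ˢ univ.erase i ∪ P ×ˢ {i}, 2 ≤ x.1 := by
    rw [hU]; exact D.two_le
  have q := stmt_QFORM (yy h P (R' * Y)) (P ×ˢ univ.erase i) (P ×ˢ ({i} : Finset ι)) hd hX
    (yy_nonneg D.wt _) (yy_anti D.wt _)
  have q2 := q.2.1
  rw [← q2]
  apply QFORM_.Eid_congr
  intro S hS
  rw [hU, D.expand (hS.trans (product_subset_product (Subset.refl _) (erase_subset _ _)))]

lemma c2' (D : Dat ι P h v R' Y ε) (i : ι) [DecidablePred fun x : ℕ × ι => x.2 ≠ i] :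
    (1 - ε) * (Sg P h ^ 2 * Sg P (fun S => h S ^ 2) ^ (Fintype.card ι - 1)) ≤
      Eid ((P ×ˢ (univ : Finset ι)).filter (fun x => x.2 ≠ i))
        (fun S => poly (cLam (yy h P (R' * Y)) (P ×ˢ (univ : Finset ι))) S ^ 2) := by
  have e : (P ×ˢ (univ : Finset ι)).filter (fun x => x.2 ≠ i) = P ×ˢ univ.erase i := by
    ext x
    rw [mem_filter, mem_product, mem_product, mem_erase]
    simp only [mem_univ]
    tauto
  rw [e]
  exact c2 D i

lemma c3 (D : Dat ι P h v R' Y ε) (i : ι) :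
    (1 - ε) * ((∏ p ∈ P, (1 - 1 / (p : ℝ))) *
      (Sg P h ^ 2 * Sg P (fun S => h S ^ 2) ^ (Fintype.card ι - 1))) ≤
      Eid (P ×ˢ univ) (fun S => poly (cLam (yy h P (R' * Y)) (P ×ˢ (univ : Finset ι))) S ^ 2 *
        poly (cVf v i) S) := by
  have h1 := moment_ge (yy h P (R' * Y)) P (univ.erase i) i (notMem_erase i univ) D.wt.two
    (yy_nonneg D.wt _) (yy_anti D.wt _) (fun S => ∑ T ∈ S.powerset, v T) D.V0 (by
      simp [D.v1])
  rw [erase_union] at h1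
  have h2 := c1 D i
  calc (1 - ε) * ((∏ p ∈ P, (1 - 1 / (p : ℝ))) *
        (Sg P h ^ 2 * Sg P (fun S => h S ^ 2) ^ (Fintype.card ι - 1)))
      = (∏ p ∈ P, (1 - 1 / (p : ℝ))) * ((1 - ε) *
        (Sg P h ^ 2 * Sg P (fun S => h S ^ 2) ^ (Fintype.card ι - 1))) := by ring
    _ ≤ (∏ p ∈ P, (1 - 1 / (p : ℝ))) *
        Qf (yy h P (R' * Y)) (P ×ˢ univ.erase i) (P ×ˢ {i}) :=
        mul_le_mul_of_nonneg_left h2 (rho_nonneg D)
    _ ≤ _ := h1
    _ = _ := by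
        apply QFORM_.Eid_congr
        intro S hS
        rw [D.expand hS, poly_cVf]

lemma c4' (D : Dat ι P h v R' Y ε) (J₂ : Finset ι) (G : Finset ℕ → ℝ) (hG : ∀ S, 0 ≤ G S)
    (b : E1 P (fun S => 4 ^ S.card * G S) ≤ (1 + ε) * ∏ p ∈ P, (1 - 1 / (p : ℝ)))
    (f : Finset (ℕ × ι) → ℝ) (hf : ∀ S, f S = ∏ l ∈ J₂, G (pr S l)) :
    Eid (P ×ˢ univ) (fun S => poly (cLam (yy h P (R' * Y)) (P ×ˢ (univ : Finset ι))) S ^ 2 * f S)
      ≤ ((1 + ε) * ∏ p ∈ P, (1 - 1 / (p : ℝ))) ^ J₂.card *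
      (Sg P (fun S => h S ^ 2) ^ (Fintype.card ι - J₂.card) * (Sg P h ^ J₂.card) ^ 2) := by
  have hJ : Disjoint (univ \ J₂) J₂ := sdiff_disjoint
  have hU : (univ \ J₂) ∪ J₂ = univ := sdiff_union_of_subset (subset_univ _)
  have h1 := moment_le (yy h P (R' * Y)) P (univ \ J₂) J₂ hJ D.wt.two
    (yy_nonneg D.wt _) (yy_anti D.wt _) (fun _ => G) (fun _ => hG)
  rw [hU] at h1
  have h2 := Qf_le D.wt (R' * Y) (univ \ J₂) J₂ hJ hU
  rw [card_sdiff_of_subset (subset_univ _), card_univ] at h2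
  have hE0 : 0 ≤ E1 P (fun S => 4 ^ S.card * G S) := by
    unfold E1
    refine sum_nonneg fun S hS => ?_
    refine mul_nonneg (mul_nonneg (by positivity) ?_) (mul_nonneg (by positivity) (hG _))
    apply prod_nonneg
    intro p hp
    have h2 : (2 : ℝ) ≤ p := by exact_mod_cast D.wt.two p (mem_sdiff.1 hp).1
    have : 1 / (p : ℝ) ≤ 1 := by
      rw [div_le_one (by linarith)]
      linarith
    linarith
  have hQ0 : 0 ≤ Qf (yy h P (R' * Y)) (P ×ˢ (univ \ J₂)) (P ×ˢ J₂) := by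
    unfold Qf
    refine sum_nonneg fun r hr => div_nonneg (sq_nonneg _) ?_
    rw [mem_powerset] at hr
    rw [phi_pr hr]
    exact (prod_pos fun l _ => phip D.wt.two (pr_sub hr l)).le
  have hr0 : 0 ≤ (1 + ε) * ∏ p ∈ P, (1 - 1 / (p : ℝ)) :=
    mul_nonneg (by linarith [D.e0]) (rho_nonneg D)
  calc Eid (P ×ˢ univ) (fun S => poly (cLam (yy h P (R' * Y)) (P ×ˢ (univ : Finset ι))) S ^ 2 *
        f S)
      = Eid (P ×ˢ univ) (fun S => Lam (yy h P (R' * Y)) (P ×ˢ univ) S ^ 2 *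
        ∏ l ∈ J₂, G (pr S l)) := by
        apply QFORM_.Eid_congr
        intro S hS
        rw [D.expand hS, hf]
    _ ≤ (∏ l ∈ J₂, E1 P (fun S => 4 ^ S.card * G S)) *
        Qf (yy h P (R' * Y)) (P ×ˢ (univ \ J₂)) (P ×ˢ J₂) := h1
    _ ≤ ((1 + ε) * ∏ p ∈ P, (1 - 1 / (p : ℝ))) ^ J₂.card *
        Qf (yy h P (R' * Y)) (P ×ˢ (univ \ J₂)) (P ×ˢ J₂) := by
        rw [prod_const]
        exact mul_le_mul_of_nonneg_right (pow_le_pow_left₀ hE0 b _) hQ0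
    _ ≤ _ := mul_le_mul_of_nonneg_left h2 (pow_nonneg hr0 _)

lemma c4 (D : Dat ι P h v R' Y ε) (i : ι) :
    Eid (P ×ˢ univ) (fun S => poly (cLam (yy h P (R' * Y)) (P ×ˢ (univ : Finset ι))) S ^ 2 *
        poly (cVf v i) S) ≤
    (1 + ε) * ((∏ p ∈ P, (1 - 1 / (p : ℝ))) *
      (Sg P h ^ 2 * Sg P (fun S => h S ^ 2) ^ (Fintype.card ι - 1))) := by
  have := c4' D {i} (fun S => ∑ T ∈ S.powerset, v T) D.V0 D.b1 (fun S => poly (cVf v i) S)
    (fun S => by rw [prod_singleton, poly_cVf])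
  rw [card_singleton, pow_one, pow_one] at this
  refine this.trans (le_of_eq ?_)
  ring

lemma c5 (D : Dat ι P h v R' Y ε) (i : ι) :
    Eid (P ×ˢ univ) (fun S => poly (cLam (yy h P (R' * Y)) (P ×ˢ (univ : Finset ι))) S ^ 2 *
        poly (cVf v i) S ^ 2) ≤
    (1 + ε) * ((∏ p ∈ P, (1 - 1 / (p : ℝ))) *
      (Sg P h ^ 2 * Sg P (fun S => h S ^ 2) ^ (Fintype.card ι - 1))) := by
  have := c4' D {i} (fun S => (∑ T ∈ S.powerset, v T) ^ 2) (fun S => sq_nonneg _) D.b2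
    (fun S => poly (cVf v i) S ^ 2) (fun S => by rw [prod_singleton, poly_cVf])
  rw [card_singleton, pow_one, pow_one] at this
  refine this.trans (le_of_eq ?_)
  ring

lemma c6 (D : Dat ι P h v R' Y ε) :
    Eid (P ×ˢ univ) (fun S => poly (cLam (yy h P (R' * Y)) (P ×ˢ (univ : Finset ι))) S ^ 2) =
      Qf (yy h P (R' * Y)) (P ×ˢ (univ : Finset ι)) ∅ := by
  have q := stmt_QFORM (yy h P (R' * Y)) (P ×ˢ (univ : Finset ι)) ∅ (disjoint_empty_right _)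
    (by rw [union_empty]; exact D.two_le) (yy_nonneg D.wt _) (yy_anti D.wt _)
  have q2 := q.2.1
  rw [← q2]
  apply QFORM_.Eid_congr
  intro S hS
  rw [union_empty, D.expand hS]

lemma c7 (D : Dat ι P h v R' Y ε) (h2 : 2 ≤ Fintype.card ι) (i j : ι) (hij : i ≠ j) :
    Eid (P ×ˢ univ) (fun S => poly (cLam (yy h P (R' * Y)) (P ×ˢ (univ : Finset ι))) S ^ 2 *
        poly (cVf v i) S * poly (cVf v j) S) *
    Eid (P ×ˢ univ) (fun S => poly (cLam (yy h P (R' * Y)) (P ×ˢ (univ : Finset ι))) S ^ 2) ≤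
    (1 + ε) ^ 2 * ((∏ p ∈ P, (1 - 1 / (p : ℝ))) *
      (Sg P h ^ 2 * Sg P (fun S => h S ^ 2) ^ (Fintype.card ι - 1))) ^ 2 := by
  have h1 := c4' D {i, j} (fun S => ∑ T ∈ S.powerset, v T) D.V0 D.b1
    (fun S => poly (cVf v i) S * poly (cVf v j) S)
    (fun S => by rw [prod_pair hij, poly_cVf, poly_cVf])
  rw [card_pair hij] at h1
  have h3 := Qf_empty_le (ι := ι) D.wt (R' * Y)
  rw [← c6 D] at h3
  have h4 : 0 ≤ Eid (P ×ˢ univ)
      (fun S => poly (cLam (yy h P (R' * Y)) (P ×ˢ (univ : Finset ι))) S ^ 2) :=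
    Eid_nonneg (fun x hx => by have := D.two_le x hx; omega) fun S _ => sq_nonneg _
  have hS2 : 0 ≤ Sg P (fun S => h S ^ 2) := by
    unfold Sg
    refine sum_nonneg fun S hS => div_nonneg (sq_nonneg _) (phip D.wt.two (mem_powerset.1 hS)).le
  have e0 : (fun S => poly (cLam (yy h P (R' * Y)) (P ×ˢ (univ : Finset ι))) S ^ 2 *
        poly (cVf v i) S * poly (cVf v j) S) = (fun S =>
      poly (cLam (yy h P (R' * Y)) (P ×ˢ (univ : Finset ι))) S ^ 2 *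
        (poly (cVf v i) S * poly (cVf v j) S)) := by
    ext S; ring
  rw [e0]
  refine (mul_le_mul h1 h3 h4 ?_).trans (le_of_eq ?_)
  · refine mul_nonneg (sq_nonneg _) (mul_nonneg (pow_nonneg hS2 _) (sq_nonneg _))
  · obtain ⟨n, hn⟩ : ∃ n, Fintype.card ι = n + 2 := ⟨Fintype.card ι - 2, by omega⟩
    rw [hn]
    have e1 : n + 2 - 2 = n := by omega
    have e2 : n + 2 - 1 = n + 1 := by omega
    rw [e1, e2]
    ring

lemma c8 (D : Dat ι P h v R' Y ε) :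
    1 ≤ Eid (P ×ˢ univ)
      (fun S => poly (cLam (yy h P (R' * Y)) (P ×ˢ (univ : Finset ι))) S ^ 2) := by
  rw [c6 D]
  exact one_le_Qf D.wt (by nlinarith [D.R1, D.Y1]) D.h1

lemma c9 (D : Dat ι P h v R' Y ε) :
    Eid (P ×ˢ univ)
      (fun S => poly (cLam (yy h P (R' * Y)) (P ×ˢ (univ : Finset ι))) S ^ 2) ≤
    Sg P (fun S => h S ^ 2) ^ Fintype.card ι := by
  rw [c6 D]
  exact Qf_empty_le D.wt _

end Pool.Agent.GapTwo.IDEAL_
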