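import Pool.Agent.Work.MP_1ea053_nt.QFORM
import Pool.Agent.Work.LinearSieve.MERT

/-!
# Block SUMS (helper1): the one variable sums.
-/

set_option autoImplicit false

namespace Pool.Agent.GapTwo.SUMS_

open Finset
open scoped Classical

lemma mem_PR {u v : ℝ} {p : ℕ} : p ∈ PR u v ↔ (p : ℝ) < v ∧ p.Prime ∧ u ≤ (p : ℝ) := by
  rw [PR, mem_filter, mem_range, Nat.lt_ceil]

/-- The upper bound of Mertens. -/
lemma prodUB : ∃ u₀ : ℝ, 3 ≤ u₀ ∧ ∀ u w : ℝ, u₀ ≤ u → u ≤ w →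
    ∏ p ∈ PR u w, (1 + 1 / ((p : ℝ) - 1)) ≤ 2 * (Real.log w / Real.log u) := by
  obtain ⟨u₀, h3, h⟩ := Pool.Agent.LinSieve.MERT 1 one_pos
  refine ⟨u₀, by exact_mod_cast h3, fun u w hu huw => ?_⟩
  have h3' : (3 : ℝ) ≤ u₀ := by exact_mod_cast h3
  obtain ⟨h1, _⟩ := h u w hu huw
  have e : (range ⌈w⌉₊).filter (fun p : ℕ => p.Prime ∧ u ≤ (p : ℝ)) = PR u w := by
    unfold PR
    congr
  rw [e] at h1
  have hp : ∀ p ∈ PR u w, (2 : ℝ) ≤ (p : ℝ) - 1 := by
    intro p hp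
    have := (mem_PR.1 hp).2.2
    linarith
  have hprod : (∏ p ∈ PR u w, (1 + 1 / ((p : ℝ) - 1))) * ∏ p ∈ PR u w, (1 - 1 / ((p : ℝ) - 1))
      ≤ 1 := by
    rw [← prod_mul_distrib]
    apply prod_le_one
    · intro p hpp
      have h2 := hp p hpp
      have : 1 / ((p : ℝ) - 1) ≤ 1 := by
        rw [div_le_one (by linarith)]; linarith
      have : 0 ≤ 1 / ((p : ℝ) - 1) := by positivity
      apply mul_nonneg <;> linarith
    · intro p hpp
      nlinarith [sq_nonneg (1 / ((p : ℝ) - 1))]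
  have hA : 0 ≤ ∏ p ∈ PR u w, (1 + 1 / ((p : ℝ) - 1)) := by
    apply prod_nonneg
    intro p hpp
    have h2 := hp p hpp
    have : 0 ≤ 1 / ((p : ℝ) - 1) := by apply div_nonneg <;> linarith
    linarith
  have hl : 0 ≤ Real.log w / Real.log u :=
    div_nonneg (Real.log_nonneg (by linarith)) (Real.log_nonneg (by linarith))
  calc ∏ p ∈ PR u w, (1 + 1 / ((p : ℝ) - 1))
      ≤ (∏ p ∈ PR u w, (1 + 1 / ((p : ℝ) - 1))) * ((1 + 1) * (Real.log w / Real.log u) *
        ∏ p ∈ PR u w, (1 - 1 / ((p : ℝ) - 1))) := le_mul_of_one_le_right hA h1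
    _ = (2 * (Real.log w / Real.log u)) * ((∏ p ∈ PR u w, (1 + 1 / ((p : ℝ) - 1))) *
        ∏ p ∈ PR u w, (1 - 1 / ((p : ℝ) - 1))) := by ring
    _ ≤ (2 * (Real.log w / Real.log u)) * 1 :=
        mul_le_mul_of_nonneg_left hprod (by positivity)
    _ = _ := mul_one _

/-- `∏ (1 + 1/p)` over the primes below `z`. -/
lemma smallUB : ∃ C z₀ : ℝ, 1 ≤ C ∧ 3 ≤ z₀ ∧ ∀ z : ℝ, z₀ ≤ z →
    ∏ p ∈ PR 0 z, (1 + 1 / (p : ℝ)) ≤ C * Real.log z := by
  obtain ⟨u₀, h3, h⟩ := prodUB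
  have hl0 : 0 < Real.log u₀ := Real.log_pos (by linarith)
  have hl1 : 1 ≤ Real.log u₀ := by
    rw [Real.le_log_iff_exp_le (by linarith)]
    exact Real.exp_one_lt_d9.le.trans (by linarith)
  set A := ∏ p ∈ PR 0 u₀, (1 + 1 / (p : ℝ)) with hA
  have hA1 : 1 ≤ A := by
    calc (1 : ℝ) = ∏ p ∈ PR 0 u₀, (1 : ℝ) := by simp
      _ ≤ A := by
        apply prod_le_prod
        · intro p _
          exact zero_le_one
        · intro p _
          have : 0 ≤ 1 / (p : ℝ) := by positivity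
          linarith
  refine ⟨A * 2, u₀, by linarith, h3, fun z hz => ?_⟩
  have hsplit : PR 0 z = PR 0 u₀ ∪ PR u₀ z := by
    ext p
    rw [mem_union, mem_PR, mem_PR, mem_PR]
    constructor
    · rintro ⟨h1, h2, h3⟩
      rcases lt_or_ge (p : ℝ) u₀ with h4 | h4
      · exact Or.inl ⟨h4, h2, h3⟩
      · exact Or.inr ⟨h1, h2, h4⟩
    · rintro (⟨h1, h2, h3⟩ | ⟨h1, h2, h3⟩)
      · exact ⟨by linarith, h2, h3⟩
      · exact ⟨h1, h2, by positivity⟩
  have hdis : Disjoint (PR 0 u₀) (PR u₀ z) := by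
    rw [disjoint_left]
    intro p h1 h2
    have := (mem_PR.1 h1).1
    have := (mem_PR.1 h2).2.2
    linarith
  rw [hsplit, prod_union hdis, ← hA]
  have h4 : ∏ p ∈ PR u₀ z, (1 + 1 / (p : ℝ)) ≤ ∏ p ∈ PR u₀ z, (1 + 1 / ((p : ℝ) - 1)) := by
    apply prod_le_prod
    · intro p _
      positivity
    · intro p hp
      have := (mem_PR.1 hp).2.2
      gcongr
      · linarith
      · linarith
  have h5 := h u₀ z le_rfl hz
  have h6 : Real.log z / Real.log u₀ ≤ Real.log z :=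
    div_le_self (Real.log_nonneg (by linarith)) hl1
  calc A * ∏ p ∈ PR u₀ z, (1 + 1 / (p : ℝ)) ≤ A * (2 * Real.log z) := by
        apply mul_le_mul_of_nonneg_left _ (by linarith)
        linarith
    _ = _ := by ring

/-- The counting sum. -/
noncomputable def MM (P : Finset ℕ) (x : ℝ) : ℝ :=
  ∑ S ∈ P.powerset.filter (fun S : Finset ℕ => ∏ p ∈ S, (p : ℝ) ≤ x), 1 / ∏ p ∈ S, ((p : ℝ) - 1)

lemma upper {u₀ : ℝ} (h3 : 3 ≤ u₀) (h : ∀ u w : ℝ, u₀ ≤ u → u ≤ w →
    ∏ p ∈ PR u w, (1 + 1 / ((p : ℝ) - 1)) ≤ 2 * (Real.log w / Real.log u))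
    {z₁ z x : ℝ} (hz : u₀ ≤ z₁) (hx : 1 ≤ x) :
    MM (PR z₁ z) x ≤ 2 * (1 + Real.log x / Real.log z₁) := by
  have hl : 0 < Real.log z₁ := Real.log_pos (by linarith)
  have h1 := h z₁ (x * z₁) hz (by nlinarith)
  rw [Real.log_mul (by linarith) (by linarith), add_div, div_self hl.ne'] at h1
  rw [add_comm 1]
  refine le_trans ?_ h1
  rw [prod_one_add, MM]
  have h2 : ∀ S ∈ (PR z₁ (x * z₁)).powerset, ∏ p ∈ S, 1 / ((p : ℝ) - 1) =
      1 / ∏ p ∈ S, ((p : ℝ) - 1) := by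
    intro S _
    rw [prod_div_distrib]; simp
  rw [sum_congr rfl h2]
  apply sum_le_sum_of_subset_of_nonneg
  · intro S hS
    rw [mem_filter, mem_powerset] at hS
    rw [mem_powerset]
    intro p hp
    have hp1 := mem_PR.1 (hS.1 hp)
    rw [mem_PR]
    refine ⟨?_, hp1.2.1, hp1.2.2⟩
    have h4 : (p : ℝ) ≤ ∏ q ∈ S, (q : ℝ) := by
      rw [← Nat.cast_prod]
      have hpos : 0 < ∏ q ∈ S, q := prod_pos fun q hq => (mem_PR.1 (hS.1 hq)).2.1.pos
      exact_mod_cast Nat.le_of_dvd hpos (dvd_prod_of_mem _ hp)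
    nlinarith [hS.2]
  · intro S hS _
    rw [mem_powerset] at hS
    apply div_nonneg zero_le_one
    apply prod_nonneg
    intro p hp
    have := (mem_PR.1 (hS hp)).2.2
    linarith

lemma sum_inv_sq_le (x : ℕ) : ∑ m ∈ Icc 1 x, (1 : ℝ) / (m : ℝ) ^ 2 ≤ 2 := by
  have h : ∀ x : ℕ, ∑ m ∈ Icc 1 (x + 1), (1 : ℝ) / (m : ℝ) ^ 2 ≤ 2 - 1 / (x + 1) := by
    intro x
    induction x with
    | zero => simp; norm_num
    | succ n ih =>
      rw [sum_Icc_succ_top (by omega)]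
      have h1 : (1 : ℝ) / ((n + 1 + 1 : ℕ) : ℝ) ^ 2 ≤ 1 / (n + 1) - 1 / (n + 1 + 1) := by
        push_cast
        have hn : (0 : ℝ) ≤ n := by positivity
        rw [div_sub_div _ _ (by positivity) (by positivity), div_le_div_iff₀ (by positivity)
          (by positivity)]
        ring_nf
        nlinarith
      push_cast at h1 ⊢
      linarith
  rcases x with _ | x
  · simp
  · have := h x
    have h2 : (0 : ℝ) ≤ 1 / (x + 1) := by positivity
    linarith

/-- The sum over sets of primes below `z` dominates half of the harmonic sum. -/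
lemma harmonic_le {x z : ℝ} (hx : 1 ≤ x) (hz : x < z) :
    Real.log x ≤ 2 * ∑ T ∈ (PR 0 z).powerset.filter (fun T : Finset ℕ => ∏ p ∈ T, (p : ℝ) ≤ x),
      1 / ∏ p ∈ T, (p : ℝ) := by
  choose a b hab using fun n : ℕ => Nat.sq_mul_squarefree n
  have h0 : Real.log x ≤ ∑ n ∈ Icc 1 ⌊x⌋₊, (1 : ℝ) / n := by
    have h1 := log_le_harmonic_floor x (by linarith)
    have h2 : ((harmonic ⌊x⌋₊ : ℚ) : ℝ) = ∑ n ∈ Icc 1 ⌊x⌋₊, (1 : ℝ) / n := by
      rw [harmonic_eq_sum_Icc]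
      push_cast
      exact sum_congr rfl fun n _ => by rw [one_div]
    rwa [h2] at h1
  set F := (PR 0 z).powerset.filter (fun T : Finset ℕ => ∏ p ∈ T, (p : ℝ) ≤ x) with hF
  have h1 : ∑ n ∈ Icc 1 ⌊x⌋₊, (1 : ℝ) / n ≤
      ∑ w ∈ (Icc 1 ⌊x⌋₊) ×ˢ F, (1 : ℝ) / (w.1 : ℝ) ^ 2 * (1 / ∏ p ∈ w.2, (p : ℝ)) := by
    have key : ∀ n ∈ Icc 1 ⌊x⌋₊, (b n ∈ Icc 1 ⌊x⌋₊ ∧ (a n).primeFactors ∈ F ∧
        (1 : ℝ) / n = 1 / ((b n : ℕ) : ℝ) ^ 2 * (1 / ∏ p ∈ (a n).primeFactors, (p : ℝ))) := by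
      intro n hn
      rw [mem_Icc] at hn
      obtain ⟨h1, h2⟩ := hab n
      have hb0 : b n ≠ 0 := by
        intro h0; rw [h0] at h1; simp at h1; omega
      have ha0 : a n ≠ 0 := h2.ne_zero
      have hbn : b n ≤ n := by
        calc b n ≤ b n ^ 2 := Nat.le_self_pow two_ne_zero _
          _ ≤ b n ^ 2 * a n := Nat.le_mul_of_pos_right _ (Nat.pos_of_ne_zero ha0)
          _ = n := h1
      have han : a n ≤ n := by
        calc a n ≤ b n ^ 2 * a n := Nat.le_mul_of_pos_left _ (by positivity)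
          _ = n := h1
      have hpf : ∏ p ∈ (a n).primeFactors, (p : ℝ) = a n := by
        rw [← Nat.cast_prod, Nat.prod_primeFactors_of_squarefree h2]
      have hax : ((a n : ℕ) : ℝ) ≤ x := by
        have : a n ≤ ⌊x⌋₊ := han.trans hn.2
        exact (Nat.le_floor_iff (by linarith)).1 this
      refine ⟨mem_Icc.2 ⟨Nat.pos_of_ne_zero hb0, hbn.trans hn.2⟩, ?_, ?_⟩
      · rw [hF, mem_filter, mem_powerset, hpf]
        refine ⟨fun p hp => ?_, hax⟩
        rw [mem_PR]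
        refine ⟨?_, Nat.prime_of_mem_primeFactors hp, by positivity⟩
        have : p ≤ a n := Nat.le_of_mem_primeFactors hp
        have : (p : ℝ) ≤ a n := by exact_mod_cast this
        linarith
      · rw [hpf]
        have : (n : ℝ) = (b n : ℝ) ^ 2 * (a n : ℝ) := by
          rw [← Nat.cast_pow, ← Nat.cast_mul, h1]
        rw [this]
        field_simp
    calc ∑ n ∈ Icc 1 ⌊x⌋₊, (1 : ℝ) / n = ∑ n ∈ Icc 1 ⌊x⌋₊,
          (fun w : ℕ × Finset ℕ => (1 : ℝ) / (w.1 : ℝ) ^ 2 * (1 / ∏ p ∈ w.2, (p : ℝ)))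
            (b n, (a n).primeFactors) := sum_congr rfl fun n hn => (key n hn).2.2
      _ = ∑ w ∈ (Icc 1 ⌊x⌋₊).image (fun n => (b n, (a n).primeFactors)),
          (1 : ℝ) / (w.1 : ℝ) ^ 2 * (1 / ∏ p ∈ w.2, (p : ℝ)) := by
          rw [sum_image]
          intro n hn m hm hnm
          simp only [Prod.mk.injEq] at hnm
          have e1 := Nat.prod_primeFactors_of_squarefree (hab n).2
          have e2 := Nat.prod_primeFactors_of_squarefree (hab m).2
          rw [← (hab n).1, ← (hab m).1, hnm.1, ← e1, ← e2, hnm.2]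
      _ ≤ _ := by
          apply sum_le_sum_of_subset_of_nonneg
          · intro w hw
            rw [mem_image] at hw
            obtain ⟨n, hn, rfl⟩ := hw
            exact mem_product.2 ⟨(key n hn).1, (key n hn).2.1⟩
          · intro w _ _
            positivity
  rw [sum_product] at h1
  refine h0.trans (h1.trans ?_)
  simp_rw [← mul_sum]
  rw [← sum_mul]
  exact mul_le_mul_of_nonneg_right (sum_inv_sq_le _) (sum_nonneg fun T _ => by positivity)

lemma lower {C z₀ : ℝ} (hC : 1 ≤ C) (h3 : 3 ≤ z₀) (h : ∀ z : ℝ, z₀ ≤ z →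
    ∏ p ∈ PR 0 z, (1 + 1 / (p : ℝ)) ≤ C * Real.log z)
    {z₁ z x : ℝ} (hz₁ : z₀ ≤ z₁) (hx : 1 ≤ x) (hxz : x < z) :
    Real.log x / (2 * C * Real.log z₁) ≤ MM (PR z₁ z) x := by
  have hl : 0 < Real.log z₁ := Real.log_pos (by linarith)
  rw [div_le_iff₀ (by positivity)]
  have h1 := harmonic_le hx hxz
  have hM : 0 ≤ MM (PR z₁ z) x := by
    apply sum_nonneg
    intro S hS
    rw [mem_filter, mem_powerset] at hS
    apply div_nonneg zero_le_one
    apply prod_nonneg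
    intro p hp
    have := (mem_PR.1 (hS.1 hp)).2.2
    linarith
  have h2 : ∑ T ∈ (PR 0 z).powerset.filter (fun T : Finset ℕ => ∏ p ∈ T, (p : ℝ) ≤ x),
      1 / ∏ p ∈ T, (p : ℝ) ≤ (∏ p ∈ PR 0 z₁, (1 + 1 / (p : ℝ))) * MM (PR z₁ z) x := by
    rw [prod_one_add, MM, sum_mul_sum, ← sum_product']
    have key : ∀ T ∈ (PR 0 z).powerset.filter (fun T : Finset ℕ => ∏ p ∈ T, (p : ℝ) ≤ x),
        (T ∩ PR 0 z₁, T ∩ PR z₁ z) ∈ (PR 0 z₁).powerset ×ˢ
          ((PR z₁ z).powerset.filter fun S : Finset ℕ => ∏ p ∈ S, (p : ℝ) ≤ x) ∧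
        1 / ∏ p ∈ T, (p : ℝ) ≤ (∏ p ∈ T ∩ PR 0 z₁, 1 / (p : ℝ)) *
          (1 / ∏ p ∈ T ∩ PR z₁ z, ((p : ℝ) - 1)) ∧ T = T ∩ PR 0 z₁ ∪ T ∩ PR z₁ z := by
      intro T hT
      rw [mem_filter, mem_powerset] at hT
      have hTe : T = T ∩ PR 0 z₁ ∪ T ∩ PR z₁ z := by
        rw [← inter_union_distrib_left]
        symm
        rw [inter_eq_left]
        intro p hp
        have hp1 := mem_PR.1 (hT.1 hp)
        rw [mem_union, mem_PR, mem_PR]
        rcases lt_or_ge (p : ℝ) z₁ with h4 | h4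
        · exact Or.inl ⟨h4, hp1.2.1, hp1.2.2⟩
        · exact Or.inr ⟨hp1.1, hp1.2.1, h4⟩
      have hd : Disjoint (T ∩ PR 0 z₁) (T ∩ PR z₁ z) := by
        rw [disjoint_left]
        intro p h1 h2
        have := (mem_PR.1 (mem_inter.1 h1).2).1
        have := (mem_PR.1 (mem_inter.1 h2).2).2.2
        linarith
      have hpe : ∏ p ∈ T, (p : ℝ) = (∏ p ∈ T ∩ PR 0 z₁, (p : ℝ)) * ∏ p ∈ T ∩ PR z₁ z, (p : ℝ) := by
        rw [← prod_union hd, ← hTe]
      have h1p : ∀ p ∈ T, (1 : ℝ) ≤ p := by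
        intro p hp
        have := (mem_PR.1 (hT.1 hp)).2.1.pos
        exact_mod_cast this
      have g1 : 1 ≤ ∏ p ∈ T ∩ PR 0 z₁, (p : ℝ) := by
        rw [← Nat.cast_prod]
        have : 0 < ∏ p ∈ T ∩ PR 0 z₁, p := prod_pos fun p hp =>
          (mem_PR.1 (hT.1 (mem_inter.1 hp).1)).2.1.pos
        exact_mod_cast this
      have g2 : 0 < ∏ p ∈ T ∩ PR z₁ z, ((p : ℝ) - 1) := by
        apply prod_pos
        intro p hp
        have := (mem_PR.1 (mem_inter.1 hp).2).2.2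
        linarith
      have g3 : ∏ p ∈ T ∩ PR z₁ z, ((p : ℝ) - 1) ≤ ∏ p ∈ T ∩ PR z₁ z, (p : ℝ) := by
        apply prod_le_prod
        · intro p hp
          have := (mem_PR.1 (mem_inter.1 hp).2).2.2
          linarith
        · intro p hp
          linarith
      refine ⟨mem_product.2 ⟨mem_powerset.2 inter_subset_right, mem_filter.2
        ⟨mem_powerset.2 inter_subset_right, ?_⟩⟩, ?_, hTe⟩
      · have : 0 ≤ ∏ p ∈ T ∩ PR z₁ z, (p : ℝ) := by positivity
        nlinarith [hT.2]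
      · rw [hpe, prod_div_distrib, prod_const_one, ← one_div_mul_one_div]
        apply mul_le_mul_of_nonneg_left _ (by positivity)
        exact one_div_le_one_div_of_le g2 g3
    calc ∑ T ∈ (PR 0 z).powerset.filter (fun T : Finset ℕ => ∏ p ∈ T, (p : ℝ) ≤ x), 1 / ∏ p ∈ T, (p : ℝ)
        ≤ ∑ T ∈ (PR 0 z).powerset.filter (fun T : Finset ℕ => ∏ p ∈ T, (p : ℝ) ≤ x),
          (fun w : Finset ℕ × Finset ℕ => (∏ p ∈ w.1, 1 / (p : ℝ)) *
            (1 / ∏ p ∈ w.2, ((p : ℝ) - 1))) (T ∩ PR 0 z₁, T ∩ PR z₁ z) :=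
          sum_le_sum fun T hT => (key T hT).2.1
      _ = ∑ w ∈ ((PR 0 z).powerset.filter (fun T : Finset ℕ => ∏ p ∈ T, (p : ℝ) ≤ x)).image
            (fun T => (T ∩ PR 0 z₁, T ∩ PR z₁ z)), (∏ p ∈ w.1, 1 / (p : ℝ)) *
            (1 / ∏ p ∈ w.2, ((p : ℝ) - 1)) := by
          rw [sum_image]
          intro T hT T' hT' hTT
          simp only [Prod.mk.injEq] at hTT
          rw [(key T hT).2.2, (key T' hT').2.2, hTT.1, hTT.2]
      _ ≤ _ := by
          apply sum_le_sum_of_subset_of_nonneg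
          · intro w hw
            rw [mem_image] at hw
            obtain ⟨T, hT, rfl⟩ := hw
            exact (key T hT).1
          · intro w hw _
            rw [mem_product, mem_filter, mem_powerset, mem_powerset] at hw
            apply mul_nonneg
            · positivity
            · apply div_nonneg zero_le_one
              apply prod_nonneg
              intro p hp
              have := (mem_PR.1 (hw.2.1 hp)).2.2
              linarith
  have h4 := h z₁ hz₁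
  calc Real.log x ≤ 2 * ((∏ p ∈ PR 0 z₁, (1 + 1 / (p : ℝ))) * MM (PR z₁ z) x) := by linarith
    _ ≤ 2 * ((C * Real.log z₁) * MM (PR z₁ z) x) := by gcongr
    _ = _ := by ring

/-- Linear combinations of the counting sums. -/
lemma Sg_comb (P : Finset ℕ) (J : Finset ℕ) (β : ℕ → ℝ) (x : ℕ → ℝ) :
    Sg P (fun S => ∑ j ∈ J, β j * if ∏ p ∈ S, (p : ℝ) ≤ x j then 1 else 0) =
      ∑ j ∈ J, β j * MM P (x j) := by
  unfold Sg MM
  simp_rw [sum_div, mul_sum]
  rw [sum_comm]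
  refine sum_congr rfl fun j _ => ?_
  rw [sum_filter]
  refine sum_congr rfl fun S _ => ?_
  split_ifs <;> ring

lemma Sg_mono {P : Finset ℕ} (hP : ∀ p ∈ P, (1 : ℝ) ≤ p) {f g : Finset ℕ → ℝ}
    (h : ∀ S ⊆ P, f S ≤ g S) : Sg P f ≤ Sg P g := by
  unfold Sg
  refine sum_le_sum fun S hS => ?_
  rw [mem_powerset] at hS
  refine div_le_div_of_nonneg_right (h S hS) (prod_nonneg fun p hp => ?_)
  linarith [hP p (hS hp)]

/-- Dyadic lower bound for `1 / x`. -/
lemma dyadic_low {x : ℝ} (hx : 1 ≤ x) (J : ℕ) :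
    ∑ j ∈ Icc 1 J, (1 / 2 : ℝ) ^ (j + 1) * (if x ≤ 2 ^ j then 1 else 0) ≤ 1 / x := by
  have hx0 : 0 < 1 / x := by positivity
  have key : ∀ J : ℕ, (x ≤ 2 ^ J → ∑ j ∈ Icc 1 J, (1 / 2 : ℝ) ^ (j + 1) *
      (if x ≤ 2 ^ j then 1 else 0) ≤ 1 / x - (1 / 2) ^ (J + 1)) ∧
      (2 ^ J < x → ∑ j ∈ Icc 1 J, (1 / 2 : ℝ) ^ (j + 1) *
      (if x ≤ 2 ^ j then 1 else 0) = 0) := by
    intro J
    induction J with
    | zero =>
      refine ⟨fun h => ?_, fun _ => by simp⟩
      have : x = 1 := le_antisymm (by simpa using h) hx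
      subst this
      norm_num
    | succ J ih =>
      rw [sum_Icc_succ_top (by omega)]
      rcases le_or_gt x (2 ^ J) with h1 | h1
      · have h2 : x ≤ 2 ^ (J + 1) := h1.trans (pow_le_pow_right₀ (by norm_num) (by omega))
        refine ⟨fun _ => ?_, fun h => absurd h2 (not_le.2 h)⟩
        rw [if_pos h2, mul_one]
        have := ih.1 h1
        have e : (1 / 2 : ℝ) ^ (J + 1) = 2 * (1 / 2) ^ (J + 1 + 1) := by
          rw [pow_succ _ (J + 1)]; ring
        linarith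
      · rw [ih.2 h1, zero_add]
        refine ⟨fun h2 => ?_, fun h2 => by rw [if_neg (not_le.2 h2), mul_zero]⟩
        rw [if_pos h2, mul_one]
        have e : (1 / 2 : ℝ) ^ (J + 1) = 2 * (1 / 2) ^ (J + 1 + 1) := by
          rw [pow_succ _ (J + 1)]; ring
        have : (1 / 2 : ℝ) ^ (J + 1) ≤ 1 / x := by
          rw [one_div_pow]
          exact one_div_le_one_div_of_le (by linarith) h2
        linarith
  rcases le_or_gt x (2 ^ J) with h1 | h1
  · have := (key J).1 h1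
    have : (0 : ℝ) ≤ (1 / 2) ^ (J + 1) := by positivity
    linarith
  · rw [(key J).2 h1]
    exact hx0.le

/-- Dyadic upper bound for `1 / (1 + y)`. -/
lemma dyadic_up {y : ℝ} (hy : 0 ≤ y) (n : ℕ) (hn : y < 2 ^ (n + 1)) :
    ∃ j ∈ range (n + 2), y ≤ 2 ^ j ∧ 1 / (1 + y) ≤ 2 * (1 / 2) ^ j := by
  rcases lt_or_ge y 1 with h1 | h1
  · refine ⟨0, mem_range.2 (by omega), by simpa using h1.le, ?_⟩
    rw [div_le_iff₀ (by linarith)]
    simp only [pow_zero]
    linarith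
  · obtain ⟨m, hm1, hm2⟩ := exists_nat_pow_near h1 (by norm_num : (1 : ℝ) < 2)
    refine ⟨m + 1, mem_range.2 ?_, hm2.le, ?_⟩
    · have : (2 : ℝ) ^ m < 2 ^ (n + 1) := lt_of_le_of_lt hm1 hn
      have := (pow_lt_pow_iff_right₀ (by norm_num : (1 : ℝ) < 2)).1 this
      omega
    · rw [pow_succ, one_div_pow]
      have h2 : (0 : ℝ) < 2 ^ m := by positivity
      rw [div_le_iff₀ (by linarith)]
      field_simp
      linarith

lemma geom_le (n : ℕ) : ∑ j ∈ range n, (1 / 2 : ℝ) ^ j ≤ 2 := by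
  have := geom_sum_eq (by norm_num : (1 / 2 : ℝ) ≠ 1) n
  rw [this]
  have : (0 : ℝ) ≤ (1 / 2) ^ n := by positivity
  rw [div_le_iff_of_neg (by norm_num)]
  linarith

theorem stmt_SUMS : Stmt_SUMS := by
  obtain ⟨u₀, hu3, hup⟩ := prodUB
  obtain ⟨C, z₀, hC, hz3, hlo⟩ := smallUB
  refine ⟨36 * C, by linarith, max u₀ z₀, ?_⟩
  intro L u₁ A₁ T z hL hu₁ hA₁ hT huA hzL hTz
  have hzu : u₀ ≤ Real.exp (u₁ * L) := (le_max_left _ _).trans hzL
  have hzz : z₀ ≤ Real.exp (u₁ * L) := (le_max_right _ _).trans hzL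
  set P := PR (Real.exp (u₁ * L)) z with hP
  have hPp : ∀ p ∈ P, (1 : ℝ) ≤ p := by
    intro p hp
    have := (mem_PR.1 hp).2.2
    linarith
  have hAu : 0 < A₁ * u₁ := by positivity
  have hAu' : 1 ≤ 1 / (A₁ * u₁) := by
    rw [le_div_iff₀ hAu]; linarith
  have hAT : 1 ≤ A₁ * T := by nlinarith
  have hup' : ∀ v : ℝ, 0 ≤ v → MM P (Real.exp (v * L)) ≤ 2 * (1 + v / u₁) := by
    intro v hv
    have := upper hu3 hup (z := z) hzu (Real.one_le_exp (by positivity : 0 ≤ v * L))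
    rwa [Real.log_exp, Real.log_exp, mul_div_mul_right _ _ hL.ne'] at this
  have hlo' : ∀ v : ℝ, 0 ≤ v → v ≤ T → v / (2 * C * u₁) ≤ MM P (Real.exp (v * L)) := by
    intro v hv hvT
    have h1 : Real.exp (v * L) < z :=
      lt_of_le_of_lt (Real.exp_le_exp.2 (mul_le_mul_of_nonneg_right hvT hL.le)) hTz
    have := lower hC hz3 hlo hzz (Real.one_le_exp (by positivity : 0 ≤ v * L)) h1
    rwa [Real.log_exp, Real.log_exp, ← mul_assoc, mul_div_mul_right _ _ hL.ne'] at this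
  have hu0 : ∀ S ⊆ P, 0 ≤ Real.log (∏ p ∈ S, (p : ℝ)) / L := by
    intro S hS
    apply div_nonneg _ hL.le
    apply Real.log_nonneg
    calc (1 : ℝ) = ∏ p ∈ S, (1 : ℝ) := by simp
      _ ≤ _ := prod_le_prod (fun _ _ => zero_le_one) fun p hp => hPp p (hS hp)
  have hcond : ∀ S ⊆ P, ∀ v : ℝ, (∏ p ∈ S, (p : ℝ) ≤ Real.exp (v * L) ↔
      Real.log (∏ p ∈ S, (p : ℝ)) / L ≤ v) := by
    intro S hS v
    have hpos : 0 < ∏ p ∈ S, (p : ℝ) := prod_pos fun p hp => by linarith [hPp p (hS hp)]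
    rw [div_le_iff₀ hL, Real.log_le_iff_le_exp hpos]
  have hh : ∀ S, hw A₁ T L S = if Real.log (∏ p ∈ S, (p : ℝ)) / L ≤ T then
      1 / (1 + A₁ * (Real.log (∏ p ∈ S, (p : ℝ)) / L)) else 0 := by
    intro S
    unfold hw
    simp only [div_le_iff₀ hL]
  obtain ⟨n, hn1, hn2⟩ := exists_nat_pow_near hAT (by norm_num : (1 : ℝ) < 2)
  have hl2 : 0.6931471803 < Real.log 2 := Real.log_two_gt_d9
  have hl2' : Real.log 2 < 0.6931471808 := Real.log_two_lt_d9
  -- upper bound for `hw`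
  have hwup : ∀ S ⊆ P, ∃ j : ℕ, (j ∈ range (n + 2) ∧
      ∏ p ∈ S, (p : ℝ) ≤ Real.exp (2 ^ j / A₁ * L) ∧
      hw A₁ T L S ≤ 2 * (1 / 2) ^ j) ∨ hw A₁ T L S = 0 := by
    intro S hS
    rw [hh]
    split_ifs with h1
    · have h2 := hu0 S hS
      obtain ⟨j, hj, hj1, hj2⟩ := dyadic_up (y := A₁ * (Real.log (∏ p ∈ S, (p : ℝ)) / L))
        (by positivity) n (lt_of_le_of_lt (mul_le_mul_of_nonneg_left h1 (by linarith)) hn2)
      refine ⟨j, Or.inl ⟨hj, ?_, hj2⟩⟩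
      rw [hcond S hS, le_div_iff₀ (by linarith)]
      linarith
    · exact ⟨0, Or.inr rfl⟩
  have hw0 : ∀ S ⊆ P, 0 ≤ hw A₁ T L S := by
    intro S hS
    rw [hh]
    have := hu0 S hS
    split_ifs
    · positivity
    · exact le_rfl
  have hMM : ∀ j : ℕ, MM P (Real.exp (2 ^ j / A₁ * L)) ≤ 4 * (2 ^ j / (A₁ * u₁)) := by
    intro j
    have h1 := hup' (2 ^ j / A₁) (by positivity)
    have h2 : (1 : ℝ) ≤ 2 ^ j := one_le_pow₀ (by norm_num)
    have h3 : (1 : ℝ) ≤ 2 ^ j / (A₁ * u₁) := by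
      rw [le_div_iff₀ hAu]
      nlinarith
    rw [div_div] at h1
    linarith
  refine ⟨?_, ?_, ?_, ?_⟩
  · -- (i)
    have h1 : Sg P (fun S => hw A₁ T L S ^ 2) ≤ Sg P (fun S => ∑ j ∈ range (n + 2),
        (4 * (1 / 4 : ℝ) ^ j) * if ∏ p ∈ S, (p : ℝ) ≤ Real.exp (2 ^ j / A₁ * L) then 1 else 0) := by
      apply Sg_mono hPp
      intro S hS
      obtain ⟨j, ⟨hj, hj1, hj2⟩ | h0⟩ := hwup S hS
      · calc hw A₁ T L S ^ 2 ≤ (2 * (1 / 2) ^ j) ^ 2 := pow_le_pow_left₀ (hw0 S hS) hj2 2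
          _ = (4 * (1 / 4 : ℝ) ^ j) *
              if ∏ p ∈ S, (p : ℝ) ≤ Real.exp (2 ^ j / A₁ * L) then 1 else 0 := by
            rw [if_pos hj1, mul_one, mul_pow, ← pow_mul, mul_comm j 2, pow_mul]
            norm_num
          _ ≤ _ := single_le_sum (f := fun j : ℕ => (4 * (1 / 4 : ℝ) ^ j) *
              if ∏ p ∈ S, (p : ℝ) ≤ Real.exp (2 ^ j / A₁ * L) then 1 else 0)
              (fun i _ => by positivity) hj
      · rw [h0]
        have : 0 ≤ ∑ j ∈ range (n + 2), (4 * (1 / 4 : ℝ) ^ j) *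
            if ∏ p ∈ S, (p : ℝ) ≤ Real.exp (2 ^ j / A₁ * L) then 1 else 0 :=
          sum_nonneg fun i _ => by positivity
        simpa using this
    rw [Sg_comb] at h1
    calc Sg P (fun S => hw A₁ T L S ^ 2)
        ≤ ∑ j ∈ range (n + 2), 4 * (1 / 4 : ℝ) ^ j * MM P (Real.exp (2 ^ j / A₁ * L)) := h1
      _ ≤ ∑ j ∈ range (n + 2), 16 / (A₁ * u₁) * (1 / 2 : ℝ) ^ j := by
          refine sum_le_sum fun j _ => ?_
          calc 4 * (1 / 4 : ℝ) ^ j * MM P (Real.exp (2 ^ j / A₁ * L))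
              ≤ 4 * (1 / 4 : ℝ) ^ j * (4 * (2 ^ j / (A₁ * u₁))) :=
                mul_le_mul_of_nonneg_left (hMM j) (by positivity)
            _ = 16 / (A₁ * u₁) * ((1 / 4 : ℝ) ^ j * 2 ^ j) := by ring
            _ = 16 / (A₁ * u₁) * (1 / 2 : ℝ) ^ j := by
                rw [← mul_pow]; norm_num
      _ = 16 / (A₁ * u₁) * ∑ j ∈ range (n + 2), (1 / 2 : ℝ) ^ j := by rw [mul_sum]
      _ ≤ 16 / (A₁ * u₁) * 2 := mul_le_mul_of_nonneg_left (geom_le _) (by positivity)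
      _ ≤ 36 * C / (u₁ * A₁) := by
          rw [mul_comm u₁ A₁, div_mul_eq_mul_div]
          apply div_le_div_of_nonneg_right _ hAu.le
          linarith
  · -- (ii)
    have h1 : Sg P (fun S => ∑ j ∈ ({0} : Finset ℕ), (1 / 4 : ℝ) *
        if ∏ p ∈ S, (p : ℝ) ≤ Real.exp (1 / A₁ * L) then 1 else 0) ≤
        Sg P (fun S => hw A₁ T L S ^ 2) := by
      apply Sg_mono hPp
      intro S hS
      rw [sum_singleton]
      split_ifs with h2
      · rw [hcond S hS] at h2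
        have h3 : Real.log (∏ p ∈ S, (p : ℝ)) / L ≤ T := by
          refine h2.trans ?_
          rw [div_le_iff₀ (by linarith)]
          nlinarith
        rw [hh, if_pos h3]
        have h4 : A₁ * (Real.log (∏ p ∈ S, (p : ℝ)) / L) ≤ 1 := by
          rw [le_div_iff₀ (by linarith)] at h2
          linarith
        have h5 : 0 ≤ A₁ * (Real.log (∏ p ∈ S, (p : ℝ)) / L) :=
          mul_nonneg (by linarith) (hu0 S hS)
        have h6 : (1 / 2 : ℝ) ≤ 1 / (1 + A₁ * (Real.log (∏ p ∈ S, (p : ℝ)) / L)) :=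
          one_div_le_one_div_of_le (by linarith) (by linarith)
        nlinarith
      · rw [mul_zero]
        positivity
    rw [Sg_comb P {0} (fun _ => 1 / 4) (fun _ => Real.exp (1 / A₁ * L)), sum_singleton] at h1
    have h2 := hlo' (1 / A₁) (by positivity) (by
      rw [div_le_iff₀ (by linarith)]
      nlinarith)
    refine le_trans ?_ h1
    calc 1 / (36 * C * (u₁ * A₁)) ≤ 1 / (8 * C * (u₁ * A₁)) := by
          apply one_div_le_one_div_of_le (by positivity)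
          nlinarith [mul_pos hu₁ (by linarith : 0 < A₁), mul_pos (mul_pos hu₁ (by linarith : 0 < A₁))
            (by linarith : 0 < C)]
      _ = 1 / 4 * (1 / A₁ / (2 * C * u₁)) := by
          field_simp
          norm_num
      _ ≤ _ := by linarith
  · -- (iii)
    obtain ⟨J, hJ1, hJ2⟩ := exists_nat_pow_near (by linarith : 1 ≤ 1 + A₁ * T)
      (by norm_num : (1 : ℝ) < 2)
    have hJ0 : 1 ≤ J := by
      by_contra hc
      have : J = 0 := by omega
      subst this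
      norm_num at hJ2
      linarith
    have h1 : Sg P (fun S => ∑ j ∈ Icc 1 J, (1 / 2 : ℝ) ^ (j + 1) *
        if ∏ p ∈ S, (p : ℝ) ≤ Real.exp ((2 ^ j - 1) / A₁ * L) then 1 else 0) ≤
        Sg P (hw A₁ T L) := by
      apply Sg_mono hPp
      intro S hS
      have h2 := hu0 S hS
      rw [hh]
      have h3 : ∀ j ∈ Icc 1 J, (∏ p ∈ S, (p : ℝ) ≤ Real.exp ((2 ^ j - 1) / A₁ * L) ↔
          1 + A₁ * (Real.log (∏ p ∈ S, (p : ℝ)) / L) ≤ 2 ^ j) := by
        intro j _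
        rw [hcond S hS, le_div_iff₀ (by linarith)]
        constructor <;> intro h <;> linarith
      split_ifs with h4
      · rw [sum_congr rfl fun j hj => by rw [if_congr (h3 j hj) rfl rfl]]
        exact dyadic_low (by nlinarith) J
      · apply le_of_eq
        apply sum_eq_zero
        intro j hj
        rw [if_neg, mul_zero]
        rw [h3 j hj]
        push Not at h4 ⊢
        have h5 : (2 : ℝ) ^ j ≤ 2 ^ J := pow_le_pow_right₀ (by norm_num) (mem_Icc.1 hj).2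
        nlinarith
    rw [Sg_comb] at h1
    refine le_trans ?_ h1
    have h2 : ∀ j ∈ Icc 1 J, 1 / (8 * C * (u₁ * A₁)) ≤
        (1 / 2 : ℝ) ^ (j + 1) * MM P (Real.exp ((2 ^ j - 1) / A₁ * L)) := by
      intro j hj
      rw [mem_Icc] at hj
      have g1 : (2 : ℝ) ≤ 2 ^ j := by
        calc (2 : ℝ) = 2 ^ 1 := by norm_num
          _ ≤ 2 ^ j := pow_le_pow_right₀ (by norm_num) hj.1
      have g2 : (2 : ℝ) ^ j ≤ 2 ^ J := pow_le_pow_right₀ (by norm_num) hj.2
      have g3 := hlo' ((2 ^ j - 1) / A₁) (by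
        apply div_nonneg <;> linarith) (by
        rw [div_le_iff₀ (by linarith)]; linarith)
      refine le_trans ?_ (mul_le_mul_of_nonneg_left g3 (by positivity))
      rw [one_div_pow, pow_succ]
      have g4 : (2 : ℝ) ^ j - 1 ≥ 2 ^ j / 2 := by linarith
      have g5 : (0 : ℝ) < 2 ^ j := by positivity
      calc 1 / (8 * C * (u₁ * A₁)) = 1 / (2 ^ j * 2) * (2 ^ j / 2 / A₁ / (2 * C * u₁)) := by
            field_simp
            norm_num
        _ ≤ _ := by gcongr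
    have h3 := card_nsmul_le_sum (Icc 1 J) _ _ h2
    rw [Nat.card_Icc, nsmul_eq_mul, Nat.add_sub_cancel] at h3
    refine le_trans ?_ h3
    have h5 : Real.log (1 + A₁ * T) ≤ 2 * J := by
      have g1 : Real.log (1 + A₁ * T) ≤ Real.log (2 ^ (J + 1)) :=
        Real.log_le_log (by linarith) hJ2.le
      rw [Real.log_pow] at g1
      push_cast at g1
      have g2 : (1 : ℝ) ≤ J := by exact_mod_cast hJ0
      nlinarith
    have h6 : 0 < C * (u₁ * A₁) := by positivity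
    calc Real.log (1 + A₁ * T) / (36 * C * (u₁ * A₁)) ≤ 2 * J / (36 * C * (u₁ * A₁)) := by
          apply div_le_div_of_nonneg_right h5 (by positivity)
      _ = (J : ℝ) / (C * (u₁ * A₁)) * (1 / 18) := by
          field_simp
          norm_num
      _ ≤ (J : ℝ) / (C * (u₁ * A₁)) * (1 / 8) := by
          apply mul_le_mul_of_nonneg_left (by norm_num) (by positivity)
      _ = _ := by
          field_simp
  · -- (iv)
    have h1 : Sg P (fun S => hw A₁ T L S ^ 2 * (Real.log (∏ p ∈ S, (p : ℝ)) / L)) ≤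
        Sg P (fun S => ∑ j ∈ range (n + 2), (2 / A₁ * (1 / 2 : ℝ) ^ j) *
          if ∏ p ∈ S, (p : ℝ) ≤ Real.exp (2 ^ j / A₁ * L) then 1 else 0) := by
      apply Sg_mono hPp
      intro S hS
      have h2 := hu0 S hS
      obtain ⟨j, ⟨hj, hj1, hj2⟩ | h0⟩ := hwup S hS
      · have h3 : hw A₁ T L S * (Real.log (∏ p ∈ S, (p : ℝ)) / L) ≤ 1 / A₁ := by
          rw [hh]
          split_ifs
          · rw [div_mul_eq_mul_div, one_mul, div_le_div_iff₀ (by positivity) (by linarith)]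
            linarith
          · rw [zero_mul]
            positivity
        calc hw A₁ T L S ^ 2 * (Real.log (∏ p ∈ S, (p : ℝ)) / L)
            = hw A₁ T L S * (hw A₁ T L S * (Real.log (∏ p ∈ S, (p : ℝ)) / L)) := by ring
          _ ≤ (2 * (1 / 2) ^ j) * (1 / A₁) :=
              mul_le_mul hj2 h3 (mul_nonneg (hw0 S hS) h2) (by positivity)
          _ = (2 / A₁ * (1 / 2 : ℝ) ^ j) *
              if ∏ p ∈ S, (p : ℝ) ≤ Real.exp (2 ^ j / A₁ * L) then 1 else 0 := by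
            rw [if_pos hj1]
            ring
          _ ≤ _ := single_le_sum (f := fun j : ℕ => (2 / A₁ * (1 / 2 : ℝ) ^ j) *
              if ∏ p ∈ S, (p : ℝ) ≤ Real.exp (2 ^ j / A₁ * L) then 1 else 0)
              (fun i _ => by positivity) hj
      · rw [h0]
        have : 0 ≤ ∑ j ∈ range (n + 2), (2 / A₁ * (1 / 2 : ℝ) ^ j) *
            if ∏ p ∈ S, (p : ℝ) ≤ Real.exp (2 ^ j / A₁ * L) then 1 else 0 :=
          sum_nonneg fun i _ => by positivity
        simpa using this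
    rw [Sg_comb] at h1
    have h5 : (n + 2) * Real.log 2 ≤ 3 * Real.log (1 + A₁ * T) := by
      have g1 : Real.log (2 ^ n) ≤ Real.log (1 + A₁ * T) :=
        Real.log_le_log (by positivity) (by linarith)
      rw [Real.log_pow] at g1
      have g2 : Real.log 2 ≤ Real.log (1 + A₁ * T) := Real.log_le_log (by norm_num) (by linarith)
      linarith
    have h6 : (n + 2 : ℝ) ≤ 9 / 2 * Real.log (1 + A₁ * T) := by
      have g0 : (0 : ℝ) ≤ n := by positivity
      nlinarith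
    have h7 : 0 ≤ Real.log (1 + A₁ * T) := Real.log_nonneg (by linarith)
    calc Sg P (fun S => hw A₁ T L S ^ 2 * (Real.log (∏ p ∈ S, (p : ℝ)) / L))
        ≤ ∑ j ∈ range (n + 2), 2 / A₁ * (1 / 2 : ℝ) ^ j * MM P (Real.exp (2 ^ j / A₁ * L)) := h1
      _ ≤ ∑ j ∈ range (n + 2), 8 / (u₁ * A₁ ^ 2) := by
          refine sum_le_sum fun j _ => ?_
          calc 2 / A₁ * (1 / 2 : ℝ) ^ j * MM P (Real.exp (2 ^ j / A₁ * L))
              ≤ 2 / A₁ * (1 / 2 : ℝ) ^ j * (4 * (2 ^ j / (A₁ * u₁))) :=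
                mul_le_mul_of_nonneg_left (hMM j) (by positivity)
            _ = 8 / (u₁ * A₁ ^ 2) := by
                rw [one_div_pow]
                field_simp
                norm_num
      _ = (n + 2 : ℝ) * (8 / (u₁ * A₁ ^ 2)) := by
          rw [sum_const, card_range, nsmul_eq_mul]
          push_cast
          ring
      _ ≤ (9 / 2 * Real.log (1 + A₁ * T)) * (8 / (u₁ * A₁ ^ 2)) :=
          mul_le_mul_of_nonneg_right h6 (by positivity)
      _ = 36 * Real.log (1 + A₁ * T) / (u₁ * A₁ ^ 2) := by ring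
      _ ≤ 36 * C * Real.log (1 + A₁ * T) / (u₁ * A₁ ^ 2) := by
          apply div_le_div_of_nonneg_right _ (by positivity)
          nlinarith

end Pool.Agent.GapTwo.SUMS_

namespace Pool.Agent.GapTwo

theorem stmt_SUMS : Stmt_SUMS := SUMS_.stmt_SUMS

end Pool.Agent.GapTwo
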