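import Pool.Agent.Work.MP_1ea053_nt.IDEALC
import Pool.Agent.Work.MP_1ea053_nt.SUMS
import Pool.Agent.Work.MP_1ea053_nt.BHM

/-!
# Block IDEAL (helper1): assembly.
-/

set_option autoImplicit false

namespace Pool.Agent.GapTwo.IDEAL_

open Finset Filter
open scoped Classical Topology

lemma log_prod_nonneg {P S : Finset ℕ} (hP : ∀ p ∈ P, 2 ≤ p) (hS : S ⊆ P) :
    0 ≤ Real.log (∏ p ∈ S, (p : ℝ)) := by
  apply Real.log_nonneg
  calc (1 : ℝ) = ∏ p ∈ S, (1 : ℝ) := by simp
    _ ≤ _ := prod_le_prod (fun _ _ => zero_le_one) fun p hp => by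
      have : (2 : ℝ) ≤ p := by exact_mod_cast hP p (hS hp)
      linarith

lemma prod_pos' {P S : Finset ℕ} (hP : ∀ p ∈ P, 2 ≤ p) (hS : S ⊆ P) :
    0 < ∏ p ∈ S, (p : ℝ) := prod_pos fun p hp => by
  have : (2 : ℝ) ≤ p := by exact_mod_cast hP p (hS hp)
  linarith

/-- The one variable weight satisfies the hypotheses. -/
lemma hw_wt {A₁ T L : ℝ} {P : Finset ℕ} (hA : 1 ≤ A₁) (hL : 0 < L)
    (hP : ∀ p ∈ P, 2 ≤ p) : Wt (hw A₁ T L) P := by
  refine ⟨hP, fun S hS => ?_, fun S S' hSS hS' => ?_⟩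
  · unfold hw
    have h1 := log_prod_nonneg hP hS
    split_ifs
    · have : 0 ≤ A₁ * (Real.log (∏ p ∈ S, (p : ℝ)) / L) := by positivity
      positivity
    · exact le_rfl
  · have h1 := log_prod_nonneg hP (hSS.trans hS')
    have h2 : Real.log (∏ p ∈ S, (p : ℝ)) ≤ Real.log (∏ p ∈ S', (p : ℝ)) := by
      apply Real.log_le_log (prod_pos' hP (hSS.trans hS'))
      rw [← prod_sdiff hSS]
      apply le_mul_of_one_le_left (prod_pos' hP (hSS.trans hS')).le
      calc (1 : ℝ) = ∏ p ∈ S' \ S, (1 : ℝ) := by simp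
        _ ≤ _ := prod_le_prod (fun _ _ => zero_le_one) fun p hp => by
          have : (2 : ℝ) ≤ p := by exact_mod_cast hP p (hS' (mem_sdiff.1 hp).1)
          linarith
    unfold hw
    by_cases h3 : Real.log (∏ p ∈ S', (p : ℝ)) ≤ T * L
    · rw [if_pos h3, if_pos (h2.trans h3)]
      have h4 : 0 ≤ A₁ * (Real.log (∏ p ∈ S, (p : ℝ)) / L) := by positivity
      apply one_div_le_one_div_of_le (by positivity)
      gcongr
    · rw [if_neg h3]
      split_ifs
      · have h4 : 0 ≤ A₁ * (Real.log (∏ p ∈ S, (p : ℝ)) / L) := by positivity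
        positivity
      · exact le_rfl

lemma Sg_nonneg {P : Finset ℕ} (hP : ∀ p ∈ P, 2 ≤ p) {f : Finset ℕ → ℝ}
    (hf : ∀ S ⊆ P, 0 ≤ f S) : 0 ≤ Sg P f := by
  unfold Sg
  refine sum_nonneg fun S hS => ?_
  rw [mem_powerset] at hS
  exact div_nonneg (hf S hS) (phip hP hS).le

/-- Choice of the large parameter. -/
lemma exists_A (θ c : ℝ) (hθ : 0 < θ) : ∃ A₁ : ℝ, 1 ≤ A₁ ∧ Real.log (1 + A₁) ≤ θ * A₁ ∧
    c ≤ A₁ := by
  have h1 : Tendsto (fun x : ℝ => Real.log x / x) atTop (𝓝 0) := by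
    have := Real.isLittleO_log_id_atTop.tendsto_div_nhds_zero
    exact this
  have h2 : ∀ᶠ x : ℝ in atTop, Real.log x / x < θ / 2 :=
    h1.eventually_lt_const (by positivity)
  obtain ⟨x₀, hx₀⟩ := eventually_atTop.1 h2
  refine ⟨max (max x₀ c) 1, le_max_right _ _, ?_, (le_max_right _ _).trans (le_max_left _ _)⟩
  set A := max (max x₀ c) 1 with hA
  have hA1 : 1 ≤ A := le_max_right _ _
  have hAx : x₀ ≤ A := (le_max_left _ _).trans (le_max_left _ _)
  have h3 := hx₀ (1 + A) (by linarith)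
  rw [div_lt_iff₀ (by linarith)] at h3
  nlinarith

theorem stmt_IDEAL : Stmt_IDEAL := by
  intro ε δ hε hδ
  obtain ⟨C, hC, z₀, hS⟩ := stmt_SUMS
  obtain ⟨u₀, hu3, hup⟩ := SUMS_.prodUB
  set ε₁ : ℝ := min ε 1 / 4 with hε₁def
  have hm0 : 0 < min ε 1 := lt_min hε one_pos
  have hε₁ : 0 < ε₁ := by positivity
  have hε₁' : ε₁ ≤ 1 / 4 := by
    have := min_le_right ε 1
    linarith
  have hε₁'' : 4 * ε₁ ≤ ε := by
    have := min_le_left ε 1
    linarith
  obtain ⟨B, hB⟩ := stmt_BHM ε₁ hε₁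
  set η : ℝ := min (min δ 1) (δ / (B + 1)) with hη
  have hB0 : (0 : ℝ) < B + 1 := by positivity
  have hη0 : 0 < η := lt_min (lt_min hδ one_pos) (by positivity)
  have hηδ : η ≤ δ := (min_le_left _ _).trans (min_le_left _ _)
  have hη1 : η ≤ 1 := (min_le_left _ _).trans (min_le_right _ _)
  have hηB : B * η ≤ δ := by
    have h1 : η ≤ δ / (B + 1) := min_le_right _ _
    rw [le_div_iff₀ hB0] at h1
    nlinarith
  refine ⟨η, hη0, hηδ, ?_⟩
  intro C₀ ε₃ hC₀ hε₃
  have hC0 : 0 < C := by linarith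
  set θ : ℝ := ε₁ / (2 * C ^ 2) with hθdef
  have hθ : 0 < θ := by positivity
  obtain ⟨A₁, hA1, hA2, hA3⟩ := exists_A θ (26 * C ^ 3 * C₀ / (δ * θ ^ 2)) hθ
  have hA0 : 0 < A₁ := by linarith
  rw [div_le_iff₀ (by positivity)] at hA3
  set T : ℝ := (Real.exp (θ * A₁) - 1) / A₁ with hTdef
  have hT : 1 ≤ T := by
    rw [hTdef, le_div_iff₀ hA0]
    rw [Real.log_le_iff_le_exp (by linarith)] at hA2
    linarith
  have hT0 : 0 < T := by linarith
  have hlogT : Real.log (1 + A₁ * T) = θ * A₁ := by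
    have : 1 + A₁ * T = Real.exp (θ * A₁) := by
      rw [hTdef]
      field_simp
      ring
    rw [this, Real.log_exp]
  obtain ⟨k, hk⟩ := exists_nat_gt (max (2 * T) (δ * T / η))
  have hk1 : 2 * T < k := lt_of_le_of_lt (le_max_left _ _) hk
  have hk2 : δ * T / η < k := lt_of_le_of_lt (le_max_right _ _) hk
  have hk0 : (0 : ℝ) < k := by linarith
  have hkn : 1 ≤ k := by
    have : 0 < k := by exact_mod_cast hk0
    omega
  set K : ℝ := 26 * k with hK
  have hK0 : 0 < K := by positivity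
  have hKk : (k : ℝ) ≤ K := by linarith
  set u₁ : ℝ := min (1 / A₁) (ε₃ / δ) with hu₁
  have hu0 : 0 < u₁ := lt_min (by positivity) (by positivity)
  have hu1 : u₁ * A₁ ≤ 1 := by
    have : u₁ ≤ 1 / A₁ := min_le_left _ _
    rwa [le_div_iff₀ hA0] at this
  have hu2 : u₁ * δ ≤ ε₃ := by
    have : u₁ ≤ ε₃ / δ := min_le_right _ _
    rwa [le_div_iff₀ hδ] at this
  have hu1' : u₁ ≤ 1 := by nlinarith
  set η₁ : ℝ := u₁ * δ / K with hη₁
  have hη₁0 : 0 < η₁ := by positivity
  have hδT : δ * T / K < η := by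
    rw [div_lt_iff₀ hη0] at hk2
    rw [div_lt_iff₀ hK0]
    nlinarith
  have hη₁η : η₁ < η := by
    refine lt_of_le_of_lt ?_ hδT
    apply div_le_div_of_nonneg_right _ hK0.le
    nlinarith
  have hcard : Fintype.card (Fin 26 × Fin k) = 26 * k := by simp
  set Cb : ℝ := max 2 ((2 * (η / η₁)) ^ (26 * k)) with hCb
  refine ⟨k, η₁, Cb, hkn, hη₁0, hη₁η, ?_, by linarith [le_max_left 2 ((2 * (η / η₁)) ^ (26 * k))],
    ?_⟩
  · have : 26 * (k : ℝ) * η₁ = u₁ * δ := by
      rw [hη₁, hK]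
      field_simp
    rw [this]
    exact hu2
  obtain ⟨N₁, hN₁⟩ := hB η₁ η hη₁0 hη₁η hη1
  have hlim : ∀ᶠ N : ℝ in atTop, max z₀ u₀ ≤ N ^ η₁ :=
    (tendsto_rpow_atTop hη₁0).eventually_ge_atTop _
  obtain ⟨N₂, hN₂⟩ := eventually_atTop.1 hlim
  refine ⟨max (max N₁ N₂) 2, fun N hN => ?_⟩
  have hNN1 : N₁ ≤ N := ((le_max_left _ _).trans (le_max_left _ _)).trans hN
  have hNN2 : N₂ ≤ N := ((le_max_right _ _).trans (le_max_left _ _)).trans hN
  have hN2 : 2 ≤ N := (le_max_right _ _).trans hN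
  have hN0 : 0 < N := by linarith
  have hlN : 0 < Real.log N := Real.log_pos (by linarith)
  have hz := hN₂ N hNN2
  have hzz : z₀ ≤ N ^ η₁ := (le_max_left _ _).trans hz
  have hzu : u₀ ≤ N ^ η₁ := (le_max_right _ _).trans hz
  obtain ⟨v, v1, v2, v3, v4, v5, v6⟩ := hN₁ N hNN1
  set L : ℝ := δ * Real.log N / K with hL
  have hL0 : 0 < L := by positivity
  have hpow : ∀ t : ℝ, N ^ t = Real.exp (Real.log N * t) := fun t => Real.rpow_def_of_pos hN0 t
  have e1 : Real.exp (u₁ * L) = N ^ η₁ := by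
    rw [hpow, hL, hη₁]
    congr 1
    ring
  have e2 : Real.exp (T * L) < N ^ η := by
    rw [hpow, Real.exp_lt_exp, hL]
    calc T * (δ * Real.log N / K) = Real.log N * (δ * T / K) := by ring
      _ < Real.log N * η := mul_lt_mul_of_pos_left hδT hlN
  have e3 : N ^ δ = Real.exp ((K - T) * L) * Real.exp (T * L) := by
    rw [hpow, ← Real.exp_add, hL]
    congr 1
    field_simp
    ring
  set P := PR (N ^ η₁) (N ^ η) with hPdef
  have hP : ∀ p ∈ P, 2 ≤ p := fun p hp => (SUMS_.mem_PR.1 hp).2.1.two_le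
  obtain ⟨s1, s2, s3, s4⟩ := hS L u₁ A₁ T (N ^ η) hL0 hu0 hA1 hT hu1 (by rw [e1]; exact hzz) e2
  rw [e1, ← hPdef] at s1 s2 s3 s4
  rw [hlogT] at s3 s4
  set h := hw A₁ T L with hh
  set S2 := Sg P (fun S => h S ^ 2) with hS2
  set S1 := Sg P h with hS1
  have huA : 0 < u₁ * A₁ := by positivity
  have hS2pos : 0 < S2 := lt_of_lt_of_le (by positivity) s2
  have hS1pos : 0 < S1 := lt_of_lt_of_le (by positivity) s3
  have hWt : Wt h P := hw_wt hA1 hL0 hP
  have hKT : T < K / 2 := by linarith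
  set ρ := ∏ p ∈ P, (1 - 1 / (p : ℝ)) with hρ
  have hlogR : Real.log (Real.exp ((K - T) * L)) = (K - T) * L := Real.log_exp _
  have hS3 : Sg P (fun S => h S ^ 2 * Real.log (∏ p ∈ S, (p : ℝ))) ≤ L * (C ^ 2 * θ * S2) := by
    have g1 : Sg P (fun S => h S ^ 2 * Real.log (∏ p ∈ S, (p : ℝ))) =
        L * Sg P (fun S => h S ^ 2 * (Real.log (∏ p ∈ S, (p : ℝ)) / L)) := by
      unfold Sg
      rw [mul_sum]
      refine sum_congr rfl fun S _ => ?_
      field_simp
    rw [g1]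
    apply mul_le_mul_of_nonneg_left _ hL0.le
    refine s4.trans ?_
    calc C * (θ * A₁) / (u₁ * A₁ ^ 2) = C ^ 2 * θ * (1 / (C * (u₁ * A₁))) := by
          field_simp
      _ ≤ C ^ 2 * θ * S2 := mul_le_mul_of_nonneg_left s2 (by positivity)
  have D : Dat (Fin 26 × Fin k) P h v (Real.exp ((K - T) * L)) (Real.exp (T * L)) ε₁ := by
    refine ⟨hWt, ?_, ?_, ?_, ?_, v1, v4, hε₁.le, v5, v6, ?_⟩
    · rw [hh]
      unfold hw
      rw [prod_empty, Real.log_one, if_pos (by positivity)]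
      simp
    · apply Real.one_lt_exp_iff.2
      apply mul_pos (by linarith) hL0
    · exact Real.one_le_exp (by positivity)
    · intro S hSP hne
      rw [hh] at hne
      unfold hw at hne
      split_ifs at hne with hc
      · rwa [Real.log_le_iff_le_exp (prod_pos' hP hSP)] at hc
      · exact absurd rfl hne
    · rw [hcard, hlogR]
      obtain ⟨m, hm⟩ : ∃ m, 26 * k = m + 2 := ⟨26 * k - 2, by omega⟩
      have g1 : 26 * k - 2 = m := by omega
      have g2 : 26 * k - 1 = m + 1 := by omega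
      have g3 : ((m + 1 : ℕ) : ℝ) ≤ K := by
        have : ((26 * k : ℕ) : ℝ) = K := by rw [hK]; push_cast; ring
        rw [← this]
        exact_mod_cast (by omega : m + 1 ≤ 26 * k)
      rw [g1, g2]
      have g4 : 0 < K - T := by linarith
      have g5 : 0 ≤ Sg P (fun S => h S ^ 2 * Real.log (∏ p ∈ S, (p : ℝ))) :=
        Sg_nonneg hP fun S hS => mul_nonneg (sq_nonneg _) (log_prod_nonneg hP hS)
      calc 1 / ((K - T) * L) * (((m + 1 : ℕ) : ℝ) *
            (Sg P (fun S => h S ^ 2 * Real.log (∏ p ∈ S, (p : ℝ))) * S2 ^ m))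
          ≤ 1 / ((K - T) * L) * (K * ((L * (C ^ 2 * θ * S2)) * S2 ^ m)) := by
            gcongr
        _ = (K / (K - T)) * (C ^ 2 * θ) * S2 ^ (m + 1) := by
            field_simp
            ring
        _ ≤ 2 * (C ^ 2 * θ) * S2 ^ (m + 1) := by
            have : K / (K - T) ≤ 2 := by
              rw [div_le_iff₀ g4]
              linarith
            gcongr
        _ = ε₁ * S2 ^ (m + 1) := by
            rw [hθdef]
            field_simp
  have hXX : XX (Fin 26 × Fin k) (N ^ η₁) (N ^ η) = P ×ˢ univ := rfl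
  have hN1 : 1 ≤ N := by linarith
  have hQ0 : 0 < S1 ^ 2 * S2 ^ (Fintype.card (Fin 26 × Fin k) - 1) := by positivity
  have hρ0 : 0 ≤ ρ := rho_nonneg D
  refine ⟨cLam (yy h P (Real.exp ((K - T) * L) * Real.exp (T * L))) (P ×ˢ univ),
    fun i => cVf v i, S1 ^ 2 * S2 ^ (Fintype.card (Fin 26 × Fin k) - 1), ?_, ?_, ?_, ?_, ?_,
    hQ0, ?_, ?_, ?_, ?_, ?_, ?_, ?_⟩
  · -- level of cL
    rw [hXX]
    refine ⟨fun T' hT' => ?_, fun T' => ?_⟩
    · rw [e3]
      exact cLam_supp hWt _ T' hT'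
    · have b1 := cLam_le hWt (Real.exp ((K - T) * L) * Real.exp (T * L)) (fun S hSP => by
        rw [hh]
        unfold hw
        split_ifs
        · have h5 := log_prod_nonneg hP hSP
          have h6 : 0 ≤ A₁ * (Real.log (∏ p ∈ S, (p : ℝ)) / L) := by positivity
          rw [div_le_one (by linarith)]
          linarith
        · exact zero_le_one) T'
      refine b1.trans ?_
      have b2 := hup (N ^ η₁) (N ^ η) hzu (Real.rpow_le_rpow_of_exponent_le hN1 hη₁η.le)
      rw [Real.log_rpow hN0, Real.log_rpow hN0, mul_div_mul_right _ _ hlN.ne', ← hPdef] at b2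
      have b3 : 0 ≤ ∏ p ∈ P, (1 + 1 / ((p : ℝ) - 1)) := by
        apply prod_nonneg
        intro p hp
        have h2 : (2 : ℝ) ≤ p := by exact_mod_cast hP p hp
        have : 0 ≤ 1 / ((p : ℝ) - 1) := by apply div_nonneg <;> linarith
        linarith
      have b4 : (∏ p ∈ P, (1 + 1 / ((p : ℝ) - 1))) ^ Fintype.card (Fin 26 × Fin k) ≤ Cb := by
        rw [hcard]
        exact (pow_le_pow_left₀ b3 b2 _).trans (le_max_right _ _)
      have b5 : (2 : ℝ) ^ T'.card ≤ Cb ^ T'.card :=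
        pow_le_pow_left₀ (by norm_num) (le_max_left _ _) _
      calc (2 : ℝ) ^ T'.card *
            (∏ p ∈ P, (1 + 1 / ((p : ℝ) - 1))) ^ Fintype.card (Fin 26 × Fin k)
          ≤ Cb ^ T'.card * Cb := mul_le_mul b5 b4 (pow_nonneg b3 _) (by
            have := le_max_left 2 ((2 * (η / η₁)) ^ (26 * k))
            positivity)
        _ = Cb ^ (T'.card + 1) := (pow_succ _ _).symm
  · -- level of cV
    intro i
    rw [hXX]
    show Lev (P ×ˢ univ) (cVf v i) (N ^ δ) 1
    refine ⟨fun T' hT' => ?_, fun T' => ?_⟩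
    · unfold cVf at hT'
      split_ifs at hT' with hc
      · obtain ⟨w1, w2⟩ := v3 _ hT'
        have w3 : T' ⊆ P ×ˢ univ := by
          intro x hx
          rw [mem_product]
          refine ⟨w1 (mem_pr.2 ?_), mem_univ _⟩
          rw [← hc x hx]
          exact hx
        refine ⟨w3, ?_⟩
        have w4 : (sz T' : ℝ) = ∏ p ∈ pr T' i, (p : ℝ) := by
          unfold sz
          rw [Nat.cast_prod, prod_pr (fun p : ℕ => (p : ℝ)) (J := {i})
            (fun x hx => mem_singleton.2 (hc x hx)), prod_singleton]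
        rw [w4]
        exact w2.trans (Real.rpow_le_rpow_of_exponent_le hN1 hηB)
      · exact absurd rfl hT'
    · rw [one_pow]
      unfold cVf
      split_ifs
      · exact v2 _
      · rw [abs_zero]
        exact zero_le_one
  · intro i T' hT' x hx
    simp only [cVf] at hT'
    split_ifs at hT' with hc
    · exact hc x hx
    · exact absurd rfl hT'
  · intro i S
    simp only
    rw [poly_cVf]
    exact v4 _
  · intro i
    have : pr (∅ : Finset (ℕ × (Fin 26 × Fin k))) i = ∅ := by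
      rw [eq_empty_iff_forall_notMem]
      intro p hp
      rw [mem_pr] at hp
      exact absurd hp (notMem_empty _)
    simp only [cVf]
    rw [if_pos (fun x hx => absurd hx (notMem_empty _)), this, v1]
  · intro i
    rw [hXX]
    refine le_trans ?_ (c2' D i)
    apply mul_le_mul_of_nonneg_right _ hQ0.le
    linarith
  · intro i
    rw [hXX]
    refine le_trans ?_ (c3 D i)
    apply mul_le_mul_of_nonneg_right _ (mul_nonneg hρ0 hQ0.le)
    linarith
  · intro i
    rw [hXX]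
    refine (c4 D i).trans ?_
    apply mul_le_mul_of_nonneg_right _ (mul_nonneg hρ0 hQ0.le)
    linarith
  · intro i
    rw [hXX]
    refine (c5 D i).trans ?_
    apply mul_le_mul_of_nonneg_right _ (mul_nonneg hρ0 hQ0.le)
    linarith
  · intro i j hij
    rw [hXX]
    refine (c7 D (by rw [hcard]; omega) i j hij).trans ?_
    apply mul_le_mul_of_nonneg_right _ (sq_nonneg _)
    nlinarith
  · rw [hXX]
    exact c8 D
  · rw [hXX]
    have f1 := c9 D
    rw [hcard] at f1 ⊢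
    obtain ⟨m, hm⟩ : ∃ m, 26 * k = m + 1 := ⟨26 * k - 1, by omega⟩
    have g2 : 26 * k - 1 = m := by omega
    rw [g2]
    rw [hm] at f1
    have f2 : C₀ * S2 ≤ k * η₁ * S1 ^ 2 := by
      have f3 : (k : ℝ) * η₁ = u₁ * δ / 26 := by
        rw [hη₁, hK]
        field_simp
      have f4 : (θ / (C * u₁)) ^ 2 ≤ S1 ^ 2 := by
        apply pow_le_pow_left₀ (by positivity)
        refine le_trans (le_of_eq ?_) s3
        field_simp
      calc C₀ * S2 ≤ C₀ * (C / (u₁ * A₁)) := mul_le_mul_of_nonneg_left s1 hC₀.le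
        _ = (26 * C ^ 3 * C₀) / (26 * C ^ 2 * (u₁ * A₁)) := by
            field_simp
        _ ≤ (A₁ * (δ * θ ^ 2)) / (26 * C ^ 2 * (u₁ * A₁)) := by gcongr
        _ = u₁ * δ / 26 * (θ / (C * u₁)) ^ 2 := by
            field_simp
        _ ≤ u₁ * δ / 26 * S1 ^ 2 := mul_le_mul_of_nonneg_left f4 (by positivity)
        _ = _ := by rw [f3]
    calc C₀ * Eid (P ×ˢ univ) (fun S => poly (cLam (yy h P (Real.exp ((K - T) * L) *
          Real.exp (T * L))) (P ×ˢ (univ : Finset (Fin 26 × Fin k)))) S ^ 2)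
        ≤ C₀ * S2 ^ (m + 1) := mul_le_mul_of_nonneg_left f1 hC₀.le
      _ = (C₀ * S2) * S2 ^ m := by ring
      _ ≤ (k * η₁ * S1 ^ 2) * S2 ^ m := mul_le_mul_of_nonneg_right f2 (by positivity)
      _ = _ := by ring

end Pool.Agent.GapTwo.IDEAL_

namespace Pool.Agent.GapTwo

theorem stmt_IDEAL : Stmt_IDEAL := IDEAL_.stmt_IDEAL

end Pool.Agent.GapTwo
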