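import Pool.Agent.Work.MP_1ea053_nt.Interface

/-!
# MP_1ea053_nt: many missing pairs. Block statements PAIRG, REDG.
-/

set_option autoImplicit false

namespace Pool.Agent.GapTwo

open Finset

/-- Every long window contains at least `G` pairs of consecutive integers with huge prime factors (`K` does not depend
on `G`). -/
def Stmt_PAIRG : Prop := ∃ K : ℕ, 0 < K ∧ ∀ G : ℕ, ∃ x₀ : ℕ, ∀ x : ℕ, x₀ ≤ x → ∃ M : Finset ℕ, G ≤ M.card ∧
  ∀ m ∈ M, ∃ p q : ℕ, p.Prime ∧ q.Prime ∧ p ∣ m ∧ q ∣ m + 1 ∧ x ≤ K * p ∧ x ≤ K * q ∧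
    (x : ℝ) / 2.717 < m ∧ m + 1 < x

/-- Block PAIRG (from CORE, FORMS, COMB): as PAIRD, with J = G (26k)^2 subintervals of (N, (1 + 10^-4) N]. -/
def Stmt_PAIRGD : Prop := Stmt_CORE → Stmt_FORMS → Stmt_COMB → Stmt_PAIRG

/-- Window form: `C, D, G` fixed, `S` a finite set of positive integers with large maximum `X` whose reciprocal sum is in
`(1/D) ℤ`: every window `(x / 2.717, x)`, `X / C ≤ x ≤ X`, contains at least `G` integers `m` with `m, m + 1 ∉ S`. -/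
def Final_W : Prop := ∀ C D G : ℕ, 0 < D → ∃ X₀ : ℕ, ∀ S : Finset ℕ, (∀ s ∈ S, 0 < s) →
  (∃ z : ℕ, (D : ℚ) * ∑ s ∈ S, (1 : ℚ) / s = z) → ∀ X : ℕ, X₀ ≤ X → (∀ s ∈ S, s ≤ X) → ∀ x : ℕ, x ≤ X → X ≤ C * x →
  G ≤ ((Finset.range x).filter fun m : ℕ => (x : ℝ) / 2.717 < m ∧ m + 1 < x ∧ m ∉ S ∧ m + 1 ∉ S).card

/-- Final form: only finitely many finite sets of positive integers with reciprocal sum at least 1 and in `(1/D) ℤ` have
at most `G` missing pairs. -/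
def Final_G : Prop := ∀ D G : ℕ, 0 < D → {S : Finset ℕ | 2 ≤ S.card ∧ (∀ s ∈ S, 0 < s) ∧
  1 ≤ ∑ s ∈ S, (1 : ℚ) / s ∧ (∃ z : ℕ, (D : ℚ) * ∑ s ∈ S, (1 : ℚ) / s = z) ∧
  {m : ℕ | m ∉ S ∧ m + 1 ∉ S ∧ (∃ x ∈ S, x < m) ∧ ∃ y ∈ S, m + 1 < y}.ncard ≤ G}.Finite

/-- Block REDG. no_prime with D: `D * (Dn * Z + p * K! * E) = z * p * Dn * K!`, `p ∤ D` as `0 < D < p`; for the window use
`K * C` in place of `K`; for Final_G use `x = X = max S`, `C = 1` and min_small (only `1 ≤ ∑` is used there). -/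
def Stmt_REDG : Prop := Stmt_PAIRG → Final_W ∧ Final_G

end Pool.Agent.GapTwo
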