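import Mathlib
import Pool.Agent.Work.LinearSieve.Funcs
import Pool.Agent.Work.BV.Interface

/-!
# Erdos problem 287: only finitely many solutions have all gaps at most 2.
Definitions and block statements. See PROOF.md in this folder.
-/

set_option autoImplicit false

namespace Pool.Agent.GapTwo

open Finset Filter
open scoped Classical Topology

/-! ## The final statement -/

/-- At least two distinct positive denominators with sum of reciprocals `1`. -/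
def IsSol (S : Finset ℕ) : Prop :=
  2 ≤ S.card ∧ (∀ x ∈ S, 0 < x) ∧ ∑ x ∈ S, (1 : ℚ) / x = 1

/-- Consecutive elements differ by at most `2`. -/
def SmallGaps (S : Finset ℕ) : Prop :=
  ∀ x ∈ S, ∀ y ∈ S, x < y → (∀ z ∈ S, z ≤ x ∨ y ≤ z) → y ≤ x + 2

def Final : Prop := {S : Finset ℕ | IsSol S ∧ SmallGaps S}.Finite

/-! ## Reduction layer -/

/-- In every long window there are two consecutive integers with a huge prime factor. -/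
def Stmt_PAIR : Prop := ∃ K : ℕ, 0 < K ∧ ∃ x₀ : ℕ, ∀ x : ℕ, x₀ ≤ x → ∃ m p q : ℕ,
  p.Prime ∧ q.Prime ∧ p ∣ m ∧ q ∣ m + 1 ∧ x ≤ K * p ∧ x ≤ K * q ∧
  (x : ℝ) / 2.717 < m ∧ m + 1 < x

/-- Block RED. -/
def Stmt_RED : Prop := Stmt_PAIR → Final

/-- Block FORMS. -/
def Stmt_FORMS : Prop := ∀ (M : ℕ) (τ : Fin M → ℝ) (ε : ℝ), 0 < ε →
  ∃ (U : ℝ) (b : ℤ) (c : Fin M → ℕ), 0 < U ∧ (∀ i, 0 < c i) ∧ Function.Injective c ∧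
    (∀ i j, i ≠ j → ((c j : ℤ) - c i) ∣ (c i : ℤ)) ∧ ∀ i, |((c i : ℝ) - b) / U - τ i| < ε

/-- Block COMB. -/
def Stmt_COMB : Prop := ∀ T : Finset (Fin 26), 8 ≤ T.card →
  ∃ s ∈ T, ∃ s' ∈ T, (s : ℕ) + 7 ≤ s' ∧ (s' : ℕ) ≤ s + 19

/-- The analytic heart: at least 8 of the 26 clusters of linear forms are hit by a prime. -/
def Stmt_CORE : Prop := ∃ k : ℕ, 1 ≤ k ∧ ∀ a : Fin 26 × Fin k → ℕ, (∀ i, 0 < a i) →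
  Function.Injective a → ∀ κ : ℝ, 0 < κ → κ ≤ 1 → ∃ N₀ : ℝ, ∀ N : ℝ, N₀ ≤ N →
  ∃ n : ℕ, N < n ∧ (n : ℝ) ≤ (1 + κ) * N ∧ ∃ T : Finset (Fin 26), 8 ≤ T.card ∧
    ∀ s ∈ T, ∃ l : Fin k, (a (s, l) * n + 1).Prime

/-- Block PAIRD. -/
def Stmt_PAIRD : Prop := Stmt_CORE → Stmt_FORMS → Stmt_COMB → Stmt_PAIR

/-! ## Events and polynomials

`ι` is the index set of the linear forms `a i * n + 1`; the event `(p, l)` says `p ∣ a l * n + 1`. -/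

/-- The polynomial with coefficients `c`, at the set `S` of events that occur. -/
noncomputable def poly {ι : Type} (c : Finset (ℕ × ι) → ℝ) (S : Finset (ℕ × ι)) : ℝ :=
  ∑ T ∈ S.powerset, c T

/-- Product of the primes of `T` (with multiplicity). -/
def sz {ι : Type} (T : Finset (ℕ × ι)) : ℕ := ∏ x ∈ T, x.1

/-- No prime occurs twice. -/
def Cons {ι : Type} (T : Finset (ℕ × ι)) : Prop := ∀ x ∈ T, ∀ y ∈ T, x.1 = y.1 → x = y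

/-- The primes `p` with `u ≤ p < v`. -/
noncomputable def PR (u v : ℝ) : Finset ℕ :=
  (range ⌈v⌉₊).filter fun p => p.Prime ∧ u ≤ (p : ℝ)

/-- All events for the primes in `[u, v)`. -/
noncomputable def XX (ι : Type) [Fintype ι] (u v : ℝ) : Finset (ℕ × ι) := PR u v ×ˢ univ

/-- Product of polynomials. -/
noncomputable def mul {ι : Type} (c c' : Finset (ℕ × ι) → ℝ) (T : Finset (ℕ × ι)) : ℝ :=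
  ∑ A ∈ T.powerset, ∑ B ∈ T.powerset, if A ∪ B = T then c A * c' B else 0

/-- Expectation if all events of `X` are independent, `(p, l)` having probability `1 / p`. -/
noncomputable def Eid {ι : Type} (X : Finset (ℕ × ι)) (f : Finset (ℕ × ι) → ℝ) : ℝ :=
  ∑ S ∈ X.powerset, (∏ x ∈ S, 1 / (x.1 : ℝ)) * (∏ x ∈ X \ S, (1 - 1 / (x.1 : ℝ))) * f S

/-- The local density. -/
noncomputable def Eloc {ι : Type} (X : Finset (ℕ × ι)) (c : Finset (ℕ × ι) → ℝ) : ℝ :=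
  ∑ T ∈ X.powerset.filter (fun T => Cons T), c T / sz T

/-- The local density when the form with index `i` is prime. -/
noncomputable def EloI {ι : Type} (X : Finset (ℕ × ι)) (i : ι) (c : Finset (ℕ × ι) → ℝ) : ℝ :=
  ∑ T ∈ X.powerset.filter (fun T => Cons T ∧ ∀ x ∈ T, x.2 ≠ i), c T / ∏ x ∈ T, ((x.1 : ℝ) - 1)

/-- The set of events of `X` that occur at `n`. -/
noncomputable def ev {ι : Type} (a : ι → ℕ) (X : Finset (ℕ × ι)) (n : ℕ) : Finset (ℕ × ι) :=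
  X.filter fun x => x.1 ∣ a x.2 * n + 1

/-- `c` is supported in `X`, of level `Y`, with coefficients at most `C ^ (|T| + 1)`. -/
structure Lev {ι : Type} (X : Finset (ℕ × ι)) (c : Finset (ℕ × ι) → ℝ) (Y C : ℝ) : Prop where
  supp : ∀ T, c T ≠ 0 → T ⊆ X ∧ (sz T : ℝ) ≤ Y
  bd : ∀ T, |c T| ≤ C ^ (T.card + 1)

/-- The integers of `(N, (1 + κ) N]`. -/
noncomputable def II (N κ : ℝ) : Finset ℕ := Ioc ⌊N⌋₊ ⌊(1 + κ) * N⌋₊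

/-- Product of the primes below `D₀`. -/
def WW (D₀ : ℕ) : ℕ := ∏ p ∈ (range D₀).filter Nat.Prime, p

/-- The multiples of `W` in `(N, (1 + κ) N]`. -/
noncomputable def NW (W : ℕ) (N κ : ℝ) : Finset ℕ := (II N κ).filter fun n => W ∣ n

/-- The primes of `X` divide neither the coefficients nor their differences. -/
def Adm {ι : Type} (a : ι → ℕ) (X : Finset (ℕ × ι)) : Prop :=
  ∀ x ∈ X, x.1.Prime ∧ (∀ l, ¬ x.1 ∣ a l) ∧ ∀ l l', l ≠ l' → ¬ ((x.1 : ℤ) ∣ (a l : ℤ) - a l')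

/-! ## Blocks T1, T2, LOC -/

/-- Block T1: the sum of a polynomial over an arithmetic progression. -/
def Stmt_T1 : Prop := ∀ {ι : Type} [Fintype ι] (a : ι → ℕ) (X : Finset (ℕ × ι)), Adm a X →
  ∀ (c : Finset (ℕ × ι) → ℝ) (m b : ℕ), 0 < m → (∀ x ∈ X, ¬ x.1 ∣ m) →
  ∀ N κ : ℝ, 0 ≤ N → 0 ≤ κ →
  |∑ n ∈ (II N κ).filter (fun n => n ≡ b [MOD m]), poly c (ev a X n) - κ * N / m * Eloc X c|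
    ≤ ∑ T ∈ X.powerset, |c T|

/-- Block T2: the same with a prime value of the form `i` (from Bombieri–Vinogradov, BVW). -/
def Stmt_T2 : Prop := ∀ {ι : Type} [Fintype ι] (a : ι → ℕ) (D₀ : ℕ), (∀ i, 0 < a i) →
  Function.Injective a → (∀ i, a i < D₀) → ∀ (C κ ε : ℝ) (B : ℕ), 0 < κ → κ ≤ 1 → 0 < ε →
  ∃ N₀ : ℝ, ∀ N : ℝ, N₀ ≤ N → ∀ (i : ι) (c : Finset (ℕ × ι) → ℝ),
  Lev (XX ι D₀ (N ^ (1 / 4 : ℝ))) c (N ^ (1 / 3 : ℝ)) C →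
  |∑ n ∈ (NW (WW D₀) N κ).filter (fun n => (a i * n + 1).Prime),
      poly c (ev a (XX ι D₀ (N ^ (1 / 4 : ℝ))) n)
    - κ * N / (WW D₀ * Real.log N) * (∏ p ∈ PR 2 D₀, (1 - 1 / (p : ℝ)))⁻¹ *
      EloI (XX ι D₀ (N ^ (1 / 4 : ℝ))) i c|
  ≤ ε * (κ * N / (WW D₀ * Real.log N) * (∏ p ∈ PR 2 D₀, (1 - 1 / (p : ℝ)))⁻¹ *
      |EloI (XX ι D₀ (N ^ (1 / 4 : ℝ))) i c|) + N / Real.log N ^ B

/-- Block LOC: algebra of polynomials and densities. -/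
def Stmt_LOC : Prop :=
  (∀ {ι : Type} (c c' : Finset (ℕ × ι) → ℝ) (S : Finset (ℕ × ι)),
    poly (mul c c') S = poly c S * poly c' S) ∧
  (∀ {ι : Type} (X : Finset (ℕ × ι)) (c c' : Finset (ℕ × ι) → ℝ) (Y Y' C C' : ℝ),
    (∀ x ∈ X, 1 ≤ x.1) → 1 ≤ Y → 1 ≤ Y' → 1 ≤ C → 1 ≤ C' → Lev X c Y C → Lev X c' Y' C' →
    Lev X (mul c c') (Y * Y') (3 * C * C')) ∧
  (∀ {ι : Type} (X : Finset (ℕ × ι)) (c : Finset (ℕ × ι) → ℝ), (∀ x ∈ X, 1 ≤ x.1) →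
    Eid X (poly c) = ∑ T ∈ X.powerset, c T / sz T) ∧
  (∀ {ι : Type} (X₁ X₂ : Finset (ℕ × ι)) (c c' : Finset (ℕ × ι) → ℝ),
    (∀ x ∈ X₁, ∀ y ∈ X₂, x.1 ≠ y.1) → (∀ T, c T ≠ 0 → T ⊆ X₁) → (∀ T, c' T ≠ 0 → T ⊆ X₂) →
    Eloc (X₁ ∪ X₂) (mul c c') = Eloc X₁ c * Eloc X₂ c' ∧
    ∀ i, EloI (X₁ ∪ X₂) i (mul c c') = EloI X₁ i c * EloI X₂ i c') ∧
  (∀ {ι : Type} [Fintype ι] (η₁ η C : ℝ), 0 < η₁ → η₁ < η → η ≤ 1 → 1 ≤ C →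
    ∃ C' N₀ : ℝ, ∀ N : ℝ, N₀ ≤ N → ∀ (c : Finset (ℕ × ι) → ℝ),
    Lev (XX ι (N ^ η₁) (N ^ η)) c N C →
    |Eloc (XX ι (N ^ η₁) (N ^ η)) c - Eid (XX ι (N ^ η₁) (N ^ η)) (poly c)| ≤ C' * N ^ (-η₁) ∧
    ∀ i : ι, |EloI (XX ι (N ^ η₁) (N ^ η)) i c
      - Eid ((XX ι (N ^ η₁) (N ^ η)).filter fun x => x.2 ≠ i) (poly c)| ≤ C' * N ^ (-η₁))

/-! ## Blocks for the weights -/

/-- Block BASE: the sieve for the small primes `[D₀, N^η₁)`. -/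
def Stmt_BASE : Prop := ∀ ε δ : ℝ, 0 < ε → 0 < δ → ∃ ε₃ : ℝ, 0 < ε₃ ∧
  ∀ {ι : Type} [Fintype ι] [Nonempty ι], ∃ D₁ : ℕ, ∀ D₀ : ℕ, D₁ ≤ D₀ →
  ∀ η₁ : ℝ, 0 < η₁ → (Fintype.card ι : ℝ) * η₁ ≤ ε₃ → ∃ N₀ : ℝ, ∀ N : ℝ, N₀ ≤ N →
  ∃ c : Finset (ℕ × ι) → ℝ, Lev (XX ι D₀ (N ^ η₁)) c (N ^ δ) 1 ∧ (∀ S, 0 ≤ poly c S) ∧ c ∅ = 1 ∧
    ∏ p ∈ PR D₀ (N ^ η₁), (1 - (Fintype.card ι : ℝ) / p) ≤ Eloc (XX ι D₀ (N ^ η₁)) c ∧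
    Eloc (XX ι D₀ (N ^ η₁)) c ≤ (1 + ε) * ∏ p ∈ PR D₀ (N ^ η₁), (1 - (Fintype.card ι : ℝ) / p) ∧
    ∀ i, ∏ p ∈ PR D₀ (N ^ η₁), (1 - ((Fintype.card ι : ℝ) - 1) / ((p : ℝ) - 1))
      ≤ EloI (XX ι D₀ (N ^ η₁)) i c

/-- Expectation over subsets of a finite set of primes. -/
noncomputable def E1 (P : Finset ℕ) (f : Finset ℕ → ℝ) : ℝ :=
  ∑ S ∈ P.powerset, (∏ p ∈ S, 1 / (p : ℝ)) * (∏ p ∈ P \ S, (1 - 1 / (p : ℝ))) * f S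

/-- Block BHM: the Brun–Hooley sieve for the medium primes, one form. -/
def Stmt_BHM : Prop := ∀ ε : ℝ, 0 < ε → ∃ B : ℕ, ∀ η₁ η : ℝ, 0 < η₁ → η₁ < η → η ≤ 1 →
  ∃ N₀ : ℝ, ∀ N : ℝ, N₀ ≤ N → ∃ v : Finset ℕ → ℝ, v ∅ = 1 ∧ (∀ T, |v T| ≤ 1) ∧
    (∀ T, v T ≠ 0 → T ⊆ PR (N ^ η₁) (N ^ η) ∧ ∏ p ∈ T, (p : ℝ) ≤ N ^ (B * η)) ∧
    (∀ S : Finset ℕ, 0 ≤ ∑ T ∈ S.powerset, v T) ∧
    E1 (PR (N ^ η₁) (N ^ η)) (fun S => 4 ^ S.card * ∑ T ∈ S.powerset, v T)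
      ≤ (1 + ε) * ∏ p ∈ PR (N ^ η₁) (N ^ η), (1 - 1 / (p : ℝ)) ∧
    E1 (PR (N ^ η₁) (N ^ η)) (fun S => 4 ^ S.card * (∑ T ∈ S.powerset, v T) ^ 2)
      ≤ (1 + ε) * ∏ p ∈ PR (N ^ η₁) (N ^ η), (1 - 1 / (p : ℝ))

/-- The one variable weight `1 / (1 + A₁ u)`, `u = log a / L ≤ T`. -/
noncomputable def hw (A₁ T L : ℝ) (S : Finset ℕ) : ℝ :=
  if Real.log (∏ p ∈ S, (p : ℝ)) ≤ T * L then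
    1 / (1 + A₁ * (Real.log (∏ p ∈ S, (p : ℝ)) / L)) else 0

noncomputable def Sg (P : Finset ℕ) (f : Finset ℕ → ℝ) : ℝ :=
  ∑ S ∈ P.powerset, f S / ∏ p ∈ S, ((p : ℝ) - 1)

/-- Block SUMS. -/
def Stmt_SUMS : Prop := ∃ C : ℝ, 1 ≤ C ∧ ∃ z₀ : ℝ, ∀ L u₁ A₁ T z : ℝ, 0 < L → 0 < u₁ →
  1 ≤ A₁ → 1 ≤ T → u₁ * A₁ ≤ 1 → z₀ ≤ Real.exp (u₁ * L) → Real.exp (T * L) < z →
  Sg (PR (Real.exp (u₁ * L)) z) (fun S => hw A₁ T L S ^ 2) ≤ C / (u₁ * A₁) ∧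
  1 / (C * (u₁ * A₁)) ≤ Sg (PR (Real.exp (u₁ * L)) z) (fun S => hw A₁ T L S ^ 2) ∧
  Real.log (1 + A₁ * T) / (C * (u₁ * A₁)) ≤ Sg (PR (Real.exp (u₁ * L)) z) (hw A₁ T L) ∧
  Sg (PR (Real.exp (u₁ * L)) z) (fun S => hw A₁ T L S ^ 2 * (Real.log (∏ p ∈ S, (p : ℝ)) / L))
    ≤ C * Real.log (1 + A₁ * T) / (u₁ * A₁ ^ 2)

/-- The weight `Λ` with spectral coefficients `y`. -/
noncomputable def Lam {ι : Type} (y : Finset (ℕ × ι) → ℝ) (X S : Finset (ℕ × ι)) : ℝ :=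
  ∑ r ∈ X.powerset, y r * ∏ x ∈ r, (if x ∈ S then (-1 : ℝ) else 1 / ((x.1 : ℝ) - 1))

/-- The coefficients of `Λ` as a polynomial. -/
noncomputable def cLam {ι : Type} (y : Finset (ℕ × ι) → ℝ) (X T : Finset (ℕ × ι)) : ℝ :=
  if T ⊆ X then ∑ r ∈ X.powerset.filter (fun r => T ⊆ r),
    y r * (-1) ^ T.card * (∏ x ∈ T, (x.1 : ℝ)) / ∏ x ∈ r, ((x.1 : ℝ) - 1) else 0

noncomputable def Qf {ι : Type} (y : Finset (ℕ × ι) → ℝ) (X₁ X₂ : Finset (ℕ × ι)) : ℝ :=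
  ∑ r ∈ X₁.powerset, (∑ s ∈ X₂.powerset, y (r ∪ s) / ∏ x ∈ s, ((x.1 : ℝ) - 1)) ^ 2
    / ∏ x ∈ r, ((x.1 : ℝ) - 1)

/-- Block QFORM: the quadratic forms. -/
def Stmt_QFORM : Prop := ∀ {ι : Type} (y : Finset (ℕ × ι) → ℝ) (X₁ X₂ : Finset (ℕ × ι)),
  Disjoint X₁ X₂ → (∀ x ∈ X₁ ∪ X₂, 2 ≤ x.1) → (∀ r, 0 ≤ y r) → (∀ r r', r ⊆ r' → y r' ≤ y r) →
  (∀ s ⊆ X₂, Eid X₁ (fun S => Lam y (X₁ ∪ X₂) (S ∪ s) ^ 2) ≤ 4 ^ s.card * Qf y X₁ X₂) ∧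
  Eid X₁ (fun S => Lam y (X₁ ∪ X₂) S ^ 2) = Qf y X₁ X₂ ∧
  (∀ f : Finset (ℕ × ι) → ℝ,
    Eid (X₁ ∪ X₂) f = Eid X₂ (fun s => Eid X₁ (fun S => f (S ∪ s)))) ∧
  (∀ S ⊆ X₁ ∪ X₂, Lam y (X₁ ∪ X₂) S = poly (cLam y (X₁ ∪ X₂)) S)

/-- Block IDEAL: the weights for the medium primes (from QFORM, BHM, SUMS). -/
def Stmt_IDEAL : Prop := ∀ ε δ : ℝ, 0 < ε → 0 < δ → ∃ η : ℝ, 0 < η ∧ η ≤ δ ∧
  ∀ C₀ ε₃ : ℝ, 0 < C₀ → 0 < ε₃ → ∃ (k : ℕ) (η₁ Cb : ℝ), 1 ≤ k ∧ 0 < η₁ ∧ η₁ < η ∧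
  26 * k * η₁ ≤ ε₃ ∧ 1 ≤ Cb ∧ ∃ N₀ : ℝ, ∀ N : ℝ, N₀ ≤ N →
  ∃ (cL : Finset (ℕ × (Fin 26 × Fin k)) → ℝ)
    (cV : Fin 26 × Fin k → Finset (ℕ × (Fin 26 × Fin k)) → ℝ) (Q : ℝ),
    Lev (XX (Fin 26 × Fin k) (N ^ η₁) (N ^ η)) cL (N ^ δ) Cb ∧
    (∀ i, Lev (XX (Fin 26 × Fin k) (N ^ η₁) (N ^ η)) (cV i) (N ^ δ) 1) ∧
    (∀ i T, cV i T ≠ 0 → ∀ x ∈ T, x.2 = i) ∧ (∀ i S, 0 ≤ poly (cV i) S) ∧ (∀ i, cV i ∅ = 1) ∧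
    0 < Q ∧
    (∀ i, (1 - ε) * Q ≤ Eid ((XX (Fin 26 × Fin k) (N ^ η₁) (N ^ η)).filter fun x => x.2 ≠ i)
      (fun S => poly cL S ^ 2)) ∧
    (∀ i, (1 - ε) * ((∏ p ∈ PR (N ^ η₁) (N ^ η), (1 - 1 / (p : ℝ))) * Q) ≤
      Eid (XX (Fin 26 × Fin k) (N ^ η₁) (N ^ η)) (fun S => poly cL S ^ 2 * poly (cV i) S)) ∧
    (∀ i, Eid (XX (Fin 26 × Fin k) (N ^ η₁) (N ^ η)) (fun S => poly cL S ^ 2 * poly (cV i) S) ≤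
      (1 + ε) * ((∏ p ∈ PR (N ^ η₁) (N ^ η), (1 - 1 / (p : ℝ))) * Q)) ∧
    (∀ i, Eid (XX (Fin 26 × Fin k) (N ^ η₁) (N ^ η))
        (fun S => poly cL S ^ 2 * poly (cV i) S ^ 2) ≤
      2 * ((∏ p ∈ PR (N ^ η₁) (N ^ η), (1 - 1 / (p : ℝ))) * Q)) ∧
    (∀ i j, i ≠ j → Eid (XX (Fin 26 × Fin k) (N ^ η₁) (N ^ η))
        (fun S => poly cL S ^ 2 * poly (cV i) S * poly (cV j) S) *
        Eid (XX (Fin 26 × Fin k) (N ^ η₁) (N ^ η)) (fun S => poly cL S ^ 2) ≤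
      (1 + ε) * ((∏ p ∈ PR (N ^ η₁) (N ^ η), (1 - 1 / (p : ℝ))) * Q) ^ 2) ∧
    1 ≤ Eid (XX (Fin 26 × Fin k) (N ^ η₁) (N ^ η)) (fun S => poly cL S ^ 2) ∧
    C₀ * Eid (XX (Fin 26 × Fin k) (N ^ η₁) (N ^ η)) (fun S => poly cL S ^ 2) ≤ k * η₁ * Q

/-! ## The sieve for the large primes -/

/-- The level: `θ₀ = 0.5445 < 6 / 11`. -/
noncomputable def θ₀ : ℝ := 1089 / 2000

noncomputable def τ₀ : ℝ := 1 / 10000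

/-- Level of the weights `Ω` in the theorem on the variance. -/
noncomputable def δ₀ : ℝ := 1 / 1000000

/-- Level of the weights `Ω` in Theorem K. -/
noncomputable def δ₁ : ℝ := 1 / 100000

/-- `f` is supported on squarefree integers all of whose primes are at least `z`. -/
def Rough (z : ℝ) (f : ℕ → ℝ) : Prop :=
  ∀ d, f d ≠ 0 → Squarefree d ∧ ∀ p : ℕ, p.Prime → p ∣ d → z ≤ (p : ℝ)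

/-- The sieve function `∑_{d ∣ m} λ_d`. -/
noncomputable def gg (lam : ℕ → ℝ) (m : ℕ) : ℝ := ∑ d ∈ m.divisors, lam d

/-- The main term of the sieve. -/
noncomputable def gam (N : ℝ) (lam : ℕ → ℝ) : ℝ := ∑ d ∈ Icc 1 ⌊N ^ θ₀⌋₊, lam d / d

/-- A well factorable upper bound sieve of level `N ^ θ₀` for the primes in `[N^η, N^(θ₀/3))`. -/
structure Ros (η : ℝ) (M : ℕ) (N : ℝ) (lam : ℕ → ℝ) : Prop where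
  one : lam 1 = 1
  bd : ∀ d, |lam d| ≤ 1
  rough : Rough (N ^ η) lam
  supp : ∀ d, lam d ≠ 0 → (d : ℝ) ≤ N ^ θ₀ ∧ ∀ p : ℕ, p.Prime → p ∣ d → (p : ℝ) < N ^ (θ₀ / 3)
  nonneg : ∀ m : ℕ, 0 < m → 0 ≤ gg lam m
  fact : ∀ D₁ D₂ : ℝ, 1 ≤ D₁ → 1 ≤ D₂ → D₁ * D₂ = N ^ θ₀ → ∃ α β : Fin M → ℕ → ℝ,
    (∀ i, Rough (N ^ η) (α i)) ∧ (∀ i, Rough (N ^ η) (β i)) ∧
    (∀ i d, |α i d| ≤ 1) ∧ (∀ i d, |β i d| ≤ 1) ∧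
    (∀ i d, α i d ≠ 0 → (d : ℝ) ≤ D₁) ∧ (∀ i d, β i d ≠ 0 → (d : ℝ) ≤ D₂) ∧
    ∀ d, Squarefree d → lam d = ∑ i, ∑ x ∈ d.divisorsAntidiagonal, α i x.1 * β i x.2

/-- Block ROS (from ROSA, ROSF, ROSM). -/
def Stmt_ROS : Prop := ∀ ε : ℝ, 0 < ε → ∀ η : ℝ, 0 < η → η ≤ 1 / 100 → ∃ M : ℕ, ∃ N₀ : ℝ,
  ∀ N : ℝ, N₀ ≤ N → ∃ lam : ℕ → ℝ, Ros η M N lam ∧
    gam N lam ≤ (Pool.Agent.LinearSieve.fns.A / 3 + ε) *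
      ∏ p ∈ PR (N ^ η) (N ^ (θ₀ / 3)), (1 - 1 / (p : ℝ))

/-- Block CONST: the constant of the linear sieve. -/
def Stmt_CONST : Prop :=
  Pool.Agent.LinearSieve.fns.A * Real.exp (-Real.eulerMascheroniConstant) ≤ 2.02

/-- Block MER: Mertens' third theorem. -/
def Stmt_MER : Prop := Tendsto (fun x : ℝ => Real.log x * ∏ p ∈ PR 2 x, (1 - 1 / (p : ℝ))) atTop
  (𝓝 (Real.exp (-Real.eulerMascheroniConstant)))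

/-- The conditions of the Rosser sieve along a decreasing list of primes; `v p` is used in the
place of `p`. -/
def okL (v : ℕ → ℝ) : Bool → ℝ → List ℕ → Prop
  | _, _, [] => True
  | true, D, p :: l => (v p) ^ 3 < D ∧ okL v false (D / v p) l
  | false, D, p :: l => okL v true (D / v p) l

/-- Rosser weights for the primes of `P`, with `v p` in the place of `p` in the conditions. -/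
noncomputable def rw' (P : Finset ℕ) (v : ℕ → ℝ) (D : ℝ) (d : ℕ) : ℝ :=
  if Squarefree d ∧ d.primeFactors ⊆ P ∧ okL v true D (d.primeFactors.sort (· ≥ ·)) then
    (-1) ^ d.primeFactors.card else 0

/-- Block ROSA: combinatorics of the weights. -/
def Stmt_ROSA : Prop := ∀ (P : Finset ℕ) (v : ℕ → ℝ) (D : ℝ), (∀ p ∈ P, p.Prime) → 1 < D →
  (∀ p ∈ P, (p : ℝ) ≤ v p) → (∀ p ∈ P, ∀ q ∈ P, p ≤ q → v p ≤ v q) →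
  rw' P v D 1 = 1 ∧ (∀ d, |rw' P v D d| ≤ 1) ∧ (∀ d, rw' P v D d ≠ 0 → (d : ℝ) < D) ∧
  (∀ d, rw' P v D d ≠ 0 → ∏ p ∈ d.primeFactors, v p < D) ∧
  (∀ m : ℕ, 0 < m → 0 ≤ gg (rw' P v D) m) ∧
  (∀ z : ℕ, (∀ p ∈ P, p < z) → ∀ g : ℕ → ℝ,
    Pool.Agent.LinearSieve.M P z true D (Pool.Agent.LinearSieve.GG g) =
      ∑ T ∈ P.powerset, rw' P (fun p => (p : ℝ)) D (∏ p ∈ T, p) * ∏ p ∈ T, g p)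

/-- Block ROSF: factorisation of the box weights. -/
def Stmt_ROSF : Prop := ∀ (P : Finset ℕ) (J R : ℕ) (bx : ℕ → Fin J) (vv : Fin J → ℝ) (D : ℝ),
  (∀ p ∈ P, p.Prime) → 1 < D → (∀ p ∈ P, (p : ℝ) ≤ vv (bx p)) → (∀ p ∈ P, ∀ q ∈ P, p ≤ q → bx p ≤ bx q) →
  Monotone vv → (∀ d, rw' P (fun p => vv (bx p)) D d ≠ 0 → d.primeFactors.card ≤ R) →
  ∀ D₁ D₂ : ℝ, 1 ≤ D₁ → 1 ≤ D₂ → D₁ * D₂ = D →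
  ∃ α β : (Fin J → Fin (R + 1)) → ℕ → ℝ,
    (∀ i d, |α i d| ≤ 1) ∧ (∀ i d, |β i d| ≤ 1) ∧
    (∀ i d, α i d ≠ 0 → Squarefree d ∧ d.primeFactors ⊆ P ∧ (d : ℝ) ≤ D₁) ∧
    (∀ i d, β i d ≠ 0 → Squarefree d ∧ d.primeFactors ⊆ P ∧ (d : ℝ) ≤ D₂) ∧
    ∀ d, Squarefree d → rw' P (fun p => vv (bx p)) D d =
      ∑ i, ∑ x ∈ d.divisorsAntidiagonal, α i x.1 * β i x.2

/-- Block ROSM: the main term of the box weights. -/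
def Stmt_ROSM : Prop := ∀ ε η : ℝ, 0 < ε → 0 < η → η ≤ 1 / 100 → ∃ κ' : ℝ, 0 < κ' ∧ ∃ N₀ : ℝ,
  ∀ N : ℝ, N₀ ≤ N → ∀ v : ℕ → ℝ,
  (∀ p ∈ PR (N ^ η) (N ^ (θ₀ / 3)), (p : ℝ) ≤ v p ∧ v p ≤ p * N ^ κ') →
  (∀ p ∈ PR (N ^ η) (N ^ (θ₀ / 3)), ∀ q ∈ PR (N ^ η) (N ^ (θ₀ / 3)), p ≤ q → v p ≤ v q) →
  ∑ T ∈ (PR (N ^ η) (N ^ (θ₀ / 3))).powerset,
      rw' (PR (N ^ η) (N ^ (θ₀ / 3))) v (N ^ θ₀) (∏ p ∈ T, p) * ∏ p ∈ T, 1 / (p : ℝ)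
    ≤ (Pool.Agent.LinearSieve.fns.A / 3 + ε) *
      ∏ p ∈ PR (N ^ η) (N ^ (θ₀ / 3)), (1 - 1 / (p : ℝ))

/-! ## Theorem K and the variance -/

/-- The coefficients of the two forms. -/
def SamePr (A₁ A₂ : ℕ) : Prop := 0 < A₁ ∧ 0 < A₂ ∧ A₁ ≠ A₂ ∧
  (∀ p : ℕ, p.Prime → (p ∣ A₁ ↔ p ∣ A₂)) ∧
  ∀ p : ℕ, p.Prime → (p : ℤ) ∣ (A₁ : ℤ) - A₂ → p ∣ A₁

/-- A periodic weight of small level. -/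
noncomputable def Om {σ : Type} (J : Finset σ) (c : σ → ℝ) (m b : σ → ℕ) (n : ℕ) : ℝ :=
  ∑ j ∈ J, if n ≡ b j [MOD m j] then c j else 0

/-- **Theorem K**. -/
def Stmt_K : Prop := ∀ η : ℝ, 0 < η → η ≤ 1 / 100 → ∃ ε₂ : ℝ, 0 < ε₂ ∧
  ∀ A₁ A₂ W : ℕ, SamePr A₁ A₂ → 0 < W → ∀ κ : ℝ, 0 < κ → κ ≤ 1 → ∃ N₀ : ℝ, ∀ N : ℝ, N₀ ≤ N →
  ∀ D₁ D₂ E : ℝ, 1 ≤ D₁ → 1 ≤ D₂ → E ≤ N ^ θ₀ → D₁ * E ≤ N ^ (1 - τ₀) →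
  D₂ ≤ N ^ (θ₀ - 1 + 2 * τ₀) * E →
  ∀ {σ : Type} (J : Finset σ) (c : σ → ℝ) (m b : σ → ℕ), ∑ j ∈ J, |c j| ≤ N ^ δ₁ →
  (∀ j ∈ J, 0 < m j ∧ (m j : ℝ) ≤ N ^ δ₁ ∧
    ∀ p : ℕ, p.Prime → p ∣ m j → ¬ p ∣ A₁ ∧ (p : ℝ) < N ^ η) →
  (∀ n ∈ II (N / W) κ, |Om J c m b n| ≤ N ^ ε₂) →
  ∀ α β γ : ℕ → ℝ, (∀ d, |α d| ≤ 1) → (∀ d, |β d| ≤ 1) → (∀ d, |γ d| ≤ 1) →
  Rough (N ^ η) α → Rough (N ^ η) β → Rough (N ^ η) γ →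
  |∑ d₁ ∈ Icc 1 ⌊D₁⌋₊, ∑ d₂ ∈ Icc 1 ⌊D₂⌋₊, ∑ e ∈ Ioc ⌊E⌋₊ ⌊2 * E⌋₊, α d₁ * β d₂ * γ e *
    ∑ n ∈ (II (N / W) κ).filter (fun n => d₁ ∣ A₁ * n + 1 ∧ e ∣ A₂ * n + 1),
      Om J c m b n * ((if d₁ * d₂ ∣ A₁ * n + 1 then 1 else 0) - 1 / (d₂ : ℝ))| ≤ N ^ (1 - ε₂)

/-- Block VAR (from T1 and K). -/
def Stmt_VAR : Prop := ∀ η : ℝ, 0 < η → η ≤ 1 / 100 → ∀ M : ℕ, ∃ ε₃ : ℝ, 0 < ε₃ ∧
  ∀ {ι : Type} [Fintype ι] (a : ι → ℕ) (D₀ : ℕ), (∀ i, 0 < a i) → Function.Injective a →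
  (∀ i, a i < D₀) → ∀ C κ : ℝ, 1 ≤ C → 0 < κ → κ ≤ 1 → ∃ N₀ : ℝ, ∀ N : ℝ, N₀ ≤ N →
  ∀ lam : ℕ → ℝ, Ros η M N lam → ∀ c : Finset (ℕ × ι) → ℝ,
  Lev (XX ι D₀ (N ^ η)) c (N ^ δ₀) C → ∀ i j, i ≠ j →
  |∑ n ∈ NW (WW D₀) N κ, poly c (ev a (XX ι D₀ (N ^ η)) n) *
      (gg lam (a i * n + 1) * gg lam (a j * n + 1))
    - gam N lam ^ 2 * (κ * N / WW D₀ * Eloc (XX ι D₀ (N ^ η)) c)| ≤ N ^ (1 - ε₃)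

/-! ### Blocks for Theorem K -/

/-- The Kloosterman sum. -/
noncomputable def Kl (q : ℕ) [NeZero q] (u v : ZMod q) : ℂ :=
  ∑ x : (ZMod q)ˣ, ZMod.stdAddChar (u * (x : ZMod q) + v * ((x⁻¹ : (ZMod q)ˣ) : ZMod q))

/-- Block K1: Kloosterman sums on average (fourth moment). -/
def Stmt_K1 : Prop := ∀ ε : ℝ, 0 < ε → ∃ C : ℝ, 0 < C ∧ ∀ (q : ℕ) [NeZero q], Squarefree q →
  ∀ (κ : (ZMod q)ˣ) (U V : ℕ), 1 ≤ U → 1 ≤ V → U ≤ q → V ≤ q →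
  ∑ u ∈ Icc 1 U, ∑ v ∈ Icc 1 V, ‖Kl q (u : ZMod q) (κ * (v : ZMod q))‖ ≤
    C * (q : ℝ) ^ ε * ((U * V : ℝ) ^ (3 / 4 : ℝ) * (q : ℝ) ^ (3 / 4 : ℝ) *
      (1 + U * V / q : ℝ) ^ (1 / 4 : ℝ))

/-- Block K2: points of a modular hyperbola in a box (from K1). -/
def Stmt_K2 : Prop := ∀ ε : ℝ, 0 < ε → ∃ C : ℝ, 0 < C ∧ ∀ q : ℕ, 0 < q → Squarefree q →
  ∀ c : ℤ, IsCoprime c (q : ℤ) → ∀ (x₀ y₀ : ℤ) (D F : ℕ),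
  |((((Ioc x₀ (x₀ + D)) ×ˢ (Ioc y₀ (y₀ + F))).filter
      (fun z : ℤ × ℤ => (q : ℤ) ∣ z.1 * z.2 - c)).card : ℝ) - D * F * q.totient / (q : ℝ) ^ 2| ≤
    C * (q : ℝ) ^ ε * ((D * F * q : ℝ) ^ (1 / 4 : ℝ) + (q : ℝ) ^ (1 / 2 : ℝ) + (D + F) / q)

/-- The part of `g` made of the primes that divide `r` or whose square divides `g`. -/
noncomputable def badp (g r : ℕ) : ℕ :=
  ∏ p ∈ g.primeFactors.filter (fun p => p ∣ r ∨ p ^ 2 ∣ g), p ^ g.factorization p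

/-- The congruence conditions for `(d₁, φ)`, for given `(g, t)`. -/
def Cong (A₁ A₂ g t m b m' b' d₂ d₂' d₁ φ : ℕ) : Prop :=
  ∃ n e : ℕ, d₁ * φ = A₁ * n + 1 ∧ A₂ * n + 1 = g * e ∧ n ≡ b [MOD m] ∧
    n + d₁ * e * t ≡ b' [MOD m'] ∧ d₂ ∣ φ ∧ d₂' ∣ φ + A₁ * e * t

/-- The number of solutions in a box. -/
noncomputable def Rct (A₁ A₂ g t m b m' b' d₂ d₂' x₀ y₀ D F : ℕ) : ℝ :=
  (((Ioc x₀ (x₀ + D)) ×ˢ (Ioc y₀ (y₀ + F))).filter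
    (fun z : ℕ × ℕ => Cong A₁ A₂ g t m b m' b' d₂ d₂' z.1 z.2)).card

/-- Block K4: comparison of the counts in a box (from K2). -/
def Stmt_K4 : Prop := ∀ ε : ℝ, 0 < ε → ∃ C : ℝ, 0 < C ∧ ∀ A₁ A₂ g t m b m' b' d₂ d₂' : ℕ,
  SamePr A₁ A₂ → 0 < g → 0 < t → 0 < m → 0 < m' → 0 < d₂ → Squarefree d₂' →
  g.Coprime A₁ → m.Coprime A₁ → m'.Coprime A₁ → d₂.Coprime A₁ → d₂'.Coprime A₁ →
  g.Coprime d₂ → g.Coprime d₂' → t.Coprime d₂' → d₂.Coprime d₂' →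
  d₂.Coprime (m * m') → d₂'.Coprime (m * m') → ∀ x₀ y₀ D F : ℕ,
  |Rct A₁ A₂ g t m b m' b' d₂ d₂' x₀ y₀ D F
    - (d₂'.totient : ℝ) / (d₂ * (d₂' : ℝ) ^ 2) * Rct A₁ A₂ g t m b m' b' 1 1 x₀ y₀ D F| ≤
  C * ((g * d₂' : ℝ) ^ ε) * ((A₁ * badp g (m * m') * m * m' : ℝ) ^ 3) *
    ((((D : ℝ) + 1) * (F / d₂ + 1) * (g * d₂')) ^ (1 / 4 : ℝ) + (g * d₂' : ℝ) ^ (1 / 2 : ℝ)
      + (D + F + 1) / g)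

/-- The quadruples `(d₁, e, n, t)`: `d₁ ∣ A₁ n + 1`, `e ∣ A₂ n + 1`, and both `n` and
`n + d₁ e t` belong to `I`. -/
noncomputable def QQ (A₁ A₂ : ℕ) (I : Finset ℕ) (D E : ℝ) : Finset (ℕ × ℕ × ℕ × ℕ) :=
  ((Ioc ⌊D⌋₊ ⌊2 * D⌋₊) ×ˢ (Ioc ⌊E⌋₊ ⌊2 * E⌋₊) ×ˢ I ×ˢ (Icc 1 (I.sup id))).filter
    fun x => x.1 ∣ A₁ * x.2.2.1 + 1 ∧ x.2.1 ∣ A₂ * x.2.2.1 + 1 ∧
      x.2.2.1 + x.1 * x.2.1 * x.2.2.2 ∈ I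

/-- For a quadruple `x = (d₁, e, n, t)`: the other endpoint. -/
def nt (x : ℕ × ℕ × ℕ × ℕ) : ℕ := x.2.2.1 + x.1 * x.2.1 * x.2.2.2

/-- `g = (A₂ n + 1) / e`. -/
def gq (A₂ : ℕ) (x : ℕ × ℕ × ℕ × ℕ) : ℕ := (A₂ * x.2.2.1 + 1) / x.2.1

/-- `φ = (A₁ n + 1) / d₁`. -/
def ph (A₁ : ℕ) (x : ℕ × ℕ × ℕ × ℕ) : ℕ := (A₁ * x.2.2.1 + 1) / x.1

/-- `φ~ = (A₁ n~ + 1) / d₁ = φ + A₁ e t`. -/
def ph' (A₁ : ℕ) (x : ℕ × ℕ × ℕ × ℕ) : ℕ := ph A₁ x + A₁ * x.2.1 * x.2.2.2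

/-- Block K3A: quadruples with `n` or the other endpoint in a given set. -/
def Stmt_K3A : Prop := ∀ ε : ℝ, 0 < ε → ∀ A₁ A₂ W : ℕ, SamePr A₁ A₂ → 0 < W →
  ∀ κ : ℝ, 0 < κ → κ ≤ 1 → ∃ C : ℝ, 0 < C ∧ ∀ N D E : ℝ, 1 ≤ N → 1 ≤ D → 1 ≤ E →
  ∀ S : Finset ℕ, S ⊆ II (N / W) κ →
  (((QQ A₁ A₂ (II (N / W) κ) D E).filter (fun x => x.2.2.1 ∈ S)).card : ℝ) ≤
    C * N ^ ε * (S.card * (N / (D * E))) ∧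
  (((QQ A₁ A₂ (II (N / W) κ) D E).filter (fun x => nt x ∈ S)).card : ℝ) ≤
    C * N ^ ε * (S.card * (N / (D * E)))

/-- Block K3B: quadruples with a large bad part of `g`. -/
def Stmt_K3B : Prop := ∀ ε : ℝ, 0 < ε → ∀ A₁ A₂ W : ℕ, SamePr A₁ A₂ → 0 < W →
  ∀ κ : ℝ, 0 < κ → κ ≤ 1 → ∃ C : ℝ, 0 < C ∧ ∀ N D E Y : ℝ, 1 ≤ N → 1 ≤ D → 1 ≤ E → 1 ≤ Y →
  ∀ r : ℕ, 0 < r → (r : ℝ) ≤ N →
  (((QQ A₁ A₂ (II (N / W) κ) D E).filter (fun x => Y < (badp (gq A₂ x) r : ℝ))).card : ℝ) ≤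
    C * N ^ ε * (N * (N / (D * E)) * Y ^ (-(1 / 8) : ℝ))

/-- Block K3C: quadruples with `e` close to the ends of its interval. -/
def Stmt_K3C : Prop := ∀ ε : ℝ, 0 < ε → ∀ A₁ A₂ W : ℕ, SamePr A₁ A₂ → 0 < W →
  ∀ κ : ℝ, 0 < κ → κ ≤ 1 → ∃ C : ℝ, 0 < C ∧ ∀ N D E ω : ℝ, 1 ≤ N → 1 ≤ D → 1 ≤ E → E ≤ N →
  0 ≤ ω → ω ≤ 1 →
  (((QQ A₁ A₂ (II (N / W) κ) D E).filter
      (fun x => (x.2.1 : ℝ) ≤ (1 + ω) * E ∨ (1 - ω) * (2 * E) ≤ x.2.1)).card : ℝ) ≤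
    C * N ^ ε * (N * (N / (D * E)) * (ω + 1 / E))

/-- Non degenerate. -/
def ND (A₂ : ℕ) (x : ℕ × ℕ × ℕ × ℕ) (d₂ d₂' : ℕ) : Prop :=
  (gq A₂ x).Coprime d₂ ∧ (gq A₂ x).Coprime d₂' ∧ (x.2.2.2).Coprime d₂' ∧ d₂.Coprime d₂'

/-- The rough squarefree integers up to `D₂`. -/
noncomputable def RG (z D₂ : ℝ) : Finset ℕ :=
  (Icc 1 ⌊D₂⌋₊).filter fun d => Squarefree d ∧ ∀ p : ℕ, p.Prime → p ∣ d → z ≤ (p : ℝ)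

/-- Block K3D: the degenerate quadruples. -/
def Stmt_K3D : Prop := ∀ ε : ℝ, 0 < ε → ∀ A₁ A₂ W : ℕ, SamePr A₁ A₂ → 0 < W →
  ∀ κ : ℝ, 0 < κ → κ ≤ 1 → ∃ C : ℝ, 0 < C ∧ ∀ N D E D₂ z : ℝ, 1 ≤ N → 1 ≤ D → 1 ≤ E →
  D₂ ≤ N → 1 ≤ z →
  ∑ d₂ ∈ RG z D₂, ∑ d₂' ∈ RG z D₂,
    ∑ x ∈ (QQ A₁ A₂ (II (N / W) κ) D E).filter (fun x => ¬ ND A₂ x d₂ d₂'),
      ((if d₂ ∣ ph A₁ x then (1 : ℝ) else 0) + 1 / d₂) *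
      ((if d₂' ∣ ph' A₁ x then (1 : ℝ) else 0) + 1 / d₂') ≤
    C * N ^ ε * (N * (N / (D * E)) / z + N)

/-- Block KG: the non degenerate quadruples (from K4, K3A, K3C). -/
def Stmt_KG : Prop := ∀ ε : ℝ, 0 < ε → ∀ A₁ A₂ W : ℕ, SamePr A₁ A₂ → 0 < W →
  ∀ κ : ℝ, 0 < κ → κ ≤ 1 → ∃ C : ℝ, 0 < C ∧ ∀ N D E D₂ Y : ℝ, 1 ≤ N → 1 ≤ D → 1 ≤ E → E ≤ N →
  D * E ≤ N → 1 ≤ D₂ → D * D₂ ≤ N → 1 ≤ Y → ∀ G : ℕ, 1 ≤ G → (G : ℝ) ≤ D →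
  ∀ m b m' b' : ℕ, 0 < m → 0 < m' → m.Coprime A₁ → m'.Coprime A₁ →
  ∀ z : ℝ, 2 ≤ z → (∀ p : ℕ, p.Prime → p ∣ A₁ * m * m' → (p : ℝ) < z) →
  ∀ β : ℕ → ℝ, (∀ d, |β d| ≤ 1) →
  |∑ d₂ ∈ RG z D₂, ∑ d₂' ∈ RG z D₂, β d₂ * β d₂' *
    ∑ x ∈ (QQ A₁ A₂ (II (N / W) κ) D E).filter (fun x => ND A₂ x d₂ d₂' ∧
        (badp (gq A₂ x) (m * m') : ℝ) ≤ Y ∧ x.2.2.1 ≡ b [MOD m] ∧ nt x ≡ b' [MOD m']),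
      ((if d₂ ∣ ph A₁ x then (1 : ℝ) else 0) - 1 / d₂) *
      ((if d₂' ∣ ph' A₁ x then (1 : ℝ) else 0) - 1 / d₂')| ≤
  C * N ^ ε * (N / (D * E)) * (N * (1 / G + 1 / E + 1 / N) + (Y * m * m') ^ 3 * G ^ 2 *
    ((N / E) * ((N ^ 2 / E) ^ (1 / 4 : ℝ) * D₂ ^ 2 + (N / E) ^ (1 / 2 : ℝ) * D₂ ^ (5 / 2 : ℝ))
      + (D + N / D) * D₂ ^ 2))

/-- Block K5: assembly of Theorem K. -/
def Stmt_K5 : Prop := Stmt_K3A → Stmt_K3B → Stmt_K3D → Stmt_KG → Stmt_K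

end Pool.Agent.GapTwo
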