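import Pool.Agent.Work.MP_1ea053_nt.K1C

/-!
# Block K1: Kloosterman sums on average
-/

set_option autoImplicit false

namespace Pool.Agent.GapTwo

open Finset Filter
open scoped Classical Topology ComplexConjugate

namespace K1_

variable {q : ℕ} [NeZero q]

/-- The units carrying `(u, v)` to `(u', v')`. -/
noncomputable def TT (q : ℕ) [NeZero q] (p p' : ℕ × ℕ) : Finset (ZMod q)ˣ :=
  (univ : Finset (ZMod q)ˣ).filter fun s => (s : ZMod q) * (p.1 : ZMod q) = p'.1 ∧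
    ((s⁻¹ : (ZMod q)ˣ) : ZMod q) * (p.2 : ZMod q) = p'.2

theorem card_TT (p p' : ℕ × ℕ) : (TT q p p').card ≤
    if (p'.1 : ZMod q) * p'.2 = (p.1 : ZMod q) * p.2 then ZZ q p.1 p.2 else 0 := by
  rcases Finset.eq_empty_or_nonempty (TT q p p') with h | ⟨s₀, hs₀⟩
  · rw [h, Finset.card_empty]; exact Nat.zero_le _
  · have h0 := hs₀
    simp only [TT, Finset.mem_filter, Finset.mem_univ, true_and] at h0
    have h1 : (p'.1 : ZMod q) * p'.2 = (p.1 : ZMod q) * p.2 := by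
      rw [← h0.1, ← h0.2]
      have : (s₀ : ZMod q) * ((s₀⁻¹ : (ZMod q)ˣ) : ZMod q) = 1 := Units.mul_inv s₀
      linear_combination (p.1 : ZMod q) * p.2 * this
    rw [if_pos h1]
    unfold ZZ
    refine Finset.card_le_card_of_injOn (fun s => (s : ZMod q) - s₀) ?_ ?_
    · intro s hs
      simp only [TT, Finset.coe_filter, Finset.mem_univ, true_and, Set.mem_ofPred_eq] at hs ⊢
      constructor
      · rw [sub_mul, hs.1, h0.1, sub_self]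
      · have e1 : (s : ZMod q) * ((s⁻¹ : (ZMod q)ˣ) : ZMod q) = 1 := Units.mul_inv s
        have e2 : (s₀ : ZMod q) * ((s₀⁻¹ : (ZMod q)ˣ) : ZMod q) = 1 := Units.mul_inv s₀
        have e3 := hs.2.trans h0.2.symm
        linear_combination (-(s : ZMod q)) * p.2 * e2 + (s₀ : ZMod q) * p.2 * e1 -
          (s : ZMod q) * s₀ * e3
    · intro s hs s' hs' h
      simp only at h
      exact Units.ext (sub_left_injective h)

/-- The index set. -/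
noncomputable def SS (q : ℕ) [NeZero q] (U V : ℕ) : Finset ((ZMod q)ˣ × (ℕ × ℕ)) :=
  univ ×ˢ (Icc 1 U ×ˢ Icc 1 V)

/-- The map to the frequencies. -/
noncomputable def FF {q : ℕ} [NeZero q] (κ : (ZMod q)ˣ) (x : (ZMod q)ˣ × (ℕ × ℕ)) :
    ZMod q × ZMod q :=
  ((x.1 : ZMod q) * (x.2.1 : ZMod q), ((x.1⁻¹ : (ZMod q)ˣ) : ZMod q) * (κ * (x.2.2 : ZMod q)))

theorem pairs_le (κ : (ZMod q)ˣ) (U V : ℕ) :
    ((SS q U V ×ˢ SS q U V).filter (fun z => FF κ z.1 = FF κ z.2)).card ≤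
      q.totient * ∑ p ∈ Icc 1 U ×ˢ Icc 1 V, ∑ p' ∈ Icc 1 U ×ˢ Icc 1 V, (TT q p p').card := by
  have h1 : q.totient * ∑ p ∈ Icc 1 U ×ˢ Icc 1 V, ∑ p' ∈ Icc 1 U ×ˢ Icc 1 V, (TT q p p').card =
      ((univ : Finset (ZMod q)ˣ) ×ˢ ((Icc 1 U ×ˢ Icc 1 V).sigma fun p =>
        (Icc 1 U ×ˢ Icc 1 V).sigma fun p' => TT q p p')).card := by
    rw [Finset.card_product, Finset.card_univ, ZMod.card_units_eq_totient, Finset.card_sigma]
    congr 1
    refine Finset.sum_congr rfl fun p _ => ?_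
    rw [Finset.card_sigma]
  rw [h1]
  refine Finset.card_le_card_of_injOn
    (fun z => (z.1.1, ⟨z.1.2, ⟨z.2.2, z.2.1⁻¹ * z.1.1⟩⟩)) ?_ ?_
  · rintro ⟨⟨t, p⟩, ⟨t', p'⟩⟩ hz
    simp only [Finset.coe_filter, Finset.mem_product, SS, FF, Finset.mem_univ, true_and,
      Set.mem_ofPred_eq, Prod.mk.injEq] at hz
    obtain ⟨⟨hp, hp'⟩, ha, hb⟩ := hz
    simp only [Finset.coe_product, Finset.coe_univ, Set.mem_prod, Set.mem_univ, true_and,
      Finset.mem_coe, Finset.mem_sigma]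
    refine ⟨Finset.mem_product.mpr hp, Finset.mem_product.mpr hp', ?_⟩
    simp only [TT, Finset.mem_filter, Finset.mem_univ, true_and, Units.val_mul, mul_inv_rev,
      inv_inv]
    have e1 : ((t'⁻¹ : (ZMod q)ˣ) : ZMod q) * (t' : ZMod q) = 1 := Units.inv_mul t'
    have e3 : ((κ⁻¹ : (ZMod q)ˣ) : ZMod q) * (κ : ZMod q) = 1 := Units.inv_mul κ
    constructor
    · linear_combination ((t'⁻¹ : (ZMod q)ˣ) : ZMod q) * ha + (p'.1 : ZMod q) * e1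
    · have hb' : ((t⁻¹ : (ZMod q)ˣ) : ZMod q) * (p.2 : ZMod q) =
          ((t'⁻¹ : (ZMod q)ˣ) : ZMod q) * (p'.2 : ZMod q) := by
        linear_combination ((κ⁻¹ : (ZMod q)ˣ) : ZMod q) * hb -
          (((t⁻¹ : (ZMod q)ˣ) : ZMod q) * (p.2 : ZMod q) -
          ((t'⁻¹ : (ZMod q)ˣ) : ZMod q) * (p'.2 : ZMod q)) * e3
      linear_combination (t' : ZMod q) * hb' + (p'.2 : ZMod q) * e1
  · rintro ⟨⟨t, p⟩, ⟨t', p'⟩⟩ _ ⟨⟨s, r⟩, ⟨s', r'⟩⟩ _ h
    simp only [Prod.mk.injEq, Sigma.mk.injEq] at h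
    obtain ⟨rfl, rfl, h3⟩ := h
    have h4 := eq_of_heq h3
    simp only [Sigma.mk.injEq] at h4
    obtain ⟨rfl, h5⟩ := h4
    have h6 := eq_of_heq h5
    have h7 : t' = s' := by simpa using h6
    rw [h7]

theorem pairs_le' {T : ℝ} (κ : (ZMod q)ˣ) (U V : ℕ)
    (hT : ∀ m ∈ Icc 1 (U * V), (m.divisors.card : ℝ) ≤ T) (hT0 : 0 ≤ T) :
    (((SS q U V ×ˢ SS q U V).filter (fun z => FF κ z.1 = FF κ z.2)).card : ℝ) ≤
      q.totient * (U * V * q.divisors.card * ((1 + U * V / q) * T)) := by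
  have h1 : (((SS q U V ×ˢ SS q U V).filter (fun z => FF κ z.1 = FF κ z.2)).card : ℝ) ≤
      q.totient * ∑ p ∈ Icc 1 U ×ˢ Icc 1 V, ∑ p' ∈ Icc 1 U ×ˢ Icc 1 V, ((TT q p p').card : ℝ) := by
    exact_mod_cast pairs_le κ U V
  refine h1.trans ?_
  have h2 : ∀ p ∈ Icc 1 U ×ˢ Icc 1 V, ∑ p' ∈ Icc 1 U ×ˢ Icc 1 V, ((TT q p p').card : ℝ) ≤
      (ZZ q p.1 p.2 : ℝ) * ((1 + U * V / q) * T) := by
    intro p _
    calc ∑ p' ∈ Icc 1 U ×ˢ Icc 1 V, ((TT q p p').card : ℝ)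
        ≤ ∑ p' ∈ Icc 1 U ×ˢ Icc 1 V, (if (p'.1 : ZMod q) * p'.2 = (p.1 : ZMod q) * p.2 then
            (ZZ q p.1 p.2 : ℝ) else 0) := by
          refine Finset.sum_le_sum fun p' _ => ?_
          have := card_TT (q := q) p p'
          split_ifs with h
          · rw [if_pos h] at this; exact_mod_cast this
          · rw [if_neg h] at this; exact_mod_cast this
      _ = (ZZ q p.1 p.2 : ℝ) * (((Icc 1 U ×ˢ Icc 1 V).filter
            (fun p' : ℕ × ℕ => (p'.1 : ZMod q) * p'.2 = (p.1 : ZMod q) * p.2)).card : ℝ) := by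
          rw [← Finset.sum_filter, Finset.sum_const, nsmul_eq_mul, mul_comm]
      _ ≤ _ := by
          have := card_fiber U V hT hT0 ((p.1 : ZMod q) * (p.2 : ZMod q))
          gcongr
  calc (q.totient : ℝ) * ∑ p ∈ Icc 1 U ×ˢ Icc 1 V, ∑ p' ∈ Icc 1 U ×ˢ Icc 1 V,
        ((TT q p p').card : ℝ)
      ≤ q.totient * ∑ p ∈ Icc 1 U ×ˢ Icc 1 V, (ZZ q p.1 p.2 : ℝ) * ((1 + U * V / q) * T) := by
        have := Finset.sum_le_sum h2
        gcongr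
    _ = q.totient * ((∑ p ∈ Icc 1 U ×ˢ Icc 1 V, (ZZ q p.1 p.2 : ℝ)) *
          ((1 + U * V / q) * T)) := by rw [Finset.sum_mul]
    _ ≤ _ := by
        have := sum_ZZ (q := q) U V
        have h3 : (0 : ℝ) ≤ (1 + U * V / q) * T := by positivity
        gcongr

theorem sum_eq (κ : (ZMod q)ˣ) (U V : ℕ) :
    ∑ x ∈ SS q U V, ‖Kl q (FF κ x).1 (FF κ x).2‖ =
      q.totient * ∑ u ∈ Icc 1 U, ∑ v ∈ Icc 1 V, ‖Kl q (u : ZMod q) (κ * (v : ZMod q))‖ := by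
  unfold SS
  rw [Finset.sum_product]
  have h1 : ∀ t : (ZMod q)ˣ, ∑ p ∈ Icc 1 U ×ˢ Icc 1 V, ‖Kl q (FF κ (t, p)).1 (FF κ (t, p)).2‖ =
      ∑ u ∈ Icc 1 U, ∑ v ∈ Icc 1 V, ‖Kl q (u : ZMod q) (κ * (v : ZMod q))‖ := by
    intro t
    rw [Finset.sum_product]
    refine Finset.sum_congr rfl fun u _ => Finset.sum_congr rfl fun v _ => ?_
    simp only [FF]
    rw [kl_inv]
  rw [Finset.sum_congr rfl fun t _ => h1 t, Finset.sum_const, Finset.card_univ,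
    ZMod.card_units_eq_totient, nsmul_eq_mul]

theorem two_pow_le (q : ℕ) (hq : q ≠ 0) : 2 ^ q.primeFactors.card ≤ q.divisors.card := by
  rw [Nat.card_divisors hq, ← Finset.prod_const]
  refine Finset.prod_le_prod' fun p hp => ?_
  have : 1 ≤ q.factorization p := by
    have h := (Nat.mem_primeFactors.mp hp)
    exact (h.1.dvd_iff_one_le_factorization hq).mp h.2.1
  omega

theorem fourth (hsq : Squarefree q) {T : ℝ} (κ : (ZMod q)ˣ) (U V : ℕ)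
    (hT : ∀ m ∈ Icc 1 (U * V), (m.divisors.card : ℝ) ≤ T) (hT0 : 0 ≤ T) :
    (∑ u ∈ Icc 1 U, ∑ v ∈ Icc 1 V, ‖Kl q (u : ZMod q) (κ * (v : ZMod q))‖) ^ 4 ≤
      (q : ℝ) ^ 3 * (U * V : ℝ) ^ 3 * (1 + U * V / q) * ((q.divisors.card : ℝ) ^ 3 * T) := by
  have hq0 : 0 < q := Nat.pos_of_ne_zero (NeZero.ne q)
  set S := ∑ u ∈ Icc 1 U, ∑ v ∈ Icc 1 V, ‖Kl q (u : ZMod q) (κ * (v : ZMod q))‖ with hS
  have hS0 : 0 ≤ S := Finset.sum_nonneg fun _ _ => Finset.sum_nonneg fun _ _ => norm_nonneg _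
  have h1 := holder (SS q U V) (FF κ) (fun a => ‖Kl q a.1 a.2‖)
  rw [sum_eq κ U V, ← hS] at h1
  have h2 : ∑ a : ZMod q × ZMod q, ‖Kl q a.1 a.2‖ ^ 4 = (q : ℝ) ^ 2 * Nat.card (Quad (ZMod q)) := by
    rw [← moment, ← Finset.univ_product_univ, Finset.sum_product]
  have h3 : (Nat.card (Quad (ZMod q)) : ℝ) ≤ (q.divisors.card : ℝ) ^ 2 * (q.totient : ℝ) ^ 2 := by
    have e1 := quad_squarefree q hsq
    have e2 : 3 ^ q.primeFactors.card ≤ q.divisors.card ^ 2 := by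
      calc 3 ^ q.primeFactors.card ≤ 4 ^ q.primeFactors.card := Nat.pow_le_pow_left (by norm_num) _
        _ = (2 ^ q.primeFactors.card) ^ 2 := by rw [← pow_mul, mul_comm, pow_mul]; norm_num
        _ ≤ _ := Nat.pow_le_pow_left (two_pow_le q hq0.ne') 2
    have e3 : Nat.card (Quad (ZMod q)) ≤ q.divisors.card ^ 2 * q.totient ^ 2 :=
      e1.trans (Nat.mul_le_mul_right _ e2)
    exact_mod_cast e3
  have h4 : ((SS q U V).card : ℝ) = q.totient * (U * V) := by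
    unfold SS
    rw [Finset.card_product, Finset.card_product, Finset.card_univ, ZMod.card_units_eq_totient,
      Nat.card_Icc, Nat.card_Icc]
    push_cast
    simp
  have h5 := pairs_le' κ U V hT hT0
  have hφ : (0 : ℝ) < q.totient := by exact_mod_cast Nat.totient_pos.mpr hq0
  have hφq : (q.totient : ℝ) ≤ q := by exact_mod_cast Nat.totient_le q
  rw [h2, h4] at h1
  have h6 : ((q.totient : ℝ) * S) ^ 4 ≤ ((q.totient : ℝ) * (U * V)) ^ 2 *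
      (q.totient * (U * V * q.divisors.card * ((1 + U * V / q) * T))) *
      ((q : ℝ) ^ 2 * ((q.divisors.card : ℝ) ^ 2 * (q.totient : ℝ) ^ 2)) := by
    refine h1.trans ?_
    gcongr
  have h7 : (q.totient : ℝ) ^ 4 * S ^ 4 ≤ (q.totient : ℝ) ^ 4 *
      ((q.totient : ℝ) * (q : ℝ) ^ 2 * (U * V : ℝ) ^ 3 * (1 + U * V / q) *
        ((q.divisors.card : ℝ) ^ 3 * T)) := by
    calc (q.totient : ℝ) ^ 4 * S ^ 4 = ((q.totient : ℝ) * S) ^ 4 := by ring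
      _ ≤ _ := h6
      _ = _ := by ring
  have h8 := le_of_mul_le_mul_left h7 (by positivity)
  refine h8.trans ?_
  have h9 : (q.totient : ℝ) * (q : ℝ) ^ 2 ≤ (q : ℝ) ^ 3 := by
    calc (q.totient : ℝ) * (q : ℝ) ^ 2 ≤ (q : ℝ) * (q : ℝ) ^ 2 := by gcongr
      _ = _ := by ring
  gcongr

end K1_

theorem stmt_K1 : Stmt_K1 := by
  intro ε hε
  obtain ⟨C, hC1, hC⟩ := Pool.Agent.Work.MP_71a505_nt.tau_le (δ := 4 * ε / 5) (by positivity)
  refine ⟨C, by linarith, ?_⟩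
  intro q _ hsq κ U V hU hV hUq hVq
  have hq0 : 0 < q := Nat.pos_of_ne_zero (NeZero.ne q)
  have hq : (1 : ℝ) ≤ q := by exact_mod_cast hq0
  have hqp : (0 : ℝ) < q := by linarith
  have hC0 : (0 : ℝ) < C := by linarith
  set δ := 4 * ε / 5 with hδ
  have hδ0 : 0 < δ := by positivity
  have hT : ∀ m ∈ Icc 1 (U * V), (m.divisors.card : ℝ) ≤ C * (q : ℝ) ^ (2 * δ) := by
    intro m hm
    rw [Finset.mem_Icc] at hm
    refine (hC m (by omega)).trans ?_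
    have h1 : (m : ℝ) ≤ (q : ℝ) ^ (2 : ℝ) := by
      rw [Real.rpow_two]
      calc (m : ℝ) ≤ ((U * V : ℕ) : ℝ) := by exact_mod_cast hm.2
        _ ≤ ((q * q : ℕ) : ℝ) := by exact_mod_cast Nat.mul_le_mul hUq hVq
        _ = _ := by push_cast; ring
    calc C * (m : ℝ) ^ δ ≤ C * ((q : ℝ) ^ (2 : ℝ)) ^ δ := by gcongr
      _ = _ := by rw [← Real.rpow_mul hqp.le]
  have hτ : (q.divisors.card : ℝ) ≤ C * (q : ℝ) ^ δ := hC q hq0.ne'
  have h := K1_.fourth hsq κ U V hT (by positivity)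
  set S := ∑ u ∈ Icc 1 U, ∑ v ∈ Icc 1 V, ‖Kl q (u : ZMod q) (κ * (v : ZMod q))‖ with hS
  have hS0 : 0 ≤ S := Finset.sum_nonneg fun _ _ => Finset.sum_nonneg fun _ _ => norm_nonneg _
  set R := C * (q : ℝ) ^ ε * ((U * V : ℝ) ^ (3 / 4 : ℝ) * (q : ℝ) ^ (3 / 4 : ℝ) *
      (1 + U * V / q : ℝ) ^ (1 / 4 : ℝ)) with hR
  have hR0 : 0 ≤ R := by positivity
  have hUV : (0 : ℝ) ≤ U * V := by positivity
  have h34 : ∀ x : ℝ, 0 ≤ x → (x ^ (3 / 4 : ℝ)) ^ 4 = x ^ 3 := by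
    intro x hx
    rw [← Real.rpow_natCast, ← Real.rpow_mul hx]
    norm_num
  have h14 : ∀ x : ℝ, 0 ≤ x → (x ^ (1 / 4 : ℝ)) ^ 4 = x := by
    intro x hx
    rw [← Real.rpow_natCast, ← Real.rpow_mul hx]
    norm_num
  have hR4 : R ^ 4 = (q : ℝ) ^ 3 * (U * V : ℝ) ^ 3 * (1 + U * V / q) *
      (C ^ 4 * (q : ℝ) ^ (4 * ε)) := by
    rw [hR, mul_pow, mul_pow, mul_pow, mul_pow, h34 _ hUV, h34 _ hqp.le, h14 _ (by positivity)]
    have : ((q : ℝ) ^ ε) ^ 4 = (q : ℝ) ^ (4 * ε) := by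
      rw [← Real.rpow_natCast, ← Real.rpow_mul hqp.le]; congr 1; push_cast; ring
    rw [this]; ring
  have h5 : (q.divisors.card : ℝ) ^ 3 * (C * (q : ℝ) ^ (2 * δ)) ≤ C ^ 4 * (q : ℝ) ^ (4 * ε) := by
    calc (q.divisors.card : ℝ) ^ 3 * (C * (q : ℝ) ^ (2 * δ))
        ≤ (C * (q : ℝ) ^ δ) ^ 3 * (C * (q : ℝ) ^ (2 * δ)) := by gcongr
      _ = C ^ 4 * (((q : ℝ) ^ δ) ^ 3 * (q : ℝ) ^ (2 * δ)) := by ring
      _ = C ^ 4 * (q : ℝ) ^ (4 * ε) := by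
          congr 1
          rw [← Real.rpow_natCast, ← Real.rpow_mul hqp.le, ← Real.rpow_add hqp]
          congr 1
          rw [hδ]; push_cast; ring
  have h6 : S ^ 4 ≤ R ^ 4 := by
    refine h.trans ?_
    rw [hR4]
    gcongr
  exact le_of_pow_le_pow_left₀ (by norm_num) hR0 h6

end Pool.Agent.GapTwo
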