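import Pool.Agent.Work.MP_1ea053_nt.Interface

/-!
# Block K1, part A: the complete fourth moment of Kloosterman sums
-/

set_option autoImplicit false

namespace Pool.Agent.GapTwo

open Finset Filter
open scoped Classical Topology

namespace K1_

/-- The quadruples of units counted by the fourth moment. -/
def Quad (R : Type) [CommRing R] : Type :=
  {x : (Rˣ × Rˣ) × (Rˣ × Rˣ) // (x.1.1 : R) + x.1.2 = x.2.1 + x.2.2 ∧
    ((x.1.1⁻¹ : Rˣ) : R) + ((x.1.2⁻¹ : Rˣ) : R) = ((x.2.1⁻¹ : Rˣ) : R) + ((x.2.2⁻¹ : Rˣ) : R)}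

/-- The image of a quadruple under a ring homomorphism. -/
def Quad.map {R S : Type} [CommRing R] [CommRing S] (f : R →+* S) (x : Quad R) : Quad S :=
  ⟨((Units.map f x.1.1.1, Units.map f x.1.1.2), (Units.map f x.1.2.1, Units.map f x.1.2.2)), by
    constructor
    · have := congrArg f x.2.1
      simpa using this
    · have := congrArg f x.2.2
      simpa [← map_inv] using this⟩

theorem quad_le {R S₁ S₂ : Type} [CommRing R] [CommRing S₁] [CommRing S₂] [Finite S₁] [Finite S₂]
    (f₁ : R →+* S₁) (f₂ : R →+* S₂) (hf : ∀ x y, f₁ x = f₁ y → f₂ x = f₂ y → x = y) :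
    Nat.card (Quad R) ≤ Nat.card (Quad S₁) * Nat.card (Quad S₂) := by
  have : Finite (Quad S₁) := by unfold Quad; infer_instance
  have : Finite (Quad S₂) := by unfold Quad; infer_instance
  rw [← Nat.card_prod]
  refine Nat.card_le_card_of_injective (fun x => (x.map f₁, x.map f₂)) ?_
  intro x y hxy
  have h1 := congrArg (fun z => (z.1.1, z.2.1)) hxy
  simp only [Quad.map, Prod.mk.injEq] at h1
  obtain ⟨⟨⟨a1, a2⟩, a3, a4⟩, ⟨b1, b2⟩, b3, b4⟩ := h1
  have key : ∀ u v : Rˣ, Units.map (f₁ : R →* S₁) u = Units.map (f₁ : R →* S₁) v →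
      Units.map (f₂ : R →* S₂) u = Units.map (f₂ : R →* S₂) v → u = v := by
    intro u v h1 h2
    apply Units.ext
    apply hf
    · have := congrArg Units.val h1
      simpa using this
    · have := congrArg Units.val h2
      simpa using this
  apply Subtype.ext
  exact Prod.ext (Prod.ext (key _ _ a1 b1) (key _ _ a2 b2)) (Prod.ext (key _ _ a3 b3) (key _ _ a4 b4))

theorem quad_prime (p : ℕ) [Fact p.Prime] : Nat.card (Quad (ZMod p)) ≤ 3 * (p - 1) ^ 2 := by
  have hc : Nat.card (ZMod p)ˣ = p - 1 := by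
    rw [Nat.card_eq_fintype_card, ZMod.card_units_eq_totient, Nat.totient_prime Fact.out]
  have h : 3 * (p - 1) ^ 2 = Nat.card (Fin 3 × ((ZMod p)ˣ × (ZMod p)ˣ)) := by
    rw [Nat.card_prod, Nat.card_prod, hc, Nat.card_fin]; ring
  rw [h]
  let g : Fin 3 × ((ZMod p)ˣ × (ZMod p)ˣ) → ((ZMod p)ˣ × (ZMod p)ˣ) × ((ZMod p)ˣ × (ZMod p)ˣ) :=
    fun x => if x.1 = 0 then (x.2, x.2) else
      if x.1 = 1 then (x.2, (x.2.2, x.2.1)) else ((x.2.1, -x.2.1), (x.2.2, -x.2.2))
  have hsurj : ∀ x : Quad (ZMod p), ∃ y, g y = x.1 := by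
    rintro ⟨⟨⟨a, b⟩, c, d⟩, h1, h2⟩
    simp only at h1 h2
    have ha : (a : ZMod p) ≠ 0 := a.ne_zero
    have hb : (b : ZMod p) ≠ 0 := b.ne_zero
    have hc' : (c : ZMod p) ≠ 0 := c.ne_zero
    have hd : (d : ZMod p) ≠ 0 := d.ne_zero
    by_cases hs : (a : ZMod p) + b = 0
    · refine ⟨(2, (a, c)), ?_⟩
      have e1 : b = -a := by
        apply Units.ext; rw [Units.val_neg]; linear_combination hs
      have e2 : d = -c := by
        apply Units.ext; rw [Units.val_neg]; rw [h1] at hs; linear_combination hs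
      simp [g, e1, e2]
    · have h3 : (a : ZMod p) * b = c * d := by
        have h4 : ((a : ZMod p) + b) * (c * d) = ((a : ZMod p) + b) * (a * b) := by
          have e1 : ((a⁻¹ : (ZMod p)ˣ) : ZMod p) * a = 1 := Units.inv_mul a
          have e2 : ((b⁻¹ : (ZMod p)ˣ) : ZMod p) * b = 1 := Units.inv_mul b
          have e3 : ((c⁻¹ : (ZMod p)ˣ) : ZMod p) * c = 1 := Units.inv_mul c
          have e4 : ((d⁻¹ : (ZMod p)ˣ) : ZMod p) * d = 1 := Units.inv_mul d
          have h5 : (((a⁻¹ : (ZMod p)ˣ) : ZMod p) + ((b⁻¹ : (ZMod p)ˣ) : ZMod p)) * (a * b) = a + b := by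
            linear_combination (b : ZMod p) * e1 + (a : ZMod p) * e2
          have h6 : (((c⁻¹ : (ZMod p)ˣ) : ZMod p) + ((d⁻¹ : (ZMod p)ˣ) : ZMod p)) * (c * d) = c + d := by
            linear_combination (d : ZMod p) * e3 + (c : ZMod p) * e4
          calc ((a : ZMod p) + b) * (c * d)
              = ((((a⁻¹ : (ZMod p)ˣ) : ZMod p) + ((b⁻¹ : (ZMod p)ˣ) : ZMod p)) * (a * b)) * (c * d) := by
                rw [h5]
            _ = ((((c⁻¹ : (ZMod p)ˣ) : ZMod p) + ((d⁻¹ : (ZMod p)ˣ) : ZMod p)) * (c * d)) * (a * b) := by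
                rw [h2]; ring
            _ = ((a : ZMod p) + b) * (a * b) := by rw [h6, h1]
        exact (mul_left_cancel₀ hs h4).symm
      have h5 : ((c : ZMod p) - a) * (c - b) = 0 := by linear_combination (-(c : ZMod p)) * h1 + h3
      rcases mul_eq_zero.mp h5 with h | h
      · refine ⟨(0, (a, b)), ?_⟩
        have e1 : c = a := Units.ext (sub_eq_zero.mp h)
        have e2 : d = b := by
          apply Units.ext; rw [e1] at h1; exact (add_left_cancel h1).symm
        simp [g, e1, e2]
      · refine ⟨(1, (a, b)), ?_⟩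
        have e1 : c = b := Units.ext (sub_eq_zero.mp h)
        have e2 : d = a := by
          apply Units.ext; rw [e1] at h1; linear_combination -h1
        simp [g, e1, e2]
  choose F hF using hsurj
  refine Nat.card_le_card_of_injective F ?_
  intro x y hxy
  apply Subtype.ext
  rw [← hF x, ← hF y, hxy]

theorem quad_squarefree (q : ℕ) : Squarefree q →
    Nat.card (Quad (ZMod q)) ≤ 3 ^ q.primeFactors.card * q.totient ^ 2 := by
  induction q using Nat.recOnPosPrimePosCoprime with
  | zero => intro h; exact absurd h not_squarefree_zero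
  | one =>
    intro _
    have : Nat.card (Quad (ZMod 1)) ≤ 1 := by
      have : Subsingleton (ZMod 1) := inferInstance
      have : Subsingleton (Quad (ZMod 1)) := by
        constructor
        intro x y
        apply Subtype.ext
        exact Subsingleton.elim _ _
      exact Finite.card_le_one_iff_subsingleton.mpr inferInstance
    simpa using this
  | prime_pow p n hp hn =>
    intro hsq
    have h1 : n = 1 := by
      by_contra hne
      have h2 : 2 ≤ n := by omega
      have h3 : p * p ∣ p ^ n := by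
        rw [← pow_two]; exact pow_dvd_pow p h2
      exact hp.one_lt.ne' (Nat.isUnit_iff.mp (hsq p h3))
    subst h1
    have : Fact p.Prime := ⟨hp⟩
    rw [pow_one, hp.primeFactors, Nat.totient_prime hp]
    simpa using quad_prime p
  | coprime a b ha hb hab iha ihb =>
    intro hsq
    have ha' := iha (Squarefree.of_mul_left hsq)
    have hb' := ihb (Squarefree.of_mul_right hsq)
    have : NeZero a := ⟨by omega⟩
    have : NeZero b := ⟨by omega⟩
    have h1 := quad_le ((RingHom.fst _ _).comp (ZMod.chineseRemainder hab).toRingHom)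
      ((RingHom.snd _ _).comp (ZMod.chineseRemainder hab).toRingHom) (by
        intro x y hx hy
        have h3 : ZMod.chineseRemainder hab x = ZMod.chineseRemainder hab y := by
          apply Prod.ext
          · exact hx
          · exact hy
        exact (ZMod.chineseRemainder hab).injective h3)
    refine h1.trans ((Nat.mul_le_mul ha' hb').trans (le_of_eq ?_))
    rw [Nat.totient_mul hab, hab.primeFactors_mul, Finset.card_union_of_disjoint
      hab.disjoint_primeFactors]
    ring

end K1_

end Pool.Agent.GapTwo
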