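import Pool.Agent.Work.MP_1ea053_nt.K1A

/-!
# Block K1, part B: the moment identity, invariance, Cauchy–Schwarz
-/

set_option autoImplicit false

namespace Pool.Agent.GapTwo

open Finset Filter
open scoped Classical Topology ComplexConjugate

namespace K1_

variable {q : ℕ} [NeZero q]

theorem star_std (x : ZMod q) : conj (ZMod.stdAddChar x) = ZMod.stdAddChar (-x) := by
  rw [AddChar.map_neg_eq_conj]

theorem parseval2 {X : Type} [Fintype X] (f g : X → ZMod q) :
    ∑ a : ZMod q, ∑ b : ZMod q, ‖∑ x, ZMod.stdAddChar (a * f x + b * g x)‖ ^ 2 =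
      (q : ℝ) ^ 2 * ((univ : Finset (X × X)).filter
        (fun z => f z.1 = f z.2 ∧ g z.1 = g z.2)).card := by
  have h1 : ∀ a b : ZMod q, ((‖∑ x, ZMod.stdAddChar (a * f x + b * g x)‖ ^ 2 : ℝ) : ℂ) =
      ∑ x, ∑ y, ZMod.stdAddChar (a * (f x - f y)) * ZMod.stdAddChar (b * (g x - g y)) := by
    intro a b
    rw [Complex.ofReal_pow, ← Complex.mul_conj', map_sum, Finset.sum_mul_sum]
    refine Finset.sum_congr rfl fun x _ => Finset.sum_congr rfl fun y _ => ?_
    rw [star_std, ← AddChar.map_add_eq_mul, ← AddChar.map_add_eq_mul]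
    congr 1; ring
  have hq : ∀ c : ZMod q, ∑ a : ZMod q, ZMod.stdAddChar (a * c) = if c = 0 then (q : ℂ) else 0 := by
    intro c
    have := AddChar.sum_mulShift c (ZMod.isPrimitive_stdAddChar q)
    rw [this, ZMod.card]
    split_ifs <;> simp
  have h2 : ((∑ a : ZMod q, ∑ b : ZMod q, ‖∑ x, ZMod.stdAddChar (a * f x + b * g x)‖ ^ 2 : ℝ) : ℂ) =
      ((q : ℝ) ^ 2 * ((univ : Finset (X × X)).filter
        (fun z => f z.1 = f z.2 ∧ g z.1 = g z.2)).card : ℝ) := by
    rw [Complex.ofReal_sum]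
    simp only [Complex.ofReal_sum, h1]
    calc ∑ a : ZMod q, ∑ b : ZMod q, ∑ x, ∑ y,
          ZMod.stdAddChar (a * (f x - f y)) * ZMod.stdAddChar (b * (g x - g y))
        = ∑ x, ∑ y, (∑ a : ZMod q, ZMod.stdAddChar (a * (f x - f y))) *
            (∑ b : ZMod q, ZMod.stdAddChar (b * (g x - g y))) := by
          have e1 : ∀ a : ZMod q, ∑ b : ZMod q, ∑ x, ∑ y,
              ZMod.stdAddChar (a * (f x - f y)) * ZMod.stdAddChar (b * (g x - g y)) =
              ∑ x, ∑ y, ZMod.stdAddChar (a * (f x - f y)) *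
                ∑ b : ZMod q, ZMod.stdAddChar (b * (g x - g y)) := by
            intro a
            rw [Finset.sum_comm]
            refine Finset.sum_congr rfl fun x _ => ?_
            rw [Finset.sum_comm]
            refine Finset.sum_congr rfl fun y _ => ?_
            rw [Finset.mul_sum]
          rw [Finset.sum_congr rfl fun a _ => e1 a, Finset.sum_comm]
          refine Finset.sum_congr rfl fun x _ => ?_
          rw [Finset.sum_comm]
          refine Finset.sum_congr rfl fun y _ => ?_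
          rw [Finset.sum_mul]
      _ = ∑ x, ∑ y, (if f x = f y ∧ g x = g y then ((q : ℂ) ^ 2) else 0) := by
          refine Finset.sum_congr rfl fun x _ => Finset.sum_congr rfl fun y _ => ?_
          rw [hq, hq]
          by_cases h1 : f x = f y <;> by_cases h2 : g x = g y <;>
            simp [h1, h2, sub_eq_zero, pow_two]
      _ = _ := by
          rw [← Finset.sum_product', Finset.univ_product_univ, ← Finset.sum_filter,
            Finset.sum_const, nsmul_eq_mul]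
          push_cast
          ring
  exact_mod_cast h2

theorem moment : ∑ a : ZMod q, ∑ b : ZMod q, ‖Kl q a b‖ ^ 4 =
    (q : ℝ) ^ 2 * Nat.card (Quad (ZMod q)) := by
  have h := parseval2 (q := q) (X := (ZMod q)ˣ × (ZMod q)ˣ) (fun x => (x.1 : ZMod q) + (x.2 : ZMod q))
    (fun x => ((x.1⁻¹ : (ZMod q)ˣ) : ZMod q) + ((x.2⁻¹ : (ZMod q)ˣ) : ZMod q))
  have e : ∀ a b : ZMod q, ‖Kl q a b‖ ^ 4 = ‖∑ x : (ZMod q)ˣ × (ZMod q)ˣ,
      ZMod.stdAddChar (a * ((x.1 : ZMod q) + (x.2 : ZMod q)) +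
        b * (((x.1⁻¹ : (ZMod q)ˣ) : ZMod q) + ((x.2⁻¹ : (ZMod q)ˣ) : ZMod q)))‖ ^ 2 := by
    intro a b
    have e1 : (∑ x : (ZMod q)ˣ × (ZMod q)ˣ,
      ZMod.stdAddChar (a * ((x.1 : ZMod q) + (x.2 : ZMod q)) +
        b * (((x.1⁻¹ : (ZMod q)ˣ) : ZMod q) + ((x.2⁻¹ : (ZMod q)ˣ) : ZMod q))) : ℂ) = Kl q a b ^ 2 := by
      rw [pow_two, Kl, Finset.sum_mul_sum, ← Finset.univ_product_univ, Finset.sum_product]
      refine Finset.sum_congr rfl fun x _ => Finset.sum_congr rfl fun y _ => ?_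
      rw [← AddChar.map_add_eq_mul]
      congr 1; ring
    rw [e1, norm_pow]; ring
  rw [Finset.sum_congr rfl fun a _ => Finset.sum_congr rfl fun b _ => e a b, h]
  congr 2
  rw [Quad, Nat.card_eq_fintype_card, Fintype.card_subtype]

theorem kl_inv (t : (ZMod q)ˣ) (u v : ZMod q) :
    Kl q (t * u) ((t⁻¹ : (ZMod q)ˣ) * v) = Kl q u v := by
  unfold Kl
  refine Fintype.sum_equiv (Equiv.mulLeft t) _ _ ?_
  intro x
  congr 1
  simp only [Equiv.coe_mulLeft, Units.val_mul, mul_inv_rev]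
  ring

theorem holder {I A : Type} [Fintype A] [DecidableEq A] (s : Finset I) (f : I → A) (K : A → ℝ) :
    (∑ i ∈ s, K (f i)) ^ 4 ≤ (s.card : ℝ) ^ 2 *
      ((s ×ˢ s).filter (fun z => f z.1 = f z.2)).card * ∑ a, K a ^ 4 := by
  have h1 : (∑ i ∈ s, K (f i)) ^ 2 ≤ s.card * ∑ i ∈ s, K (f i) ^ 2 := sq_sum_le_card_mul_sum_sq
  have h2 : ∑ i ∈ s, K (f i) ^ 2 = ∑ a, ((s.filter (fun i => f i = a)).card : ℝ) * K a ^ 2 := by
    rw [← Finset.sum_fiberwise s f (fun i => K (f i) ^ 2)]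
    refine Finset.sum_congr rfl fun a _ => ?_
    rw [← nsmul_eq_mul, ← Finset.sum_const]
    refine Finset.sum_congr rfl fun i hi => ?_
    rw [(Finset.mem_filter.mp hi).2]
  have h3 : (∑ a, ((s.filter (fun i => f i = a)).card : ℝ) * K a ^ 2) ^ 2 ≤
      (∑ a, ((s.filter (fun i => f i = a)).card : ℝ) ^ 2) * ∑ a, (K a ^ 2) ^ 2 :=
    Finset.sum_mul_sq_le_sq_mul_sq _ _ _
  have h4 : (∑ a, ((s.filter (fun i => f i = a)).card : ℝ) ^ 2) =
      ((s ×ˢ s).filter (fun z => f z.1 = f z.2)).card := by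
    have e : ((s ×ˢ s).filter (fun z => f z.1 = f z.2)).card =
        ∑ a, (s.filter (fun i => f i = a)).card ^ 2 := by
      rw [Finset.card_eq_sum_card_fiberwise (f := fun z => f z.1) (t := univ)
        (fun _ _ => Finset.mem_coe.mpr (Finset.mem_univ _))]
      refine Finset.sum_congr rfl fun a _ => ?_
      rw [pow_two, ← Finset.card_product]
      congr 1
      ext ⟨x, y⟩
      simp only [Finset.mem_filter, Finset.mem_product]
      constructor
      · rintro ⟨⟨⟨h1, h2⟩, h3⟩, h4⟩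
        exact ⟨⟨h1, h4⟩, h2, h3 ▸ h4⟩
      · rintro ⟨⟨h1, h2⟩, h3, h4⟩
        exact ⟨⟨⟨h1, h3⟩, h2.trans h4.symm⟩, h2⟩
    rw [e]; push_cast; rfl
  have h5 : 0 ≤ ∑ i ∈ s, K (f i) ^ 2 := Finset.sum_nonneg fun i _ => sq_nonneg _
  calc (∑ i ∈ s, K (f i)) ^ 4 = ((∑ i ∈ s, K (f i)) ^ 2) ^ 2 := by ring
    _ ≤ (s.card * ∑ i ∈ s, K (f i) ^ 2) ^ 2 := by
        apply pow_le_pow_left₀ (sq_nonneg _) h1
    _ = (s.card : ℝ) ^ 2 * (∑ i ∈ s, K (f i) ^ 2) ^ 2 := by ring
    _ ≤ (s.card : ℝ) ^ 2 * ((∑ a, ((s.filter (fun i => f i = a)).card : ℝ) ^ 2) *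
          ∑ a, (K a ^ 2) ^ 2) := by
        rw [h2]
        exact mul_le_mul_of_nonneg_left h3 (sq_nonneg _)
    _ = _ := by
        rw [h4, ← mul_assoc]
        congr 1
        refine Finset.sum_congr rfl fun a _ => ?_
        ring

end K1_

end Pool.Agent.GapTwo
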