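import Pool.Agent.Work.MP_1ea053_nt.K1B
import Pool.Agent.Work.MP_71a505_nt.Tau

/-!
# Block K1, part C: the counting step and the final bound
-/

set_option autoImplicit false

namespace Pool.Agent.GapTwo

open Finset Filter
open scoped Classical Topology ComplexConjugate

namespace K1_

variable {q : ℕ} [NeZero q]

/-- The multiples. -/
theorem count_u (x : ZMod q) (U : ℕ) :
    (((Icc 1 U).filter (fun u : ℕ => x * (u : ZMod q) = 0)).card : ℝ) ≤ (U : ℝ) / (addOrderOf x : ℝ) := by
  have h : (Icc 1 U).filter (fun u : ℕ => x * (u : ZMod q) = 0) =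
      (Ioc 0 U).filter (fun u => addOrderOf x ∣ u) := by
    ext u
    simp only [Finset.mem_filter, Finset.mem_Icc, Finset.mem_Ioc,
      addOrderOf_dvd_iff_nsmul_eq_zero, nsmul_eq_mul]
    constructor
    · rintro ⟨⟨h1, h2⟩, h3⟩
      exact ⟨⟨h1, h2⟩, by rw [mul_comm]; exact h3⟩
    · rintro ⟨⟨h1, h2⟩, h3⟩
      exact ⟨⟨h1, h2⟩, by rw [mul_comm]; exact h3⟩
  rw [h, Nat.Ioc_filter_dvd_card_eq_div]
  exact Nat.cast_div_le

theorem sum_order : ∑ x : ZMod q, 1 / (addOrderOf x : ℝ) ^ 2 ≤ (q.divisors.card : ℝ) := by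
  have h1 : ∀ x ∈ (univ : Finset (ZMod q)), addOrderOf x ∈ q.divisors := by
    intro x _
    rw [Nat.mem_divisors]
    refine ⟨?_, NeZero.ne q⟩
    have := addOrderOf_dvd_card (x := x)
    rwa [ZMod.card] at this
  rw [← Finset.sum_fiberwise_of_maps_to h1]
  have h2 : (q.divisors.card : ℝ) = ∑ d ∈ q.divisors, (1 : ℝ) := by simp
  rw [h2]
  refine Finset.sum_le_sum fun d hd => ?_
  have hd0 : 0 < d := Nat.pos_of_mem_divisors hd
  have h3 : ∑ x ∈ (univ : Finset (ZMod q)).filter (fun x => addOrderOf x = d),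
      1 / (addOrderOf x : ℝ) ^ 2 =
      ((univ : Finset (ZMod q)).filter (fun x => addOrderOf x = d)).card * (1 / (d : ℝ) ^ 2) := by
    rw [← nsmul_eq_mul, ← Finset.sum_const]
    refine Finset.sum_congr rfl fun x hx => ?_
    rw [(Finset.mem_filter.mp hx).2]
  rw [h3]
  have h4 : ((univ : Finset (ZMod q)).filter (fun x => addOrderOf x = d)).card ≤ d := by
    refine le_trans (Finset.card_le_card ?_) (IsAddCyclic.card_nsmul_eq_zero_le (α := ZMod q) hd0)
    intro x hx
    simp only [Finset.mem_filter, Finset.mem_univ, true_and] at hx ⊢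
    rw [← hx]
    exact addOrderOf_nsmul_eq_zero x
  have h5 : (((univ : Finset (ZMod q)).filter (fun x => addOrderOf x = d)).card : ℝ) ≤ d := by
    exact_mod_cast h4
  have hd1 : (1 : ℝ) ≤ d := by exact_mod_cast hd0
  calc (((univ : Finset (ZMod q)).filter (fun x => addOrderOf x = d)).card : ℝ) * (1 / (d : ℝ) ^ 2)
      ≤ (d : ℝ) * (1 / (d : ℝ) ^ 2) := by gcongr
    _ = 1 / (d : ℝ) := by field_simp
    _ ≤ 1 := by rw [div_le_one (by positivity)]; exact hd1

/-- The number of the residues killed by `u` and `v`. -/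
noncomputable def ZZ (q : ℕ) [NeZero q] (u v : ℕ) : ℕ :=
  ((univ : Finset (ZMod q)).filter (fun x => x * (u : ZMod q) = 0 ∧ x * (v : ZMod q) = 0)).card

theorem sum_ZZ (U V : ℕ) : ∑ p ∈ Icc 1 U ×ˢ Icc 1 V, (ZZ q p.1 p.2 : ℝ) ≤
    U * V * q.divisors.card := by
  have h1 : ∑ p ∈ Icc 1 U ×ˢ Icc 1 V, (ZZ q p.1 p.2 : ℝ) =
      ∑ x : ZMod q, (((Icc 1 U).filter (fun u : ℕ => x * (u : ZMod q) = 0)).card : ℝ) *
        ((Icc 1 V).filter (fun u : ℕ => x * (u : ZMod q) = 0)).card := by
    have e1 : ∀ p ∈ Icc 1 U ×ˢ Icc 1 V, (ZZ q p.1 p.2 : ℝ) =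
        ∑ x : ZMod q, (if x * (p.1 : ZMod q) = 0 then (1 : ℝ) else 0) *
          (if x * (p.2 : ZMod q) = 0 then (1 : ℝ) else 0) := by
      intro p _
      rw [ZZ, Finset.card_filter]
      push_cast
      refine Finset.sum_congr rfl fun x _ => ?_
      by_cases h1 : x * (p.1 : ZMod q) = 0 <;> by_cases h2 : x * (p.2 : ZMod q) = 0 <;>
        simp [h1, h2]
    rw [Finset.sum_congr rfl e1, Finset.sum_comm]
    refine Finset.sum_congr rfl fun x _ => ?_
    rw [Finset.sum_product, Finset.card_filter, Finset.card_filter]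
    push_cast
    rw [Finset.sum_mul_sum]
  rw [h1]
  calc ∑ x : ZMod q, (((Icc 1 U).filter (fun u : ℕ => x * (u : ZMod q) = 0)).card : ℝ) *
        ((Icc 1 V).filter (fun u : ℕ => x * (u : ZMod q) = 0)).card
      ≤ ∑ x : ZMod q, ((U : ℝ) / (addOrderOf x : ℝ)) * ((V : ℝ) / (addOrderOf x : ℝ)) := by
        refine Finset.sum_le_sum fun x _ => ?_
        exact mul_le_mul (count_u x U) (count_u x V) (by positivity) (by positivity)
    _ = U * V * ∑ x : ZMod q, 1 / (addOrderOf x : ℝ) ^ 2 := by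
        rw [Finset.mul_sum]
        refine Finset.sum_congr rfl fun x _ => ?_
        have : (addOrderOf x : ℝ) ≠ 0 := by
          have := addOrderOf_pos x
          positivity
        field_simp
    _ ≤ U * V * q.divisors.card := by
        have := sum_order (q := q)
        gcongr

theorem card_class (X : ℕ) (n : ZMod q) :
    (((Icc 1 X).filter (fun m : ℕ => (m : ZMod q) = n)).card : ℝ) ≤ 1 + X / q := by
  have hq : 0 < q := Nat.pos_of_ne_zero (NeZero.ne q)
  have h1 : ((Icc 1 X).filter (fun m : ℕ => (m : ZMod q) = n)).card ≤ (range (X / q + 1)).card := by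
    refine Finset.card_le_card_of_injOn (fun m => m / q) ?_ ?_
    · intro m hm
      simp only [Finset.coe_filter, Finset.mem_Icc, Set.mem_ofPred_eq] at hm
      simp only [Finset.coe_range, Set.mem_Iio]
      exact Nat.lt_succ_of_le (Nat.div_le_div_right hm.1.2)
    · intro m hm m' hm' h
      simp only [Finset.coe_filter, Finset.mem_Icc, Set.mem_ofPred_eq] at hm hm'
      have h2 : m % q = m' % q := by
        have : (m : ZMod q) = m' := hm.2.trans hm'.2.symm
        exact (ZMod.natCast_eq_natCast_iff' m m' q).mp this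
      rw [← Nat.div_add_mod m q, ← Nat.div_add_mod m' q, h2]
      simp only at h
      rw [h]
  rw [Finset.card_range] at h1
  calc (((Icc 1 X).filter (fun m : ℕ => (m : ZMod q) = n)).card : ℝ)
      ≤ ((X / q + 1 : ℕ) : ℝ) := by exact_mod_cast h1
    _ = 1 + ((X / q : ℕ) : ℝ) := by push_cast; ring
    _ ≤ 1 + X / q := by gcongr; exact Nat.cast_div_le

theorem card_fiber {T : ℝ} (U V : ℕ) (hT : ∀ m ∈ Icc 1 (U * V), (m.divisors.card : ℝ) ≤ T)
    (hT0 : 0 ≤ T) (n : ZMod q) :
    (((Icc 1 U ×ˢ Icc 1 V).filter (fun p : ℕ × ℕ => (p.1 : ZMod q) * p.2 = n)).card : ℝ) ≤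
      (1 + U * V / q) * T := by
  have h1 : ∀ p ∈ (Icc 1 U ×ˢ Icc 1 V).filter (fun p : ℕ × ℕ => (p.1 : ZMod q) * p.2 = n),
      p.1 * p.2 ∈ (Icc 1 (U * V)).filter (fun m : ℕ => (m : ZMod q) = n) := by
    intro p hp
    simp only [Finset.mem_filter, Finset.mem_product, Finset.mem_Icc] at hp ⊢
    refine ⟨⟨Nat.mul_pos hp.1.1.1 hp.1.2.1, Nat.mul_le_mul hp.1.1.2 hp.1.2.2⟩, ?_⟩
    rw [Nat.cast_mul]; exact hp.2
  rw [Finset.card_eq_sum_card_fiberwise h1]
  push_cast
  calc ∑ m ∈ (Icc 1 (U * V)).filter (fun m : ℕ => (m : ZMod q) = n),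
        ((((Icc 1 U ×ˢ Icc 1 V).filter (fun p : ℕ × ℕ => (p.1 : ZMod q) * p.2 = n)).filter
          (fun p => p.1 * p.2 = m)).card : ℝ)
      ≤ ∑ m ∈ (Icc 1 (U * V)).filter (fun m : ℕ => (m : ZMod q) = n), T := by
        refine Finset.sum_le_sum fun m hm => ?_
        refine le_trans ?_ (hT m (Finset.mem_filter.mp hm).1)
        norm_cast
        refine Finset.card_le_card_of_injOn (fun p => p.1) ?_ ?_
        · intro p hp
          simp only [Finset.coe_filter, Finset.mem_filter, Finset.mem_product, Finset.mem_Icc,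
            Set.mem_ofPred_eq] at hp
          simp only [Finset.mem_coe, Nat.mem_divisors]
          refine ⟨⟨p.2, hp.2.symm⟩, ?_⟩
          rw [← hp.2]
          exact (Nat.mul_pos hp.1.1.1.1 hp.1.1.2.1).ne'
        · intro p hp p' hp' h
          simp only [Finset.coe_filter, Finset.mem_filter, Finset.mem_product, Finset.mem_Icc,
            Set.mem_ofPred_eq] at hp hp'
          simp only at h
          refine Prod.ext h ?_
          have e : p.1 * p.2 = p.1 * p'.2 := by rw [hp.2, h, hp'.2]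
          exact Nat.eq_of_mul_eq_mul_left hp.1.1.1.1 e
    _ = (((Icc 1 (U * V)).filter (fun m : ℕ => (m : ZMod q) = n)).card : ℝ) * T := by
        rw [Finset.sum_const, nsmul_eq_mul]
    _ ≤ (1 + U * V / q) * T := by
        have := card_class (q := q) (U * V) n
        push_cast at this
        gcongr

end K1_

end Pool.Agent.GapTwo
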