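import Pool.Agent.Work.MP_1ea053_nt.K2B

/-!
# Block K2: points of a modular hyperbola in a box
-/

set_option autoImplicit false

namespace Pool.Agent.GapTwo

open Finset Filter
open scoped Classical Topology ComplexConjugate

namespace K2_

variable {q : ℕ} [NeZero q]

theorem sum_nonzero (g : ZMod q → ℝ) :
    ∑ u ∈ (univ : Finset (ZMod q)).erase 0, g u = ∑ k ∈ Icc 1 (q - 1), g (k : ZMod q) := by
  have hq0 : 0 < q := Nat.pos_of_ne_zero (NeZero.ne q)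
  symm
  refine Finset.sum_nbij' (fun k => (k : ZMod q)) (fun u => u.val) ?_ ?_ ?_ ?_ ?_
  · intro k hk
    rw [Finset.mem_Icc] at hk
    refine Finset.mem_erase.mpr ⟨?_, Finset.mem_univ _⟩
    intro h
    rw [ZMod.natCast_eq_zero_iff] at h
    exact absurd (Nat.le_of_dvd (by omega) h) (by omega)
  · intro u hu
    have h1 := (Finset.mem_erase.mp hu).1
    have h2 := ZMod.val_lt u
    have h3 : u.val ≠ 0 := fun h => h1 ((ZMod.val_eq_zero u).mp h)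
    rw [Finset.mem_Icc]
    omega
  · intro k hk
    rw [Finset.mem_Icc] at hk
    rw [ZMod.val_natCast, Nat.mod_eq_of_lt (by omega)]
  · intro u _
    rw [ZMod.natCast_zmod_val]
  · intro k _
    rfl

theorem reflect (a : ℕ → ℝ) (h : ZMod q → ℝ) :
    ∑ k ∈ Icc 1 (q - 1), (a k + a (q - k)) * h (k : ZMod q) =
      ∑ k ∈ Icc 1 (q - 1), a k * (h (k : ZMod q) + h (-(k : ZMod q))) := by
  simp_rw [add_mul, mul_add]
  rw [Finset.sum_add_distrib, Finset.sum_add_distrib]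
  congr 1
  refine Finset.sum_nbij' (fun k => q - k) (fun k => q - k) ?_ ?_ ?_ ?_ ?_
  · intro k hk; rw [Finset.mem_Icc] at *; omega
  · intro k hk; rw [Finset.mem_Icc] at *; omega
  · intro k hk; rw [Finset.mem_Icc] at *; omega
  · intro k hk; rw [Finset.mem_Icc] at *; omega
  · intro k hk
    rw [Finset.mem_Icc] at hk
    have e : ((q - k : ℕ) : ZMod q) = -(k : ZMod q) := by
      rw [Nat.cast_sub (by omega)]; simp
    rw [e, neg_neg]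

theorem kl_neg (u v : ZMod q) : Kl q (-u) v = Kl q u (-v) := by
  have := K1_.kl_inv (q := q) (-1) u (-v)
  simpa using this

/-- The off-axis terms. -/
theorem off_le (c : (ZMod q)ˣ) (x y : ℤ) (D F : ℕ) :
    ∑ u ∈ (univ : Finset (ZMod q)).erase 0, ∑ v ∈ (univ : Finset (ZMod q)).erase 0,
      ‖Ah q (Ioc x (x + D)) u‖ * ‖Ah q (Ioc y (y + F)) v‖ * ‖Kl q u (c * v)‖ ≤
    ∑ k ∈ Icc 1 (q - 1), ∑ l ∈ Icc 1 (q - 1), wt q D k * wt q F l *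
      (2 * (‖Kl q (k : ZMod q) (c * (l : ZMod q))‖ +
        ‖Kl q (k : ZMod q) ((-c : (ZMod q)ˣ) * (l : ZMod q))‖)) := by
  set H : ZMod q → ℝ := fun u => ∑ l ∈ Icc 1 (q - 1), (wt q F l + wt q F (q - l)) *
    ‖Kl q u (c * (l : ZMod q))‖ with hH
  have hH0 : ∀ u, 0 ≤ H u := by
    intro u
    refine Finset.sum_nonneg fun l _ => mul_nonneg (add_nonneg (wt_nonneg _ _ _) (wt_nonneg _ _ _))
      (norm_nonneg _)
  have hH1 : ∀ u, H u = ∑ l ∈ Icc 1 (q - 1), wt q F l * (‖Kl q u (c * (l : ZMod q))‖ +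
      ‖Kl q u (-(c * (l : ZMod q)))‖) := by
    intro u
    rw [hH]
    simp only
    rw [reflect (wt q F) (fun v => ‖Kl q u ((c : ZMod q) * v)‖)]
    refine Finset.sum_congr rfl fun l _ => ?_
    simp only [mul_neg]
  have hH2 : ∀ u, H (-u) = H u := by
    intro u
    rw [hH1, hH1]
    refine Finset.sum_congr rfl fun l _ => ?_
    rw [kl_neg, kl_neg, neg_neg, add_comm]
  rw [sum_nonzero (fun u => ∑ v ∈ (univ : Finset (ZMod q)).erase 0,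
      ‖Ah q (Ioc x (x + D)) u‖ * ‖Ah q (Ioc y (y + F)) v‖ * ‖Kl q u (c * v)‖)]
  calc ∑ k ∈ Icc 1 (q - 1), ∑ v ∈ (univ : Finset (ZMod q)).erase 0,
      ‖Ah q (Ioc x (x + D)) (k : ZMod q)‖ * ‖Ah q (Ioc y (y + F)) v‖ * ‖Kl q (k : ZMod q) (c * v)‖
      ≤ ∑ k ∈ Icc 1 (q - 1), (wt q D k + wt q D (q - k)) * H (k : ZMod q) := by
        refine Finset.sum_le_sum fun k hk => ?_
        rw [Finset.mem_Icc] at hk
        rw [sum_nonzero (fun v => ‖Ah q (Ioc x (x + D)) (k : ZMod q)‖ *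
          ‖Ah q (Ioc y (y + F)) v‖ * ‖Kl q (k : ZMod q) (c * v)‖)]
        have h1 := Ah_le (q := q) x D k hk.1 (by omega)
        calc ∑ l ∈ Icc 1 (q - 1), ‖Ah q (Ioc x (x + D)) (k : ZMod q)‖ *
              ‖Ah q (Ioc y (y + F)) (l : ZMod q)‖ * ‖Kl q (k : ZMod q) (c * (l : ZMod q))‖
            ≤ ∑ l ∈ Icc 1 (q - 1), (wt q D k + wt q D (q - k)) *
              (wt q F l + wt q F (q - l)) * ‖Kl q (k : ZMod q) (c * (l : ZMod q))‖ := by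
              refine Finset.sum_le_sum fun l hl => ?_
              rw [Finset.mem_Icc] at hl
              have h2 := Ah_le (q := q) y F l hl.1 (by omega)
              have h3 := wt_nonneg q D k
              have h4 := wt_nonneg q D (q - k)
              gcongr
          _ = _ := by
              rw [hH, Finset.mul_sum]
              refine Finset.sum_congr rfl fun l _ => ?_
              ring
    _ = ∑ k ∈ Icc 1 (q - 1), wt q D k * (H (k : ZMod q) + H (-(k : ZMod q))) :=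
        reflect (wt q D) H
    _ = _ := by
        refine Finset.sum_congr rfl fun k _ => ?_
        rw [hH2, hH1, ← two_mul, Finset.mul_sum, Finset.mul_sum]
        refine Finset.sum_congr rfl fun l _ => ?_
        rw [Units.val_neg, neg_mul]
        ring

theorem split_sum (f : ZMod q → ZMod q → ℂ) :
    ∑ u, ∑ v, f u v = ∑ v, f 0 v + ∑ u, f u 0 - f 0 0 +
      ∑ u ∈ (univ : Finset (ZMod q)).erase 0, ∑ v ∈ (univ : Finset (ZMod q)).erase 0, f u v := by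
  have h1 : ∀ g : ZMod q → ℂ, ∑ u, g u = g 0 + ∑ u ∈ (univ : Finset (ZMod q)).erase 0, g u := by
    intro g
    rw [Finset.add_sum_erase _ _ (Finset.mem_univ _)]
  rw [h1 (fun u => ∑ v, f u v), Finset.sum_congr rfl fun u _ => h1 (f u), Finset.sum_add_distrib]
  rw [h1 (fun u => f u 0)]
  ring

/-- The error term in terms of the off-axis sum. -/
theorem main_le (c : (ZMod q)ˣ) (x y : ℤ) (D F : ℕ) :
    |(q : ℝ) ^ 2 * (((Ioc x (x + D) ×ˢ Ioc y (y + F)).filter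
        (fun z : ℤ × ℤ => (z.1 : ZMod q) * (z.2 : ZMod q) = c)).card : ℝ) - D * F * q.totient| ≤
    (D + F) * (q * q.divisors.card) +
    ∑ u ∈ (univ : Finset (ZMod q)).erase 0, ∑ v ∈ (univ : Finset (ZMod q)).erase 0,
      ‖Ah q (Ioc x (x + D)) u‖ * ‖Ah q (Ioc y (y + F)) v‖ * ‖Kl q u (c * v)‖ := by
  set I := Ioc x (x + D) with hI
  set J := Ioc y (y + F) with hJ
  have hIc : (I.card : ℂ) = D := by rw [hI]; simp
  have hJc : (J.card : ℂ) = F := by rw [hJ]; simp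
  set NI := (I.filter (fun n : ℤ => IsUnit (n : ZMod q))).card with hNI
  set NJ := (J.filter (fun n : ℤ => IsUnit (n : ZMod q))).card with hNJ
  set N := ((I ×ˢ J).filter (fun z : ℤ × ℤ => (z.1 : ZMod q) * (z.2 : ZMod q) = c)).card with hN
  have h1 := count_eq (q := q) I J c
  rw [split_sum (fun u v => Ah q I u * Ah q J v * Kl q u (c * v))] at h1
  have e1 : ∑ v : ZMod q, Ah q I 0 * Ah q J v * Kl q 0 (c * v) = D * (q * (NJ : ℂ)) := by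
    rw [hNJ, ← sum_unit J, Ah_zero, hIc, Finset.mul_sum]
    refine Finset.sum_congr rfl fun v _ => ?_
    rw [kl_zero']
    ring
  have e2 : ∑ u : ZMod q, Ah q I u * Ah q J 0 * Kl q u (c * 0) = F * (q * (NI : ℂ)) := by
    rw [hNI, ← sum_unit I, Ah_zero, hJc, Finset.mul_sum]
    refine Finset.sum_congr rfl fun u _ => ?_
    rw [mul_zero, kl_zero]
    ring
  have e3 : Ah q I 0 * Ah q J 0 * Kl q 0 (c * 0) = D * F * (q.totient : ℂ) := by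
    rw [Ah_zero, Ah_zero, hIc, hJc, mul_zero, kl_zero]
    simp [ZMod.card_units_eq_totient]
  rw [e1, e2, e3] at h1
  set R := ∑ u ∈ (univ : Finset (ZMod q)).erase 0, ∑ v ∈ (univ : Finset (ZMod q)).erase 0,
    Ah q I u * Ah q J v * Kl q u (c * v) with hR
  have h2 : (((q : ℝ) ^ 2 * (N : ℝ) - D * F * q.totient : ℝ) : ℂ) =
      ((D * (q * (NJ : ℝ) - F * q.totient) + F * (q * (NI : ℝ) - D * q.totient) : ℝ) : ℂ) + R := by
    push_cast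
    linear_combination h1
  have h3 : |(q : ℝ) ^ 2 * (N : ℝ) - D * F * q.totient| ≤
      |D * (q * (NJ : ℝ) - F * q.totient) + F * (q * (NI : ℝ) - D * q.totient)| + ‖R‖ := by
    have := congrArg (fun z : ℂ => ‖z‖) h2
    rw [Complex.norm_real, Real.norm_eq_abs] at this
    rw [this]
    refine (norm_add_le _ _).trans ?_
    rw [Complex.norm_real, Real.norm_eq_abs]
  refine h3.trans ?_
  have h4 : |D * (q * (NJ : ℝ) - F * q.totient) + F * (q * (NI : ℝ) - D * q.totient)| ≤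
      (D + F) * (q * q.divisors.card) := by
    have a1 := card_unit (q := q) y F
    have a2 := card_unit (q := q) x D
    rw [← hJ, ← hNJ] at a1
    rw [← hI, ← hNI] at a2
    calc |D * (q * (NJ : ℝ) - F * q.totient) + F * (q * (NI : ℝ) - D * q.totient)|
        ≤ |D * (q * (NJ : ℝ) - F * q.totient)| + |F * (q * (NI : ℝ) - D * q.totient)| :=
          abs_add_le _ _
      _ = D * |q * (NJ : ℝ) - F * q.totient| + F * |q * (NI : ℝ) - D * q.totient| := by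
          rw [abs_mul, abs_mul, Nat.abs_cast, Nat.abs_cast]
      _ ≤ D * (q * q.divisors.card) + F * (q * q.divisors.card) := by gcongr
      _ = _ := by ring
  have h5 : ‖R‖ ≤ ∑ u ∈ (univ : Finset (ZMod q)).erase 0, ∑ v ∈ (univ : Finset (ZMod q)).erase 0,
      ‖Ah q I u‖ * ‖Ah q J v‖ * ‖Kl q u (c * v)‖ := by
    rw [hR]
    refine (norm_sum_le _ _).trans (Finset.sum_le_sum fun u _ => ?_)
    refine (norm_sum_le _ _).trans (Finset.sum_le_sum fun v _ => ?_)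
    rw [norm_mul, norm_mul]
  exact add_le_add h4 h5

theorem final {C ε : ℝ} (hC : 0 < C) (hK : ∀ (κ : (ZMod q)ˣ) (U V : ℕ), 1 ≤ U → 1 ≤ V → U ≤ q →
    V ≤ q → ∑ u ∈ Icc 1 U, ∑ v ∈ Icc 1 V, ‖Kl q (u : ZMod q) (κ * (v : ZMod q))‖ ≤
    C * (q : ℝ) ^ ε * ((U * V : ℝ) ^ (3 / 4 : ℝ) * (q : ℝ) ^ (3 / 4 : ℝ) *
      (1 + U * V / q : ℝ) ^ (1 / 4 : ℝ))) (c : (ZMod q)ˣ) (D F : ℕ) :
    ∑ k ∈ Icc 1 (q - 1), ∑ l ∈ Icc 1 (q - 1), wt q D k * wt q F l *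
      (2 * (‖Kl q (k : ZMod q) (c * (l : ZMod q))‖ +
        ‖Kl q (k : ZMod q) ((-c : (ZMod q)ˣ) * (l : ZMod q))‖)) ≤
    4 * C * (q : ℝ) ^ ε * (1 + Real.log q) ^ 2 * ((q : ℝ) ^ 2 *
      ((D * F * q : ℝ) ^ (1 / 4 : ℝ) + (q : ℝ) ^ (1 / 2 : ℝ))) := by
  have hq1 : 0 < q := Nat.pos_of_ne_zero (NeZero.ne q)
  have hq0 : (0 : ℝ) < q := by exact_mod_cast hq1
  have hq1' : (1 : ℝ) ≤ q := by exact_mod_cast hq1
  have hlog : 0 ≤ Real.log q := Real.log_nonneg hq1'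
  set G : ℕ → ℕ → ℝ := fun k l => 4 * C * (q : ℝ) ^ ε * ((q : ℝ) ^ (3 / 4 : ℝ) *
    ((k : ℝ) ^ (-(1 / 4) : ℝ) * (l : ℝ) ^ (-(1 / 4) : ℝ)) + (q : ℝ) ^ (1 / 2 : ℝ)) with hG
  have hsum : ∀ U V : ℕ, ∑ k ∈ Icc 1 U, ∑ l ∈ Icc 1 V, G k l =
      4 * C * (q : ℝ) ^ ε * ((q : ℝ) ^ (3 / 4 : ℝ) * ((∑ k ∈ Icc 1 U, (k : ℝ) ^ (-(1 / 4) : ℝ)) *
        (∑ l ∈ Icc 1 V, (l : ℝ) ^ (-(1 / 4) : ℝ))) + (q : ℝ) ^ (1 / 2 : ℝ) * (U * V)) := by
    intro U V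
    have e0 : ∀ k : ℕ, ∑ l ∈ Icc 1 V, G k l = 4 * C * (q : ℝ) ^ ε * ((q : ℝ) ^ (3 / 4 : ℝ) *
        ((k : ℝ) ^ (-(1 / 4) : ℝ) * ∑ l ∈ Icc 1 V, (l : ℝ) ^ (-(1 / 4) : ℝ)) +
        (q : ℝ) ^ (1 / 2 : ℝ) * V) := by
      intro k
      rw [hG, ← Finset.mul_sum, Finset.sum_add_distrib, ← Finset.mul_sum, ← Finset.mul_sum,
        Finset.sum_const, Nat.card_Icc, nsmul_eq_mul, Nat.add_sub_cancel]
      ring
    rw [Finset.sum_congr rfl fun k _ => e0 k, ← Finset.mul_sum, Finset.sum_add_distrib,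
      ← Finset.mul_sum, ← Finset.sum_mul, Finset.sum_const, Nat.card_Icc, nsmul_eq_mul,
      Nat.add_sub_cancel]
    ring
  have h1 := abel2 (q - 1) (wt q D) (wt q F)
    (fun k l => (2 * (‖Kl q (k : ZMod q) (c * (l : ZMod q))‖ +
        ‖Kl q (k : ZMod q) ((-c : (ZMod q)ˣ) * (l : ZMod q))‖))) G
    (fun k hk _ => wt_anti q D k hk) (fun k _ _ => wt_nonneg q D k)
    (fun k hk _ => wt_anti q F k hk) (fun k _ _ => wt_nonneg q F k) (by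
      intro U V hU hV hUq hVq
      rw [hsum]
      have b1 := hK c U V hU hV (by omega) (by omega)
      have b2 := hK (-c) U V hU hV (by omega) (by omega)
      have hU0 : (0 : ℝ) < U := by exact_mod_cast hU
      have hV0 : (0 : ℝ) < V := by exact_mod_cast hV
      have b3 : (U * V : ℝ) ^ (3 / 4 : ℝ) * (q : ℝ) ^ (3 / 4 : ℝ) *
          (1 + U * V / q : ℝ) ^ (1 / 4 : ℝ) ≤ (q : ℝ) ^ (3 / 4 : ℝ) *
          ((∑ k ∈ Icc 1 U, (k : ℝ) ^ (-(1 / 4) : ℝ)) *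
          (∑ l ∈ Icc 1 V, (l : ℝ) ^ (-(1 / 4) : ℝ))) + (q : ℝ) ^ (1 / 2 : ℝ) * (U * V) := by
        have c1 : (1 + U * V / q : ℝ) ^ (1 / 4 : ℝ) ≤ 1 + (U * V / q : ℝ) ^ (1 / 4 : ℝ) := by
          have := Real.rpow_add_le_add_rpow (p := 1 / 4) (a := 1) (b := (U * V / q : ℝ))
            (by norm_num) (by positivity) (by norm_num) (by norm_num)
          rwa [Real.one_rpow] at this
        have c2 : (U * V : ℝ) ^ (3 / 4 : ℝ) ≤ (∑ k ∈ Icc 1 U, (k : ℝ) ^ (-(1 / 4) : ℝ)) *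
            (∑ l ∈ Icc 1 V, (l : ℝ) ^ (-(1 / 4) : ℝ)) := by
          rw [Real.mul_rpow hU0.le hV0.le]
          exact mul_le_mul (sum_quarter U hU) (sum_quarter V hV) (by positivity)
            (Finset.sum_nonneg fun _ _ => by positivity)
        have c3 : (U * V : ℝ) ^ (3 / 4 : ℝ) * (q : ℝ) ^ (3 / 4 : ℝ) *
            (U * V / q : ℝ) ^ (1 / 4 : ℝ) = (q : ℝ) ^ (1 / 2 : ℝ) * (U * V) := by
          rw [Real.div_rpow (by positivity) hq0.le]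
          have d1 : (U * V : ℝ) ^ (3 / 4 : ℝ) * (U * V : ℝ) ^ (1 / 4 : ℝ) = U * V := by
            rw [← Real.rpow_add (by positivity)]; norm_num
          have d2 : (q : ℝ) ^ (3 / 4 : ℝ) = (q : ℝ) ^ (1 / 2 : ℝ) * (q : ℝ) ^ (1 / 4 : ℝ) := by
            rw [← Real.rpow_add hq0]; norm_num
          have d3 : (q : ℝ) ^ (1 / 4 : ℝ) ≠ 0 := by positivity
          rw [d2]
          calc (U * V : ℝ) ^ (3 / 4 : ℝ) * ((q : ℝ) ^ (1 / 2 : ℝ) * (q : ℝ) ^ (1 / 4 : ℝ)) *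
                ((U * V : ℝ) ^ (1 / 4 : ℝ) / (q : ℝ) ^ (1 / 4 : ℝ))
              = (q : ℝ) ^ (1 / 2 : ℝ) * ((U * V : ℝ) ^ (3 / 4 : ℝ) * (U * V : ℝ) ^ (1 / 4 : ℝ)) := by
                field_simp
            _ = _ := by rw [d1]
        calc (U * V : ℝ) ^ (3 / 4 : ℝ) * (q : ℝ) ^ (3 / 4 : ℝ) * (1 + U * V / q : ℝ) ^ (1 / 4 : ℝ)
            ≤ (U * V : ℝ) ^ (3 / 4 : ℝ) * (q : ℝ) ^ (3 / 4 : ℝ) *
              (1 + (U * V / q : ℝ) ^ (1 / 4 : ℝ)) := by gcongr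
          _ = (q : ℝ) ^ (3 / 4 : ℝ) * (U * V : ℝ) ^ (3 / 4 : ℝ) + (q : ℝ) ^ (1 / 2 : ℝ) * (U * V) := by
              rw [mul_add, c3]; ring
          _ ≤ _ := by gcongr
      have b4 : C * (q : ℝ) ^ ε * ((U * V : ℝ) ^ (3 / 4 : ℝ) * (q : ℝ) ^ (3 / 4 : ℝ) *
          (1 + U * V / q : ℝ) ^ (1 / 4 : ℝ)) ≤ C * (q : ℝ) ^ ε * ((q : ℝ) ^ (3 / 4 : ℝ) *
          ((∑ k ∈ Icc 1 U, (k : ℝ) ^ (-(1 / 4) : ℝ)) *
          (∑ l ∈ Icc 1 V, (l : ℝ) ^ (-(1 / 4) : ℝ))) + (q : ℝ) ^ (1 / 2 : ℝ) * (U * V)) := by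
        gcongr
      have b5 : ∑ k ∈ Icc 1 U, ∑ l ∈ Icc 1 V, (2 * (‖Kl q (k : ZMod q) (c * (l : ZMod q))‖ +
          ‖Kl q (k : ZMod q) ((-c : (ZMod q)ˣ) * (l : ZMod q))‖)) =
          2 * (∑ k ∈ Icc 1 U, ∑ l ∈ Icc 1 V, ‖Kl q (k : ZMod q) (c * (l : ZMod q))‖ +
          ∑ k ∈ Icc 1 U, ∑ l ∈ Icc 1 V, ‖Kl q (k : ZMod q) ((-c : (ZMod q)ˣ) * (l : ZMod q))‖) := by
        simp_rw [← Finset.mul_sum, Finset.sum_add_distrib]
      rw [b5]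
      linarith)
  refine h1.trans ?_
  have h2 : ∑ k ∈ Icc 1 (q - 1), ∑ l ∈ Icc 1 (q - 1), wt q D k * wt q F l * G k l =
      4 * C * (q : ℝ) ^ ε * ((q : ℝ) ^ (3 / 4 : ℝ) *
        ((∑ k ∈ Icc 1 (q - 1), wt q D k * (k : ℝ) ^ (-(1 / 4) : ℝ)) *
        (∑ l ∈ Icc 1 (q - 1), wt q F l * (l : ℝ) ^ (-(1 / 4) : ℝ))) + (q : ℝ) ^ (1 / 2 : ℝ) *
        ((∑ k ∈ Icc 1 (q - 1), wt q D k) * (∑ l ∈ Icc 1 (q - 1), wt q F l))) := by
    rw [Finset.sum_mul_sum, Finset.sum_mul_sum, Finset.mul_sum, Finset.mul_sum,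
      ← Finset.sum_add_distrib, Finset.mul_sum]
    refine Finset.sum_congr rfl fun k _ => ?_
    rw [Finset.mul_sum, Finset.mul_sum, ← Finset.sum_add_distrib, Finset.mul_sum]
    refine Finset.sum_congr rfl fun l _ => ?_
    rw [hG]
    ring
  rw [h2]
  have s1 := sum_wt' q D (q - 1) (by omega) hq1
  have s2 := sum_wt' q F (q - 1) (by omega) hq1
  have s3 := sum_wt q D (q - 1) (by omega) hq1
  have s4 := sum_wt q F (q - 1) (by omega) hq1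
  have n1 : 0 ≤ ∑ l ∈ Icc 1 (q - 1), wt q F l * (l : ℝ) ^ (-(1 / 4) : ℝ) :=
    Finset.sum_nonneg fun l _ => mul_nonneg (wt_nonneg _ _ _) (by positivity)
  have n2 : 0 ≤ ∑ l ∈ Icc 1 (q - 1), wt q F l :=
    Finset.sum_nonneg fun l _ => wt_nonneg _ _ _
  have h3 : (q : ℝ) ^ (3 / 4 : ℝ) *
        ((∑ k ∈ Icc 1 (q - 1), wt q D k * (k : ℝ) ^ (-(1 / 4) : ℝ)) *
        (∑ l ∈ Icc 1 (q - 1), wt q F l * (l : ℝ) ^ (-(1 / 4) : ℝ))) ≤
      (q : ℝ) ^ (3 / 4 : ℝ) * (((D : ℝ) ^ (1 / 4 : ℝ) * (q : ℝ) ^ (3 / 4 : ℝ) * (1 + Real.log q)) *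
        ((F : ℝ) ^ (1 / 4 : ℝ) * (q : ℝ) ^ (3 / 4 : ℝ) * (1 + Real.log q))) := by
    gcongr
  have h4 : (q : ℝ) ^ (1 / 2 : ℝ) *
        ((∑ k ∈ Icc 1 (q - 1), wt q D k) * (∑ l ∈ Icc 1 (q - 1), wt q F l)) ≤
      (q : ℝ) ^ (1 / 2 : ℝ) * ((q * (1 + Real.log q)) * (q * (1 + Real.log q))) := by
    gcongr
  have h5 : (q : ℝ) ^ (3 / 4 : ℝ) * (((D : ℝ) ^ (1 / 4 : ℝ) * (q : ℝ) ^ (3 / 4 : ℝ) *
      (1 + Real.log q)) * ((F : ℝ) ^ (1 / 4 : ℝ) * (q : ℝ) ^ (3 / 4 : ℝ) * (1 + Real.log q))) =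
      (1 + Real.log q) ^ 2 * ((q : ℝ) ^ 2 * (D * F * q : ℝ) ^ (1 / 4 : ℝ)) := by
    rw [Real.mul_rpow (by positivity) hq0.le, Real.mul_rpow (by positivity) (by positivity)]
    have d1 : (q : ℝ) ^ (3 / 4 : ℝ) * ((q : ℝ) ^ (3 / 4 : ℝ) * (q : ℝ) ^ (3 / 4 : ℝ)) =
        (q : ℝ) ^ 2 * (q : ℝ) ^ (1 / 4 : ℝ) := by
      rw [← Real.rpow_add hq0, ← Real.rpow_add hq0, ← Real.rpow_two, ← Real.rpow_add hq0]
      norm_num
    linear_combination ((D : ℝ) ^ (1 / 4 : ℝ) * (F : ℝ) ^ (1 / 4 : ℝ) * (1 + Real.log q) ^ 2) * d1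
  calc 4 * C * (q : ℝ) ^ ε * ((q : ℝ) ^ (3 / 4 : ℝ) *
        ((∑ k ∈ Icc 1 (q - 1), wt q D k * (k : ℝ) ^ (-(1 / 4) : ℝ)) *
        (∑ l ∈ Icc 1 (q - 1), wt q F l * (l : ℝ) ^ (-(1 / 4) : ℝ))) + (q : ℝ) ^ (1 / 2 : ℝ) *
        ((∑ k ∈ Icc 1 (q - 1), wt q D k) * (∑ l ∈ Icc 1 (q - 1), wt q F l)))
      ≤ 4 * C * (q : ℝ) ^ ε * ((1 + Real.log q) ^ 2 * ((q : ℝ) ^ 2 * (D * F * q : ℝ) ^ (1 / 4 : ℝ)) +
        (q : ℝ) ^ (1 / 2 : ℝ) * ((q * (1 + Real.log q)) * (q * (1 + Real.log q)))) := by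
        rw [← h5]
        exact mul_le_mul_of_nonneg_left (add_le_add h3 h4) (by positivity)
    _ = _ := by ring

end K2_

theorem stmt_K2 : Stmt_K2 := by
  intro ε hε
  obtain ⟨C, hC, hK⟩ := stmt_K1 (ε / 2) (by positivity)
  obtain ⟨C', hC1, hC'⟩ := Pool.Agent.Work.MP_71a505_nt.tau_le (δ := ε) hε
  refine ⟨4 * C * (1 + 4 / ε) ^ 2 + C', by positivity, ?_⟩
  intro q hq hsq c hc x y D F
  haveI : NeZero q := ⟨hq.ne'⟩
  have hq0 : (0 : ℝ) < q := by exact_mod_cast hq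
  have hq1 : (1 : ℝ) ≤ q := by exact_mod_cast hq
  have hlog : 0 ≤ Real.log q := Real.log_nonneg hq1
  have hcu : IsUnit (c : ZMod q) := by
    rw [ZMod.coe_int_isUnit_iff_isCoprime]; exact hc.symm
  obtain ⟨κ, hκ⟩ := hcu
  have hset : ((Ioc x (x + D)) ×ˢ (Ioc y (y + F))).filter
      (fun z : ℤ × ℤ => (q : ℤ) ∣ z.1 * z.2 - c) = ((Ioc x (x + D)) ×ˢ (Ioc y (y + F))).filter
      (fun z : ℤ × ℤ => (z.1 : ZMod q) * (z.2 : ZMod q) = κ) := by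
    apply Finset.filter_congr
    intro z _
    rw [← ZMod.intCast_zmod_eq_zero_iff_dvd, hκ]
    push_cast
    rw [sub_eq_zero]
  rw [hset]
  set N := (((Ioc x (x + D)) ×ˢ (Ioc y (y + F))).filter
      (fun z : ℤ × ℤ => (z.1 : ZMod q) * (z.2 : ZMod q) = κ)).card with hN
  have h1 := K2_.main_le (q := q) κ x y D F
  rw [← hN] at h1
  have h2 := K2_.off_le (q := q) κ x y D F
  have h3 := K2_.final (q := q) (ε := ε / 2) hC (fun κ U V hU hV hUq hVq => hK q hsq κ U V hU hV hUq hVq)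
    κ D F
  have h4 := (h1.trans (add_le_add_right (h2.trans h3) _))
  have hl : 1 + Real.log q ≤ (1 + 4 / ε) * (q : ℝ) ^ (ε / 4) := by
    have a1 := Real.log_le_rpow_div hq0.le (ε := ε / 4) (by positivity)
    have a2 : (1 : ℝ) ≤ (q : ℝ) ^ (ε / 4) := Real.one_le_rpow hq1 (by positivity)
    have a3 : (q : ℝ) ^ (ε / 4) / (ε / 4) = 4 / ε * (q : ℝ) ^ (ε / 4) := by field_simp
    rw [a3] at a1
    linarith
  have hl2 : (q : ℝ) ^ (ε / 2) * (1 + Real.log q) ^ 2 ≤ (1 + 4 / ε) ^ 2 * (q : ℝ) ^ ε := by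
    calc (q : ℝ) ^ (ε / 2) * (1 + Real.log q) ^ 2
        ≤ (q : ℝ) ^ (ε / 2) * ((1 + 4 / ε) * (q : ℝ) ^ (ε / 4)) ^ 2 := by gcongr
      _ = (1 + 4 / ε) ^ 2 * ((q : ℝ) ^ (ε / 2) * ((q : ℝ) ^ (ε / 4) * (q : ℝ) ^ (ε / 4))) := by ring
      _ = (1 + 4 / ε) ^ 2 * (q : ℝ) ^ ε := by
          rw [← Real.rpow_add hq0, ← Real.rpow_add hq0]
          congr 2; ring
  have hτ : (q.divisors.card : ℝ) ≤ C' * (q : ℝ) ^ ε := hC' q hq.ne'
  set E := (D * F * q : ℝ) ^ (1 / 4 : ℝ) + (q : ℝ) ^ (1 / 2 : ℝ) with hE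
  have hE0 : 0 ≤ E := by positivity
  have h5 : |(q : ℝ) ^ 2 * (N : ℝ) - D * F * q.totient| ≤ (q : ℝ) ^ 2 *
      ((4 * C * (1 + 4 / ε) ^ 2 + C') * (q : ℝ) ^ ε * (E + (D + F) / q)) := by
    refine h4.trans ?_
    calc (D + F : ℝ) * (q * q.divisors.card) + 4 * C * (q : ℝ) ^ (ε / 2) * (1 + Real.log q) ^ 2 *
          ((q : ℝ) ^ 2 * E)
        = (D + F : ℝ) * (q * q.divisors.card) + 4 * C * ((q : ℝ) ^ (ε / 2) *
          (1 + Real.log q) ^ 2) * ((q : ℝ) ^ 2 * E) := by ring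
      _ ≤ (D + F : ℝ) * (q * (C' * (q : ℝ) ^ ε)) + 4 * C * ((1 + 4 / ε) ^ 2 * (q : ℝ) ^ ε) *
          ((q : ℝ) ^ 2 * E) := by gcongr
      _ = (q : ℝ) ^ 2 * (4 * C * (1 + 4 / ε) ^ 2 * (q : ℝ) ^ ε * E +
          C' * (q : ℝ) ^ ε * ((D + F) / q)) := by field_simp; ring
      _ ≤ (q : ℝ) ^ 2 * ((4 * C * (1 + 4 / ε) ^ 2 + C') * (q : ℝ) ^ ε * E +
          (4 * C * (1 + 4 / ε) ^ 2 + C') * (q : ℝ) ^ ε * ((D + F) / q)) := by
          have p1 : (0 : ℝ) ≤ 4 * C * (1 + 4 / ε) ^ 2 := by positivity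
          have p2 : (0 : ℝ) ≤ C' := by linarith
          gcongr
          · linarith
          · linarith
      _ = _ := by ring
  have h6 : (q : ℝ) ^ 2 * (N : ℝ) - D * F * q.totient =
      (q : ℝ) ^ 2 * ((N : ℝ) - D * F * q.totient / (q : ℝ) ^ 2) := by field_simp
  rw [h6, abs_mul, abs_of_pos (by positivity)] at h5
  have h7 := le_of_mul_le_mul_left h5 (by positivity)
  rw [hE] at h7
  exact h7

end Pool.Agent.GapTwo
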