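import Pool.Agent.Work.MP_1ea053_nt.K1

/-!
# Block K2, part A: integers prime to `q` in an interval, Abel's inequality, weights
-/

set_option autoImplicit false

namespace Pool.Agent.GapTwo

open Finset Filter
open scoped Classical Topology ComplexConjugate

namespace K2_

/-- Number of the multiples of `r` in an interval. -/
theorem card_dvd (a : ℤ) (D r : ℕ) (hr : 0 < r) :
    |(((Ioc a (a + D)).filter (fun n : ℤ => (r : ℤ) ∣ n)).card : ℝ) - D / r| ≤ 1 := by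
  have hr' : (0 : ℤ) < r := by exact_mod_cast hr
  have h := Int.Ioc_filter_dvd_card a (a + D) hr'
  have hle : ⌊(a : ℚ) / ((r : ℤ) : ℚ)⌋ ≤ ⌊((a + D : ℤ) : ℚ) / ((r : ℤ) : ℚ)⌋ := by
    apply Int.floor_le_floor
    have : (0 : ℚ) < ((r : ℤ) : ℚ) := by exact_mod_cast hr'
    gcongr
    push_cast
    have : (0 : ℚ) ≤ D := by positivity
    linarith
  rw [max_eq_left (by linarith)] at h
  have h1 : (((Ioc a (a + D)).filter (fun n : ℤ => (r : ℤ) ∣ n)).card : ℚ) =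
      ⌊((a + D : ℤ) : ℚ) / ((r : ℤ) : ℚ)⌋ - ⌊(a : ℚ) / ((r : ℤ) : ℚ)⌋ := by
    exact_mod_cast h
  have e1 := Int.floor_le (((a + D : ℤ) : ℚ) / ((r : ℤ) : ℚ))
  have e2 := Int.lt_floor_add_one (((a + D : ℤ) : ℚ) / ((r : ℤ) : ℚ))
  have e3 := Int.floor_le ((a : ℚ) / ((r : ℤ) : ℚ))
  have e4 := Int.lt_floor_add_one ((a : ℚ) / ((r : ℤ) : ℚ))
  have e5 : ((a + D : ℤ) : ℚ) / ((r : ℤ) : ℚ) = (a : ℚ) / ((r : ℤ) : ℚ) + D / r := by
    push_cast
    rw [add_div]
  have h2 : |(((Ioc a (a + D)).filter (fun n : ℤ => (r : ℤ) ∣ n)).card : ℚ) - D / r| ≤ 1 := by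
    rw [h1, abs_le]
    constructor <;> linarith
  have h3 := (Rat.cast_le (K := ℝ)).mpr h2
  push_cast at h3
  exact h3

theorem prod_dvd_iff {q : ℕ} {T : Finset ℕ} (hT : T ⊆ q.primeFactors) (n : ℤ) :
    (((∏ p ∈ T, p : ℕ) : ℤ) ∣ n) ↔ ∀ p ∈ T, (p : ℤ) ∣ n := by
  constructor
  · intro h p hp
    exact (Int.natCast_dvd_natCast.mpr (Finset.dvd_prod_of_mem _ hp)).trans h
  · intro h
    rw [Int.natCast_dvd]
    apply Finset.prod_primes_dvd
    · intro p hp
      exact (Nat.prime_of_mem_primeFactors (hT hp)).prime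
    · intro p hp
      exact Int.natCast_dvd.mp (h p hp)

/-- Number of the integers prime to `q` in an interval. -/
theorem card_unit {q : ℕ} [NeZero q] (a : ℤ) (D : ℕ) :
    |(q : ℝ) * (((Ioc a (a + D)).filter (fun n : ℤ => IsUnit (n : ZMod q))).card : ℝ) -
      D * q.totient| ≤ q * q.divisors.card := by
  have hq0 : 0 < q := Nat.pos_of_ne_zero (NeZero.ne q)
  have hu : ∀ n : ℤ, (if IsUnit (n : ZMod q) then (1 : ℝ) else 0) =
      ∏ p ∈ q.primeFactors, (1 + -(if (p : ℤ) ∣ n then (1 : ℝ) else 0)) := by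
    intro n
    have h1 : IsUnit (n : ZMod q) ↔ ∀ p ∈ q.primeFactors, ¬ (p : ℤ) ∣ n := by
      rw [ZMod.coe_int_isUnit_iff_isCoprime, Int.isCoprime_iff_gcd_eq_one]
      constructor
      · intro h p hp hpn
        have hp' := Nat.prime_of_mem_primeFactors hp
        have h1 : p ∣ Int.gcd q n :=
          Int.dvd_gcd (Int.natCast_dvd_natCast.mpr (Nat.dvd_of_mem_primeFactors hp)) hpn
        rw [h] at h1
        exact hp'.one_lt.ne' (Nat.dvd_one.mp h1)
      · intro h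
        by_contra hne
        obtain ⟨p, hp, hpd⟩ := Nat.exists_prime_and_dvd hne
        have h1 : p ∣ q := by
          have := (Int.natCast_dvd_natCast.mpr hpd).trans (Int.gcd_dvd_left (q : ℤ) n)
          exact_mod_cast this
        have h2 : (p : ℤ) ∣ n := (Int.natCast_dvd_natCast.mpr hpd).trans (Int.gcd_dvd_right (q : ℤ) n)
        exact h p (Nat.mem_primeFactors.mpr ⟨hp, h1, hq0.ne'⟩) h2
    by_cases h : IsUnit (n : ZMod q)
    · rw [if_pos h]
      symm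
      apply Finset.prod_eq_one
      intro p hp
      rw [if_neg (h1.mp h p hp)]; simp
    · rw [if_neg h]
      rw [h1] at h
      push Not at h
      obtain ⟨p, hp, hpn⟩ := h
      symm
      apply Finset.prod_eq_zero hp
      rw [if_pos hpn]; simp
  have h2 : (((Ioc a (a + D)).filter (fun n : ℤ => IsUnit (n : ZMod q))).card : ℝ) =
      ∑ T ∈ q.primeFactors.powerset, (-1) ^ T.card *
        (((Ioc a (a + D)).filter (fun n : ℤ => ((∏ p ∈ T, p : ℕ) : ℤ) ∣ n)).card : ℝ) := by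
    rw [Finset.card_filter]
    push_cast
    rw [Finset.sum_congr rfl fun n _ => hu n]
    simp_rw [Finset.prod_one_add]
    rw [Finset.sum_comm]
    refine Finset.sum_congr rfl fun T hT => ?_
    rw [Finset.card_filter]
    push_cast
    rw [Finset.mul_sum]
    refine Finset.sum_congr rfl fun n _ => ?_
    rw [Finset.prod_neg]
    congr 1
    have := prod_dvd_iff (Finset.mem_powerset.mp hT) n
    push_cast at this
    by_cases h : ∀ p ∈ T, (p : ℤ) ∣ n
    · rw [if_pos (this.mpr h)]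
      apply Finset.prod_eq_one
      intro p hp
      rw [if_pos (h p hp)]
    · rw [if_neg (fun h' => h (this.mp h'))]
      push Not at h
      obtain ⟨p, hp, hpn⟩ := h
      apply Finset.prod_eq_zero hp
      rw [if_neg hpn]
  have h3 : (D : ℝ) * q.totient = q * ∑ T ∈ q.primeFactors.powerset, (-1) ^ T.card *
        ((D : ℝ) / (∏ p ∈ T, p : ℕ)) := by
    have e1 : (q.totient : ℝ) = q * ∏ p ∈ q.primeFactors, (1 + -((p : ℝ)⁻¹)) := by
      have := Nat.totient_eq_mul_prod_factors q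
      have h' : ((q.totient : ℚ) : ℝ) = ((q * ∏ p ∈ q.primeFactors, (1 - (p : ℚ)⁻¹) : ℚ) : ℝ) := by
        rw [this]
      push_cast at h'
      simpa [sub_eq_add_neg] using h'
    rw [e1, Finset.prod_one_add, Finset.mul_sum, Finset.mul_sum, Finset.mul_sum]
    refine Finset.sum_congr rfl fun T hT => ?_
    rw [Finset.prod_neg, Finset.prod_inv_distrib]
    push_cast
    rw [div_eq_mul_inv]
    ring
  rw [h2, h3, ← mul_sub, ← Finset.sum_sub_distrib, abs_mul, abs_of_nonneg (by positivity)]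
  refine mul_le_mul_of_nonneg_left ?_ (by positivity)
  refine (Finset.abs_sum_le_sum_abs _ _).trans ?_
  calc ∑ T ∈ q.primeFactors.powerset, |(-1) ^ T.card *
        (((Ioc a (a + D)).filter (fun n : ℤ => ((∏ p ∈ T, p : ℕ) : ℤ) ∣ n)).card : ℝ) -
        (-1) ^ T.card * ((D : ℝ) / (∏ p ∈ T, p : ℕ))|
      ≤ ∑ T ∈ q.primeFactors.powerset, (1 : ℝ) := by
        refine Finset.sum_le_sum fun T hT => ?_
        rw [← mul_sub, abs_mul, abs_pow, abs_neg, abs_one, one_pow, one_mul]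
        apply card_dvd
        apply Finset.prod_pos
        intro p hp
        exact (Nat.prime_of_mem_primeFactors (Finset.mem_powerset.mp hT hp)).pos
    _ = 2 ^ q.primeFactors.card := by
        rw [Finset.sum_const, Finset.card_powerset]; simp
    _ ≤ _ := by exact_mod_cast K1_.two_pow_le q hq0.ne'

/-- Abel's inequality. -/
theorem abel (n : ℕ) (a f g : ℕ → ℝ) (ha : ∀ k, 1 ≤ k → k < n → a (k + 1) ≤ a k)
    (ha0 : ∀ k, 1 ≤ k → k ≤ n → 0 ≤ a k)
    (h : ∀ m, 1 ≤ m → m ≤ n → ∑ k ∈ Icc 1 m, f k ≤ ∑ k ∈ Icc 1 m, g k) :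
    ∑ k ∈ Icc 1 n, a k * f k ≤ ∑ k ∈ Icc 1 n, a k * g k := by
  rcases Nat.eq_zero_or_pos n with rfl | hn
  · simp
  have key : ∀ m, 1 ≤ m → m ≤ n →
      a m * (∑ k ∈ Icc 1 m, g k - ∑ k ∈ Icc 1 m, f k) ≤
        ∑ k ∈ Icc 1 m, a k * g k - ∑ k ∈ Icc 1 m, a k * f k := by
    intro m hm
    induction m, hm using Nat.le_induction with
    | base => intro _; simp [mul_sub]
    | succ m hm ih =>
      intro hmn
      have h1 := ih (by omega)
      have h2 := ha m hm (by omega)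
      have h3 := h m hm (by omega)
      rw [Finset.sum_Icc_succ_top (by omega), Finset.sum_Icc_succ_top (by omega),
        Finset.sum_Icc_succ_top (by omega), Finset.sum_Icc_succ_top (by omega)]
      have h4 : a (m + 1) * (∑ k ∈ Icc 1 m, g k - ∑ k ∈ Icc 1 m, f k) ≤
          a m * (∑ k ∈ Icc 1 m, g k - ∑ k ∈ Icc 1 m, f k) :=
        mul_le_mul_of_nonneg_right h2 (by linarith)
      nlinarith
  have h1 := key n hn le_rfl
  have h2 : 0 ≤ a n * (∑ k ∈ Icc 1 n, g k - ∑ k ∈ Icc 1 n, f k) :=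
    mul_nonneg (ha0 n hn le_rfl) (by have := h n hn le_rfl; linarith)
  linarith

/-- Abel's inequality in two variables. -/
theorem abel2 (n : ℕ) (a b : ℕ → ℝ) (f g : ℕ → ℕ → ℝ)
    (ha : ∀ k, 1 ≤ k → k < n → a (k + 1) ≤ a k) (ha0 : ∀ k, 1 ≤ k → k ≤ n → 0 ≤ a k)
    (hb : ∀ k, 1 ≤ k → k < n → b (k + 1) ≤ b k) (hb0 : ∀ k, 1 ≤ k → k ≤ n → 0 ≤ b k)
    (h : ∀ U V, 1 ≤ U → 1 ≤ V → U ≤ n → V ≤ n →
      ∑ k ∈ Icc 1 U, ∑ l ∈ Icc 1 V, f k l ≤ ∑ k ∈ Icc 1 U, ∑ l ∈ Icc 1 V, g k l) :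
    ∑ k ∈ Icc 1 n, ∑ l ∈ Icc 1 n, a k * b l * f k l ≤
      ∑ k ∈ Icc 1 n, ∑ l ∈ Icc 1 n, a k * b l * g k l := by
  have h1 : ∀ V, 1 ≤ V → V ≤ n → ∑ l ∈ Icc 1 V, ∑ k ∈ Icc 1 n, a k * f k l ≤
      ∑ l ∈ Icc 1 V, ∑ k ∈ Icc 1 n, a k * g k l := by
    intro V hV hVn
    rw [Finset.sum_comm, Finset.sum_comm (s := Icc 1 V)]
    simp_rw [← Finset.mul_sum]
    exact abel n a _ _ ha ha0 fun U hU hUn => h U V hU hV hUn hVn
  have h2 := abel n b _ _ hb hb0 h1
  have e : ∀ w : ℕ → ℕ → ℝ, ∑ k ∈ Icc 1 n, ∑ l ∈ Icc 1 n, a k * b l * w k l =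
      ∑ l ∈ Icc 1 n, b l * ∑ k ∈ Icc 1 n, a k * w k l := by
    intro w
    rw [Finset.sum_comm]
    refine Finset.sum_congr rfl fun l _ => ?_
    rw [Finset.mul_sum]
    refine Finset.sum_congr rfl fun k _ => ?_
    ring
  rw [e, e]
  exact h2

/-- The weight. -/
noncomputable def wt (q D : ℕ) (k : ℕ) : ℝ := min (D : ℝ) (q / k)

theorem wt_nonneg (q D k : ℕ) : 0 ≤ wt q D k := le_min (by positivity) (by positivity)

theorem wt_anti (q D k : ℕ) (hk : 1 ≤ k) : wt q D (k + 1) ≤ wt q D k := by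
  unfold wt
  have h : (0 : ℝ) < k := by exact_mod_cast hk
  gcongr
  linarith

theorem harm (n : ℕ) : ∑ k ∈ Icc 1 n, 1 / (k : ℝ) ≤ 1 + Real.log n := by
  have h := harmonic_le_one_add_log n
  have e : ((harmonic n : ℚ) : ℝ) = ∑ k ∈ Icc 1 n, 1 / (k : ℝ) := by
    rw [harmonic_eq_sum_Icc]
    push_cast
    refine Finset.sum_congr rfl fun k _ => ?_
    rw [one_div]
  rwa [e] at h

theorem sum_wt (q D n : ℕ) (hn : n ≤ q) (hq : 0 < q) :
    ∑ k ∈ Icc 1 n, wt q D k ≤ q * (1 + Real.log q) := by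
  calc ∑ k ∈ Icc 1 n, wt q D k ≤ ∑ k ∈ Icc 1 q, (q : ℝ) * (1 / (k : ℝ)) := by
        refine (Finset.sum_le_sum_of_subset_of_nonneg (Finset.Icc_subset_Icc_right hn)
          fun k _ _ => wt_nonneg q D k).trans ?_
        refine Finset.sum_le_sum fun k _ => ?_
        rw [mul_one_div]
        exact min_le_right _ _
    _ = q * ∑ k ∈ Icc 1 q, 1 / (k : ℝ) := by rw [Finset.mul_sum]
    _ ≤ _ := by
        have := harm q
        gcongr

theorem sum_wt' (q D n : ℕ) (hn : n ≤ q) (hq : 0 < q) :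
    ∑ k ∈ Icc 1 n, wt q D k * (k : ℝ) ^ (-(1 / 4) : ℝ) ≤
      (D : ℝ) ^ (1 / 4 : ℝ) * (q : ℝ) ^ (3 / 4 : ℝ) * (1 + Real.log q) := by
  calc ∑ k ∈ Icc 1 n, wt q D k * (k : ℝ) ^ (-(1 / 4) : ℝ)
      ≤ ∑ k ∈ Icc 1 q, (D : ℝ) ^ (1 / 4 : ℝ) * (q : ℝ) ^ (3 / 4 : ℝ) * (1 / (k : ℝ)) := by
        refine (Finset.sum_le_sum_of_subset_of_nonneg (Finset.Icc_subset_Icc_right hn)
          fun k _ _ => mul_nonneg (wt_nonneg q D k) (by positivity)).trans ?_
        refine Finset.sum_le_sum fun k hk => ?_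
        have hk0 : (0 : ℝ) < k := by exact_mod_cast (Finset.mem_Icc.mp hk).1
        have h1 : wt q D k ≤ (D : ℝ) ^ (1 / 4 : ℝ) * ((q : ℝ) / k) ^ (3 / 4 : ℝ) := by
          calc wt q D k = (wt q D k) ^ (1 / 4 : ℝ) * (wt q D k) ^ (3 / 4 : ℝ) := by
                rw [← Real.rpow_add_of_nonneg (wt_nonneg q D k) (by norm_num) (by norm_num)]
                norm_num
            _ ≤ _ := by
                have := wt_nonneg q D k
                have e1 : wt q D k ≤ D := min_le_left _ _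
                have e2 : wt q D k ≤ q / k := min_le_right _ _
                gcongr
        calc wt q D k * (k : ℝ) ^ (-(1 / 4) : ℝ)
            ≤ (D : ℝ) ^ (1 / 4 : ℝ) * ((q : ℝ) / k) ^ (3 / 4 : ℝ) * (k : ℝ) ^ (-(1 / 4) : ℝ) := by
              gcongr
          _ = _ := by
              rw [Real.div_rpow (by positivity) hk0.le, div_eq_mul_inv ((q : ℝ) ^ (3 / 4 : ℝ)),
                ← Real.rpow_neg hk0.le]
              have e : (k : ℝ) ^ (-(3 / 4) : ℝ) * (k : ℝ) ^ (-(1 / 4) : ℝ) = 1 / k := by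
                rw [← Real.rpow_add hk0]
                norm_num
                rw [Real.rpow_neg_one]
              rw [← e]; ring
    _ = (D : ℝ) ^ (1 / 4 : ℝ) * (q : ℝ) ^ (3 / 4 : ℝ) * ∑ k ∈ Icc 1 q, 1 / (k : ℝ) := by
        rw [Finset.mul_sum]
    _ ≤ _ := by
        have := harm q
        gcongr

theorem sum_quarter (U : ℕ) (hU : 1 ≤ U) :
    (U : ℝ) ^ (3 / 4 : ℝ) ≤ ∑ k ∈ Icc 1 U, (k : ℝ) ^ (-(1 / 4) : ℝ) := by
  have hU0 : (0 : ℝ) < U := by exact_mod_cast hU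
  calc (U : ℝ) ^ (3 / 4 : ℝ) = ∑ k ∈ Icc 1 U, (U : ℝ) ^ (-(1 / 4) : ℝ) := by
        rw [Finset.sum_const, Nat.card_Icc, nsmul_eq_mul]
        simp only [Nat.add_sub_cancel]
        nth_rewrite 2 [← Real.rpow_one (U : ℝ)]
        rw [← Real.rpow_add hU0]
        norm_num
    _ ≤ _ := by
        refine Finset.sum_le_sum fun k hk => ?_
        have hk' := Finset.mem_Icc.mp hk
        have hk0 : (0 : ℝ) < k := by exact_mod_cast hk'.1
        exact Real.rpow_le_rpow_of_nonpos hk0 (by exact_mod_cast hk'.2) (by norm_num)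

end K2_

end Pool.Agent.GapTwo
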