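import Pool.Agent.Work.MP_1ea053_nt.K2A

/-!
# Block K2, part B: completion
-/

set_option autoImplicit false

namespace Pool.Agent.GapTwo

open Finset Filter
open scoped Classical Topology ComplexConjugate

namespace K2_

variable {q : ℕ} [NeZero q]

/-- The exponential sum over a set of integers. -/
noncomputable def Ah (q : ℕ) [NeZero q] (I : Finset ℤ) (u : ZMod q) : ℂ :=
  ∑ n ∈ I, ZMod.stdAddChar (-(u * (n : ZMod q)))

theorem sum_std (c : ZMod q) :
    ∑ a : ZMod q, ZMod.stdAddChar (a * c) = if c = 0 then (q : ℂ) else 0 := by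
  have := AddChar.sum_mulShift c (ZMod.isPrimitive_stdAddChar q)
  rw [this, ZMod.card]
  split_ifs <;> simp

theorem Ah_zero (I : Finset ℤ) : Ah q I 0 = I.card := by
  simp [Ah]

theorem Ah_inv (I : Finset ℤ) (x : ZMod q) :
    ∑ u : ZMod q, Ah q I u * ZMod.stdAddChar (u * x) =
      q * ((I.filter (fun n : ℤ => (n : ZMod q) = x)).card : ℂ) := by
  unfold Ah
  simp_rw [Finset.sum_mul]
  rw [Finset.sum_comm]
  have h1 : ∀ n ∈ I, ∑ u : ZMod q, ZMod.stdAddChar (-(u * (n : ZMod q))) * ZMod.stdAddChar (u * x) =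
      if (n : ZMod q) = x then (q : ℂ) else 0 := by
    intro n _
    have e : ∀ u : ZMod q, ZMod.stdAddChar (-(u * (n : ZMod q))) * ZMod.stdAddChar (u * x) =
        (ZMod.stdAddChar (u * (x - (n : ZMod q))) : ℂ) := by
      intro u
      rw [← AddChar.map_add_eq_mul]
      congr 1; ring
    rw [Finset.sum_congr rfl fun u _ => e u, sum_std]
    by_cases h : (n : ZMod q) = x
    · rw [if_pos h, if_pos (by rw [h, sub_self])]
    · rw [if_neg h, if_neg (fun h' => h (sub_eq_zero.mp h').symm)]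
  rw [Finset.sum_congr rfl h1, ← Finset.sum_filter, Finset.sum_const, nsmul_eq_mul, mul_comm]

theorem kl_zero (u : ZMod q) : Kl q u 0 = ∑ x : (ZMod q)ˣ, ZMod.stdAddChar (u * (x : ZMod q)) := by
  unfold Kl
  simp

theorem kl_zero' (c : (ZMod q)ˣ) (v : ZMod q) :
    Kl q 0 (c * v) = ∑ x : (ZMod q)ˣ, ZMod.stdAddChar (v * (x : ZMod q)) := by
  unfold Kl
  refine Fintype.sum_equiv ((Equiv.inv _).trans (Equiv.mulLeft c)) _ _ ?_
  intro x
  congr 1
  simp only [Equiv.trans_apply, Equiv.inv_apply, Equiv.coe_mulLeft, Units.val_mul]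
  ring

theorem sum_unit (I : Finset ℤ) :
    ∑ u : ZMod q, Ah q I u * ∑ x : (ZMod q)ˣ, ZMod.stdAddChar (u * (x : ZMod q)) =
      q * ((I.filter (fun n : ℤ => IsUnit (n : ZMod q))).card : ℂ) := by
  simp_rw [Finset.mul_sum]
  rw [Finset.sum_comm]
  simp_rw [Ah_inv]
  rw [← Finset.mul_sum]
  congr 1
  have h : (I.filter (fun n : ℤ => IsUnit (n : ZMod q))).card =
      ∑ x : (ZMod q)ˣ, (I.filter (fun n : ℤ => (n : ZMod q) = x)).card := by
    rw [← Finset.card_biUnion]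
    · congr 1
      ext n
      simp only [Finset.mem_filter, Finset.mem_biUnion, Finset.mem_univ, true_and]
      constructor
      · rintro ⟨h1, ⟨x, hx⟩⟩
        exact ⟨x, h1, hx.symm⟩
      · rintro ⟨x, h1, h2⟩
        exact ⟨h1, ⟨x, h2.symm⟩⟩
    · intro x _ y _ hxy
      rw [Function.onFun, Finset.disjoint_left]
      intro n hn hn'
      apply hxy
      apply Units.ext
      rw [← (Finset.mem_filter.mp hn).2, ← (Finset.mem_filter.mp hn').2]
  rw [h]
  push_cast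
  rfl

/-- Completion. -/
theorem count_eq (I J : Finset ℤ) (c : (ZMod q)ˣ) :
    (q : ℂ) ^ 2 * (((I ×ˢ J).filter (fun z : ℤ × ℤ => (z.1 : ZMod q) * (z.2 : ZMod q) = c)).card : ℂ) =
      ∑ u : ZMod q, ∑ v : ZMod q, Ah q I u * Ah q J v * Kl q u (c * v) := by
  have h1 : ∑ u : ZMod q, ∑ v : ZMod q, Ah q I u * Ah q J v * Kl q u (c * v) =
      ∑ x : (ZMod q)ˣ, (∑ u : ZMod q, Ah q I u * ZMod.stdAddChar (u * (x : ZMod q))) *
        (∑ v : ZMod q, Ah q J v * ZMod.stdAddChar (v * ((c : ZMod q) * ((x⁻¹ : (ZMod q)ˣ) : ZMod q)))) := by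
    have e1 : ∀ x : (ZMod q)ˣ, (∑ u : ZMod q, Ah q I u * ZMod.stdAddChar (u * (x : ZMod q))) *
        (∑ v : ZMod q, Ah q J v * ZMod.stdAddChar (v * ((c : ZMod q) * ((x⁻¹ : (ZMod q)ˣ) : ZMod q)))) =
        ∑ u : ZMod q, ∑ v : ZMod q, Ah q I u * Ah q J v *
          ZMod.stdAddChar (u * (x : ZMod q) + ((c : ZMod q) * v) * ((x⁻¹ : (ZMod q)ˣ) : ZMod q)) := by
      intro x
      rw [Finset.sum_mul_sum]
      refine Finset.sum_congr rfl fun u _ => Finset.sum_congr rfl fun v _ => ?_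
      rw [AddChar.map_add_eq_mul]
      have : v * ((c : ZMod q) * ((x⁻¹ : (ZMod q)ˣ) : ZMod q)) = ((c : ZMod q) * v) * ((x⁻¹ : (ZMod q)ˣ) : ZMod q) := by
        ring
      rw [this]
      ring
    rw [Finset.sum_congr (rfl : (univ : Finset (ZMod q)ˣ) = univ) (fun x _ => e1 x)]
    conv_rhs => rw [Finset.sum_comm]
    refine Finset.sum_congr rfl fun u _ => ?_
    conv_rhs => rw [Finset.sum_comm]
    refine Finset.sum_congr rfl fun v _ => ?_
    rw [Kl, Finset.mul_sum]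
  rw [h1]
  simp_rw [Ah_inv]
  have h2 : ((I ×ˢ J).filter (fun z : ℤ × ℤ => (z.1 : ZMod q) * (z.2 : ZMod q) = c)).card =
      ∑ x : (ZMod q)ˣ, (I.filter (fun n : ℤ => (n : ZMod q) = x)).card *
        (J.filter (fun n : ℤ => (n : ZMod q) = (c : ZMod q) * ((x⁻¹ : (ZMod q)ˣ) : ZMod q))).card := by
    have e : ∀ x : (ZMod q)ˣ, (I.filter (fun n : ℤ => (n : ZMod q) = x)).card *
        (J.filter (fun n : ℤ => (n : ZMod q) = (c : ZMod q) * ((x⁻¹ : (ZMod q)ˣ) : ZMod q))).card =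
        ((I.filter (fun n : ℤ => (n : ZMod q) = x)) ×ˢ
        (J.filter (fun n : ℤ => (n : ZMod q) = (c : ZMod q) * ((x⁻¹ : (ZMod q)ˣ) : ZMod q)))).card := by
      intro x; rw [Finset.card_product]
    rw [Finset.sum_congr rfl fun x _ => e x, ← Finset.card_biUnion]
    · congr 1
      ext ⟨n, m⟩
      simp only [Finset.mem_filter, Finset.mem_product, Finset.mem_biUnion, Finset.mem_univ,
        true_and]
      constructor
      · rintro ⟨⟨h1, h2⟩, h3⟩
        have hu : IsUnit ((n : ZMod q)) := by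
          have : IsUnit ((n : ZMod q) * (m : ZMod q)) := by rw [h3]; exact c.isUnit
          exact isUnit_of_mul_isUnit_left this
        obtain ⟨x, hx⟩ := hu
        refine ⟨x, ⟨h1, hx.symm⟩, h2, ?_⟩
        rw [← h3, ← hx]
        have : (x : ZMod q) * ((x⁻¹ : (ZMod q)ˣ) : ZMod q) = 1 := Units.mul_inv x
        linear_combination (-(m : ZMod q)) * this
      · rintro ⟨x, ⟨h1, h2⟩, h3, h4⟩
        refine ⟨⟨h1, h3⟩, ?_⟩
        rw [h2, h4]
        have : (x : ZMod q) * ((x⁻¹ : (ZMod q)ˣ) : ZMod q) = 1 := Units.mul_inv x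
        linear_combination (c : ZMod q) * this
    · intro x _ y _ hxy
      rw [Function.onFun, Finset.disjoint_left]
      rintro ⟨n, m⟩ hn hn'
      apply hxy
      apply Units.ext
      rw [← (Finset.mem_filter.mp (Finset.mem_product.mp hn).1).2,
        ← (Finset.mem_filter.mp (Finset.mem_product.mp hn').1).2]
  rw [h2]
  push_cast
  rw [Finset.mul_sum]
  refine Finset.sum_congr rfl fun x _ => ?_
  ring

theorem norm_Ah_le (I : Finset ℤ) (u : ZMod q) : ‖Ah q I u‖ ≤ I.card := by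
  unfold Ah
  refine (norm_sum_le _ _).trans ?_
  simp

theorem sum_Ioc_eq (x : ℤ) (D : ℕ) (f : ℤ → ℂ) :
    ∑ n ∈ Ioc x (x + D), f n = ∑ j ∈ range D, f (x + 1 + j) := by
  induction D with
  | zero => simp
  | succ D ih =>
    rw [Finset.sum_range_succ, ← ih]
    have : Ioc x (x + ((D + 1 : ℕ) : ℤ)) = insert (x + 1 + D) (Ioc x (x + D)) := by
      ext n
      simp only [Finset.mem_Ioc, Finset.mem_insert]
      push_cast
      omega
    rw [this, Finset.sum_insert (by simp only [Finset.mem_Ioc]; omega)]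
    ring

/-- The geometric sum. -/
theorem geom_le (x : ℤ) (D : ℕ) (u : ZMod q) (hu : u ≠ 0) :
    ‖Ah q (Ioc x (x + D)) u‖ ≤ 2 / ‖(1 : ℂ) - ZMod.stdAddChar u‖ := by
  have hr : (ZMod.stdAddChar (-u) : ℂ) ≠ 1 := by
    intro h
    have h' : (ZMod.stdAddChar (-u) : ℂ) = ZMod.stdAddChar (0 : ZMod q) := by
      rw [h, AddChar.map_zero_eq_one]
    have := ZMod.injective_stdAddChar h'
    exact hu (neg_eq_zero.mp this)
  have h1 : Ah q (Ioc x (x + D)) u = ZMod.stdAddChar (-(u * ((x + 1 : ℤ) : ZMod q))) *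
      ∑ j ∈ range D, (ZMod.stdAddChar (-u) : ℂ) ^ j := by
    unfold Ah
    rw [sum_Ioc_eq, Finset.mul_sum]
    refine Finset.sum_congr rfl fun j _ => ?_
    rw [← AddChar.map_nsmul_eq_pow, ← AddChar.map_add_eq_mul]
    congr 1
    push_cast
    rw [nsmul_eq_mul]
    ring
  rw [h1, norm_mul, AddChar.norm_apply, one_mul, geom_sum_eq hr, norm_div]
  have h2 : ‖(ZMod.stdAddChar (-u) : ℂ) - 1‖ = ‖(1 : ℂ) - ZMod.stdAddChar u‖ := by
    have e : (ZMod.stdAddChar (-u) : ℂ) - 1 = ZMod.stdAddChar (-u) * (1 - ZMod.stdAddChar u) := by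
      rw [mul_sub, mul_one, ← AddChar.map_add_eq_mul]
      simp
    rw [e, norm_mul, AddChar.norm_apply, one_mul]
  rw [h2]
  gcongr
  calc ‖(ZMod.stdAddChar (-u) : ℂ) ^ D - 1‖ ≤ ‖(ZMod.stdAddChar (-u) : ℂ) ^ D‖ + ‖(1 : ℂ)‖ :=
        norm_sub_le _ _
    _ = 2 := by rw [norm_pow, AddChar.norm_apply]; norm_num

/-- Lower bound of the denominator. -/
theorem den_ge (k : ℕ) (hk : 2 * k ≤ q) :
    4 * (k : ℝ) / q ≤ ‖(1 : ℂ) - ZMod.stdAddChar (k : ZMod q)‖ := by
  have hq0 : (0 : ℝ) < q := by exact_mod_cast Nat.pos_of_ne_zero (NeZero.ne q)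
  have h1 : (ZMod.stdAddChar (k : ZMod q) : ℂ) =
      Complex.exp (Complex.I * ((2 * Real.pi * k / q : ℝ) : ℂ)) := by
    have := ZMod.stdAddChar_coe (N := q) (k : ℤ)
    push_cast at this
    rw [this]
    congr 1
    push_cast
    ring
  rw [h1, norm_sub_rev, Complex.norm_exp_I_mul_ofReal_sub_one]
  have h2 : 2 * Real.pi * k / q / 2 = Real.pi * k / q := by ring
  rw [h2]
  have hx0 : 0 ≤ Real.pi * k / q := by positivity
  have hx1 : Real.pi * k / q ≤ Real.pi / 2 := by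
    rw [div_le_div_iff₀ hq0 (by norm_num)]
    have : (2 * k : ℝ) ≤ q := by exact_mod_cast hk
    nlinarith [Real.pi_pos]
  have h3 := Real.mul_le_sin hx0 hx1
  have h4 : 2 / Real.pi * (Real.pi * k / q) = 2 * k / q := by
    have := Real.pi_ne_zero
    field_simp
  rw [h4] at h3
  have h5 : 4 * (k : ℝ) / q = 2 * (2 * k / q) := by ring
  rw [h5, Real.norm_eq_abs]
  calc 2 * (2 * (k : ℝ) / q) ≤ 2 * Real.sin (Real.pi * k / q) := by linarith
    _ ≤ _ := le_abs_self _

/-- Bound of the exponential sum over an interval. -/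
theorem Ah_le (x : ℤ) (D : ℕ) (k : ℕ) (hk : 1 ≤ k) (hkq : k < q) :
    ‖Ah q (Ioc x (x + D)) (k : ZMod q)‖ ≤ wt q D k + wt q D (q - k) := by
  have hq0 : (0 : ℝ) < q := by exact_mod_cast Nat.pos_of_ne_zero (NeZero.ne q)
  have hcard : ((Ioc x (x + D)).card : ℝ) = D := by simp
  have hne : ∀ j : ℕ, 1 ≤ j → j < q → (j : ZMod q) ≠ 0 := by
    intro j hj hjq h
    rw [ZMod.natCast_eq_zero_iff] at h
    exact absurd (Nat.le_of_dvd (by omega) h) (by omega)
  have h0 : ∀ u : ZMod q, ‖Ah q (Ioc x (x + D)) u‖ ≤ D := by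
    intro u
    have := norm_Ah_le (Ioc x (x + D)) u
    rwa [hcard] at this
  have key : ∀ j : ℕ, 1 ≤ j → 2 * j ≤ q → ∀ w : ZMod q, w ≠ 0 →
      ‖(1 : ℂ) - ZMod.stdAddChar w‖ = ‖(1 : ℂ) - ZMod.stdAddChar (j : ZMod q)‖ →
      ‖Ah q (Ioc x (x + D)) w‖ ≤ wt q D j := by
    intro j hj hjq w hw hwj
    unfold wt
    refine le_min (h0 w) ?_
    refine (geom_le x D w hw).trans ?_
    rw [hwj]
    have h1 := den_ge (q := q) j hjq
    have hj0 : (0 : ℝ) < j := by exact_mod_cast hj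
    have h2 : 0 < 4 * (j : ℝ) / q := by positivity
    calc 2 / ‖(1 : ℂ) - ZMod.stdAddChar (j : ZMod q)‖ ≤ 2 / (4 * (j : ℝ) / q) := by gcongr
      _ = q / (2 * j) := by field_simp; norm_num
      _ ≤ q / j := by gcongr; linarith
  rcases le_or_gt (2 * k) q with h | h
  · have := key k hk h (k : ZMod q) (hne k hk hkq) rfl
    have h2 := wt_nonneg q D (q - k)
    linarith
  · have h1 : ((q - k : ℕ) : ZMod q) = -(k : ZMod q) := by
      rw [Nat.cast_sub hkq.le]; simp
    have := key (q - k) (by omega) (by omega) (k : ZMod q) (hne k hk hkq) (by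
      rw [h1]
      have e : (1 : ℂ) - ZMod.stdAddChar (k : ZMod q) =
          -(ZMod.stdAddChar (k : ZMod q) * (1 - ZMod.stdAddChar (-(k : ZMod q)))) := by
        rw [mul_sub, mul_one, ← AddChar.map_add_eq_mul]
        simp
      rw [e, norm_neg, norm_mul, AddChar.norm_apply, one_mul])
    have h2 := wt_nonneg q D k
    linarith

end K2_

end Pool.Agent.GapTwo
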