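import Pool.Agent.Work.MP_1ea053_nt.K3Base

/-! MP_1ea053_nt, block K3A. -/

set_option autoImplicit false

namespace Pool.Agent.GapTwo

open Finset
open scoped Classical

/-- Block K3A. -/
theorem stmt_K3A : Stmt_K3A := by
  intro ε hε A₁ A₂ W _ hW κ hκ0 hκ1
  obtain ⟨C, hC1, hC⟩ := K3_.count' A₁ A₂ ε hε
  refine ⟨C, by linarith, ?_⟩
  intro N D E hN hD hE S hS
  have hT : 0 ≤ N / (D * E) := by positivity
  have hU : (((Icc 1 ⌊N / (D * E)⌋₊).card : ℕ) : ℝ) ≤ N / (D * E) := by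
    rw [Nat.card_Icc]
    simpa using Nat.floor_le hT
  constructor
  · refine hC W N κ hW hκ0 hκ1 hN _ S _ hT hS ?_ ?_
    · intro x hx
      rw [Finset.mem_filter] at hx
      have hf := K3_.facts hW hκ0 hκ1 hN hD hE hx.1
      exact ⟨hx.2, hf.2.2.2.2.2.1.1, hf.2.2.2.2.2.1.2⟩
    · intro d e n
      refine K3_.card_le_of_inj _ d e n (Icc 1 ⌊N / (D * E)⌋₊) _ hU ?_
      intro x hx _ _ _
      rw [Finset.mem_filter] at hx
      have hf := K3_.facts hW hκ0 hκ1 hN hD hE hx.1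
      rw [Finset.mem_Icc]
      exact ⟨hf.2.2.2.2.1.1, Nat.le_floor hf.2.2.2.2.1.2⟩
  · have h1 : ((QQ A₁ A₂ (II (N / W) κ) D E).filter (fun x => nt x ∈ S)).card =
        (((QQ A₁ A₂ (II (N / W) κ) D E).filter (fun x => nt x ∈ S)).image K3_.fl).card :=
      (Finset.card_image_of_injective _ K3_.fl_inj).symm
    rw [h1]
    refine hC W N κ hW hκ0 hκ1 hN _ S _ hT hS ?_ ?_
    · intro y hy
      obtain ⟨x, hx, rfl⟩ := Finset.mem_image.1 hy
      rw [Finset.mem_filter] at hx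
      have hf := K3_.facts hW hκ0 hκ1 hN hD hE hx.1
      exact ⟨hx.2, hf.2.2.2.2.2.2.1, hf.2.2.2.2.2.2.2⟩
    · intro d e n
      refine K3_.card_le_of_inj _ d e n (Icc 1 ⌊N / (D * E)⌋₊) _ hU ?_
      intro y hy _ _ _
      obtain ⟨x, hx, rfl⟩ := Finset.mem_image.1 hy
      rw [Finset.mem_filter] at hx
      have hf := K3_.facts hW hκ0 hκ1 hN hD hE hx.1
      rw [Finset.mem_Icc]
      exact ⟨hf.2.2.2.2.1.1, Nat.le_floor hf.2.2.2.2.1.2⟩

end Pool.Agent.GapTwo
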