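import Pool.Agent.Work.MP_1ea053_nt.K3A

/-! MP_1ea053_nt, block K3B. -/

set_option autoImplicit false

namespace Pool.Agent.GapTwo

open Finset
open scoped Classical

namespace K3B_

lemma badp_dvd (g r : ℕ) (hg : g ≠ 0) : badp g r ∣ g := by
  have h1 : ∏ p ∈ g.primeFactors, p ^ g.factorization p = g := by
    conv_rhs => rw [← Nat.prod_factorization_pow_eq_self hg]
    rfl
  have h2 : badp g r ∣ ∏ p ∈ g.primeFactors, p ^ g.factorization p := by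
    unfold badp
    exact Finset.prod_dvd_prod_of_subset _ _ _ (Finset.filter_subset _ _)
  rwa [h1] at h2

lemma badp_bad (g r : ℕ) (hg : g ≠ 0) (p : ℕ) (hp : p.Prime) (h : p ∣ badp g r) :
    p ∣ r ∨ p ^ 2 ∣ badp g r := by
  have h0 := h
  unfold badp at h
  obtain ⟨q, hq, hpq⟩ := (Prime.dvd_finset_prod_iff hp.prime _).1 h
  have hq' := Finset.mem_filter.1 hq
  have hqp : q.Prime := Nat.prime_of_mem_primeFactors hq'.1
  have e : p = q := (Nat.prime_dvd_prime_iff_eq hp hqp).1 (hp.dvd_of_dvd_pow hpq)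
  subst e
  rcases hq'.2 with h1 | h1
  · exact Or.inl h1
  · right
    have h2 : 2 ≤ g.factorization p := (hp.pow_dvd_iff_le_factorization hg).1 h1
    exact (pow_dvd_pow p h2).trans (Finset.dvd_prod_of_mem _ hq)

lemma bad_dec (q r : ℕ) (hq : q ≠ 0) (hr : 0 < r)
    (h : ∀ p : ℕ, p.Prime → p ∣ q → p ∣ r ∨ p ^ 2 ∣ q) :
    ∃ s a k : ℕ, s ∣ r ∧ a ∣ k ∧ 0 < k ∧ 0 < s ∧ 0 < a ∧ q = s * a * k ^ 2 := by
  obtain ⟨m, k, hmk, hm⟩ := Nat.sq_mul_squarefree q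
  have hk : 0 < k := by
    rcases Nat.eq_zero_or_pos k with h0 | h0
    · subst h0
      simp at hmk
      exact absurd hmk.symm hq
    · exact h0
  have hm0 : m ≠ 0 := hm.ne_zero
  have hg0 : 0 < Nat.gcd m r := Nat.gcd_pos_of_pos_right _ hr
  have hmul : Nat.gcd m r * (m / Nat.gcd m r) = m := Nat.mul_div_cancel' (Nat.gcd_dvd_left m r)
  have ha0 : 0 < m / Nat.gcd m r := by
    rcases Nat.eq_zero_or_pos (m / Nat.gcd m r) with h0 | h0
    · rw [h0, mul_zero] at hmul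
      exact absurd hmul.symm hm0
    · exact h0
  refine ⟨Nat.gcd m r, m / Nat.gcd m r, k, Nat.gcd_dvd_right _ _, ?_, hk, hg0, ha0, ?_⟩
  · have hsq : Squarefree (m / Nat.gcd m r) :=
      hm.squarefree_of_dvd (Dvd.intro_left _ hmul)
    have hsub : (m / Nat.gcd m r).primeFactors ⊆ k.primeFactors := by
      intro p hp
      have hpp := Nat.prime_of_mem_primeFactors hp
      have hpa := Nat.dvd_of_mem_primeFactors hp
      have hpm : p ∣ m := hpa.trans (Dvd.intro_left _ hmul)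
      have hno : ¬ p ^ 2 ∣ m := by
        intro h2
        rw [pow_two] at h2
        exact hpp.one_lt.ne' (Nat.isUnit_iff.1 (hm p h2))
      have hpq : p ∣ q := by
        rw [← hmk]
        exact hpm.mul_left _
      rcases h p hpp hpq with h1 | h1
      · exfalso
        apply hno
        rw [← hmul, pow_two]
        exact mul_dvd_mul (Nat.dvd_gcd hpm h1) hpa
      · rw [Nat.mem_primeFactors]
        refine ⟨hpp, ?_, hk.ne'⟩
        by_contra hpk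
        apply hno
        rw [← hmk] at h1
        have hc : Nat.Coprime (p ^ 2) (k ^ 2) :=
          Nat.Coprime.pow _ _ ((Nat.Prime.coprime_iff_not_dvd hpp).2 hpk)
        exact hc.dvd_of_dvd_mul_left h1
    rw [← Nat.prod_primeFactors_of_squarefree hsq]
    exact (Finset.prod_dvd_prod_of_subset _ _ _ hsub).trans (Nat.prod_primeFactors_dvd k)
  · rw [hmul, ← hmk]
    ring

end K3B_

open K3B_ in
/-- Block K3B. -/
theorem stmt_K3B : Stmt_K3B := by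
  intro ε hε A₁ A₂ W hS hW κ hκ0 hκ1
  obtain ⟨C, hC0, hC⟩ := stmt_K3A (ε / 2) (by positivity) A₁ A₂ W hS hW κ hκ0 hκ1
  obtain ⟨C₁, hC1, hC₁⟩ := Pool.Agent.Work.MP_081200_nt.div_bound (ε / 2) (by positivity)
  obtain ⟨C₂, hC2, hC₂⟩ := Pool.Agent.Work.MP_081200_nt.div_bound (1 / 4) (by norm_num)
  have hsum : Summable (fun k : ℕ => 1 / (k : ℝ) ^ (3 / 2 : ℝ)) :=
    Real.summable_one_div_nat_rpow.2 (by norm_num)
  obtain ⟨Z, hZ⟩ : ∃ Z : ℝ, Z = ∑' k : ℕ, 1 / (k : ℝ) ^ (3 / 2 : ℝ) := ⟨_, rfl⟩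
  have hZ0 : 0 ≤ Z := by
    rw [hZ]
    exact tsum_nonneg fun k => by positivity
  have hA : (0 : ℝ) ≤ A₂ := Nat.cast_nonneg A₂
  refine ⟨C * ((2 * A₂ + 2) * C₁ * (C₂ * Z) + 1), by positivity, ?_⟩
  intro N D E Y hN hD hE hY r hr hrN
  have hY0 : 0 < Y := by linarith
  have hN0 : 0 < N := by linarith
  obtain ⟨S, hSdef⟩ : ∃ S : Finset ℕ, S = (II (N / W) κ).filter (fun n =>
    ∃ q : ℕ, Y < q ∧ q ∣ A₂ * n + 1 ∧ ∀ p : ℕ, p.Prime → p ∣ q → p ∣ r ∨ p ^ 2 ∣ q) := ⟨_, rfl⟩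
  have hSsub : S ⊆ II (N / W) κ := by
    rw [hSdef]
    exact Finset.filter_subset _ _
  have h1 := (hC N D E hN hD hE S hSsub).1
  have h2 : ((QQ A₁ A₂ (II (N / W) κ) D E).filter
      (fun x => Y < (badp (gq A₂ x) r : ℝ))).card ≤
      ((QQ A₁ A₂ (II (N / W) κ) D E).filter (fun x => x.2.2.1 ∈ S)).card := by
    apply Finset.card_le_card
    intro x hx
    rw [Finset.mem_filter] at hx ⊢
    refine ⟨hx.1, ?_⟩
    have hf := K3_.facts hW hκ0 hκ1 hN hD hE hx.1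
    rw [hSdef, Finset.mem_filter]
    have hdv : x.2.1 ∣ A₂ * x.2.2.1 + 1 := hf.2.2.2.2.2.1.2
    have hg : gq A₂ x ∣ A₂ * x.2.2.1 + 1 := Nat.div_dvd_of_dvd hdv
    have hg0 : gq A₂ x ≠ 0 := by
      intro h0
      rw [h0] at hg
      have := Nat.eq_zero_of_zero_dvd hg
      omega
    exact ⟨hf.2.2.1, badp (gq A₂ x) r, hx.2, (badp_dvd _ _ hg0).trans hg,
      fun p hp hpd => badp_bad _ _ hg0 p hp hpd⟩
  -- the size of S
  obtain ⟨M, hM⟩ : ∃ M : ℕ, M = ⌊(2 * A₂ + 1) * N⌋₊ := ⟨_, rfl⟩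
  have h3 : S ⊆ r.divisors.biUnion fun s => (Icc 1 M).biUnion fun k => k.divisors.biUnion fun a =>
      (II (N / W) κ).filter fun n => Y < ((s * a * k ^ 2 : ℕ) : ℝ) ∧ s * a * k ^ 2 ∣ A₂ * n + 1 := by
    intro n hn
    rw [hSdef, Finset.mem_filter] at hn
    obtain ⟨hnI, q, hqY, hqd, hqb⟩ := hn
    have hq0 : q ≠ 0 := by
      rintro rfl
      have := Nat.eq_zero_of_zero_dvd hqd
      omega
    obtain ⟨s, a, k, hs, ha, hk, hs0, ha0, rfl⟩ := bad_dec q r hq0 hr hqb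
    simp only [Finset.mem_biUnion, Nat.mem_divisors, Finset.mem_Icc, Finset.mem_filter]
    refine ⟨s, ⟨hs, hr.ne'⟩, k, ⟨hk, ?_⟩, a, ⟨ha, hk.ne'⟩, hnI, hqY, hqd⟩
    rw [hM]
    apply Nat.le_floor
    refine le_trans ?_ (K3_.lin_le hW hκ0 hκ1 hN hnI A₂)
    have h4 : k ∣ A₂ * n + 1 := (Dvd.intro_left (s * a * k) (by ring)).trans hqd
    exact_mod_cast Nat.le_of_dvd (by omega) h4
  have hterm : ∀ s ∈ r.divisors, ∀ k ∈ Icc 1 M, ∀ a ∈ k.divisors,
      ((((II (N / W) κ).filter fun n => Y < ((s * a * k ^ 2 : ℕ) : ℝ) ∧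
        s * a * k ^ 2 ∣ A₂ * n + 1).card : ℕ) : ℝ) ≤
      (2 * A₂ + 2) * N * Y ^ (-(1 / 8) : ℝ) * (1 / (k : ℝ) ^ (7 / 4 : ℝ)) := by
    intro s hs k hk a ha
    have hs0 : 0 < s := Nat.pos_of_mem_divisors hs
    have hk0 : 0 < k := (Finset.mem_Icc.1 hk).1
    have ha0 : 0 < a := Nat.pos_of_mem_divisors ha
    have hq0 : 0 < s * a * k ^ 2 := by positivity
    by_cases hYq : Y < ((s * a * k ^ 2 : ℕ) : ℝ)
    · have e1 : ((II (N / W) κ).filter fun n => Y < ((s * a * k ^ 2 : ℕ) : ℝ) ∧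
          s * a * k ^ 2 ∣ A₂ * n + 1) = (II (N / W) κ).filter fun n =>
            s * a * k ^ 2 ∣ A₂ * n + 1 := by
        apply Finset.filter_congr
        intro n _
        simp only [hYq, true_and]
      rw [e1]
      refine (K3_.card_dvd hW hκ0 hκ1 hN A₂ _ hq0).trans ?_
      obtain ⟨q, hq⟩ : ∃ q : ℝ, q = ((s * a * k ^ 2 : ℕ) : ℝ) := ⟨_, rfl⟩
      rw [← hq] at hYq ⊢
      have hqpos : 0 < q := hY0.trans hYq
      have hk0' : (0 : ℝ) < k := by exact_mod_cast hk0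
      have hk2 : (k : ℝ) ^ 2 ≤ q := by
        rw [hq]
        have h5 : k ^ 2 ≤ s * a * k ^ 2 := Nat.le_mul_of_pos_left _ (by positivity)
        exact_mod_cast h5
      have e2 : 1 / q = q ^ (-(1 / 8) : ℝ) * q ^ (-(7 / 8) : ℝ) := by
        rw [← Real.rpow_add hqpos]
        norm_num
        rw [Real.rpow_neg_one]
      have e3 : q ^ (-(1 / 8) : ℝ) ≤ Y ^ (-(1 / 8) : ℝ) :=
        Real.rpow_le_rpow_of_nonpos hY0 hYq.le (by norm_num)
      have e4 : q ^ (-(7 / 8) : ℝ) ≤ 1 / (k : ℝ) ^ (7 / 4 : ℝ) := by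
        have e5 : q ^ (-(7 / 8) : ℝ) ≤ ((k : ℝ) ^ 2) ^ (-(7 / 8) : ℝ) :=
          Real.rpow_le_rpow_of_nonpos (by positivity) hk2 (by norm_num)
        have e6 : ((k : ℝ) ^ 2) ^ (-(7 / 8) : ℝ) = 1 / (k : ℝ) ^ (7 / 4 : ℝ) := by
          rw [← Real.rpow_natCast, ← Real.rpow_mul hk0'.le, one_div, ← Real.rpow_neg hk0'.le]
          norm_num
        rwa [e6] at e5
      have e7 : (2 * A₂ + 2) * N / q = (2 * A₂ + 2) * N * (1 / q) := by ring
      rw [e7, e2]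
      have e8 := mul_le_mul e3 e4 (by positivity) (by positivity)
      calc (2 * A₂ + 2) * N * (q ^ (-(1 / 8) : ℝ) * q ^ (-(7 / 8) : ℝ))
          ≤ (2 * A₂ + 2) * N * (Y ^ (-(1 / 8) : ℝ) * (1 / (k : ℝ) ^ (7 / 4 : ℝ))) := by
            apply mul_le_mul_of_nonneg_left e8 (by positivity)
        _ = _ := by ring
    · have e1 : ((II (N / W) κ).filter fun n => Y < ((s * a * k ^ 2 : ℕ) : ℝ) ∧
          s * a * k ^ 2 ∣ A₂ * n + 1) = ∅ := by
        apply Finset.filter_eq_empty_iff.2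
        intro n _ h
        exact hYq h.1
      rw [e1]
      simp only [Finset.card_empty, Nat.cast_zero]
      positivity
  have h4 : (S.card : ℝ) ≤ ∑ s ∈ r.divisors, ∑ k ∈ Icc 1 M, ∑ a ∈ k.divisors,
      (2 * A₂ + 2) * N * Y ^ (-(1 / 8) : ℝ) * (1 / (k : ℝ) ^ (7 / 4 : ℝ)) := by
    have g1 : S.card ≤ ∑ s ∈ r.divisors, ∑ k ∈ Icc 1 M, ∑ a ∈ k.divisors,
        ((II (N / W) κ).filter fun n => Y < ((s * a * k ^ 2 : ℕ) : ℝ) ∧
          s * a * k ^ 2 ∣ A₂ * n + 1).card := by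
      refine (Finset.card_le_card h3).trans ?_
      refine Finset.card_biUnion_le.trans (Finset.sum_le_sum fun s _ => ?_)
      refine Finset.card_biUnion_le.trans (Finset.sum_le_sum fun k _ => ?_)
      exact Finset.card_biUnion_le
    have g2 : (S.card : ℝ) ≤ ∑ s ∈ r.divisors, ∑ k ∈ Icc 1 M, ∑ a ∈ k.divisors,
        ((((II (N / W) κ).filter fun n => Y < ((s * a * k ^ 2 : ℕ) : ℝ) ∧
          s * a * k ^ 2 ∣ A₂ * n + 1).card : ℕ) : ℝ) := by
      exact_mod_cast g1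
    refine g2.trans ?_
    exact Finset.sum_le_sum fun s hs => Finset.sum_le_sum fun k hk => Finset.sum_le_sum
      fun a ha => hterm s hs k hk a ha
  have h5 : ∑ k ∈ Icc 1 M, (k.divisors.card : ℝ) * (1 / (k : ℝ) ^ (7 / 4 : ℝ)) ≤ C₂ * Z := by
    have g1 : ∑ k ∈ Icc 1 M, (k.divisors.card : ℝ) * (1 / (k : ℝ) ^ (7 / 4 : ℝ)) ≤
        ∑ k ∈ Icc 1 M, C₂ * (1 / (k : ℝ) ^ (3 / 2 : ℝ)) := by
      apply Finset.sum_le_sum
      intro k hk
      have hk0 : 0 < k := (Finset.mem_Icc.1 hk).1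
      have hk0' : (0 : ℝ) < k := by exact_mod_cast hk0
      have g2 := mul_le_mul_of_nonneg_right (hC₂ k hk0.ne')
        (by positivity : (0 : ℝ) ≤ 1 / (k : ℝ) ^ (7 / 4 : ℝ))
      refine g2.trans (le_of_eq ?_)
      have g3 : (1 : ℝ) / (k : ℝ) ^ (7 / 4 : ℝ) = (k : ℝ) ^ (-(7 / 4) : ℝ) := by
        rw [Real.rpow_neg hk0'.le, one_div]
      have g4 : (1 : ℝ) / (k : ℝ) ^ (3 / 2 : ℝ) = (k : ℝ) ^ (-(3 / 2) : ℝ) := by
        rw [Real.rpow_neg hk0'.le, one_div]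
      rw [g3, g4, mul_assoc, ← Real.rpow_add hk0']
      norm_num
    refine g1.trans ?_
    rw [← Finset.mul_sum, hZ]
    apply mul_le_mul_of_nonneg_left _ (by linarith)
    exact hsum.sum_le_tsum _ (fun k _ => by positivity)
  have h6 : (r.divisors.card : ℝ) ≤ C₁ * N ^ (ε / 2) := by
    refine (hC₁ r hr.ne').trans ?_
    apply mul_le_mul_of_nonneg_left _ (by linarith)
    exact Real.rpow_le_rpow (Nat.cast_nonneg _) hrN (by positivity)
  have h7 : (S.card : ℝ) ≤ ((2 * A₂ + 2) * C₁ * (C₂ * Z)) * N ^ (ε / 2) *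
      (N * Y ^ (-(1 / 8) : ℝ)) := by
    refine h4.trans ?_
    have e1 : ∑ s ∈ r.divisors, ∑ k ∈ Icc 1 M, ∑ a ∈ k.divisors,
        (2 * A₂ + 2) * N * Y ^ (-(1 / 8) : ℝ) * (1 / (k : ℝ) ^ (7 / 4 : ℝ)) =
        (2 * A₂ + 2) * N * Y ^ (-(1 / 8) : ℝ) * ((r.divisors.card : ℝ) *
          ∑ k ∈ Icc 1 M, (k.divisors.card : ℝ) * (1 / (k : ℝ) ^ (7 / 4 : ℝ))) := by
      simp only [Finset.sum_const, nsmul_eq_mul]
      rw [Finset.mul_sum, Finset.mul_sum, Finset.mul_sum]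
      apply Finset.sum_congr rfl
      intro k _
      ring
    rw [e1]
    have e2 := mul_le_mul h6 h5 (Finset.sum_nonneg fun k _ => by positivity) (by positivity)
    calc (2 * A₂ + 2) * N * Y ^ (-(1 / 8) : ℝ) * ((r.divisors.card : ℝ) *
          ∑ k ∈ Icc 1 M, (k.divisors.card : ℝ) * (1 / (k : ℝ) ^ (7 / 4 : ℝ)))
        ≤ (2 * A₂ + 2) * N * Y ^ (-(1 / 8) : ℝ) * (C₁ * N ^ (ε / 2) * (C₂ * Z)) := by
          apply mul_le_mul_of_nonneg_left e2 (by positivity)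
      _ = _ := by ring
  have h8 : (S.card : ℝ) ≤ ((2 * A₂ + 2) * C₁ * (C₂ * Z) + 1) * N ^ (ε / 2) *
      (N * Y ^ (-(1 / 8) : ℝ)) := by
    refine h7.trans ?_
    apply mul_le_mul_of_nonneg_right _ (by positivity)
    apply mul_le_mul_of_nonneg_right _ (by positivity)
    linarith
  have hee : N ^ (ε / 2) * N ^ (ε / 2) = N ^ ε := by
    rw [← Real.rpow_add hN0]
    congr 1
    ring
  calc ((((QQ A₁ A₂ (II (N / W) κ) D E).filter
      (fun x => Y < (badp (gq A₂ x) r : ℝ))).card : ℕ) : ℝ) ≤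
      ((((QQ A₁ A₂ (II (N / W) κ) D E).filter (fun x => x.2.2.1 ∈ S)).card : ℕ) : ℝ) := by
        exact_mod_cast h2
    _ ≤ C * N ^ (ε / 2) * (S.card * (N / (D * E))) := h1
    _ ≤ C * N ^ (ε / 2) * ((((2 * A₂ + 2) * C₁ * (C₂ * Z) + 1) * N ^ (ε / 2) *
      (N * Y ^ (-(1 / 8) : ℝ))) * (N / (D * E))) := by
        apply mul_le_mul_of_nonneg_left _ (by positivity)
        apply mul_le_mul_of_nonneg_right h8 (by positivity)
    _ = C * ((2 * A₂ + 2) * C₁ * (C₂ * Z) + 1) * (N ^ (ε / 2) * N ^ (ε / 2)) *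
      (N * (N / (D * E)) * Y ^ (-(1 / 8) : ℝ)) := by ring
    _ = _ := by rw [hee]

end Pool.Agent.GapTwo
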