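import Pool.Agent.Work.MP_1ea053_nt.Interface
import Pool.Agent.Work.MP_081200_nt.Div

/-! MP_1ea053_nt: common lemmas for the blocks K3A, K3B, K3C, K3D. -/

set_option autoImplicit false

namespace Pool.Agent.GapTwo.K3_

open Finset
open scoped Classical

lemma mem_II {N κ : ℝ} {n : ℕ} (hN : 0 ≤ N) (hκ : 0 ≤ κ) :
    n ∈ II N κ ↔ N < n ∧ (n : ℝ) ≤ (1 + κ) * N := by
  rw [II, Finset.mem_Ioc, Nat.floor_lt hN, Nat.le_floor_iff (by positivity)]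

section
variable {A₁ A₂ W : ℕ} {N κ D E : ℝ}

lemma II_le (hW : 0 < W) (hκ0 : 0 < κ) (hκ1 : κ ≤ 1) (hN : 1 ≤ N) {n : ℕ}
    (hn : n ∈ II (N / W) κ) : (n : ℝ) ≤ 2 * N := by
  have hW1 : (1 : ℝ) ≤ W := by exact_mod_cast hW
  have h0 : 0 ≤ N / W := by positivity
  rw [mem_II h0 hκ0.le] at hn
  have h1 : N / W ≤ N := div_le_self (by linarith) hW1
  nlinarith [hn.2]

lemma lin_le (hW : 0 < W) (hκ0 : 0 < κ) (hκ1 : κ ≤ 1) (hN : 1 ≤ N) {n : ℕ}
    (hn : n ∈ II (N / W) κ) (A : ℕ) : ((A * n + 1 : ℕ) : ℝ) ≤ (2 * A + 1) * N := by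
  have h1 := II_le hW hκ0 hκ1 hN hn
  have hA : (0 : ℝ) ≤ A := Nat.cast_nonneg A
  push_cast
  nlinarith [mul_le_mul_of_nonneg_left h1 hA]

/-- The basic facts on a quadruple. -/
lemma facts (hW : 0 < W) (hκ0 : 0 < κ) (hκ1 : κ ≤ 1) (hN : 1 ≤ N) (hD : 1 ≤ D) (hE : 1 ≤ E)
    {x : ℕ × ℕ × ℕ × ℕ} (hx : x ∈ QQ A₁ A₂ (II (N / W) κ) D E) :
    (D < x.1 ∧ (x.1 : ℝ) ≤ 2 * D) ∧ (E < x.2.1 ∧ (x.2.1 : ℝ) ≤ 2 * E) ∧
    x.2.2.1 ∈ II (N / W) κ ∧ nt x ∈ II (N / W) κ ∧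
    (1 ≤ x.2.2.2 ∧ (x.2.2.2 : ℝ) ≤ N / (D * E)) ∧
    (x.1 ∣ A₁ * x.2.2.1 + 1 ∧ x.2.1 ∣ A₂ * x.2.2.1 + 1) ∧
    (x.1 ∣ A₁ * nt x + 1 ∧ x.2.1 ∣ A₂ * nt x + 1) := by
  obtain ⟨d, e, n, t⟩ := x
  simp only [QQ, Finset.mem_filter, Finset.mem_product, Finset.mem_Ioc, Finset.mem_Icc] at hx
  obtain ⟨⟨⟨h1, h2⟩, ⟨h3, h4⟩, h5, ⟨h6, -⟩⟩, h7, h8, h9⟩ := hx
  have hd : D < d := (Nat.floor_lt (by linarith)).1 h1
  have hd2 : (d : ℝ) ≤ 2 * D := (Nat.le_floor_iff (by linarith)).1 h2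
  have he : E < e := (Nat.floor_lt (by linarith)).1 h3
  have he2 : (e : ℝ) ≤ 2 * E := (Nat.le_floor_iff (by linarith)).1 h4
  have hW1 : (1 : ℝ) ≤ W := by exact_mod_cast hW
  have h0 : 0 ≤ N / W := by positivity
  have hNW : N / W ≤ N := div_le_self (by linarith) hW1
  have hn := (mem_II h0 hκ0.le).1 h5
  have hn' := (mem_II h0 hκ0.le).1 h9
  push_cast at hn'
  have hdet : (d : ℝ) * e * t ≤ N := by nlinarith [hn.1, hn'.2]
  have ht0 : (0 : ℝ) ≤ t := Nat.cast_nonneg t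
  have hDE : 0 < D * E := by positivity
  have hde : D * E ≤ (d : ℝ) * e := by
    apply mul_le_mul hd.le he.le (by linarith) (by linarith)
  refine ⟨⟨hd, hd2⟩, ⟨he, he2⟩, h5, h9, ⟨h6, ?_⟩, ⟨h7, h8⟩, ?_, ?_⟩
  · show (t : ℝ) ≤ N / (D * E)
    rw [le_div_iff₀ hDE]
    nlinarith
  · show d ∣ A₁ * (n + d * e * t) + 1
    have : A₁ * (n + d * e * t) + 1 = (A₁ * n + 1) + d * (A₁ * (e * t)) := by ring
    rw [this]
    exact dvd_add h7 (dvd_mul_right _ _)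
  · show e ∣ A₂ * (n + d * e * t) + 1
    have : A₂ * (n + d * e * t) + 1 = (A₂ * n + 1) + e * (A₂ * (d * t)) := by ring
    rw [this]
    exact dvd_add h8 (dvd_mul_right _ _)

end

/-- The general count. -/
lemma count {A₁ A₂ : ℕ} (Q : Finset (ℕ × ℕ × ℕ × ℕ)) (S : Finset ℕ) (B R : ℝ) (hB : 0 ≤ B)
    (hR : 0 ≤ R)
    (h : ∀ x ∈ Q, x.2.2.1 ∈ S ∧ x.1 ∣ A₁ * x.2.2.1 + 1 ∧ x.2.1 ∣ A₂ * x.2.2.1 + 1)
    (hb1 : ∀ n ∈ S, ((A₁ * n + 1).divisors.card : ℝ) ≤ B)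
    (hb2 : ∀ n ∈ S, ((A₂ * n + 1).divisors.card : ℝ) ≤ B)
    (hr : ∀ d e n, ((Q.filter fun x => x.1 = d ∧ x.2.1 = e ∧ x.2.2.1 = n).card : ℝ) ≤ R) :
    (Q.card : ℝ) ≤ S.card * B ^ 2 * R := by
  have h1 : Q.card = ∑ y ∈ Q.image (fun x => (x.1, x.2.1, x.2.2.1)),
      (Q.filter fun x => (x.1, x.2.1, x.2.2.1) = y).card :=
    Finset.card_eq_sum_card_image _ _
  have h2 : (Q.card : ℝ) ≤ ((Q.image (fun x => (x.1, x.2.1, x.2.2.1))).card : ℝ) * R := by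
    rw [h1]
    push_cast
    rw [← nsmul_eq_mul]
    refine Finset.sum_le_card_nsmul _ _ _ ?_
    rintro ⟨d, e, n⟩ -
    have : (Q.filter fun x => (x.1, x.2.1, x.2.2.1) = (d, e, n)) =
        Q.filter fun x => x.1 = d ∧ x.2.1 = e ∧ x.2.2.1 = n := by
      apply Finset.filter_congr
      intro x _
      simp only [Prod.mk.injEq]
    rw [this]
    exact hr d e n
  have h3 : Q.image (fun x => (x.1, x.2.1, x.2.2.1)) ⊆
      S.biUnion fun n => (A₁ * n + 1).divisors ×ˢ ((A₂ * n + 1).divisors ×ˢ {n}) := by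
    intro y hy
    obtain ⟨x, hx, rfl⟩ := Finset.mem_image.1 hy
    obtain ⟨g1, g2, g3⟩ := h x hx
    rw [Finset.mem_biUnion]
    refine ⟨x.2.2.1, g1, ?_⟩
    simp only [Finset.mem_product, Nat.mem_divisors, Finset.mem_singleton]
    exact ⟨⟨g2, by omega⟩, ⟨g3, by omega⟩, trivial⟩
  have h4 : ((Q.image (fun x => (x.1, x.2.1, x.2.2.1))).card : ℝ) ≤ S.card * B ^ 2 := by
    have g1 := (Finset.card_le_card h3).trans Finset.card_biUnion_le
    have g2 : ((Q.image (fun x => (x.1, x.2.1, x.2.2.1))).card : ℝ) ≤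
        ∑ n ∈ S, (((A₁ * n + 1).divisors ×ˢ ((A₂ * n + 1).divisors ×ˢ {n})).card : ℝ) := by
      exact_mod_cast g1
    refine g2.trans ?_
    rw [← nsmul_eq_mul]
    refine Finset.sum_le_card_nsmul _ _ _ ?_
    intro n hn
    rw [Finset.card_product, Finset.card_product, Finset.card_singleton]
    push_cast
    have := mul_le_mul (hb1 n hn) (hb2 n hn) (Nat.cast_nonneg _) hB
    nlinarith
  exact h2.trans (mul_le_mul_of_nonneg_right h4 hR)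

/-- The number of integers `t` in `[1, T]`. -/
lemma card_le_of_inj (Q : Finset (ℕ × ℕ × ℕ × ℕ)) (d e n : ℕ) (U : Finset ℕ) (R : ℝ)
    (hU : (U.card : ℝ) ≤ R) (h : ∀ x ∈ Q, x.1 = d → x.2.1 = e → x.2.2.1 = n → x.2.2.2 ∈ U) :
    ((Q.filter fun x => x.1 = d ∧ x.2.1 = e ∧ x.2.2.1 = n).card : ℝ) ≤ R := by
  refine le_trans ?_ hU
  have : (Q.filter fun x => x.1 = d ∧ x.2.1 = e ∧ x.2.2.1 = n).card ≤ U.card := by
    refine Finset.card_le_card_of_injOn (fun x => x.2.2.2) ?_ ?_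
    · intro x hx
      have hx' := Finset.mem_filter.1 (Finset.mem_coe.1 hx)
      exact Finset.mem_coe.2 (h x hx'.1 hx'.2.1 hx'.2.2.1 hx'.2.2.2)
    · intro x hx y hy hxy
      have hx' := (Finset.mem_filter.1 (Finset.mem_coe.1 hx)).2
      have hy' := (Finset.mem_filter.1 (Finset.mem_coe.1 hy)).2
      have hxy' : x.2.2.2 = y.2.2.2 := hxy
      obtain ⟨x1, x2, x3, x4⟩ := x
      obtain ⟨y1, y2, y3, y4⟩ := y
      simp only at hx' hy' hxy'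
      rw [hx'.1, hx'.2.1, hx'.2.2, hy'.1, hy'.2.1, hy'.2.2, hxy']
  exact_mod_cast this

/-- Number of multiples of `p` in `[1, T]`. -/
lemma card_mult (p : ℕ) (T : ℝ) (hT : 0 ≤ T) :
    ((((Icc 1 ⌊T⌋₊).filter fun t => p ∣ t).card : ℕ) : ℝ) ≤ T / p := by
  have h1 : ((Icc 1 ⌊T⌋₊).filter fun t => p ∣ t).card = ⌊T⌋₊ / p := by
    have := Nat.Ioc_filter_dvd_card_eq_div ⌊T⌋₊ p
    rw [← this]
    congr 1
  rw [h1]
  calc ((⌊T⌋₊ / p : ℕ) : ℝ) ≤ (⌊T⌋₊ : ℝ) / p := Nat.cast_div_le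
    _ ≤ T / p := by
      apply div_le_div_of_nonneg_right (Nat.floor_le hT) (Nat.cast_nonneg _)

/-- Number of elements of an interval in a residue class. -/
lemma card_cong (U : Finset ℕ) (a b : ℝ) (hab : a ≤ b) (p : ℕ) (hp : 0 < p)
    (hU : ∀ t ∈ U, a ≤ t ∧ (t : ℝ) ≤ b) (hc : ∀ t ∈ U, ∀ t' ∈ U, t ≡ t' [MOD p]) :
    (U.card : ℝ) ≤ (b - a) / p + 1 := by
  have hp0 : (0 : ℝ) < p := by exact_mod_cast hp
  rcases Finset.eq_empty_or_nonempty U with h0 | h0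
  · rw [h0]
    simp only [Finset.card_empty, Nat.cast_zero]
    have : 0 ≤ (b - a) / p := div_nonneg (by linarith) hp0.le
    linarith
  · have hm := Finset.min'_mem U h0
    set m := U.min' h0 with hmdef
    have hmle : ∀ t ∈ U, m ≤ t := fun t ht => Finset.min'_le U t ht
    have hdv : ∀ t ∈ U, p ∣ t - m := fun t ht =>
      (Nat.modEq_iff_dvd' (hmle t ht)).1 (hc m hm t ht)
    have h1 : U.card ≤ (range (⌊(b - a) / p⌋₊ + 1)).card := by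
      refine Finset.card_le_card_of_injOn (fun t => (t - m) / p) ?_ ?_
      · intro t ht
        rw [Finset.mem_coe] at ht
        rw [Finset.mem_coe, Finset.mem_range, Nat.lt_succ_iff]
        have h2 : ((t - m : ℕ) : ℝ) ≤ b - a := by
          rw [Nat.cast_sub (hmle t ht)]
          have := (hU t ht).2
          have := (hU m hm).1
          linarith
        apply Nat.le_floor
        calc (((t - m) / p : ℕ) : ℝ) ≤ ((t - m : ℕ) : ℝ) / p := Nat.cast_div_le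
          _ ≤ (b - a) / p := div_le_div_of_nonneg_right h2 hp0.le
      · intro t ht t' ht' htt
        rw [Finset.mem_coe] at ht ht'
        have htt' : (t - m) / p = (t' - m) / p := htt
        have e1 := Nat.div_mul_cancel (hdv t ht)
        have e2 := Nat.div_mul_cancel (hdv t' ht')
        have e3 := hmle t ht
        have e4 := hmle t' ht'
        rw [htt'] at e1
        omega
    rw [Finset.card_range] at h1
    have h3 : (U.card : ℝ) ≤ (⌊(b - a) / p⌋₊ : ℝ) + 1 := by exact_mod_cast h1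
    have h4 := Nat.floor_le (div_nonneg (by linarith : (0 : ℝ) ≤ b - a) hp0.le)
    linarith

/-- The `n` with `s ∣ A n + 1`. -/
lemma card_dvd {W : ℕ} {N κ : ℝ} (hW : 0 < W) (hκ0 : 0 < κ) (hκ1 : κ ≤ 1) (hN : 1 ≤ N)
    (A s : ℕ) (hs : 0 < s) :
    ((((II (N / W) κ).filter fun n => s ∣ A * n + 1).card : ℕ) : ℝ) ≤ (2 * A + 2) * N / s := by
  have hs0 : (0 : ℝ) < s := by exact_mod_cast hs
  have hW1 : (1 : ℝ) ≤ W := by exact_mod_cast hW
  have h0 : 0 ≤ N / W := by positivity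
  have hNW : N / W ≤ N := div_le_self (by linarith) hW1
  have hA : (0 : ℝ) ≤ A := Nat.cast_nonneg A
  rcases Finset.eq_empty_or_nonempty ((II (N / W) κ).filter fun n => s ∣ A * n + 1) with h1 | ⟨n₀, h1⟩
  · rw [h1]
    simp only [Finset.card_empty, Nat.cast_zero]
    positivity
  · have hn₀ := Finset.mem_filter.1 h1
    have hsle : (s : ℝ) ≤ (2 * A + 1) * N := by
      have h2 := lin_le hW hκ0 hκ1 hN hn₀.1 A
      have h3 : (s : ℝ) ≤ ((A * n₀ + 1 : ℕ) : ℝ) := by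
        exact_mod_cast Nat.le_of_dvd (by omega) hn₀.2
      linarith
    have hcop : Nat.Coprime s A := by
      have h4 : Nat.gcd s A ∣ 1 := by
        have h5 : Nat.gcd s A ∣ A * n₀ + 1 := (Nat.gcd_dvd_left s A).trans hn₀.2
        have h6 : Nat.gcd s A ∣ A * n₀ := (Nat.gcd_dvd_right s A).trans (dvd_mul_right _ _)
        exact (Nat.dvd_add_right h6).1 h5
      exact Nat.dvd_one.1 h4
    have h2 := card_cong ((II (N / W) κ).filter fun n => s ∣ A * n + 1) (N / W)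
      ((1 + κ) * (N / W)) (by nlinarith) s hs
      (fun t ht => by
        have := (mem_II h0 hκ0.le).1 (Finset.mem_filter.1 ht).1
        exact ⟨this.1.le, this.2⟩)
      (fun t ht t' ht' => by
        have e1 := (Finset.mem_filter.1 ht).2
        have e2 := (Finset.mem_filter.1 ht').2
        have e3 : A * t + 1 ≡ A * t' + 1 [MOD s] :=
          ((Nat.modEq_zero_iff_dvd).2 e1).trans ((Nat.modEq_zero_iff_dvd).2 e2).symm
        have e4 : A * t ≡ A * t' [MOD s] := Nat.ModEq.add_right_cancel' 1 e3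
        exact Nat.ModEq.cancel_left_of_coprime hcop e4)
    have h3 : ((1 + κ) * (N / W) - N / W) / s ≤ N / s := by
      apply div_le_div_of_nonneg_right _ hs0.le
      nlinarith
    have h4 : (1 : ℝ) ≤ (2 * A + 1) * N / s := by
      rw [le_div_iff₀ hs0]
      linarith
    have h5 : (2 * A + 2) * N / s = N / s + (2 * A + 1) * N / s := by ring
    rw [h5]
    linarith

/-- The divisor bound for the two forms. -/
lemma div_bd (A : ℕ) (ε : ℝ) (hε : 0 < ε) : ∃ C : ℝ, 1 ≤ C ∧ ∀ (W : ℕ) (N κ : ℝ), 0 < W →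
    0 < κ → κ ≤ 1 → 1 ≤ N → ∀ n ∈ II (N / W) κ, ∀ m : ℕ, m ∣ A * n + 1 →
    (m.divisors.card : ℝ) ≤ C * N ^ ε := by
  obtain ⟨C, hC1, hC⟩ := Pool.Agent.Work.MP_081200_nt.div_bound ε hε
  have hA : (0 : ℝ) ≤ A := Nat.cast_nonneg A
  have h1 : (1 : ℝ) ≤ (2 * A + 1) ^ ε := Real.one_le_rpow (by linarith) hε.le
  refine ⟨C * (2 * A + 1) ^ ε, by nlinarith, ?_⟩
  intro W N κ hW hκ0 hκ1 hN n hn m hm
  have h2 := lin_le hW hκ0 hκ1 hN hn A
  have h3 : (m : ℝ) ≤ (2 * A + 1) * N := by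
    have : (m : ℝ) ≤ ((A * n + 1 : ℕ) : ℝ) := by exact_mod_cast Nat.le_of_dvd (by omega) hm
    linarith
  have hm0 : m ≠ 0 := by
    rintro rfl
    have := Nat.eq_zero_of_zero_dvd hm
    omega
  calc (m.divisors.card : ℝ) ≤ C * (m : ℝ) ^ ε := hC m hm0
    _ ≤ C * ((2 * A + 1) * N) ^ ε := by
        apply mul_le_mul_of_nonneg_left _ (by linarith)
        exact Real.rpow_le_rpow (Nat.cast_nonneg _) h3 hε.le
    _ = C * (2 * A + 1) ^ ε * N ^ ε := by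
        rw [Real.mul_rpow (by linarith) (by linarith)]
        ring

/-- The general count with the divisor bound inserted. -/
lemma count' (A₁ A₂ : ℕ) (ε : ℝ) (hε : 0 < ε) : ∃ C : ℝ, 1 ≤ C ∧ ∀ (W : ℕ) (N κ : ℝ), 0 < W →
    0 < κ → κ ≤ 1 → 1 ≤ N → ∀ (Q : Finset (ℕ × ℕ × ℕ × ℕ)) (S : Finset ℕ) (R : ℝ), 0 ≤ R →
    S ⊆ II (N / W) κ →
    (∀ x ∈ Q, x.2.2.1 ∈ S ∧ x.1 ∣ A₁ * x.2.2.1 + 1 ∧ x.2.1 ∣ A₂ * x.2.2.1 + 1) →
    (∀ d e n, ((Q.filter fun x => x.1 = d ∧ x.2.1 = e ∧ x.2.2.1 = n).card : ℝ) ≤ R) →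
    (Q.card : ℝ) ≤ C * N ^ ε * (S.card * R) := by
  obtain ⟨C1, hC1, h1⟩ := div_bd A₁ (ε / 2) (by positivity)
  obtain ⟨C2, hC2, h2⟩ := div_bd A₂ (ε / 2) (by positivity)
  have hm1 : 1 ≤ max C1 C2 := le_max_of_le_left hC1
  refine ⟨(max C1 C2) ^ 2, one_le_pow₀ hm1, ?_⟩
  intro W N κ hW hκ0 hκ1 hN Q S R hR hS h hr
  have hN0 : (0 : ℝ) ≤ N ^ (ε / 2) := by positivity
  have h3 := count Q S (max C1 C2 * N ^ (ε / 2)) R (by positivity) hR h
    (fun n hn => (h1 W N κ hW hκ0 hκ1 hN n (hS hn) _ dvd_rfl).trans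
      (mul_le_mul_of_nonneg_right (le_max_left _ _) hN0))
    (fun n hn => (h2 W N κ hW hκ0 hκ1 hN n (hS hn) _ dvd_rfl).trans
      (mul_le_mul_of_nonneg_right (le_max_right _ _) hN0)) hr
  have h4 : (max C1 C2 * N ^ (ε / 2)) ^ 2 = (max C1 C2) ^ 2 * N ^ ε := by
    rw [mul_pow, ← Real.rpow_natCast (N ^ (ε / 2)) 2, ← Real.rpow_mul (by linarith)]
    congr 2
    push_cast
    ring
  rw [h4] at h3
  calc (Q.card : ℝ) ≤ S.card * ((max C1 C2) ^ 2 * N ^ ε) * R := h3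
    _ = (max C1 C2) ^ 2 * N ^ ε * (S.card * R) := by ring

/-- The map exchanging the two endpoints. -/
def fl (x : ℕ × ℕ × ℕ × ℕ) : ℕ × ℕ × ℕ × ℕ := (x.1, x.2.1, nt x, x.2.2.2)

lemma fl_inj : Function.Injective fl := by
  rintro ⟨d, e, n, t⟩ ⟨d', e', n', t'⟩ h
  simp only [fl, nt, Prod.mk.injEq] at h
  obtain ⟨rfl, rfl, h3, rfl⟩ := h
  have : n = n' := by omega
  rw [this]

end Pool.Agent.GapTwo.K3_
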