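import Pool.Agent.Work.MP_1ea053_nt.K3Base

/-! MP_1ea053_nt, block K3C. -/

set_option autoImplicit false

namespace Pool.Agent.GapTwo

open Finset
open scoped Classical

/-- The number of `e` close to the ends of the interval. -/
lemma K3_.bad_e (E ω : ℝ) (hE : 1 ≤ E) (hω : 0 ≤ ω) (U : Finset ℕ)
    (hU : ∀ e ∈ U, E < (e : ℝ) ∧ (e : ℝ) ≤ 2 * E ∧
      ((e : ℝ) ≤ (1 + ω) * E ∨ (1 - ω) * (2 * E) ≤ e)) :
    (U.card : ℝ) ≤ 3 * ω * E + 2 := by
  have h1 : U ⊆ (U.filter fun e : ℕ => (e : ℝ) ≤ (1 + ω) * E) ∪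
      (U.filter fun e : ℕ => (1 - ω) * (2 * E) ≤ (e : ℝ)) := by
    intro e he
    rw [Finset.mem_union, Finset.mem_filter, Finset.mem_filter]
    rcases (hU e he).2.2 with h | h
    · exact Or.inl ⟨he, h⟩
    · exact Or.inr ⟨he, h⟩
  have h2 : (U.card : ℝ) ≤ ((U.filter fun e : ℕ => (e : ℝ) ≤ (1 + ω) * E).card : ℝ) +
      ((U.filter fun e : ℕ => (1 - ω) * (2 * E) ≤ (e : ℝ)).card : ℝ) := by
    exact_mod_cast (Finset.card_le_card h1).trans (Finset.card_union_le _ _)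
  have h3 := K3_.card_cong (U.filter fun e : ℕ => (e : ℝ) ≤ (1 + ω) * E) E ((1 + ω) * E)
    (by nlinarith) 1 one_pos (fun t ht => by
      rw [Finset.mem_filter] at ht
      exact ⟨(hU t ht.1).1.le, ht.2⟩) (fun _ _ _ _ => Nat.modEq_one)
  have h4 := K3_.card_cong (U.filter fun e : ℕ => (1 - ω) * (2 * E) ≤ (e : ℝ)) ((1 - ω) * (2 * E))
    (2 * E) (by nlinarith) 1 one_pos (fun t ht => by
      rw [Finset.mem_filter] at ht
      exact ⟨ht.2, (hU t ht.1).2.1⟩) (fun _ _ _ _ => Nat.modEq_one)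
  rw [Nat.cast_one, div_one] at h3 h4
  linarith

/-- Block K3C. -/
theorem stmt_K3C : Stmt_K3C := by
  intro ε hε A₁ A₂ W _ hW κ hκ0 hκ1
  obtain ⟨C1, hC1, h1⟩ := K3_.div_bd A₁ ε hε
  have hA2 : (0 : ℝ) ≤ A₂ := Nat.cast_nonneg A₂
  refine ⟨C1 * (3 * (2 * A₂ + 2)), by positivity, ?_⟩
  intro N D E ω hN hD hE hEN hω0 hω1
  have hT : 0 ≤ N / (D * E) := by positivity
  have hU : (((Icc 1 ⌊N / (D * E)⌋₊).card : ℕ) : ℝ) ≤ N / (D * E) := by
    rw [Nat.card_Icc]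
    simpa using Nat.floor_le hT
  obtain ⟨Q, hQ⟩ : ∃ Q, Q = (QQ A₁ A₂ (II (N / W) κ) D E).filter
      (fun x => (x.2.1 : ℝ) ≤ (1 + ω) * E ∨ (1 - ω) * (2 * E) ≤ x.2.1) := ⟨_, rfl⟩
  rw [← hQ]
  -- the pairs `(e, n)`
  obtain ⟨P, hP⟩ : ∃ P, P = Q.image fun x => (x.2.1, x.2.2.1) := ⟨_, rfl⟩
  have hfib : ∀ y ∈ P, ((Q.filter fun x => (x.2.1, x.2.2.1) = y).card : ℝ) ≤
      C1 * N ^ ε * (N / (D * E)) := by
    rintro ⟨e, n⟩ hy
    rw [hP] at hy
    obtain ⟨x₀, hx₀, hxy⟩ := Finset.mem_image.1 hy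
    rw [hQ, Finset.mem_filter] at hx₀
    have hf₀ := K3_.facts hW hκ0 hκ1 hN hD hE hx₀.1
    simp only [Prod.mk.injEq] at hxy
    have hnI : n ∈ II (N / W) κ := hxy.2 ▸ hf₀.2.2.1
    have hinj : (Q.filter fun x => (x.2.1, x.2.2.1) = (e, n)).card ≤
        ((A₁ * n + 1).divisors ×ˢ Icc 1 ⌊N / (D * E)⌋₊).card := by
      refine Finset.card_le_card_of_injOn (fun x => (x.1, x.2.2.2)) ?_ ?_
      · intro x hx
        have hx' := Finset.mem_filter.1 (Finset.mem_coe.1 hx)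
        have hx1 := hx'.1
        rw [hQ, Finset.mem_filter] at hx1
        have hf := K3_.facts hW hκ0 hκ1 hN hD hE hx1.1
        have hx2 := hx'.2
        simp only [Prod.mk.injEq] at hx2
        rw [Finset.mem_coe, Finset.mem_product, Nat.mem_divisors, Finset.mem_Icc]
        refine ⟨⟨?_, by omega⟩, hf.2.2.2.2.1.1, Nat.le_floor hf.2.2.2.2.1.2⟩
        rw [← hx2.2]
        exact hf.2.2.2.2.2.1.1
      · intro x hx y hy hxy
        have hx' := (Finset.mem_filter.1 (Finset.mem_coe.1 hx)).2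
        have hy' := (Finset.mem_filter.1 (Finset.mem_coe.1 hy)).2
        obtain ⟨x1, x2, x3, x4⟩ := x
        obtain ⟨y1, y2, y3, y4⟩ := y
        simp only [Prod.mk.injEq] at hx' hy' hxy
        rw [hx'.1, hx'.2, hy'.1, hy'.2, hxy.1, hxy.2]
    have h2 : ((Q.filter fun x => (x.2.1, x.2.2.1) = (e, n)).card : ℝ) ≤
        ((A₁ * n + 1).divisors.card : ℝ) * ((Icc 1 ⌊N / (D * E)⌋₊).card : ℝ) := by
      rw [Finset.card_product] at hinj
      exact_mod_cast hinj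
    refine h2.trans ?_
    exact mul_le_mul (h1 W N κ hW hκ0 hκ1 hN n hnI _ dvd_rfl) hU (Nat.cast_nonneg _)
      (by positivity)
  have hQP : (Q.card : ℝ) ≤ P.card * (C1 * N ^ ε * (N / (D * E))) := by
    have h2 : Q.card = ∑ y ∈ P, (Q.filter fun x => (x.2.1, x.2.2.1) = y).card := by
      rw [hP]
      exact Finset.card_eq_sum_card_image _ _
    rw [h2]
    push_cast
    rw [← nsmul_eq_mul]
    exact Finset.sum_le_card_nsmul _ _ _ hfib
  -- the number of pairs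
  obtain ⟨Ue, hUe⟩ : ∃ Ue, Ue = P.image Prod.fst := ⟨_, rfl⟩
  have hUe' : ∀ e ∈ Ue, E < (e : ℝ) ∧ (e : ℝ) ≤ 2 * E ∧
      ((e : ℝ) ≤ (1 + ω) * E ∨ (1 - ω) * (2 * E) ≤ e) := by
    intro e he
    rw [hUe, hP, Finset.image_image] at he
    obtain ⟨x, hx, rfl⟩ := Finset.mem_image.1 he
    rw [hQ, Finset.mem_filter] at hx
    have hf := K3_.facts hW hκ0 hκ1 hN hD hE hx.1
    exact ⟨hf.2.1.1, hf.2.1.2, hx.2⟩
  have hUc := K3_.bad_e E ω hE hω0 Ue hUe'
  have hPc : (P.card : ℝ) ≤ Ue.card * ((2 * A₂ + 2) * N / E) := by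
    have h2 : P.card = ∑ e ∈ Ue, (P.filter fun y => y.1 = e).card := by
      rw [hUe]
      exact Finset.card_eq_sum_card_image _ _
    rw [h2]
    push_cast
    rw [← nsmul_eq_mul]
    refine Finset.sum_le_card_nsmul _ _ _ ?_
    intro e he
    have he1 := (hUe' e he).1
    have he0 : 0 < e := by
      have : (0 : ℝ) < e := by linarith
      exact_mod_cast this
    have h3 : (P.filter fun y => y.1 = e).card ≤
        ((II (N / W) κ).filter fun n => e ∣ A₂ * n + 1).card := by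
      refine Finset.card_le_card_of_injOn (fun y => y.2) ?_ ?_
      · intro y hy
        have hy' := Finset.mem_filter.1 (Finset.mem_coe.1 hy)
        have hy1 := hy'.1
        rw [hP] at hy1
        obtain ⟨x, hx, hxy⟩ := Finset.mem_image.1 hy1
        rw [hQ, Finset.mem_filter] at hx
        have hf := K3_.facts hW hκ0 hκ1 hN hD hE hx.1
        rw [Finset.mem_coe, Finset.mem_filter, ← hy'.2, ← hxy]
        exact ⟨hf.2.2.1, hf.2.2.2.2.2.1.2⟩
      · intro y hy y' hy' hyy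
        have e1 := (Finset.mem_filter.1 (Finset.mem_coe.1 hy)).2
        have e2 := (Finset.mem_filter.1 (Finset.mem_coe.1 hy')).2
        exact Prod.ext (e1.trans e2.symm) hyy
    have h4 : ((P.filter fun y => y.1 = e).card : ℝ) ≤
        ((((II (N / W) κ).filter fun n => e ∣ A₂ * n + 1).card : ℕ) : ℝ) := by
      exact_mod_cast h3
    refine h4.trans ((K3_.card_dvd hW hκ0 hκ1 hN A₂ e he0).trans ?_)
    apply div_le_div_of_nonneg_left (by positivity) (by linarith) he1.le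
  have hE0 : 0 < E := by linarith
  have hNE : 0 ≤ (2 * A₂ + 2) * N / E := by positivity
  have h5 : (P.card : ℝ) ≤ 3 * (2 * A₂ + 2) * (N * (ω + 1 / E)) := by
    calc (P.card : ℝ) ≤ Ue.card * ((2 * A₂ + 2) * N / E) := hPc
      _ ≤ (3 * ω * E + 2) * ((2 * A₂ + 2) * N / E) := mul_le_mul_of_nonneg_right hUc hNE
      _ ≤ (3 * ω * E + 3) * ((2 * A₂ + 2) * N / E) :=
          mul_le_mul_of_nonneg_right (by linarith) hNE
      _ = 3 * (2 * A₂ + 2) * (N * (ω + 1 / E)) := by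
          field_simp
  have hNε : 0 ≤ C1 * N ^ ε * (N / (D * E)) := by positivity
  calc (Q.card : ℝ) ≤ P.card * (C1 * N ^ ε * (N / (D * E))) := hQP
    _ ≤ 3 * (2 * A₂ + 2) * (N * (ω + 1 / E)) * (C1 * N ^ ε * (N / (D * E))) :=
        mul_le_mul_of_nonneg_right h5 hNε
    _ = C1 * (3 * (2 * A₂ + 2)) * N ^ ε * (N * (N / (D * E)) * (ω + 1 / E)) := by ring

end Pool.Agent.GapTwo
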