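import Pool.Agent.Work.MP_1ea053_nt.K3Base

/-! MP_1ea053_nt, block K3D: the degenerate quadruples. -/

set_option autoImplicit false

namespace Pool.Agent.GapTwo

open Finset
open scoped Classical

namespace K3D_

/-- The two forms are coprime. -/
lemma cop {A₁ A₂ : ℕ} (hS : SamePr A₁ A₂) {n p : ℕ} (hp : p.Prime) (h1 : p ∣ A₁ * n + 1)
    (h2 : p ∣ A₂ * n + 1) : False := by
  obtain ⟨-, -, -, -, hS5⟩ := hS
  have h3 : (p : ℤ) ∣ (A₁ : ℤ) - A₂ := by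
    have e1 : (p : ℤ) ∣ (A₁ : ℤ) * n + 1 := by exact_mod_cast (Int.natCast_dvd_natCast.2 h1)
    have e2 : (p : ℤ) ∣ (A₂ : ℤ) * n + 1 := by exact_mod_cast (Int.natCast_dvd_natCast.2 h2)
    have : (A₁ : ℤ) - A₂ = (A₁ : ℤ) * ((A₂ : ℤ) * n + 1) - A₂ * ((A₁ : ℤ) * n + 1) := by ring
    rw [this]
    exact dvd_sub (e2.mul_left _) (e1.mul_left _)
  have h4 := hS5 p hp h3
  have h5 : p ∣ 1 := (Nat.dvd_add_right (h4.mul_right n)).1 h1
  exact hp.one_lt.ne' (Nat.dvd_one.1 h5)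

lemma notdvd {A n p : ℕ} (hp : p.Prime) (h1 : p ∣ A * n + 1) : ¬ p ∣ A := by
  intro h
  have h5 : p ∣ 1 := (Nat.dvd_add_right (h.mul_right n)).1 h1
  exact hp.one_lt.ne' (Nat.dvd_one.1 h5)

section
variable {A₁ A₂ W : ℕ} {N κ D E : ℝ}

lemma ph_dvd (hW : 0 < W) (hκ0 : 0 < κ) (hκ1 : κ ≤ 1) (hN : 1 ≤ N) (hD : 1 ≤ D) (hE : 1 ≤ E)
    {x : ℕ × ℕ × ℕ × ℕ} (hx : x ∈ QQ A₁ A₂ (II (N / W) κ) D E) :
    ph A₁ x ∣ A₁ * x.2.2.1 + 1 :=
  Nat.div_dvd_of_dvd (K3_.facts hW hκ0 hκ1 hN hD hE hx).2.2.2.2.2.1.1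

lemma gq_dvd (hW : 0 < W) (hκ0 : 0 < κ) (hκ1 : κ ≤ 1) (hN : 1 ≤ N) (hD : 1 ≤ D) (hE : 1 ≤ E)
    {x : ℕ × ℕ × ℕ × ℕ} (hx : x ∈ QQ A₁ A₂ (II (N / W) κ) D E) :
    gq A₂ x ∣ A₂ * x.2.2.1 + 1 :=
  Nat.div_dvd_of_dvd (K3_.facts hW hκ0 hκ1 hN hD hE hx).2.2.2.2.2.1.2

lemma ph'_dvd (hW : 0 < W) (hκ0 : 0 < κ) (hκ1 : κ ≤ 1) (hN : 1 ≤ N) (hD : 1 ≤ D) (hE : 1 ≤ E)
    {x : ℕ × ℕ × ℕ × ℕ} (hx : x ∈ QQ A₁ A₂ (II (N / W) κ) D E) :
    ph' A₁ x ∣ A₁ * nt x + 1 := by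
  have h1 := (K3_.facts hW hκ0 hκ1 hN hD hE hx).2.2.2.2.2.1.1
  have h2 : A₁ * nt x + 1 = x.1 * ph' A₁ x := by
    unfold ph' ph nt
    rw [Nat.mul_add x.1, Nat.mul_div_cancel' h1]
    ring
  rw [h2]
  exact dvd_mul_left _ _

/-- the counting lemmas: all with one constant -/
lemma counts (hS : SamePr A₁ A₂) (ε : ℝ) (hε : 0 < ε) (hW : 0 < W) (hκ0 : 0 < κ) (hκ1 : κ ≤ 1) :
    ∃ C : ℝ, 1 ≤ C ∧ ∀ N D E : ℝ, 1 ≤ N → 1 ≤ D → 1 ≤ E → ∀ p : ℕ, p.Prime →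
    (((QQ A₁ A₂ (II (N / W) κ) D E).filter (fun x => p ∣ gq A₂ x)).card : ℝ) ≤
      C * N ^ ε * (N * (N / (D * E)) / p) ∧
    (((QQ A₁ A₂ (II (N / W) κ) D E).filter (fun x => p ∣ gq A₂ x ∧ p ∣ ph' A₁ x)).card : ℝ) ≤
      C * N ^ ε * (N * (N / (D * E)) / (p : ℝ) ^ 2 + N / p) ∧
    (((QQ A₁ A₂ (II (N / W) κ) D E).filter (fun x => p ∣ x.2.2.2 ∧ p ∣ ph' A₁ x)).card : ℝ) ≤
      C * N ^ ε * (N * (N / (D * E)) / (p : ℝ) ^ 2) ∧
    (((QQ A₁ A₂ (II (N / W) κ) D E).filter (fun x => p ∣ x.2.2.2)).card : ℝ) ≤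
      C * N ^ ε * (N * (N / (D * E)) / p) ∧
    (((QQ A₁ A₂ (II (N / W) κ) D E).filter (fun x => p ∣ ph A₁ x ∧ p ∣ ph' A₁ x)).card : ℝ) ≤
      C * N ^ ε * (N * (N / (D * E)) / (p : ℝ) ^ 2) ∧
    (((QQ A₁ A₂ (II (N / W) κ) D E).filter (fun x => p ∣ ph A₁ x)).card : ℝ) ≤
      C * N ^ ε * (N * (N / (D * E)) / p) ∧
    (((QQ A₁ A₂ (II (N / W) κ) D E).filter (fun x => p ∣ ph' A₁ x)).card : ℝ) ≤
      C * N ^ ε * (N * (N / (D * E)) / p) ∧
    ((QQ A₁ A₂ (II (N / W) κ) D E).card : ℝ) ≤ C * N ^ ε * (N * (N / (D * E))) := by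
  obtain ⟨C, hC1, hC⟩ := K3_.count' A₁ A₂ ε hε
  have hA1 : (0 : ℝ) ≤ A₁ := Nat.cast_nonneg A₁
  have hA2 : (0 : ℝ) ≤ A₂ := Nat.cast_nonneg A₂
  obtain ⟨M, hM⟩ : ∃ M : ℝ, M = 2 * A₁ + 2 * A₂ + 2 := ⟨_, rfl⟩
  have hM1 : 1 ≤ M := by linarith
  refine ⟨C * M, by nlinarith, ?_⟩
  intro N D E hN hD hE p hp
  have hp0 : (0 : ℝ) < p := by exact_mod_cast hp.pos
  have hT : 0 ≤ N / (D * E) := by positivity
  have hfc := fun {x} (hx : x ∈ QQ A₁ A₂ (II (N / W) κ) D E) =>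
    K3_.facts hW hκ0 hκ1 hN hD hE hx
  have hU : (((Icc 1 ⌊N / (D * E)⌋₊).card : ℕ) : ℝ) ≤ N / (D * E) := by
    rw [Nat.card_Icc]
    simpa using Nat.floor_le hT
  have hN0 : (0 : ℝ) ≤ N ^ ε := by positivity
  have hCN : 0 ≤ C * N ^ ε := by positivity
  -- sizes of the sets of `n`
  have hS1 : ((((II (N / W) κ).filter fun n => p ∣ A₁ * n + 1).card : ℕ) : ℝ) ≤ M * N / p := by
    refine (K3_.card_dvd hW hκ0 hκ1 hN A₁ p hp.pos).trans ?_
    apply div_le_div_of_nonneg_right _ hp0.le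
    apply mul_le_mul_of_nonneg_right _ (by linarith)
    linarith
  have hS2 : ((((II (N / W) κ).filter fun n => p ∣ A₂ * n + 1).card : ℕ) : ℝ) ≤ M * N / p := by
    refine (K3_.card_dvd hW hκ0 hκ1 hN A₂ p hp.pos).trans ?_
    apply div_le_div_of_nonneg_right _ hp0.le
    apply mul_le_mul_of_nonneg_right _ (by linarith)
    linarith
  have hS0 : (((II (N / W) κ).card : ℕ) : ℝ) ≤ M * N := by
    have h1 := K3_.card_dvd hW hκ0 hκ1 hN 0 1 one_pos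
    have h2 : ((II (N / W) κ).filter fun n => 1 ∣ 0 * n + 1) = II (N / W) κ := by
      apply Finset.filter_true_of_mem
      intro n _
      exact one_dvd _
    rw [h2] at h1
    push_cast at h1
    rw [div_one] at h1
    nlinarith
  -- the general step
  have key : ∀ (Q : Finset (ℕ × ℕ × ℕ × ℕ)) (S' : Finset ℕ) (s R : ℝ), 0 ≤ R →
      (S'.card : ℝ) ≤ M * s → S' ⊆ II (N / W) κ →
      (∀ x ∈ Q, x.2.2.1 ∈ S' ∧ x.1 ∣ A₁ * x.2.2.1 + 1 ∧ x.2.1 ∣ A₂ * x.2.2.1 + 1) →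
      (∀ d e n, ((Q.filter fun x => x.1 = d ∧ x.2.1 = e ∧ x.2.2.1 = n).card : ℝ) ≤ R) →
      (Q.card : ℝ) ≤ C * M * N ^ ε * (s * R) := by
    intro Q S' s R hR hs hS' h1 h2
    have h3 := hC W N κ hW hκ0 hκ1 hN Q S' R hR hS' h1 h2
    refine h3.trans ?_
    have h4 : (S'.card : ℝ) * R ≤ M * s * R := mul_le_mul_of_nonneg_right hs hR
    calc C * N ^ ε * (S'.card * R) ≤ C * N ^ ε * (M * s * R) :=
          mul_le_mul_of_nonneg_left h4 hCN
      _ = C * M * N ^ ε * (s * R) := by ring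
  have tU : ∀ (Q : Finset (ℕ × ℕ × ℕ × ℕ)), (∀ x ∈ Q, 1 ≤ x.2.2.2 ∧
      (x.2.2.2 : ℝ) ≤ N / (D * E)) → ∀ d e n,
      ((Q.filter fun x => x.1 = d ∧ x.2.1 = e ∧ x.2.2.1 = n).card : ℝ) ≤ N / (D * E) := by
    intro Q hQ d e n
    refine K3_.card_le_of_inj _ d e n (Icc 1 ⌊N / (D * E)⌋₊) _ hU ?_
    intro x hx _ _ _
    rw [Finset.mem_Icc]
    exact ⟨(hQ x hx).1, Nat.le_floor (hQ x hx).2⟩
  have tM : ∀ (Q : Finset (ℕ × ℕ × ℕ × ℕ)), (∀ x ∈ Q, 1 ≤ x.2.2.2 ∧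
      (x.2.2.2 : ℝ) ≤ N / (D * E) ∧ p ∣ x.2.2.2) → ∀ d e n,
      ((Q.filter fun x => x.1 = d ∧ x.2.1 = e ∧ x.2.2.1 = n).card : ℝ) ≤ N / (D * E) / p := by
    intro Q hQ d e n
    refine K3_.card_le_of_inj _ d e n ((Icc 1 ⌊N / (D * E)⌋₊).filter fun t => p ∣ t) _
      (K3_.card_mult p _ hT) ?_
    intro x hx _ _ _
    rw [Finset.mem_filter, Finset.mem_Icc]
    exact ⟨⟨(hQ x hx).1, Nat.le_floor (hQ x hx).2.1⟩, (hQ x hx).2.2⟩
  have hTp : 0 ≤ N / (D * E) / p := by positivity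
  have f1 : Finset.filter (fun n => p ∣ A₁ * n + 1) (II (N / W) κ) ⊆ II (N / W) κ :=
    Finset.filter_subset _ _
  have f2 : Finset.filter (fun n => p ∣ A₂ * n + 1) (II (N / W) κ) ⊆ II (N / W) κ :=
    Finset.filter_subset _ _
  -- (c3)
  have c3 : (((QQ A₁ A₂ (II (N / W) κ) D E).filter
      (fun x => p ∣ x.2.2.2 ∧ p ∣ ph' A₁ x)).card : ℝ) ≤
      C * M * N ^ ε * (N * (N / (D * E)) / (p : ℝ) ^ 2) := by
    have := key ((QQ A₁ A₂ (II (N / W) κ) D E).filter (fun x => p ∣ x.2.2.2 ∧ p ∣ ph' A₁ x))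
      _ (N / p) (N / (D * E) / p) hTp (hS1.trans_eq (by ring)) f1
      (fun x hx => by
        rw [Finset.mem_filter] at hx
        have hf := hfc hx.1
        have e1 : p ∣ ph A₁ x := by
          have : p ∣ A₁ * x.2.1 * x.2.2.2 := hx.2.1.mul_left _
          exact (Nat.dvd_add_left this).1 hx.2.2
        rw [Finset.mem_filter]
        exact ⟨⟨hf.2.2.1, e1.trans (ph_dvd hW hκ0 hκ1 hN hD hE hx.1)⟩,
          hf.2.2.2.2.2.1.1, hf.2.2.2.2.2.1.2⟩)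
      (tM _ (fun x hx => by
        rw [Finset.mem_filter] at hx
        have hf := hfc hx.1
        exact ⟨hf.2.2.2.2.1.1, hf.2.2.2.2.1.2, hx.2.1⟩))
    refine this.trans_eq ?_
    ring
  refine ⟨?_, ?_, c3, ?_, ?_, ?_, ?_, ?_⟩
  · -- (c1)
    have := key ((QQ A₁ A₂ (II (N / W) κ) D E).filter (fun x => p ∣ gq A₂ x))
      _ (N / p) (N / (D * E)) hT (hS2.trans_eq (by ring)) f2
      (fun x hx => by
        rw [Finset.mem_filter] at hx
        have hf := hfc hx.1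
        rw [Finset.mem_filter]
        exact ⟨⟨hf.2.2.1, hx.2.trans (gq_dvd hW hκ0 hκ1 hN hD hE hx.1)⟩,
          hf.2.2.2.2.2.1.1, hf.2.2.2.2.2.1.2⟩)
      (tU _ (fun x hx => by
        rw [Finset.mem_filter] at hx
        have hf := hfc hx.1
        exact ⟨hf.2.2.2.2.1.1, hf.2.2.2.2.1.2⟩))
    refine this.trans_eq ?_
    ring
  · -- (c2)
    have := key ((QQ A₁ A₂ (II (N / W) κ) D E).filter (fun x => p ∣ gq A₂ x ∧ p ∣ ph' A₁ x))
      _ (N / p) (N / (D * E) / p + 1) (by positivity) (hS2.trans_eq (by ring)) f2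
      (fun x hx => by
        rw [Finset.mem_filter] at hx
        have hf := hfc hx.1
        rw [Finset.mem_filter]
        exact ⟨⟨hf.2.2.1, hx.2.1.trans (gq_dvd hW hκ0 hκ1 hN hD hE hx.1)⟩,
          hf.2.2.2.2.2.1.1, hf.2.2.2.2.2.1.2⟩)
      (fun d e n => by
        have h1 : ((((QQ A₁ A₂ (II (N / W) κ) D E).filter
            (fun x => p ∣ gq A₂ x ∧ p ∣ ph' A₁ x)).filter
            fun x => x.1 = d ∧ x.2.1 = e ∧ x.2.2.1 = n).image fun x => x.2.2.2).card =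
            (((QQ A₁ A₂ (II (N / W) κ) D E).filter
            (fun x => p ∣ gq A₂ x ∧ p ∣ ph' A₁ x)).filter
            fun x => x.1 = d ∧ x.2.1 = e ∧ x.2.2.1 = n).card := by
          refine Finset.card_image_of_injOn ?_
          intro x hx y hy hxy
          have hx' := (Finset.mem_filter.1 (Finset.mem_coe.1 hx)).2
          have hy' := (Finset.mem_filter.1 (Finset.mem_coe.1 hy)).2
          have hxy' : x.2.2.2 = y.2.2.2 := hxy
          obtain ⟨x1, x2, x3, x4⟩ := x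
          obtain ⟨y1, y2, y3, y4⟩ := y
          simp only at hx' hy' hxy'
          rw [hx'.1, hx'.2.1, hx'.2.2, hy'.1, hy'.2.1, hy'.2.2, hxy']
        rw [← h1]
        have h2 := K3_.card_cong ((((QQ A₁ A₂ (II (N / W) κ) D E).filter
            (fun x => p ∣ gq A₂ x ∧ p ∣ ph' A₁ x)).filter
            fun x => x.1 = d ∧ x.2.1 = e ∧ x.2.2.1 = n).image fun x => x.2.2.2) 0
            (N / (D * E)) hT p hp.pos (fun t ht => by
              obtain ⟨x, hx, rfl⟩ := Finset.mem_image.1 ht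
              have hf := hfc (Finset.mem_filter.1 (Finset.mem_filter.1 hx).1).1
              exact ⟨Nat.cast_nonneg _, hf.2.2.2.2.1.2⟩) (fun t ht t' ht' => by
              obtain ⟨x, hx, rfl⟩ := Finset.mem_image.1 ht
              obtain ⟨y, hy, rfl⟩ := Finset.mem_image.1 ht'
              have hx1 := Finset.mem_filter.1 hx
              have hy1 := Finset.mem_filter.1 hy
              have hx2 := Finset.mem_filter.1 hx1.1
              have hy2 := Finset.mem_filter.1 hy1.1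
              have hf := hfc hx2.1
              have e1 : p ∣ A₁ * nt x + 1 := hx2.2.2.trans (ph'_dvd hW hκ0 hκ1 hN hD hE hx2.1)
              have e2 : ¬ p ∣ A₁ := notdvd hp e1
              have e3 : ¬ p ∣ x.2.1 := fun h =>
                cop hS hp e1 (h.trans hf.2.2.2.2.2.2.2)
              have e4 : ph A₁ x = ph A₁ y := by
                unfold ph
                rw [hx1.2.1, hy1.2.1, hx1.2.2.2, hy1.2.2.2]
              have e5 : ph A₁ x + A₁ * x.2.1 * x.2.2.2 ≡ ph A₁ x + A₁ * x.2.1 * y.2.2.2 [MOD p] := by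
                have g1 : ph A₁ x + A₁ * x.2.1 * x.2.2.2 ≡ 0 [MOD p] :=
                  (Nat.modEq_zero_iff_dvd).2 hx2.2.2
                have g2 : ph A₁ x + A₁ * x.2.1 * y.2.2.2 ≡ 0 [MOD p] := by
                  refine (Nat.modEq_zero_iff_dvd).2 ?_
                  have := hy2.2.2
                  unfold ph' at this
                  rw [← e4, hy1.2.2.1, ← hx1.2.2.1] at this
                  exact this
                exact g1.trans g2.symm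
              have e6 := Nat.ModEq.add_left_cancel' _ e5
              have e7 : Nat.Coprime p (A₁ * x.2.1) :=
                Nat.Coprime.mul_right ((Nat.Prime.coprime_iff_not_dvd hp).2 e2)
                  ((Nat.Prime.coprime_iff_not_dvd hp).2 e3)
              exact Nat.ModEq.cancel_left_of_coprime e7 e6)
        rw [sub_zero] at h2
        exact h2)
    refine this.trans_eq ?_
    ring
  · -- (c4)
    have := key ((QQ A₁ A₂ (II (N / W) κ) D E).filter (fun x => p ∣ x.2.2.2))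
      _ N (N / (D * E) / p) hTp hS0 subset_rfl
      (fun x hx => by
        rw [Finset.mem_filter] at hx
        have hf := hfc hx.1
        exact ⟨hf.2.2.1, hf.2.2.2.2.2.1.1, hf.2.2.2.2.2.1.2⟩)
      (tM _ (fun x hx => by
        rw [Finset.mem_filter] at hx
        have hf := hfc hx.1
        exact ⟨hf.2.2.2.2.1.1, hf.2.2.2.2.1.2, hx.2⟩))
    refine this.trans_eq ?_
    ring
  · -- (c5)
    refine le_trans ?_ c3
    have h1 : (QQ A₁ A₂ (II (N / W) κ) D E).filter (fun x => p ∣ ph A₁ x ∧ p ∣ ph' A₁ x) ⊆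
        (QQ A₁ A₂ (II (N / W) κ) D E).filter (fun x => p ∣ x.2.2.2 ∧ p ∣ ph' A₁ x) := by
      intro x hx
      rw [Finset.mem_filter] at hx ⊢
      refine ⟨hx.1, ?_, hx.2.2⟩
      have hf := hfc hx.1
      have e1 : p ∣ A₁ * x.2.2.1 + 1 := hx.2.1.trans (ph_dvd hW hκ0 hκ1 hN hD hE hx.1)
      have e2 : p ∣ A₁ * x.2.1 * x.2.2.2 := (Nat.dvd_add_right hx.2.1).1 hx.2.2
      rcases (Nat.Prime.dvd_mul hp).1 e2 with e3 | e3
      · rcases (Nat.Prime.dvd_mul hp).1 e3 with e4 | e4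
        · exact absurd e4 (notdvd hp e1)
        · exact (cop hS hp e1 (e4.trans hf.2.2.2.2.2.1.2)).elim
      · exact e3
    exact_mod_cast Finset.card_le_card h1
  · -- (c6)
    have := key ((QQ A₁ A₂ (II (N / W) κ) D E).filter (fun x => p ∣ ph A₁ x))
      _ (N / p) (N / (D * E)) hT (hS1.trans_eq (by ring)) f1
      (fun x hx => by
        rw [Finset.mem_filter] at hx
        have hf := hfc hx.1
        rw [Finset.mem_filter]
        exact ⟨⟨hf.2.2.1, hx.2.trans (ph_dvd hW hκ0 hκ1 hN hD hE hx.1)⟩,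
          hf.2.2.2.2.2.1.1, hf.2.2.2.2.2.1.2⟩)
      (tU _ (fun x hx => by
        rw [Finset.mem_filter] at hx
        have hf := hfc hx.1
        exact ⟨hf.2.2.2.2.1.1, hf.2.2.2.2.1.2⟩))
    refine this.trans_eq ?_
    ring
  · -- (c7)
    rw [← Finset.card_image_of_injective _ K3_.fl_inj]
    have := key (((QQ A₁ A₂ (II (N / W) κ) D E).filter (fun x => p ∣ ph' A₁ x)).image K3_.fl)
      _ (N / p) (N / (D * E)) hT (hS1.trans_eq (by ring)) f1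
      (fun y hy => by
        obtain ⟨x, hx, rfl⟩ := Finset.mem_image.1 hy
        rw [Finset.mem_filter] at hx
        have hf := hfc hx.1
        rw [Finset.mem_filter]
        exact ⟨⟨hf.2.2.2.1, hx.2.trans (ph'_dvd hW hκ0 hκ1 hN hD hE hx.1)⟩,
          hf.2.2.2.2.2.2.1, hf.2.2.2.2.2.2.2⟩)
      (tU _ (fun y hy => by
        obtain ⟨x, hx, rfl⟩ := Finset.mem_image.1 hy
        rw [Finset.mem_filter] at hx
        have hf := hfc hx.1
        exact ⟨hf.2.2.2.2.1.1, hf.2.2.2.2.1.2⟩))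
    refine this.trans_eq ?_
    ring
  · have := key (QQ A₁ A₂ (II (N / W) κ) D E)
      _ N (N / (D * E)) hT hS0 subset_rfl
      (fun x hx => by
        have hf := hfc hx
        exact ⟨hf.2.2.1, hf.2.2.2.2.2.1.1, hf.2.2.2.2.2.1.2⟩)
      (tU _ (fun x hx => by
        have hf := hfc hx
        exact ⟨hf.2.2.2.2.1.1, hf.2.2.2.2.1.2⟩))
    exact this

end

/-- indicator -/
noncomputable def ii (P : Prop) : ℝ := if P then 1 else 0

lemma ii_nonneg (P : Prop) : 0 ≤ ii P := by unfold ii; split_ifs <;> norm_num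
lemma ii_le (P : Prop) : ii P ≤ 1 := by unfold ii; split_ifs <;> norm_num
lemma ii_true {P : Prop} (h : P) : ii P = 1 := by unfold ii; rw [if_pos h]
lemma ii_false {P : Prop} (h : ¬ P) : ii P = 0 := by unfold ii; rw [if_neg h]
lemma ii_mul (P Q : Prop) : ii P * ii Q = ii (P ∧ Q) := by
  unfold ii
  by_cases h1 : P <;> by_cases h2 : Q <;> simp [h1, h2]

lemma ii_sum {α : Type*} (s : Finset α) (P : α → Prop) [DecidablePred P] :
    ∑ x ∈ s, ii (P x) = ((s.filter P).card : ℝ) := by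
  rw [Finset.card_filter]
  push_cast
  refine Finset.sum_congr rfl fun x _ => ?_
  unfold ii
  split_ifs <;> rfl

/-- harmonic sum -/
lemma harm {N : ℝ} (hN : 1 ≤ N) : ∑ k ∈ Icc 1 ⌊N⌋₊, 1 / (k : ℝ) ≤ 1 + Real.log N := by
  have h := harmonic_floor_le_one_add_log N hN
  rw [harmonic_eq_sum_Icc] at h
  push_cast at h
  simpa only [one_div] using h

lemma harm_mult {N : ℝ} (hN : 1 ≤ N) (p : ℕ) (hp : 0 < p) (U : Finset ℕ)
    (hU : ∀ d ∈ U, 0 < d ∧ (d : ℝ) ≤ N ∧ p ∣ d) :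
    ∑ d ∈ U, 1 / (d : ℝ) ≤ (1 + Real.log N) / p := by
  have hp0 : (0 : ℝ) < p := by exact_mod_cast hp
  have h1 : U ⊆ (Icc 1 ⌊N⌋₊).image (fun k => p * k) := by
    intro d hd
    obtain ⟨h1, h2, k, rfl⟩ := hU d hd
    rw [Finset.mem_image]
    have hk : 0 < k := Nat.pos_of_mul_pos_left h1
    refine ⟨k, ?_, rfl⟩
    rw [Finset.mem_Icc]
    refine ⟨hk, Nat.le_floor (le_trans ?_ h2)⟩
    have : k ≤ p * k := Nat.le_mul_of_pos_left k hp
    exact_mod_cast this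
  calc ∑ d ∈ U, 1 / (d : ℝ) ≤ ∑ d ∈ (Icc 1 ⌊N⌋₊).image (fun k => p * k), 1 / (d : ℝ) :=
        Finset.sum_le_sum_of_subset_of_nonneg h1 fun _ _ _ => by positivity
    _ = ∑ k ∈ Icc 1 ⌊N⌋₊, 1 / ((p * k : ℕ) : ℝ) := by
        rw [Finset.sum_image]
        intro a _ b _ hab
        exact Nat.eq_of_mul_eq_mul_left hp hab
    _ = (∑ k ∈ Icc 1 ⌊N⌋₊, 1 / (k : ℝ)) / p := by
        rw [Finset.sum_div]
        refine Finset.sum_congr rfl fun k _ => ?_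
        push_cast
        rw [div_div, mul_comm]
    _ ≤ (1 + Real.log N) / p := div_le_div_of_nonneg_right (harm hN) hp0.le

/-- The sums over `d`. -/
lemma sumF {N z D₂ B : ℝ} (hN : 1 ≤ N) (hD₂ : D₂ ≤ N) (m : ℕ) (hm : 0 < m)
    (hB1 : (m.divisors.card : ℝ) ≤ B) (hB2 : 1 + Real.log N ≤ B) (p : ℕ) (hp : 0 < p) :
    ∑ d ∈ RG z D₂, ii (p ∣ d) * (ii (d ∣ m) + 1 / d) ≤ B * (ii (p ∣ m) + 1 / p) := by
  have hp0 : (0 : ℝ) < p := by exact_mod_cast hp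
  have hRG : ∀ d ∈ RG z D₂, 0 < d ∧ (d : ℝ) ≤ N := by
    intro d hd
    rw [RG, Finset.mem_filter, Finset.mem_Icc] at hd
    refine ⟨by omega, le_trans ?_ hD₂⟩
    by_cases h0 : 0 ≤ D₂
    · exact (Nat.le_floor_iff h0).1 hd.1.2
    · exfalso
      have : ⌊D₂⌋₊ = 0 := Nat.floor_of_nonpos (le_of_not_ge h0)
      omega
  have h1 : ∑ d ∈ RG z D₂, ii (p ∣ d) * ii (d ∣ m) ≤ B * ii (p ∣ m) := by
    by_cases h : p ∣ m
    · rw [ii_true h, mul_one]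
      refine le_trans ?_ hB1
      calc ∑ d ∈ RG z D₂, ii (p ∣ d) * ii (d ∣ m) ≤ ∑ d ∈ RG z D₂, ii (d ∣ m) := by
            refine Finset.sum_le_sum fun d _ => ?_
            have := mul_le_mul_of_nonneg_right (ii_le (p ∣ d)) (ii_nonneg (d ∣ m))
            linarith
        _ = (((RG z D₂).filter fun d => d ∣ m).card : ℝ) := ii_sum _ _
        _ ≤ (m.divisors.card : ℝ) := by
            have : (RG z D₂).filter (fun d => d ∣ m) ⊆ m.divisors := by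
              intro d hd
              rw [Nat.mem_divisors]
              exact ⟨(Finset.mem_filter.1 hd).2, by omega⟩
            exact_mod_cast Finset.card_le_card this
    · rw [ii_false h, mul_zero]
      refine le_of_eq (Finset.sum_eq_zero fun d _ => ?_)
      rw [ii_mul]
      exact ii_false fun h' => h (h'.1.trans h'.2)
  have h2 : ∑ d ∈ RG z D₂, ii (p ∣ d) * (1 / (d : ℝ)) ≤ B * (1 / p) := by
    have e1 : ∑ d ∈ RG z D₂, ii (p ∣ d) * (1 / (d : ℝ)) =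
        ∑ d ∈ (RG z D₂).filter (fun d => p ∣ d), 1 / (d : ℝ) := by
      rw [Finset.sum_filter]
      refine Finset.sum_congr rfl fun d _ => ?_
      unfold ii
      split_ifs <;> simp
    rw [e1]
    refine (harm_mult hN p hp _ fun d hd => ?_).trans ?_
    · rw [Finset.mem_filter] at hd
      exact ⟨(hRG d hd.1).1, (hRG d hd.1).2, hd.2⟩
    · rw [mul_one_div]
      exact div_le_div_of_nonneg_right hB2 hp0.le
  calc ∑ d ∈ RG z D₂, ii (p ∣ d) * (ii (d ∣ m) + 1 / d)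
      = ∑ d ∈ RG z D₂, ii (p ∣ d) * ii (d ∣ m) + ∑ d ∈ RG z D₂, ii (p ∣ d) * (1 / (d : ℝ)) := by
        rw [← Finset.sum_add_distrib]
        refine Finset.sum_congr rfl fun d _ => ?_
        ring
    _ ≤ B * ii (p ∣ m) + B * (1 / p) := add_le_add h1 h2
    _ = B * (ii (p ∣ m) + 1 / p) := by ring

/-- Sum over the primes of the inverse squares. -/
lemma inv_sq {z : ℝ} (hz : 1 ≤ z) (P : Finset ℕ) (hP : ∀ p ∈ P, z ≤ (p : ℝ)) :
    ∑ p ∈ P, 1 / (p : ℝ) ^ 2 ≤ 2 / z := by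
  obtain ⟨M, hM⟩ : ∃ M : ℕ, ∀ p ∈ P, p < M := by
    refine ⟨P.sup id + 1, fun p hp => Nat.lt_succ_of_le (Finset.le_sup (f := id) hp)⟩
  have hc : 1 ≤ ⌈z⌉₊ := Nat.one_le_ceil_iff.2 (by linarith)
  have h1 : P ⊆ Ioo (⌈z⌉₊ - 1) M := by
    intro p hp
    rw [Finset.mem_Ioo]
    have : ⌈z⌉₊ ≤ p := Nat.ceil_le.2 (hP p hp)
    exact ⟨by omega, hM p hp⟩
  have h2 := sum_Ioo_inv_sq_le (α := ℝ) (⌈z⌉₊ - 1) M
  have h3 : (((⌈z⌉₊ - 1 : ℕ) : ℝ)) + 1 = (⌈z⌉₊ : ℝ) := by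
    rw [Nat.cast_sub hc]
    push_cast
    ring
  rw [h3] at h2
  calc ∑ p ∈ P, 1 / (p : ℝ) ^ 2 ≤ ∑ p ∈ Ioo (⌈z⌉₊ - 1) M, 1 / (p : ℝ) ^ 2 :=
        Finset.sum_le_sum_of_subset_of_nonneg h1 fun _ _ _ => by positivity
    _ = ∑ p ∈ Ioo (⌈z⌉₊ - 1) M, ((p : ℝ) ^ 2)⁻¹ := by simp only [one_div]
    _ ≤ 2 / (⌈z⌉₊ : ℝ) := h2
    _ ≤ 2 / z := div_le_div_of_nonneg_left (by norm_num) (by linarith) (Nat.le_ceil z)

/-- The weight of a prime and a quadruple. -/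
noncomputable def Wt (A₁ A₂ p : ℕ) (x : ℕ × ℕ × ℕ × ℕ) : ℝ :=
  2 * (ii (p ∣ gq A₂ x) / p) + ii (p ∣ gq A₂ x ∧ p ∣ ph' A₁ x) +
    ii (p ∣ x.2.2.2 ∧ p ∣ ph' A₁ x) + ii (p ∣ x.2.2.2) / p +
    ii (p ∣ ph A₁ x ∧ p ∣ ph' A₁ x) + ii (p ∣ ph A₁ x) / p + ii (p ∣ ph' A₁ x) / p +
    1 / (p : ℝ) ^ 2

/-- The estimate for one quadruple. -/
lemma perx {A₁ A₂ W : ℕ} {N κ D E : ℝ} (hS : SamePr A₁ A₂) (hW : 0 < W) (hκ0 : 0 < κ)
    (hκ1 : κ ≤ 1) (hN : 1 ≤ N) (hD : 1 ≤ D) (hE : 1 ≤ E) {z D₂ B : ℝ} (hD₂ : D₂ ≤ N)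
    {x : ℕ × ℕ × ℕ × ℕ} (hx : x ∈ QQ A₁ A₂ (II (N / W) κ) D E)
    (hB1 : ((ph A₁ x).divisors.card : ℝ) ≤ B) (hB1' : ((ph' A₁ x).divisors.card : ℝ) ≤ B)
    (hB2 : 1 + Real.log N ≤ B) :
    ∑ d ∈ RG z D₂, ∑ d' ∈ RG z D₂, ii (¬ ND A₂ x d d') *
      ((ii (d ∣ ph A₁ x) + 1 / d) * (ii (d' ∣ ph' A₁ x) + 1 / d')) ≤
    2 * B ^ 2 * ∑ p ∈ (Icc 1 ⌊N⌋₊).filter (fun p : ℕ => p.Prime ∧ z ≤ (p : ℝ)), Wt A₁ A₂ p x := by
  have hlog : 0 ≤ Real.log N := Real.log_nonneg hN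
  have hB0 : 1 ≤ B := by linarith
  obtain ⟨P, hP⟩ : ∃ P, P = (Icc 1 ⌊N⌋₊).filter (fun p : ℕ => p.Prime ∧ z ≤ (p : ℝ)) := ⟨_, rfl⟩
  rw [← hP]
  have hph : 0 < ph A₁ x := Nat.pos_of_dvd_of_pos (ph_dvd hW hκ0 hκ1 hN hD hE hx) (by omega)
  have hph' : 0 < ph' A₁ x := Nat.pos_of_dvd_of_pos (ph'_dvd hW hκ0 hκ1 hN hD hE hx) (by omega)
  have hRG : ∀ d ∈ RG z D₂, (0 < d ∧ (d : ℝ) ≤ N) ∧ ∀ p : ℕ, p.Prime → p ∣ d → z ≤ (p : ℝ) := by
    intro d hd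
    rw [RG, Finset.mem_filter, Finset.mem_Icc] at hd
    refine ⟨⟨by omega, le_trans ?_ hD₂⟩, hd.2.2⟩
    by_cases h0 : 0 ≤ D₂
    · exact (Nat.le_floor_iff h0).1 hd.1.2
    · exfalso
      have : ⌊D₂⌋₊ = 0 := Nat.floor_of_nonpos (le_of_not_ge h0)
      omega
  have hmemP : ∀ d ∈ RG z D₂, ∀ p : ℕ, p.Prime → p ∣ d → p ∈ P := by
    intro d hd p hp hpd
    rw [hP, Finset.mem_filter, Finset.mem_Icc]
    have h1 := hRG d hd
    refine ⟨⟨hp.pos, Nat.le_floor (le_trans ?_ h1.1.2)⟩, hp, h1.2 p hp hpd⟩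
    exact_mod_cast Nat.le_of_dvd h1.1.1 hpd
  obtain ⟨F, hF⟩ : ∃ F : ℕ → ℝ, ∀ d, F d = ii (d ∣ ph A₁ x) + 1 / d := ⟨_, fun _ => rfl⟩
  obtain ⟨F', hF'⟩ : ∃ F' : ℕ → ℝ, ∀ d, F' d = ii (d ∣ ph' A₁ x) + 1 / d := ⟨_, fun _ => rfl⟩
  have hF0 : ∀ d, 0 ≤ F d := fun d => by
    rw [hF]
    have := ii_nonneg (d ∣ ph A₁ x)
    positivity
  have hF0' : ∀ d, 0 ≤ F' d := fun d => by
    rw [hF']
    have := ii_nonneg (d ∣ ph' A₁ x)
    positivity
  -- pointwise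
  have hpt : ∀ d ∈ RG z D₂, ∀ d' ∈ RG z D₂, ii (¬ ND A₂ x d d') * (F d * F' d') ≤
      ∑ p ∈ P, (ii (p ∣ gq A₂ x) * (ii (p ∣ d) * F d) * F' d' +
        ii (p ∣ gq A₂ x) * F d * (ii (p ∣ d') * F' d') +
        ii (p ∣ x.2.2.2) * F d * (ii (p ∣ d') * F' d') +
        (ii (p ∣ d) * F d) * (ii (p ∣ d') * F' d')) := by
    intro d hd d' hd'
    have hFF : 0 ≤ F d * F' d' := mul_nonneg (hF0 d) (hF0' d')
    have hterm : ∀ p ∈ P, 0 ≤ (ii (p ∣ gq A₂ x) * (ii (p ∣ d) * F d) * F' d' +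
        ii (p ∣ gq A₂ x) * F d * (ii (p ∣ d') * F' d') +
        ii (p ∣ x.2.2.2) * F d * (ii (p ∣ d') * F' d') +
        (ii (p ∣ d) * F d) * (ii (p ∣ d') * F' d')) := by
      intro p _
      have g1 := ii_nonneg (p ∣ gq A₂ x)
      have g2 := ii_nonneg (p ∣ d)
      have g3 := ii_nonneg (p ∣ d')
      have g4 := ii_nonneg (p ∣ x.2.2.2)
      have g5 := hF0 d
      have g6 := hF0' d'
      positivity
    by_cases hnd : ND A₂ x d d'
    · rw [ii_false (by simpa using hnd), zero_mul]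
      exact Finset.sum_nonneg hterm
    · rw [ii_true hnd, one_mul]
      have hex : ∃ p ∈ P, (p ∣ gq A₂ x ∧ p ∣ d) ∨ (p ∣ gq A₂ x ∧ p ∣ d') ∨
          (p ∣ x.2.2.2 ∧ p ∣ d') ∨ (p ∣ d ∧ p ∣ d') := by
        unfold ND at hnd
        by_contra hcon
        push Not at hcon
        apply hnd
        refine ⟨?_, ?_, ?_, ?_⟩
        · by_contra h
          obtain ⟨p, hp, h1, h2⟩ := Nat.Prime.not_coprime_iff_dvd.1 h
          exact (hcon p (hmemP d hd p hp h2)).1 h1 h2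
        · by_contra h
          obtain ⟨p, hp, h1, h2⟩ := Nat.Prime.not_coprime_iff_dvd.1 h
          exact (hcon p (hmemP d' hd' p hp h2)).2.1 h1 h2
        · by_contra h
          obtain ⟨p, hp, h1, h2⟩ := Nat.Prime.not_coprime_iff_dvd.1 h
          exact (hcon p (hmemP d' hd' p hp h2)).2.2.1 h1 h2
        · by_contra h
          obtain ⟨p, hp, h1, h2⟩ := Nat.Prime.not_coprime_iff_dvd.1 h
          exact (hcon p (hmemP d hd p hp h1)).2.2.2 h1 h2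
      obtain ⟨p, hpP, hp⟩ := hex
      refine le_trans ?_ (Finset.single_le_sum hterm hpP)
      have g1 := ii_nonneg (p ∣ gq A₂ x)
      have g2 := ii_nonneg (p ∣ d)
      have g3 := ii_nonneg (p ∣ d')
      have g4 := ii_nonneg (p ∣ x.2.2.2)
      have g5 := hF0 d
      have g6 := hF0' d'
      have k1 : 0 ≤ ii (p ∣ gq A₂ x) * (ii (p ∣ d) * F d) * F' d' := by positivity
      have k2 : 0 ≤ ii (p ∣ gq A₂ x) * F d * (ii (p ∣ d') * F' d') := by positivity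
      have k3 : 0 ≤ ii (p ∣ x.2.2.2) * F d * (ii (p ∣ d') * F' d') := by positivity
      have k4 : 0 ≤ (ii (p ∣ d) * F d) * (ii (p ∣ d') * F' d') := by positivity
      rcases hp with ⟨h1, h2⟩ | ⟨h1, h2⟩ | ⟨h1, h2⟩ | ⟨h1, h2⟩
      · have : ii (p ∣ gq A₂ x) * (ii (p ∣ d) * F d) * F' d' = F d * F' d' := by
          rw [ii_true h1, ii_true h2]; ring
        linarith
      · have : ii (p ∣ gq A₂ x) * F d * (ii (p ∣ d') * F' d') = F d * F' d' := by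
          rw [ii_true h1, ii_true h2]; ring
        linarith
      · have : ii (p ∣ x.2.2.2) * F d * (ii (p ∣ d') * F' d') = F d * F' d' := by
          rw [ii_true h1, ii_true h2]; ring
        linarith
      · have : (ii (p ∣ d) * F d) * (ii (p ∣ d') * F' d') = F d * F' d' := by
          rw [ii_true h1, ii_true h2]; ring
        linarith
  -- sums over `d`, `d'`
  have hsum1 : ∑ d ∈ RG z D₂, F d ≤ 2 * B := by
    have := sumF (z := z) hN hD₂ (ph A₁ x) hph hB1 hB2 1 one_pos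
    have h2 : ∑ d ∈ RG z D₂, F d = ∑ d ∈ RG z D₂, ii (1 ∣ d) * (ii (d ∣ ph A₁ x) + 1 / d) := by
      refine Finset.sum_congr rfl fun d _ => ?_
      rw [ii_true (one_dvd d), one_mul, hF]
    rw [h2]
    refine this.trans ?_
    rw [ii_true (one_dvd _)]
    push_cast
    linarith
  have hsum1' : ∑ d ∈ RG z D₂, F' d ≤ 2 * B := by
    have := sumF (z := z) hN hD₂ (ph' A₁ x) hph' hB1' hB2 1 one_pos
    have h2 : ∑ d ∈ RG z D₂, F' d = ∑ d ∈ RG z D₂, ii (1 ∣ d) * (ii (d ∣ ph' A₁ x) + 1 / d) := by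
      refine Finset.sum_congr rfl fun d _ => ?_
      rw [ii_true (one_dvd d), one_mul, hF']
    rw [h2]
    refine this.trans ?_
    rw [ii_true (one_dvd _)]
    push_cast
    linarith
  have hsum0 : 0 ≤ ∑ d ∈ RG z D₂, F d := Finset.sum_nonneg fun d _ => hF0 d
  have hsum0' : 0 ≤ ∑ d ∈ RG z D₂, F' d := Finset.sum_nonneg fun d _ => hF0' d
  have hsump : ∀ p ∈ P, ∑ d ∈ RG z D₂, ii (p ∣ d) * F d ≤ B * (ii (p ∣ ph A₁ x) + 1 / p) := by
    intro p hp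
    rw [hP, Finset.mem_filter] at hp
    have := sumF (z := z) hN hD₂ (ph A₁ x) hph hB1 hB2 p hp.2.1.pos
    simpa only [hF] using this
  have hsump' : ∀ p ∈ P, ∑ d ∈ RG z D₂, ii (p ∣ d) * F' d ≤
      B * (ii (p ∣ ph' A₁ x) + 1 / p) := by
    intro p hp
    rw [hP, Finset.mem_filter] at hp
    have := sumF (z := z) hN hD₂ (ph' A₁ x) hph' hB1' hB2 p hp.2.1.pos
    simpa only [hF'] using this
  have hsump0 : ∀ p, 0 ≤ ∑ d ∈ RG z D₂, ii (p ∣ d) * F d := fun p =>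
    Finset.sum_nonneg fun d _ => mul_nonneg (ii_nonneg _) (hF0 d)
  have hsump0' : ∀ p, 0 ≤ ∑ d ∈ RG z D₂, ii (p ∣ d) * F' d := fun p =>
    Finset.sum_nonneg fun d _ => mul_nonneg (ii_nonneg _) (hF0' d)
  calc ∑ d ∈ RG z D₂, ∑ d' ∈ RG z D₂, ii (¬ ND A₂ x d d') *
      ((ii (d ∣ ph A₁ x) + 1 / d) * (ii (d' ∣ ph' A₁ x) + 1 / d'))
      = ∑ d ∈ RG z D₂, ∑ d' ∈ RG z D₂, ii (¬ ND A₂ x d d') * (F d * F' d') := by
        refine Finset.sum_congr rfl fun d _ => Finset.sum_congr rfl fun d' _ => ?_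
        rw [hF, hF']
    _ ≤ ∑ d ∈ RG z D₂, ∑ d' ∈ RG z D₂, ∑ p ∈ P,
        (ii (p ∣ gq A₂ x) * (ii (p ∣ d) * F d) * F' d' +
        ii (p ∣ gq A₂ x) * F d * (ii (p ∣ d') * F' d') +
        ii (p ∣ x.2.2.2) * F d * (ii (p ∣ d') * F' d') +
        (ii (p ∣ d) * F d) * (ii (p ∣ d') * F' d')) :=
        Finset.sum_le_sum fun d hd => Finset.sum_le_sum fun d' hd' => hpt d hd d' hd'
    _ = ∑ p ∈ P, (ii (p ∣ gq A₂ x) * (∑ d ∈ RG z D₂, ii (p ∣ d) * F d) * (∑ d ∈ RG z D₂, F' d) +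
        ii (p ∣ gq A₂ x) * (∑ d ∈ RG z D₂, F d) * (∑ d ∈ RG z D₂, ii (p ∣ d) * F' d) +
        ii (p ∣ x.2.2.2) * (∑ d ∈ RG z D₂, F d) * (∑ d ∈ RG z D₂, ii (p ∣ d) * F' d) +
        (∑ d ∈ RG z D₂, ii (p ∣ d) * F d) * (∑ d ∈ RG z D₂, ii (p ∣ d) * F' d)) := by
        have e1 : ∀ d ∈ RG z D₂, ∑ d' ∈ RG z D₂, ∑ p ∈ P,
            (ii (p ∣ gq A₂ x) * (ii (p ∣ d) * F d) * F' d' +
            ii (p ∣ gq A₂ x) * F d * (ii (p ∣ d') * F' d') +
            ii (p ∣ x.2.2.2) * F d * (ii (p ∣ d') * F' d') +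
            (ii (p ∣ d) * F d) * (ii (p ∣ d') * F' d')) =
            ∑ p ∈ P, ∑ d' ∈ RG z D₂, (ii (p ∣ gq A₂ x) * (ii (p ∣ d) * F d) * F' d' +
            ii (p ∣ gq A₂ x) * F d * (ii (p ∣ d') * F' d') +
            ii (p ∣ x.2.2.2) * F d * (ii (p ∣ d') * F' d') +
            (ii (p ∣ d) * F d) * (ii (p ∣ d') * F' d')) := fun d _ => Finset.sum_comm
        rw [Finset.sum_congr rfl e1, Finset.sum_comm]
        refine Finset.sum_congr rfl fun p _ => ?_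
        simp only [Finset.sum_add_distrib, ← Finset.mul_sum, ← Finset.sum_mul]
    _ ≤ ∑ p ∈ P, 2 * B ^ 2 * Wt A₁ A₂ p x := by
        refine Finset.sum_le_sum fun p hp => ?_
        have q1 := hsump p hp
        have q2 := hsump' p hp
        have q3 := hsump0 p
        have q4 := hsump0' p
        have hpp : p.Prime := by
          rw [hP, Finset.mem_filter] at hp
          exact hp.2.1
        have hp0 : (0 : ℝ) < p := by exact_mod_cast hpp.pos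
        have i1 := ii_nonneg (p ∣ gq A₂ x)
        have i2 := ii_nonneg (p ∣ x.2.2.2)
        have i3 := ii_nonneg (p ∣ ph A₁ x)
        have i4 := ii_nonneg (p ∣ ph' A₁ x)
        have j1 : ii (p ∣ gq A₂ x) * ii (p ∣ ph A₁ x) = 0 := by
          rw [ii_mul]
          refine ii_false fun h => ?_
          exact cop hS hpp (h.2.trans (ph_dvd hW hκ0 hκ1 hN hD hE hx))
            (h.1.trans (gq_dvd hW hκ0 hκ1 hN hD hE hx))
        have t1 : ii (p ∣ gq A₂ x) * (∑ d ∈ RG z D₂, ii (p ∣ d) * F d) * (∑ d ∈ RG z D₂, F' d) ≤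
            ii (p ∣ gq A₂ x) * (B * (ii (p ∣ ph A₁ x) + 1 / p)) * (2 * B) := by
          apply mul_le_mul _ hsum1' hsum0' (by positivity)
          exact mul_le_mul_of_nonneg_left q1 i1
        have t2 : ii (p ∣ gq A₂ x) * (∑ d ∈ RG z D₂, F d) * (∑ d ∈ RG z D₂, ii (p ∣ d) * F' d) ≤
            ii (p ∣ gq A₂ x) * (2 * B) * (B * (ii (p ∣ ph' A₁ x) + 1 / p)) := by
          apply mul_le_mul _ q2 q4 (by positivity)
          exact mul_le_mul_of_nonneg_left hsum1 i1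
        have t3 : ii (p ∣ x.2.2.2) * (∑ d ∈ RG z D₂, F d) * (∑ d ∈ RG z D₂, ii (p ∣ d) * F' d) ≤
            ii (p ∣ x.2.2.2) * (2 * B) * (B * (ii (p ∣ ph' A₁ x) + 1 / p)) := by
          apply mul_le_mul _ q2 q4 (by positivity)
          exact mul_le_mul_of_nonneg_left hsum1 i2
        have t4 : (∑ d ∈ RG z D₂, ii (p ∣ d) * F d) * (∑ d ∈ RG z D₂, ii (p ∣ d) * F' d) ≤
            (B * (ii (p ∣ ph A₁ x) + 1 / p)) * (B * (ii (p ∣ ph' A₁ x) + 1 / p)) :=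
          mul_le_mul q1 q2 q4 (by positivity)
        have t5 : (B * (ii (p ∣ ph A₁ x) + 1 / p)) * (B * (ii (p ∣ ph' A₁ x) + 1 / p)) ≤
            2 * ((B * (ii (p ∣ ph A₁ x) + 1 / p)) * (B * (ii (p ∣ ph' A₁ x) + 1 / p))) := by
          have : 0 ≤ (B * (ii (p ∣ ph A₁ x) + 1 / p)) * (B * (ii (p ∣ ph' A₁ x) + 1 / p)) := by
            positivity
          linarith
        have t6 : ii (p ∣ gq A₂ x) * (B * (ii (p ∣ ph A₁ x) + 1 / p)) * (2 * B) +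
            ii (p ∣ gq A₂ x) * (2 * B) * (B * (ii (p ∣ ph' A₁ x) + 1 / p)) +
            ii (p ∣ x.2.2.2) * (2 * B) * (B * (ii (p ∣ ph' A₁ x) + 1 / p)) +
            2 * ((B * (ii (p ∣ ph A₁ x) + 1 / p)) * (B * (ii (p ∣ ph' A₁ x) + 1 / p))) =
            2 * B ^ 2 * Wt A₁ A₂ p x + 2 * B ^ 2 * (ii (p ∣ gq A₂ x) * ii (p ∣ ph A₁ x)) := by
          unfold Wt
          rw [← ii_mul, ← ii_mul, ← ii_mul]
          field_simp
          ring
        rw [j1, mul_zero, add_zero] at t6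
        linarith
    _ = 2 * B ^ 2 * ∑ p ∈ P, Wt A₁ A₂ p x := by rw [Finset.mul_sum]

/-- Sum over the quadruples for one prime. -/
lemma sumWt (A₁ A₂ p : ℕ) (hp : 0 < p) (Q : Finset (ℕ × ℕ × ℕ × ℕ)) (K M N : ℝ)
    (c1 : ((Q.filter (fun x => p ∣ gq A₂ x)).card : ℝ) ≤ K * (M / p))
    (c2 : ((Q.filter (fun x => p ∣ gq A₂ x ∧ p ∣ ph' A₁ x)).card : ℝ) ≤
      K * (M / (p : ℝ) ^ 2 + N / p))
    (c3 : ((Q.filter (fun x => p ∣ x.2.2.2 ∧ p ∣ ph' A₁ x)).card : ℝ) ≤ K * (M / (p : ℝ) ^ 2))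
    (c4 : ((Q.filter (fun x => p ∣ x.2.2.2)).card : ℝ) ≤ K * (M / p))
    (c5 : ((Q.filter (fun x => p ∣ ph A₁ x ∧ p ∣ ph' A₁ x)).card : ℝ) ≤ K * (M / (p : ℝ) ^ 2))
    (c6 : ((Q.filter (fun x => p ∣ ph A₁ x)).card : ℝ) ≤ K * (M / p))
    (c7 : ((Q.filter (fun x => p ∣ ph' A₁ x)).card : ℝ) ≤ K * (M / p))
    (c8 : (Q.card : ℝ) ≤ K * M) :
    ∑ x ∈ Q, Wt A₁ A₂ p x ≤ K * (9 * M * (1 / (p : ℝ) ^ 2) + N * (1 / p)) := by
  have hp0 : (0 : ℝ) < p := by exact_mod_cast hp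
  have e : ∑ x ∈ Q, Wt A₁ A₂ p x = 2 * (((Q.filter (fun x => p ∣ gq A₂ x)).card : ℝ) / p) +
      ((Q.filter (fun x => p ∣ gq A₂ x ∧ p ∣ ph' A₁ x)).card : ℝ) +
      ((Q.filter (fun x => p ∣ x.2.2.2 ∧ p ∣ ph' A₁ x)).card : ℝ) +
      ((Q.filter (fun x => p ∣ x.2.2.2)).card : ℝ) / p +
      ((Q.filter (fun x => p ∣ ph A₁ x ∧ p ∣ ph' A₁ x)).card : ℝ) +
      ((Q.filter (fun x => p ∣ ph A₁ x)).card : ℝ) / p +
      ((Q.filter (fun x => p ∣ ph' A₁ x)).card : ℝ) / p + (Q.card : ℝ) * (1 / (p : ℝ) ^ 2) := by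
    unfold Wt
    simp only [Finset.sum_add_distrib, ← Finset.mul_sum, ← Finset.sum_div, ii_sum,
      Finset.sum_const, nsmul_eq_mul]
    ring
  rw [e]
  have d1 := div_le_div_of_nonneg_right c1 hp0.le
  have d4 := div_le_div_of_nonneg_right c4 hp0.le
  have d6 := div_le_div_of_nonneg_right c6 hp0.le
  have d7 := div_le_div_of_nonneg_right c7 hp0.le
  have d8 := mul_le_mul_of_nonneg_right c8 (by positivity : (0 : ℝ) ≤ 1 / (p : ℝ) ^ 2)
  have f1 : K * (M / p) / p = K * M * (1 / (p : ℝ) ^ 2) := by field_simp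
  have f2 : K * (M / (p : ℝ) ^ 2 + N / p) = K * M * (1 / (p : ℝ) ^ 2) + K * N * (1 / p) := by
    field_simp
  have f3 : K * (M / (p : ℝ) ^ 2) = K * M * (1 / (p : ℝ) ^ 2) := by field_simp
  rw [f1] at d1 d4 d6 d7
  rw [f2] at c2
  rw [f3] at c3 c5
  have f4 : K * (9 * M * (1 / (p : ℝ) ^ 2) + N * (1 / p)) =
      9 * (K * M * (1 / (p : ℝ) ^ 2)) + K * N * (1 / p) := by ring
  rw [f4]
  linarith

end K3D_

open K3D_ in
/-- Block K3D. -/
theorem stmt_K3D : Stmt_K3D := by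
  intro ε hε A₁ A₂ W hS hW κ hκ0 hκ1
  obtain ⟨C, hC1, hC⟩ := counts hS (ε / 4) (by positivity) hW hκ0 hκ1
  obtain ⟨Cd, hCd1, hCd⟩ := K3_.div_bd A₁ (ε / 4) (by positivity)
  obtain ⟨L, hL⟩ : ∃ L : ℝ, L = 1 + 4 / ε := ⟨_, rfl⟩
  have hL1 : 1 ≤ L := by
    rw [hL]
    have : 0 < 4 / ε := by positivity
    linarith
  refine ⟨2 * (Cd + L) ^ 2 * C * (18 + L), by positivity, ?_⟩
  intro N D E D₂ z hN hD hE hD₂ hz
  obtain ⟨X, hX⟩ : ∃ X : ℝ, X = N ^ (ε / 4) := ⟨_, rfl⟩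
  have hX1 : 1 ≤ X := by
    rw [hX]
    exact Real.one_le_rpow hN (by positivity)
  have hX4 : X ^ 4 = N ^ ε := by
    rw [hX, ← Real.rpow_natCast (N ^ (ε / 4)) 4, ← Real.rpow_mul (by linarith)]
    congr 1
    push_cast
    ring
  have hlog : 1 + Real.log N ≤ L * X := by
    have h1 := Real.log_le_rpow_div (x := N) (ε := ε / 4) (by linarith) (by positivity)
    rw [← hX] at h1
    have h2 : X / (ε / 4) = 4 / ε * X := by field_simp
    rw [h2] at h1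
    rw [hL]
    nlinarith
  obtain ⟨B, hB⟩ : ∃ B : ℝ, B = (Cd + L) * X := ⟨_, rfl⟩
  have hB2 : 1 + Real.log N ≤ B := by
    rw [hB]
    nlinarith
  obtain ⟨Q, hQ⟩ : ∃ Q, Q = QQ A₁ A₂ (II (N / W) κ) D E := ⟨_, rfl⟩
  obtain ⟨P, hP⟩ : ∃ P, P = (Icc 1 ⌊N⌋₊).filter (fun p : ℕ => p.Prime ∧ z ≤ (p : ℝ)) := ⟨_, rfl⟩
  obtain ⟨T, hT⟩ : ∃ T : ℝ, T = N / (D * E) := ⟨_, rfl⟩
  have hT0 : 0 ≤ T := by rw [hT]; positivity
  rw [← hQ, ← hT]
  have hmain : ∑ d₂ ∈ RG z D₂, ∑ d₂' ∈ RG z D₂, ∑ x ∈ Q.filter (fun x => ¬ ND A₂ x d₂ d₂'),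
      ((if d₂ ∣ ph A₁ x then (1 : ℝ) else 0) + 1 / d₂) *
      ((if d₂' ∣ ph' A₁ x then (1 : ℝ) else 0) + 1 / d₂') =
      ∑ x ∈ Q, ∑ d ∈ RG z D₂, ∑ d' ∈ RG z D₂, ii (¬ ND A₂ x d d') *
      ((ii (d ∣ ph A₁ x) + 1 / d) * (ii (d' ∣ ph' A₁ x) + 1 / d')) := by
    have e1 : ∀ d ∈ RG z D₂, ∑ d₂' ∈ RG z D₂, ∑ x ∈ Q.filter (fun x => ¬ ND A₂ x d d₂'),
      ((if d ∣ ph A₁ x then (1 : ℝ) else 0) + 1 / d) *
      ((if d₂' ∣ ph' A₁ x then (1 : ℝ) else 0) + 1 / d₂') =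
      ∑ x ∈ Q, ∑ d' ∈ RG z D₂, ii (¬ ND A₂ x d d') *
      ((ii (d ∣ ph A₁ x) + 1 / d) * (ii (d' ∣ ph' A₁ x) + 1 / d')) := by
      intro d _
      rw [Finset.sum_comm' (s := Q) (t := fun _ => RG z D₂) (t' := RG z D₂) (s' := fun _ => Q)
        (fun x y => by tauto)]
      refine Finset.sum_congr rfl fun d' _ => ?_
      rw [Finset.sum_filter]
      refine Finset.sum_congr rfl fun x _ => ?_
      have g1 : (if d ∣ ph A₁ x then (1 : ℝ) else 0) = ii (d ∣ ph A₁ x) := by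
        unfold ii
        split_ifs <;> rfl
      have g2 : (if d' ∣ ph' A₁ x then (1 : ℝ) else 0) = ii (d' ∣ ph' A₁ x) := by
        unfold ii
        split_ifs <;> rfl
      rw [g1, g2]
      by_cases h : ND A₂ x d d'
      · rw [if_neg (by simpa using h), ii_false (by simpa using h), zero_mul]
      · rw [if_pos h, ii_true h, one_mul]
    rw [Finset.sum_congr rfl e1, Finset.sum_comm]
  rw [hmain]
  have hK0 : 0 ≤ C * X := by positivity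
  have hNT : 0 ≤ N * T := by positivity
  calc ∑ x ∈ Q, ∑ d ∈ RG z D₂, ∑ d' ∈ RG z D₂, ii (¬ ND A₂ x d d') *
      ((ii (d ∣ ph A₁ x) + 1 / d) * (ii (d' ∣ ph' A₁ x) + 1 / d'))
      ≤ ∑ x ∈ Q, 2 * B ^ 2 * ∑ p ∈ P, Wt A₁ A₂ p x := by
        refine Finset.sum_le_sum fun x hx => ?_
        rw [hQ] at hx
        rw [hP]
        have hf := K3_.facts hW hκ0 hκ1 hN hD hE hx
        have hLX : 0 ≤ L * X := by positivity
        refine perx hS hW hκ0 hκ1 hN hD hE hD₂ hx ?_ ?_ hB2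
        · have := hCd W N κ hW hκ0 hκ1 hN x.2.2.1 hf.2.2.1 _ (ph_dvd hW hκ0 hκ1 hN hD hE hx)
          rw [← hX] at this
          rw [hB]
          linarith
        · have := hCd W N κ hW hκ0 hκ1 hN (nt x) hf.2.2.2.1 _ (ph'_dvd hW hκ0 hκ1 hN hD hE hx)
          rw [← hX] at this
          rw [hB]
          linarith
    _ = 2 * B ^ 2 * ∑ p ∈ P, ∑ x ∈ Q, Wt A₁ A₂ p x := by
        rw [← Finset.mul_sum, Finset.sum_comm]
    _ ≤ 2 * B ^ 2 * ∑ p ∈ P, C * X * (9 * (N * T) * (1 / (p : ℝ) ^ 2) + N * (1 / p)) := by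
        apply mul_le_mul_of_nonneg_left _ (by positivity)
        refine Finset.sum_le_sum fun p hp => ?_
        have hpp : p.Prime := by
          rw [hP, Finset.mem_filter] at hp
          exact hp.2.1
        obtain ⟨c1, c2, c3, c4, c5, c6, c7, c8⟩ := hC N D E hN hD hE p hpp
        rw [← hQ, ← hX, ← hT] at c1 c2 c3 c4 c5 c6 c7 c8
        exact sumWt A₁ A₂ p hpp.pos Q (C * X) (N * T) N c1 c2 c3 c4 c5 c6 c7 c8
    _ = 2 * B ^ 2 * (C * X * (9 * (N * T) * (∑ p ∈ P, 1 / (p : ℝ) ^ 2) +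
        N * ∑ p ∈ P, 1 / (p : ℝ))) := by
        rw [← Finset.mul_sum, Finset.sum_add_distrib, ← Finset.mul_sum, ← Finset.mul_sum]
    _ ≤ 2 * B ^ 2 * (C * X * (9 * (N * T) * (2 / z) + N * (L * X))) := by
        apply mul_le_mul_of_nonneg_left _ (by positivity)
        apply mul_le_mul_of_nonneg_left _ hK0
        apply add_le_add
        · apply mul_le_mul_of_nonneg_left _ (by positivity)
          refine inv_sq hz P fun p hp => ?_
          rw [hP, Finset.mem_filter] at hp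
          exact hp.2.2
        · apply mul_le_mul_of_nonneg_left _ (by linarith)
          refine le_trans ?_ ((harm hN).trans hlog)
          refine Finset.sum_le_sum_of_subset_of_nonneg ?_ fun _ _ _ => by positivity
          rw [hP]
          exact Finset.filter_subset _ _
    _ ≤ 2 * B ^ 2 * (C * X * ((18 + L) * X * (N * T / z + N))) := by
        apply mul_le_mul_of_nonneg_left _ (by positivity)
        apply mul_le_mul_of_nonneg_left _ hK0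
        have h1 : 0 ≤ N * T / z := by positivity
        have h2 : 9 * (N * T) * (2 / z) = 18 * (N * T / z) := by ring
        rw [h2]
        have h3 : (18 + L) * X * (N * T / z + N) =
          18 * X * (N * T / z) + 18 * X * N + L * X * (N * T / z) + N * (L * X) := by ring
        rw [h3]
        have h4 : 18 * (N * T / z) ≤ 18 * X * (N * T / z) := by nlinarith
        have h5 : 0 ≤ 18 * X * N := by positivity
        have h6 : 0 ≤ L * X * (N * T / z) := by positivity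
        linarith
    _ = 2 * (Cd + L) ^ 2 * C * (18 + L) * N ^ ε * (N * T / z + N) := by
        rw [← hX4, hB]
        ring

end Pool.Agent.GapTwo
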