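import Pool.Agent.Work.MP_1ea053_nt.Interface

/-!
# MP_1ea053_nt, block K4 (helper75): comparison of the counts in a box.
-/

set_option autoImplicit false

namespace Pool.Agent.GapTwo.K4_

open Finset

/-- the integers of a progression in an interval -/
theorem prog (x₀ a M : ℤ) (D : ℕ) (hM : 0 < M) : ∃ (X₀ : ℤ) (D' : ℕ),
    (∀ x : ℤ, (x₀ < a + M * x ∧ a + M * x ≤ x₀ + D) ↔ (X₀ < x ∧ x ≤ X₀ + D')) ∧
    |(D' : ℝ) - D / M| ≤ 1 := by
  have hle : (x₀ - a) / M ≤ (x₀ + D - a) / M :=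
    Int.ediv_le_ediv hM (by have := Int.natCast_nonneg D; linarith)
  obtain ⟨D', hD'⟩ := Int.eq_ofNat_of_zero_le (sub_nonneg.2 hle)
  refine ⟨(x₀ - a) / M, D', ?_, ?_⟩
  · intro x
    have h1 : x₀ < a + M * x ↔ (x₀ - a) / M < x := by
      rw [Int.ediv_lt_iff_lt_mul hM]
      constructor <;> intro h <;> nlinarith
    have h2 : a + M * x ≤ x₀ + D ↔ x ≤ (x₀ - a) / M + D' := by
      have e : (x₀ - a) / M + D' = (x₀ + D - a) / M := by rw [← hD']; ring
      rw [e, Int.le_ediv_iff_mul_le hM]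
      constructor <;> intro h <;> nlinarith
    rw [h1, h2]
  · have hMr : (0 : ℝ) < M := by exact_mod_cast hM
    have e : (D' : ℝ) = (((x₀ + D - a) / M : ℤ) : ℝ) - (((x₀ - a) / M : ℤ) : ℝ) := by
      have : ((D' : ℤ) : ℝ) = (((x₀ + D - a) / M - (x₀ - a) / M : ℤ) : ℝ) := by rw [hD']
      push_cast at this
      exact this
    have b1 : ∀ y : ℤ, ((y / M : ℤ) : ℝ) ≤ y / M ∧ (y : ℝ) / M < ((y / M : ℤ) : ℝ) + 1 := by
      intro y
      have h1 := Int.ediv_mul_le y hM.ne'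
      have h2 := Int.lt_ediv_add_one_mul_self y hM
      constructor
      · rw [le_div_iff₀ hMr]; exact_mod_cast h1
      · rw [div_lt_iff₀ hMr]; exact_mod_cast h2
    obtain ⟨u1, u2⟩ := b1 (x₀ + D - a)
    obtain ⟨v1, v2⟩ := b1 (x₀ - a)
    push_cast at u1 u2 v1 v2
    have e2 : ((x₀ : ℝ) + D - a) / M = (x₀ - a) / M + D / M := by ring
    rw [e2] at u1 u2
    rw [e, abs_le]
    constructor <;> linarith

/-- the congruences for `(d₁, φ)` as one congruence modulo `g₁ d₂'` -/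
theorem red (A₁ A₂ g g₁ t d₂ d₂' : ℤ) (h1 : IsCoprime (A₂ * d₂) (g₁ * d₂'))
    (h2 : IsCoprime (A₂ - A₁) (g₁ * d₂')) (h3 : IsCoprime g₁ d₂') (h4 : IsCoprime t d₂')
    (h5 : IsCoprime A₂ d₂') :
    ∃ s c : ℤ, IsCoprime c (g₁ * d₂') ∧ ∀ u f : ℤ,
      (g₁ ∣ A₂ * u * (d₂ * f) - (A₂ - A₁) ∧ d₂' ∣ (d₂ * f) * (g + t * A₂ * u) - t * (A₂ - A₁)) ↔
        g₁ * d₂' ∣ (u + s) * f - c := by
  obtain ⟨w, w', hw⟩ := h1
  obtain ⟨r, r', hr⟩ := IsCoprime.mul_left h4 h5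
  obtain ⟨k, k', hk⟩ := h3
  -- `k g₁ + k' d₂' = 1`, `s = k g₁ * (g r)`
  set s := k * g₁ * (g * r) with hs
  have hs1 : g₁ ∣ s := ⟨k * (g * r), by rw [hs]; ring⟩
  have hs2 : d₂' ∣ t * A₂ * s - g := by
    refine ⟨-(r' * g) - t * A₂ * k' * (g * r), ?_⟩
    have e1 : k * g₁ = 1 - k' * d₂' := by linarith
    have e2 : r * (t * A₂) = 1 - r' * d₂' := by linarith
    rw [hs, e1]
    have : t * A₂ * ((1 - k' * d₂') * (g * r)) = g * (r * (t * A₂)) - t * A₂ * k' * d₂' * (g * r) := by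
      ring
    rw [this, e2]; ring
  have hcw : IsCoprime w (g₁ * d₂') := ⟨A₂ * d₂, w', by linarith⟩
  refine ⟨s, w * (A₂ - A₁), hcw.mul_left h2, fun u f => ?_⟩
  have hcw1 : IsCoprime w g₁ := hcw.of_mul_right_left
  have hcw2 : IsCoprime w d₂' := hcw.of_mul_right_right
  have k1 : g₁ ∣ A₂ * u * (d₂ * f) - (A₂ - A₁) ↔ g₁ ∣ (u + s) * f - w * (A₂ - A₁) := by
    obtain ⟨s', hs'⟩ := hs1
    have e : (u + s) * f - w * (A₂ - A₁) = w * (A₂ * u * (d₂ * f) - (A₂ - A₁)) +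
        g₁ * (s' * f + w' * d₂' * (u * f)) := by
      rw [hs']
      have : (1 : ℤ) * (u * f) = (w * (A₂ * d₂) + w' * (g₁ * d₂')) * (u * f) := by rw [hw]
      linear_combination this
    rw [e, dvd_add_left (dvd_mul_right _ _)]
    constructor
    · exact fun h => Dvd.dvd.mul_left h _
    · exact fun h => hcw1.symm.dvd_of_dvd_mul_left h
  have k2 : d₂' ∣ (d₂ * f) * (g + t * A₂ * u) - t * (A₂ - A₁) ↔
      d₂' ∣ (u + s) * f - w * (A₂ - A₁) := by
    obtain ⟨s', hs'⟩ := hs2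
    have e0 : (d₂ * f) * (g + t * A₂ * u) - t * (A₂ - A₁) =
        t * (A₂ * d₂ * ((u + s) * f) - (A₂ - A₁)) + d₂' * (-(s' * d₂ * f)) := by
      have : g = t * A₂ * s - d₂' * s' := by linarith
      rw [this]; ring
    have e : (u + s) * f - w * (A₂ - A₁) = w * (A₂ * d₂ * ((u + s) * f) - (A₂ - A₁)) +
        d₂' * (w' * g₁ * ((u + s) * f)) := by
      have : (1 : ℤ) * ((u + s) * f) = (w * (A₂ * d₂) + w' * (g₁ * d₂')) * ((u + s) * f) := by
        rw [hw]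
      linear_combination this
    rw [e0, e, dvd_add_left (dvd_mul_right _ _), dvd_add_left (dvd_mul_right _ _)]
    constructor
    · exact fun h => Dvd.dvd.mul_left (h4.symm.dvd_of_dvd_mul_left h) _
    · exact fun h => Dvd.dvd.mul_left (hcw2.symm.dvd_of_dvd_mul_left h) _
  rw [k1, k2]
  constructor
  · rintro ⟨a, b⟩
    exact IsCoprime.mul_dvd ⟨k, k', hk⟩ a b
  · intro h
    exact ⟨(dvd_mul_right _ _).trans h, (dvd_mul_left _ _).trans h⟩

/-- K2 with fixed constants -/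
def HK (ε C : ℝ) : Prop := ∀ q : ℕ, 0 < q → Squarefree q →
  ∀ c : ℤ, IsCoprime c (q : ℤ) → ∀ (x₀ y₀ : ℤ) (D F : ℕ),
  |((((Ioc x₀ (x₀ + D)) ×ˢ (Ioc y₀ (y₀ + F))).filter
      (fun z : ℤ × ℤ => (q : ℤ) ∣ z.1 * z.2 - c)).card : ℝ) - D * F * q.totient / (q : ℝ) ^ 2| ≤
    C * (q : ℝ) ^ ε * ((D * F * q : ℝ) ^ (1 / 4 : ℝ) + (q : ℝ) ^ (1 / 2 : ℝ) + (D + F) / q)

/-- the numerical part -/
theorem bd {ε C cnt D D' F F' M d₂ q φ : ℝ} (hε : 0 < ε) (hC : 0 < C) (hD : 0 ≤ D) (hD' : 0 ≤ D')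
    (hF : 0 ≤ F) (hF' : 0 ≤ F') (hM : 1 ≤ M) (hd : 1 ≤ d₂) (hq : 1 ≤ q) (hφ0 : 0 ≤ φ) (hφ : φ ≤ q)
    (h1 : |D' - D / M| ≤ 1) (h2 : |F' - F / (d₂ * M)| ≤ 1)
    (h : |cnt - D' * F' * φ / q ^ 2| ≤
      C * q ^ ε * ((D' * F' * q) ^ (1 / 4 : ℝ) + q ^ (1 / 2 : ℝ) + (D' + F') / q)) :
    |cnt - D * F * φ / (M ^ 2 * d₂ * q ^ 2)| ≤
      (2 * C + 1) * q ^ ε * (((D + 1) * (F / d₂ + 1) * q) ^ (1 / 4 : ℝ) + q ^ (1 / 2 : ℝ) +
        (D + F + 1) / q) := by
  have hM0 : 0 < M := by linarith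
  have hd0 : 0 < d₂ := by linarith
  have hq0 : 0 < q := by linarith
  have a1 : D / M ≤ D := div_le_self hD hM
  have a2 : F / (d₂ * M) ≤ F / d₂ := by
    apply div_le_div_of_nonneg_left hF hd0
    nlinarith
  have a3 : F / d₂ ≤ F := div_le_self hF hd
  have a4 : 0 ≤ F / (d₂ * M) := by positivity
  have a5 : 0 ≤ D / M := by positivity
  rw [abs_le] at h1 h2
  have b1 : D' ≤ D + 1 := by linarith
  have b2 : F' ≤ F / d₂ + 1 := by linarith
  -- main terms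
  have m1 : |D' * F' - D / M * (F / (d₂ * M))| ≤ D + F + 1 := by
    have e : D' * F' - D / M * (F / (d₂ * M)) =
        D' * (F' - F / (d₂ * M)) + (D' - D / M) * (F / (d₂ * M)) := by ring
    rw [e]
    calc _ ≤ |D' * (F' - F / (d₂ * M))| + |(D' - D / M) * (F / (d₂ * M))| := abs_add_le _ _
      _ = D' * |F' - F / (d₂ * M)| + |D' - D / M| * (F / (d₂ * M)) := by
          rw [abs_mul, abs_mul, abs_of_nonneg hD', abs_of_nonneg a4]
      _ ≤ D' * 1 + 1 * (F / (d₂ * M)) := by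
          apply add_le_add
          · exact mul_le_mul_of_nonneg_left (abs_le.2 h2) hD'
          · exact mul_le_mul_of_nonneg_right (abs_le.2 h1) a4
      _ ≤ D + F + 1 := by linarith
  have m2 : |D' * F' * φ / q ^ 2 - D * F * φ / (M ^ 2 * d₂ * q ^ 2)| ≤ (D + F + 1) / q := by
    have e : D' * F' * φ / q ^ 2 - D * F * φ / (M ^ 2 * d₂ * q ^ 2) =
        (D' * F' - D / M * (F / (d₂ * M))) * (φ / q ^ 2) := by
      field_simp
    have hφq : φ / q ^ 2 ≤ 1 / q := by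
      rw [div_le_div_iff₀ (by positivity) hq0]
      nlinarith
    rw [e, abs_mul, abs_of_nonneg (by positivity : 0 ≤ φ / q ^ 2)]
    calc _ ≤ (D + F + 1) * (1 / q) := mul_le_mul m1 hφq (by positivity) (by positivity)
      _ = (D + F + 1) / q := by ring
  have q1 : 1 ≤ q ^ ε := Real.one_le_rpow hq hε.le
  have r1 : (D' * F' * q) ^ (1 / 4 : ℝ) ≤ ((D + 1) * (F / d₂ + 1) * q) ^ (1 / 4 : ℝ) := by
    apply Real.rpow_le_rpow (by positivity) _ (by norm_num)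
    apply mul_le_mul_of_nonneg_right _ hq0.le
    exact mul_le_mul b1 b2 hF' (by linarith)
  have r2 : (D' + F') / q ≤ 2 * ((D + F + 1) / q) := by
    rw [← mul_div_assoc]
    apply div_le_div_of_nonneg_right _ hq0.le
    linarith
  set R := ((D + 1) * (F / d₂ + 1) * q) ^ (1 / 4 : ℝ) with hR
  have hR0 : 0 ≤ R := by positivity
  set R2 := q ^ (1 / 2 : ℝ) with hR2
  have hR20 : 0 ≤ R2 := by positivity
  set R3 := (D + F + 1) / q with hR3
  have hR30 : 0 ≤ R3 := by positivity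
  calc |cnt - D * F * φ / (M ^ 2 * d₂ * q ^ 2)|
      ≤ |cnt - D' * F' * φ / q ^ 2| + |D' * F' * φ / q ^ 2 - D * F * φ / (M ^ 2 * d₂ * q ^ 2)| :=
        abs_sub_le _ _ _
    _ ≤ C * q ^ ε * (R + R2 + 2 * R3) + R3 := by
        apply add_le_add (h.trans _) m2
        apply mul_le_mul_of_nonneg_left _ (by positivity)
        linarith
    _ ≤ C * q ^ ε * (2 * (R + R2 + R3)) + q ^ ε * (R + R2 + R3) := by
        apply add_le_add
        · apply mul_le_mul_of_nonneg_left _ (by positivity)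
          linarith
        · nlinarith
    _ = _ := by ring

/-- the count in one class -/
theorem fib {ε C : ℝ} (hε : 0 < ε) (hC : 0 < C) (hK : HK ε C) (q M d₂ : ℕ) (hq : 0 < q)
    (hqs : Squarefree q) (hM : 0 < M) (hd : 0 < d₂) (hMq : IsCoprime (M : ℤ) q)
    (hMd : IsCoprime (d₂ : ℤ) M) (s c : ℤ) (hc : IsCoprime c (q : ℤ)) (a r : ℤ) (x₀ y₀ D F : ℕ)
    (S : Finset (ℕ × ℕ)) (hS : ∀ z : ℕ × ℕ, z ∈ S ↔ ((x₀ < z.1 ∧ z.1 ≤ x₀ + D) ∧
      (y₀ < z.2 ∧ z.2 ≤ y₀ + F) ∧ (M : ℤ) ∣ z.1 - a ∧ (M : ℤ) ∣ z.2 - r ∧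
      ∃ f : ℤ, (z.2 : ℤ) = d₂ * f ∧ (q : ℤ) ∣ (z.1 + s) * f - c)) :
    |(S.card : ℝ) - D * F * q.totient / ((M : ℝ) ^ 2 * d₂ * (q : ℝ) ^ 2)| ≤
      (2 * C + 1) * (q : ℝ) ^ ε * ((((D : ℝ) + 1) * (F / d₂ + 1) * q) ^ (1 / 4 : ℝ) +
        (q : ℝ) ^ (1 / 2 : ℝ) + (D + F + 1) / q) := by
  obtain ⟨μ, ν, hμ⟩ := hMq
  obtain ⟨δ, δ', hδ⟩ := hMd
  have hM' : (0 : ℤ) < M := by exact_mod_cast hM
  have hd' : (0 : ℤ) < d₂ := by exact_mod_cast hd
  set f0 := δ * r with hf0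
  obtain ⟨X0, D', hX, hXD⟩ := prog x₀ a M D hM'
  obtain ⟨Y0, F', hY, hYF⟩ := prog y₀ (d₂ * f0) (d₂ * M) F (mul_pos hd' hM')
  have hμq : IsCoprime μ (q : ℤ) := ⟨M, ν, by linarith⟩
  have hMq : IsCoprime (M : ℤ) (q : ℤ) := ⟨μ, ν, hμ⟩
  have key := hK q hq hqs (μ ^ 2 * c) ((hμq.pow_left).mul_left hc) (X0 + μ * (a + s))
    (Y0 + μ * f0) D' F'
  have hcard : (((Ioc (X0 + μ * (a + s)) (X0 + μ * (a + s) + D')) ×ˢ
      (Ioc (Y0 + μ * f0) (Y0 + μ * f0 + F'))).filter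
      (fun z : ℤ × ℤ => (q : ℤ) ∣ z.1 * z.2 - μ ^ 2 * c)).card = S.card := by
    have hcong : ∀ x y : ℤ, (q : ℤ) ∣ (x + μ * (a + s)) * (y + μ * f0) - μ ^ 2 * c ↔
        (q : ℤ) ∣ (a + M * x + s) * (f0 + M * y) - c := by
      intro x y
      have e : (a + M * x + s) * (f0 + M * y) - c =
          (M : ℤ) ^ 2 * ((x + μ * (a + s)) * (y + μ * f0) - μ ^ 2 * c) +
          q * (ν * (a + s) * (f0 + M * y) + (M * (x + μ * (a + s))) * (ν * f0) -
            ν * (1 + μ * M) * c) := by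
        have h1 : (q : ℤ) * ν = 1 - μ * M := by linarith
        linear_combination (-(a + s) * (f0 + M * y) - (M * (x + μ * (a + s))) * f0 +
          (1 + μ * M) * c) * h1
      rw [e, dvd_add_left (dvd_mul_right _ _)]
      constructor
      · exact fun h => Dvd.dvd.mul_left h _
      · exact fun h => (hMq.pow_left).symm.dvd_of_dvd_mul_left h
    have hy1 : ∀ y : ℤ, (d₂ : ℤ) * (f0 + M * y) = d₂ * f0 + d₂ * M * y := fun y => by ring
    refine Finset.card_bij (fun z _ => ((a + M * (z.1 - μ * (a + s))).toNat,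
      ((d₂ : ℤ) * (f0 + M * (z.2 - μ * f0))).toNat)) ?_ ?_ ?_
    · rintro ⟨X, Y⟩ hz
      simp only [Finset.mem_filter, Finset.mem_product, Finset.mem_Ioc] at hz
      obtain ⟨⟨⟨z1, z2⟩, z3, z4⟩, z5⟩ := hz
      obtain ⟨x1, x2⟩ := (hX (X - μ * (a + s))).2 ⟨by linarith, by linarith⟩
      obtain ⟨y1, y2⟩ := (hY (Y - μ * f0)).2 ⟨by linarith, by linarith⟩
      rw [← hy1] at y1 y2
      rw [hS]
      have n1 : (((a + M * (X - μ * (a + s))).toNat : ℕ) : ℤ) = a + M * (X - μ * (a + s)) :=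
        Int.toNat_of_nonneg (by have := Int.natCast_nonneg x₀; linarith)
      have n2 : ((((d₂ : ℤ) * (f0 + M * (Y - μ * f0))).toNat : ℕ) : ℤ) =
          (d₂ : ℤ) * (f0 + M * (Y - μ * f0)) :=
        Int.toNat_of_nonneg (by have := Int.natCast_nonneg y₀; linarith)
      simp only [n1, n2]
      refine ⟨⟨?_, ?_⟩, ⟨?_, ?_⟩, ?_, ?_, f0 + M * (Y - μ * f0), rfl, ?_⟩
      · omega
      · omega
      · omega
      · omega
      · exact ⟨X - μ * (a + s), by ring⟩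
      · refine ⟨-(δ' * r) + d₂ * (Y - μ * f0), ?_⟩
        have : (d₂ : ℤ) * f0 = r - δ' * M * r := by
          rw [hf0]; linear_combination r * hδ
        linear_combination this
      · have := (hcong (X - μ * (a + s)) (Y - μ * f0)).1 (by
          have e : (X - μ * (a + s) + μ * (a + s)) * (Y - μ * f0 + μ * f0) = X * Y := by ring
          rw [e]; exact z5)
        exact this
    · rintro ⟨X, Y⟩ hz ⟨X', Y'⟩ hz' he
      simp only [Finset.mem_filter, Finset.mem_product, Finset.mem_Ioc] at hz hz'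
      obtain ⟨⟨⟨z1, z2⟩, z3, z4⟩, z5⟩ := hz
      obtain ⟨⟨⟨z1', z2'⟩, z3', z4'⟩, z5'⟩ := hz'
      obtain ⟨x1, x2⟩ := (hX (X - μ * (a + s))).2 ⟨by linarith, by linarith⟩
      obtain ⟨y1, y2⟩ := (hY (Y - μ * f0)).2 ⟨by linarith, by linarith⟩
      obtain ⟨x1', x2'⟩ := (hX (X' - μ * (a + s))).2 ⟨by linarith, by linarith⟩
      obtain ⟨y1', y2'⟩ := (hY (Y' - μ * f0)).2 ⟨by linarith, by linarith⟩
      rw [← hy1] at y1 y2 y1' y2'
      simp only [Prod.mk.injEq] at he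
      have e1 : a + M * (X - μ * (a + s)) = a + M * (X' - μ * (a + s)) := by omega
      have e2 : (d₂ : ℤ) * (f0 + M * (Y - μ * f0)) = (d₂ : ℤ) * (f0 + M * (Y' - μ * f0)) := by
        omega
      have e3 : X = X' := by
        have := mul_left_cancel₀ hM'.ne' (add_left_cancel e1)
        linarith
      have e4 : Y = Y' := by
        have := mul_left_cancel₀ hM'.ne' (add_left_cancel (mul_left_cancel₀ hd'.ne' e2))
        linarith
      rw [e3, e4]
    · rintro ⟨u, v⟩ hz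
      rw [hS] at hz
      obtain ⟨⟨z1, z2⟩, ⟨z3, z4⟩, ⟨x, hx⟩, ⟨y', hy'⟩, f, hf, hqf⟩ := hz
      simp only at z1 z2 z3 z4 hx hy' hf hqf
      have hff : (M : ℤ) ∣ f - f0 := by
        have h1 : (M : ℤ) ∣ d₂ * (f - f0) := by
          refine ⟨y' + δ' * r, ?_⟩
          have : (d₂ : ℤ) * f0 = r - δ' * M * r := by
            rw [hf0]; linear_combination r * hδ
          linear_combination hy' - this - hf
        have hMd2 : IsCoprime (M : ℤ) (d₂ : ℤ) := ⟨δ', δ, by linarith⟩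
        exact hMd2.dvd_of_dvd_mul_left h1
      obtain ⟨y, hy⟩ := hff
      have hu : (u : ℤ) = a + M * x := by linarith
      have hfy : f = f0 + M * y := by linarith
      obtain ⟨x1, x2⟩ := (hX x).1 ⟨by rw [← hu]; exact_mod_cast z1, by rw [← hu]; exact_mod_cast z2⟩
      obtain ⟨y1, y2⟩ := (hY y).1 ⟨by rw [← hy1, ← hfy, ← hf]; exact_mod_cast z3,
        by rw [← hy1, ← hfy, ← hf]; exact_mod_cast z4⟩
      refine ⟨(x + μ * (a + s), y + μ * f0), ?_, ?_⟩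
      · simp only [Finset.mem_filter, Finset.mem_product, Finset.mem_Ioc]
        refine ⟨⟨⟨by linarith, by linarith⟩, by linarith, by linarith⟩, ?_⟩
        rw [hcong, ← hfy, ← hu]
        exact hqf
      · simp only [Prod.mk.injEq]
        constructor
        · have : a + (M : ℤ) * (x + μ * (a + s) - μ * (a + s)) = u := by rw [hu]; ring
          rw [this]; simp
        · have : (d₂ : ℤ) * (f0 + M * (y + μ * f0 - μ * f0)) = v := by
            rw [hf, hfy]; ring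
          rw [this]; simp
  rw [hcard] at key
  have hM1 : (1 : ℝ) ≤ M := by exact_mod_cast hM
  have hd1 : (1 : ℝ) ≤ d₂ := by exact_mod_cast hd
  have hq1 : (1 : ℝ) ≤ q := by exact_mod_cast hq
  refine bd hε hC (by positivity) (by positivity) (by positivity) (by positivity) hM1 hd1 hq1
    (Nat.cast_nonneg _) (by exact_mod_cast Nat.totient_le q) hXD ?_ key
  push_cast at hYF
  exact hYF

/-- the bad part and the rest -/
theorem badp_split (g r : ℕ) (hg : 0 < g) : ∃ g₁ : ℕ, g = g₁ * badp g r ∧ Squarefree g₁ ∧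
    g₁.Coprime (badp g r) ∧ g₁.Coprime r := by
  classical
  set P := g.primeFactors.filter (fun p => ¬ (p ∣ r ∨ p ^ 2 ∣ g)) with hP
  have hPp : ∀ p ∈ P, p.Prime := fun p hp => Nat.prime_of_mem_primeFactors (Finset.mem_filter.1 hp).1
  have h1 : ∀ p ∈ P, p ^ g.factorization p = p := by
    intro p hp
    have hpp := hPp p hp
    have hm := Finset.mem_filter.1 hp
    have h2 : g.factorization p < 2 := by
      by_contra h
      apply hm.2
      right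
      exact (Nat.Prime.pow_dvd_iff_le_factorization hpp hg.ne').2 (by omega)
    have h3 : 0 < g.factorization p :=
      hpp.factorization_pos_of_dvd hg.ne' (Nat.dvd_of_mem_primeFactors hm.1)
    have : g.factorization p = 1 := by omega
    rw [this, pow_one]
  have hdiv : ∀ p : ℕ, p.Prime → p ∣ ∏ p ∈ P, p → p ∈ P := by
    intro p hp h
    obtain ⟨x, hx, hpx⟩ := (Prime.dvd_finsetProd_iff (Nat.Prime.prime hp) _).1 h
    rwa [(Nat.prime_dvd_prime_iff_eq hp (hPp x hx)).1 hpx]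
  have hsplit : g = (∏ p ∈ P, p) * badp g r := by
    have e1 : ∏ p ∈ P, p = ∏ p ∈ P, p ^ g.factorization p :=
      Finset.prod_congr rfl fun p hp => (h1 p hp).symm
    rw [e1, hP, badp, mul_comm, Finset.prod_filter_mul_prod_filter_not]
    conv_lhs => rw [← Nat.prod_factorization_pow_eq_self hg.ne']
    rfl
  refine ⟨∏ p ∈ P, p, hsplit, ?_, ?_, ?_⟩
  · rw [Nat.squarefree_iff_prime_squarefree]
    intro p hp h
    have h2 : p ∈ P := hdiv p hp ((dvd_mul_right p p).trans h)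
    apply (Finset.mem_filter.1 h2).2
    right
    rw [sq]
    exact h.trans ⟨_, hsplit⟩
  · rw [Nat.coprime_prod_left_iff]
    intro p hp
    rw [badp, Nat.coprime_prod_right_iff]
    intro x hx
    apply Nat.Coprime.pow_right
    rw [Nat.coprime_primes (hPp p hp) (Nat.prime_of_mem_primeFactors (Finset.mem_filter.1 hx).1)]
    rintro rfl
    exact (Finset.mem_filter.1 hp).2 (Finset.mem_filter.1 hx).2
  · rw [Nat.coprime_prod_left_iff]
    intro p hp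
    rw [Nat.Prime.coprime_iff_not_dvd (hPp p hp)]
    intro h
    exact (Finset.mem_filter.1 hp).2 (Or.inl h)

/-- the conditions modulo `A₁ g₂ m m'` -/
def Gd (A₁ A₂ g₁ g₂ t m b m' b' u v : ℤ) : Prop :=
  ∃ n e : ℤ, u * v = A₁ * n + 1 ∧ A₂ * n + 1 = g₂ * e ∧ m ∣ n - b ∧ m' ∣ g₁ * (n - b') + u * e * t

theorem Gd_mod {A₁ A₂ g₁ g₂ t m b m' b' u v u' v' : ℤ} (hu : A₁ * g₂ * m * m' ∣ u' - u)
    (hv : A₁ * g₂ * m * m' ∣ v' - v) (h : Gd A₁ A₂ g₁ g₂ t m b m' b' u v) :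
    Gd A₁ A₂ g₁ g₂ t m b m' b' u' v' := by
  obtain ⟨n, e, h1, h2, ⟨x, h3⟩, ⟨y, h4⟩⟩ := h
  obtain ⟨k, hk⟩ := hu
  obtain ⟨l, hl⟩ := hv
  set w := k * v + l * u + (A₁ * g₂ * m * m') * k * l with hw
  refine ⟨n + g₂ * m * m' * w, e + A₂ * m * m' * w, ?_, ?_, ⟨x + g₂ * m' * w, ?_⟩, ⟨y + g₁ * g₂ * m * w +
    (u * A₂ * m * w + A₁ * g₂ * m * k * (e + A₂ * m * m' * w)) * t, ?_⟩⟩
  · have e1 : u' = u + A₁ * g₂ * m * m' * k := by linarith
    have e2 : v' = v + A₁ * g₂ * m * m' * l := by linarith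
    rw [e1, e2, hw]
    linear_combination h1
  · linear_combination h2
  · linear_combination h3
  · have e1 : u' = u + A₁ * g₂ * m * m' * k := by linarith
    rw [e1]
    linear_combination h4

theorem cong_iff {A₁ A₂ g g₁ g₂ t m b m' b' d₂ d₂' : ℕ} (hA : 0 < A₁) (hg : g = g₁ * g₂)
    (hg0 : 0 < g) (c1 : g₁.Coprime g₂) (c2 : g.Coprime A₁) (c3 : g₁.Coprime m')
    (c4 : g.Coprime d₂') (u v : ℕ) (hu : 0 < u) (hv : 0 < v) :
    Cong A₁ A₂ g t m b m' b' d₂ d₂' u v ↔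
      (Gd A₁ A₂ g₁ g₂ t m b m' b' u v ∧ (d₂ : ℤ) ∣ v ∧
        (g₁ : ℤ) ∣ A₂ * u * v - (A₂ - A₁) ∧ (d₂' : ℤ) ∣ v * (g + t * A₂ * u) - t * (A₂ - A₁)) := by
  have hg1 : 0 < g₁ := Nat.pos_of_ne_zero (by rintro rfl; simp at hg; omega)
  have hgz : (g : ℤ) = g₁ * g₂ := by exact_mod_cast hg
  constructor
  · rintro ⟨n, e, h1, h2, h3, h4, h5, h6⟩
    have h1' : (u : ℤ) * v = A₁ * n + 1 := by exact_mod_cast h1
    have h2' : (A₂ : ℤ) * n + 1 = g * e := by exact_mod_cast h2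
    have h3' : (m : ℤ) ∣ n - b := by
      have := (Nat.modEq_iff_dvd.1 h3)
      rw [← dvd_neg]; simpa using this
    have h4' : (m' : ℤ) ∣ (n + u * e * t : ℤ) - b' := by
      have := (Nat.modEq_iff_dvd.1 h4)
      rw [← dvd_neg]
      push_cast at this
      have e0 : -((n + u * e * t : ℤ) - b') = b' - (n + u * e * t) := by ring
      rw [e0]; exact this
    have h6' : (d₂' : ℤ) ∣ v + A₁ * e * t := by exact_mod_cast Int.natCast_dvd_natCast.2 h6
    refine ⟨⟨n, g₁ * e, h1', ?_, h3', ?_⟩, by exact_mod_cast h5, ?_, ?_⟩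
    · rw [h2', hgz]; ring
    · obtain ⟨y, hy⟩ := h4'
      exact ⟨g₁ * y, by linear_combination (g₁ : ℤ) * hy⟩
    · refine ⟨A₁ * g₂ * e, ?_⟩
      linear_combination (A₂ : ℤ) * h1' + (A₁ : ℤ) * h2' + (A₁ : ℤ) * e * hgz
    · obtain ⟨y, hy⟩ := h6'
      refine ⟨g * y, ?_⟩
      linear_combination (g : ℤ) * hy + (t : ℤ) * A₂ * h1' + (t : ℤ) * A₁ * h2'
  · rintro ⟨⟨n, e, h1, h2, h3, h4⟩, h5, h6, h7⟩
    have hn : 0 ≤ n := by
      have h8 : (0 : ℤ) ≤ A₁ * n := by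
        have : (1 : ℤ) ≤ u * v := by exact_mod_cast Nat.mul_pos hu hv
        linarith
      by_contra hneg
      push Not at hneg
      have hA' : (0 : ℤ) < A₁ := by exact_mod_cast hA
      nlinarith
    obtain ⟨N, rfl⟩ := Int.eq_ofNat_of_zero_le hn
    have k1 : (g₁ : ℤ) ∣ A₂ * N + 1 := by
      have k2 : (g₁ : ℤ) ∣ A₁ * (A₂ * N + 1) := by
        have e0 : (A₁ : ℤ) * (A₂ * N + 1) = A₂ * u * v - (A₂ - A₁) := by
          linear_combination -(A₂ : ℤ) * h1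
        rw [e0]; exact h6
      have k3 : IsCoprime (g₁ : ℤ) A₁ := by
        rw [Nat.isCoprime_iff_coprime]
        exact Nat.Coprime.coprime_dvd_left ⟨g₂, hg⟩ c2
      exact k3.dvd_of_dvd_mul_left k2
    have k4 : (g : ℤ) ∣ A₂ * N + 1 := by
      rw [hgz]
      exact IsCoprime.mul_dvd (Nat.isCoprime_iff_coprime.2 c1) k1 ⟨e, h2⟩
    have k5 : g ∣ A₂ * N + 1 := by exact_mod_cast k4
    obtain ⟨E, hE⟩ := k5
    have hE' : (A₂ : ℤ) * N + 1 = g * E := by exact_mod_cast hE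
    have hg2 : (g₂ : ℤ) ≠ 0 := by
      have : g₂ ≠ 0 := by rintro rfl; simp at hg; omega
      exact_mod_cast this
    have he : e = g₁ * E := by
      apply mul_left_cancel₀ hg2
      rw [← h2, hE', hgz]; ring
    refine ⟨N, E, by exact_mod_cast h1, hE, ?_, ?_, by exact_mod_cast h5, ?_⟩
    · rw [Nat.modEq_iff_dvd, ← dvd_neg]; simpa using h3
    · rw [Nat.modEq_iff_dvd, ← dvd_neg]
      have k6 : (m' : ℤ) ∣ g₁ * ((N : ℤ) + u * E * t - b') := by
        have e0 : (g₁ : ℤ) * ((N : ℤ) + u * E * t - b') = g₁ * (N - b') + u * e * t := by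
          rw [he]; ring
        rw [e0]; exact h4
      have k7 : IsCoprime (m' : ℤ) g₁ := (Nat.isCoprime_iff_coprime.2 c3).symm
      have k8 := k7.dvd_of_dvd_mul_left k6
      push_cast
      have e0 : -((b' : ℤ) - (N + u * E * t)) = (N : ℤ) + u * E * t - b' := by ring
      rw [e0]; exact k8
    · have k9 : (d₂' : ℤ) ∣ g * (v + A₁ * E * t) := by
        have e0 : (g : ℤ) * (v + A₁ * E * t) = v * (g + t * A₂ * u) - t * (A₂ - A₁) := by
          linear_combination -(t : ℤ) * A₂ * h1 - (t : ℤ) * A₁ * hE'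
        rw [e0]; exact h7
      have k10 : IsCoprime (d₂' : ℤ) g := (Nat.isCoprime_iff_coprime.2 c4).symm
      exact_mod_cast k10.dvd_of_dvd_mul_left k9

open Classical in
/-- the number of good pairs of classes -/
noncomputable def nG (A₁ A₂ g₁ g₂ t m b m' b' : ℕ) : ℕ :=
  (((range (A₁ * g₂ * m * m')) ×ˢ (range (A₁ * g₂ * m * m'))).filter
    (fun z : ℕ × ℕ => Gd A₁ A₂ g₁ g₂ t m b m' b' z.1 z.2)).card

/-- the asymptotic formula for `Rct` -/
theorem rct_bd {ε C : ℝ} (hε : 0 < ε) (hC : 0 < C) (hK : HK ε C)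
    {A₁ A₂ g g₁ g₂ t m b m' b' d₂ d₂' : ℕ} (hS : SamePr A₁ A₂) (hg : g = g₁ * g₂)
    (hg0 : 0 < g) (hm : 0 < m) (hm' : 0 < m') (hd : 0 < d₂) (hsq : Squarefree g₁)
    (hsq' : Squarefree d₂') (c1 : g₁.Coprime g₂) (c2 : g.Coprime A₁) (c3 : g₁.Coprime (m * m'))
    (c4 : g.Coprime d₂') (c5 : d₂.Coprime A₁) (c6 : d₂'.Coprime A₁) (c7 : g.Coprime d₂)
    (c8 : t.Coprime d₂') (c9 : d₂.Coprime d₂') (c10 : d₂.Coprime (m * m'))
    (c11 : d₂'.Coprime (m * m')) (x₀ y₀ D F : ℕ) :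
    |Rct A₁ A₂ g t m b m' b' d₂ d₂' x₀ y₀ D F - nG A₁ A₂ g₁ g₂ t m b m' b' *
      (D * F * (g₁ * d₂').totient / (((A₁ * g₂ * m * m' : ℕ) : ℝ) ^ 2 * d₂ *
        (((g₁ * d₂' : ℕ) : ℝ)) ^ 2))| ≤
      ((A₁ * g₂ * m * m' : ℕ) : ℝ) ^ 2 * ((2 * C + 1) * ((g₁ * d₂' : ℕ) : ℝ) ^ ε *
        ((((D : ℝ) + 1) * (F / d₂ + 1) * (g₁ * d₂' : ℕ)) ^ (1 / 4 : ℝ) +
        ((g₁ * d₂' : ℕ) : ℝ) ^ (1 / 2 : ℝ) + (D + F + 1) / (g₁ * d₂' : ℕ))) := by
  classical
  obtain ⟨hA1, hA2, hne, hpr, hdiff⟩ := hS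
  set M := A₁ * g₂ * m * m' with hM
  set q := g₁ * d₂' with hq
  have hg1 : 0 < g₁ := Nat.pos_of_ne_zero (by rintro rfl; simp at hg; omega)
  have hg2 : 0 < g₂ := Nat.pos_of_ne_zero (by rintro rfl; simp at hg; omega)
  have hd'0 : 0 < d₂' := Nat.pos_of_ne_zero hsq'.ne_zero
  have hM0 : 0 < M := by positivity
  have hq0 : 0 < q := by positivity
  have g1g : g₁ ∣ g := ⟨g₂, hg⟩
  have g2g : g₂ ∣ g := ⟨g₁, by rw [hg, mul_comm]⟩
  have c1d : g₁.Coprime d₂' := Nat.Coprime.coprime_dvd_left g1g c4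
  have hqs : Squarefree q := (Nat.squarefree_mul c1d).2 ⟨hsq, hsq'⟩
  have c3a : g₁.Coprime m := Nat.Coprime.coprime_dvd_right (dvd_mul_right _ _) c3
  have c3b : g₁.Coprime m' := Nat.Coprime.coprime_dvd_right (dvd_mul_left _ _) c3
  have c10a : d₂.Coprime m := Nat.Coprime.coprime_dvd_right (dvd_mul_right _ _) c10
  have c10b : d₂.Coprime m' := Nat.Coprime.coprime_dvd_right (dvd_mul_left _ _) c10
  have c11a : d₂'.Coprime m := Nat.Coprime.coprime_dvd_right (dvd_mul_right _ _) c11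
  have c11b : d₂'.Coprime m' := Nat.Coprime.coprime_dvd_right (dvd_mul_left _ _) c11
  have c2a : g₁.Coprime A₁ := Nat.Coprime.coprime_dvd_left g1g c2
  have g1M : g₁.Coprime M := by
    rw [hM]
    exact ((c2a.mul_right c1).mul_right c3a).mul_right c3b
  have d'M : d₂'.Coprime M := by
    rw [hM]
    exact ((c6.mul_right (Nat.Coprime.coprime_dvd_left g2g c4).symm).mul_right c11a).mul_right c11b
  have dM : d₂.Coprime M := by
    rw [hM]
    exact ((c5.mul_right (Nat.Coprime.coprime_dvd_left g2g c7).symm).mul_right c10a).mul_right c10b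
  have Mq : M.Coprime q := by
    rw [hq]
    exact (g1M.symm).mul_right (d'M.symm)
  -- `A₂` is prime to `q`
  have qA : q.Coprime A₁ := by
    rw [hq]; exact Nat.Coprime.mul_left c2a c6
  have qA2 : q.Coprime A₂ := by
    apply Nat.coprime_of_dvd
    intro p hp h1 h2
    exact hp.one_lt.ne' (Nat.dvd_one.1 (by
      have := Nat.dvd_gcd h1 ((hpr p hp).2 h2)
      rwa [qA] at this)) 
  have qd : q.Coprime d₂ := by
    rw [hq]; exact Nat.Coprime.mul_left (Nat.Coprime.coprime_dvd_left g1g c7) c9.symm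
  have i1 : IsCoprime ((A₂ : ℤ) * d₂) ((g₁ : ℤ) * d₂') := by
    have := (Nat.isCoprime_iff_coprime.2 (qA2.mul_right qd)).symm
    push_cast [hq] at this
    exact this
  have i2 : IsCoprime ((A₂ : ℤ) - A₁) ((g₁ : ℤ) * d₂') := by
    rw [Int.isCoprime_iff_gcd_eq_one]
    by_contra hne1
    obtain ⟨p, hp, hpd⟩ := Nat.exists_prime_and_dvd hne1
    have h1 : (p : ℤ) ∣ (A₂ : ℤ) - A₁ :=
      (Int.natCast_dvd_natCast.2 hpd).trans (Int.gcd_dvd_left ..)
    have h2 : (p : ℤ) ∣ (g₁ : ℤ) * d₂' :=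
      (Int.natCast_dvd_natCast.2 hpd).trans (Int.gcd_dvd_right ..)
    have h3 : p ∣ A₁ := hdiff p hp (by
      have e0 : (A₁ : ℤ) - A₂ = -((A₂ : ℤ) - A₁) := by ring
      rw [e0, dvd_neg]; exact h1)
    have h4 : p ∣ q := by rw [hq]; exact_mod_cast h2
    exact hp.one_lt.ne' (Nat.dvd_one.1 (by
      have := Nat.dvd_gcd h4 h3
      rwa [qA] at this))
  obtain ⟨s, c, hc, hsc⟩ := red (A₁ : ℤ) A₂ g g₁ t d₂ d₂' i1 i2 (Nat.isCoprime_iff_coprime.2 c1d)
    (Nat.isCoprime_iff_coprime.2 c8)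
    (Nat.isCoprime_iff_coprime.2 (Nat.Coprime.coprime_dvd_left (Dvd.intro_left g₁ rfl) qA2)).symm
  -- fibres
  set box := (((Ioc x₀ (x₀ + D)) ×ˢ (Ioc y₀ (y₀ + F))).filter
    (fun z : ℕ × ℕ => Cong A₁ A₂ g t m b m' b' d₂ d₂' z.1 z.2)) with hbox
  have hciff : ∀ z : ℕ × ℕ, 0 < z.1 → 0 < z.2 → (Cong A₁ A₂ g t m b m' b' d₂ d₂' z.1 z.2 ↔
      (Gd A₁ A₂ g₁ g₂ t m b m' b' z.1 z.2 ∧ (d₂ : ℤ) ∣ z.2 ∧
        (g₁ : ℤ) ∣ A₂ * z.1 * z.2 - (A₂ - A₁) ∧
        (d₂' : ℤ) ∣ z.2 * (g + t * A₂ * z.1) - t * (A₂ - A₁))) :=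
    fun z h1 h2 => cong_iff hA1 hg hg0 c1 c2 c3b c4 z.1 z.2 h1 h2
  have hmodM : ∀ (u a : ℕ), u % M = a % M → ((A₁ : ℤ) * g₂ * m * m') ∣ (u : ℤ) - a := by
    intro u a h
    have h1 := (Nat.modEq_iff_dvd.1 (show a ≡ u [MOD M] from h.symm))
    rw [hM] at h1
    push_cast at h1
    exact h1
  set T := (range M) ×ˢ (range M) with hT
  have hfib : box.card = ∑ w ∈ T, (box.filter (fun z => (z.1 % M, z.2 % M) = w)).card := by
    apply Finset.card_eq_sum_card_fiberwise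
    intro z _
    rw [hT, Finset.coe_product, Set.mem_prod]
    exact ⟨Finset.mem_coe.2 (Finset.mem_range.2 (Nat.mod_lt _ hM0)),
      Finset.mem_coe.2 (Finset.mem_range.2 (Nat.mod_lt _ hM0))⟩
  set main : ℝ := D * F * q.totient / ((M : ℝ) ^ 2 * d₂ * (q : ℝ) ^ 2) with hmain
  set err : ℝ := (2 * C + 1) * (q : ℝ) ^ ε * ((((D : ℝ) + 1) * (F / d₂ + 1) * q) ^ (1 / 4 : ℝ) +
        (q : ℝ) ^ (1 / 2 : ℝ) + (D + F + 1) / q) with herr
  have herr0 : 0 ≤ err := by positivity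
  have hone : ∀ w ∈ T, |((box.filter (fun z => (z.1 % M, z.2 % M) = w)).card : ℝ) -
      (if Gd A₁ A₂ g₁ g₂ t m b m' b' w.1 w.2 then main else 0)| ≤ err := by
    rintro ⟨a, r⟩ hw
    rw [hT, Finset.mem_product] at hw
    have ha : a < M := Finset.mem_range.1 hw.1
    have hr : r < M := Finset.mem_range.1 hw.2
    by_cases hG : Gd A₁ A₂ g₁ g₂ t m b m' b' a r
    · rw [if_pos hG]
      refine fib hε hC hK q M d₂ hq0 hqs hM0 hd (Nat.isCoprime_iff_coprime.2 Mq)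
        (Nat.isCoprime_iff_coprime.2 dM) s c (by rw [hq]; push_cast; exact hc) a r x₀ y₀ D F _ ?_
      rintro ⟨u, v⟩
      simp only [hbox, Finset.mem_filter, Finset.mem_product, Finset.mem_Ioc, Prod.mk.injEq]
      have e1 : u % M = a ↔ (M : ℤ) ∣ (u : ℤ) - a := by
        rw [← Nat.modEq_iff_dvd]
        constructor
        · intro h
          change a % M = u % M
          rw [h, Nat.mod_eq_of_lt ha]
        · intro h
          have : a % M = u % M := h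
          rw [← this, Nat.mod_eq_of_lt ha]
      have e2 : v % M = r ↔ (M : ℤ) ∣ (v : ℤ) - r := by
        rw [← Nat.modEq_iff_dvd]
        constructor
        · intro h
          change r % M = v % M
          rw [h, Nat.mod_eq_of_lt hr]
        · intro h
          have : r % M = v % M := h
          rw [← this, Nat.mod_eq_of_lt hr]
      constructor
      · rintro ⟨⟨⟨⟨z1, z2⟩, z3, z4⟩, z5⟩, z6, z7⟩
        obtain ⟨k1, ⟨f, hf⟩, k3, k4⟩ := (hciff (u, v) (by simp only; omega) (by simp only; omega)).1 z5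
        simp only at hf k3 k4
        refine ⟨⟨z1, z2⟩, ⟨z3, z4⟩, e1.1 z6, e2.1 z7, f, hf, ?_⟩
        rw [hf] at k3 k4
        have := (hsc u f).1 ⟨k3, k4⟩
        rw [hq]; push_cast; exact this
      · rintro ⟨⟨z1, z2⟩, ⟨z3, z4⟩, z5, z6, f, hf, z7⟩
        refine ⟨⟨⟨⟨z1, z2⟩, z3, z4⟩, ?_⟩, e1.2 z5, e2.2 z6⟩
        rw [hciff (u, v) (by simp only; omega) (by simp only; omega)]
        rw [hq] at z7
        push_cast at z7
        have := (hsc u f).2 z7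
        simp only
        rw [hf]
        refine ⟨?_, dvd_mul_right _ _, this.1, this.2⟩
        rw [← hf]
        refine Gd_mod (hmodM u a ?_) (hmodM v r ?_) hG
        · rw [e1.2 z5, Nat.mod_eq_of_lt ha]
        · rw [e2.2 z6, Nat.mod_eq_of_lt hr]
    · rw [if_neg hG]
      have he : box.filter (fun z => (z.1 % M, z.2 % M) = (a, r)) = ∅ := by
        rw [Finset.filter_eq_empty_iff]
        rintro ⟨u, v⟩ hz h
        simp only [Prod.mk.injEq] at h
        rw [hbox, Finset.mem_filter, Finset.mem_product, Finset.mem_Ioc, Finset.mem_Ioc] at hz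
        have k1 := ((hciff (u, v) (by have := hz.1.1.1; simp only at this ⊢; omega)
          (by have := hz.1.2.1; simp only at this ⊢; omega)).1 hz.2).1
        apply hG
        refine Gd_mod (hmodM a u ?_) (hmodM r v ?_) k1
        · rw [h.1, Nat.mod_eq_of_lt ha]
        · rw [h.2, Nat.mod_eq_of_lt hr]
      rw [he]
      simpa using herr0
  have hR : Rct A₁ A₂ g t m b m' b' d₂ d₂' x₀ y₀ D F = box.card := by
    rw [Rct, hbox]
  have hG : (nG A₁ A₂ g₁ g₂ t m b m' b' : ℝ) * main =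
      ∑ w ∈ T, (if Gd A₁ A₂ g₁ g₂ t m b m' b' w.1 w.2 then main else 0) := by
    rw [← Finset.sum_filter, Finset.sum_const, nsmul_eq_mul, nG]
  rw [hR, hG, hfib]
  push_cast
  rw [← Finset.sum_sub_distrib]
  refine (Finset.abs_sum_le_sum_abs _ _).trans ((Finset.sum_le_sum hone).trans ?_)
  rw [Finset.sum_const, nsmul_eq_mul, hT, Finset.card_product, Finset.card_range]
  push_cast
  rw [← sq, hM]

/-- the numerical part of the final comparison -/
theorem fin_bd {ε C g g₁ g₂ M d₂ d' D F w R R' G m₁ : ℝ} (hε : 0 < ε) (hC : 0 < C)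
    (hg₁ : 1 ≤ g₁) (hg₂ : 1 ≤ g₂) (hg : g = g₁ * g₂) (hM : g₂ ≤ M) (hM1 : 1 ≤ M) (hd : 1 ≤ d₂)
    (hd' : 1 ≤ d') (hD : 0 ≤ D) (hF : 0 ≤ F) (hw0 : 0 ≤ w) (hw : w ≤ 1 / d₂)
    (h1 : |R - G * m₁| ≤ M ^ 2 * ((2 * C + 1) * (g₁ * d') ^ ε *
      (((D + 1) * (F / d₂ + 1) * (g₁ * d')) ^ (1 / 4 : ℝ) + (g₁ * d') ^ (1 / 2 : ℝ) +
        (D + F + 1) / (g₁ * d'))))
    (h2 : |w * R' - G * m₁| ≤ w * (M ^ 2 * ((2 * C + 1) * g₁ ^ ε *
      (((D + 1) * (F + 1) * g₁) ^ (1 / 4 : ℝ) + g₁ ^ (1 / 2 : ℝ) + (D + F + 1) / g₁)))) :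
    |R - w * R'| ≤ 2 * (2 * C + 1) * (g * d') ^ ε * M ^ 3 *
      (((D + 1) * (F / d₂ + 1) * (g * d')) ^ (1 / 4 : ℝ) + (g * d') ^ (1 / 2 : ℝ) +
        (D + F + 1) / g) := by
  have hg0 : 0 < g := by rw [hg]; positivity
  have hg1 : g₁ ≤ g := by rw [hg]; nlinarith
  have hgd : g₁ * d' ≤ g * d' := mul_le_mul_of_nonneg_right hg1 (by linarith)
  have hgd' : g₁ ≤ g * d' := by nlinarith
  have hd0 : 0 < d₂ := by linarith
  have hinv : 1 / g₁ ≤ M / g := by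
    rw [div_le_div_iff₀ (by linarith) hg0, hg]
    nlinarith
  set X := ((D + 1) * (F / d₂ + 1) * (g * d')) ^ (1 / 4 : ℝ) with hX
  set Y := (g * d') ^ (1 / 2 : ℝ) with hY
  set Z := (D + F + 1) / g with hZ
  have hX0 : 0 ≤ X := by positivity
  have hY0 : 0 ≤ Y := by positivity
  have hZ0 : 0 ≤ Z := by positivity
  set S := (g * d') ^ ε with hS
  have hS0 : 0 ≤ S := by positivity
  have e1 : (D + F + 1) / (g₁ * d') ≤ M * Z := by
    have : (D + F + 1) / (g₁ * d') ≤ (D + F + 1) * (1 / g₁) := by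
      rw [mul_one_div]
      apply div_le_div_of_nonneg_left (by linarith) (by linarith)
      nlinarith
    calc _ ≤ (D + F + 1) * (1 / g₁) := this
      _ ≤ (D + F + 1) * (M / g) := mul_le_mul_of_nonneg_left hinv (by linarith)
      _ = M * Z := by rw [hZ]; ring
  have e2 : (D + F + 1) / g₁ ≤ M * Z := by
    calc _ = (D + F + 1) * (1 / g₁) := by ring
      _ ≤ (D + F + 1) * (M / g) := mul_le_mul_of_nonneg_left hinv (by linarith)
      _ = M * Z := by rw [hZ]; ring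
  have b1 : M ^ 2 * ((2 * C + 1) * (g₁ * d') ^ ε *
      (((D + 1) * (F / d₂ + 1) * (g₁ * d')) ^ (1 / 4 : ℝ) + (g₁ * d') ^ (1 / 2 : ℝ) +
        (D + F + 1) / (g₁ * d'))) ≤ (2 * C + 1) * S * M ^ 3 * (X + Y + Z) := by
    have k1 : (g₁ * d') ^ ε ≤ S := Real.rpow_le_rpow (by positivity) hgd hε.le
    have k2 : ((D + 1) * (F / d₂ + 1) * (g₁ * d')) ^ (1 / 4 : ℝ) ≤ X := by
      apply Real.rpow_le_rpow (by positivity) _ (by norm_num)
      exact mul_le_mul_of_nonneg_left hgd (by positivity)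
    have k3 : (g₁ * d') ^ (1 / 2 : ℝ) ≤ Y := Real.rpow_le_rpow (by positivity) hgd (by norm_num)
    calc _ ≤ M ^ 2 * ((2 * C + 1) * S * (M * X + M * Y + M * Z)) := by
          apply mul_le_mul_of_nonneg_left _ (by positivity)
          apply mul_le_mul
          · exact mul_le_mul_of_nonneg_left k1 (by positivity)
          · have : X ≤ M * X := by nlinarith
            have : Y ≤ M * Y := by nlinarith
            linarith
          · positivity
          · positivity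
      _ = _ := by ring
  have b2 : w * (M ^ 2 * ((2 * C + 1) * g₁ ^ ε *
      (((D + 1) * (F + 1) * g₁) ^ (1 / 4 : ℝ) + g₁ ^ (1 / 2 : ℝ) + (D + F + 1) / g₁))) ≤
      (2 * C + 1) * S * M ^ 3 * (X + Y + Z) := by
    have hw1 : w ≤ 1 := hw.trans ((div_le_one hd0).2 hd)
    have k1 : g₁ ^ ε ≤ S := Real.rpow_le_rpow (by positivity) hgd' hε.le
    have k2 : w * ((D + 1) * (F + 1) * g₁) ^ (1 / 4 : ℝ) ≤ X := by
      have k4 : ((D + 1) * (F + 1) * g₁) ^ (1 / 4 : ℝ) ≤ d₂ * X := by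
        have k5 : (D + 1) * (F + 1) * g₁ ≤ d₂ * ((D + 1) * (F / d₂ + 1) * (g * d')) := by
          have : F + 1 ≤ d₂ * (F / d₂ + 1) := by
            rw [mul_add, mul_div_cancel₀ _ hd0.ne']; linarith
          calc (D + 1) * (F + 1) * g₁ ≤ (D + 1) * (d₂ * (F / d₂ + 1)) * (g * d') := by
                apply mul_le_mul _ hgd' (by linarith) (by positivity)
                exact mul_le_mul_of_nonneg_left this (by linarith)
            _ = _ := by ring
        calc _ ≤ (d₂ * ((D + 1) * (F / d₂ + 1) * (g * d'))) ^ (1 / 4 : ℝ) :=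
              Real.rpow_le_rpow (by positivity) k5 (by norm_num)
          _ = d₂ ^ (1 / 4 : ℝ) * X := by
              rw [Real.mul_rpow hd0.le (by positivity)]
          _ ≤ d₂ * X := by
              apply mul_le_mul_of_nonneg_right _ hX0
              calc d₂ ^ (1 / 4 : ℝ) ≤ d₂ ^ (1 : ℝ) :=
                    Real.rpow_le_rpow_of_exponent_le hd (by norm_num)
                _ = d₂ := Real.rpow_one _
      calc _ ≤ 1 / d₂ * (d₂ * X) := mul_le_mul hw k4 (by positivity) (by positivity)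
        _ = X := by field_simp
    have k3 : w * g₁ ^ (1 / 2 : ℝ) ≤ Y := by
      have : g₁ ^ (1 / 2 : ℝ) ≤ Y := Real.rpow_le_rpow (by positivity) hgd' (by norm_num)
      calc _ ≤ 1 * Y := mul_le_mul hw1 this (by positivity) (by norm_num)
        _ = Y := one_mul _
    have k4 : w * ((D + F + 1) / g₁) ≤ M * Z := by
      calc _ ≤ 1 * (M * Z) := mul_le_mul hw1 e2 (by positivity) (by norm_num)
        _ = M * Z := one_mul _
    have e0 : w * (M ^ 2 * ((2 * C + 1) * g₁ ^ ε *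
      (((D + 1) * (F + 1) * g₁) ^ (1 / 4 : ℝ) + g₁ ^ (1 / 2 : ℝ) + (D + F + 1) / g₁))) =
      M ^ 2 * ((2 * C + 1) * g₁ ^ ε * (w * ((D + 1) * (F + 1) * g₁) ^ (1 / 4 : ℝ) +
        w * g₁ ^ (1 / 2 : ℝ) + w * ((D + F + 1) / g₁))) := by ring
    rw [e0]
    calc _ ≤ M ^ 2 * ((2 * C + 1) * S * (M * X + M * Y + M * Z)) := by
          apply mul_le_mul_of_nonneg_left _ (by positivity)
          apply mul_le_mul
          · exact mul_le_mul_of_nonneg_left k1 (by positivity)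
          · have : X ≤ M * X := by nlinarith
            have : Y ≤ M * Y := by nlinarith
            linarith
          · positivity
          · positivity
      _ = _ := by ring
  calc |R - w * R'| = |(R - G * m₁) - (w * R' - G * m₁)| := by congr 1; ring
    _ ≤ |R - G * m₁| + |w * R' - G * m₁| := abs_sub _ _
    _ ≤ _ := by
      have := add_le_add (h1.trans b1) (h2.trans b2)
      refine this.trans (le_of_eq ?_)
      ring

end Pool.Agent.GapTwo.K4_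

namespace Pool.Agent.GapTwo

open K4_ in
theorem stmt_K4 (h : Stmt_K2) : Stmt_K4 := by
  intro ε hε
  obtain ⟨C, hC, hK⟩ := h ε hε
  refine ⟨2 * (2 * C + 1), by positivity, ?_⟩
  intro A₁ A₂ g t m b m' b' d₂ d₂' hS hg ht hm hm' hd hsq c1 c2 c3 c4 c5 c6 c7 c8 c9 c10 c11 x₀ y₀ D F
  obtain ⟨g₁, hgg, hsq1, k1, k2⟩ := badp_split g (m * m') hg
  set g₂ := badp g (m * m') with hg2
  have hg1 : 0 < g₁ := Nat.pos_of_ne_zero hsq1.ne_zero
  have hg20 : 0 < g₂ := Nat.pos_of_ne_zero (by intro h0; rw [h0] at hgg; simp at hgg; omega)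
  have hd' : 0 < d₂' := Nat.pos_of_ne_zero hsq.ne_zero
  have r1 := rct_bd hε hC hK (b := b) (b' := b') hS hgg hg hm hm' hd hsq1 hsq k1 c1 k2 c7 c4 c5
    c6 c8 c9 c10 c11 x₀ y₀ D F
  have r2 := rct_bd hε hC hK (b := b) (b' := b') (d₂ := 1) (d₂' := 1) (t := t) hS hgg hg hm hm'
    one_pos hsq1 squarefree_one k1 c1 k2
    (Nat.coprime_one_right _) (Nat.coprime_one_left _) (Nat.coprime_one_left _)
    (Nat.coprime_one_right _) (Nat.coprime_one_right _) (Nat.coprime_one_left _)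
    (Nat.coprime_one_left _) (Nat.coprime_one_left _) x₀ y₀ D F
  set M := A₁ * g₂ * m * m' with hM
  have hA1 : 0 < A₁ := hS.1
  have hgM : g₂ ≤ M := by
    rw [hM]
    calc g₂ = 1 * g₂ * 1 * 1 := by ring
      _ ≤ A₁ * g₂ * m * m' := by gcongr <;> omega
  have hM0 : 0 < M := by positivity
  have hw : ((d₂'.totient : ℝ) / (d₂ * (d₂' : ℝ) ^ 2)) ≤ 1 / d₂ := by
    have h1 : (d₂'.totient : ℝ) ≤ d₂' := by exact_mod_cast Nat.totient_le d₂'
    have h2 : (1 : ℝ) ≤ d₂' := by exact_mod_cast hd'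
    have h3 : (0 : ℝ) < d₂ := by exact_mod_cast hd
    rw [div_le_div_iff₀ (by positivity) h3]
    nlinarith [mul_nonneg h3.le (sub_nonneg.2 h1), mul_nonneg (mul_nonneg h3.le (Nat.cast_nonneg d₂' : (0 : ℝ) ≤ d₂')) (sub_nonneg.2 h2)]
  have hgr : (g : ℝ) = (g₁ : ℝ) * g₂ := by exact_mod_cast hgg
  have hcop : g₁.Coprime d₂' := Nat.Coprime.coprime_dvd_left ⟨g₂, hgg⟩ c7
  have key := fin_bd (ε := ε) (C := C) (g := g) (g₁ := g₁) (g₂ := g₂) (M := M) (d₂ := d₂)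
    (d' := d₂') (D := D) (F := F) (w := (d₂'.totient : ℝ) / (d₂ * (d₂' : ℝ) ^ 2))
    (R := Rct A₁ A₂ g t m b m' b' d₂ d₂' x₀ y₀ D F) (R' := Rct A₁ A₂ g t m b m' b' 1 1 x₀ y₀ D F)
    (G := nG A₁ A₂ g₁ g₂ t m b m' b')
    (m₁ := D * F * (g₁ * d₂').totient / ((M : ℝ) ^ 2 * d₂ * ((g₁ * d₂' : ℕ) : ℝ) ^ 2))
    hε hC (by exact_mod_cast hg1) (by exact_mod_cast hg20) hgr (by exact_mod_cast hgM)
    (by exact_mod_cast hM0) (by exact_mod_cast hd) (by exact_mod_cast hd') (Nat.cast_nonneg _)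
    (Nat.cast_nonneg _) (by positivity) hw ?_ ?_
  · have e : ((A₁ * badp g (m * m') * m * m' : ℝ)) = (M : ℝ) := by
      rw [hM, hg2]; push_cast; ring
    rw [e]
    exact key
  · refine r1.trans (le_of_eq ?_)
    push_cast
    ring
  · have h0 : (0 : ℝ) ≤ (d₂'.totient : ℝ) / (d₂ * (d₂' : ℝ) ^ 2) := by positivity
    have e1 : (d₂'.totient : ℝ) / (d₂ * (d₂' : ℝ) ^ 2) * Rct A₁ A₂ g t m b m' b' 1 1 x₀ y₀ D F -
        nG A₁ A₂ g₁ g₂ t m b m' b' *
          (D * F * (g₁ * d₂').totient / ((M : ℝ) ^ 2 * d₂ * ((g₁ * d₂' : ℕ) : ℝ) ^ 2)) =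
        (d₂'.totient : ℝ) / (d₂ * (d₂' : ℝ) ^ 2) * (Rct A₁ A₂ g t m b m' b' 1 1 x₀ y₀ D F -
          nG A₁ A₂ g₁ g₂ t m b m' b' * (D * F * (g₁ * 1).totient /
            ((M : ℝ) ^ 2 * (1 : ℕ) * ((g₁ * 1 : ℕ) : ℝ) ^ 2))) := by
      rw [Nat.totient_mul hcop]
      have h1 : (d₂ : ℝ) ≠ 0 := by exact_mod_cast hd.ne'
      have h2 : (d₂' : ℝ) ≠ 0 := by exact_mod_cast hd'.ne'
      have h3 : (g₁ : ℝ) ≠ 0 := by exact_mod_cast hg1.ne'
      have h4 : (M : ℝ) ≠ 0 := by exact_mod_cast hM0.ne'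
      push_cast
      rw [mul_one]
      field_simp
    rw [e1, abs_mul, abs_of_nonneg h0]
    apply mul_le_mul_of_nonneg_left _ h0
    refine r2.trans (le_of_eq ?_)
    push_cast
    simp only [mul_one, div_one]

end Pool.Agent.GapTwo
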