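import Pool.Agent.Work.MP_1ea053_nt.K5F

/-!
# Block K5: assembly of Theorem K
-/

set_option autoImplicit false

namespace Pool.Agent.GapTwo

open Finset Filter
open scoped Classical Topology

namespace K5_

theorem F_eq (A₁ A₂ : ℕ) (I : Finset ℕ) (D₂ E : ℝ) (α β γ : ℕ → ℝ) {σ : Type} (J : Finset σ)
    (c : σ → ℝ) (m b : σ → ℕ) (d₁ : ℕ) :
    ∑ d₂ ∈ Icc 1 ⌊D₂⌋₊, ∑ e ∈ Ioc ⌊E⌋₊ ⌊2 * E⌋₊, α d₁ * β d₂ * γ e *
      ∑ n ∈ I.filter (fun n => d₁ ∣ A₁ * n + 1 ∧ e ∣ A₂ * n + 1),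
        Om J c m b n * ((if d₁ * d₂ ∣ A₁ * n + 1 then (1 : ℝ) else 0) - 1 / (d₂ : ℝ)) =
    ∑ e ∈ Ioc ⌊E⌋₊ ⌊2 * E⌋₊, α d₁ * γ e *
      ∑ n ∈ I.filter (fun n => d₁ ∣ A₁ * n + 1 ∧ e ∣ A₂ * n + 1),
        Om J c m b n * hh A₁ β D₂ d₁ n := by
  rw [Finset.sum_comm]
  refine Finset.sum_congr rfl fun e _ => ?_
  unfold hh
  simp_rw [Finset.mul_sum]
  rw [Finset.sum_comm]
  refine Finset.sum_congr rfl fun n _ => Finset.sum_congr rfl fun d₂ _ => ?_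
  ring

theorem chain (Z : ℝ) (hZ : 0 ≤ Z) (g : ℕ → ℝ) (k : ℕ) :
    ∑ d ∈ Ioc ⌊Z⌋₊ ⌊2 ^ k * Z⌋₊, g d =
    ∑ j ∈ range k, ∑ d ∈ Ioc ⌊2 ^ j * Z⌋₊ ⌊2 * (2 ^ j * Z)⌋₊, g d := by
  induction k with
  | zero => simp
  | succ k ih =>
    rw [Finset.sum_range_succ, ← ih]
    have h1 : (2 : ℝ) ^ (k + 1) * Z = 2 * (2 ^ k * Z) := by ring
    rw [h1]
    symm
    refine Finset.sum_Ioc_consecutive _ ?_ ?_
    · refine Nat.floor_mono ?_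
      have : (1 : ℝ) ≤ 2 ^ k := one_le_pow₀ (by norm_num)
      nlinarith
    · refine Nat.floor_mono ?_
      have : (0 : ℝ) ≤ 2 ^ k * Z := by positivity
      linarith

theorem small_expo {N s η x w X : ℝ} (hN : 1 < N) (hs : 0 < s) (hs7 : s ≤ 1 / 10000000)
    (hsη : 100000 * s ≤ η) (hC : 1000 ≤ N ^ s) (hx : x ≤ θ₀) (hw : w ≤ θ₀ - 1 + 2 * τ₀ + x)
    (hX : X ≤ 2 * N) :
    4 * N ^ δ₁ * N ^ (1 / 5 : ℝ) * N ^ w * N ^ x + N ^ s * ((X * (2 / N ^ η) +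
      3 * N ^ (1 / 5 : ℝ)) * (N ^ s * N ^ s * N ^ s) + X * (N ^ s * N ^ s *
        (2 * (N ^ s) ^ 2 / N ^ η))) ≤ N ^ (1 - 2 * s) := by
  have hN0 : 0 < N := by linarith
  have hx1 : x ≤ 1089 / 2000 := hx
  have hw1 : w ≤ 1089 / 2000 - 1 + 2 * (1 / 10000) + x := hw
  have hsq : ∀ a : ℝ, (N ^ a) ^ 2 = N ^ (a * 2) := fun a => by
    rw [Real.rpow_mul hN0.le]; norm_cast
  set R := N ^ (1 - 3 * s) with hR
  have hR0 : 0 < R := by positivity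
  have t1 : 4 * N ^ δ₁ * N ^ (1 / 5 : ℝ) * N ^ w * N ^ x ≤ 4 * R := by
    have : N ^ δ₁ * N ^ (1 / 5 : ℝ) * N ^ w * N ^ x ≤ R := by
      rw [← Real.rpow_add hN0, ← Real.rpow_add hN0, ← Real.rpow_add hN0]
      refine rp_le hN ?_
      unfold δ₁
      linarith
    linarith
  have t2 : N ^ s * ((X * (2 / N ^ η)) * (N ^ s * N ^ s * N ^ s)) ≤ 4 * R := by
    have h1 : N ^ s * ((N ^ (1 : ℝ) * (1 / N ^ η)) * (N ^ s * N ^ s * N ^ s)) ≤ R := by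
      rw [one_div, ← Real.rpow_neg hN0.le, ← Real.rpow_add hN0, ← Real.rpow_add hN0,
        ← Real.rpow_add hN0, ← Real.rpow_add hN0, ← Real.rpow_add hN0]
      exact rp_le hN (by linarith)
    rw [Real.rpow_one] at h1
    calc N ^ s * ((X * (2 / N ^ η)) * (N ^ s * N ^ s * N ^ s))
        ≤ N ^ s * (((2 * N) * (2 / N ^ η)) * (N ^ s * N ^ s * N ^ s)) := by gcongr
      _ = 4 * (N ^ s * ((N * (1 / N ^ η)) * (N ^ s * N ^ s * N ^ s))) := by ring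
      _ ≤ 4 * R := by linarith
  have t3 : N ^ s * ((3 * N ^ (1 / 5 : ℝ)) * (N ^ s * N ^ s * N ^ s)) ≤ 3 * R := by
    have h1 : N ^ s * (N ^ (1 / 5 : ℝ) * (N ^ s * N ^ s * N ^ s)) ≤ R := by
      rw [← Real.rpow_add hN0, ← Real.rpow_add hN0, ← Real.rpow_add hN0, ← Real.rpow_add hN0]
      exact rp_le hN (by linarith)
    calc N ^ s * ((3 * N ^ (1 / 5 : ℝ)) * (N ^ s * N ^ s * N ^ s))
        = 3 * (N ^ s * (N ^ (1 / 5 : ℝ) * (N ^ s * N ^ s * N ^ s))) := by ring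
      _ ≤ 3 * R := by linarith
  have t4 : N ^ s * (X * (N ^ s * N ^ s * (2 * (N ^ s) ^ 2 / N ^ η))) ≤ 4 * R := by
    have h1 : N ^ s * (N ^ (1 : ℝ) * (N ^ s * N ^ s * ((N ^ s) ^ 2 * (1 / N ^ η)))) ≤ R := by
      rw [hsq, one_div, ← Real.rpow_neg hN0.le, ← Real.rpow_add hN0, ← Real.rpow_add hN0,
        ← Real.rpow_add hN0, ← Real.rpow_add hN0, ← Real.rpow_add hN0]
      exact rp_le hN (by linarith)
    rw [Real.rpow_one] at h1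
    calc N ^ s * (X * (N ^ s * N ^ s * (2 * (N ^ s) ^ 2 / N ^ η)))
        ≤ N ^ s * ((2 * N) * (N ^ s * N ^ s * (2 * (N ^ s) ^ 2 / N ^ η))) := by gcongr
      _ = 4 * (N ^ s * (N * (N ^ s * N ^ s * ((N ^ s) ^ 2 * (1 / N ^ η))))) := by ring
      _ ≤ 4 * R := by linarith
  have h5 : N ^ (1 - 2 * s) = N ^ s * R := by
    rw [hR, ← Real.rpow_add hN0]; congr 1; ring
  rw [h5]
  have h6 : 4 * N ^ δ₁ * N ^ (1 / 5 : ℝ) * N ^ w * N ^ x + N ^ s * ((X * (2 / N ^ η) +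
      3 * N ^ (1 / 5 : ℝ)) * (N ^ s * N ^ s * N ^ s) + X * (N ^ s * N ^ s *
        (2 * (N ^ s) ^ 2 / N ^ η))) =
      4 * N ^ δ₁ * N ^ (1 / 5 : ℝ) * N ^ w * N ^ x +
      N ^ s * ((X * (2 / N ^ η)) * (N ^ s * N ^ s * N ^ s)) +
      N ^ s * ((3 * N ^ (1 / 5 : ℝ)) * (N ^ s * N ^ s * N ^ s)) +
      N ^ s * (X * (N ^ s * N ^ s * (2 * (N ^ s) ^ 2 / N ^ η))) := by ring
  rw [h6]
  nlinarith

theorem II_le (N κ : ℝ) (W : ℕ) (hN : 0 < N) (hW : 0 < W) (hκ0 : 0 < κ) (hκ : κ ≤ 1) :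
    ⌊N / (W : ℝ)⌋₊ ≤ ⌊(1 + κ) * (N / W)⌋₊ ∧
    ((⌊(1 + κ) * (N / W)⌋₊ : ℝ) - (⌊N / (W : ℝ)⌋₊ : ℝ)) ≤ 2 * N ∧
    ((II (N / W) κ).card : ℝ) ≤ 2 * N := by
  have hWR : (1 : ℝ) ≤ W := by exact_mod_cast hW
  have hNW0 : 0 ≤ N / W := by positivity
  have hNW : N / W ≤ N := div_le_self hN.le hWR
  have k2 : (⌊(1 + κ) * (N / W)⌋₊ : ℝ) ≤ (1 + κ) * (N / W) :=
    Nat.floor_le (by positivity)
  have k3 : (0 : ℝ) ≤ (⌊N / (W : ℝ)⌋₊ : ℝ) := Nat.cast_nonneg _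
  have k4 : (1 + κ) * (N / W) ≤ 2 * N := by nlinarith
  refine ⟨Nat.floor_mono (by nlinarith), by linarith, ?_⟩
  unfold II
  rw [Nat.card_Ioc]
  have k1 : ((⌊(1 + κ) * (N / W)⌋₊ - ⌊N / W⌋₊ : ℕ) : ℝ) ≤ (⌊(1 + κ) * (N / W)⌋₊ : ℝ) := by
    exact_mod_cast Nat.sub_le _ _
  linarith

theorem last_step (a b k n : ℝ) (hb0 : 0 ≤ b) (ha : a = b * n) (hn : 1000 ≤ n)
    (hk : k ≤ 2 * b) : b + k ≤ a := by
  rw [ha]; nlinarith

end K5_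

open K5_

theorem stmt_K5 : Stmt_K5 := by
  intro _ hK3B hK3D hKG η hη hη1
  set s : ℝ := η / 100000 with hsdef
  have hs : 0 < s := by positivity
  have hs7 : s ≤ 1 / 10000000 := by rw [hsdef]; linarith
  have hsη : 100000 * s ≤ η := by rw [hsdef]; linarith
  refine ⟨s, hs, fun A₁ A₂ W hSP hW κ hκ0 hκ1 => ?_⟩
  obtain ⟨CB, hCB, hB⟩ := hK3B s hs A₁ A₂ W hSP hW κ hκ0 hκ1
  obtain ⟨CD, hCD, hD⟩ := hK3D s hs A₁ A₂ W hSP hW κ hκ0 hκ1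
  obtain ⟨CG, hCG, hG⟩ := hKG s hs A₁ A₂ W hSP hW κ hκ0 hκ1
  obtain ⟨N₀, hN₀⟩ := large A₁ A₂ W hW κ hκ1 s η (1000 * (1 + CD + CB + CG)) hs hη
  refine ⟨N₀, ?_⟩
  intro N hN D₁ D₂ E hD₁ hD₂ hE hDE hD₂E σ J c m b hc hm hOm α β γ hα hβ hγ rα rβ rγ
  obtain ⟨hN2, hM, hlog, hz2, hzA1, hzA2, htau1, htau2, hn2⟩ := hN₀ N hN
  have hN0 : 0 < N := by linarith
  have hN1 : 1 < N := by linarith
  have hM' : 1000 ≤ N ^ s := by linarith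
  obtain ⟨hab, hX, hIc⟩ := II_le N κ W hN0 hW hκ0 hκ1
  -- exponents
  have hneg : N ^ (θ₀ - 1 + 2 * τ₀) ≤ 1 := by
    refine Real.rpow_le_one_of_one_le_of_nonpos hN1.le ?_
    unfold θ₀ τ₀; norm_num
  have hpos : 0 < N ^ (θ₀ - 1 + 2 * τ₀) := by positivity
  have hE0 : 0 < E := by
    by_contra hc0
    push Not at hc0
    have : N ^ (θ₀ - 1 + 2 * τ₀) * E ≤ 0 := mul_nonpos_of_nonneg_of_nonpos hpos.le hc0
    linarith
  have hE1 : 1 ≤ E := by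
    have : N ^ (θ₀ - 1 + 2 * τ₀) * E ≤ 1 * E := mul_le_mul_of_nonneg_right hneg hE0.le
    linarith
  obtain ⟨x, hxE⟩ : ∃ x : ℝ, E = N ^ x :=
    ⟨Real.logb N E, (Real.rpow_logb hN0 hN1.ne' hE0).symm⟩
  obtain ⟨w, hwD⟩ : ∃ w : ℝ, D₂ = N ^ w :=
    ⟨Real.logb N D₂, (Real.rpow_logb hN0 hN1.ne' (by linarith)).symm⟩
  have hx : x ≤ θ₀ := by
    rw [hxE] at hE; exact (Real.rpow_le_rpow_left_iff hN1).1 hE
  have hw : w ≤ θ₀ - 1 + 2 * τ₀ + x := by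
    rw [hwD, hxE, ← Real.rpow_add hN0] at hD₂E
    exact (Real.rpow_le_rpow_left_iff hN1).1 hD₂E
  have hw0 : 0 ≤ w := by
    rw [hwD] at hD₂
    have : N ^ (0 : ℝ) ≤ N ^ w := by rw [Real.rpow_zero]; exact hD₂
    exact (Real.rpow_le_rpow_left_iff hN1).1 this
  have hθ : θ₀ = 1089 / 2000 := rfl
  have hτ : τ₀ = 1 / 10000 := rfl
  have hD₂N : D₂ ≤ N := by
    rw [hwD]
    calc N ^ w ≤ N ^ (1 : ℝ) := rp_le hN1 (by rw [hθ, hτ] at hw; rw [hθ] at hx; linarith)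
      _ = N := Real.rpow_one N
  have hEN : E ≤ N := by
    rw [hxE]
    calc N ^ x ≤ N ^ (1 : ℝ) := rp_le hN1 (by rw [hθ] at hx; linarith)
      _ = N := Real.rpow_one N
  have hT2 : 1 + Real.log D₂ ≤ N ^ s := by
    have : Real.log D₂ ≤ Real.log N := Real.log_le_log (by linarith) hD₂N
    linarith
  have hmN : ∀ j ∈ J, (m j : ℝ) ≤ N ^ δ₁ := fun j hj => (hm j hj).2.1
  have hm0 : ∀ j ∈ J, 0 < m j := fun j hj => (hm j hj).1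
  have hz1 : (1 : ℝ) ≤ N ^ η := by linarith
  have hδN : N ^ δ₁ * N ^ δ₁ ≤ N := by
    rw [← Real.rpow_add hN0]
    calc N ^ (δ₁ + δ₁) ≤ N ^ (1 : ℝ) := rp_le hN1 (by unfold δ₁; norm_num)
      _ = N := Real.rpow_one N
  -- one dyadic range
  have dy : ∀ (α' : ℕ → ℝ), (∀ d, |α' d| ≤ 1) → ∀ D : ℝ, N ^ (1 / 5 : ℝ) ≤ D → D ≤ D₁ →
      |∑ d₁ ∈ Ioc ⌊D⌋₊ ⌊2 * D⌋₊, ∑ e ∈ Ioc ⌊E⌋₊ ⌊2 * E⌋₊, α' d₁ * γ e *
      ∑ n ∈ (II (N / W) κ).filter (fun n => d₁ ∣ A₁ * n + 1 ∧ e ∣ A₂ * n + 1),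
        Om J c m b n * hh A₁ β D₂ d₁ n| ≤ N ^ (1 - 3 * s) := by
    intro α' hα' D hDZ hDD
    have hZ1 : 1 ≤ N ^ (1 / 5 : ℝ) := Real.one_le_rpow hN1.le (by norm_num)
    have hD1 : 1 ≤ D := hZ1.trans hDZ
    obtain ⟨y, hyD⟩ : ∃ y : ℝ, D = N ^ y :=
      ⟨Real.logb N D, (Real.rpow_logb hN0 hN1.ne' (by linarith)).symm⟩
    have hy : 1 / 5 ≤ y := by
      rw [hyD] at hDZ; exact (Real.rpow_le_rpow_left_iff hN1).1 hDZ
    have hDE' : D * E ≤ N ^ (1 - τ₀) :=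
      (mul_le_mul_of_nonneg_right hDD hE0.le).trans hDE
    have hxy : x + y ≤ 1 - τ₀ := by
      rw [hyD, hxE, ← Real.rpow_add hN0] at hDE'
      have := (Real.rpow_le_rpow_left_iff hN1).1 hDE'
      linarith
    have hDEN : D * E ≤ N := by
      refine hDE'.trans ?_
      calc N ^ (1 - τ₀) ≤ N ^ (1 : ℝ) := rp_le hN1 (by rw [hτ]; norm_num)
        _ = N := Real.rpow_one N
    have hDD₂ : D * D₂ ≤ N := by
      rw [hyD, hwD, ← Real.rpow_add hN0]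
      calc N ^ (y + w) ≤ N ^ (1 : ℝ) :=
            rp_le hN1 (by rw [hθ, hτ] at hw; rw [hτ] at hxy; linarith)
        _ = N := Real.rpow_one N
    -- the integer G
    have hg1 : (1 : ℝ) ≤ N ^ (2 / 10000 : ℝ) := Real.one_le_rpow hN1.le (by norm_num)
    set g : ℕ := ⌊N ^ (2 / 10000 : ℝ)⌋₊ with hgdef
    have hg0 : 1 ≤ g := Nat.one_le_floor_iff _ |>.2 hg1
    have hg0R : (1 : ℝ) ≤ g := by exact_mod_cast hg0
    have hg2 : (g : ℝ) ≤ N ^ (2 / 10000 : ℝ) := Nat.floor_le (by positivity)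
    have hg3 : N ^ (2 / 10000 : ℝ) ≤ 2 * g := by
      have := Nat.lt_floor_add_one (N ^ (2 / 10000 : ℝ))
      rw [← hgdef] at this
      linarith
    have hgD : (g : ℝ) ≤ D := by
      refine hg2.trans (le_trans ?_ hDZ)
      exact rp_le hN1 (by norm_num)
    set Y : ℝ := N ^ (4 / 10000 : ℝ) with hY
    have hY1 : 1 ≤ Y := Real.one_le_rpow hN1.le (by norm_num)
    set Kv : ℝ := CD * N ^ s * (N * (N / (D * E)) / N ^ η + N) with hKv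
    set Gv : ℝ := CG * N ^ s * (N / (D * E)) * (8 * N ^ (9998 / 10000 : ℝ)) with hGv
    set Bv : ℝ := CB * N ^ s * (N * (N / (D * E)) * Y ^ (-(1 / 8) : ℝ)) with hBv
    have hD0 : 0 < D := by linarith
    have hGv0 : 0 ≤ Gv := by positivity
    have hBv0 : 0 ≤ Bv := by positivity
    have key := dyad hSP (II (N / W) κ) D E (N ^ η) D₂ hD1 hE1 α' β γ hα' hγ hβ rβ hD₂ J c m b
      (N ^ s) Kv Gv Bv (N ^ s) (N ^ δ₁) Y (by positivity) hGv0 hBv0 (by positivity)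
      htau1 htau2 hT2 hOm hc
      (hD N D E D₂ (N ^ η) hN1.le hD1 hE1 hD₂N hz1)
      (by
        intro j hj j' hj'
        have hcop : ∀ i ∈ J, (m i).Coprime A₁ := by
          intro i hi
          by_contra hcc
          obtain ⟨p, hp, hp1, hp2⟩ := Nat.Prime.not_coprime_iff_dvd.1 hcc
          exact ((hm i hi).2.2 p hp hp1).1 hp2
        have hpz : ∀ p : ℕ, p.Prime → p ∣ A₁ * m j * m j' → (p : ℝ) < N ^ η := by
          intro p hp hpd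
          rcases (Nat.Prime.dvd_mul hp).1 hpd with k | k
          · rcases (Nat.Prime.dvd_mul hp).1 k with k' | k'
            · exact lt_of_small hSP.1 hzA1 p hp k'
            · exact ((hm j hj).2.2 p hp k').2
          · exact ((hm j' hj').2.2 p hp k).2
        have k1 := hG N D E D₂ Y hN1.le hD1 hE1 hEN hDEN hD₂ hDD₂ hY1 g hg0 hgD (m j) (b j)
          (m j') (b j') (hm0 j hj) (hm0 j' hj') (hcop j hj) (hcop j' hj') (N ^ η) hz2 hpz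
          β hβ
        refine k1.trans ?_
        rw [hGv]
        refine mul_le_mul_of_nonneg_left ?_ (by positivity)
        have k2 := X_bound hN1 hx hxy hw hw0 hy (m j) (m j') g (hmN j hj) (hmN j' hj') hg0
          hg3 hg2
        rw [← hxE, ← hyD, ← hwD] at k2
        exact k2)
      (by
        intro j hj j' hj'
        have k1 : ((m j * m j' : ℕ) : ℝ) ≤ N := by
          push_cast
          exact (mul_le_mul (hmN j hj) (hmN j' hj') (Nat.cast_nonneg _)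
            (by positivity)).trans hδN
        exact hB N D E Y hN1.le hD1 hE1 hY1 (m j * m j')
          (Nat.mul_pos (hm0 j hj) (hm0 j' hj')) k1)
    have fin := final_expo (CD := CD) (CB := CB) (CG := CG) hN1 hs hs7 hsη hCD.le hCB.le hCG.le
      hM hxy hIc
    rw [← hxE, ← hyD] at fin
    exact abs_le_of_sq_le_sq (key.trans fin) (by positivity)
  -- the decomposition
  set F : ℕ → ℝ := fun d₁ => ∑ d₂ ∈ Icc 1 ⌊D₂⌋₊, ∑ e ∈ Ioc ⌊E⌋₊ ⌊2 * E⌋₊,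
    α d₁ * β d₂ * γ e *
      ∑ n ∈ (II (N / W) κ).filter (fun n => d₁ ∣ A₁ * n + 1 ∧ e ∣ A₂ * n + 1),
        Om J c m b n * ((if d₁ * d₂ ∣ A₁ * n + 1 then (1 : ℝ) else 0) - 1 / (d₂ : ℝ)) with hF
  set Z : ℝ := N ^ (1 / 5 : ℝ) with hZ
  have hZ1 : 1 ≤ Z := Real.one_le_rpow hN1.le (by norm_num)
  set k : ℕ := Nat.log 2 ⌊N⌋₊ + 1 with hk
  have hkN : N < 2 ^ k := by
    have h1 : ⌊N⌋₊ < 2 ^ k := Nat.lt_pow_succ_log_self (by norm_num) _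
    have h2 : (⌊N⌋₊ : ℝ) + 1 ≤ 2 ^ k := by exact_mod_cast h1
    exact lt_of_lt_of_le (Nat.lt_floor_add_one N) h2
  have hkle : (k : ℝ) ≤ 2 * N ^ s := by
    have h0 : ⌊N⌋₊ ≠ 0 := by
      have : 1 ≤ ⌊N⌋₊ := Nat.one_le_floor_iff _ |>.2 hN1.le
      omega
    have h1 : 2 ^ (Nat.log 2 ⌊N⌋₊) ≤ ⌊N⌋₊ := Nat.pow_log_le_self 2 h0
    have h2 : (2 : ℝ) ^ (Nat.log 2 ⌊N⌋₊) ≤ N :=
      le_trans (by exact_mod_cast h1) (Nat.floor_le hN0.le)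
    have h3 : (Nat.log 2 ⌊N⌋₊ : ℝ) * Real.log 2 ≤ Real.log N := by
      rw [← Real.log_pow]; exact Real.log_le_log (by positivity) h2
    have h4 : (1 / 2 : ℝ) ≤ Real.log 2 := by have := Real.log_two_gt_d9; linarith
    have h5 : (Nat.log 2 ⌊N⌋₊ : ℝ) * (1 / 2) ≤ Real.log N :=
      (mul_le_mul_of_nonneg_left h4 (Nat.cast_nonneg _)).trans h3
    rw [hk]; push_cast
    linarith
  have hD₁N : D₁ ≤ N := by
    have h1 : D₁ * 1 ≤ D₁ * E := mul_le_mul_of_nonneg_left hE1 (by linarith)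
    have h2 : N ^ (1 - τ₀) ≤ N := by
      calc N ^ (1 - τ₀) ≤ N ^ (1 : ℝ) := rp_le hN1 (by rw [hτ]; norm_num)
        _ = N := Real.rpow_one N
    linarith
  have hsplit : ∑ d₁ ∈ Icc 1 ⌊D₁⌋₊, F d₁ =
      ∑ d₁ ∈ (Icc 1 ⌊D₁⌋₊).filter (fun d => d ≤ ⌊Z⌋₊), F d₁ +
      ∑ d₁ ∈ Ioc ⌊Z⌋₊ ⌊2 ^ k * Z⌋₊, (if d₁ ≤ ⌊D₁⌋₊ then F d₁ else 0) := by
    rw [← Finset.sum_filter_add_sum_filter_not (Icc 1 ⌊D₁⌋₊) (fun d => d ≤ ⌊Z⌋₊)]
    congr 1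
    rw [← Finset.sum_filter]
    refine Finset.sum_congr ?_ fun _ _ => rfl
    ext d
    simp only [Finset.mem_filter, Finset.mem_Icc, Finset.mem_Ioc]
    have h1 : ⌊D₁⌋₊ ≤ ⌊2 ^ k * Z⌋₊ := by
      refine Nat.floor_mono ?_
      have : (2 : ℝ) ^ k * 1 ≤ 2 ^ k * Z := mul_le_mul_of_nonneg_left hZ1 (by positivity)
      linarith
    constructor
    · rintro ⟨⟨h2, h3⟩, h4⟩
      exact ⟨⟨by omega, by omega⟩, h3⟩
    · rintro ⟨⟨h2, h3⟩, h4⟩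
      exact ⟨⟨by omega, h4⟩, by omega⟩
  have hdy : |∑ d₁ ∈ Ioc ⌊Z⌋₊ ⌊2 ^ k * Z⌋₊, (if d₁ ≤ ⌊D₁⌋₊ then F d₁ else 0)| ≤
      (k : ℝ) * N ^ (1 - 3 * s) := by
    rw [chain Z (by linarith)]
    refine (Finset.abs_sum_le_sum_abs _ _).trans ?_
    have h1 : ∀ j ∈ range k, |∑ d ∈ Ioc ⌊2 ^ j * Z⌋₊ ⌊2 * (2 ^ j * Z)⌋₊,
        (if d ≤ ⌊D₁⌋₊ then F d else 0)| ≤ N ^ (1 - 3 * s) := by
      intro j _
      by_cases hj : 2 ^ j * Z ≤ D₁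
      · have h2 := dy (fun d => if d ≤ ⌊D₁⌋₊ then α d else 0) (fun d => by
          split_ifs
          · exact hα d
          · simp) (2 ^ j * Z) (le_mul_of_one_le_left (by linarith)
            (one_le_pow₀ (by norm_num))) hj
        refine le_trans (le_of_eq ?_) h2
        congr 1
        refine Finset.sum_congr rfl fun d _ => ?_
        by_cases hd : d ≤ ⌊D₁⌋₊
        · simp only [hd, if_true]
          rw [hF]
          exact F_eq A₁ A₂ (II (N / W) κ) D₂ E α β γ J c m b d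
        · simp [hd]
      · have h2 : ∑ d ∈ Ioc ⌊2 ^ j * Z⌋₊ ⌊2 * (2 ^ j * Z)⌋₊,
            (if d ≤ ⌊D₁⌋₊ then F d else 0) = 0 := by
          refine Finset.sum_eq_zero fun d hd => ?_
          rw [Finset.mem_Ioc] at hd
          rw [if_neg]
          have h3 : ⌊D₁⌋₊ ≤ ⌊2 ^ j * Z⌋₊ := Nat.floor_mono (by linarith)
          omega
        rw [h2, abs_zero]
        positivity
    refine (Finset.sum_le_sum h1).trans ?_
    rw [Finset.sum_const, Finset.card_range, nsmul_eq_mul]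
  -- the small part
  have hsm : |∑ d₁ ∈ (Icc 1 ⌊D₁⌋₊).filter (fun d => d ≤ ⌊Z⌋₊), F d₁| ≤ N ^ (1 - 2 * s) := by
    have h1 := small hSP ⌊N / (W : ℝ)⌋₊ ⌊(1 + κ) * (N / W)⌋₊ hab (N ^ η) Z D₂ E hz2 hzA1 hzA2
      hZ1 hD₂ hE1 J c m b (fun j hj => ⟨hm0 j hj, fun p hp hpd => ((hm j hj).2.2 p hp hpd).2⟩)
      (N ^ s) (N ^ δ₁) (N ^ s) (by positivity) (by positivity) htau1 htau2 hT2 hOm hc α β γ
      hα hβ hγ rα rβ rγ ((Icc 1 ⌊D₁⌋₊).filter (fun d => d ≤ ⌊Z⌋₊))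
      (fun d hd => by
        rw [Finset.mem_filter, Finset.mem_Icc] at hd
        refine ⟨by omega, ?_⟩
        exact le_trans (Nat.cast_le.2 hd.2) (Nat.floor_le (by linarith)))
      (by
        have h2 : ((Icc 1 ⌊D₁⌋₊).filter (fun d => d ≤ ⌊Z⌋₊)).card ≤ ⌊Z⌋₊ := by
          have h3 : (Icc 1 ⌊D₁⌋₊).filter (fun d => d ≤ ⌊Z⌋₊) ⊆ Icc 1 ⌊Z⌋₊ := by
            intro d hd
            rw [Finset.mem_filter, Finset.mem_Icc] at hd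
            rw [Finset.mem_Icc]
            exact ⟨hd.1.1, hd.2⟩
          refine (Finset.card_le_card h3).trans ?_
          rw [Nat.card_Icc]; omega
        exact le_trans (Nat.cast_le.2 h2) (Nat.floor_le (by linarith)))
    refine h1.trans ?_
    have h2 := small_expo hN1 hs hs7 hsη hM' hx hw hX
    rw [← hxE, ← hwD] at h2
    exact h2
  -- conclusion
  have hgoal : |∑ d₁ ∈ Icc 1 ⌊D₁⌋₊, F d₁| ≤ N ^ (1 - s) := by
    rw [hsplit]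
    refine (abs_add_le _ _).trans ((add_le_add hsm hdy).trans ?_)
    have h1 : N ^ (1 - 3 * s) * N ^ s = N ^ (1 - 2 * s) := by
      rw [← Real.rpow_add hN0]; congr 1; ring
    have h2 : N ^ (1 - 2 * s) * N ^ s = N ^ (1 - s) := by
      rw [← Real.rpow_add hN0]; congr 1; ring
    have h3 : (k : ℝ) * N ^ (1 - 3 * s) ≤ 2 * N ^ (1 - 2 * s) := by
      calc (k : ℝ) * N ^ (1 - 3 * s) ≤ (2 * N ^ s) * N ^ (1 - 3 * s) :=
            mul_le_mul_of_nonneg_right hkle (by positivity)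
        _ = 2 * N ^ (1 - 2 * s) := by rw [← h1]; ring
    exact last_step _ _ _ _ (by positivity) h2.symm hM' h3
  exact hgoal

end Pool.Agent.GapTwo
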