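import Pool.Agent.Work.MP_1ea053_nt.Interface

/-!
# Block K5, part A: Cauchy-Schwarz, expansion of the square, splitting of the off-diagonal sum
-/

set_option autoImplicit false

namespace Pool.Agent.GapTwo.K5_

open Finset Filter Pool.Agent.GapTwo
open scoped Classical Topology

theorem no_common {A₁ A₂ : ℕ} (h : SamePr A₁ A₂) {p n : ℕ} (hp : p.Prime)
    (h1 : p ∣ A₁ * n + 1) (h2 : p ∣ A₂ * n + 1) : False := by
  have h3 : (p : ℤ) ∣ (A₁ : ℤ) - A₂ := by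
    have h4 : (p : ℤ) ∣ (A₁ : ℤ) * n + 1 := by exact_mod_cast h1
    have h5 : (p : ℤ) ∣ (A₂ : ℤ) * n + 1 := by exact_mod_cast h2
    have h6 : (A₁ : ℤ) - A₂ = A₁ * ((A₂ : ℤ) * n + 1) - A₂ * ((A₁ : ℤ) * n + 1) := by ring
    rw [h6]
    exact dvd_sub (Dvd.dvd.mul_left h5 _) (Dvd.dvd.mul_left h4 _)
  have h4 : p ∣ A₁ := h.2.2.2.2 p hp h3
  have h5 : p ∣ 1 := (Nat.dvd_add_right (Dvd.dvd.mul_right h4 n)).1 h1
  exact hp.one_lt.ne' (Nat.dvd_one.1 h5)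

theorem cop {A₁ A₂ : ℕ} (h : SamePr A₁ A₂) {d e n : ℕ}
    (h1 : d ∣ A₁ * n + 1) (h2 : e ∣ A₂ * n + 1) : d.Coprime e := by
  by_contra hc
  obtain ⟨p, hp, hpd, hpe⟩ := Nat.Prime.not_coprime_iff_dvd.1 hc
  exact no_common h hp (hpd.trans h1) (hpe.trans h2)

theorem copA {A d n : ℕ} (h1 : d ∣ A * n + 1) : d.Coprime A := by
  by_contra hc
  obtain ⟨p, hp, hpd, hpe⟩ := Nat.Prime.not_coprime_iff_dvd.1 hc
  have h5 : p ∣ 1 := (Nat.dvd_add_right (Dvd.dvd.mul_right hpe n)).1 (hpd.trans h1)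
  exact hp.one_lt.ne' (Nat.dvd_one.1 h5)

theorem diff_dvd {A d n n' : ℕ} (h1 : d ∣ A * n + 1) (h2 : d ∣ A * n' + 1) :
    d ∣ n' - n := by
  have h3 : d ∣ (A * n' + 1) - (A * n + 1) := Nat.dvd_sub h2 h1
  have h4 : (A * n' + 1) - (A * n + 1) = A * (n' - n) := by
    rw [Nat.mul_sub]; omega
  rw [h4] at h3
  exact (copA h1).dvd_of_dvd_mul_left h3

theorem exists_t {A₁ A₂ : ℕ} (h : SamePr A₁ A₂) {d e n n' : ℕ} (hn : n < n')
    (h1 : d ∣ A₁ * n + 1) (h2 : e ∣ A₂ * n + 1) (h1' : d ∣ A₁ * n' + 1)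
    (h2' : e ∣ A₂ * n' + 1) : ∃ t, 0 < t ∧ n' = n + d * e * t := by
  have h3 := diff_dvd h1 h1'
  have h4 := diff_dvd h2 h2'
  obtain ⟨t, ht⟩ := (cop h h1 h2).mul_dvd_of_dvd_of_dvd h3 h4
  refine ⟨t, ?_, by omega⟩
  rcases Nat.eq_zero_or_pos t with h5 | h5
  · rw [h5] at ht; simp at ht; omega
  · exact h5

theorem sq_expand (S : Finset ℕ) (f : ℕ → ℝ) :
    (∑ n ∈ S, f n) ^ 2 = ∑ n ∈ S, f n ^ 2 +
      2 * ∑ n ∈ S, ∑ n' ∈ S.filter (fun n' => n < n'), f n * f n' := by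
  have h1 : (∑ n ∈ S, f n) ^ 2 = ∑ n ∈ S, ∑ n' ∈ S, f n * f n' := by
    rw [sq, Finset.sum_mul_sum]
  have h2 : ∀ n ∈ S, ∑ n' ∈ S, f n * f n' = f n ^ 2 +
      ∑ n' ∈ S.filter (fun n' => n < n'), f n * f n' +
      ∑ n' ∈ S.filter (fun n' => n' < n), f n * f n' := by
    intro n hn
    have h3 : f n ^ 2 = ∑ n' ∈ S, if n' = n then f n * f n' else 0 := by
      rw [Finset.sum_ite_eq' S n (fun n' => f n * f n')]
      simp [hn, sq]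
    rw [h3, Finset.sum_filter, Finset.sum_filter, ← Finset.sum_add_distrib,
      ← Finset.sum_add_distrib]
    refine Finset.sum_congr rfl fun n' _ => ?_
    rcases lt_trichotomy n' n with h | h | h
    · simp [h, h.ne, h.not_gt]
    · simp [h]
    · simp [h, h.ne', h.not_gt]
  have h3 : ∑ n ∈ S, ∑ n' ∈ S.filter (fun n' => n' < n), f n * f n' =
      ∑ n ∈ S, ∑ n' ∈ S.filter (fun n' => n < n'), f n * f n' := by
    simp_rw [Finset.sum_filter]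
    rw [Finset.sum_comm]
    refine Finset.sum_congr rfl fun n _ => Finset.sum_congr rfl fun n' _ => ?_
    rw [mul_comm (f n') (f n)]
  rw [h1, Finset.sum_congr rfl h2, Finset.sum_add_distrib, Finset.sum_add_distrib, h3]
  ring

theorem pair_sum {A₁ A₂ : ℕ} (h : SamePr A₁ A₂) (I : Finset ℕ) {d e : ℕ} (hd : 0 < d)
    (he : 0 < e) (g : ℕ → ℝ) (n : ℕ) (h1 : d ∣ A₁ * n + 1) (h2 : e ∣ A₂ * n + 1) :
    ∑ n' ∈ (I.filter (fun n => d ∣ A₁ * n + 1 ∧ e ∣ A₂ * n + 1)).filter (fun n' => n < n'), g n' =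
    ∑ t ∈ (Icc 1 (I.sup id)).filter (fun t => n + d * e * t ∈ I), g (n + d * e * t) := by
  symm
  have hde : 0 < d * e := Nat.mul_pos hd he
  refine Finset.sum_nbij (fun t => n + d * e * t) ?_ ?_ ?_ ?_
  · intro t ht
    simp only [Finset.mem_filter, Finset.mem_Icc] at ht ⊢
    refine ⟨⟨ht.2, ?_, ?_⟩, ?_⟩
    · have : A₁ * (n + d * e * t) + 1 = (A₁ * n + 1) + d * (A₁ * e * t) := by ring
      rw [this]; exact (Nat.dvd_add_right h1).2 (Dvd.intro _ rfl)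
    · have : A₂ * (n + d * e * t) + 1 = (A₂ * n + 1) + e * (A₂ * d * t) := by ring
      rw [this]; exact (Nat.dvd_add_right h2).2 (Dvd.intro _ rfl)
    · have : 0 < d * e * t := Nat.mul_pos hde (by omega)
      omega
  · intro t _ t' _ htt
    simp only at htt
    have : d * e * t = d * e * t' := by omega
    exact Nat.eq_of_mul_eq_mul_left hde this
  · intro n' hn'
    simp only [Finset.coe_filter, Finset.mem_filter, Set.mem_ofPred_eq, Set.mem_image,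
      Finset.mem_Icc] at hn' ⊢
    obtain ⟨t, ht, hn''⟩ := exists_t h hn'.2 h1 h2 hn'.1.2.1 hn'.1.2.2
    refine ⟨t, ⟨⟨ht, ?_⟩, ?_⟩, hn''.symm⟩
    · have h5 : n' ≤ I.sup id := Finset.le_sup (f := id) hn'.1.1
      have h6 : t ≤ d * e * t := Nat.le_mul_of_pos_left t hde
      omega
    · rw [← hn'']; exact hn'.1.1
  · intro t _; rfl

theorem sum_QQ (A₁ A₂ : ℕ) (I : Finset ℕ) (D E : ℝ) (g : ℕ → ℕ → ℕ → ℕ → ℝ) :
    ∑ x ∈ QQ A₁ A₂ I D E, g x.1 x.2.1 x.2.2.1 x.2.2.2 =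
    ∑ d ∈ Ioc ⌊D⌋₊ ⌊2 * D⌋₊, ∑ e ∈ Ioc ⌊E⌋₊ ⌊2 * E⌋₊,
      ∑ n ∈ I.filter (fun n => d ∣ A₁ * n + 1 ∧ e ∣ A₂ * n + 1),
        ∑ t ∈ (Icc 1 (I.sup id)).filter (fun t => n + d * e * t ∈ I), g d e n t := by
  unfold QQ
  rw [Finset.sum_filter, Finset.sum_product]
  refine Finset.sum_congr rfl fun d _ => ?_
  rw [Finset.sum_product]
  refine Finset.sum_congr rfl fun e _ => ?_
  rw [Finset.sum_product, Finset.sum_filter]
  refine Finset.sum_congr rfl fun n _ => ?_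
  rw [Finset.sum_filter]
  by_cases h : d ∣ A₁ * n + 1 ∧ e ∣ A₂ * n + 1
  · simp only [h.1, h.2, true_and, and_self, if_true]
  · rw [if_neg h]
    refine Finset.sum_eq_zero fun t _ => ?_
    rw [if_neg]
    rintro ⟨h1, h2, _⟩
    exact h ⟨h1, h2⟩

theorem expand {A₁ A₂ : ℕ} (h : SamePr A₁ A₂) (I : Finset ℕ) (D E : ℝ) (f : ℕ → ℕ → ℝ) :
    ∑ d ∈ Ioc ⌊D⌋₊ ⌊2 * D⌋₊, ∑ e ∈ Ioc ⌊E⌋₊ ⌊2 * E⌋₊,
      (∑ n ∈ I.filter (fun n => d ∣ A₁ * n + 1 ∧ e ∣ A₂ * n + 1), f d n) ^ 2 =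
    ∑ d ∈ Ioc ⌊D⌋₊ ⌊2 * D⌋₊, ∑ e ∈ Ioc ⌊E⌋₊ ⌊2 * E⌋₊,
      ∑ n ∈ I.filter (fun n => d ∣ A₁ * n + 1 ∧ e ∣ A₂ * n + 1), f d n ^ 2 +
    2 * ∑ x ∈ QQ A₁ A₂ I D E, f x.1 x.2.2.1 * f x.1 (nt x) := by
  have h1 := sum_QQ A₁ A₂ I D E (fun d e n t => f d n * f d (n + d * e * t))
  have h2 : ∑ x ∈ QQ A₁ A₂ I D E, f x.1 x.2.2.1 * f x.1 (nt x) =
      ∑ x ∈ QQ A₁ A₂ I D E, (fun d e n t => f d n * f d (n + d * e * t)) x.1 x.2.1 x.2.2.1
        x.2.2.2 := Finset.sum_congr rfl fun x _ => rfl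
  rw [h2, h1]
  simp_rw [sq_expand]
  rw [Finset.mul_sum, ← Finset.sum_add_distrib]
  refine Finset.sum_congr rfl fun d hd => ?_
  rw [Finset.mul_sum, ← Finset.sum_add_distrib]
  refine Finset.sum_congr rfl fun e he => ?_
  have hd0 : 0 < d := lt_of_le_of_lt (Nat.zero_le _) (Finset.mem_Ioc.1 hd).1
  have he0 : 0 < e := lt_of_le_of_lt (Nat.zero_le _) (Finset.mem_Ioc.1 he).1
  congr 2
  refine Finset.sum_congr rfl fun n hn => ?_
  rw [Finset.mem_filter] at hn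
  exact pair_sum h I hd0 he0 (fun n' => f d n * f d n') n hn.2.1 hn.2.2

/-- Cauchy-Schwarz with bounded coefficients. -/
theorem cs (A B : Finset ℕ) (α γ : ℕ → ℝ) (hα : ∀ d, |α d| ≤ 1) (hγ : ∀ d, |γ d| ≤ 1)
    (T : ℕ → ℕ → ℝ) :
    (∑ d ∈ A, ∑ e ∈ B, α d * γ e * T d e) ^ 2 ≤
      (A.card : ℝ) * B.card * ∑ d ∈ A, ∑ e ∈ B, T d e ^ 2 := by
  have h1 : ∑ d ∈ A, ∑ e ∈ B, α d * γ e * T d e =
      ∑ p ∈ A ×ˢ B, α p.1 * γ p.2 * T p.1 p.2 := by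
    rw [Finset.sum_product]
  have h2 : ∑ d ∈ A, ∑ e ∈ B, T d e ^ 2 = ∑ p ∈ A ×ˢ B, T p.1 p.2 ^ 2 := by
    rw [Finset.sum_product]
  rw [h1, h2]
  have h3 := sq_sum_le_card_mul_sum_sq (s := A ×ˢ B)
    (f := fun p => α p.1 * γ p.2 * T p.1 p.2)
  rw [Finset.card_product] at h3
  push_cast at h3
  refine h3.trans ?_
  refine mul_le_mul_of_nonneg_left ?_ (by positivity)
  refine Finset.sum_le_sum fun p _ => ?_
  have h4 : (α p.1 * γ p.2 * T p.1 p.2) ^ 2 = (α p.1 ^ 2 * γ p.2 ^ 2) * T p.1 p.2 ^ 2 := by ring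
  rw [h4]
  have h5 : α p.1 ^ 2 ≤ 1 := by
    have := hα p.1; rw [← sq_abs]; nlinarith [abs_nonneg (α p.1)]
  have h6 : γ p.2 ^ 2 ≤ 1 := by
    have := hγ p.2; rw [← sq_abs]; nlinarith [abs_nonneg (γ p.2)]
  have h7 : α p.1 ^ 2 * γ p.2 ^ 2 ≤ 1 := by nlinarith [sq_nonneg (α p.1), sq_nonneg (γ p.2)]
  nlinarith [sq_nonneg (T p.1 p.2)]

/-- A double sum over divisors. -/
theorem diag_bound (I A B : Finset ℕ) (A₁ A₂ : ℕ) (f : ℕ → ℕ → ℝ) (T F : ℝ) (hT0 : 0 ≤ T)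
    (hT1 : ∀ n ∈ I, ((A₁ * n + 1).divisors.card : ℝ) ≤ T)
    (hT2 : ∀ n ∈ I, ((A₂ * n + 1).divisors.card : ℝ) ≤ T)
    (hf0 : ∀ d n, 0 ≤ f d n) (hF : 0 ≤ F)
    (hf : ∀ d n, n ∈ I → d ∣ A₁ * n + 1 → f d n ≤ F) :
    ∑ d ∈ A, ∑ e ∈ B, ∑ n ∈ I.filter (fun n => d ∣ A₁ * n + 1 ∧ e ∣ A₂ * n + 1), f d n ≤
      (I.card : ℝ) * (T * T * F) := by
  have h1 : ∑ d ∈ A, ∑ e ∈ B, ∑ n ∈ I.filter (fun n => d ∣ A₁ * n + 1 ∧ e ∣ A₂ * n + 1), f d n =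
      ∑ n ∈ I, ∑ d ∈ A, ∑ e ∈ B, if d ∣ A₁ * n + 1 ∧ e ∣ A₂ * n + 1 then f d n else 0 := by
    simp_rw [Finset.sum_filter]
    have : ∀ d ∈ A, ∑ e ∈ B, ∑ n ∈ I, (if d ∣ A₁ * n + 1 ∧ e ∣ A₂ * n + 1 then f d n else 0) =
        ∑ n ∈ I, ∑ e ∈ B, (if d ∣ A₁ * n + 1 ∧ e ∣ A₂ * n + 1 then f d n else 0) :=
      fun d _ => Finset.sum_comm
    rw [Finset.sum_congr rfl this, Finset.sum_comm]
  rw [h1]
  have h2 : ∀ n ∈ I, ∑ d ∈ A, ∑ e ∈ B, (if d ∣ A₁ * n + 1 ∧ e ∣ A₂ * n + 1 then f d n else 0) ≤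
      T * T * F := by
    intro n hn
    have h3 : ∀ d ∈ A, ∑ e ∈ B, (if d ∣ A₁ * n + 1 ∧ e ∣ A₂ * n + 1 then f d n else 0) ≤
        if d ∣ A₁ * n + 1 then T * F else 0 := by
      intro d _
      by_cases hd : d ∣ A₁ * n + 1
      · simp only [hd, true_and, if_true]
        rw [← Finset.sum_filter]
        calc ∑ e ∈ B.filter (fun e => e ∣ A₂ * n + 1), f d n
            ≤ ∑ e ∈ (A₂ * n + 1).divisors, f d n := by
              refine Finset.sum_le_sum_of_subset_of_nonneg ?_ fun _ _ _ => hf0 d n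
              intro e he
              rw [Finset.mem_filter] at he
              exact Nat.mem_divisors.2 ⟨he.2, by omega⟩
          _ = ((A₂ * n + 1).divisors.card : ℝ) * f d n := by
              rw [Finset.sum_const, nsmul_eq_mul]
          _ ≤ T * F := mul_le_mul (hT2 n hn) (hf d n hn hd) (hf0 d n) hT0
      · simp [hd]
    refine (Finset.sum_le_sum h3).trans ?_
    rw [← Finset.sum_filter]
    calc ∑ d ∈ A.filter (fun d => d ∣ A₁ * n + 1), T * F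
        ≤ ∑ d ∈ (A₁ * n + 1).divisors, T * F := by
          refine Finset.sum_le_sum_of_subset_of_nonneg ?_ fun _ _ _ => by positivity
          intro d hd
          rw [Finset.mem_filter] at hd
          exact Nat.mem_divisors.2 ⟨hd.2, by omega⟩
      _ = ((A₁ * n + 1).divisors.card : ℝ) * (T * F) := by
          rw [Finset.sum_const, nsmul_eq_mul]
      _ ≤ T * (T * F) := mul_le_mul_of_nonneg_right (hT1 n hn) (by positivity)
      _ = T * T * F := by ring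
  refine (Finset.sum_le_sum h2).trans ?_
  rw [Finset.sum_const, nsmul_eq_mul]

/-- The bracket sums. -/
theorem bracket (z D₂ : ℝ) (hD₂ : 1 ≤ D₂) (k : ℕ) (hk : 0 < k) :
    ∑ d ∈ RG z D₂, |(if d ∣ k then (1 : ℝ) else 0) - 1 / (d : ℝ)| ≤
      (k.divisors.card : ℝ) + (1 + Real.log D₂) := by
  calc ∑ d ∈ RG z D₂, |(if d ∣ k then (1 : ℝ) else 0) - 1 / (d : ℝ)|
      ≤ ∑ d ∈ Icc 1 ⌊D₂⌋₊, |(if d ∣ k then (1 : ℝ) else 0) - 1 / (d : ℝ)| := by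
        refine Finset.sum_le_sum_of_subset_of_nonneg (Finset.filter_subset _ _) ?_
        intro _ _ _; positivity
    _ ≤ ∑ d ∈ Icc 1 ⌊D₂⌋₊, ((if d ∣ k then (1 : ℝ) else 0) + 1 / (d : ℝ)) := by
        refine Finset.sum_le_sum fun d _ => ?_
        have h1 : (0 : ℝ) ≤ 1 / (d : ℝ) := by positivity
        have h2 : (0 : ℝ) ≤ (if d ∣ k then (1 : ℝ) else 0) := by split_ifs <;> norm_num
        rw [abs_le]; constructor <;> linarith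
    _ = ∑ d ∈ Icc 1 ⌊D₂⌋₊, (if d ∣ k then (1 : ℝ) else 0) + ∑ d ∈ Icc 1 ⌊D₂⌋₊, 1 / (d : ℝ) :=
        Finset.sum_add_distrib
    _ ≤ (k.divisors.card : ℝ) + (1 + Real.log D₂) := by
        refine add_le_add ?_ ?_
        · rw [← Finset.sum_filter, Finset.sum_const, nsmul_eq_mul, mul_one]
          refine Nat.cast_le.2 (Finset.card_le_card ?_)
          intro d hd
          rw [Finset.mem_filter] at hd
          exact Nat.mem_divisors.2 ⟨hd.2, hk.ne'⟩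
        · have h3 := harmonic_floor_le_one_add_log D₂ hD₂
          have h4 : ((harmonic ⌊D₂⌋₊ : ℚ) : ℝ) = ∑ d ∈ Icc 1 ⌊D₂⌋₊, 1 / (d : ℝ) := by
            rw [harmonic_eq_sum_Icc]; push_cast
            exact Finset.sum_congr rfl fun d _ => by rw [one_div]
          rw [← h4]; exact h3

end Pool.Agent.GapTwo.K5_
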