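import Pool.Agent.Work.MP_1ea053_nt.K5A

/-!
# Block K5, part B: splitting of the off-diagonal sum
-/

set_option autoImplicit false

namespace Pool.Agent.GapTwo.K5_

open Finset Filter Pool.Agent.GapTwo
open scoped Classical Topology

theorem abs_split {X σ : Type} (Q : Finset X) (R : Finset ℕ) (β : ℕ → ℝ) (hβ : ∀ d, |β d| ≤ 1)
    (b1 b2 u1 u2 : X → ℕ → ℝ) (hb1 : ∀ x d, |b1 x d| ≤ u1 x d) (hb2 : ∀ x d, |b2 x d| ≤ u2 x d)
    (nd : X → ℕ → ℕ → Prop) (J : Finset σ) (c : σ → ℝ) (a1 a2 : σ → X → Prop)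
    (gd : σ → σ → X → Prop) (P K G B F Cs : ℝ) (hP : 0 ≤ P) (hF : 0 ≤ F) (hG : 0 ≤ G)
    (hB0 : 0 ≤ B)
    (h1 : ∀ x ∈ Q, |∑ j ∈ J, if a1 j x then c j else 0| ≤ P)
    (h2 : ∀ x ∈ Q, |∑ j ∈ J, if a2 j x then c j else 0| ≤ P)
    (hCs : ∑ j ∈ J, |c j| ≤ Cs)
    (hK : ∑ d ∈ R, ∑ d' ∈ R, ∑ x ∈ Q.filter (fun x => ¬ nd x d d'), u1 x d * u2 x d' ≤ K)
    (hKG : ∀ j ∈ J, ∀ j' ∈ J, |∑ d ∈ R, ∑ d' ∈ R, β d * β d' *
      ∑ x ∈ Q.filter (fun x => nd x d d' ∧ gd j j' x ∧ a1 j x ∧ a2 j' x),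
        b1 x d * b2 x d'| ≤ G)
    (hB : ∀ j ∈ J, ∀ j' ∈ J, ((Q.filter (fun x => ¬ gd j j' x)).card : ℝ) ≤ B)
    (hF1 : ∀ x ∈ Q, ∑ d ∈ R, |b1 x d| ≤ F) (hF2 : ∀ x ∈ Q, ∑ d ∈ R, |b2 x d| ≤ F) :
    |∑ x ∈ Q, ((∑ j ∈ J, if a1 j x then c j else 0) * ∑ d ∈ R, β d * b1 x d) *
      ((∑ j ∈ J, if a2 j x then c j else 0) * ∑ d ∈ R, β d * b2 x d)| ≤
    P ^ 2 * K + Cs ^ 2 * (G + F ^ 2 * B) := by
  set o1 : X → ℝ := fun x => ∑ j ∈ J, if a1 j x then c j else 0 with ho1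
  set o2 : X → ℝ := fun x => ∑ j ∈ J, if a2 j x then c j else 0 with ho2
  have hu1 : ∀ x d, 0 ≤ u1 x d := fun x d => (abs_nonneg _).trans (hb1 x d)
  have hu2 : ∀ x d, 0 ≤ u2 x d := fun x d => (abs_nonneg _).trans (hb2 x d)
  have hββ : ∀ p : ℕ × ℕ, |β p.1 * β p.2| ≤ 1 := fun p => by
    rw [abs_mul]
    nlinarith [hβ p.1, hβ p.2, abs_nonneg (β p.1), abs_nonneg (β p.2)]
  -- step a
  have ha : ∑ x ∈ Q, (o1 x * ∑ d ∈ R, β d * b1 x d) * (o2 x * ∑ d ∈ R, β d * b2 x d) =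
      ∑ p ∈ R ×ˢ R, ∑ x ∈ Q, (β p.1 * β p.2) * (b1 x p.1 * b2 x p.2) * (o1 x * o2 x) := by
    rw [Finset.sum_comm]
    refine Finset.sum_congr rfl fun x _ => ?_
    rw [Finset.sum_product]
    have h3 : (o1 x * ∑ d ∈ R, β d * b1 x d) * (o2 x * ∑ d ∈ R, β d * b2 x d) =
        ((∑ d ∈ R, β d * b1 x d) * (∑ d ∈ R, β d * b2 x d)) * (o1 x * o2 x) := by ring
    rw [h3, Finset.sum_mul_sum, Finset.sum_mul]
    refine Finset.sum_congr rfl fun d _ => ?_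
    rw [Finset.sum_mul]
    refine Finset.sum_congr rfl fun d' _ => ?_
    ring
  -- step b
  have hb : ∑ p ∈ R ×ˢ R, ∑ x ∈ Q, (β p.1 * β p.2) * (b1 x p.1 * b2 x p.2) * (o1 x * o2 x) =
      ∑ p ∈ R ×ˢ R, ∑ x ∈ Q.filter (fun x => nd x p.1 p.2),
        (β p.1 * β p.2) * (b1 x p.1 * b2 x p.2) * (o1 x * o2 x) +
      ∑ p ∈ R ×ˢ R, ∑ x ∈ Q.filter (fun x => ¬ nd x p.1 p.2),
        (β p.1 * β p.2) * (b1 x p.1 * b2 x p.2) * (o1 x * o2 x) := by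
    rw [← Finset.sum_add_distrib]
    refine Finset.sum_congr rfl fun p _ => ?_
    rw [Finset.sum_filter_add_sum_filter_not]
  -- step c
  have hc : |∑ p ∈ R ×ˢ R, ∑ x ∈ Q.filter (fun x => ¬ nd x p.1 p.2),
        (β p.1 * β p.2) * (b1 x p.1 * b2 x p.2) * (o1 x * o2 x)| ≤ P ^ 2 * K := by
    calc |∑ p ∈ R ×ˢ R, ∑ x ∈ Q.filter (fun x => ¬ nd x p.1 p.2),
        (β p.1 * β p.2) * (b1 x p.1 * b2 x p.2) * (o1 x * o2 x)|
        ≤ ∑ p ∈ R ×ˢ R, |∑ x ∈ Q.filter (fun x => ¬ nd x p.1 p.2),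
          (β p.1 * β p.2) * (b1 x p.1 * b2 x p.2) * (o1 x * o2 x)| :=
          Finset.abs_sum_le_sum_abs _ _
      _ ≤ ∑ p ∈ R ×ˢ R, ∑ x ∈ Q.filter (fun x => ¬ nd x p.1 p.2),
          |(β p.1 * β p.2) * (b1 x p.1 * b2 x p.2) * (o1 x * o2 x)| :=
          Finset.sum_le_sum fun p _ => Finset.abs_sum_le_sum_abs _ _
      _ ≤ ∑ p ∈ R ×ˢ R, ∑ x ∈ Q.filter (fun x => ¬ nd x p.1 p.2),
          P ^ 2 * (u1 x p.1 * u2 x p.2) := by
          refine Finset.sum_le_sum fun p _ => Finset.sum_le_sum fun x hx => ?_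
          rw [Finset.mem_filter] at hx
          have e1 := h1 x hx.1
          have e2 := h2 x hx.1
          have e3 : |o1 x * o2 x| ≤ P ^ 2 := by
            rw [abs_mul, sq]
            exact mul_le_mul e1 e2 (abs_nonneg _) hP
          have e4 : |b1 x p.1 * b2 x p.2| ≤ u1 x p.1 * u2 x p.2 := by
            rw [abs_mul]
            exact mul_le_mul (hb1 _ _) (hb2 _ _) (abs_nonneg _) (hu1 _ _)
          rw [abs_mul, abs_mul]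
          calc |β p.1 * β p.2| * |b1 x p.1 * b2 x p.2| * |o1 x * o2 x|
              ≤ 1 * (u1 x p.1 * u2 x p.2) * P ^ 2 := by
                refine mul_le_mul (mul_le_mul (hββ p) e4 (abs_nonneg _) zero_le_one) e3
                  (abs_nonneg _) ?_
                rw [one_mul]; exact mul_nonneg (hu1 _ _) (hu2 _ _)
            _ = P ^ 2 * (u1 x p.1 * u2 x p.2) := by ring
      _ = P ^ 2 * ∑ p ∈ R ×ˢ R, ∑ x ∈ Q.filter (fun x => ¬ nd x p.1 p.2),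
          u1 x p.1 * u2 x p.2 := by
          rw [Finset.mul_sum]
          refine Finset.sum_congr rfl fun p _ => ?_
          rw [Finset.mul_sum]
      _ ≤ P ^ 2 * K := by
          refine mul_le_mul_of_nonneg_left ?_ (by positivity)
          rw [Finset.sum_product]
          exact hK
  -- step d
  have hd : ∑ p ∈ R ×ˢ R, ∑ x ∈ Q.filter (fun x => nd x p.1 p.2),
        (β p.1 * β p.2) * (b1 x p.1 * b2 x p.2) * (o1 x * o2 x) =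
      ∑ q ∈ J ×ˢ J, (c q.1 * c q.2) * ∑ p ∈ R ×ˢ R, (β p.1 * β p.2) *
        ∑ x ∈ Q.filter (fun x => nd x p.1 p.2 ∧ a1 q.1 x ∧ a2 q.2 x), b1 x p.1 * b2 x p.2 := by
    have e1 : ∀ x, o1 x * o2 x = ∑ q ∈ J ×ˢ J,
        if a1 q.1 x ∧ a2 q.2 x then c q.1 * c q.2 else 0 := by
      intro x
      rw [ho1, ho2, Finset.sum_product]
      simp only
      rw [Finset.sum_mul_sum]
      refine Finset.sum_congr rfl fun j _ => Finset.sum_congr rfl fun j' _ => ?_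
      by_cases k1 : a1 j x <;> by_cases k2 : a2 j' x <;> simp [k1, k2]
    have e2 : ∑ p ∈ R ×ˢ R, ∑ x ∈ Q.filter (fun x => nd x p.1 p.2),
        (β p.1 * β p.2) * (b1 x p.1 * b2 x p.2) * (o1 x * o2 x) =
        ∑ p ∈ R ×ˢ R, ∑ x ∈ Q, ∑ q ∈ J ×ˢ J,
          if nd x p.1 p.2 ∧ a1 q.1 x ∧ a2 q.2 x then
            (c q.1 * c q.2) * ((β p.1 * β p.2) * (b1 x p.1 * b2 x p.2)) else 0 := by
      refine Finset.sum_congr rfl fun p _ => ?_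
      rw [Finset.sum_filter]
      refine Finset.sum_congr rfl fun x _ => ?_
      by_cases k : nd x p.1 p.2
      · simp only [k, if_true, true_and]
        rw [e1, Finset.mul_sum]
        refine Finset.sum_congr rfl fun q _ => ?_
        split_ifs
        · ring
        · ring
      · simp [k]
    rw [e2]
    have e3 : ∀ p ∈ R ×ˢ R, ∑ x ∈ Q, ∑ q ∈ J ×ˢ J,
          (if nd x p.1 p.2 ∧ a1 q.1 x ∧ a2 q.2 x then
            (c q.1 * c q.2) * ((β p.1 * β p.2) * (b1 x p.1 * b2 x p.2)) else 0) =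
          ∑ q ∈ J ×ˢ J, ∑ x ∈ Q, (if nd x p.1 p.2 ∧ a1 q.1 x ∧ a2 q.2 x then
            (c q.1 * c q.2) * ((β p.1 * β p.2) * (b1 x p.1 * b2 x p.2)) else 0) :=
      fun p _ => Finset.sum_comm
    rw [Finset.sum_congr rfl e3, Finset.sum_comm]
    refine Finset.sum_congr rfl fun q _ => ?_
    rw [Finset.mul_sum]
    refine Finset.sum_congr rfl fun p _ => ?_
    rw [← Finset.sum_filter, ← Finset.mul_sum, ← Finset.mul_sum]
  -- step e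
  have he : ∀ q ∈ J ×ˢ J, |∑ p ∈ R ×ˢ R, (β p.1 * β p.2) *
        ∑ x ∈ Q.filter (fun x => nd x p.1 p.2 ∧ a1 q.1 x ∧ a2 q.2 x), b1 x p.1 * b2 x p.2| ≤
      G + F ^ 2 * B := by
    intro q hq
    rw [Finset.mem_product] at hq
    have e1 : ∑ p ∈ R ×ˢ R, (β p.1 * β p.2) *
        ∑ x ∈ Q.filter (fun x => nd x p.1 p.2 ∧ a1 q.1 x ∧ a2 q.2 x), b1 x p.1 * b2 x p.2 =
        ∑ p ∈ R ×ˢ R, (β p.1 * β p.2) *
          ∑ x ∈ Q.filter (fun x => nd x p.1 p.2 ∧ gd q.1 q.2 x ∧ a1 q.1 x ∧ a2 q.2 x),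
            b1 x p.1 * b2 x p.2 +
        ∑ p ∈ R ×ˢ R, (β p.1 * β p.2) *
          ∑ x ∈ Q.filter (fun x => nd x p.1 p.2 ∧ ¬ gd q.1 q.2 x ∧ a1 q.1 x ∧ a2 q.2 x),
            b1 x p.1 * b2 x p.2 := by
      rw [← Finset.sum_add_distrib]
      refine Finset.sum_congr rfl fun p _ => ?_
      rw [← mul_add]
      congr 1
      simp_rw [Finset.sum_filter]
      rw [← Finset.sum_add_distrib]
      refine Finset.sum_congr rfl fun x _ => ?_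
      by_cases k1 : nd x p.1 p.2 <;> by_cases k2 : gd q.1 q.2 x <;> by_cases k3 : a1 q.1 x <;>
        by_cases k4 : a2 q.2 x <;> simp [k1, k2, k3, k4]
    rw [e1]
    refine (abs_add_le _ _).trans (add_le_add ?_ ?_)
    · have := hKG q.1 hq.1 q.2 hq.2
      rw [Finset.sum_product]
      exact this
    · calc |∑ p ∈ R ×ˢ R, (β p.1 * β p.2) *
          ∑ x ∈ Q.filter (fun x => nd x p.1 p.2 ∧ ¬ gd q.1 q.2 x ∧ a1 q.1 x ∧ a2 q.2 x),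
            b1 x p.1 * b2 x p.2|
          ≤ ∑ p ∈ R ×ˢ R, |(β p.1 * β p.2) *
            ∑ x ∈ Q.filter (fun x => nd x p.1 p.2 ∧ ¬ gd q.1 q.2 x ∧ a1 q.1 x ∧ a2 q.2 x),
              b1 x p.1 * b2 x p.2| := Finset.abs_sum_le_sum_abs _ _
        _ ≤ ∑ p ∈ R ×ˢ R, ∑ x ∈ Q.filter (fun x => ¬ gd q.1 q.2 x),
              |b1 x p.1| * |b2 x p.2| := by
            refine Finset.sum_le_sum fun p _ => ?_
            rw [abs_mul]
            calc |β p.1 * β p.2| * |∑ x ∈ Q.filter (fun x => nd x p.1 p.2 ∧ ¬ gd q.1 q.2 x ∧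
                  a1 q.1 x ∧ a2 q.2 x), b1 x p.1 * b2 x p.2|
                ≤ 1 * ∑ x ∈ Q.filter (fun x => nd x p.1 p.2 ∧ ¬ gd q.1 q.2 x ∧
                  a1 q.1 x ∧ a2 q.2 x), |b1 x p.1 * b2 x p.2| :=
                  mul_le_mul (hββ p) (Finset.abs_sum_le_sum_abs _ _) (abs_nonneg _) zero_le_one
              _ ≤ ∑ x ∈ Q.filter (fun x => ¬ gd q.1 q.2 x), |b1 x p.1| * |b2 x p.2| := by
                  rw [one_mul]
                  simp_rw [abs_mul]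
                  refine Finset.sum_le_sum_of_subset_of_nonneg ?_ fun _ _ _ => by positivity
                  intro x hx
                  rw [Finset.mem_filter] at hx ⊢
                  exact ⟨hx.1, hx.2.2.1⟩
        _ = ∑ x ∈ Q.filter (fun x => ¬ gd q.1 q.2 x),
              (∑ d ∈ R, |b1 x d|) * (∑ d ∈ R, |b2 x d|) := by
            rw [Finset.sum_comm]
            refine Finset.sum_congr rfl fun x _ => ?_
            rw [Finset.sum_product, Finset.sum_mul_sum]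
        _ ≤ ∑ x ∈ Q.filter (fun x => ¬ gd q.1 q.2 x), F * F := by
            refine Finset.sum_le_sum fun x hx => ?_
            rw [Finset.mem_filter] at hx
            refine mul_le_mul (hF1 x hx.1) (hF2 x hx.1) ?_ hF
            exact Finset.sum_nonneg fun _ _ => abs_nonneg _
        _ = ((Q.filter (fun x => ¬ gd q.1 q.2 x)).card : ℝ) * (F * F) := by
            rw [Finset.sum_const, nsmul_eq_mul]
        _ ≤ B * (F * F) := mul_le_mul_of_nonneg_right (hB q.1 hq.1 q.2 hq.2) (by positivity)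
        _ = F ^ 2 * B := by ring
  -- assembly
  have hgoal : |∑ x ∈ Q, (o1 x * ∑ d ∈ R, β d * b1 x d) * (o2 x * ∑ d ∈ R, β d * b2 x d)| ≤
      P ^ 2 * K + Cs ^ 2 * (G + F ^ 2 * B) := by
    rw [ha, hb, hd, add_comm]
    refine (abs_add_le _ _).trans (add_le_add hc ?_)
    have hGB : 0 ≤ G + F ^ 2 * B := by positivity
    calc |∑ q ∈ J ×ˢ J, (c q.1 * c q.2) * ∑ p ∈ R ×ˢ R, (β p.1 * β p.2) *
        ∑ x ∈ Q.filter (fun x => nd x p.1 p.2 ∧ a1 q.1 x ∧ a2 q.2 x), b1 x p.1 * b2 x p.2|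
        ≤ ∑ q ∈ J ×ˢ J, |(c q.1 * c q.2) * ∑ p ∈ R ×ˢ R, (β p.1 * β p.2) *
        ∑ x ∈ Q.filter (fun x => nd x p.1 p.2 ∧ a1 q.1 x ∧ a2 q.2 x), b1 x p.1 * b2 x p.2| :=
          Finset.abs_sum_le_sum_abs _ _
      _ ≤ ∑ q ∈ J ×ˢ J, (|c q.1| * |c q.2|) * (G + F ^ 2 * B) := by
          refine Finset.sum_le_sum fun q hq => ?_
          rw [abs_mul, abs_mul]
          exact mul_le_mul_of_nonneg_left (he q hq) (by positivity)
      _ = ((∑ j ∈ J, |c j|) * (∑ j ∈ J, |c j|)) * (G + F ^ 2 * B) := by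
          rw [← Finset.sum_mul, Finset.sum_product, Finset.sum_mul_sum]
      _ ≤ Cs ^ 2 * (G + F ^ 2 * B) := by
          refine mul_le_mul_of_nonneg_right ?_ hGB
          rw [sq]
          have h0 : 0 ≤ ∑ j ∈ J, |c j| := Finset.sum_nonneg fun _ _ => abs_nonneg _
          exact mul_le_mul hCs hCs h0 (h0.trans hCs)
  exact hgoal

theorem mem_QQ {A₁ A₂ : ℕ} {I : Finset ℕ} {D E : ℝ} {x : ℕ × ℕ × ℕ × ℕ}
    (hx : x ∈ QQ A₁ A₂ I D E) : x.2.2.1 ∈ I ∧ nt x ∈ I ∧ x.1 ∣ A₁ * x.2.2.1 + 1 ∧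
      x.2.1 ∣ A₂ * x.2.2.1 + 1 ∧ 0 < x.1 ∧ 0 < x.2.1 ∧ 0 < x.2.2.2 := by
  unfold QQ at hx
  simp only [Finset.mem_filter, Finset.mem_product, Finset.mem_Ioc, Finset.mem_Icc] at hx
  obtain ⟨⟨h1, h2, h3, h4⟩, h5, h6, h7⟩ := hx
  exact ⟨h3, h7, h5, h6, by omega, by omega, by omega⟩

/-- `A₁ n~ + 1 = d₁ ph'`. -/
theorem ph'_mul {A₁ A₂ : ℕ} {I : Finset ℕ} {D E : ℝ} {x : ℕ × ℕ × ℕ × ℕ}
    (hx : x ∈ QQ A₁ A₂ I D E) : A₁ * nt x + 1 = x.1 * ph' A₁ x := by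
  have h := (mem_QQ hx).2.2.1
  unfold ph' ph nt
  have h1 := Nat.mul_div_cancel' h
  calc A₁ * (x.2.2.1 + x.1 * x.2.1 * x.2.2.2) + 1
      = (A₁ * x.2.2.1 + 1) + x.1 * (A₁ * x.2.1 * x.2.2.2) := by ring
    _ = x.1 * ((A₁ * x.2.2.1 + 1) / x.1) + x.1 * (A₁ * x.2.1 * x.2.2.2) := by rw [h1]
    _ = _ := by ring

theorem ph_mul {A₁ A₂ : ℕ} {I : Finset ℕ} {D E : ℝ} {x : ℕ × ℕ × ℕ × ℕ}
    (hx : x ∈ QQ A₁ A₂ I D E) : A₁ * x.2.2.1 + 1 = x.1 * ph A₁ x := by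
  have h := (mem_QQ hx).2.2.1
  unfold ph
  exact (Nat.mul_div_cancel' h).symm

/-- The sum over `d₂`. -/
noncomputable def hh (A₁ : ℕ) (β : ℕ → ℝ) (D₂ : ℝ) (d n : ℕ) : ℝ :=
  ∑ d₂ ∈ Icc 1 ⌊D₂⌋₊, β d₂ * ((if d * d₂ ∣ A₁ * n + 1 then (1 : ℝ) else 0) - 1 / (d₂ : ℝ))

theorem hh_eq (A₁ : ℕ) (β : ℕ → ℝ) (z D₂ : ℝ) (hβ : Rough z β) (d n k : ℕ) (hd : 0 < d)
    (hk : A₁ * n + 1 = d * k) : hh A₁ β D₂ d n =
      ∑ d₂ ∈ RG z D₂, β d₂ * ((if d₂ ∣ k then (1 : ℝ) else 0) - 1 / (d₂ : ℝ)) := by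
  unfold hh RG
  rw [Finset.sum_filter]
  refine Finset.sum_congr rfl fun d₂ _ => ?_
  rw [hk]
  have h1 : d * d₂ ∣ d * k ↔ d₂ ∣ k := Nat.mul_dvd_mul_iff_left hd
  simp only [h1]
  by_cases h : β d₂ = 0
  · simp [h]
  · have h2 := hβ d₂ h
    exact (if_pos h2).symm

theorem hh_bound (A₁ : ℕ) (β : ℕ → ℝ) (hβ : ∀ d, |β d| ≤ 1) (z D₂ : ℝ) (hβr : Rough z β)
    (hD₂ : 1 ≤ D₂) (d n : ℕ) (hd : d ∣ A₁ * n + 1) :
    |hh A₁ β D₂ d n| ≤ ((A₁ * n + 1).divisors.card : ℝ) + (1 + Real.log D₂) := by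
  obtain ⟨k, hk⟩ := hd
  have hd0 : 0 < d := by
    rcases Nat.eq_zero_or_pos d with h | h
    · rw [h] at hk; simp at hk
    · exact h
  have hk0 : 0 < k := by
    rcases Nat.eq_zero_or_pos k with h | h
    · rw [h] at hk; simp at hk
    · exact h
  rw [hh_eq A₁ β z D₂ hβr d n k hd0 hk]
  calc |∑ d₂ ∈ RG z D₂, β d₂ * ((if d₂ ∣ k then (1 : ℝ) else 0) - 1 / (d₂ : ℝ))|
      ≤ ∑ d₂ ∈ RG z D₂, |β d₂ * ((if d₂ ∣ k then (1 : ℝ) else 0) - 1 / (d₂ : ℝ))| :=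
        Finset.abs_sum_le_sum_abs _ _
    _ ≤ ∑ d₂ ∈ RG z D₂, |(if d₂ ∣ k then (1 : ℝ) else 0) - 1 / (d₂ : ℝ)| := by
        refine Finset.sum_le_sum fun d₂ _ => ?_
        rw [abs_mul]
        exact mul_le_of_le_one_left (abs_nonneg _) (hβ d₂)
    _ ≤ (k.divisors.card : ℝ) + (1 + Real.log D₂) := bracket z D₂ hD₂ k hk0
    _ ≤ _ := by
        refine add_le_add ?_ le_rfl
        refine Nat.cast_le.2 (Finset.card_le_card ?_)
        refine Nat.divisors_subset_of_dvd (by omega) ?_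
        rw [hk]; exact Dvd.intro_left d rfl

theorem off_bound {A₁ A₂ : ℕ} (I : Finset ℕ) (D E z D₂ : ℝ) (β : ℕ → ℝ)
    (hβ : ∀ d, |β d| ≤ 1) (hβr : Rough z β) (hD₂ : 1 ≤ D₂)
    {σ : Type} (J : Finset σ) (c : σ → ℝ) (m b : σ → ℕ)
    (P K G B T Cs Y : ℝ) (hP : 0 ≤ P) (hG : 0 ≤ G) (hB0 : 0 ≤ B) (hT0 : 0 ≤ T)
    (hT1 : ∀ n ∈ I, ((A₁ * n + 1).divisors.card : ℝ) ≤ T) (hT2 : 1 + Real.log D₂ ≤ T)
    (hOm : ∀ n ∈ I, |Om J c m b n| ≤ P)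
    (hCs : ∑ j ∈ J, |c j| ≤ Cs)
    (hK : ∑ d₂ ∈ RG z D₂, ∑ d₂' ∈ RG z D₂,
      ∑ x ∈ (QQ A₁ A₂ I D E).filter (fun x => ¬ ND A₂ x d₂ d₂'),
        ((if d₂ ∣ ph A₁ x then (1 : ℝ) else 0) + 1 / d₂) *
        ((if d₂' ∣ ph' A₁ x then (1 : ℝ) else 0) + 1 / d₂') ≤ K)
    (hKG : ∀ j ∈ J, ∀ j' ∈ J, |∑ d₂ ∈ RG z D₂, ∑ d₂' ∈ RG z D₂, β d₂ * β d₂' *
      ∑ x ∈ (QQ A₁ A₂ I D E).filter (fun x => ND A₂ x d₂ d₂' ∧
        (badp (gq A₂ x) (m j * m j') : ℝ) ≤ Y ∧ x.2.2.1 ≡ b j [MOD m j] ∧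
          nt x ≡ b j' [MOD m j']),
      ((if d₂ ∣ ph A₁ x then (1 : ℝ) else 0) - 1 / d₂) *
      ((if d₂' ∣ ph' A₁ x then (1 : ℝ) else 0) - 1 / d₂')| ≤ G)
    (hB : ∀ j ∈ J, ∀ j' ∈ J, (((QQ A₁ A₂ I D E).filter
      (fun x => Y < (badp (gq A₂ x) (m j * m j') : ℝ))).card : ℝ) ≤ B) :
    |∑ x ∈ QQ A₁ A₂ I D E, (Om J c m b x.2.2.1 * hh A₁ β D₂ x.1 x.2.2.1) *
      (Om J c m b (nt x) * hh A₁ β D₂ x.1 (nt x))| ≤
    P ^ 2 * K + Cs ^ 2 * (G + (2 * T) ^ 2 * B) := by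
  have h0 : ∑ x ∈ QQ A₁ A₂ I D E, (Om J c m b x.2.2.1 * hh A₁ β D₂ x.1 x.2.2.1) *
      (Om J c m b (nt x) * hh A₁ β D₂ x.1 (nt x)) =
      ∑ x ∈ QQ A₁ A₂ I D E,
        ((∑ j ∈ J, if x.2.2.1 ≡ b j [MOD m j] then c j else 0) *
          ∑ d ∈ RG z D₂, β d * ((if d ∣ ph A₁ x then (1 : ℝ) else 0) - 1 / (d : ℝ))) *
        ((∑ j ∈ J, if nt x ≡ b j [MOD m j] then c j else 0) *
          ∑ d ∈ RG z D₂, β d * ((if d ∣ ph' A₁ x then (1 : ℝ) else 0) - 1 / (d : ℝ))) := by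
    refine Finset.sum_congr rfl fun x hx => ?_
    rw [hh_eq A₁ β z D₂ hβr x.1 x.2.2.1 _ (mem_QQ hx).2.2.2.2.1 (ph_mul hx),
      hh_eq A₁ β z D₂ hβr x.1 (nt x) _ (mem_QQ hx).2.2.2.2.1 (ph'_mul hx)]
    rfl
  rw [h0]
  have hle : ∀ (k d : ℕ), |(if d ∣ k then (1 : ℝ) else 0) - 1 / (d : ℝ)| ≤
      (if d ∣ k then (1 : ℝ) else 0) + 1 / (d : ℝ) := by
    intro k d
    have h1 : (0 : ℝ) ≤ 1 / (d : ℝ) := by positivity
    have h2 : (0 : ℝ) ≤ (if d ∣ k then (1 : ℝ) else 0) := by split_ifs <;> norm_num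
    rw [abs_le]; constructor <;> linarith
  have hbr : ∀ k n : ℕ, n ∈ I → k ∣ A₁ * n + 1 →
      ∑ d ∈ RG z D₂, |(if d ∣ k then (1 : ℝ) else 0) - 1 / (d : ℝ)| ≤ 2 * T := by
    intro k n hn hk
    have hk0 : 0 < k := Nat.pos_of_ne_zero (by rintro rfl; simp at hk)
    have h1 := bracket z D₂ hD₂ k hk0
    have h2 : (k.divisors.card : ℝ) ≤ T := by
      refine le_trans ?_ (hT1 n hn)
      exact Nat.cast_le.2 (Finset.card_le_card (Nat.divisors_subset_of_dvd (by omega) hk))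
    linarith
  have key := abs_split (QQ A₁ A₂ I D E) (RG z D₂) β hβ
    (fun x d => (if d ∣ ph A₁ x then (1 : ℝ) else 0) - 1 / (d : ℝ))
    (fun x d => (if d ∣ ph' A₁ x then (1 : ℝ) else 0) - 1 / (d : ℝ))
    (fun x d => (if d ∣ ph A₁ x then (1 : ℝ) else 0) + 1 / (d : ℝ))
    (fun x d => (if d ∣ ph' A₁ x then (1 : ℝ) else 0) + 1 / (d : ℝ))
    (fun x d => hle _ d) (fun x d => hle _ d)
    (fun x d d' => ND A₂ x d d') J c
    (fun j x => x.2.2.1 ≡ b j [MOD m j]) (fun j x => nt x ≡ b j [MOD m j])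
    (fun j j' x => (badp (gq A₂ x) (m j * m j') : ℝ) ≤ Y) P K G B (2 * T) Cs hP
    (by positivity) hG hB0
    (fun x hx => by
      have := hOm _ (mem_QQ hx).1
      unfold Om at this
      convert this)
    (fun x hx => by
      have := hOm _ (mem_QQ hx).2.1
      unfold Om at this
      convert this)
    hCs hK
    (fun j hj j' hj' => by
      have := hKG j hj j' hj'
      convert this)
    (fun j hj j' hj' => by
      have := hB j hj j' hj'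
      convert this using 5
      exact not_le)
    (fun x hx => hbr _ _ (mem_QQ hx).1 (by rw [ph_mul hx]; exact Dvd.intro_left _ rfl))
    (fun x hx => hbr _ _ (mem_QQ hx).2.1 (by rw [ph'_mul hx]; exact Dvd.intro_left _ rfl))
  convert key

end Pool.Agent.GapTwo.K5_
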