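import Pool.Agent.Work.MP_1ea053_nt.K5B
import Pool.Agent.Work.MP_1ea053_nt.Tool

/-!
# Block K5, part C: small `d₁`
-/

set_option autoImplicit false

namespace Pool.Agent.GapTwo.K5_

open Finset Filter Pool.Agent.GapTwo
open scoped Classical Topology

theorem exists_root {A d : ℕ} (hd : 0 < d) (h : A.Coprime d) :
    ∃ v, ∀ n, d ∣ A * n + 1 ↔ n ≡ v [MOD d] := by
  have : NeZero d := ⟨hd.ne'⟩
  set u : (ZMod d)ˣ := ZMod.unitOfCoprime A h with hu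
  refine ⟨(-((u⁻¹ : (ZMod d)ˣ) : ZMod d)).val, fun n => ?_⟩
  have huA : ((u : (ZMod d)ˣ) : ZMod d) = (A : ZMod d) := ZMod.coe_unitOfCoprime A h
  rw [← ZMod.natCast_eq_natCast_iff, ← ZMod.natCast_eq_zero_iff, ZMod.natCast_val, ZMod.cast_id]
  push_cast
  rw [← huA]
  constructor
  · intro h1
    have h2 : ((u⁻¹ : (ZMod d)ˣ) : ZMod d) * ((u : ZMod d) * n + 1) = 0 := by rw [h1, mul_zero]
    rw [mul_add, ← mul_assoc, Units.inv_mul, one_mul, mul_one] at h2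
    exact eq_neg_of_add_eq_zero_left h2
  · intro h1
    rw [h1, mul_neg, Units.mul_inv]; ring

theorem count (a b m d e A₁ A₂ v : ℕ) (hab : a ≤ b) (hm : 0 < m) (hd : 0 < d) (he : 0 < e)
    (h1 : m.Coprime d) (h2 : m.Coprime e) (h3 : d.Coprime e) (hA1 : A₁.Coprime d)
    (hA2 : A₂.Coprime e) :
    |(((Ioc a b).filter (fun n => (d ∣ A₁ * n + 1 ∧ e ∣ A₂ * n + 1) ∧ n ≡ v [MOD m])).card : ℝ) -
      ((b : ℝ) - a) / (m * d * e)| ≤ 1 := by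
  obtain ⟨v1, hv1⟩ := exists_root hd hA1
  obtain ⟨v2, hv2⟩ := exists_root he hA2
  have h12 : (m * d).Coprime e := Nat.Coprime.mul_left h2 h3
  obtain ⟨w, hw1, hw2⟩ := Nat.chineseRemainder h1 v v1
  obtain ⟨x, hx1, hx2⟩ := Nat.chineseRemainder h12 w v2
  have hset : (Ioc a b).filter (fun n => (d ∣ A₁ * n + 1 ∧ e ∣ A₂ * n + 1) ∧ n ≡ v [MOD m]) =
      (Ioc a b).filter (fun n => n ≡ x [MOD m * d * e]) := by
    refine Finset.filter_congr fun n _ => ?_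
    rw [hv1, hv2, ← Nat.modEq_and_modEq_iff_modEq_mul h12]
    constructor
    · rintro ⟨⟨k1, k2⟩, k3⟩
      refine ⟨?_, k2.trans hx2.symm⟩
      refine Nat.ModEq.trans ?_ hx1.symm
      exact (Nat.modEq_and_modEq_iff_modEq_mul h1).1 ⟨k3.trans hw1.symm, k1.trans hw2.symm⟩
    · rintro ⟨k1, k2⟩
      have k3 := (Nat.modEq_and_modEq_iff_modEq_mul h1).2 (k1.trans hx1)
      exact ⟨⟨k3.2.trans hw2, k2.trans hx2⟩, k3.1.trans hw1⟩
  rw [hset]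
  have hr : 0 < m * d * e := Nat.mul_pos (Nat.mul_pos hm hd) he
  have hcard := Nat.Ioc_filter_modEq_card a b hr x
  set q := m * d * e with hq
  have hq0 : (0 : ℝ) < q := by exact_mod_cast hr
  have hcardR : (((Ioc a b).filter (fun n => n ≡ x [MOD q])).card : ℝ) =
      ((max (⌊(b - x) / (q : ℚ)⌋ - ⌊(a - x) / (q : ℚ)⌋) 0 : ℤ) : ℝ) := by
    rw [← hcard]; push_cast; rfl
  have hmono : ⌊((a : ℚ) - x) / (q : ℚ)⌋ ≤ ⌊((b : ℚ) - x) / (q : ℚ)⌋ := by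
    refine Int.floor_le_floor ?_
    have hqQ : (0 : ℚ) < q := by exact_mod_cast hr
    have : (a : ℚ) ≤ b := by exact_mod_cast hab
    gcongr
  rw [max_eq_left (by linarith)] at hcardR
  rw [hcardR]
  have f1 : ((⌊((b : ℚ) - x) / (q : ℚ)⌋ : ℤ) : ℝ) ≤ ((b : ℝ) - x) / q := by
    have := Int.floor_le (((b : ℚ) - x) / (q : ℚ))
    have h5 : (((⌊((b : ℚ) - x) / (q : ℚ)⌋ : ℤ) : ℚ) : ℝ) ≤ ((((b : ℚ) - x) / (q : ℚ) : ℚ) : ℝ) := by
      exact_mod_cast this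
    push_cast at h5; exact h5
  have f2 : ((b : ℝ) - x) / q < ((⌊((b : ℚ) - x) / (q : ℚ)⌋ : ℤ) : ℝ) + 1 := by
    have := Int.lt_floor_add_one (((b : ℚ) - x) / (q : ℚ))
    have h5 : ((((b : ℚ) - x) / (q : ℚ) : ℚ) : ℝ) <
        ((((⌊((b : ℚ) - x) / (q : ℚ)⌋ : ℤ) : ℚ) + 1 : ℚ) : ℝ) := by
      exact_mod_cast this
    push_cast at h5; exact h5
  have f3 : ((⌊((a : ℚ) - x) / (q : ℚ)⌋ : ℤ) : ℝ) ≤ ((a : ℝ) - x) / q := by
    have := Int.floor_le (((a : ℚ) - x) / (q : ℚ))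
    have h5 : (((⌊((a : ℚ) - x) / (q : ℚ)⌋ : ℤ) : ℚ) : ℝ) ≤ ((((a : ℚ) - x) / (q : ℚ) : ℚ) : ℝ) := by
      exact_mod_cast this
    push_cast at h5; exact h5
  have f4 : ((a : ℝ) - x) / q < ((⌊((a : ℚ) - x) / (q : ℚ)⌋ : ℤ) : ℝ) + 1 := by
    have := Int.lt_floor_add_one (((a : ℚ) - x) / (q : ℚ))
    have h5 : ((((a : ℚ) - x) / (q : ℚ) : ℚ) : ℝ) <
        ((((⌊((a : ℚ) - x) / (q : ℚ)⌋ : ℤ) : ℚ) + 1 : ℚ) : ℝ) := by
      exact_mod_cast this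
    push_cast at h5; exact h5
  have f5 : ((b : ℝ) - a) / (m * d * e) = ((b : ℝ) - x) / q - ((a : ℝ) - x) / q := by
    rw [hq]; push_cast; ring
  rw [f5]
  push_cast
  rw [abs_le]
  constructor <;> linarith

theorem cop_of_rough {z : ℝ} {d k : ℕ} (h1 : ∀ p : ℕ, p.Prime → p ∣ d → z ≤ (p : ℝ))
    (h2 : ∀ p : ℕ, p.Prime → p ∣ k → (p : ℝ) < z) : d.Coprime k := by
  by_contra hc
  obtain ⟨p, hp, hpd, hpe⟩ := Nat.Prime.not_coprime_iff_dvd.1 hc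
  exact absurd (h1 p hp hpd) (not_le.2 (h2 p hp hpe))

theorem lt_of_small {z : ℝ} {A : ℕ} (hA : 0 < A) (hz : (A : ℝ) < z) :
    ∀ p : ℕ, p.Prime → p ∣ A → (p : ℝ) < z := fun _ _ hpA =>
  lt_of_le_of_lt (Nat.cast_le.2 (Nat.le_of_dvd hA hpA)) hz

theorem term_bound {A₁ A₂ : ℕ} (h : SamePr A₁ A₂) (a b : ℕ) (hab : a ≤ b) (z : ℝ)
    (hzA1 : (A₁ : ℝ) < z) (hzA2 : (A₂ : ℝ) < z)
    {σ : Type} (J : Finset σ) (c : σ → ℝ) (m r : σ → ℕ)
    (hm : ∀ j ∈ J, 0 < m j ∧ ∀ p : ℕ, p.Prime → p ∣ m j → (p : ℝ) < z)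
    (P Cs : ℝ) (hP : 0 ≤ P) (hOm : ∀ n ∈ Ioc a b, |Om J c m r n| ≤ P)
    (hCs : ∑ j ∈ J, |c j| ≤ Cs) (d₁ d₂ e : ℕ) (hd₁ : 0 < d₁) (hd₂ : 0 < d₂) (he : 0 < e)
    (r1 : ∀ p : ℕ, p.Prime → p ∣ d₁ → z ≤ (p : ℝ))
    (r2 : ∀ p : ℕ, p.Prime → p ∣ d₂ → z ≤ (p : ℝ))
    (r3 : ∀ p : ℕ, p.Prime → p ∣ e → z ≤ (p : ℝ)) :
    |∑ n ∈ (Ioc a b).filter (fun n => d₁ ∣ A₁ * n + 1 ∧ e ∣ A₂ * n + 1),
      Om J c m r n * ((if d₁ * d₂ ∣ A₁ * n + 1 then (1 : ℝ) else 0) - 1 / (d₂ : ℝ))| ≤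
    2 * Cs + P * ∑ n ∈ (Ioc a b).filter (fun n => d₁ ∣ A₁ * n + 1 ∧ e ∣ A₂ * n + 1),
      ((if d₁ * d₂ ∣ A₁ * n + 1 ∧ ¬ d₁.Coprime d₂ then (1 : ℝ) else 0) +
        (if ¬ (d₁ * e).Coprime d₂ then 1 / (d₂ : ℝ) else 0)) := by
  have hCs0 : 0 ≤ Cs := (Finset.sum_nonneg fun _ _ => abs_nonneg _).trans hCs
  have hinv : (0 : ℝ) ≤ 1 / (d₂ : ℝ) := by positivity
  have hinv1 : (1 : ℝ) / (d₂ : ℝ) ≤ 1 := by
    rw [div_le_one (by exact_mod_cast hd₂)]; exact_mod_cast hd₂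
  have hs0 : 0 ≤ P * ∑ n ∈ (Ioc a b).filter (fun n => d₁ ∣ A₁ * n + 1 ∧ e ∣ A₂ * n + 1),
      ((if d₁ * d₂ ∣ A₁ * n + 1 ∧ ¬ d₁.Coprime d₂ then (1 : ℝ) else 0) +
        (if ¬ (d₁ * e).Coprime d₂ then 1 / (d₂ : ℝ) else 0)) := by
    refine mul_nonneg hP (Finset.sum_nonneg fun n _ => add_nonneg ?_ ?_)
    · split_ifs <;> norm_num
    · split_ifs
      · exact le_rfl
      · exact hinv
  by_cases hc : d₁.Coprime d₂ ∧ e.Coprime d₂ ∧ d₁.Coprime e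
  · obtain ⟨hc1, hc2, hc3⟩ := hc
    refine le_trans ?_ (le_add_of_nonneg_right hs0)
    have e1 : ∑ n ∈ (Ioc a b).filter (fun n => d₁ ∣ A₁ * n + 1 ∧ e ∣ A₂ * n + 1),
        Om J c m r n * ((if d₁ * d₂ ∣ A₁ * n + 1 then (1 : ℝ) else 0) - 1 / (d₂ : ℝ)) =
        ∑ j ∈ J, c j * ((((Ioc a b).filter
          (fun n => (d₁ * d₂ ∣ A₁ * n + 1 ∧ e ∣ A₂ * n + 1) ∧ n ≡ r j [MOD m j])).card : ℝ) -
          (1 / (d₂ : ℝ)) * (((Ioc a b).filter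
          (fun n => (d₁ ∣ A₁ * n + 1 ∧ e ∣ A₂ * n + 1) ∧ n ≡ r j [MOD m j])).card : ℝ)) := by
      unfold Om
      simp_rw [Finset.sum_mul]
      rw [Finset.sum_comm]
      refine Finset.sum_congr rfl fun j _ => ?_
      rw [Finset.card_filter, Finset.card_filter]
      push_cast
      rw [Finset.mul_sum, ← Finset.sum_sub_distrib, Finset.mul_sum, Finset.sum_filter]
      refine Finset.sum_congr rfl fun n _ => ?_
      have hdd : d₁ * d₂ ∣ A₁ * n + 1 → d₁ ∣ A₁ * n + 1 := fun k => (Dvd.intro _ rfl).trans k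
      by_cases k1 : d₁ * d₂ ∣ A₁ * n + 1
      · have k0 := hdd k1
        by_cases k2 : e ∣ A₂ * n + 1 <;> by_cases k3 : n ≡ r j [MOD m j] <;>
          simp [k0, k1, k2, k3]
      · by_cases k0 : d₁ ∣ A₁ * n + 1 <;> by_cases k2 : e ∣ A₂ * n + 1 <;>
          by_cases k3 : n ≡ r j [MOD m j] <;> simp [k0, k1, k2, k3]
    rw [e1]
    calc |∑ j ∈ J, c j * ((((Ioc a b).filter
          (fun n => (d₁ * d₂ ∣ A₁ * n + 1 ∧ e ∣ A₂ * n + 1) ∧ n ≡ r j [MOD m j])).card : ℝ) -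
          (1 / (d₂ : ℝ)) * (((Ioc a b).filter
          (fun n => (d₁ ∣ A₁ * n + 1 ∧ e ∣ A₂ * n + 1) ∧ n ≡ r j [MOD m j])).card : ℝ))|
        ≤ ∑ j ∈ J, |c j * ((((Ioc a b).filter
          (fun n => (d₁ * d₂ ∣ A₁ * n + 1 ∧ e ∣ A₂ * n + 1) ∧ n ≡ r j [MOD m j])).card : ℝ) -
          (1 / (d₂ : ℝ)) * (((Ioc a b).filter
          (fun n => (d₁ ∣ A₁ * n + 1 ∧ e ∣ A₂ * n + 1) ∧ n ≡ r j [MOD m j])).card : ℝ))| :=
          Finset.abs_sum_le_sum_abs _ _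
      _ ≤ ∑ j ∈ J, |c j| * 2 := by
          refine Finset.sum_le_sum fun j hj => ?_
          rw [abs_mul]
          refine mul_le_mul_of_nonneg_left ?_ (abs_nonneg _)
          obtain ⟨hm0, hmp⟩ := hm j hj
          have c1 : (m j).Coprime d₁ := (cop_of_rough r1 hmp).symm
          have c2 : (m j).Coprime d₂ := (cop_of_rough r2 hmp).symm
          have c3 : (m j).Coprime e := (cop_of_rough r3 hmp).symm
          have a1 : A₁.Coprime d₁ := (cop_of_rough r1 (lt_of_small h.1 hzA1)).symm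
          have a2 : A₁.Coprime d₂ := (cop_of_rough r2 (lt_of_small h.1 hzA1)).symm
          have a3 : A₂.Coprime e := (cop_of_rough r3 (lt_of_small h.2.1 hzA2)).symm
          have b1 := count a b (m j) (d₁ * d₂) e A₁ A₂ (r j) hab hm0 (Nat.mul_pos hd₁ hd₂) he
            (Nat.Coprime.mul_right c1 c2) c3 (Nat.Coprime.mul_left hc3 hc2.symm)
            (Nat.Coprime.mul_right a1 a2) a3
          have b2 := count a b (m j) d₁ e A₁ A₂ (r j) hab hm0 hd₁ he c1 c3 hc3 a1 a3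
          have b3 : ((b : ℝ) - a) / (m j * ((d₁ * d₂ : ℕ) : ℝ) * e) =
              (1 / (d₂ : ℝ)) * (((b : ℝ) - a) / (m j * d₁ * e)) := by
            push_cast
            have : (d₂ : ℝ) ≠ 0 := by exact_mod_cast hd₂.ne'
            have : (d₁ : ℝ) ≠ 0 := by exact_mod_cast hd₁.ne'
            have : (m j : ℝ) ≠ 0 := by exact_mod_cast hm0.ne'
            have : (e : ℝ) ≠ 0 := by exact_mod_cast he.ne'
            field_simp
          rw [b3] at b1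
          rw [abs_le] at b1 b2 ⊢
          constructor <;> nlinarith [b1.1, b1.2, b2.1, b2.2]
      _ = 2 * ∑ j ∈ J, |c j| := by rw [← Finset.sum_mul, mul_comm]
      _ ≤ 2 * Cs := by linarith
  · refine le_trans ?_ (le_add_of_nonneg_left (by positivity))
    rw [Finset.mul_sum]
    refine (Finset.abs_sum_le_sum_abs _ _).trans (Finset.sum_le_sum fun n hn => ?_)
    rw [Finset.mem_filter] at hn
    rw [abs_mul]
    refine mul_le_mul (hOm n hn.1) ?_ (abs_nonneg _) hP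
    have hc3 : d₁.Coprime e := cop h hn.2.1 hn.2.2
    have hne : ¬ (d₁ * e).Coprime d₂ := by
      intro hcc
      have := Nat.Coprime.coprime_mul_right hcc
      have h2 := Nat.Coprime.coprime_mul_left hcc
      exact hc ⟨this, h2, hc3⟩
    rw [if_pos hne]
    by_cases k1 : d₁ * d₂ ∣ A₁ * n + 1
    · have k2 : e.Coprime d₂ := (cop h ((Dvd.intro_left _ rfl).trans k1) hn.2.2).symm
      have k3 : ¬ d₁.Coprime d₂ := fun k => hc ⟨k, k2, hc3⟩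
      simp only [k1, k3, not_false_eq_true, and_self, if_true]
      rw [abs_le]; constructor <;> linarith
    · simp only [k1, false_and, if_false, zero_sub, zero_add, abs_neg]
      rw [abs_of_nonneg hinv]

end Pool.Agent.GapTwo.K5_
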