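import Pool.Agent.Work.MP_1ea053_nt.K5C

/-!
# Block K5, part D: small `d₁`, summation
-/

set_option autoImplicit false

namespace Pool.Agent.GapTwo.K5_

open Finset Filter Pool.Agent.GapTwo
open scoped Classical Topology

theorem sum_inv_mult (X p : ℕ) (hp : 0 < p) :
    ∑ d ∈ (Icc 1 X).filter (fun d => p ∣ d), 1 / (d : ℝ) ≤
      (1 / (p : ℝ)) * ∑ k ∈ Icc 1 X, 1 / (k : ℝ) := by
  have hsub : (Icc 1 X).filter (fun d => p ∣ d) ⊆ (Icc 1 X).image (fun k => p * k) := by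
    intro d hd
    rw [Finset.mem_filter, Finset.mem_Icc] at hd
    obtain ⟨⟨h1, h2⟩, k, rfl⟩ := hd
    rw [Finset.mem_image]
    refine ⟨k, Finset.mem_Icc.2 ⟨?_, ?_⟩, rfl⟩
    · rcases Nat.eq_zero_or_pos k with h | h
      · rw [h] at h1; simp at h1
      · exact h
    · exact (Nat.le_mul_of_pos_left k hp).trans h2
  calc ∑ d ∈ (Icc 1 X).filter (fun d => p ∣ d), 1 / (d : ℝ)
      ≤ ∑ d ∈ (Icc 1 X).image (fun k => p * k), 1 / (d : ℝ) :=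
        Finset.sum_le_sum_of_subset_of_nonneg hsub fun _ _ _ => by positivity
    _ = ∑ k ∈ Icc 1 X, 1 / ((p * k : ℕ) : ℝ) := by
        rw [Finset.sum_image]
        intro x _ y _ hxy
        exact Nat.eq_of_mul_eq_mul_left hp hxy
    _ = (1 / (p : ℝ)) * ∑ k ∈ Icc 1 X, 1 / (k : ℝ) := by
        rw [Finset.mul_sum]
        refine Finset.sum_congr rfl fun k _ => ?_
        push_cast
        rw [one_div, one_div, one_div, mul_inv]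

theorem harm (D₂ : ℝ) (hD₂ : 1 ≤ D₂) : ∑ d ∈ Icc 1 ⌊D₂⌋₊, 1 / (d : ℝ) ≤ 1 + Real.log D₂ := by
  have h3 := harmonic_floor_le_one_add_log D₂ hD₂
  have h4 : ((harmonic ⌊D₂⌋₊ : ℚ) : ℝ) = ∑ d ∈ Icc 1 ⌊D₂⌋₊, 1 / (d : ℝ) := by
    rw [harmonic_eq_sum_Icc]; push_cast
    exact Finset.sum_congr rfl fun d _ => by rw [one_div]
  rw [← h4]; exact h3

theorem ind1_sum (z D₂ Z T : ℝ) (_hT : 0 ≤ T) (L d₁ : ℕ) (hL : 0 < L)
    (hLT : (L.divisors.card : ℝ) ≤ T) (hd₁ : 0 < d₁)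
    (hZ : (d₁ : ℝ) ≤ Z) (r1 : ∀ p : ℕ, p.Prime → p ∣ d₁ → z ≤ (p : ℝ)) :
    ∑ d₂ ∈ RG z D₂, (if d₁ * d₂ ∣ L ∧ ¬ d₁.Coprime d₂ then (1 : ℝ) else 0) ≤
      if ∃ p ∈ PR z (Z + 1), p ^ 2 ∣ L then T else 0 := by
  by_cases hb : ∃ p ∈ PR z (Z + 1), p ^ 2 ∣ L
  · rw [if_pos hb]
    calc ∑ d₂ ∈ RG z D₂, (if d₁ * d₂ ∣ L ∧ ¬ d₁.Coprime d₂ then (1 : ℝ) else 0)
        = (((RG z D₂).filter (fun d₂ => d₁ * d₂ ∣ L ∧ ¬ d₁.Coprime d₂)).card : ℝ) := by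
          rw [Finset.card_filter]; push_cast; rfl
      _ ≤ (L.divisors.card : ℝ) := by
          refine Nat.cast_le.2 (Finset.card_le_card ?_)
          intro d hd
          rw [Finset.mem_filter] at hd
          exact Nat.mem_divisors.2 ⟨(Dvd.intro_left _ rfl).trans hd.2.1, hL.ne'⟩
      _ ≤ T := hLT
  · rw [if_neg hb]
    refine le_of_eq (Finset.sum_eq_zero fun d₂ _ => ?_)
    rw [if_neg]
    rintro ⟨h1, h2⟩
    obtain ⟨p, hp, hp1, hp2⟩ := Nat.Prime.not_coprime_iff_dvd.1 h2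
    refine hb ⟨p, ?_, ?_⟩
    · rw [mem_PR]
      refine ⟨hp, r1 p hp hp1, ?_⟩
      have : (p : ℝ) ≤ d₁ := Nat.cast_le.2 (Nat.le_of_dvd hd₁ hp1)
      linarith
    · rw [sq]; exact (Nat.mul_dvd_mul hp1 hp2).trans h1

theorem ind2_sum (z D₂ T : ℝ) (hz : 0 < z) (hD₂ : 1 ≤ D₂) (hT3 : 1 + Real.log D₂ ≤ T)
    (L L' d₁ e : ℕ) (hL : 0 < L) (hL' : 0 < L')
    (hLT : (L.divisors.card : ℝ) ≤ T) (hLT' : (L'.divisors.card : ℝ) ≤ T)
    (h1 : d₁ ∣ L) (h2 : e ∣ L')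
    (r1 : ∀ p : ℕ, p.Prime → p ∣ d₁ → z ≤ (p : ℝ))
    (r3 : ∀ p : ℕ, p.Prime → p ∣ e → z ≤ (p : ℝ)) :
    ∑ d₂ ∈ RG z D₂, (if ¬ (d₁ * e).Coprime d₂ then 1 / (d₂ : ℝ) else 0) ≤ 2 * T ^ 2 / z := by
  have hT0 : 0 ≤ T := (Nat.cast_nonneg _).trans hLT
  have hd₁ : d₁ ≠ 0 := by rintro rfl; exact hL.ne' (Nat.eq_zero_of_zero_dvd h1)
  have he : e ≠ 0 := by rintro rfl; exact hL'.ne' (Nat.eq_zero_of_zero_dvd h2)
  calc ∑ d₂ ∈ RG z D₂, (if ¬ (d₁ * e).Coprime d₂ then 1 / (d₂ : ℝ) else 0)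
      ≤ ∑ d₂ ∈ Icc 1 ⌊D₂⌋₊, (if ¬ (d₁ * e).Coprime d₂ then 1 / (d₂ : ℝ) else 0) := by
        refine Finset.sum_le_sum_of_subset_of_nonneg (Finset.filter_subset _ _) ?_
        intro _ _ _; split_ifs
        · exact le_rfl
        · positivity
    _ ≤ ∑ d₂ ∈ Icc 1 ⌊D₂⌋₊, ∑ p ∈ (d₁ * e).primeFactors, if p ∣ d₂ then 1 / (d₂ : ℝ) else 0 := by
        refine Finset.sum_le_sum fun d₂ hd₂ => ?_
        by_cases hc : (d₁ * e).Coprime d₂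
        · rw [if_neg (not_not.2 hc)]
          refine Finset.sum_nonneg fun p _ => ?_
          split_ifs
          · positivity
          · exact le_rfl
        · rw [if_pos hc]
          obtain ⟨p, hp, hp1, hp2⟩ := Nat.Prime.not_coprime_iff_dvd.1 hc
          have hmem : p ∈ (d₁ * e).primeFactors :=
            Nat.mem_primeFactors.2 ⟨hp, hp1, Nat.mul_ne_zero hd₁ he⟩
          have := Finset.single_le_sum (f := fun p => if p ∣ d₂ then 1 / (d₂ : ℝ) else 0)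
            (fun p _ => by positivity) hmem
          simp only [hp2, if_true] at this
          exact this
    _ = ∑ p ∈ (d₁ * e).primeFactors, ∑ d₂ ∈ (Icc 1 ⌊D₂⌋₊).filter (fun d => p ∣ d),
          1 / (d₂ : ℝ) := by
        rw [Finset.sum_comm]
        refine Finset.sum_congr rfl fun p _ => ?_
        rw [Finset.sum_filter]
    _ ≤ ∑ p ∈ (d₁ * e).primeFactors, T / z := by
        refine Finset.sum_le_sum fun p hp => ?_
        have hpp := Nat.prime_of_mem_primeFactors hp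
        have hpd := Nat.dvd_of_mem_primeFactors hp
        have hzp : z ≤ (p : ℝ) := by
          rcases (Nat.Prime.dvd_mul hpp).1 hpd with k | k
          · exact r1 p hpp k
          · exact r3 p hpp k
        refine (sum_inv_mult _ p hpp.pos).trans ?_
        have k1 := (harm D₂ hD₂).trans hT3
        have k2 : 1 / (p : ℝ) ≤ 1 / z := one_div_le_one_div_of_le hz hzp
        have k3 : (0 : ℝ) ≤ ∑ k ∈ Icc 1 ⌊D₂⌋₊, 1 / (k : ℝ) :=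
          Finset.sum_nonneg fun _ _ => by positivity
        calc 1 / (p : ℝ) * ∑ k ∈ Icc 1 ⌊D₂⌋₊, 1 / (k : ℝ) ≤ (1 / z) * T :=
              mul_le_mul k2 k1 k3 (by positivity)
          _ = T / z := by ring
    _ = ((d₁ * e).primeFactors.card : ℝ) * (T / z) := by rw [Finset.sum_const, nsmul_eq_mul]
    _ ≤ (2 * T) * (T / z) := by
        refine mul_le_mul_of_nonneg_right ?_ (by positivity)
        rw [Nat.primeFactors_mul hd₁ he]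
        have k1 : d₁.primeFactors.card ≤ L.divisors.card := by
          refine Finset.card_le_card ?_
          intro p hp
          exact Nat.mem_divisors.2 ⟨(Nat.dvd_of_mem_primeFactors hp).trans h1, hL.ne'⟩
        have k2 : e.primeFactors.card ≤ L'.divisors.card := by
          refine Finset.card_le_card ?_
          intro p hp
          exact Nat.mem_divisors.2 ⟨(Nat.dvd_of_mem_primeFactors hp).trans h2, hL'.ne'⟩
        have k3 := Finset.card_union_le d₁.primeFactors e.primeFactors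
        have k4 : ((d₁.primeFactors ∪ e.primeFactors).card : ℝ) ≤
            (L.divisors.card : ℝ) + L'.divisors.card := by
          exact_mod_cast k3.trans (add_le_add k1 k2)
        linarith
    _ = 2 * T ^ 2 / z := by ring

theorem bad_card (A₁ : ℕ) (a b : ℕ) (hab : a ≤ b) (z Z : ℝ) (hz : 2 ≤ z) (hZ : 1 ≤ Z)
    (hA : 0 < A₁) (hzA1 : (A₁ : ℝ) < z) :
    (((Ioc a b).filter (fun n => ∃ p ∈ PR z (Z + 1), p ^ 2 ∣ A₁ * n + 1)).card : ℝ) ≤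
      ((b : ℝ) - a) * (2 / z) + 3 * Z := by
  have hab' : (0 : ℝ) ≤ (b : ℝ) - a := by
    have : (a : ℝ) ≤ b := by exact_mod_cast hab
    linarith
  have h1 : (Ioc a b).filter (fun n => ∃ p ∈ PR z (Z + 1), p ^ 2 ∣ A₁ * n + 1) ⊆
      (PR z (Z + 1)).biUnion (fun p => (Ioc a b).filter (fun n => p ^ 2 ∣ A₁ * n + 1)) := by
    intro n hn
    rw [Finset.mem_filter] at hn
    obtain ⟨hn1, p, hp, hpd⟩ := hn
    rw [Finset.mem_biUnion]
    exact ⟨p, hp, Finset.mem_filter.2 ⟨hn1, hpd⟩⟩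
  have h2 : ∀ p ∈ PR z (Z + 1), (((Ioc a b).filter (fun n => p ^ 2 ∣ A₁ * n + 1)).card : ℝ) ≤
      ((b : ℝ) - a) * (1 / (p : ℝ) ^ 2) + 1 := by
    intro p hp
    rw [mem_PR] at hp
    have hcop : A₁.Coprime (p ^ 2) := by
      refine Nat.Coprime.pow_right 2 ?_
      rw [Nat.coprime_comm, Nat.Prime.coprime_iff_not_dvd hp.1]
      intro hd
      have := lt_of_small hA hzA1 p hp.1 hd
      linarith [hp.2.1]
    have := count a b 1 (p ^ 2) 1 A₁ 1 0 hab one_pos (pow_pos hp.1.pos 2) one_pos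
      (Nat.coprime_one_left _) (Nat.coprime_one_left _) (Nat.coprime_one_right _) hcop
      (Nat.coprime_one_right _)
    have hset : (Ioc a b).filter (fun n => (p ^ 2 ∣ A₁ * n + 1 ∧ 1 ∣ 1 * n + 1) ∧ n ≡ 0 [MOD 1]) =
        (Ioc a b).filter (fun n => p ^ 2 ∣ A₁ * n + 1) := by
      refine Finset.filter_congr fun n _ => ?_
      simp [Nat.modEq_one]
    rw [hset] at this
    push_cast at this
    rw [abs_le] at this
    have h3 : ((b : ℝ) - a) / (1 * (p : ℝ) ^ 2 * 1) = ((b : ℝ) - a) * (1 / (p : ℝ) ^ 2) := by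
      rw [one_mul, mul_one]; ring
    rw [h3] at this
    linarith [this.2]
  have h3 : ((PR z (Z + 1)).card : ℝ) ≤ 3 * Z := by
    have k1 : (PR z (Z + 1)).card ≤ ⌈Z + 1⌉₊ := by
      unfold PR
      refine (Finset.card_filter_le _ _).trans ?_
      rw [Finset.card_range]
    have k2 : ((⌈Z + 1⌉₊ : ℕ) : ℝ) < (Z + 1) + 1 := Nat.ceil_lt_add_one (by linarith)
    have k3 : ((PR z (Z + 1)).card : ℝ) ≤ ((⌈Z + 1⌉₊ : ℕ) : ℝ) := by exact_mod_cast k1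
    linarith
  have h4 := sum_inv_sq_le (u := z) (v := Z + 1) hz
  calc (((Ioc a b).filter (fun n => ∃ p ∈ PR z (Z + 1), p ^ 2 ∣ A₁ * n + 1)).card : ℝ)
      ≤ (((PR z (Z + 1)).biUnion
        (fun p => (Ioc a b).filter (fun n => p ^ 2 ∣ A₁ * n + 1))).card : ℝ) :=
        Nat.cast_le.2 (Finset.card_le_card h1)
    _ ≤ ∑ p ∈ PR z (Z + 1), (((Ioc a b).filter (fun n => p ^ 2 ∣ A₁ * n + 1)).card : ℝ) := by
        exact_mod_cast Finset.card_biUnion_le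
    _ ≤ ∑ p ∈ PR z (Z + 1), (((b : ℝ) - a) * (1 / (p : ℝ) ^ 2) + 1) := Finset.sum_le_sum h2
    _ = ((b : ℝ) - a) * ∑ p ∈ PR z (Z + 1), 1 / (p : ℝ) ^ 2 + (PR z (Z + 1)).card := by
        rw [Finset.sum_add_distrib, Finset.mul_sum, Finset.sum_const, nsmul_eq_mul, mul_one]
    _ ≤ ((b : ℝ) - a) * (2 / z) + 3 * Z := by
        refine add_le_add (mul_le_mul_of_nonneg_left h4 hab') h3

theorem small {A₁ A₂ : ℕ} (h : SamePr A₁ A₂) (a b : ℕ) (hab : a ≤ b) (z Z D₂ E : ℝ)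
    (hz : 2 ≤ z) (hzA1 : (A₁ : ℝ) < z) (hzA2 : (A₂ : ℝ) < z) (hZ : 1 ≤ Z) (hD₂ : 1 ≤ D₂)
    (hE : 1 ≤ E)
    {σ : Type} (J : Finset σ) (c : σ → ℝ) (m r : σ → ℕ)
    (hm : ∀ j ∈ J, 0 < m j ∧ ∀ p : ℕ, p.Prime → p ∣ m j → (p : ℝ) < z)
    (P Cs T : ℝ) (hP : 0 ≤ P) (hT0 : 0 ≤ T)
    (hT1 : ∀ n ∈ Ioc a b, ((A₁ * n + 1).divisors.card : ℝ) ≤ T)
    (hT2 : ∀ n ∈ Ioc a b, ((A₂ * n + 1).divisors.card : ℝ) ≤ T)
    (hT3 : 1 + Real.log D₂ ≤ T)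
    (hOm : ∀ n ∈ Ioc a b, |Om J c m r n| ≤ P)
    (hCs : ∑ j ∈ J, |c j| ≤ Cs) (α β γ : ℕ → ℝ)
    (hα : ∀ d, |α d| ≤ 1) (hβ : ∀ d, |β d| ≤ 1) (hγ : ∀ d, |γ d| ≤ 1)
    (rα : Rough z α) (rβ : Rough z β) (rγ : Rough z γ)
    (A : Finset ℕ) (hA : ∀ d ∈ A, 0 < d ∧ (d : ℝ) ≤ Z) (hAc : (A.card : ℝ) ≤ Z) :
    |∑ d₁ ∈ A, ∑ d₂ ∈ Icc 1 ⌊D₂⌋₊, ∑ e ∈ Ioc ⌊E⌋₊ ⌊2 * E⌋₊, α d₁ * β d₂ * γ e *
      ∑ n ∈ (Ioc a b).filter (fun n => d₁ ∣ A₁ * n + 1 ∧ e ∣ A₂ * n + 1),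
        Om J c m r n * ((if d₁ * d₂ ∣ A₁ * n + 1 then (1 : ℝ) else 0) - 1 / (d₂ : ℝ))| ≤
    4 * Cs * Z * D₂ * E + P * ((((b : ℝ) - a) * (2 / z) + 3 * Z) * (T * T * T) +
      ((b : ℝ) - a) * (T * T * (2 * T ^ 2 / z))) := by
  have hCs0 : 0 ≤ Cs := (Finset.sum_nonneg fun _ _ => abs_nonneg _).trans hCs
  set A' := A.filter (fun d => α d ≠ 0) with hA'
  set B' := (Ioc ⌊E⌋₊ ⌊2 * E⌋₊).filter (fun d => γ d ≠ 0) with hB'
  set I := Ioc a b with hI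
  set Tm : ℕ → ℕ → ℕ → ℝ := fun d₁ d₂ e =>
    ∑ n ∈ I.filter (fun n => d₁ ∣ A₁ * n + 1 ∧ e ∣ A₂ * n + 1),
        Om J c m r n * ((if d₁ * d₂ ∣ A₁ * n + 1 then (1 : ℝ) else 0) - 1 / (d₂ : ℝ)) with hTm
  set Sm : ℕ → ℕ → ℕ → ℝ := fun d₁ d₂ e =>
    ∑ n ∈ I.filter (fun n => d₁ ∣ A₁ * n + 1 ∧ e ∣ A₂ * n + 1),
      ((if d₁ * d₂ ∣ A₁ * n + 1 ∧ ¬ d₁.Coprime d₂ then (1 : ℝ) else 0) +
        (if ¬ (d₁ * e).Coprime d₂ then 1 / (d₂ : ℝ) else 0)) with hSm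
  have hrA : ∀ d ∈ A', 0 < d ∧ (d : ℝ) ≤ Z ∧ ∀ p : ℕ, p.Prime → p ∣ d → z ≤ (p : ℝ) := by
    intro d hd
    rw [hA', Finset.mem_filter] at hd
    exact ⟨(hA d hd.1).1, (hA d hd.1).2, (rα d hd.2).2⟩
  have hrB : ∀ d ∈ B', 0 < d ∧ ∀ p : ℕ, p.Prime → p ∣ d → z ≤ (p : ℝ) := by
    intro d hd
    rw [hB', Finset.mem_filter, Finset.mem_Ioc] at hd
    exact ⟨by omega, (rγ d hd.2).2⟩
  have hrR : ∀ d ∈ RG z D₂, 0 < d ∧ ∀ p : ℕ, p.Prime → p ∣ d → z ≤ (p : ℝ) := by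
    intro d hd
    unfold RG at hd
    rw [Finset.mem_filter, Finset.mem_Icc] at hd
    exact ⟨by omega, hd.2.2⟩
  -- reduction to the supports
  have s1 : |∑ d₁ ∈ A, ∑ d₂ ∈ Icc 1 ⌊D₂⌋₊, ∑ e ∈ Ioc ⌊E⌋₊ ⌊2 * E⌋₊,
      α d₁ * β d₂ * γ e * Tm d₁ d₂ e| ≤
      ∑ d₁ ∈ A', ∑ d₂ ∈ RG z D₂, ∑ e ∈ B', |Tm d₁ d₂ e| := by
    have q1 : ∀ d₁ ∈ A, |∑ d₂ ∈ Icc 1 ⌊D₂⌋₊, ∑ e ∈ Ioc ⌊E⌋₊ ⌊2 * E⌋₊,
        α d₁ * β d₂ * γ e * Tm d₁ d₂ e| ≤
        if α d₁ ≠ 0 then ∑ d₂ ∈ RG z D₂, ∑ e ∈ B', |Tm d₁ d₂ e| else 0 := by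
      intro d₁ _
      by_cases k : α d₁ = 0
      · simp [k]
      · rw [if_pos k]
        refine (Finset.abs_sum_le_sum_abs _ _).trans ?_
        have q2 : ∀ d₂ ∈ Icc 1 ⌊D₂⌋₊, |∑ e ∈ Ioc ⌊E⌋₊ ⌊2 * E⌋₊,
            α d₁ * β d₂ * γ e * Tm d₁ d₂ e| ≤
            if Squarefree d₂ ∧ ∀ p : ℕ, p.Prime → p ∣ d₂ → z ≤ (p : ℝ) then
              ∑ e ∈ B', |Tm d₁ d₂ e| else 0 := by
          intro d₂ _
          by_cases k2 : β d₂ = 0
          · simp only [k2, mul_zero, zero_mul, Finset.sum_const_zero, abs_zero]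
            split_ifs
            · exact Finset.sum_nonneg fun _ _ => abs_nonneg _
            · exact le_rfl
          · rw [if_pos (rβ d₂ k2), hB', Finset.sum_filter]
            refine (Finset.abs_sum_le_sum_abs _ _).trans (Finset.sum_le_sum fun e _ => ?_)
            by_cases k3 : γ e = 0
            · simp [k3]
            · rw [if_pos k3, abs_mul, abs_mul, abs_mul]
              have : |α d₁| * |β d₂| * |γ e| ≤ 1 := by
                have k4 : |α d₁| * |β d₂| ≤ 1 :=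
                  mul_le_one₀ (hα _) (abs_nonneg _) (hβ _)
                exact mul_le_one₀ k4 (abs_nonneg _) (hγ _)
              exact mul_le_of_le_one_left (abs_nonneg _) this
        refine (Finset.sum_le_sum q2).trans ?_
        rw [← Finset.sum_filter]
        exact le_rfl
    refine (Finset.abs_sum_le_sum_abs _ _).trans ((Finset.sum_le_sum q1).trans ?_)
    rw [← Finset.sum_filter]
  -- termwise bound
  have s2 : ∑ d₁ ∈ A', ∑ d₂ ∈ RG z D₂, ∑ e ∈ B', |Tm d₁ d₂ e| ≤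
      ∑ d₁ ∈ A', ∑ d₂ ∈ RG z D₂, ∑ e ∈ B', (2 * Cs + P * Sm d₁ d₂ e) := by
    refine Finset.sum_le_sum fun d₁ h1 => Finset.sum_le_sum fun d₂ h2 =>
      Finset.sum_le_sum fun e h3 => ?_
    exact term_bound h a b hab z hzA1 hzA2 J c m r hm P Cs hP hOm hCs d₁ d₂ e (hrA d₁ h1).1
      (hrR d₂ h2).1 (hrB e h3).1 (hrA d₁ h1).2.2 (hrR d₂ h2).2 (hrB e h3).2
  have s3 : ∑ d₁ ∈ A', ∑ d₂ ∈ RG z D₂, ∑ e ∈ B', (2 * Cs + P * Sm d₁ d₂ e) =
      (A'.card : ℝ) * (RG z D₂).card * B'.card * (2 * Cs) +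
      P * ∑ d₁ ∈ A', ∑ d₂ ∈ RG z D₂, ∑ e ∈ B', Sm d₁ d₂ e := by
    simp_rw [Finset.sum_add_distrib, Finset.sum_const, nsmul_eq_mul, ← Finset.mul_sum]
    ring
  have s4 : (A'.card : ℝ) * (RG z D₂).card * B'.card * (2 * Cs) ≤ 4 * Cs * Z * D₂ * E := by
    have k1 : (A'.card : ℝ) ≤ Z :=
      le_trans (Nat.cast_le.2 (Finset.card_filter_le _ _)) hAc
    have k2 : ((RG z D₂).card : ℝ) ≤ D₂ := by
      have : (RG z D₂).card ≤ ⌊D₂⌋₊ := by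
        unfold RG
        refine (Finset.card_filter_le _ _).trans ?_
        rw [Nat.card_Icc]; omega
      exact le_trans (by exact_mod_cast this) (Nat.floor_le (by linarith))
    have k3 : (B'.card : ℝ) ≤ 2 * E := by
      have : B'.card ≤ ⌊2 * E⌋₊ := by
        refine (Finset.card_filter_le _ _).trans ?_
        rw [Nat.card_Ioc]; omega
      exact le_trans (by exact_mod_cast this) (Nat.floor_le (by linarith))
    calc (A'.card : ℝ) * (RG z D₂).card * B'.card * (2 * Cs) ≤ Z * D₂ * (2 * E) * (2 * Cs) := by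
          gcongr
      _ = 4 * Cs * Z * D₂ * E := by ring
  have s5 : ∑ d₁ ∈ A', ∑ d₂ ∈ RG z D₂, ∑ e ∈ B', Sm d₁ d₂ e ≤
      (((b : ℝ) - a) * (2 / z) + 3 * Z) * (T * T * T) +
      ((b : ℝ) - a) * (T * T * (2 * T ^ 2 / z)) := by
    have q1 : ∑ d₁ ∈ A', ∑ d₂ ∈ RG z D₂, ∑ e ∈ B', Sm d₁ d₂ e =
        ∑ d₁ ∈ A', ∑ e ∈ B', ∑ n ∈ I.filter (fun n => d₁ ∣ A₁ * n + 1 ∧ e ∣ A₂ * n + 1),
          (∑ d₂ ∈ RG z D₂, (if d₁ * d₂ ∣ A₁ * n + 1 ∧ ¬ d₁.Coprime d₂ then (1 : ℝ) else 0) +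
          ∑ d₂ ∈ RG z D₂, (if ¬ (d₁ * e).Coprime d₂ then 1 / (d₂ : ℝ) else 0)) := by
      refine Finset.sum_congr rfl fun d₁ _ => ?_
      rw [Finset.sum_comm]
      refine Finset.sum_congr rfl fun e _ => ?_
      rw [hSm]
      simp only
      rw [Finset.sum_comm]
      refine Finset.sum_congr rfl fun n _ => ?_
      rw [Finset.sum_add_distrib]
    rw [q1]
    set bad : ℕ → Prop := fun n => ∃ p ∈ PR z (Z + 1), p ^ 2 ∣ A₁ * n + 1 with hbad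
    have q2 : ∑ d₁ ∈ A', ∑ e ∈ B', ∑ n ∈ I.filter (fun n => d₁ ∣ A₁ * n + 1 ∧ e ∣ A₂ * n + 1),
          (∑ d₂ ∈ RG z D₂, (if d₁ * d₂ ∣ A₁ * n + 1 ∧ ¬ d₁.Coprime d₂ then (1 : ℝ) else 0) +
          ∑ d₂ ∈ RG z D₂, (if ¬ (d₁ * e).Coprime d₂ then 1 / (d₂ : ℝ) else 0)) ≤
        ∑ d₁ ∈ A', ∑ e ∈ B', ∑ n ∈ I.filter (fun n => d₁ ∣ A₁ * n + 1 ∧ e ∣ A₂ * n + 1),
          ((if bad n then T else 0) + 2 * T ^ 2 / z) := by
      refine Finset.sum_le_sum fun d₁ h1 => Finset.sum_le_sum fun e h3 =>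
        Finset.sum_le_sum fun n hn => ?_
      rw [Finset.mem_filter] at hn
      refine add_le_add ?_ ?_
      · exact ind1_sum z D₂ Z T hT0 (A₁ * n + 1) d₁ (by omega) (hT1 n hn.1) (hrA d₁ h1).1
          (hrA d₁ h1).2.1 (hrA d₁ h1).2.2
      · exact ind2_sum z D₂ T (by linarith) hD₂ hT3 (A₁ * n + 1) (A₂ * n + 1) d₁ e (by omega)
          (by omega) (hT1 n hn.1) (hT2 n hn.1) hn.2.1 hn.2.2 (hrA d₁ h1).2.2 (hrB e h3).2
    refine q2.trans ?_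
    have q3 : ∑ d₁ ∈ A', ∑ e ∈ B', ∑ n ∈ I.filter (fun n => d₁ ∣ A₁ * n + 1 ∧ e ∣ A₂ * n + 1),
          ((if bad n then T else 0) + 2 * T ^ 2 / z) =
        ∑ d₁ ∈ A', ∑ e ∈ B',
          ∑ n ∈ (I.filter bad).filter (fun n => d₁ ∣ A₁ * n + 1 ∧ e ∣ A₂ * n + 1),
          (fun (_ _ : ℕ) => T) d₁ n +
        ∑ d₁ ∈ A', ∑ e ∈ B', ∑ n ∈ I.filter (fun n => d₁ ∣ A₁ * n + 1 ∧ e ∣ A₂ * n + 1),
          (fun (_ _ : ℕ) => 2 * T ^ 2 / z) d₁ n := by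
      rw [← Finset.sum_add_distrib]
      refine Finset.sum_congr rfl fun d₁ _ => ?_
      rw [← Finset.sum_add_distrib]
      refine Finset.sum_congr rfl fun e _ => ?_
      rw [Finset.sum_add_distrib]
      congr 1
      rw [← Finset.sum_filter, Finset.filter_filter, Finset.filter_filter]
      refine Finset.sum_congr ?_ fun _ _ => rfl
      refine Finset.filter_congr fun n _ => ?_
      tauto
    rw [q3]
    refine add_le_add ?_ ?_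
    · have := diag_bound (I.filter bad) A' B' A₁ A₂ (fun _ _ => T) T T hT0
        (fun n hn => hT1 n (Finset.mem_filter.1 hn).1) (fun n hn => hT2 n (Finset.mem_filter.1 hn).1)
        (fun _ _ => hT0) hT0 (fun _ _ _ _ => le_rfl)
      refine this.trans ?_
      refine mul_le_mul_of_nonneg_right ?_ (by positivity)
      exact bad_card A₁ a b hab z Z hz hZ h.1 hzA1
    · have hz0 : 0 < z := by linarith
      have := diag_bound I A' B' A₁ A₂ (fun _ _ => 2 * T ^ 2 / z) T (2 * T ^ 2 / z) hT0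
        hT1 hT2 (fun _ _ => by positivity) (by positivity) (fun _ _ _ _ => le_rfl)
      refine this.trans (le_of_eq ?_)
      rw [hI, Nat.card_Ioc, Nat.cast_sub hab]
  refine s1.trans (s2.trans ?_)
  rw [s3]
  exact add_le_add s4 (mul_le_mul_of_nonneg_left s5 hP)

end Pool.Agent.GapTwo.K5_
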