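import Pool.Agent.Work.MP_1ea053_nt.K5B

/-!
# Block K5, part E: exponents
-/

set_option autoImplicit false

namespace Pool.Agent.GapTwo.K5_

open Finset Filter Pool.Agent.GapTwo
open scoped Classical Topology

theorem rp_le {N a b : ℝ} (hN : 1 < N) (h : a ≤ b) : N ^ a ≤ N ^ b :=
  Real.rpow_le_rpow_of_exponent_le hN.le h

theorem X_bound {N x y w : ℝ} (hN : 1 < N) (hx : x ≤ θ₀) (hxy : x + y ≤ 1 - τ₀)
    (hw : w ≤ θ₀ - 1 + 2 * τ₀ + x) (hw0 : 0 ≤ w) (hy : 1 / 5 ≤ y) (m m' G : ℕ)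
    (hm : (m : ℝ) ≤ N ^ δ₁) (hm' : (m' : ℝ) ≤ N ^ δ₁) (hG0 : 0 < G)
    (hG1 : N ^ (2 / 10000 : ℝ) ≤ 2 * G) (hG2 : (G : ℝ) ≤ N ^ (2 / 10000 : ℝ)) :
    N * (1 / G + 1 / N ^ x + 1 / N) + (N ^ (4 / 10000 : ℝ) * m * m') ^ 3 * G ^ 2 *
      ((N / N ^ x) * ((N ^ 2 / N ^ x) ^ (1 / 4 : ℝ) * (N ^ w) ^ 2 +
        (N / N ^ x) ^ (1 / 2 : ℝ) * (N ^ w) ^ (5 / 2 : ℝ)) + (N ^ y + N / N ^ y) * (N ^ w) ^ 2)
      ≤ 8 * N ^ (9998 / 10000 : ℝ) := by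
  have hN0 : 0 < N := by linarith
  have hx1 : x ≤ 1089 / 2000 := hx
  have hxy1 : x + y ≤ 1 - 1 / 10000 := hxy
  have hw1 : w ≤ 1089 / 2000 - 1 + 2 * (1 / 10000) + x := hw
  have hNr : N = N ^ (1 : ℝ) := (Real.rpow_one N).symm
  have hN2 : N ^ 2 = N ^ (2 : ℝ) := by norm_cast
  have hGR : (0 : ℝ) < G := by exact_mod_cast hG0
  have g1 : N * (1 / G) ≤ 2 * N ^ (9998 / 10000 : ℝ) := by
    have k1 : 1 / (G : ℝ) ≤ 2 / N ^ (2 / 10000 : ℝ) := by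
      rw [div_le_div_iff₀ hGR (by positivity)]; linarith
    calc N * (1 / G) ≤ N * (2 / N ^ (2 / 10000 : ℝ)) := mul_le_mul_of_nonneg_left k1 hN0.le
      _ = 2 * (N ^ (1 : ℝ) / N ^ (2 / 10000 : ℝ)) := by rw [Real.rpow_one]; ring
      _ = 2 * N ^ (9998 / 10000 : ℝ) := by rw [← Real.rpow_sub hN0]; norm_num
  have g2 : N * (1 / N ^ x) ≤ N ^ (9998 / 10000 : ℝ) := by
    calc N * (1 / N ^ x) = N ^ (1 : ℝ) / N ^ x := by rw [Real.rpow_one]; ring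
      _ = N ^ (1 - x) := by rw [← Real.rpow_sub hN0]
      _ ≤ _ := rp_le hN (by linarith)
  have g3 : N * (1 / N) ≤ N ^ (9998 / 10000 : ℝ) := by
    have : N * (1 / N) = N ^ (0 : ℝ) := by rw [Real.rpow_zero]; field_simp
    rw [this]; exact rp_le hN (by norm_num)
  have g4 : (N ^ (4 / 10000 : ℝ) * m * m') ^ 3 * (G : ℝ) ^ 2 ≤ N ^ (166 / 100000 : ℝ) := by
    calc (N ^ (4 / 10000 : ℝ) * m * m') ^ 3 * (G : ℝ) ^ 2
        ≤ (N ^ (4 / 10000 : ℝ) * N ^ δ₁ * N ^ δ₁) ^ 3 * (N ^ (2 / 10000 : ℝ)) ^ 2 := by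
          gcongr
      _ = N ^ (166 / 100000 : ℝ) := by
          unfold δ₁
          rw [← Real.rpow_add hN0, ← Real.rpow_add hN0, ← Real.rpow_natCast,
            ← Real.rpow_natCast, ← Real.rpow_mul hN0.le, ← Real.rpow_mul hN0.le,
            ← Real.rpow_add hN0]
          norm_num
  have g5 : (N / N ^ x) * ((N ^ 2 / N ^ x) ^ (1 / 4 : ℝ) * (N ^ w) ^ 2 +
        (N / N ^ x) ^ (1 / 2 : ℝ) * (N ^ w) ^ (5 / 2 : ℝ)) + (N ^ y + N / N ^ y) * (N ^ w) ^ 2 =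
      N ^ (1 - x + ((2 - x) * (1 / 4) + w * 2)) + N ^ (1 - x + ((1 - x) * (1 / 2) + w * (5 / 2))) +
      N ^ (y + w * 2) + N ^ (1 - y + w * 2) := by
    have k1 : N / N ^ x = N ^ (1 - x) := by
      rw [Real.rpow_sub hN0, Real.rpow_one]
    have k2 : N ^ 2 / N ^ x = N ^ (2 - x) := by
      rw [Real.rpow_sub hN0, ← hN2]
    have k3 : N / N ^ y = N ^ (1 - y) := by
      rw [Real.rpow_sub hN0, Real.rpow_one]
    have k4 : (N ^ w) ^ 2 = N ^ (w * 2) := by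
      rw [Real.rpow_mul hN0.le]; norm_cast
    rw [k1, k2, k3, k4, ← Real.rpow_mul hN0.le, ← Real.rpow_mul hN0.le, ← Real.rpow_mul hN0.le,
      mul_add, add_mul, ← Real.rpow_add hN0, ← Real.rpow_add hN0, ← Real.rpow_add hN0,
      ← Real.rpow_add hN0, ← Real.rpow_add hN0, ← Real.rpow_add hN0]
    ring
  rw [g5]
  have g6 : (N ^ (4 / 10000 : ℝ) * m * m') ^ 3 * (G : ℝ) ^ 2 *
      (N ^ (1 - x + ((2 - x) * (1 / 4) + w * 2)) +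
        N ^ (1 - x + ((1 - x) * (1 / 2) + w * (5 / 2))) +
      N ^ (y + w * 2) + N ^ (1 - y + w * 2)) ≤ 4 * N ^ (9998 / 10000 : ℝ) := by
    refine (mul_le_mul_of_nonneg_right g4 (by positivity)).trans ?_
    rw [mul_add, mul_add, mul_add, ← Real.rpow_add hN0, ← Real.rpow_add hN0,
      ← Real.rpow_add hN0, ← Real.rpow_add hN0]
    have k1 : N ^ (166 / 100000 + (1 - x + ((2 - x) * (1 / 4) + w * 2))) ≤
        N ^ (9998 / 10000 : ℝ) := rp_le hN (by linarith)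
    have k2 : N ^ (166 / 100000 + (1 - x + ((1 - x) * (1 / 2) + w * (5 / 2)))) ≤
        N ^ (9998 / 10000 : ℝ) := rp_le hN (by linarith)
    have k3 : N ^ (166 / 100000 + (y + w * 2)) ≤ N ^ (9998 / 10000 : ℝ) :=
      rp_le hN (by linarith)
    have k4 : N ^ (166 / 100000 + (1 - y + w * 2)) ≤ N ^ (9998 / 10000 : ℝ) :=
      rp_le hN (by linarith)
    linarith
  have g7 : N * (1 / G + 1 / N ^ x + 1 / N) = N * (1 / G) + N * (1 / N ^ x) + N * (1 / N) := by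
    ring
  rw [g7]
  linarith

theorem final_expo {N s η x y CD CB CG Ic : ℝ} (hN : 1 < N) (hs : 0 < s)
    (hs7 : s ≤ 1 / 10000000) (hsη : 100000 * s ≤ η) (hCD : 0 ≤ CD) (hCB : 0 ≤ CB) (hCG : 0 ≤ CG)
    (hC : 1000 * (1 + CD + CB + CG) ≤ N ^ s) (hxy : x + y ≤ 1 - τ₀)
    (hIc : Ic ≤ 2 * N) :
    4 * N ^ y * N ^ x * (Ic * (N ^ s * N ^ s * (N ^ s * (2 * N ^ s)) ^ 2) +
      2 * ((N ^ s) ^ 2 * (CD * N ^ s * (N * (N / (N ^ y * N ^ x)) / N ^ η + N)) +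
        (N ^ δ₁) ^ 2 * (CG * N ^ s * (N / (N ^ y * N ^ x)) * (8 * N ^ (9998 / 10000 : ℝ)) +
          (2 * N ^ s) ^ 2 * (CB * N ^ s * (N * (N / (N ^ y * N ^ x)) *
            (N ^ (4 / 10000 : ℝ)) ^ (-(1 / 8) : ℝ)))))) ≤ (N ^ (1 - 3 * s)) ^ 2 := by
  have hN0 : 0 < N := by linarith
  have hxy1 : x + y ≤ 1 - 1 / 10000 := hxy
  have a0 : 0 < N ^ s := by positivity
  have ax : 0 < N ^ x := by positivity
  have ay : 0 < N ^ y := by positivity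
  have hsq : ∀ a : ℝ, (N ^ a) ^ 2 = N ^ (a * 2) := fun a => by
    rw [Real.rpow_mul hN0.le]; norm_cast
  have hr : (N ^ (1 - 3 * s)) ^ 2 = N ^ s * N ^ (2 - 7 * s) := by
    rw [hsq, ← Real.rpow_add hN0]; congr 1; ring
  set R := N ^ (2 - 8 * s) with hR
  have hR0 : 0 < R := by positivity
  -- term 1
  have t1 : 4 * N ^ y * N ^ x * (Ic * (N ^ s * N ^ s * (N ^ s * (2 * N ^ s)) ^ 2)) ≤ 32 * R := by
    have e1 : N ^ y * N ^ x * (N * (N ^ s * N ^ s * (N ^ s * N ^ s) ^ 2)) =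
        N ^ (y + x + (1 + 6 * s)) := by
      have : N ^ (y + x + (1 + 6 * s)) = N ^ y * N ^ x * (N ^ (1 : ℝ) * N ^ (s * 2 + (s + s) * 2)) := by
        rw [← Real.rpow_add hN0, ← Real.rpow_add hN0, ← Real.rpow_add hN0]; congr 1; ring
      rw [this, Real.rpow_one, Real.rpow_add hN0, ← hsq, ← hsq, Real.rpow_add hN0]
      ring
    calc 4 * N ^ y * N ^ x * (Ic * (N ^ s * N ^ s * (N ^ s * (2 * N ^ s)) ^ 2))
        ≤ 4 * N ^ y * N ^ x * ((2 * N) * (N ^ s * N ^ s * (N ^ s * (2 * N ^ s)) ^ 2)) := by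
          gcongr
      _ = 32 * (N ^ y * N ^ x * (N * (N ^ s * N ^ s * (N ^ s * N ^ s) ^ 2))) := by ring
      _ = 32 * N ^ (y + x + (1 + 6 * s)) := by rw [e1]
      _ ≤ 32 * R := by
          refine mul_le_mul_of_nonneg_left (rp_le hN ?_) (by norm_num)
          linarith
  -- term 2
  have t2 : 4 * N ^ y * N ^ x * (2 * ((N ^ s) ^ 2 *
      (CD * N ^ s * (N * (N / (N ^ y * N ^ x)) / N ^ η + N)))) ≤ 16 * CD * R := by
    have e1 : 4 * N ^ y * N ^ x * (2 * ((N ^ s) ^ 2 *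
        (CD * N ^ s * (N * (N / (N ^ y * N ^ x)) / N ^ η + N)))) =
        8 * CD * ((N ^ s) ^ 2 * N ^ s * (N ^ (1 : ℝ) * N ^ (1 : ℝ) / N ^ η)) +
        8 * CD * ((N ^ s) ^ 2 * N ^ s * N ^ (1 : ℝ) * (N ^ y * N ^ x)) := by
      rw [Real.rpow_one]
      field_simp
      ring
    have e2 : (N ^ s) ^ 2 * N ^ s * (N ^ (1 : ℝ) * N ^ (1 : ℝ) / N ^ η) ≤ R := by
      rw [hsq, ← Real.rpow_add hN0, ← Real.rpow_add hN0, ← Real.rpow_sub hN0,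
        ← Real.rpow_add hN0]
      exact rp_le hN (by linarith)
    have e3 : (N ^ s) ^ 2 * N ^ s * N ^ (1 : ℝ) * (N ^ y * N ^ x) ≤ R := by
      rw [hsq, ← Real.rpow_add hN0, ← Real.rpow_add hN0, ← Real.rpow_add hN0,
        ← Real.rpow_add hN0]
      exact rp_le hN (by linarith)
    rw [e1]
    nlinarith
  -- term 3
  have t3 : 4 * N ^ y * N ^ x * (2 * ((N ^ δ₁) ^ 2 *
      (CG * N ^ s * (N / (N ^ y * N ^ x)) * (8 * N ^ (9998 / 10000 : ℝ))))) ≤ 64 * CG * R := by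
    have e1 : 4 * N ^ y * N ^ x * (2 * ((N ^ δ₁) ^ 2 *
      (CG * N ^ s * (N / (N ^ y * N ^ x)) * (8 * N ^ (9998 / 10000 : ℝ))))) =
        64 * CG * ((N ^ δ₁) ^ 2 * N ^ s * N ^ (1 : ℝ) * N ^ (9998 / 10000 : ℝ)) := by
      rw [Real.rpow_one]
      field_simp
      ring
    have e2 : (N ^ δ₁) ^ 2 * N ^ s * N ^ (1 : ℝ) * N ^ (9998 / 10000 : ℝ) ≤ R := by
      rw [hsq, ← Real.rpow_add hN0, ← Real.rpow_add hN0, ← Real.rpow_add hN0]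
      refine rp_le hN ?_
      unfold δ₁
      linarith
    rw [e1]
    exact mul_le_mul_of_nonneg_left e2 (by positivity)
  -- term 4
  have t4 : 4 * N ^ y * N ^ x * (2 * ((N ^ δ₁) ^ 2 * ((2 * N ^ s) ^ 2 *
      (CB * N ^ s * (N * (N / (N ^ y * N ^ x)) *
            (N ^ (4 / 10000 : ℝ)) ^ (-(1 / 8) : ℝ)))))) ≤ 32 * CB * R := by
    have e1 : 4 * N ^ y * N ^ x * (2 * ((N ^ δ₁) ^ 2 * ((2 * N ^ s) ^ 2 *
      (CB * N ^ s * (N * (N / (N ^ y * N ^ x)) *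
            (N ^ (4 / 10000 : ℝ)) ^ (-(1 / 8) : ℝ)))))) =
        32 * CB * ((N ^ δ₁) ^ 2 * (N ^ s) ^ 2 * N ^ s * N ^ (1 : ℝ) * N ^ (1 : ℝ) *
          (N ^ (4 / 10000 : ℝ)) ^ (-(1 / 8) : ℝ)) := by
      rw [Real.rpow_one]
      field_simp
      ring
    have e2 : (N ^ δ₁) ^ 2 * (N ^ s) ^ 2 * N ^ s * N ^ (1 : ℝ) * N ^ (1 : ℝ) *
          (N ^ (4 / 10000 : ℝ)) ^ (-(1 / 8) : ℝ) ≤ R := by
      rw [hsq, hsq, ← Real.rpow_mul hN0.le, ← Real.rpow_add hN0, ← Real.rpow_add hN0,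
        ← Real.rpow_add hN0, ← Real.rpow_add hN0, ← Real.rpow_add hN0]
      refine rp_le hN ?_
      unfold δ₁
      linarith
    rw [e1]
    exact mul_le_mul_of_nonneg_left e2 (by positivity)
  have hsum : 4 * N ^ y * N ^ x * (Ic * (N ^ s * N ^ s * (N ^ s * (2 * N ^ s)) ^ 2) +
      2 * ((N ^ s) ^ 2 * (CD * N ^ s * (N * (N / (N ^ y * N ^ x)) / N ^ η + N)) +
        (N ^ δ₁) ^ 2 * (CG * N ^ s * (N / (N ^ y * N ^ x)) * (8 * N ^ (9998 / 10000 : ℝ)) +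
          (2 * N ^ s) ^ 2 * (CB * N ^ s * (N * (N / (N ^ y * N ^ x)) *
            (N ^ (4 / 10000 : ℝ)) ^ (-(1 / 8) : ℝ)))))) =
      4 * N ^ y * N ^ x * (Ic * (N ^ s * N ^ s * (N ^ s * (2 * N ^ s)) ^ 2)) +
      4 * N ^ y * N ^ x * (2 * ((N ^ s) ^ 2 *
      (CD * N ^ s * (N * (N / (N ^ y * N ^ x)) / N ^ η + N)))) +
      4 * N ^ y * N ^ x * (2 * ((N ^ δ₁) ^ 2 *
      (CG * N ^ s * (N / (N ^ y * N ^ x)) * (8 * N ^ (9998 / 10000 : ℝ))))) +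
      4 * N ^ y * N ^ x * (2 * ((N ^ δ₁) ^ 2 * ((2 * N ^ s) ^ 2 *
      (CB * N ^ s * (N * (N / (N ^ y * N ^ x)) *
            (N ^ (4 / 10000 : ℝ)) ^ (-(1 / 8) : ℝ)))))) := by ring
  rw [hsum, hr]
  have hRR : N ^ s * R ≤ N ^ s * N ^ (2 - 7 * s) :=
    mul_le_mul_of_nonneg_left (rp_le hN (by linarith)) a0.le
  have h5 : (32 + 16 * CD + 64 * CG + 32 * CB) * R ≤ N ^ s * R :=
    mul_le_mul_of_nonneg_right (by linarith) hR0.le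
  nlinarith

end Pool.Agent.GapTwo.K5_
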