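import Pool.Agent.Work.MP_1ea053_nt.K5D
import Pool.Agent.Work.MP_1ea053_nt.K5E
import Pool.Agent.Work.MP_71a505_nt.Tau

/-!
# Block K5, part F: one dyadic range, and the conditions that hold for large `N`
-/

set_option autoImplicit false

namespace Pool.Agent.GapTwo.K5_

open Finset Filter Pool.Agent.GapTwo
open scoped Classical Topology

theorem card_dyad (D : ℝ) (hD : 1 ≤ D) : ((Ioc ⌊D⌋₊ ⌊2 * D⌋₊).card : ℝ) ≤ 2 * D := by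
  have h1 : (Ioc ⌊D⌋₊ ⌊2 * D⌋₊).card ≤ ⌊2 * D⌋₊ := by rw [Nat.card_Ioc]; omega
  exact le_trans (by exact_mod_cast h1) (Nat.floor_le (by linarith))

theorem dyad {A₁ A₂ : ℕ} (h : SamePr A₁ A₂) (I : Finset ℕ) (D E z D₂ : ℝ) (hD : 1 ≤ D)
    (hE : 1 ≤ E) (α β γ : ℕ → ℝ) (hα : ∀ d, |α d| ≤ 1) (hγ : ∀ d, |γ d| ≤ 1)
    (hβ : ∀ d, |β d| ≤ 1) (hβr : Rough z β) (hD₂ : 1 ≤ D₂)
    {σ : Type} (J : Finset σ) (c : σ → ℝ) (m b : σ → ℕ)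
    (P K G B T Cs Y : ℝ) (hP : 0 ≤ P) (hG : 0 ≤ G) (hB0 : 0 ≤ B) (hT0 : 0 ≤ T)
    (hT1 : ∀ n ∈ I, ((A₁ * n + 1).divisors.card : ℝ) ≤ T)
    (hT1' : ∀ n ∈ I, ((A₂ * n + 1).divisors.card : ℝ) ≤ T) (hT2 : 1 + Real.log D₂ ≤ T)
    (hOm : ∀ n ∈ I, |Om J c m b n| ≤ P)
    (hCs : ∑ j ∈ J, |c j| ≤ Cs)
    (hK : ∑ d₂ ∈ RG z D₂, ∑ d₂' ∈ RG z D₂,
      ∑ x ∈ (QQ A₁ A₂ I D E).filter (fun x => ¬ ND A₂ x d₂ d₂'),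
        ((if d₂ ∣ ph A₁ x then (1 : ℝ) else 0) + 1 / d₂) *
        ((if d₂' ∣ ph' A₁ x then (1 : ℝ) else 0) + 1 / d₂') ≤ K)
    (hKG : ∀ j ∈ J, ∀ j' ∈ J, |∑ d₂ ∈ RG z D₂, ∑ d₂' ∈ RG z D₂, β d₂ * β d₂' *
      ∑ x ∈ (QQ A₁ A₂ I D E).filter (fun x => ND A₂ x d₂ d₂' ∧
        (badp (gq A₂ x) (m j * m j') : ℝ) ≤ Y ∧ x.2.2.1 ≡ b j [MOD m j] ∧
          nt x ≡ b j' [MOD m j']),
      ((if d₂ ∣ ph A₁ x then (1 : ℝ) else 0) - 1 / d₂) *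
      ((if d₂' ∣ ph' A₁ x then (1 : ℝ) else 0) - 1 / d₂')| ≤ G)
    (hB : ∀ j ∈ J, ∀ j' ∈ J, (((QQ A₁ A₂ I D E).filter
      (fun x => Y < (badp (gq A₂ x) (m j * m j') : ℝ))).card : ℝ) ≤ B) :
    (∑ d₁ ∈ Ioc ⌊D⌋₊ ⌊2 * D⌋₊, ∑ e ∈ Ioc ⌊E⌋₊ ⌊2 * E⌋₊, α d₁ * γ e *
      ∑ n ∈ I.filter (fun n => d₁ ∣ A₁ * n + 1 ∧ e ∣ A₂ * n + 1),
        Om J c m b n * hh A₁ β D₂ d₁ n) ^ 2 ≤
    4 * D * E * ((I.card : ℝ) * (T * T * (P * (2 * T)) ^ 2) +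
      2 * (P ^ 2 * K + Cs ^ 2 * (G + (2 * T) ^ 2 * B))) := by
  have h1 := cs (Ioc ⌊D⌋₊ ⌊2 * D⌋₊) (Ioc ⌊E⌋₊ ⌊2 * E⌋₊) α γ hα hγ
    (fun d₁ e => ∑ n ∈ I.filter (fun n => d₁ ∣ A₁ * n + 1 ∧ e ∣ A₂ * n + 1),
        Om J c m b n * hh A₁ β D₂ d₁ n)
  refine h1.trans ?_
  have h2 := expand h I D E (fun d n => Om J c m b n * hh A₁ β D₂ d n)
  have h3 := diag_bound I (Ioc ⌊D⌋₊ ⌊2 * D⌋₊) (Ioc ⌊E⌋₊ ⌊2 * E⌋₊) A₁ A₂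
    (fun d n => (Om J c m b n * hh A₁ β D₂ d n) ^ 2) T ((P * (2 * T)) ^ 2) hT0 hT1 hT1'
    (fun _ _ => sq_nonneg _) (sq_nonneg _) (fun d n hn hd => by
      have k1 := hOm n hn
      have k2 := hh_bound A₁ β hβ z D₂ hβr hD₂ d n hd
      have k3 := hT1 n hn
      have k4 : |hh A₁ β D₂ d n| ≤ 2 * T := by linarith
      have k5 : |Om J c m b n * hh A₁ β D₂ d n| ≤ P * (2 * T) := by
        rw [abs_mul]; exact mul_le_mul k1 k4 (abs_nonneg _) hP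
      rw [← sq_abs]
      exact pow_le_pow_left₀ (abs_nonneg _) k5 2)
  have h4 := off_bound I D E z D₂ β hβ hβr hD₂ J c m b P K G B T Cs Y hP hG hB0 hT0 hT1 hT2
    hOm hCs hK hKG hB
  have h5 : ∑ d ∈ Ioc ⌊D⌋₊ ⌊2 * D⌋₊, ∑ e ∈ Ioc ⌊E⌋₊ ⌊2 * E⌋₊,
      (∑ n ∈ I.filter (fun n => d ∣ A₁ * n + 1 ∧ e ∣ A₂ * n + 1),
        Om J c m b n * hh A₁ β D₂ d n) ^ 2 ≤
      (I.card : ℝ) * (T * T * (P * (2 * T)) ^ 2) +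
      2 * (P ^ 2 * K + Cs ^ 2 * (G + (2 * T) ^ 2 * B)) := by
    rw [h2]
    have := (le_abs_self _).trans h4
    linarith
  have h6 : (((Ioc ⌊D⌋₊ ⌊2 * D⌋₊).card : ℝ) * (Ioc ⌊E⌋₊ ⌊2 * E⌋₊).card) ≤ 4 * D * E := by
    calc (((Ioc ⌊D⌋₊ ⌊2 * D⌋₊).card : ℝ) * (Ioc ⌊E⌋₊ ⌊2 * E⌋₊).card) ≤ (2 * D) * (2 * E) :=
          mul_le_mul (card_dyad D hD) (card_dyad E hE) (by positivity) (by linarith)
      _ = 4 * D * E := by ring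
  have h7 : 0 ≤ ∑ d ∈ Ioc ⌊D⌋₊ ⌊2 * D⌋₊, ∑ e ∈ Ioc ⌊E⌋₊ ⌊2 * E⌋₊,
      (∑ n ∈ I.filter (fun n => d ∣ A₁ * n + 1 ∧ e ∣ A₂ * n + 1),
        Om J c m b n * hh A₁ β D₂ d n) ^ 2 :=
    Finset.sum_nonneg fun _ _ => Finset.sum_nonneg fun _ _ => sq_nonneg _
  exact mul_le_mul h6 h5 h7 (by positivity)

/-- The conditions on `N`. -/
theorem large (A₁ A₂ W : ℕ) (hW : 0 < W) (κ : ℝ) (hκ : κ ≤ 1) (s η M : ℝ) (hs : 0 < s)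
    (hη : 0 < η) : ∃ N₀ : ℝ, ∀ N : ℝ, N₀ ≤ N → 2 ≤ N ∧ M ≤ N ^ s ∧ 1 + Real.log N ≤ N ^ s ∧
      2 ≤ N ^ η ∧ (A₁ : ℝ) < N ^ η ∧ (A₂ : ℝ) < N ^ η ∧
      (∀ n ∈ II (N / W) κ, ((A₁ * n + 1).divisors.card : ℝ) ≤ N ^ s) ∧
      (∀ n ∈ II (N / W) κ, ((A₂ * n + 1).divisors.card : ℝ) ≤ N ^ s) ∧
      (∀ n ∈ II (N / W) κ, (n : ℝ) ≤ 2 * N) := by
  have hs2 : 0 < s / 2 := by positivity
  obtain ⟨C, hC1, hC⟩ := Pool.Agent.Work.MP_71a505_nt.tau_le hs2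
  have t1 := tendsto_rpow_atTop hs
  have t2 := tendsto_rpow_atTop hs2
  have t3 := tendsto_rpow_atTop hη
  have ev : ∀ᶠ N : ℝ in atTop, 2 ≤ N ∧ M ≤ N ^ s ∧ 1 + 2 / s ≤ N ^ (s / 2) ∧
      2 ≤ N ^ η ∧ (A₁ : ℝ) + 1 ≤ N ^ η ∧ (A₂ : ℝ) + 1 ≤ N ^ η ∧
      C * (2 * A₁ + 1 : ℝ) ^ (s / 2) ≤ N ^ (s / 2) ∧
      C * (2 * A₂ + 1 : ℝ) ^ (s / 2) ≤ N ^ (s / 2) := by
    filter_upwards [eventually_ge_atTop 2, t1.eventually_ge_atTop M,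
      t2.eventually_ge_atTop (1 + 2 / s), t3.eventually_ge_atTop 2,
      t3.eventually_ge_atTop ((A₁ : ℝ) + 1), t3.eventually_ge_atTop ((A₂ : ℝ) + 1),
      t2.eventually_ge_atTop (C * (2 * A₁ + 1 : ℝ) ^ (s / 2)),
      t2.eventually_ge_atTop (C * (2 * A₂ + 1 : ℝ) ^ (s / 2))] with N h1 h2 h3 h4 h5 h6 h7 h8
    exact ⟨h1, h2, h3, h4, h5, h6, h7, h8⟩
  obtain ⟨N₀, hN₀⟩ := eventually_atTop.1 ev
  refine ⟨N₀, fun N hN => ?_⟩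
  obtain ⟨h1, h2, h3, h4, h5, h6, h7, h8⟩ := hN₀ N hN
  have hN0 : 0 < N := by linarith
  have hWR : (1 : ℝ) ≤ W := by exact_mod_cast hW
  have hn2 : ∀ n ∈ II (N / W) κ, (n : ℝ) ≤ 2 * N := by
    intro n hn
    unfold II at hn
    rw [Finset.mem_Ioc] at hn
    have hNW0 : 0 ≤ N / W := by positivity
    have hNW : N / W ≤ N := div_le_self hN0.le hWR
    have k2 : (n : ℝ) ≤ max 0 ((1 + κ) * (N / W)) := by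
      rcases le_or_gt 0 ((1 + κ) * (N / W)) with k | k
      · exact le_trans (Nat.cast_le.2 hn.2) ((Nat.floor_le k).trans (le_max_right _ _))
      · rw [Nat.floor_of_nonpos k.le] at hn
        have : n = 0 := by omega
        rw [this]; simp
    refine k2.trans (max_le (by positivity) ?_)
    nlinarith
  have hss : N ^ s = N ^ (s / 2) * N ^ (s / 2) := by
    rw [← Real.rpow_add hN0]; congr 1; ring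
  have htau : ∀ A : ℕ, C * (2 * A + 1 : ℝ) ^ (s / 2) ≤ N ^ (s / 2) →
      ∀ n ∈ II (N / W) κ, ((A * n + 1).divisors.card : ℝ) ≤ N ^ s := by
    intro A hA n hn
    have k1 := hC (A * n + 1) (by omega)
    have k2 : ((A * n + 1 : ℕ) : ℝ) ≤ (2 * A + 1) * N := by
      push_cast
      have := hn2 n hn
      have hA0 : (0 : ℝ) ≤ A := Nat.cast_nonneg A
      nlinarith
    calc ((A * n + 1).divisors.card : ℝ) ≤ C * ((A * n + 1 : ℕ) : ℝ) ^ (s / 2) := k1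
      _ ≤ C * ((2 * A + 1) * N) ^ (s / 2) := by
          refine mul_le_mul_of_nonneg_left ?_ (by linarith)
          exact Real.rpow_le_rpow (by positivity) k2 hs2.le
      _ = (C * (2 * A + 1 : ℝ) ^ (s / 2)) * N ^ (s / 2) := by
          rw [Real.mul_rpow (by positivity) hN0.le]; ring
      _ ≤ N ^ (s / 2) * N ^ (s / 2) := mul_le_mul_of_nonneg_right hA (by positivity)
      _ = N ^ s := hss.symm
  refine ⟨h1, h2, ?_, h4, by linarith, by linarith, htau A₁ h7, htau A₂ h8, hn2⟩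
  have k1 := Real.log_le_rpow_div hN0.le hs2
  have hX : 1 ≤ N ^ (s / 2) := by
    have : 0 < 2 / s := by positivity
    linarith
  have k2 : N ^ (s / 2) / (s / 2) = (2 / s) * N ^ (s / 2) := by field_simp
  rw [k2] at k1
  rw [hss]
  nlinarith

end Pool.Agent.GapTwo.K5_
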