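import Pool.Agent.Work.MP_1ea053_nt.KGD

/-!
# Block KG: assembly
-/

set_option autoImplicit false

namespace Pool.Agent.GapTwo.KG_

open Finset Filter Pool.Agent.GapTwo
open scoped Classical Topology

/-- Sizes of the quantities attached to a quadruple. -/
lemma sizes {A₁ A₂ W : ℕ} {κ N D E : ℝ} (hA₁ : 0 < A₁) (hA₂ : 0 < A₂) (hW : 0 < W)
    (hκ : 0 ≤ κ) (hκ1 : κ ≤ 1) (hN : 1 ≤ N) (hD1 : 1 ≤ D) (hE : 1 ≤ E)
    {x : ℕ × ℕ × ℕ × ℕ} (hx : x ∈ QQ A₁ A₂ (II (N / W) κ) D E) :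
    1 ≤ gq A₂ x ∧ (gq A₂ x : ℝ) ≤ 3 * A₂ * N / E ∧ 1 ≤ x.2.2.2 ∧ (x.2.2.2 : ℝ) ≤ N / (D * E) ∧
    1 ≤ ph A₁ x ∧ (ph A₁ x : ℝ) ≤ 3 * A₁ * N / D ∧ 1 ≤ ph' A₁ x ∧ (ph' A₁ x : ℝ) ≤ 3 * A₁ * N := by
  have hW' : (0 : ℝ) < W := by exact_mod_cast hW
  have hW1 : (1 : ℝ) ≤ W := by exact_mod_cast hW
  have hA₁' : (1 : ℝ) ≤ A₁ := by exact_mod_cast hA₁
  have hA₂' : (1 : ℝ) ≤ A₂ := by exact_mod_cast hA₂
  have hM0 : 0 < N / W := by positivity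
  have hMN : N / W ≤ N := div_le_self (by linarith) hW1
  set M : ℝ := N / W with hM
  rw [mem_QQ hM0.le hκ (by linarith) (by linarith)] at hx
  obtain ⟨h1, h2, h3, h4, h5, h6, h7⟩ := hx
  have hd0 : (0 : ℝ) < x.1 := by linarith [h1.1]
  have he0 : (0 : ℝ) < x.2.1 := by linarith [h2.1]
  have hd1 : 1 ≤ x.1 := by exact_mod_cast hd0
  have he1 : 1 ≤ x.2.1 := by exact_mod_cast he0
  have hf1 : x.1 * ph A₁ x = A₁ * x.2.2.1 + 1 := Nat.mul_div_cancel' h5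
  have hf2 : A₂ * x.2.2.1 + 1 = gq A₂ x * x.2.1 := (Nat.div_mul_cancel h6).symm
  have hf1' : (x.1 : ℝ) * (ph A₁ x : ℝ) = A₁ * x.2.2.1 + 1 := by exact_mod_cast hf1
  have hf2' : (A₂ : ℝ) * x.2.2.1 + 1 = (gq A₂ x : ℝ) * x.2.1 := by exact_mod_cast hf2
  have hntv : ((nt x : ℕ) : ℝ) = x.2.2.1 + x.1 * x.2.1 * x.2.2.2 := by
    unfold nt
    push_cast
    ring
  have h2M : (1 + κ) * M ≤ 2 * N := by nlinarith
  have hgpos : 1 ≤ gq A₂ x := by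
    by_contra h
    have h0 : gq A₂ x = 0 := by omega
    rw [h0] at hf2
    omega
  have hphpos : 1 ≤ ph A₁ x := by
    by_contra h
    have h0 : ph A₁ x = 0 := by omega
    rw [h0] at hf1
    omega
  have hph'1 : 1 ≤ ph' A₁ x := by unfold ph'; omega
  have b1 : (A₂ : ℝ) * x.2.2.1 + 1 ≤ 3 * A₂ * N := by
    have : (A₂ : ℝ) * x.2.2.1 ≤ A₂ * (2 * N) :=
      mul_le_mul_of_nonneg_left (by linarith [h3.2]) (by linarith)
    nlinarith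
  have b2 : (A₁ : ℝ) * x.2.2.1 + 1 ≤ 3 * A₁ * N := by
    have : (A₁ : ℝ) * x.2.2.1 ≤ A₁ * (2 * N) :=
      mul_le_mul_of_nonneg_left (by linarith [h3.2]) (by linarith)
    nlinarith
  refine ⟨hgpos, ?_, h4, ?_, hphpos, ?_, hph'1, ?_⟩
  · rw [le_div_iff₀ (by linarith)]
    calc (gq A₂ x : ℝ) * E ≤ (gq A₂ x : ℝ) * x.2.1 :=
          mul_le_mul_of_nonneg_left h2.1.le (Nat.cast_nonneg _)
      _ ≤ 3 * A₂ * N := by rw [← hf2']; exact b1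
  · rw [le_div_iff₀ (by positivity)]
    have e1 : (x.1 : ℝ) * x.2.1 * x.2.2.2 ≤ N := by
      have : (x.1 : ℝ) * x.2.1 * x.2.2.2 = (nt x : ℕ) - x.2.2.1 := by rw [hntv]; ring
      rw [this]
      have e2 : κ * M ≤ N := by nlinarith
      linarith [h7.2, h3.1]
    calc (x.2.2.2 : ℝ) * (D * E) ≤ (x.2.2.2 : ℝ) * (x.1 * x.2.1) := by
          apply mul_le_mul_of_nonneg_left _ (Nat.cast_nonneg _)
          exact mul_le_mul h1.1.le h2.1.le (by linarith) hd0.le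
      _ = (x.1 : ℝ) * x.2.1 * x.2.2.2 := by ring
      _ ≤ N := e1
  · rw [le_div_iff₀ (by linarith)]
    calc (ph A₁ x : ℝ) * D ≤ (ph A₁ x : ℝ) * x.1 :=
          mul_le_mul_of_nonneg_left h1.1.le (Nat.cast_nonneg _)
      _ = x.1 * ph A₁ x := mul_comm _ _
      _ ≤ 3 * A₁ * N := by rw [hf1']; exact b2
  · have e1 : (x.1 : ℝ) * (ph' A₁ x : ℝ) = A₁ * (nt x : ℕ) + 1 := by
      unfold ph'
      push_cast
      rw [hntv, mul_add, hf1']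
      ring
    have e2 : (A₁ : ℝ) * (nt x : ℕ) + 1 ≤ 3 * A₁ * N := by
      have : (A₁ : ℝ) * (nt x : ℕ) ≤ A₁ * (2 * N) :=
        mul_le_mul_of_nonneg_left (by linarith [h7.2]) (by linarith)
      nlinarith
    have e3 : (1 : ℝ) ≤ x.1 := by exact_mod_cast hd1
    have e4 : (0 : ℝ) ≤ (ph' A₁ x : ℝ) := Nat.cast_nonneg _
    nlinarith

lemma key_mem {A₁ A₂ W : ℕ} {κ N D E : ℝ} {G : ℕ} (hA₁ : 0 < A₁) (hA₂ : 0 < A₂) (hW : 0 < W)
    (hκ : 0 ≤ κ) (hκ1 : κ ≤ 1) (hN : 1 ≤ N) (hD1 : 1 ≤ D) (hE : 1 ≤ E) (hG : 1 ≤ G)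
    {x : ℕ × ℕ × ℕ × ℕ} (hx : x ∈ QQ A₁ A₂ (II (N / W) κ) D E) :
    key A₁ A₂ N D G x ∈ KK A₁ A₂ N D E G := by
  obtain ⟨s1, s2, s3, s4, s5, s6, s7, s8⟩ := sizes hA₁ hA₂ hW hκ hκ1 hN hD1 hE hx
  have hW' : (0 : ℝ) < W := by exact_mod_cast hW
  have hG' : (0 : ℝ) < G := by exact_mod_cast hG
  have hA₁' : (1 : ℝ) ≤ A₁ := by exact_mod_cast hA₁
  have hA₂' : (1 : ℝ) ≤ A₂ := by exact_mod_cast hA₂
  have hM0 : 0 < N / W := by positivity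
  rw [mem_QQ hM0.le hκ (by linarith) (by linarith)] at hx
  obtain ⟨h1, h2, h3, h4, h5, h6, h7⟩ := hx
  unfold key KK
  rw [mem_product, mem_product, mem_product, mem_Icc, mem_Icc, mem_range, mem_range]
  simp only
  refine ⟨⟨s1, (Nat.le_floor_iff (by positivity)).2 s2⟩,
    ⟨s3, (Nat.le_floor_iff (by positivity)).2 s4⟩, ?_, ?_⟩
  · have hhD : 0 < KG_.hD D G := Nat.ceil_pos.2 (by positivity)
    rw [Nat.div_lt_iff_lt_mul hhD]
    have e1 : D ≤ G * KG_.hD D G := by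
      have : D / G ≤ (KG_.hD D G : ℝ) := Nat.le_ceil _
      rw [div_le_iff₀ hG'] at this
      linarith
    have e2 : ⌊D⌋₊ < x.1 := (Nat.floor_lt (by linarith)).2 h1.1
    have e3 : ((x.1 - ⌊D⌋₊ - 1 : ℕ) : ℝ) < ((G * KG_.hD D G : ℕ) : ℝ) := by
      rw [Nat.sub_sub, Nat.cast_sub (by omega)]
      push_cast
      have := Nat.lt_floor_add_one D
      have := h1.2
      linarith
    exact_mod_cast e3
  · have hhF : 0 < hF N D G := Nat.ceil_pos.2 (by positivity)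
    rw [Nat.div_lt_iff_lt_mul hhF]
    have e1 : N / D ≤ G * hF N D G := by
      have : N / (D * G) ≤ (hF N D G : ℝ) := Nat.le_ceil _
      rw [div_le_iff₀ (by positivity)] at this
      rw [div_le_iff₀ (by linarith)]
      linarith
    have e2 : (ph A₁ x : ℝ) ≤ ((3 * A₁ * G * hF N D G : ℕ) : ℝ) := by
      refine s6.trans ?_
      push_cast
      calc 3 * A₁ * N / D = 3 * A₁ * (N / D) := by ring
        _ ≤ 3 * A₁ * (G * hF N D G) := mul_le_mul_of_nonneg_left e1 (by positivity)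
        _ = 3 * A₁ * G * hF N D G := by ring
    have e3 : ph A₁ x ≤ 3 * A₁ * G * hF N D G := by exact_mod_cast e2
    omega

/-- The bad quadruples. -/
lemma bad_sum {A₁ A₂ W : ℕ} {κ N D E D₂ z : ℝ} (hA₁ : 0 < A₁) (hA₂ : 0 < A₂) (hW : 0 < W)
    (hκ : 0 ≤ κ) (hκ1 : κ ≤ 1) (hN : 1 ≤ N) (hD1 : 1 ≤ D) (hE : 1 ≤ E) (hD₂ : 1 ≤ D₂)
    (hD₂N : D₂ ≤ N) {CR ε : ℝ} (hCR : 1 ≤ CR)
    (hR : ∀ (z y T : ℝ) (n : ℕ), 1 ≤ y → y ≤ T → n ≠ 0 → (n : ℝ) ≤ T →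
      ∑ d ∈ RG z y, |(if d ∣ n then (1 : ℝ) else 0) - 1 / d| ≤ CR * T ^ ε)
    (B : Finset (ℕ × ℕ × ℕ × ℕ)) (hB : B ⊆ QQ A₁ A₂ (II (N / W) κ) D E)
    (B' : ℕ → ℕ → Finset (ℕ × ℕ × ℕ × ℕ)) (hB' : ∀ d d', B' d d' ⊆ B) :
    ∑ d ∈ RG z D₂, ∑ d' ∈ RG z D₂, ∑ x ∈ B' d d',
      |((if d ∣ ph A₁ x then (1 : ℝ) else 0) - 1 / d) *
      ((if d' ∣ ph' A₁ x then (1 : ℝ) else 0) - 1 / d')| ≤
    B.card * (CR * (3 * A₁ * N) ^ ε) ^ 2 := by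
  have hA₁' : (1 : ℝ) ≤ A₁ := by exact_mod_cast hA₁
  have hT : N ≤ 3 * A₁ * N := by nlinarith
  have h1 : ∀ d ∈ RG z D₂, ∀ d' ∈ RG z D₂, ∑ x ∈ B' d d',
      |((if d ∣ ph A₁ x then (1 : ℝ) else 0) - 1 / d) *
      ((if d' ∣ ph' A₁ x then (1 : ℝ) else 0) - 1 / d')| ≤
      ∑ x ∈ B, |(if d ∣ ph A₁ x then (1 : ℝ) else 0) - 1 / d| *
      |(if d' ∣ ph' A₁ x then (1 : ℝ) else 0) - 1 / d'| := by
    intro d _ d' _
    refine (sum_le_sum_of_subset_of_nonneg (hB' d d') fun _ _ _ => abs_nonneg _).trans ?_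
    exact sum_le_sum fun x _ => (abs_mul _ _).le
  refine (sum_le_sum fun d hd => sum_le_sum fun d' hd' => h1 d hd d' hd').trans ?_
  have h2 : ∑ d ∈ RG z D₂, ∑ d' ∈ RG z D₂, ∑ x ∈ B,
      |(if d ∣ ph A₁ x then (1 : ℝ) else 0) - 1 / d| *
      |(if d' ∣ ph' A₁ x then (1 : ℝ) else 0) - 1 / d'| =
      ∑ x ∈ B, (∑ d ∈ RG z D₂, |(if d ∣ ph A₁ x then (1 : ℝ) else 0) - 1 / d|) *
      ∑ d' ∈ RG z D₂, |(if d' ∣ ph' A₁ x then (1 : ℝ) else 0) - 1 / d'| := by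
    have e1 : ∀ d ∈ RG z D₂, ∑ d' ∈ RG z D₂, ∑ x ∈ B,
        |(if d ∣ ph A₁ x then (1 : ℝ) else 0) - 1 / d| *
        |(if d' ∣ ph' A₁ x then (1 : ℝ) else 0) - 1 / d'| =
        ∑ x ∈ B, |(if d ∣ ph A₁ x then (1 : ℝ) else 0) - 1 / d| *
        ∑ d' ∈ RG z D₂, |(if d' ∣ ph' A₁ x then (1 : ℝ) else 0) - 1 / d'| := by
      intro d _
      rw [sum_comm]
      exact sum_congr rfl fun x _ => (mul_sum _ _ _).symm
    rw [sum_congr rfl e1, sum_comm]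
    exact sum_congr rfl fun x _ => (sum_mul _ _ _).symm
  rw [h2]
  have h3 : ∀ x ∈ B, (∑ d ∈ RG z D₂, |(if d ∣ ph A₁ x then (1 : ℝ) else 0) - 1 / d|) *
      ∑ d' ∈ RG z D₂, |(if d' ∣ ph' A₁ x then (1 : ℝ) else 0) - 1 / d'| ≤
      (CR * (3 * A₁ * N) ^ ε) ^ 2 := by
    intro x hx
    obtain ⟨s1, s2, s3, s4, s5, s6, s7, s8⟩ := sizes hA₁ hA₂ hW hκ hκ1 hN hD1 hE (hB hx)
    rw [pow_two]
    apply mul_le_mul
    · apply hR z D₂ _ _ hD₂ (hD₂N.trans hT) (by omega)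
      exact s6.trans (div_le_self (by positivity) hD1)
    · exact hR z D₂ _ _ hD₂ (hD₂N.trans hT) (by omega) s8
    · exact sum_nonneg fun _ _ => abs_nonneg _
    · positivity
  refine (sum_le_card_nsmul _ _ _ h3).trans ?_
  rw [nsmul_eq_mul]

/-- The good quadruples, for one pair. -/
lemma good_sum {ε₄ C₄ : ℝ} (hK : K4at ε₄ C₄) (hC₄ : 0 < C₄) (hε₄ : 0 < ε₄) {A₁ A₂ W : ℕ}
    (hS : SamePr A₁ A₂) (hW : 0 < W) {κ N D E D₂ Y z : ℝ} {G : ℕ} (hκ : 0 ≤ κ) (hκ1 : κ ≤ 1)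
    (hDp : 1 ≤ D) (hE : 1 ≤ E) (hDE : D * E ≤ N) (hD₂ : D * D₂ ≤ N) (hG : 1 ≤ G)
    (hGD : (G : ℝ) ≤ D) (hYp : 1 ≤ Y) {m b m' b' : ℕ} (hm : 0 < m) (hm' : 0 < m')
    (hmA : m.Coprime A₁)
    (hmA' : m'.Coprime A₁) (hz : ∀ p : ℕ, p.Prime → p ∣ A₁ * m * m' → (p : ℝ) < z)
    {d d' : ℕ} (hd : d ∈ RG z D₂) (hd' : d' ∈ RG z D₂) :
    |∑ x ∈ (QQ A₁ A₂ (II (N / W) κ) D E).filter (fun x => (ND A₂ x d d' ∧
        (badp (gq A₂ x) (m * m') : ℝ) ≤ Y ∧ x.2.2.1 ≡ b [MOD m] ∧ nt x ≡ b' [MOD m']) ∧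
        GoodK A₁ A₂ (N / W) κ N D E G (key A₁ A₂ N D G x)),
      ((if d ∣ ph A₁ x then (1 : ℝ) else 0) - 1 / d) *
      ((if d' ∣ ph' A₁ x then (1 : ℝ) else 0) - 1 / d')| ≤
    ∑ k ∈ KK A₁ A₂ N D E G,
      C₄ * (3 * A₂ * N ^ 2) ^ ε₄ * (A₁ * Y * m * m') ^ 3 * (81 * A₂ * VV N D E d d' k.1) := by
  have hA₁ : 0 < A₁ := hS.1
  have hA₂ : 0 < A₂ := hS.2.1
  have hN : 1 ≤ N := le_trans (by nlinarith) hDE
  have hW' : (0 : ℝ) < W := by exact_mod_cast hW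
  have hM0 : 0 < N / W := by positivity
  have hpos : ∀ c ∈ RG z D₂, (0 : ℝ) < c := by
    intro c hc
    have := (mem_Icc.1 (RG_sub z D₂ hc)).1
    exact_mod_cast this
  rw [← sum_fiberwise_of_maps_to (g := key A₁ A₂ N D G) (t := KK A₁ A₂ N D E G)
    (fun x hx => key_mem hA₁ hA₂ hW hκ hκ1 hN hDp hE hG (mem_filter.1 hx).1)]
  refine (abs_sum_le_sum_abs _ _).trans (sum_le_sum fun k hk => ?_)
  have hk' := hk
  unfold KK at hk'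
  rw [mem_product, mem_product, mem_product, mem_Icc, mem_Icc] at hk'
  obtain ⟨⟨q1, q2⟩, ⟨q3, q4⟩, _⟩ := hk'
  have hg0 : (0 : ℝ) < k.1 := by exact_mod_cast q1
  have hVV0 : 0 ≤ VV N D E d d' k.1 := by
    have := hpos d hd
    have := hpos d' hd'
    unfold VV
    positivity
  by_cases hc : (k.1.Coprime d ∧ k.1.Coprime d' ∧ k.2.1.Coprime d' ∧ d.Coprime d') ∧
      (badp k.1 (m * m') : ℝ) ≤ Y ∧ GoodK A₁ A₂ (N / W) κ N D E G k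
  · obtain ⟨⟨c1, c2, c3, c4⟩, c5, c6⟩ := hc
    have hk1' : (k.1 : ℝ) ≤ 3 * A₂ * N / E := (Nat.le_floor_iff (by positivity)).1 q2
    have := box hK hC₄ hε₄ hS hM0.le hκ hDp hE hDE hD₂ hG hGD (b := b) (b' := b') hm hm' hmA hmA' hz
      hd hd' k q1 hk1' q3 c1 c2 c3 c4 c5 c6
    refine le_trans (le_of_eq ?_) this
    congr 1
    rw [filter_filter]
    apply sum_congr _ fun _ _ => rfl
    apply filter_congr
    intro x _
    constructor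
    · rintro ⟨⟨⟨_, _, r3, r4⟩, _⟩, r5⟩
      exact ⟨r5, r3, r4⟩
    · rintro ⟨r5, r3, r4⟩
      have e1 : gq A₂ x = k.1 := by rw [← r5]; rfl
      have e2 : x.2.2.2 = k.2.1 := by rw [← r5]; rfl
      refine ⟨⟨⟨?_, ?_, r3, r4⟩, ?_⟩, r5⟩
      · unfold ND
        rw [e1, e2]
        exact ⟨c1, c2, c3, c4⟩
      · rw [e1]; exact c5
      · rw [r5]; exact c6
  · have h0 : (((QQ A₁ A₂ (II (N / W) κ) D E).filter (fun x => (ND A₂ x d d' ∧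
        (badp (gq A₂ x) (m * m') : ℝ) ≤ Y ∧ x.2.2.1 ≡ b [MOD m] ∧ nt x ≡ b' [MOD m']) ∧
        GoodK A₁ A₂ (N / W) κ N D E G (key A₁ A₂ N D G x))).filter
        (fun x => key A₁ A₂ N D G x = k)) = ∅ := by
      apply filter_eq_empty_iff.2
      intro x hx r5
      rw [mem_filter] at hx
      obtain ⟨_, ⟨r1, r2, _⟩, r6⟩ := hx
      have e1 : gq A₂ x = k.1 := by rw [← r5]; rfl
      have e2 : x.2.2.2 = k.2.1 := by rw [← r5]; rfl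
      apply hc
      unfold ND at r1
      rw [e1, e2] at r1
      rw [e1] at r2
      rw [r5] at r6
      exact ⟨r1, r2, r6⟩
    rw [h0, sum_empty, abs_zero]
    positivity

end Pool.Agent.GapTwo.KG_

namespace Pool.Agent.GapTwo

open Finset Filter KG_
open scoped Classical Topology

/-- Block KG. -/
theorem stmt_KG (h4 : Stmt_K4) (h3A : Stmt_K3A) (h3C : Stmt_K3C) : Stmt_KG := by
  intro ε hε A₁ A₂ W hS hW κ hκ hκ1
  have hε₀ : 0 < ε / 4 := by positivity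
  obtain ⟨C₄, hC₄, hK⟩ := h4 (ε / 4) hε₀
  obtain ⟨CA, hCA, hA⟩ := h3A (ε / 4) hε₀ A₁ A₂ W hS hW κ hκ hκ1
  obtain ⟨CC, hCC, hC⟩ := h3C (ε / 4) hε₀ A₁ A₂ W hS hW κ hκ hκ1
  obtain ⟨CR, hCR, hR⟩ := sum_RG_le hε₀
  have hA₁ : 0 < A₁ := hS.1
  have hA₂ : 0 < A₂ := hS.2.1
  have hA₁' : (1 : ℝ) ≤ A₁ := by exact_mod_cast hA₁
  have hA₂' : (1 : ℝ) ≤ A₂ := by exact_mod_cast hA₂
  have hW' : (0 : ℝ) < W := by exact_mod_cast hW
  have hW1 : (1 : ℝ) ≤ W := by exact_mod_cast hW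
  set ε₀ : ℝ := ε / 4 with hε₀def
  set Cb : ℝ := (312 * CA + 53 * W * CC) * (CR ^ 2 * (3 * A₁) ^ (2 * ε₀)) with hCb
  set Cg : ℝ := C₄ * (3 * A₂) ^ ε₀ * A₁ ^ 3 * (81 * A₂) * (3 * A₁) *
    (6 * A₂ + (1 + 1 / ε₀) * (3 * A₂) ^ ε₀) with hCg
  have hCb0 : 0 < Cb := by positivity
  have hCg0 : 0 < Cg := by positivity
  refine ⟨Cb + Cg, by positivity, ?_⟩
  intro N D E D₂ Y hN hD hE hEN hDE hD₂ hDD₂ hY G hG hGD m b m' b' hm hm' hmA hmA' z hz2 hz β hβ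
  have hN0 : 0 < N := by linarith
  have hD0 : 0 < D := by linarith
  have hE0 : 0 < E := by linarith
  have hG' : (0 : ℝ) < G := by exact_mod_cast hG
  have hD₂N : D₂ ≤ N := by nlinarith
  set Q := QQ A₁ A₂ (II (N / W) κ) D E with hQ
  set T : ℝ := N / (D * E) with hT
  have hT0 : 0 < T := by positivity
  -- splitting
  have hsplit : ∀ d d' : ℕ, ∑ x ∈ Q.filter (fun x => ND A₂ x d d' ∧
        (badp (gq A₂ x) (m * m') : ℝ) ≤ Y ∧ x.2.2.1 ≡ b [MOD m] ∧ nt x ≡ b' [MOD m']),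
      ((if d ∣ ph A₁ x then (1 : ℝ) else 0) - 1 / d) *
      ((if d' ∣ ph' A₁ x then (1 : ℝ) else 0) - 1 / d') =
      ∑ x ∈ Q.filter (fun x => (ND A₂ x d d' ∧
        (badp (gq A₂ x) (m * m') : ℝ) ≤ Y ∧ x.2.2.1 ≡ b [MOD m] ∧ nt x ≡ b' [MOD m']) ∧
        GoodK A₁ A₂ (N / W) κ N D E G (key A₁ A₂ N D G x)),
      ((if d ∣ ph A₁ x then (1 : ℝ) else 0) - 1 / d) *
      ((if d' ∣ ph' A₁ x then (1 : ℝ) else 0) - 1 / d') +
      ∑ x ∈ Q.filter (fun x => (ND A₂ x d d' ∧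
        (badp (gq A₂ x) (m * m') : ℝ) ≤ Y ∧ x.2.2.1 ≡ b [MOD m] ∧ nt x ≡ b' [MOD m']) ∧
        ¬ GoodK A₁ A₂ (N / W) κ N D E G (key A₁ A₂ N D G x)),
      ((if d ∣ ph A₁ x then (1 : ℝ) else 0) - 1 / d) *
      ((if d' ∣ ph' A₁ x then (1 : ℝ) else 0) - 1 / d') := by
    intro d d'
    rw [← sum_filter_add_sum_filter_not _
      (fun x => GoodK A₁ A₂ (N / W) κ N D E G (key A₁ A₂ N D G x)), filter_filter, filter_filter]
  have hββ : ∀ d d' : ℕ, |β d * β d'| ≤ 1 := by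
    intro d d'
    rw [abs_mul]
    exact mul_le_one₀ (hβ d) (abs_nonneg _) (hβ d')
  set gs : ℕ → ℕ → ℝ := fun d d' => ∑ x ∈ Q.filter (fun x => (ND A₂ x d d' ∧
        (badp (gq A₂ x) (m * m') : ℝ) ≤ Y ∧ x.2.2.1 ≡ b [MOD m] ∧ nt x ≡ b' [MOD m']) ∧
        GoodK A₁ A₂ (N / W) κ N D E G (key A₁ A₂ N D G x)),
      ((if d ∣ ph A₁ x then (1 : ℝ) else 0) - 1 / d) *
      ((if d' ∣ ph' A₁ x then (1 : ℝ) else 0) - 1 / d') with hgs
  set Bs : ℕ → ℕ → Finset (ℕ × ℕ × ℕ × ℕ) := fun d d' => Q.filter (fun x => (ND A₂ x d d' ∧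
        (badp (gq A₂ x) (m * m') : ℝ) ≤ Y ∧ x.2.2.1 ≡ b [MOD m] ∧ nt x ≡ b' [MOD m']) ∧
        ¬ GoodK A₁ A₂ (N / W) κ N D E G (key A₁ A₂ N D G x)) with hBs
  have hmain : |∑ d ∈ RG z D₂, ∑ d' ∈ RG z D₂, β d * β d' *
      ∑ x ∈ Q.filter (fun x => ND A₂ x d d' ∧
        (badp (gq A₂ x) (m * m') : ℝ) ≤ Y ∧ x.2.2.1 ≡ b [MOD m] ∧ nt x ≡ b' [MOD m']),
      ((if d ∣ ph A₁ x then (1 : ℝ) else 0) - 1 / d) *
      ((if d' ∣ ph' A₁ x then (1 : ℝ) else 0) - 1 / d')| ≤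
      ∑ d ∈ RG z D₂, ∑ d' ∈ RG z D₂, |gs d d'| +
      ∑ d ∈ RG z D₂, ∑ d' ∈ RG z D₂, ∑ x ∈ Bs d d',
        |((if d ∣ ph A₁ x then (1 : ℝ) else 0) - 1 / d) *
        ((if d' ∣ ph' A₁ x then (1 : ℝ) else 0) - 1 / d')| := by
    rw [← sum_add_distrib]
    refine (abs_sum_le_sum_abs _ _).trans (sum_le_sum fun d _ => ?_)
    rw [← sum_add_distrib]
    refine (abs_sum_le_sum_abs _ _).trans (sum_le_sum fun d' _ => ?_)
    rw [hsplit, abs_mul]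
    refine (mul_le_of_le_one_left (abs_nonneg _) (hββ d d')).trans ?_
    refine (abs_add_le _ _).trans (add_le_add le_rfl ?_)
    exact abs_sum_le_sum_abs _ _
  refine hmain.trans ?_
  -- the bad part
  set δ : ℝ := 2 * W * (1 / G + 1 / E) with hδ
  have hδ0 : 0 ≤ δ := by positivity
  set Bad := Q.filter (fun x => ¬ GoodK A₁ A₂ (N / W) κ N D E G (key A₁ A₂ N D G x)) with hBad
  have hbad1 := bad_sum (z := z) hA₁ hA₂ hW hκ.le hκ1 hN hD hE hD₂ hD₂N hCR hR Bad (filter_subset _ _) Bs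
    (fun d d' x hx => by
      simp only [hBs, mem_filter] at hx
      exact mem_filter.2 ⟨hx.1, hx.2.2⟩)
  have hM0 : 0 < N / W := by positivity
  have hΔ : 0 < 1 / (G : ℝ) + 1 / E + 1 / N := by positivity
  have hSS : ((SS (N / W) κ δ).card : ℝ) ≤ 156 * (N * (1 / G + 1 / E + 1 / N)) := by
    refine (card_SS hM0.le hκ.le hκ1 hδ0).trans ?_
    have e1 : δ * (N / W) = 2 * (N * (1 / G + 1 / E)) := by
      rw [hδ]; field_simp
    have e2 : N * (1 / G + 1 / E + 1 / N) = N * (1 / G + 1 / E) + 1 := by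
      rw [mul_add, mul_one_div_cancel hN0.ne']
    rw [e1, e2]
    linarith
  have hω : min (26 * δ) 1 + 1 / E ≤ 53 * W * (1 / G + 1 / E + 1 / N) := by
    have e1 : min (26 * δ) 1 ≤ 26 * δ := min_le_left _ _
    have e2 : 0 < 1 / E := by positivity
    have e3 : 0 < 1 / N := by positivity
    have e4 : 0 < 1 / (G : ℝ) := by positivity
    rw [hδ] at e1 ⊢
    nlinarith
  have hbadcard : (Bad.card : ℝ) ≤ (312 * CA + 53 * W * CC) * (N ^ ε₀ * T * (N * (1 / G + 1 / E + 1 / N))) := by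
    have hsub : Bad ⊆ Q.filter (fun x => x.2.2.1 ∈ SS (N / W) κ δ) ∪
        (Q.filter (fun x => nt x ∈ SS (N / W) κ δ) ∪
        Q.filter (fun x => (x.2.1 : ℝ) ≤ (1 + min (26 * δ) 1) * E ∨
          (1 - min (26 * δ) 1) * (2 * E) ≤ x.2.1)) := by
      intro x hx
      rw [hBad, mem_filter] at hx
      rw [mem_union, mem_union, mem_filter, mem_filter, mem_filter]
      rcases bad_cases hA₁ hA₂ hW hκ.le hN hD hE hDE hG hGD hx.1 hx.2 with h | h | h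
      · exact Or.inl ⟨hx.1, h⟩
      · exact Or.inr (Or.inl ⟨hx.1, h⟩)
      · exact Or.inr (Or.inr ⟨hx.1, h⟩)
    have hcard : (Bad.card : ℝ) ≤ (Q.filter (fun x => x.2.2.1 ∈ SS (N / W) κ δ)).card +
        ((Q.filter (fun x => nt x ∈ SS (N / W) κ δ)).card +
        (Q.filter (fun x => (x.2.1 : ℝ) ≤ (1 + min (26 * δ) 1) * E ∨
          (1 - min (26 * δ) 1) * (2 * E) ≤ x.2.1)).card) := by
      have e1 := card_le_card hsub
      have e2 := card_union_le (Q.filter (fun x => x.2.2.1 ∈ SS (N / W) κ δ))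
        (Q.filter (fun x => nt x ∈ SS (N / W) κ δ) ∪
        Q.filter (fun x => (x.2.1 : ℝ) ≤ (1 + min (26 * δ) 1) * E ∨
          (1 - min (26 * δ) 1) * (2 * E) ≤ x.2.1))
      have e3 := card_union_le (Q.filter (fun x => nt x ∈ SS (N / W) κ δ))
        (Q.filter (fun x => (x.2.1 : ℝ) ≤ (1 + min (26 * δ) 1) * E ∨
          (1 - min (26 * δ) 1) * (2 * E) ≤ x.2.1))
      exact_mod_cast e1.trans (e2.trans (by omega))
    obtain ⟨a1, a2⟩ := hA N D E hN hD hE (SS (N / W) κ δ) (filter_subset _ _)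
    have a3 := hC N D E (min (26 * δ) 1) hN hD hE hEN (le_min (by positivity) zero_le_one)
      (min_le_right _ _)
    have f1 : CA * N ^ ε₀ * ((SS (N / W) κ δ).card * (N / (D * E))) ≤
        156 * CA * (N ^ ε₀ * T * (N * (1 / G + 1 / E + 1 / N))) := by
      calc CA * N ^ ε₀ * ((SS (N / W) κ δ).card * (N / (D * E)))
          ≤ CA * N ^ ε₀ * ((156 * (N * (1 / G + 1 / E + 1 / N))) * (N / (D * E))) := by
            apply mul_le_mul_of_nonneg_left _ (by positivity)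
            exact mul_le_mul_of_nonneg_right hSS (by positivity)
        _ = 156 * CA * (N ^ ε₀ * T * (N * (1 / G + 1 / E + 1 / N))) := by rw [hT]; ring
    have f2 : CC * N ^ ε₀ * (N * (N / (D * E)) * (min (26 * δ) 1 + 1 / E)) ≤
        53 * W * CC * (N ^ ε₀ * T * (N * (1 / G + 1 / E + 1 / N))) := by
      calc CC * N ^ ε₀ * (N * (N / (D * E)) * (min (26 * δ) 1 + 1 / E))
          ≤ CC * N ^ ε₀ * (N * (N / (D * E)) * (53 * W * (1 / G + 1 / E + 1 / N))) := by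
            apply mul_le_mul_of_nonneg_left _ (by positivity)
            exact mul_le_mul_of_nonneg_left hω (by positivity)
        _ = 53 * W * CC * (N ^ ε₀ * T * (N * (1 / G + 1 / E + 1 / N))) := by rw [hT]; ring
    refine hcard.trans ?_
    have : (312 * CA + 53 * W * CC) * (N ^ ε₀ * T * (N * (1 / G + 1 / E + 1 / N))) =
      156 * CA * (N ^ ε₀ * T * (N * (1 / G + 1 / E + 1 / N))) +
      (156 * CA * (N ^ ε₀ * T * (N * (1 / G + 1 / E + 1 / N))) +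
      53 * W * CC * (N ^ ε₀ * T * (N * (1 / G + 1 / E + 1 / N)))) := by ring
    rw [this]
    exact add_le_add (a1.trans f1) (add_le_add (a2.trans f1) (a3.trans f2))
  have hbadfin : ∑ d ∈ RG z D₂, ∑ d' ∈ RG z D₂, ∑ x ∈ Bs d d',
        |((if d ∣ ph A₁ x then (1 : ℝ) else 0) - 1 / d) *
        ((if d' ∣ ph' A₁ x then (1 : ℝ) else 0) - 1 / d')| ≤
      Cb * (N ^ ε * T * (N * (1 / G + 1 / E + 1 / N))) := by
    refine hbad1.trans ?_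
    have e1 : (CR * (3 * A₁ * N) ^ ε₀) ^ 2 = CR ^ 2 * (3 * A₁) ^ (2 * ε₀) * N ^ (2 * ε₀) := by
      have g1 : (3 * (A₁ : ℝ) * N) ^ ε₀ = (3 * A₁) ^ ε₀ * N ^ ε₀ :=
        Real.mul_rpow (by positivity) hN0.le
      have g2 : ((3 * (A₁ : ℝ)) ^ ε₀) ^ 2 = (3 * A₁) ^ (2 * ε₀) := by
        rw [← Real.rpow_natCast, ← Real.rpow_mul (by positivity)]
        congr 1
        push_cast
        ring
      have g3 : (N ^ ε₀) ^ 2 = N ^ (2 * ε₀) := by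
        rw [← Real.rpow_natCast, ← Real.rpow_mul hN0.le]
        congr 1
        push_cast
        ring
      rw [g1, mul_pow, mul_pow, g2, g3]
      ring
    rw [e1]
    calc (Bad.card : ℝ) * (CR ^ 2 * (3 * A₁) ^ (2 * ε₀) * N ^ (2 * ε₀))
        ≤ ((312 * CA + 53 * W * CC) * (N ^ ε₀ * T * (N * (1 / G + 1 / E + 1 / N)))) *
          (CR ^ 2 * (3 * A₁) ^ (2 * ε₀) * N ^ (2 * ε₀)) :=
          mul_le_mul_of_nonneg_right hbadcard (by positivity)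
      _ = Cb * ((N ^ ε₀ * N ^ (2 * ε₀)) * T * (N * (1 / G + 1 / E + 1 / N))) := by
          rw [hCb]; ring
      _ ≤ Cb * (N ^ ε * T * (N * (1 / G + 1 / E + 1 / N))) := by
          apply mul_le_mul_of_nonneg_left _ hCb0.le
          apply mul_le_mul_of_nonneg_right _ (by positivity)
          apply mul_le_mul_of_nonneg_right _ hT0.le
          rw [← Real.rpow_add hN0]
          apply Real.rpow_le_rpow_of_exponent_le hN
          rw [hε₀def]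
          linarith
  -- the good part
  set Z : ℝ := (N / E) * ((N ^ 2 / E) ^ (1 / 4 : ℝ) * D₂ ^ 2 +
    (N / E) ^ (1 / 2 : ℝ) * D₂ ^ (5 / 2 : ℝ)) + (D + N / D) * D₂ ^ 2 with hZ
  have hD₂0 : 0 < D₂ := by linarith
  have hZ0 : 0 ≤ Z := by positivity
  have hgoodfin : ∑ d ∈ RG z D₂, ∑ d' ∈ RG z D₂, |gs d d'| ≤
      Cg * (N ^ ε * T * ((Y * m * m') ^ 3 * G ^ 2 * Z)) := by
    have e1 : ∑ d ∈ RG z D₂, ∑ d' ∈ RG z D₂, |gs d d'| ≤
        ∑ d ∈ RG z D₂, ∑ d' ∈ RG z D₂, ∑ k ∈ KK A₁ A₂ N D E G,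
        C₄ * (3 * A₂ * N ^ 2) ^ ε₀ * (A₁ * Y * m * m') ^ 3 * (81 * A₂ * VV N D E d d' k.1) :=
      sum_le_sum fun d hd => sum_le_sum fun d' hd' => good_sum hK hC₄ hε₀ hS hW hκ.le hκ1 hD hE hDE
        hDD₂ hG hGD hY hm hm' hmA hmA' hz hd hd'
    refine e1.trans ?_
    have e2 : ∑ d ∈ RG z D₂, ∑ d' ∈ RG z D₂, ∑ k ∈ KK A₁ A₂ N D E G,
        C₄ * (3 * A₂ * N ^ 2) ^ ε₀ * (A₁ * Y * m * m') ^ 3 * (81 * A₂ * VV N D E d d' k.1) =
        (C₄ * (3 * A₂ * N ^ 2) ^ ε₀ * (A₁ * Y * m * m') ^ 3 * (81 * A₂)) *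
        ∑ d ∈ RG z D₂, ∑ d' ∈ RG z D₂, ∑ k ∈ KK A₁ A₂ N D E G, VV N D E d d' k.1 := by
      rw [mul_sum]
      refine sum_congr rfl fun d _ => ?_
      rw [mul_sum]
      refine sum_congr rfl fun d' _ => ?_
      rw [mul_sum]
      refine sum_congr rfl fun k _ => ?_
      ring
    rw [e2]
    have e3 := sum_all (z := z) (G := G) (A₁ := A₁) (A₂ := A₂) hε₀ hA₁ hA₂ hN0 hD0 hE hEN hD₂
    have e4 : (3 * (A₂ : ℝ) * N ^ 2) ^ ε₀ = (3 * A₂) ^ ε₀ * N ^ (2 * ε₀) := by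
      rw [Real.mul_rpow (by positivity) (by positivity)]
      congr 1
      rw [← Real.rpow_natCast, ← Real.rpow_mul hN0.le]
      push_cast
      rfl
    have e5 : (3 * (A₂ : ℝ) * N) ^ ε₀ = (3 * A₂) ^ ε₀ * N ^ ε₀ :=
      Real.mul_rpow (by positivity) hN0.le
    have hNe : 1 ≤ N ^ ε₀ := Real.one_le_rpow hN hε₀.le
    have e6 : 3 * A₂ * (N / E) *
        (2 * ((N ^ 2 / E) ^ (1 / 4 : ℝ) * D₂ ^ 2) + (N / E) ^ (1 / 2 : ℝ) * D₂ ^ (5 / 2 : ℝ)) +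
      (D + N / D) * ((1 + 1 / ε₀) * (3 * A₂ * N) ^ ε₀) * D₂ ^ 2 ≤
      (6 * A₂ + (1 + 1 / ε₀) * (3 * A₂) ^ ε₀) * (N ^ ε₀ * Z) := by
      rw [e5]
      set U1 : ℝ := (N ^ 2 / E) ^ (1 / 4 : ℝ) * D₂ ^ 2 with hU1
      set U2 : ℝ := (N / E) ^ (1 / 2 : ℝ) * D₂ ^ (5 / 2 : ℝ) with hU2
      set U3 : ℝ := (D + N / D) * D₂ ^ 2 with hU3
      set c : ℝ := (1 + 1 / ε₀) * (3 * A₂) ^ ε₀ with hc
      have u1 : 0 ≤ U1 := by positivity
      have u2 : 0 ≤ U2 := by positivity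
      have u3 : 0 ≤ U3 := by positivity
      have c0 : 0 ≤ c := by positivity
      have k1 : (D + N / D) * ((1 + 1 / ε₀) * ((3 * A₂) ^ ε₀ * N ^ ε₀)) * D₂ ^ 2 =
          c * N ^ ε₀ * U3 := by rw [hc, hU3]; ring
      rw [k1]
      have k2 : 3 * (A₂ : ℝ) * (N / E) * (2 * U1 + U2) ≤ 6 * A₂ * (N ^ ε₀ * ((N / E) * (U1 + U2))) := by
        have : 3 * (A₂ : ℝ) * (N / E) * (2 * U1 + U2) ≤ 6 * A₂ * (1 * ((N / E) * (U1 + U2))) := by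
          have : 0 ≤ (A₂ : ℝ) * (N / E) * U2 := by positivity
          nlinarith
        refine this.trans ?_
        apply mul_le_mul_of_nonneg_left _ (by positivity)
        exact mul_le_mul_of_nonneg_right hNe (by positivity)
      have k3 : 0 ≤ c * (N ^ ε₀ * ((N / E) * (U1 + U2))) := by positivity
      have k4 : 0 ≤ 6 * A₂ * (N ^ ε₀ * U3) := by positivity
      have k5 : (6 * A₂ + c) * (N ^ ε₀ * Z) = 6 * A₂ * (N ^ ε₀ * ((N / E) * (U1 + U2))) +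
          c * N ^ ε₀ * U3 + c * (N ^ ε₀ * ((N / E) * (U1 + U2))) + 6 * A₂ * (N ^ ε₀ * U3) := by
        rw [hZ]
        ring
      rw [k5]
      linarith
    calc (C₄ * (3 * A₂ * N ^ 2) ^ ε₀ * (A₁ * Y * m * m') ^ 3 * (81 * A₂)) *
        ∑ d ∈ RG z D₂, ∑ d' ∈ RG z D₂, ∑ k ∈ KK A₁ A₂ N D E G, VV N D E d d' k.1
        ≤ (C₄ * (3 * A₂ * N ^ 2) ^ ε₀ * (A₁ * Y * m * m') ^ 3 * (81 * A₂)) *
          (3 * A₁ * G ^ 2 * (N / (D * E)) * ((6 * A₂ + (1 + 1 / ε₀) * (3 * A₂) ^ ε₀) *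
            (N ^ ε₀ * Z))) := by
          apply mul_le_mul_of_nonneg_left _ (by positivity)
          refine e3.trans ?_
          exact mul_le_mul_of_nonneg_left e6 (by positivity)
      _ = Cg * ((N ^ (2 * ε₀) * N ^ ε₀) * T * ((Y * m * m') ^ 3 * G ^ 2 * Z)) := by
          rw [e4, hCg, hT]
          ring
      _ ≤ Cg * (N ^ ε * T * ((Y * m * m') ^ 3 * G ^ 2 * Z)) := by
          apply mul_le_mul_of_nonneg_left _ hCg0.le
          apply mul_le_mul_of_nonneg_right _ (by positivity)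
          apply mul_le_mul_of_nonneg_right _ hT0.le
          rw [← Real.rpow_add hN0]
          apply Real.rpow_le_rpow_of_exponent_le hN
          rw [hε₀def]
          linarith
  refine (add_le_add hgoodfin hbadfin).trans ?_
  have p1 : 0 ≤ Cb * (N ^ ε * T * ((Y * m * m') ^ 3 * G ^ 2 * Z)) := by positivity
  have p2 : 0 ≤ Cg * (N ^ ε * T * (N * (1 / G + 1 / E + 1 / N))) := by positivity
  have p3 : (Cb + Cg) * N ^ ε * T * (N * (1 / G + 1 / E + 1 / N) + (Y * m * m') ^ 3 * G ^ 2 * Z) =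
      Cg * (N ^ ε * T * ((Y * m * m') ^ 3 * G ^ 2 * Z)) +
      Cb * (N ^ ε * T * (N * (1 / G + 1 / E + 1 / N))) +
      Cb * (N ^ ε * T * ((Y * m * m') ^ 3 * G ^ 2 * Z)) +
      Cg * (N ^ ε * T * (N * (1 / G + 1 / E + 1 / N))) := by ring
  rw [p3]
  linarith

end Pool.Agent.GapTwo
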