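import Pool.Agent.Work.MP_1ea053_nt.Interface
import Pool.Agent.Work.MP_081200_nt.Div

/-!
# Block KG, part A: quadruples, boxes, counts
-/

set_option autoImplicit false

namespace Pool.Agent.GapTwo.KG_

open Finset Filter Pool.Agent.GapTwo
open scoped Classical Topology

lemma mem_II {M κ : ℝ} (hM : 0 ≤ M) (hκ : 0 ≤ κ) {n : ℕ} :
    n ∈ II M κ ↔ M < n ∧ (n : ℝ) ≤ (1 + κ) * M := by
  unfold II
  rw [mem_Ioc, Nat.floor_lt hM, Nat.le_floor_iff (by positivity)]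

lemma mem_QQ {A₁ A₂ : ℕ} {M κ D E : ℝ} (hM : 0 ≤ M) (hκ : 0 ≤ κ) (hD : 0 ≤ D) (hE : 0 ≤ E)
    {x : ℕ × ℕ × ℕ × ℕ} :
    x ∈ QQ A₁ A₂ (II M κ) D E ↔
      (D < x.1 ∧ (x.1 : ℝ) ≤ 2 * D) ∧ (E < x.2.1 ∧ (x.2.1 : ℝ) ≤ 2 * E) ∧
      (M < x.2.2.1 ∧ (x.2.2.1 : ℝ) ≤ (1 + κ) * M) ∧ 1 ≤ x.2.2.2 ∧
      x.1 ∣ A₁ * x.2.2.1 + 1 ∧ x.2.1 ∣ A₂ * x.2.2.1 + 1 ∧
      (M < (nt x : ℕ) ∧ ((nt x : ℕ) : ℝ) ≤ (1 + κ) * M) := by
  unfold QQ
  rw [mem_filter, mem_product, mem_product, mem_product, mem_Ioc, mem_Ioc, mem_Icc, mem_II hM hκ,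
    Nat.floor_lt hD, Nat.floor_lt hE, Nat.le_floor_iff (by positivity),
    Nat.le_floor_iff (by positivity), mem_II hM hκ]
  constructor
  · rintro ⟨⟨h1, h2, h3, h4⟩, h5, h6, h7⟩
    exact ⟨h1, h2, h3, h4.1, h5, h6, h7⟩
  · rintro ⟨h1, h2, h3, h4, h5, h6, h7⟩
    refine ⟨⟨h1, h2, h3, h4, ?_⟩, h5, h6, h7⟩
    have hnt : nt x ∈ II M κ := (mem_II hM hκ).2 h7
    have hle : nt x ≤ (II M κ).sup id := le_sup (f := id) hnt
    refine le_trans ?_ hle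
    have hd : 1 ≤ x.1 := by
      have : (0 : ℝ) < x.1 := lt_of_le_of_lt hD h1.1
      exact_mod_cast this
    have he : 1 ≤ x.2.1 := by
      have : (0 : ℝ) < x.2.1 := lt_of_le_of_lt hE h2.1
      exact_mod_cast this
    unfold nt
    have : 1 * x.2.2.2 ≤ x.1 * x.2.1 * x.2.2.2 := Nat.mul_le_mul_right _ (Nat.mul_pos hd he)
    omega

/-- `n` as a function of `(d₁, φ)`. -/
noncomputable def nr (A₁ : ℕ) (d φ : ℝ) : ℝ := (d * φ - 1) / A₁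

/-- `e` as a function of `(d₁, φ)`. -/
noncomputable def er (A₁ A₂ g : ℕ) (d φ : ℝ) : ℝ := (A₂ * nr A₁ d φ + 1) / g

/-- All points of the box satisfy the size conditions. -/
def Good (A₁ A₂ : ℕ) (M κ E : ℝ) (g t x₀ D' y₀ F' : ℕ) : Prop :=
  ∀ d φ : ℕ, x₀ < d → d ≤ x₀ + D' → y₀ < φ → φ ≤ y₀ + F' →
    M < nr A₁ d φ ∧ nr A₁ d φ ≤ (1 + κ) * M ∧ E < er A₁ A₂ g d φ ∧ er A₁ A₂ g d φ ≤ 2 * E ∧
    nr A₁ d φ + d * er A₁ A₂ g d φ * t ≤ (1 + κ) * M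

/-- The count of quadruples of a good box. -/
lemma card_eq (A₁ A₂ : ℕ) (hA₁ : 0 < A₁) (M κ D E : ℝ) (hM : 0 ≤ M) (hκ : 0 ≤ κ) (hD : 0 ≤ D)
    (hE : 0 ≤ E) (g t m b m' b' a a' x₀ D' y₀ F' : ℕ) (hg : 0 < g) (ht : 1 ≤ t)
    (hx₀ : ⌊D⌋₊ ≤ x₀) (hx₁ : D' ≠ 0 → ((x₀ + D' : ℕ) : ℝ) ≤ 2 * D)
    (hgood : Good A₁ A₂ M κ E g t x₀ D' y₀ F') :
    (((QQ A₁ A₂ (II M κ) D E).filter fun x => (gq A₂ x = g ∧ x.2.2.2 = t ∧
      (x₀ < x.1 ∧ x.1 ≤ x₀ + D') ∧ (y₀ < ph A₁ x ∧ ph A₁ x ≤ y₀ + F')) ∧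
      (x.2.2.1 ≡ b [MOD m] ∧ nt x ≡ b' [MOD m']) ∧ a ∣ ph A₁ x ∧ a' ∣ ph' A₁ x).card : ℝ) =
    Rct A₁ A₂ g t m b m' b' a a' x₀ y₀ D' F' := by
  unfold Rct
  congr 1
  have hA₁' : (0 : ℝ) < A₁ := by exact_mod_cast hA₁
  have hg' : (0 : ℝ) < g := by exact_mod_cast hg
  -- facts for a quadruple
  have fact : ∀ x : ℕ × ℕ × ℕ × ℕ, x.1 ∣ A₁ * x.2.2.1 + 1 → x.2.1 ∣ A₂ * x.2.2.1 + 1 →
      x.1 * ph A₁ x = A₁ * x.2.2.1 + 1 ∧ A₂ * x.2.2.1 + 1 = gq A₂ x * x.2.1 := by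
    intro x h1 h2
    unfold ph gq
    exact ⟨Nat.mul_div_cancel' h1, (Nat.div_mul_cancel h2).symm⟩
  refine card_bij (fun x _ => (x.1, ph A₁ x)) ?_ ?_ ?_
  · intro x hx
    rw [mem_filter, mem_QQ hM hκ hD hE] at hx
    obtain ⟨⟨h1, h2, h3, h4, h5, h6, h7⟩, ⟨hgx, htx, hbx, hby⟩, ⟨hc1, hc2⟩, ha, ha'⟩ := hx
    rw [mem_filter, mem_product, mem_Ioc, mem_Ioc]
    refine ⟨⟨hbx, hby⟩, ?_⟩
    have hf := fact x h5 h6
    refine ⟨x.2.2.1, x.2.1, hf.1, ?_, hc1, ?_, ha, ?_⟩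
    · rw [hf.2, hgx]
    · have := hc2
      unfold nt at this
      rw [htx] at this
      exact this
    · have := ha'
      unfold ph' at this
      rw [htx] at this
      exact this
  · intro x hx x' hx' hxx
    rw [mem_filter, mem_QQ hM hκ hD hE] at hx hx'
    obtain ⟨⟨h1, h2, h3, h4, h5, h6, h7⟩, ⟨hgx, htx, hbx, hby⟩, ⟨hc1, hc2⟩, ha, ha'⟩ := hx
    obtain ⟨⟨i1, i2, i3, i4, i5, i6, i7⟩, ⟨hgx', htx', hbx', hby'⟩, ⟨hc1', hc2'⟩, ia, ia'⟩ := hx'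
    have e1 : x.1 = x'.1 := (Prod.ext_iff.1 hxx).1
    have e2 : ph A₁ x = ph A₁ x' := (Prod.ext_iff.1 hxx).2
    have f1 := fact x h5 h6
    have f2 := fact x' i5 i6
    have e3 : x.2.2.1 = x'.2.2.1 := by
      have : A₁ * x.2.2.1 + 1 = A₁ * x'.2.2.1 + 1 := by
        rw [← f1.1, ← f2.1, e1, e2]
      exact Nat.eq_of_mul_eq_mul_left hA₁ (by omega)
    have e4 : x.2.1 = x'.2.1 := by
      have : g * x.2.1 = g * x'.2.1 := by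
        rw [← hgx] 
        rw [← f1.2, hgx, ← hgx', ← f2.2, e3]
      exact Nat.eq_of_mul_eq_mul_left hg this
    exact Prod.ext e1 (Prod.ext e4 (Prod.ext e3 (htx.trans htx'.symm)))
  · rintro ⟨d, φ⟩ hz
    rw [mem_filter, mem_product, mem_Ioc, mem_Ioc] at hz
    obtain ⟨⟨hd, hφ⟩, n, e, c1, c2, c3, c4, c5, c6⟩ := hz
    simp only at hd hφ c1 c4 c5 c6
    have hgd := hgood d φ hd.1 hd.2 hφ.1 hφ.2
    have hn : nr A₁ d φ = n := by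
      unfold nr
      rw [div_eq_iff hA₁'.ne']
      have : ((d * φ : ℕ) : ℝ) = ((A₁ * n + 1 : ℕ) : ℝ) := by rw [c1]
      push_cast at this
      linarith
    have he : er A₁ A₂ g d φ = e := by
      unfold er
      rw [hn, div_eq_iff hg'.ne']
      have : ((A₂ * n + 1 : ℕ) : ℝ) = ((g * e : ℕ) : ℝ) := by rw [c2]
      push_cast at this
      linarith
    rw [hn, he] at hgd
    obtain ⟨g1, g2, g3, g4, g5⟩ := hgd
    have hd0 : 0 < d := by omega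
    have he0 : 0 < e := by
      have : (0 : ℝ) < e := lt_of_le_of_lt hE g3
      exact_mod_cast this
    have hph : (A₁ * n + 1) / d = φ := by
      rw [← c1]
      exact Nat.mul_div_cancel_left φ hd0
    have hgq : (A₂ * n + 1) / e = g := by
      rw [c2]
      exact Nat.mul_div_cancel g he0
    have hntv : ((nt (d, e, n, t) : ℕ) : ℝ) = n + d * e * t := by
      unfold nt
      push_cast
      ring
    refine ⟨(d, e, n, t), ?_, ?_⟩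
    · rw [mem_filter, mem_QQ hM hκ hD hE]
      refine ⟨⟨⟨?_, ?_⟩, ⟨g3, g4⟩, ⟨g1, g2⟩, ht, Dvd.intro _ c1, ?_, ?_, ?_⟩,
        ⟨hgq, rfl, hd, ?_⟩, ⟨c3, c4⟩, ?_, ?_⟩
      · exact (Nat.floor_lt hD).1 (lt_of_le_of_lt hx₀ hd.1)
      · refine le_trans ?_ (hx₁ (by omega))
        exact_mod_cast hd.2
      · show e ∣ A₂ * n + 1
        rw [c2]
        exact Dvd.intro_left _ rfl
      · rw [hntv]
        have : (0 : ℝ) ≤ (d : ℝ) * e * t := by positivity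
        linarith
      · rw [hntv]
        exact g5
      · show y₀ < (A₁ * n + 1) / d ∧ (A₁ * n + 1) / d ≤ y₀ + F'
        rw [hph]
        exact hφ
      · show a ∣ (A₁ * n + 1) / d
        rw [hph]
        exact c5
      · show a' ∣ (A₁ * n + 1) / d + A₁ * e * t
        rw [hph]
        exact c6
    · show (d, (A₁ * n + 1) / d) = (d, φ)
      rw [hph]

/-- The inner sum over a box in terms of the counts. -/
lemma sum_eq (Q : Finset (ℕ × ℕ × ℕ × ℕ)) (A₁ : ℕ) (d d' : ℕ) (p : ℕ × ℕ × ℕ × ℕ → Prop)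
    [DecidablePred p] :
    ∑ x ∈ Q.filter p, ((if d ∣ ph A₁ x then (1 : ℝ) else 0) - 1 / d) *
      ((if d' ∣ ph' A₁ x then (1 : ℝ) else 0) - 1 / d') =
    ((Q.filter fun x => p x ∧ d ∣ ph A₁ x ∧ d' ∣ ph' A₁ x).card : ℝ)
      - ((Q.filter fun x => p x ∧ d ∣ ph A₁ x ∧ 1 ∣ ph' A₁ x).card : ℝ) / d'
      - ((Q.filter fun x => p x ∧ 1 ∣ ph A₁ x ∧ d' ∣ ph' A₁ x).card : ℝ) / d
      + ((Q.filter fun x => p x ∧ 1 ∣ ph A₁ x ∧ 1 ∣ ph' A₁ x).card : ℝ) / (d * d') := by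
  have hc : ∀ a a' : ℕ, ((Q.filter fun x => p x ∧ a ∣ ph A₁ x ∧ a' ∣ ph' A₁ x).card : ℝ) =
      ∑ x ∈ Q.filter p, (if a ∣ ph A₁ x then (1 : ℝ) else 0) * (if a' ∣ ph' A₁ x then 1 else 0) := by
    intro a a'
    rw [← filter_filter, card_filter, Nat.cast_sum]
    refine sum_congr rfl fun x _ => ?_
    split_ifs with h1 h2 h3 <;> simp_all
  rw [hc, hc, hc, hc, sum_div, sum_div, sum_div, ← sum_sub_distrib, ← sum_sub_distrib,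
    ← sum_add_distrib]
  refine sum_congr rfl fun x _ => ?_
  simp only [one_dvd, if_true, mul_one, one_mul]
  have h : (1 : ℝ) / (d * d') = 1 / d * (1 / d') := by rw [one_div_mul_one_div]
  rw [h]
  ring

end Pool.Agent.GapTwo.KG_
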