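import Pool.Agent.Work.MP_1ea053_nt.KGA

/-!
# Block KG, part B: the boxes that are not good
-/

set_option autoImplicit false

namespace Pool.Agent.GapTwo.KG_

open Finset Filter Pool.Agent.GapTwo
open scoped Classical Topology

lemma one_add_log_le {ε x : ℝ} (hε : 0 < ε) (hx : 1 ≤ x) :
    1 + Real.log x ≤ (1 + 1 / ε) * x ^ ε := by
  have h1 := Real.log_le_rpow_div (by linarith : 0 ≤ x) hε
  have h2 : 1 ≤ x ^ ε := Real.one_le_rpow hx hε.le
  calc 1 + Real.log x ≤ x ^ ε + x ^ ε / ε := by linarith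
    _ = (1 + 1 / ε) * x ^ ε := by ring

lemma sum_inv_le {ε y : ℝ} (hε : 0 < ε) (hy : 1 ≤ y) :
    ∑ d ∈ Icc 1 ⌊y⌋₊, 1 / (d : ℝ) ≤ (1 + 1 / ε) * y ^ ε := by
  have h1 : ∑ d ∈ Icc 1 ⌊y⌋₊, 1 / (d : ℝ) = ((harmonic ⌊y⌋₊ : ℚ) : ℝ) := by
    rw [harmonic_eq_sum_Icc]
    push_cast
    simp only [one_div]
  have hf : 1 ≤ ⌊y⌋₊ := (Nat.one_le_floor_iff y).2 hy
  have hf' : (1 : ℝ) ≤ ⌊y⌋₊ := by exact_mod_cast hf
  rw [h1]
  refine (harmonic_le_one_add_log _).trans ?_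
  refine le_trans ?_ (one_add_log_le hε hy)
  have : Real.log ⌊y⌋₊ ≤ Real.log y :=
    Real.log_le_log (by linarith) (Nat.floor_le (by linarith))
  linarith

lemma RG_sub (z y : ℝ) : RG z y ⊆ Icc 1 ⌊y⌋₊ := filter_subset _ _

/-- The bracket, summed over the rough integers. -/
lemma sum_RG_le {ε : ℝ} (hε : 0 < ε) : ∃ C : ℝ, 1 ≤ C ∧ ∀ (z y T : ℝ) (n : ℕ), 1 ≤ y → y ≤ T →
    n ≠ 0 → (n : ℝ) ≤ T →
    ∑ d ∈ RG z y, |(if d ∣ n then (1 : ℝ) else 0) - 1 / d| ≤ C * T ^ ε := by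
  obtain ⟨C, hC, hdiv⟩ := Pool.Agent.Work.MP_081200_nt.div_bound ε hε
  refine ⟨C + (1 + 1 / ε), ?_, ?_⟩
  · have : 0 < 1 / ε := by positivity
    linarith
  intro z y T n hy hyT hn hnT
  have h1 : ∀ d ∈ RG z y, |(if d ∣ n then (1 : ℝ) else 0) - 1 / d| ≤
      (if d ∣ n then (1 : ℝ) else 0) + 1 / d := by
    intro d _
    have h0 : (0 : ℝ) ≤ 1 / d := by positivity
    split_ifs
    · rw [abs_le]; constructor <;> linarith
    · rw [abs_le]; constructor <;> linarith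
  refine (sum_le_sum h1).trans ?_
  rw [sum_add_distrib, add_mul]
  apply add_le_add
  · rw [← sum_filter, sum_const, nsmul_eq_mul, mul_one]
    have h2 : ((RG z y).filter fun d => d ∣ n) ⊆ n.divisors := by
      intro d hd
      rw [Nat.mem_divisors]
      exact ⟨(mem_filter.1 hd).2, hn⟩
    have h3 : (((RG z y).filter fun d => d ∣ n).card : ℝ) ≤ n.divisors.card := by
      exact_mod_cast card_le_card h2
    refine h3.trans ((hdiv n hn).trans ?_)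
    apply mul_le_mul_of_nonneg_left _ (by linarith)
    exact Real.rpow_le_rpow (by positivity) hnT hε.le
  · have h2 : ∑ d ∈ RG z y, 1 / (d : ℝ) ≤ ∑ d ∈ Icc 1 ⌊y⌋₊, 1 / (d : ℝ) :=
      sum_le_sum_of_subset_of_nonneg (RG_sub z y) fun _ _ _ => by positivity
    refine h2.trans ((sum_inv_le hε hy).trans ?_)
    apply mul_le_mul_of_nonneg_left _ (by positivity)
    exact Real.rpow_le_rpow (by linarith) hyT hε.le

/-- Perturbation of the quadruple. -/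
lemma pert {A₁ A₂ g n d φ e t d' φ' δ : ℝ} (hA₁ : 1 ≤ A₁) (hA₂ : 1 ≤ A₂) (hg : 0 < g)
    (hn : 1 ≤ n) (hd : 0 < d) (hφ : 0 < φ) (ht : 0 ≤ t) (h1 : d * φ = A₁ * n + 1)
    (h2 : A₂ * n + 1 = g * e) (hδ0 : 0 ≤ δ) (hδ : δ ≤ 1 / 26)
    (hd' : |d' - d| ≤ δ * d) (hφ' : |φ' - φ| ≤ δ * φ) :
    |(d' * φ' - 1) / A₁ - n| ≤ 6 * δ * n ∧
    |(A₂ * ((d' * φ' - 1) / A₁) + 1) / g - e| ≤ 6 * δ * e ∧
    (d' * φ' - 1) / A₁ + d' * ((A₂ * ((d' * φ' - 1) / A₁) + 1) / g) * t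
      ≤ (1 + 8 * δ) * (n + d * e * t) := by
  rw [abs_le] at hd' hφ'
  have hdl : (1 - δ) * d ≤ d' := by linarith [hd'.1]
  have hdu : d' ≤ (1 + δ) * d := by linarith [hd'.2]
  have hφl : (1 - δ) * φ ≤ φ' := by linarith [hφ'.1]
  have hφu : φ' ≤ (1 + δ) * φ := by linarith [hφ'.2]
  have h1δ : 0 < 1 - δ := by linarith
  have hd'0 : 0 < d' := lt_of_lt_of_le (by positivity) hdl
  have hφ'0 : 0 < φ' := lt_of_lt_of_le (by positivity) hφl
  have hP : 0 < d * φ := by positivity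
  have hup : d' * φ' ≤ (1 + 3 * δ) * (d * φ) := by
    calc d' * φ' ≤ ((1 + δ) * d) * ((1 + δ) * φ) := by
          apply mul_le_mul hdu hφu hφ'0.le (by positivity)
      _ = (1 + 2 * δ + δ * δ) * (d * φ) := by ring
      _ ≤ (1 + 3 * δ) * (d * φ) := by
          apply mul_le_mul_of_nonneg_right _ hP.le
          nlinarith
  have hlo : (1 - 3 * δ) * (d * φ) ≤ d' * φ' := by
    calc (1 - 3 * δ) * (d * φ) ≤ (1 - 2 * δ + δ * δ) * (d * φ) := by
          apply mul_le_mul_of_nonneg_right _ hP.le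
          nlinarith
      _ = ((1 - δ) * d) * ((1 - δ) * φ) := by ring
      _ ≤ d' * φ' := by
          apply mul_le_mul hdl hφl (by positivity) hd'0.le
  have hA₁0 : 0 < A₁ := by linarith
  have hn' : |(d' * φ' - 1) / A₁ - n| ≤ 6 * δ * n := by
    have e1 : (d' * φ' - 1) / A₁ - n = (d' * φ' - d * φ) / A₁ := by
      rw [h1]; field_simp; ring
    have e2 : |d' * φ' - d * φ| ≤ 3 * δ * (d * φ) := by
      rw [abs_le]
      constructor <;> nlinarith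
    have e3 : 3 * δ * (d * φ) ≤ 6 * δ * n * A₁ := by
      rw [h1]
      have : A₁ * n + 1 ≤ 2 * (n * A₁) := by nlinarith
      calc 3 * δ * (A₁ * n + 1) ≤ 3 * δ * (2 * (n * A₁)) :=
            mul_le_mul_of_nonneg_left this (by positivity)
        _ = 6 * δ * n * A₁ := by ring
    rw [e1, abs_div, abs_of_pos hA₁0, div_le_iff₀ hA₁0]
    exact e2.trans e3
  set n' := (d' * φ' - 1) / A₁ with hn'def
  have he0 : 0 < e := by
    have : 0 < g * e := by rw [← h2]; positivity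
    exact pos_of_mul_pos_right (by linarith) hg.le
  have he' : |(A₂ * n' + 1) / g - e| ≤ 6 * δ * e := by
    have e1 : (A₂ * n' + 1) / g - e = A₂ * (n' - n) / g := by
      have : e = (A₂ * n + 1) / g := by rw [h2]; field_simp
      rw [this]
      ring
    have e2 : |A₂ * (n' - n)| ≤ 6 * δ * (A₂ * n + 1) := by
      rw [abs_mul, abs_of_nonneg (by linarith : 0 ≤ A₂)]
      calc A₂ * |n' - n| ≤ A₂ * (6 * δ * n) := mul_le_mul_of_nonneg_left hn' (by linarith)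
        _ ≤ 6 * δ * (A₂ * n + 1) := by nlinarith
    rw [e1, abs_div, abs_of_pos hg, div_le_iff₀ hg]
    refine e2.trans ?_
    rw [h2]
    apply le_of_eq
    ring
  refine ⟨hn', he', ?_⟩
  set e' := (A₂ * n' + 1) / g with he'def
  rw [abs_le] at hn' he'
  have hn'u : n' ≤ (1 + 6 * δ) * n := by linarith [hn'.2]
  have he'u : e' ≤ (1 + 6 * δ) * e := by linarith [he'.2]
  have he'0 : 0 ≤ e' := by nlinarith [he'.1]
  have h3 : d' * e' ≤ (1 + 8 * δ) * (d * e) := by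
    calc d' * e' ≤ ((1 + δ) * d) * ((1 + 6 * δ) * e) := mul_le_mul hdu he'u he'0 (by positivity)
      _ = (1 + 7 * δ + 6 * (δ * δ)) * (d * e) := by ring
      _ ≤ (1 + 8 * δ) * (d * e) := by
          apply mul_le_mul_of_nonneg_right _ (by positivity)
          nlinarith
  have h4 : d' * e' * t ≤ (1 + 8 * δ) * (d * e) * t := mul_le_mul_of_nonneg_right h3 ht
  have h5 : (1 + 6 * δ) * n ≤ (1 + 8 * δ) * n := by nlinarith
  calc n' + d' * e' * t ≤ (1 + 8 * δ) * n + (1 + 8 * δ) * (d * e) * t := by linarith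
    _ = (1 + 8 * δ) * (n + d * e * t) := by ring

/-- Number of integers in an interval. -/
lemma card_le_len (S : Finset ℕ) (a b : ℝ) (hab : a ≤ b + 1) (h : ∀ n ∈ S, a ≤ n ∧ (n : ℝ) ≤ b) :
    (S.card : ℝ) ≤ b - a + 1 := by
  rcases S.eq_empty_or_nonempty with h0 | h0
  · subst h0
    simp
    linarith
  · have h1 : S ⊆ Icc (S.min' h0) (S.max' h0) := fun n hn =>
      mem_Icc.2 ⟨S.min'_le n hn, S.le_max' n hn⟩
    have h2 := card_le_card h1
    rw [Nat.card_Icc] at h2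
    have h3 := h _ (S.min'_mem h0)
    have h4 := h _ (S.max'_mem h0)
    have h5 : S.min' h0 ≤ S.max' h0 := S.min'_le_max' h0
    have h6 : (S.card : ℝ) ≤ (S.max' h0 : ℝ) + 1 - S.min' h0 := by
      have : (S.card : ℝ) ≤ ((S.max' h0 + 1 - S.min' h0 : ℕ) : ℝ) := by exact_mod_cast h2
      rw [Nat.cast_sub (by omega)] at this
      push_cast at this
      exact this
    linarith [h3.1, h4.2]

/-- The step of the grid for `d₁`. -/
noncomputable def hD (D : ℝ) (G : ℕ) : ℕ := ⌈D / G⌉₊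

/-- The step of the grid for `φ`. -/
noncomputable def hF (N D : ℝ) (G : ℕ) : ℕ := ⌈N / (D * G)⌉₊

/-- The box of a quadruple. -/
noncomputable def key (A₁ A₂ : ℕ) (N D : ℝ) (G : ℕ) (x : ℕ × ℕ × ℕ × ℕ) : ℕ × ℕ × ℕ × ℕ :=
  (gq A₂ x, x.2.2.2, (x.1 - ⌊D⌋₊ - 1) / hD D G, (ph A₁ x - 1) / hF N D G)

/-- Good boxes. -/
def GoodK (A₁ A₂ : ℕ) (M κ N D E : ℝ) (G : ℕ) (k : ℕ × ℕ × ℕ × ℕ) : Prop :=
  Good A₁ A₂ M κ E k.1 k.2.1 (⌊D⌋₊ + k.2.2.1 * hD D G)
    (min (hD D G) (⌊2 * D⌋₊ - (⌊D⌋₊ + k.2.2.1 * hD D G))) (k.2.2.2 * hF N D G) (hF N D G)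

/-- The integers close to the ends. -/
noncomputable def SS (M κ δ : ℝ) : Finset ℕ :=
  (II M κ).filter fun n => (n : ℝ) ≤ (1 + 26 * δ) * M ∨ (1 - 26 * δ) * ((1 + κ) * M) ≤ n

lemma card_SS {M κ δ : ℝ} (hM : 0 ≤ M) (hκ : 0 ≤ κ) (hκ1 : κ ≤ 1) (hδ : 0 ≤ δ) :
    ((SS M κ δ).card : ℝ) ≤ 78 * (δ * M) + 2 := by
  unfold SS
  rw [filter_or]
  refine (Nat.cast_le.2 (card_union_le _ _)).trans ?_
  push_cast
  have hδM : 0 ≤ δ * M := by positivity
  have h1 : (((II M κ).filter fun n : ℕ => (n : ℝ) ≤ (1 + 26 * δ) * M).card : ℝ) ≤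
      (1 + 26 * δ) * M - M + 1 := by
    apply card_le_len
    · nlinarith
    · intro n hn
      rw [mem_filter, mem_II hM hκ] at hn
      exact ⟨hn.1.1.le, hn.2⟩
  have h2 : (((II M κ).filter fun n : ℕ => (1 - 26 * δ) * ((1 + κ) * M) ≤ (n : ℝ)).card : ℝ) ≤
      (1 + κ) * M - (1 - 26 * δ) * ((1 + κ) * M) + 1 := by
    apply card_le_len
    · have : 0 ≤ 26 * δ * ((1 + κ) * M) := by positivity
      nlinarith
    · intro n hn
      rw [mem_filter, mem_II hM hκ] at hn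
      exact ⟨hn.2, hn.1.2⟩
  have h3 : κ * (δ * M) ≤ δ * M := by nlinarith
  nlinarith

lemma div_eq_iff' {a h i : ℕ} (hh : 0 < h) : a / h = i ↔ i * h ≤ a ∧ a < i * h + h := by
  constructor
  · rintro rfl
    refine ⟨Nat.div_mul_le_self a h, ?_⟩
    have h1 := Nat.div_add_mod a h
    have h2 := Nat.mod_lt a hh
    have h3 : h * (a / h) = a / h * h := mul_comm _ _
    omega
  · rintro ⟨h1, h2⟩
    apply Nat.div_eq_of_lt_le h1
    rw [Nat.succ_mul]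
    exact h2

/-- The key in terms of the box. -/
lemma key_iff {A₁ A₂ : ℕ} {M κ N D E : ℝ} {G : ℕ} (hM : 0 ≤ M) (hκ : 0 ≤ κ) (hD0 : 1 ≤ D)
    (hE : 0 ≤ E) (hN : 0 < N) (hG : 1 ≤ G) {x : ℕ × ℕ × ℕ × ℕ} (hx : x ∈ QQ A₁ A₂ (II M κ) D E)
    (k : ℕ × ℕ × ℕ × ℕ) : key A₁ A₂ N D G x = k ↔ gq A₂ x = k.1 ∧ x.2.2.2 = k.2.1 ∧
      (⌊D⌋₊ + k.2.2.1 * hD D G < x.1 ∧ x.1 ≤ ⌊D⌋₊ + k.2.2.1 * hD D G +
        min (hD D G) (⌊2 * D⌋₊ - (⌊D⌋₊ + k.2.2.1 * hD D G))) ∧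
      (k.2.2.2 * hF N D G < ph A₁ x ∧ ph A₁ x ≤ k.2.2.2 * hF N D G + hF N D G) := by
  have hG' : (0 : ℝ) < G := by exact_mod_cast hG
  have hhD : 0 < hD D G := Nat.ceil_pos.2 (by positivity)
  have hhF : 0 < hF N D G := Nat.ceil_pos.2 (by positivity)
  rw [mem_QQ hM hκ (by linarith) hE] at hx
  obtain ⟨h1, h2, h3, h4, h5, h6, h7⟩ := hx
  have hd1 : ⌊D⌋₊ < x.1 := (Nat.floor_lt (by linarith)).2 h1.1
  have hd2 : x.1 ≤ ⌊2 * D⌋₊ := (Nat.le_floor_iff (by linarith)).2 h1.2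
  have hph : 0 < ph A₁ x := by
    unfold ph
    exact Nat.div_pos (Nat.le_of_dvd (by omega) h5) (by omega)
  obtain ⟨k1, k2, k3, k4⟩ := k
  unfold key
  simp only [Prod.mk.injEq]
  rw [div_eq_iff' hhD, div_eq_iff' hhF]
  constructor
  · rintro ⟨e1, e2, e3, e4⟩
    refine ⟨e1, e2, ⟨by omega, ?_⟩, by omega, by omega⟩
    rw [← Nat.add_min_add_left]
    apply le_min
    · omega
    · omega
  · rintro ⟨e1, e2, e3, e4⟩
    refine ⟨e1, e2, ?_, by omega, by omega⟩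
    have h8 : min (hD D G) (⌊2 * D⌋₊ - (⌊D⌋₊ + k3 * hD D G)) ≤ hD D G := min_le_left _ _
    omega

lemma hD_le {D : ℝ} {G : ℕ} (hG : 1 ≤ G) (hGD : (G : ℝ) ≤ D) :
    (hD D G : ℝ) ≤ 2 * (1 / G) * D := by
  have hG' : (0 : ℝ) < G := by exact_mod_cast hG
  have h1 : (hD D G : ℝ) < D / G + 1 := Nat.ceil_lt_add_one (div_nonneg (by linarith) hG'.le)
  have h2 : 1 ≤ D / G := (one_le_div hG').2 hGD
  have h3 : 2 * (1 / (G : ℝ)) * D = D / G + D / G := by ring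
  linarith

lemma hF_le {N D : ℝ} {G : ℕ} (hN : 0 ≤ N) (hD0 : 0 < D) :
    (hF N D G : ℝ) ≤ N / D * (1 / G) + 1 := by
  have h1 : (hF N D G : ℝ) < N / (D * G) + 1 := Nat.ceil_lt_add_one (by positivity)
  have h2 : N / (D * G) = N / D * (1 / G) := by rw [div_mul_div_comm, mul_one]
  linarith

lemma aux8 {δ : ℝ} (h0 : 0 ≤ δ) : (1 - 26 * δ) * (1 + 8 * δ) ≤ 1 := by nlinarith

lemma aux6 {δ : ℝ} (h0 : 0 ≤ δ) : (1 - 26 * δ) * (1 + 6 * δ) ≤ 1 := by nlinarith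

lemma aux6' {δ : ℝ} (h0 : 0 ≤ δ) (h1 : δ ≤ 1 / 26) : 1 ≤ (1 + 26 * δ) * (1 - 6 * δ) := by nlinarith

lemma auxδ {W G E : ℝ} (hW : 1 ≤ W) (hG : 0 < G) (hE : 0 < E) :
    2 * (1 / G) ≤ 2 * W * (1 / G + 1 / E) := by
  have h1 : 0 < 1 / E := by positivity
  have h2 : 0 < 1 / G := by positivity
  nlinarith

/-- A quadruple in a bad box is close to the boundary. -/
lemma bad_cases {A₁ A₂ W : ℕ} {κ N D E : ℝ} {G : ℕ} (hA₁ : 0 < A₁) (hA₂ : 0 < A₂) (hW : 0 < W)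
    (hκ : 0 ≤ κ) (hN : 1 ≤ N) (hD1 : 1 ≤ D) (hE : 1 ≤ E) (hDE : D * E ≤ N) (hG : 1 ≤ G)
    (hGD : (G : ℝ) ≤ D) {x : ℕ × ℕ × ℕ × ℕ} (hx : x ∈ QQ A₁ A₂ (II (N / W) κ) D E)
    (hbad : ¬ GoodK A₁ A₂ (N / W) κ N D E G (key A₁ A₂ N D G x)) :
    x.2.2.1 ∈ SS (N / W) κ (2 * W * (1 / G + 1 / E)) ∨
    nt x ∈ SS (N / W) κ (2 * W * (1 / G + 1 / E)) ∨
    ((x.2.1 : ℝ) ≤ (1 + min (26 * (2 * W * (1 / G + 1 / E))) 1) * E ∨
      (1 - min (26 * (2 * W * (1 / G + 1 / E))) 1) * (2 * E) ≤ x.2.1) := by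
  have hW' : (0 : ℝ) < W := by exact_mod_cast hW
  have hW1 : (1 : ℝ) ≤ W := by exact_mod_cast hW
  have hG' : (0 : ℝ) < G := by exact_mod_cast hG
  have hM : 0 < N / W := by positivity
  set M : ℝ := N / W with hMdef
  set δ : ℝ := 2 * W * (1 / G + 1 / E) with hδdef
  have hδ0 : 0 ≤ δ := by positivity
  have hbox := (key_iff (N := N) hM.le hκ hD1 (by linarith) (by linarith) hG hx
    (key A₁ A₂ N D G x)).1 rfl
  rw [mem_QQ hM.le hκ (by linarith) (by linarith)] at hx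
  obtain ⟨h1, h2, h3, h4, h5, h6, h7⟩ := hx
  have hnI : x.2.2.1 ∈ II M κ := (mem_II hM.le hκ).2 h3
  have hntI : nt x ∈ II M κ := (mem_II hM.le hκ).2 h7
  by_cases h26 : 1 ≤ 26 * δ
  · left
    unfold SS
    rw [mem_filter]
    refine ⟨hnI, Or.inr ?_⟩
    have : (1 - 26 * δ) * ((1 + κ) * M) ≤ 0 :=
      mul_nonpos_of_nonpos_of_nonneg (by linarith) (by positivity)
    exact this.trans (Nat.cast_nonneg _)
  push Not at h26
  rw [min_eq_left h26.le]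
  -- the violation
  unfold GoodK Good at hbad
  push Not at hbad
  obtain ⟨d, φ, b1, b2, b3, b4, hv⟩ := hbad
  obtain ⟨_, _, ⟨c1, c2⟩, c3, c4⟩ := hbox
  set x₀ : ℕ := ⌊D⌋₊ + (key A₁ A₂ N D G x).2.2.1 * hD D G with hx₀
  set y₀ : ℕ := (key A₁ A₂ N D G x).2.2.2 * hF N D G with hy₀
  have hmin : min (hD D G) (⌊2 * D⌋₊ - x₀) ≤ hD D G := min_le_left _ _
  have hA₁' : (1 : ℝ) ≤ A₁ := by exact_mod_cast hA₁
  have hA₂' : (1 : ℝ) ≤ A₂ := by exact_mod_cast hA₂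
  have hn1 : (1 : ℝ) ≤ x.2.2.1 := by
    have : (0 : ℝ) < x.2.2.1 := lt_trans hM h3.1
    exact_mod_cast this
  have hd0 : (0 : ℝ) < x.1 := by linarith [h1.1]
  have he0 : (0 : ℝ) < x.2.1 := by linarith [h2.1]
  have hf1 : x.1 * ph A₁ x = A₁ * x.2.2.1 + 1 := Nat.mul_div_cancel' h5
  have hf2 : A₂ * x.2.2.1 + 1 = gq A₂ x * x.2.1 := (Nat.div_mul_cancel h6).symm
  have hf1' : (x.1 : ℝ) * (ph A₁ x : ℝ) = A₁ * x.2.2.1 + 1 := by exact_mod_cast hf1
  have hf2' : (A₂ : ℝ) * x.2.2.1 + 1 = (gq A₂ x : ℝ) * x.2.1 := by exact_mod_cast hf2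
  have hφ0 : (0 : ℝ) < ph A₁ x := by
    have : (0 : ℝ) < (x.1 : ℝ) * (ph A₁ x : ℝ) := by rw [hf1']; positivity
    exact pos_of_mul_pos_right this hd0.le
  have hg0 : (0 : ℝ) < gq A₂ x := by
    have : (0 : ℝ) < (gq A₂ x : ℝ) * x.2.1 := by rw [← hf2']; positivity
    exact pos_of_mul_pos_left this he0.le
  -- steps are small
  have hs1 : (hD D G : ℝ) ≤ δ * x.1 := by
    refine (hD_le hG hGD).trans ?_
    have e1 : 2 * (1 / (G : ℝ)) ≤ δ := auxδ hW1 hG' (by linarith)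
    exact mul_le_mul e1 h1.1.le (by linarith) hδ0
  have hND : N / D ≤ 2 * W * ph A₁ x := by
    have e1 : N < W * x.2.2.1 := by
      have := h3.1
      rw [hMdef, div_lt_iff₀ hW'] at this
      linarith
    have e2 : (W : ℝ) * x.2.2.1 ≤ W * (x.1 * ph A₁ x) := by
      apply mul_le_mul_of_nonneg_left _ hW'.le
      rw [hf1']
      have : 1 * (x.2.2.1 : ℝ) ≤ A₁ * x.2.2.1 := mul_le_mul_of_nonneg_right hA₁' (by linarith)
      linarith
    have e3 : (W : ℝ) * (x.1 * ph A₁ x) ≤ W * (2 * D * ph A₁ x) := by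
      apply mul_le_mul_of_nonneg_left _ hW'.le
      exact mul_le_mul_of_nonneg_right h1.2 hφ0.le
    rw [div_le_iff₀ (by linarith)]
    linarith
  have hs2 : (hF N D G : ℝ) ≤ δ * ph A₁ x := by
    refine (hF_le (by linarith) (by linarith)).trans ?_
    have e1 : N / D * (1 / G) ≤ 2 * W * ph A₁ x * (1 / G) :=
      mul_le_mul_of_nonneg_right hND (by positivity)
    have e2 : 1 ≤ N / D * (1 / E) := by
      rw [div_mul_div_comm, mul_one, one_le_div (by positivity)]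
      exact hDE
    have e3 : N / D * (1 / E) ≤ 2 * W * ph A₁ x * (1 / E) :=
      mul_le_mul_of_nonneg_right hND (by positivity)
    rw [hδdef]
    linarith
  have hb1 : |(d : ℝ) - x.1| ≤ δ * x.1 := by
    refine le_trans ?_ hs1
    have r1 : (x₀ : ℝ) < d := by exact_mod_cast b1
    have r2 : (d : ℝ) ≤ x₀ + hD D G := by exact_mod_cast b2.trans (by omega)
    have r3 : (x₀ : ℝ) < x.1 := by exact_mod_cast c1
    have r4 : (x.1 : ℝ) ≤ x₀ + hD D G := by exact_mod_cast c2.trans (by omega)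
    rw [abs_le]
    constructor <;> linarith
  have hb2 : |(φ : ℝ) - ph A₁ x| ≤ δ * ph A₁ x := by
    refine le_trans ?_ hs2
    have r1 : (y₀ : ℝ) < φ := by exact_mod_cast b3
    have r2 : (φ : ℝ) ≤ y₀ + hF N D G := by exact_mod_cast b4
    have r3 : (y₀ : ℝ) < ph A₁ x := by exact_mod_cast c3
    have r4 : (ph A₁ x : ℝ) ≤ y₀ + hF N D G := by exact_mod_cast c4
    rw [abs_le]
    constructor <;> linarith
  have hδ26 : δ ≤ 1 / 26 := by linarith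
  obtain ⟨p1, p2, p3⟩ := pert (t := (x.2.2.2 : ℝ)) hA₁' hA₂' hg0 hn1 hd0 hφ0 (Nat.cast_nonneg _) hf1' hf2'
    hδ0 hδ26 hb1 hb2
  have hgk : (key A₁ A₂ N D G x).1 = gq A₂ x := rfl
  have htk : (key A₁ A₂ N D G x).2.1 = x.2.2.2 := rfl
  rw [hgk, htk] at hv
  unfold er nr at hv
  set n' : ℝ := ((d : ℝ) * φ - 1) / A₁ with hn'
  set e' : ℝ := (A₂ * n' + 1) / (gq A₂ x : ℝ) with he'
  rw [abs_le] at p1 p2
  have hκM : 0 < (1 + κ) * M := by positivity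
  have hntv : ((nt x : ℕ) : ℝ) = x.2.2.1 + x.1 * x.2.1 * x.2.2.2 := by
    unfold nt
    push_cast
    ring
  by_cases v1 : M < n'
  · by_cases v2 : n' ≤ (1 + κ) * M
    · by_cases v3 : E < e'
      · by_cases v4 : e' ≤ 2 * E
        · have v5 := hv v1 v2 v3 v4
          right; left
          unfold SS
          rw [mem_filter]
          refine ⟨hntI, Or.inr ?_⟩
          rw [← hntv] at p3
          have e1 : (1 + κ) * M < (1 + 8 * δ) * (nt x : ℕ) := lt_of_lt_of_le v5 p3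
          have e2 := aux8 hδ0
          have e3 : (0 : ℝ) ≤ (nt x : ℕ) := Nat.cast_nonneg _
          have e4 : 0 < 1 - 26 * δ := by linarith
          calc (1 - 26 * δ) * ((1 + κ) * M) ≤ (1 - 26 * δ) * ((1 + 8 * δ) * (nt x : ℕ)) :=
                mul_le_mul_of_nonneg_left e1.le e4.le
            _ = ((1 - 26 * δ) * (1 + 8 * δ)) * (nt x : ℕ) := by ring
            _ ≤ 1 * (nt x : ℕ) := mul_le_mul_of_nonneg_right e2 e3
            _ = _ := one_mul _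
        · push Not at v4
          right; right; right
          have e1 : 2 * E < (1 + 6 * δ) * x.2.1 := by linarith [p2.2]
          have e2 := aux6 hδ0
          have e4 : 0 < 1 - 26 * δ := by linarith
          calc (1 - 26 * δ) * (2 * E) ≤ (1 - 26 * δ) * ((1 + 6 * δ) * x.2.1) :=
                mul_le_mul_of_nonneg_left e1.le e4.le
            _ = ((1 - 26 * δ) * (1 + 6 * δ)) * x.2.1 := by ring
            _ ≤ 1 * x.2.1 := mul_le_mul_of_nonneg_right e2 he0.le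
            _ = _ := one_mul _
      · push Not at v3
        right; right; left
        have e1 : (1 - 6 * δ) * x.2.1 ≤ E := by linarith [p2.1]
        have e2 := aux6' hδ0 hδ26
        calc (x.2.1 : ℝ) = 1 * x.2.1 := (one_mul _).symm
          _ ≤ ((1 + 26 * δ) * (1 - 6 * δ)) * x.2.1 := mul_le_mul_of_nonneg_right e2 he0.le
          _ = (1 + 26 * δ) * ((1 - 6 * δ) * x.2.1) := by ring
          _ ≤ (1 + 26 * δ) * E := mul_le_mul_of_nonneg_left e1 (by linarith)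
    · push Not at v2
      left
      unfold SS
      rw [mem_filter]
      refine ⟨hnI, Or.inr ?_⟩
      have e1 : (1 + κ) * M < (1 + 6 * δ) * x.2.2.1 := by linarith [p1.2]
      have e2 := aux6 hδ0
      have e4 : 0 < 1 - 26 * δ := by linarith
      calc (1 - 26 * δ) * ((1 + κ) * M) ≤ (1 - 26 * δ) * ((1 + 6 * δ) * x.2.2.1) :=
            mul_le_mul_of_nonneg_left e1.le e4.le
        _ = ((1 - 26 * δ) * (1 + 6 * δ)) * x.2.2.1 := by ring
        _ ≤ 1 * x.2.2.1 := mul_le_mul_of_nonneg_right e2 (by linarith)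
        _ = _ := one_mul _
  · push Not at v1
    left
    unfold SS
    rw [mem_filter]
    refine ⟨hnI, Or.inl ?_⟩
    have e1 : (1 - 6 * δ) * x.2.2.1 ≤ M := by linarith [p1.1]
    have e2 := aux6' hδ0 hδ26
    calc (x.2.2.1 : ℝ) = 1 * x.2.2.1 := (one_mul _).symm
      _ ≤ ((1 + 26 * δ) * (1 - 6 * δ)) * x.2.2.1 := mul_le_mul_of_nonneg_right e2 (by linarith)
      _ = (1 + 26 * δ) * ((1 - 6 * δ) * x.2.2.1) := by ring
      _ ≤ (1 + 26 * δ) * M := mul_le_mul_of_nonneg_left e1 (by linarith)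

end Pool.Agent.GapTwo.KG_
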