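import Pool.Agent.Work.MP_1ea053_nt.KGB

/-!
# Block KG, part C: the good boxes
-/

set_option autoImplicit false

namespace Pool.Agent.GapTwo.KG_

open Finset Filter Pool.Agent.GapTwo
open scoped Classical Topology

/-- The content of block K4, for one `ε`. -/
def K4at (ε C : ℝ) : Prop := ∀ A₁ A₂ g t m b m' b' d₂ d₂' : ℕ,
  SamePr A₁ A₂ → 0 < g → 0 < t → 0 < m → 0 < m' → 0 < d₂ → Squarefree d₂' →
  g.Coprime A₁ → m.Coprime A₁ → m'.Coprime A₁ → d₂.Coprime A₁ → d₂'.Coprime A₁ →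
  g.Coprime d₂ → g.Coprime d₂' → t.Coprime d₂' → d₂.Coprime d₂' →
  d₂.Coprime (m * m') → d₂'.Coprime (m * m') → ∀ x₀ y₀ D F : ℕ,
  |Rct A₁ A₂ g t m b m' b' d₂ d₂' x₀ y₀ D F
    - (d₂'.totient : ℝ) / (d₂ * (d₂' : ℝ) ^ 2) * Rct A₁ A₂ g t m b m' b' 1 1 x₀ y₀ D F| ≤
  C * ((g * d₂' : ℝ) ^ ε) * ((A₁ * badp g (m * m') * m * m' : ℝ) ^ 3) *
    ((((D : ℝ) + 1) * (F / d₂ + 1) * (g * d₂')) ^ (1 / 4 : ℝ) + (g * d₂' : ℝ) ^ (1 / 2 : ℝ)
      + (D + F + 1) / g)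

/-- The error term. -/
noncomputable def VV (N D E a b g : ℝ) : ℝ :=
  ((N ^ 2 / E) * (b / a)) ^ (1 / 4 : ℝ) + ((N / E) * b) ^ (1 / 2 : ℝ) + (D + N / D) / g

lemma rpow_le_self' {x s : ℝ} (hx : 1 ≤ x) (hs : s ≤ 1) : x ^ s ≤ x := by
  calc x ^ s ≤ x ^ (1 : ℝ) := Real.rpow_le_rpow_of_exponent_le hx hs
    _ = x := Real.rpow_one x

lemma VV_bound {A₂ N D E D₂ a b g D' F' : ℝ} (hA : 1 ≤ A₂) (hD : 1 ≤ D) (hE : 1 ≤ E)
    (hDE : D * E ≤ N) (hD₂ : D * D₂ ≤ N) (ha : 1 ≤ a) (haD : a ≤ D₂) (hb : 1 ≤ b) (hg : 0 < g)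
    (hgN : g ≤ 3 * A₂ * N / E) (hD'0 : 0 ≤ D') (hD' : D' ≤ 2 * D) (hF0 : 0 ≤ F')
    (hF : F' ≤ N / D + 1) :
    ((D' + 1) * (F' / a + 1) * (g * b)) ^ (1 / 4 : ℝ) + (g * b) ^ (1 / 2 : ℝ)
      + (D' + F' + 1) / g ≤ 27 * A₂ * VV N D E a b g := by
  have hN : 1 ≤ N := le_trans (by nlinarith) hDE
  have hN0 : 0 < N := by linarith
  have hD0 : 0 < D := by linarith
  have hE0 : 0 < E := by linarith
  have ha0 : 0 < a := by linarith
  have hb0 : 0 < b := by linarith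
  have hNDa : 1 ≤ N / (D * a) := by
    rw [one_le_div (by positivity)]
    exact (mul_le_mul_of_nonneg_left haD hD0.le).trans hD₂
  have hND : 1 ≤ N / D := by
    rw [one_le_div hD0]
    nlinarith
  have h1 : D' + 1 ≤ 3 * D := by linarith
  have h2 : F' / a + 1 ≤ 3 * (N / (D * a)) := by
    have e1 : F' / a ≤ (N / D + 1) / a := div_le_div_of_nonneg_right hF ha0.le
    have e2 : (N / D + 1) / a = N / (D * a) + 1 / a := by
      rw [add_div, div_div]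
    have e3 : 1 / a ≤ 1 := (div_le_one ha0).2 ha
    linarith
  have h3 : (D' + 1) * (F' / a + 1) * (g * b) ≤ 27 * A₂ * ((N ^ 2 / E) * (b / a)) := by
    calc (D' + 1) * (F' / a + 1) * (g * b)
        ≤ (3 * D) * (3 * (N / (D * a))) * ((3 * A₂ * N / E) * b) := by
          apply mul_le_mul
          · apply mul_le_mul h1 h2 (by positivity) (by positivity)
          · exact mul_le_mul_of_nonneg_right hgN hb0.le
          · positivity
          · positivity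
      _ = 27 * A₂ * ((N ^ 2 / E) * (b / a)) := by
          field_simp
          ring
  have h27 : 1 ≤ 27 * A₂ := by linarith
  have h4 : ((D' + 1) * (F' / a + 1) * (g * b)) ^ (1 / 4 : ℝ) ≤
      27 * A₂ * ((N ^ 2 / E) * (b / a)) ^ (1 / 4 : ℝ) := by
    calc ((D' + 1) * (F' / a + 1) * (g * b)) ^ (1 / 4 : ℝ)
        ≤ (27 * A₂ * ((N ^ 2 / E) * (b / a))) ^ (1 / 4 : ℝ) :=
          Real.rpow_le_rpow (by positivity) h3 (by norm_num)
      _ = (27 * A₂) ^ (1 / 4 : ℝ) * ((N ^ 2 / E) * (b / a)) ^ (1 / 4 : ℝ) :=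
          Real.mul_rpow (by positivity) (by positivity)
      _ ≤ 27 * A₂ * ((N ^ 2 / E) * (b / a)) ^ (1 / 4 : ℝ) :=
          mul_le_mul_of_nonneg_right (rpow_le_self' h27 (by norm_num)) (by positivity)
  have h5 : (g * b) ^ (1 / 2 : ℝ) ≤ 27 * A₂ * ((N / E) * b) ^ (1 / 2 : ℝ) := by
    calc (g * b) ^ (1 / 2 : ℝ) ≤ (27 * A₂ * ((N / E) * b)) ^ (1 / 2 : ℝ) := by
          apply Real.rpow_le_rpow (by positivity) _ (by norm_num)
          calc g * b ≤ (3 * A₂ * N / E) * b := mul_le_mul_of_nonneg_right hgN hb0.le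
            _ = 3 * (A₂ * ((N / E) * b)) := by ring
            _ ≤ 27 * (A₂ * ((N / E) * b)) := by
                apply mul_le_mul_of_nonneg_right (by norm_num) (by positivity)
            _ = 27 * A₂ * ((N / E) * b) := by ring
      _ = (27 * A₂) ^ (1 / 2 : ℝ) * ((N / E) * b) ^ (1 / 2 : ℝ) :=
          Real.mul_rpow (by positivity) (by positivity)
      _ ≤ 27 * A₂ * ((N / E) * b) ^ (1 / 2 : ℝ) :=
          mul_le_mul_of_nonneg_right (rpow_le_self' h27 (by norm_num)) (by positivity)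
  have h6 : (D' + F' + 1) / g ≤ 27 * A₂ * ((D + N / D) / g) := by
    rw [← mul_div_assoc]
    apply div_le_div_of_nonneg_right _ hg.le
    have : 3 * (D + N / D) ≤ 27 * A₂ * (D + N / D) :=
      mul_le_mul_of_nonneg_right (by linarith) (by positivity)
    linarith
  unfold VV
  linarith

lemma VV_mono1 {N D E a b g : ℝ} (hN : 0 < N) (hD : 0 < D) (hE : 0 < E) (ha : 1 ≤ a) (hb : 1 ≤ b)
    (hg : 0 < g) : VV N D E a 1 g / b ≤ VV N D E a b g := by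
  have hb0 : 0 < b := by linarith
  have ha0 : 0 < a := by linarith
  refine le_trans (div_le_self ?_ hb) ?_
  · unfold VV; positivity
  · unfold VV
    have h1 : ((N ^ 2 / E) * (1 / a)) ^ (1 / 4 : ℝ) ≤ ((N ^ 2 / E) * (b / a)) ^ (1 / 4 : ℝ) := by
      apply Real.rpow_le_rpow (by positivity) _ (by norm_num)
      apply mul_le_mul_of_nonneg_left _ (by positivity)
      exact div_le_div_of_nonneg_right hb ha0.le
    have h2 : ((N / E) * 1) ^ (1 / 2 : ℝ) ≤ ((N / E) * b) ^ (1 / 2 : ℝ) := by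
      apply Real.rpow_le_rpow (by positivity) _ (by norm_num)
      exact mul_le_mul_of_nonneg_left hb (by positivity)
    linarith

lemma VV_mono2 {N D E a b g : ℝ} (hN : 0 < N) (hD : 0 < D) (hE : 0 < E) (ha : 1 ≤ a) (hb : 1 ≤ b)
    (hg : 0 < g) : VV N D E 1 b g / a ≤ VV N D E a b g := by
  have hb0 : 0 < b := by linarith
  have ha0 : 0 < a := by linarith
  unfold VV
  rw [add_div, add_div]
  have h1 : ((N ^ 2 / E) * (b / 1)) ^ (1 / 4 : ℝ) / a ≤ ((N ^ 2 / E) * (b / a)) ^ (1 / 4 : ℝ) := by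
    have e1 : (N ^ 2 / E) * (b / a) = ((N ^ 2 / E) * (b / 1)) * (1 / a) := by
      field_simp
    rw [e1, Real.mul_rpow (x := (N ^ 2 / E) * (b / 1)) (by positivity) (by positivity),
      div_eq_mul_one_div (((N ^ 2 / E) * (b / 1)) ^ (1 / 4 : ℝ)) a]
    apply mul_le_mul_of_nonneg_left _ (by positivity)
    calc 1 / a = (1 / a) ^ (1 : ℝ) := (Real.rpow_one _).symm
      _ ≤ (1 / a) ^ (1 / 4 : ℝ) :=
        Real.rpow_le_rpow_of_exponent_ge (by positivity) ((div_le_one ha0).2 ha) (by norm_num)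
  have h2 : ((N / E) * b) ^ (1 / 2 : ℝ) / a ≤ ((N / E) * b) ^ (1 / 2 : ℝ) :=
    div_le_self (by positivity) ha
  have h3 : (D + N / D) / g / a ≤ (D + N / D) / g := div_le_self (by positivity) ha
  linarith

/-- One box, for one pair `(d₂, d₂')`. -/
lemma box {ε₄ C₄ : ℝ} (hK : K4at ε₄ C₄) (hC₄ : 0 < C₄) (hε₄ : 0 < ε₄) {A₁ A₂ : ℕ}
    (hS : SamePr A₁ A₂) {κ M N D E D₂ Y z : ℝ} {G : ℕ} (hM : 0 ≤ M) (hκ : 0 ≤ κ)
    (hDp : 1 ≤ D) (hE : 1 ≤ E) (hDE : D * E ≤ N) (hD₂ : D * D₂ ≤ N) (hG : 1 ≤ G)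
    (hGD : (G : ℝ) ≤ D) {m b m' b' : ℕ} (hm : 0 < m) (hm' : 0 < m') (hmA : m.Coprime A₁)
    (hmA' : m'.Coprime A₁) (hz : ∀ p : ℕ, p.Prime → p ∣ A₁ * m * m' → (p : ℝ) < z)
    {d d' : ℕ} (hd : d ∈ RG z D₂) (hd' : d' ∈ RG z D₂) (k : ℕ × ℕ × ℕ × ℕ) (hk1 : 1 ≤ k.1)
    (hk1' : (k.1 : ℝ) ≤ 3 * A₂ * N / E) (hk2 : 1 ≤ k.2.1) (hc1 : k.1.Coprime d)
    (hc2 : k.1.Coprime d') (hc3 : k.2.1.Coprime d') (hc4 : d.Coprime d')
    (hY : (badp k.1 (m * m') : ℝ) ≤ Y) (hgood : GoodK A₁ A₂ M κ N D E G k) :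
    |∑ x ∈ (QQ A₁ A₂ (II M κ) D E).filter (fun x => key A₁ A₂ N D G x = k ∧
      x.2.2.1 ≡ b [MOD m] ∧ nt x ≡ b' [MOD m']), ((if d ∣ ph A₁ x then (1 : ℝ) else 0) - 1 / d) *
      ((if d' ∣ ph' A₁ x then (1 : ℝ) else 0) - 1 / d')| ≤
    C₄ * (3 * A₂ * N ^ 2) ^ ε₄ * (A₁ * Y * m * m') ^ 3 * (81 * A₂ * VV N D E d d' k.1) := by
  have hA₁ : 0 < A₁ := hS.1
  have hA₂ : 0 < A₂ := hS.2.1
  have hA₁' : (1 : ℝ) ≤ A₁ := by exact_mod_cast hA₁
  have hA₂' : (1 : ℝ) ≤ A₂ := by exact_mod_cast hA₂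
  have hN : 1 ≤ N := le_trans (by nlinarith) hDE
  have hN0 : 0 < N := by linarith
  have hD0 : 0 < D := by linarith
  have hE0 : 0 < E := by linarith
  have hG' : (0 : ℝ) < G := by exact_mod_cast hG
  have hm1 : (1 : ℝ) ≤ m := by exact_mod_cast hm
  have hm1' : (1 : ℝ) ≤ m' := by exact_mod_cast hm'
  -- members of RG
  have mem : ∀ c ∈ RG z D₂, 1 ≤ c ∧ (c : ℝ) ≤ D₂ ∧ Squarefree c ∧ c.Coprime A₁ ∧
      c.Coprime (m * m') := by
    intro c hc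
    unfold RG at hc
    rw [mem_filter, mem_Icc] at hc
    obtain ⟨⟨h1, h2⟩, h3, h4⟩ := hc
    have h5 : (c : ℝ) ≤ D₂ := by
      refine le_trans (Nat.cast_le.2 h2) (Nat.floor_le ?_)
      by_contra h0
      push Not at h0
      rw [Nat.floor_of_nonpos h0.le] at h2
      omega
    refine ⟨h1, h5, h3, ?_, ?_⟩
    · apply Nat.Coprime.symm
      apply Nat.coprime_of_dvd
      intro p hp hpA hpc
      have := hz p hp (hpA.mul_right m |>.mul_right m')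
      have := h4 p hp hpc
      linarith
    · apply Nat.Coprime.symm
      apply Nat.coprime_of_dvd
      intro p hp hpm hpc
      have h6 : p ∣ A₁ * m * m' := by
        rw [mul_assoc]
        exact hpm.mul_left A₁
      have := hz p hp h6
      have := h4 p hp hpc
      linarith
  obtain ⟨m1, m2, m3, m4, m5⟩ := mem d hd
  obtain ⟨n1, n2, n3, n4, n5⟩ := mem d' hd'
  have hd1 : (1 : ℝ) ≤ d := by exact_mod_cast m1
  have hd1' : (1 : ℝ) ≤ d' := by exact_mod_cast n1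
  have hg1 : (1 : ℝ) ≤ k.1 := by exact_mod_cast hk1
  have hg0 : (0 : ℝ) < k.1 := by linarith
  have hD₂N : D₂ ≤ N := by
    have : 0 ≤ D₂ := le_trans (by linarith) m2
    nlinarith
  have hcop' : ∀ a a' x y : ℕ, Cong A₁ A₂ k.1 k.2.1 m b m' b' a a' x y → k.1.Coprime A₁ := by
    rintro a a' x y ⟨n, e, _, h2, _⟩
    apply Nat.coprime_of_dvd
    intro p hp hpg hpA
    have h3 : p ∣ A₂ := (hS.2.2.2.1 p hp).1 hpA
    have h4 : p ∣ A₂ * n + 1 := by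
      rw [h2]
      exact hpg.mul_right e
    have h5 : p ∣ 1 := (Nat.dvd_add_right (h3.mul_right n)).1 h4
    exact hp.one_lt.ne' (Nat.dvd_one.1 h5)
  set x₀ : ℕ := ⌊D⌋₊ + k.2.2.1 * KG_.hD D G with hx₀
  set D' : ℕ := min (KG_.hD D G) (⌊2 * D⌋₊ - x₀) with hD'
  set y₀ : ℕ := k.2.2.2 * hF N D G with hy₀
  set F' : ℕ := hF N D G with hF'
  have hD'2 : (D' : ℝ) ≤ 2 * D := by
    have h1 : (D' : ℝ) ≤ KG_.hD D G := by exact_mod_cast min_le_left _ _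
    have h2 := hD_le hG hGD
    have h3 : 1 / (G : ℝ) ≤ 1 := (div_le_one hG').2 (by exact_mod_cast hG)
    nlinarith
  have hF'2 : (F' : ℝ) ≤ N / D + 1 := by
    have h2 : (hF N D G : ℝ) ≤ N / D * (1 / G) + 1 := hF_le hN0.le hD0
    have h3 : 1 / (G : ℝ) ≤ 1 := (div_le_one hG').2 (by exact_mod_cast hG)
    have h4 : N / D * (1 / G) ≤ N / D * 1 := mul_le_mul_of_nonneg_left h3 (by positivity)
    linarith
  set R : ℕ → ℕ → ℝ := fun a a' => Rct A₁ A₂ k.1 k.2.1 m b m' b' a a' x₀ y₀ D' F' with hR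
  have hcount : ∀ a a' : ℕ, (((QQ A₁ A₂ (II M κ) D E).filter fun x =>
      (key A₁ A₂ N D G x = k ∧ x.2.2.1 ≡ b [MOD m] ∧ nt x ≡ b' [MOD m']) ∧ a ∣ ph A₁ x ∧
      a' ∣ ph' A₁ x).card : ℝ) = R a a' := by
    intro a a'
    rw [hR]
    simp only
    rw [← card_eq A₁ A₂ hA₁ M κ D E hM hκ (by linarith) (by linarith) k.1 k.2.1 m b m' b' a a' x₀ D'
      y₀ F' hk1 hk2 (Nat.le_add_right _ _) ?_ hgood]
    · congr 2
      apply filter_congr
      intro x hx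
      rw [key_iff hM hκ hDp (by linarith) hN0 hG hx k]
      constructor
      · rintro ⟨⟨⟨q1, q2, q3, q4⟩, q5, q6⟩, q7, q8⟩
        exact ⟨⟨q1, q2, q3, q4⟩, ⟨q5, q6⟩, q7, q8⟩
      · rintro ⟨⟨q1, q2, q3, q4⟩, ⟨q5, q6⟩, q7, q8⟩
        exact ⟨⟨⟨q1, q2, q3, q4⟩, q5, q6⟩, q7, q8⟩
    · intro h0
      have h1 : x₀ + D' ≤ ⌊2 * D⌋₊ := by
        have : D' ≤ ⌊2 * D⌋₊ - x₀ := min_le_right _ _
        omega
      exact le_trans (Nat.cast_le.2 h1) (Nat.floor_le (by linarith))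
  rw [sum_eq, hcount, hcount, hcount, hcount]
  set Λ : ℝ := C₄ * (3 * A₂ * N ^ 2) ^ ε₄ * (A₁ * Y * m * m') ^ 3 with hΛ
  have hY0 : 0 ≤ Y := le_trans (Nat.cast_nonneg _) hY
  have hΛ0 : 0 ≤ Λ := by positivity
  have hVV0 : 0 ≤ VV N D E d d' k.1 := by unfold VV; positivity
  by_cases hcop : k.1.Coprime A₁
  swap
  · have h0 : ∀ a a', R a a' = 0 := by
      intro a a'
      rw [hR]
      simp only
      unfold Rct
      rw [filter_false_of_mem]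
      · simp
      · intro x _ hx
        exact hcop (hcop' _ _ _ _ hx)
    rw [h0, h0, h0, h0]
    simp only [zero_div, sub_zero, add_zero, abs_zero]
    positivity
  have herr : ∀ a c : ℕ, 1 ≤ a → (a : ℝ) ≤ D₂ → 1 ≤ c → (c : ℝ) ≤ D₂ →
      C₄ * ((k.1 * c : ℝ) ^ ε₄) * ((A₁ * badp k.1 (m * m') * m * m' : ℝ) ^ 3) *
      ((((D' : ℝ) + 1) * (F' / a + 1) * (k.1 * c)) ^ (1 / 4 : ℝ) + (k.1 * c : ℝ) ^ (1 / 2 : ℝ)
      + (D' + F' + 1) / k.1) ≤ Λ * (27 * A₂ * VV N D E a c k.1) := by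
    intro a c ha ha2 hc hc2
    have ha' : (1 : ℝ) ≤ a := by exact_mod_cast ha
    have hc' : (1 : ℝ) ≤ c := by exact_mod_cast hc
    have e1 : (k.1 * c : ℝ) ≤ 3 * A₂ * N ^ 2 := by
      calc (k.1 * c : ℝ) ≤ (3 * A₂ * N / E) * N :=
            mul_le_mul hk1' (hc2.trans hD₂N) (by linarith) (by positivity)
        _ ≤ (3 * A₂ * N) * N :=
            mul_le_mul_of_nonneg_right (div_le_self (by positivity) hE) hN0.le
        _ = 3 * A₂ * N ^ 2 := by ring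
    have e2 : (k.1 * c : ℝ) ^ ε₄ ≤ (3 * A₂ * N ^ 2) ^ ε₄ :=
      Real.rpow_le_rpow (by positivity) e1 hε₄.le
    have e3 : (A₁ * badp k.1 (m * m') * m * m' : ℝ) ^ 3 ≤ (A₁ * Y * m * m') ^ 3 := by
      apply pow_le_pow_left₀ (by positivity)
      apply mul_le_mul_of_nonneg_right _ (by positivity)
      apply mul_le_mul_of_nonneg_right _ (by positivity)
      exact mul_le_mul_of_nonneg_left hY (by positivity)
    have e4 := VV_bound (N := N) (D := D) (E := E) (D₂ := D₂) (a := a) (b := c) (g := k.1)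
      (D' := D') (F' := F') hA₂' hDp hE hDE hD₂ ha' ha2 hc' hg0 hk1' (Nat.cast_nonneg _) hD'2
      (Nat.cast_nonneg _) hF'2
    apply mul_le_mul _ e4 (by positivity) hΛ0
    apply mul_le_mul _ e3 (by positivity) (by positivity)
    exact mul_le_mul_of_nonneg_left e2 hC₄.le
  have k11 : ∀ a c : ℕ, 1 ≤ a → (a : ℝ) ≤ D₂ → 1 ≤ c → (c : ℝ) ≤ D₂ → Squarefree c →
      a.Coprime A₁ → c.Coprime A₁ → k.1.Coprime a → k.1.Coprime c → k.2.1.Coprime c →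
      a.Coprime c → a.Coprime (m * m') → c.Coprime (m * m') →
      |R a c - (c.totient : ℝ) / (a * (c : ℝ) ^ 2) * R 1 1| ≤ Λ * (27 * A₂ * VV N D E a c k.1) := by
    intro a c ha ha2 hc hc2 hsq u1 u2 u3 u4 u5 u6 u7 u8
    refine le_trans ?_ (herr a c ha ha2 hc hc2)
    exact hK A₁ A₂ k.1 k.2.1 m b m' b' a c hS (by omega) (by omega) hm hm' (by omega) hsq hcop hmA
      hmA' u1 u2 u3 u4 u5 u6 u7 u8 x₀ y₀ D' F'
  have hD₂1 : (1 : ℝ) ≤ D₂ := hd1.trans m2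
  have b1 := k11 d d' m1 m2 n1 n2 n3 m4 n4 hc1 hc2 hc3 hc4 m5 n5
  have b2 := k11 d 1 m1 m2 le_rfl (by simpa using hD₂1) squarefree_one m4 (Nat.coprime_one_left _)
    hc1 (Nat.coprime_one_right _) (Nat.coprime_one_right _) (Nat.coprime_one_right _) m5
    (Nat.coprime_one_left _)
  have b3 := k11 1 d' le_rfl (by simpa using hD₂1) n1 n2 n3 (Nat.coprime_one_left _) n4
    (Nat.coprime_one_right _) hc2 hc3 (Nat.coprime_one_left _) (Nat.coprime_one_left _) n5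
  simp only [Nat.totient_one, Nat.cast_one, one_pow, mul_one, one_mul] at b2 b3
  have v1 := VV_mono1 (N := N) (D := D) (E := E) hN0 hD0 hE0 hd1 hd1' hg0
  have v2 := VV_mono2 (N := N) (D := D) (E := E) hN0 hD0 hE0 hd1 hd1' hg0
  have hd0 : (0 : ℝ) < d := by linarith
  have hd0' : (0 : ℝ) < d' := by linarith
  have id1 : R d d' - R d 1 / d' - R 1 d' / d + R 1 1 / (d * d') =
      (R d d' - (d'.totient : ℝ) / (d * (d' : ℝ) ^ 2) * R 1 1) - (R d 1 - 1 / d * R 1 1) / d'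
      - (R 1 d' - (d'.totient : ℝ) / (d' : ℝ) ^ 2 * R 1 1) / d := by
    field_simp
    ring
  rw [id1]
  have t2 : |(R d 1 - 1 / d * R 1 1) / d'| ≤ Λ * (27 * A₂ * VV N D E d d' k.1) := by
    rw [abs_div, Nat.abs_cast]
    calc |R d 1 - 1 / d * R 1 1| / d' ≤ (Λ * (27 * A₂ * VV N D E d 1 k.1)) / d' :=
          div_le_div_of_nonneg_right b2 hd0'.le
      _ = Λ * (27 * A₂ * (VV N D E d 1 k.1 / d')) := by ring
      _ ≤ Λ * (27 * A₂ * VV N D E d d' k.1) := by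
          apply mul_le_mul_of_nonneg_left _ hΛ0
          exact mul_le_mul_of_nonneg_left v1 (by positivity)
  have t3 : |(R 1 d' - (d'.totient : ℝ) / (d' : ℝ) ^ 2 * R 1 1) / d| ≤
      Λ * (27 * A₂ * VV N D E d d' k.1) := by
    rw [abs_div, Nat.abs_cast]
    calc |R 1 d' - (d'.totient : ℝ) / (d' : ℝ) ^ 2 * R 1 1| / d
        ≤ (Λ * (27 * A₂ * VV N D E 1 d' k.1)) / d :=
          div_le_div_of_nonneg_right b3 hd0.le
      _ = Λ * (27 * A₂ * (VV N D E 1 d' k.1 / d)) := by ring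
      _ ≤ Λ * (27 * A₂ * VV N D E d d' k.1) := by
          apply mul_le_mul_of_nonneg_left _ hΛ0
          exact mul_le_mul_of_nonneg_left v2 (by positivity)
  calc |(R d d' - (d'.totient : ℝ) / (d * (d' : ℝ) ^ 2) * R 1 1) - (R d 1 - 1 / d * R 1 1) / d'
      - (R 1 d' - (d'.totient : ℝ) / (d' : ℝ) ^ 2 * R 1 1) / d|
      ≤ |R d d' - (d'.totient : ℝ) / (d * (d' : ℝ) ^ 2) * R 1 1| + |(R d 1 - 1 / d * R 1 1) / d'|
        + |(R 1 d' - (d'.totient : ℝ) / (d' : ℝ) ^ 2 * R 1 1) / d| :=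
        (abs_sub _ _).trans (add_le_add (abs_sub _ _) le_rfl)
    _ ≤ Λ * (27 * A₂ * VV N D E d d' k.1) + Λ * (27 * A₂ * VV N D E d d' k.1) +
        Λ * (27 * A₂ * VV N D E d d' k.1) := add_le_add (add_le_add b1 t2) t3
    _ = Λ * (81 * A₂ * VV N D E d d' k.1) := by ring

end Pool.Agent.GapTwo.KG_
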