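import Pool.Agent.Work.MP_1ea053_nt.KGC

/-!
# Block KG, part D: summation of the error terms
-/

set_option autoImplicit false

namespace Pool.Agent.GapTwo.KG_

open Finset Filter Pool.Agent.GapTwo
open scoped Classical Topology

/-- `∑ a^(-1/4) ≤ 2 n^(3/4)`. -/
lemma sum_quarter (n : ℕ) : ∑ a ∈ Icc 1 n, (1 / (a : ℝ)) ^ (1 / 4 : ℝ) ≤ 2 * (n : ℝ) ^ (3 / 4 : ℝ) := by
  induction n with
  | zero =>
    simp
  | succ n ih =>
    rw [sum_Icc_succ_top (by omega)]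
    have hn : (0 : ℝ) < ((n + 1 : ℕ) : ℝ) := by positivity
    set y : ℝ := ((n + 1 : ℕ) : ℝ) with hy
    have hy1 : 1 ≤ y := by rw [hy]; exact_mod_cast Nat.succ_le_succ (Nat.zero_le n)
    have hny : (n : ℝ) = y - 1 := by rw [hy]; push_cast; ring
    have h1 : (1 + (-(1 / y))) ^ (3 / 4 : ℝ) ≤ 1 + (3 / 4 : ℝ) * (-(1 / y)) := by
      apply rpow_one_add_le_one_add_mul_self
      · have : 1 / y ≤ 1 := (div_le_one hn).2 hy1
        linarith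
      · norm_num
      · norm_num
    have h2 : (n : ℝ) ^ (3 / 4 : ℝ) = y ^ (3 / 4 : ℝ) * (1 + (-(1 / y))) ^ (3 / 4 : ℝ) := by
      have e : 0 ≤ 1 + (-(1 / y)) := by
        have : 1 / y ≤ 1 := (div_le_one hn).2 hy1
        linarith
      rw [← Real.mul_rpow hn.le e, hny]
      congr 1
      field_simp
      ring
    have h3 : (1 / y) ^ (1 / 4 : ℝ) = y ^ (3 / 4 : ℝ) * (1 / y) := by
      rw [Real.div_rpow (by norm_num) hn.le, Real.one_rpow]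
      have : y ^ (3 / 4 : ℝ) * (1 / y) = y ^ (3 / 4 : ℝ) / y ^ (1 : ℝ) := by
        rw [Real.rpow_one]; ring
      rw [this, ← Real.rpow_sub hn, one_div, ← Real.rpow_neg hn.le]
      norm_num
    have h4 : 0 < y ^ (3 / 4 : ℝ) := by positivity
    rw [h3]
    have h5 : (n : ℝ) ^ (3 / 4 : ℝ) ≤ y ^ (3 / 4 : ℝ) * (1 + (3 / 4 : ℝ) * (-(1 / y))) := by
      rw [h2]
      exact mul_le_mul_of_nonneg_left h1 h4.le
    have h6 : 0 < y ^ (3 / 4 : ℝ) * (1 / y) := by positivity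
    nlinarith

lemma card_RG_le {z y : ℝ} (hy : 1 ≤ y) : ((RG z y).card : ℝ) ≤ y := by
  have h1 : ((RG z y).card : ℝ) ≤ (Icc 1 ⌊y⌋₊).card := by exact_mod_cast card_le_card (RG_sub z y)
  rw [Nat.card_Icc] at h1
  simp only [Nat.add_sub_cancel] at h1
  exact h1.trans (Nat.floor_le (by linarith))

lemma sum_a {z y : ℝ} (hy : 1 ≤ y) :
    ∑ a ∈ RG z y, (1 / (a : ℝ)) ^ (1 / 4 : ℝ) ≤ 2 * y ^ (3 / 4 : ℝ) := by
  have h1 : ∑ a ∈ RG z y, (1 / (a : ℝ)) ^ (1 / 4 : ℝ) ≤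
      ∑ a ∈ Icc 1 ⌊y⌋₊, (1 / (a : ℝ)) ^ (1 / 4 : ℝ) :=
    sum_le_sum_of_subset_of_nonneg (RG_sub z y) fun _ _ _ => by positivity
  refine h1.trans ((sum_quarter _).trans ?_)
  apply mul_le_mul_of_nonneg_left _ (by norm_num)
  exact Real.rpow_le_rpow (by positivity) (Nat.floor_le (by linarith)) (by norm_num)

lemma sum_b {z y s : ℝ} (hy : 1 ≤ y) (hs : 0 ≤ s) :
    ∑ b ∈ RG z y, (b : ℝ) ^ s ≤ y * y ^ s := by
  have h1 : ∀ b ∈ RG z y, (b : ℝ) ^ s ≤ y ^ s := by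
    intro b hb
    have h2 := (mem_Icc.1 (RG_sub z y hb)).2
    apply Real.rpow_le_rpow (by positivity) _ hs
    exact (Nat.cast_le.2 h2).trans (Nat.floor_le (by linarith))
  refine (sum_le_card_nsmul _ _ _ h1).trans ?_
  rw [nsmul_eq_mul]
  exact mul_le_mul_of_nonneg_right (card_RG_le hy) (by positivity)

/-- The number of keys. -/
noncomputable def KK (A₁ A₂ : ℕ) (N D E : ℝ) (G : ℕ) : Finset (ℕ × ℕ × ℕ × ℕ) :=
  Icc 1 ⌊3 * A₂ * N / E⌋₊ ×ˢ Icc 1 ⌊N / (D * E)⌋₊ ×ˢ range G ×ˢ range (3 * A₁ * G)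

/-- Summation over `g`. -/
lemma sum_g {ε N D E a b : ℝ} {A₂ : ℕ} (hε : 0 < ε) (hA : 1 ≤ A₂) (hN : 0 < N) (hD : 0 < D)
    (hE : 1 ≤ E) (hEN : E ≤ N) (ha : 0 < a) (hb : 0 < b) :
    ∑ g ∈ Icc 1 ⌊3 * A₂ * N / E⌋₊, VV N D E a b g ≤
      3 * A₂ * (N / E) * (((N ^ 2 / E) * (b / a)) ^ (1 / 4 : ℝ) + ((N / E) * b) ^ (1 / 2 : ℝ)) +
      (D + N / D) * ((1 + 1 / ε) * (3 * A₂ * N) ^ ε) := by
  have hE0 : 0 < E := by linarith
  have hA' : (1 : ℝ) ≤ A₂ := by exact_mod_cast hA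
  unfold VV
  rw [sum_add_distrib, sum_const, nsmul_eq_mul, Nat.card_Icc, Nat.add_sub_cancel]
  apply add_le_add
  · apply mul_le_mul_of_nonneg_right _ (by positivity)
    refine (Nat.floor_le (by positivity)).trans ?_
    apply le_of_eq; ring
  · have h1 : ∑ g ∈ Icc 1 ⌊3 * A₂ * N / E⌋₊, (D + N / D) / (g : ℝ) =
        (D + N / D) * ∑ g ∈ Icc 1 ⌊3 * A₂ * N / E⌋₊, 1 / (g : ℝ) := by
      rw [mul_sum]
      refine sum_congr rfl fun g _ => by ring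
    rw [h1]
    apply mul_le_mul_of_nonneg_left _ (by positivity)
    have h2 : 1 ≤ 3 * A₂ * N / E := by
      rw [one_le_div hE0]
      nlinarith
    refine (sum_inv_le hε h2).trans ?_
    apply mul_le_mul_of_nonneg_left _ (by positivity)
    exact Real.rpow_le_rpow (by positivity) (div_le_self (by positivity) hE) hε.le

/-- Summation over the keys. -/
lemma sum_K {ε N D E a b : ℝ} {A₁ A₂ G : ℕ} (hε : 0 < ε) (hA₁ : 1 ≤ A₁) (hA : 1 ≤ A₂) (hN : 0 < N)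
    (hD : 0 < D) (hE : 1 ≤ E) (hEN : E ≤ N) (ha : 0 < a) (hb : 0 < b) :
    ∑ k ∈ KK A₁ A₂ N D E G, VV N D E a b k.1 ≤
      3 * A₁ * G ^ 2 * (N / (D * E)) * (3 * A₂ * (N / E) *
        (((N ^ 2 / E) * (b / a)) ^ (1 / 4 : ℝ) + ((N / E) * b) ^ (1 / 2 : ℝ)) +
      (D + N / D) * ((1 + 1 / ε) * (3 * A₂ * N) ^ ε)) := by
  have hE0 : 0 < E := by linarith
  unfold KK
  rw [sum_product]
  simp only [sum_const, card_product, Nat.card_Icc, card_range, Nat.add_sub_cancel, nsmul_eq_mul]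
  rw [← mul_sum]
  have h1 := sum_g (N := N) (D := D) (E := E) (a := a) (b := b) hε hA hN hD hE hEN ha hb
  have h0 : 0 ≤ ∑ g ∈ Icc 1 ⌊3 * A₂ * N / E⌋₊, VV N D E a b g :=
    sum_nonneg fun g _ => by unfold VV; positivity
  apply mul_le_mul _ h1 h0 (by positivity)
  push_cast
  have h2 : (⌊N / (D * E)⌋₊ : ℝ) ≤ N / (D * E) := Nat.floor_le (by positivity)
  calc (⌊N / (D * E)⌋₊ : ℝ) * (G * (3 * A₁ * G)) ≤ (N / (D * E)) * (G * (3 * A₁ * G)) :=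
        mul_le_mul_of_nonneg_right h2 (by positivity)
    _ = 3 * A₁ * G ^ 2 * (N / (D * E)) := by ring

/-- Summation over everything. -/
lemma sum_all {ε N D E D₂ z : ℝ} {A₁ A₂ G : ℕ} (hε : 0 < ε) (hA₁ : 1 ≤ A₁) (hA : 1 ≤ A₂)
    (hN : 0 < N) (hD : 0 < D) (hE : 1 ≤ E) (hEN : E ≤ N) (hD₂ : 1 ≤ D₂) :
    ∑ d ∈ RG z D₂, ∑ d' ∈ RG z D₂, ∑ k ∈ KK A₁ A₂ N D E G, VV N D E d d' k.1 ≤
      3 * A₁ * G ^ 2 * (N / (D * E)) * (3 * A₂ * (N / E) *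
        (2 * ((N ^ 2 / E) ^ (1 / 4 : ℝ) * D₂ ^ 2) + (N / E) ^ (1 / 2 : ℝ) * D₂ ^ (5 / 2 : ℝ)) +
      (D + N / D) * ((1 + 1 / ε) * (3 * A₂ * N) ^ ε) * D₂ ^ 2) := by
  have hE0 : 0 < E := by linarith
  have hpos : ∀ d ∈ RG z D₂, (0 : ℝ) < d := by
    intro d hd
    have := (mem_Icc.1 (RG_sub z D₂ hd)).1
    exact_mod_cast this
  have h1 : ∑ d ∈ RG z D₂, ∑ d' ∈ RG z D₂, ∑ k ∈ KK A₁ A₂ N D E G, VV N D E d d' k.1 ≤
      ∑ d ∈ RG z D₂, ∑ d' ∈ RG z D₂, 3 * A₁ * G ^ 2 * (N / (D * E)) * (3 * A₂ * (N / E) *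
        (((N ^ 2 / E) * ((d' : ℝ) / d)) ^ (1 / 4 : ℝ) + ((N / E) * d') ^ (1 / 2 : ℝ)) +
      (D + N / D) * ((1 + 1 / ε) * (3 * A₂ * N) ^ ε)) :=
    sum_le_sum fun d hd => sum_le_sum fun d' hd' => sum_K hε hA₁ hA hN hD hE hEN (hpos d hd) (hpos d' hd')
  refine h1.trans ?_
  have h2 : ∀ d ∈ RG z D₂, ∀ d' ∈ RG z D₂, ((N ^ 2 / E) * ((d' : ℝ) / d)) ^ (1 / 4 : ℝ) =
      (N ^ 2 / E) ^ (1 / 4 : ℝ) * ((1 / (d : ℝ)) ^ (1 / 4 : ℝ) * (d' : ℝ) ^ (1 / 4 : ℝ)) := by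
    intro d hd d' hd'
    have := hpos d hd
    have := hpos d' hd'
    rw [← Real.mul_rpow (x := 1 / (d : ℝ)) (by positivity) (by positivity),
      ← Real.mul_rpow (by positivity) (by positivity)]
    congr 2
    ring
  have h3 : ∀ d' ∈ RG z D₂, ((N / E) * (d' : ℝ)) ^ (1 / 2 : ℝ) =
      (N / E) ^ (1 / 2 : ℝ) * (d' : ℝ) ^ (1 / 2 : ℝ) := by
    intro d' hd'
    have := hpos d' hd'
    exact Real.mul_rpow (by positivity) (by positivity)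
  have h4 : ∑ d ∈ RG z D₂, ∑ d' ∈ RG z D₂, 3 * A₁ * G ^ 2 * (N / (D * E)) * (3 * A₂ * (N / E) *
        (((N ^ 2 / E) * ((d' : ℝ) / d)) ^ (1 / 4 : ℝ) + ((N / E) * d') ^ (1 / 2 : ℝ)) +
      (D + N / D) * ((1 + 1 / ε) * (3 * A₂ * N) ^ ε)) =
      3 * A₁ * G ^ 2 * (N / (D * E)) * (3 * A₂ * (N / E) * ((N ^ 2 / E) ^ (1 / 4 : ℝ) *
        ((∑ d ∈ RG z D₂, (1 / (d : ℝ)) ^ (1 / 4 : ℝ)) * ∑ d' ∈ RG z D₂, (d' : ℝ) ^ (1 / 4 : ℝ)) +
        (N / E) ^ (1 / 2 : ℝ) * ((RG z D₂).card * ∑ d' ∈ RG z D₂, (d' : ℝ) ^ (1 / 2 : ℝ))) +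
      (D + N / D) * ((1 + 1 / ε) * (3 * A₂ * N) ^ ε) * ((RG z D₂).card * (RG z D₂).card)) := by
    have e1 : ∀ d ∈ RG z D₂, ∑ d' ∈ RG z D₂, 3 * A₁ * G ^ 2 * (N / (D * E)) * (3 * A₂ * (N / E) *
        (((N ^ 2 / E) * ((d' : ℝ) / d)) ^ (1 / 4 : ℝ) + ((N / E) * d') ^ (1 / 2 : ℝ)) +
        (D + N / D) * ((1 + 1 / ε) * (3 * A₂ * N) ^ ε)) =
        3 * A₁ * G ^ 2 * (N / (D * E)) * (3 * A₂ * (N / E) * ((N ^ 2 / E) ^ (1 / 4 : ℝ) *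
        ((1 / (d : ℝ)) ^ (1 / 4 : ℝ) * ∑ d' ∈ RG z D₂, (d' : ℝ) ^ (1 / 4 : ℝ)) +
        (N / E) ^ (1 / 2 : ℝ) * ∑ d' ∈ RG z D₂, (d' : ℝ) ^ (1 / 2 : ℝ)) +
        (RG z D₂).card * ((D + N / D) * ((1 + 1 / ε) * (3 * A₂ * N) ^ ε))) := by
      intro d hd
      rw [← mul_sum, sum_add_distrib, sum_const, nsmul_eq_mul, ← mul_sum, sum_add_distrib]
      congr 3
      congr 1
      · rw [mul_sum, mul_sum]
        exact sum_congr rfl fun d' hd' => h2 d hd d' hd'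
      · rw [mul_sum]
        exact sum_congr rfl h3
    rw [sum_congr rfl e1, ← mul_sum, sum_add_distrib, sum_const, nsmul_eq_mul, ← mul_sum,
      sum_add_distrib, sum_const, nsmul_eq_mul, ← mul_sum, ← sum_mul]
    ring
  rw [h4]
  apply mul_le_mul_of_nonneg_left _ (by positivity)
  have hc := card_RG_le (z := z) hD₂
  have hD0 : 0 < D₂ := by linarith
  apply add_le_add
  · apply mul_le_mul_of_nonneg_left _ (by positivity)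
    apply add_le_add
    · calc (N ^ 2 / E) ^ (1 / 4 : ℝ) * ((∑ d ∈ RG z D₂, (1 / (d : ℝ)) ^ (1 / 4 : ℝ)) *
            ∑ d' ∈ RG z D₂, (d' : ℝ) ^ (1 / 4 : ℝ))
          ≤ (N ^ 2 / E) ^ (1 / 4 : ℝ) * ((2 * D₂ ^ (3 / 4 : ℝ)) * (D₂ * D₂ ^ (1 / 4 : ℝ))) := by
            apply mul_le_mul_of_nonneg_left _ (by positivity)
            apply mul_le_mul (sum_a hD₂) (sum_b hD₂ (by norm_num))
              (sum_nonneg fun _ _ => by positivity) (by positivity)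
        _ = 2 * ((N ^ 2 / E) ^ (1 / 4 : ℝ) * (D₂ * (D₂ ^ (3 / 4 : ℝ) * D₂ ^ (1 / 4 : ℝ)))) := by ring
        _ = 2 * ((N ^ 2 / E) ^ (1 / 4 : ℝ) * D₂ ^ 2) := by
            rw [← Real.rpow_add hD0]
            norm_num
            left
            ring
    · apply mul_le_mul_of_nonneg_left _ (by positivity)
      calc ((RG z D₂).card : ℝ) * ∑ d' ∈ RG z D₂, (d' : ℝ) ^ (1 / 2 : ℝ)
          ≤ D₂ * (D₂ * D₂ ^ (1 / 2 : ℝ)) :=
            mul_le_mul hc (sum_b hD₂ (by norm_num)) (sum_nonneg fun _ _ => by positivity) hD0.le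
        _ = D₂ ^ (5 / 2 : ℝ) := by
            have : (5 / 2 : ℝ) = 1 + (1 + 1 / 2) := by norm_num
            rw [this, Real.rpow_add hD0, Real.rpow_add hD0, Real.rpow_one]
  · apply mul_le_mul_of_nonneg_left _ (by positivity)
    calc ((RG z D₂).card : ℝ) * (RG z D₂).card ≤ D₂ * D₂ :=
          mul_le_mul hc hc (Nat.cast_nonneg _) hD0.le
      _ = D₂ ^ 2 := by ring

end Pool.Agent.GapTwo.KG_
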