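import Pool.Agent.Work.MP_1ea053_nt.Interface

/-!
# Block QFORM (helper1): the quadratic forms.
-/

set_option autoImplicit false

namespace Pool.Agent.GapTwo.QFORM_

open Finset
open scoped Classical

variable {α : Type}

/-- Sum over subsets of a disjoint union. -/
lemma sum_union [DecidableEq α] {X₁ X₂ : Finset α} (h : Disjoint X₁ X₂) (F : Finset α → ℝ) :
    ∑ S ∈ (X₁ ∪ X₂).powerset, F S = ∑ s ∈ X₂.powerset, ∑ S ∈ X₁.powerset, F (S ∪ s) := by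
  rw [← Finset.sum_product']
  symm
  refine Finset.sum_nbij' (fun z => z.2 ∪ z.1) (fun S => (S ∩ X₂, S ∩ X₁)) ?_ ?_ ?_ ?_ ?_
  · rintro ⟨s, S⟩ hz
    simp only [mem_product, mem_powerset] at hz ⊢
    exact union_subset_union hz.2 hz.1
  · intro S hS
    simp only [mem_product, mem_powerset] at hS ⊢
    exact ⟨inter_subset_right, inter_subset_right⟩
  · rintro ⟨s, S⟩ hz
    simp only [mem_product, mem_powerset] at hz
    have h1 : S ∩ X₂ = ∅ := by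
      rw [← disjoint_iff_inter_eq_empty]; exact disjoint_of_subset_left hz.2 h
    have h2 : s ∩ X₁ = ∅ := by
      rw [← disjoint_iff_inter_eq_empty]; exact disjoint_of_subset_left hz.1 h.symm
    simp only [union_inter_distrib_right, h1, h2, inter_eq_left.2 hz.1, inter_eq_left.2 hz.2]
    simp
  · intro S hS
    simp only [mem_powerset] at hS
    show S ∩ X₁ ∪ S ∩ X₂ = S
    rw [← inter_union_distrib_left, inter_eq_left.2 hS]
  · rintro ⟨s, S⟩ _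
    rfl

variable {ι : Type}

/-- Expectation of a product. -/
lemma Eid_prod (X : Finset (ℕ × ι)) (a b : ℕ × ι → ℝ) :
    Eid X (fun S => ∏ x ∈ X, if x ∈ S then a x else b x) =
      ∏ x ∈ X, (1 / (x.1 : ℝ) * a x + (1 - 1 / (x.1 : ℝ)) * b x) := by
  rw [Finset.prod_add, Eid]
  apply sum_congr rfl
  intro S hS
  rw [mem_powerset] at hS
  have : ∏ x ∈ X, (if x ∈ S then a x else b x) = (∏ x ∈ S, a x) * ∏ x ∈ X \ S, b x := by
    rw [← Finset.prod_sdiff hS, mul_comm]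
    congr 1
    · exact prod_congr rfl fun x hx => by simp [hx]
    · exact prod_congr rfl fun x hx => by simp [(mem_sdiff.1 hx).2]
  rw [this, prod_mul_distrib, prod_mul_distrib]
  ring

lemma Eid_congr {X : Finset (ℕ × ι)} {f g : Finset (ℕ × ι) → ℝ} (h : ∀ S ⊆ X, f S = g S) :
    Eid X f = Eid X g := by
  unfold Eid
  exact sum_congr rfl fun S hS => by rw [h S (mem_powerset.1 hS)]

lemma Eid_sum {β : Type} (X : Finset (ℕ × ι)) (J : Finset β) (f : β → Finset (ℕ × ι) → ℝ) :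
    Eid X (fun S => ∑ j ∈ J, f j S) = ∑ j ∈ J, Eid X (f j) := by
  unfold Eid
  rw [sum_comm]
  exact sum_congr rfl fun S _ => by rw [mul_sum]

lemma Eid_smul (X : Finset (ℕ × ι)) (c : ℝ) (f : Finset (ℕ × ι) → ℝ) :
    Eid X (fun S => c * f S) = c * Eid X f := by
  unfold Eid
  rw [mul_sum]
  exact sum_congr rfl fun S _ => by ring

/-- The weight of one event. -/
noncomputable def w (S : Finset (ℕ × ι)) (x : ℕ × ι) : ℝ :=
  if x ∈ S then (-1 : ℝ) else 1 / ((x.1 : ℝ) - 1)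

lemma orth (X r r' : Finset (ℕ × ι)) (hX : ∀ x ∈ X, 2 ≤ x.1) (hr : r ⊆ X) (hr' : r' ⊆ X) :
    Eid X (fun S => (∏ x ∈ r, w S x) * ∏ x ∈ r', w S x) =
      if r = r' then 1 / ∏ x ∈ r, ((x.1 : ℝ) - 1) else 0 := by
  have h1 : ∀ S ⊆ X, (∏ x ∈ r, w S x) * ∏ x ∈ r', w S x =
      ∏ x ∈ X, if x ∈ S then ((if x ∈ r then (-1 : ℝ) else 1) * (if x ∈ r' then -1 else 1))
        else ((if x ∈ r then 1 / ((x.1 : ℝ) - 1) else 1) *
          (if x ∈ r' then 1 / ((x.1 : ℝ) - 1) else 1)) := by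
    intro S _
    have e1 : ∀ q ⊆ X, ∏ x ∈ q, w S x = ∏ x ∈ X, if x ∈ q then w S x else 1 := by
      intro q hq
      rw [Finset.prod_ite_mem, inter_eq_right.2 hq]
    rw [e1 r hr, e1 r' hr', ← prod_mul_distrib]
    refine prod_congr rfl fun x _ => ?_
    unfold w
    split_ifs <;> rfl
  rw [Eid_congr h1, Eid_prod]
  by_cases h : r = r'
  · subst h
    rw [if_pos rfl, one_div, ← prod_inv_distrib, ← prod_sdiff hr]
    have e2 : ∏ x ∈ X \ r, (1 / (x.1 : ℝ) * ((if x ∈ r then (-1 : ℝ) else 1) *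
        (if x ∈ r then -1 else 1)) + (1 - 1 / (x.1 : ℝ)) *
          ((if x ∈ r then 1 / ((x.1 : ℝ) - 1) else 1) *
          (if x ∈ r then 1 / ((x.1 : ℝ) - 1) else 1))) = 1 := by
      apply prod_eq_one
      intro x hx
      rw [mem_sdiff] at hx
      simp [hx.2]
    rw [e2, one_mul]
    refine prod_congr rfl fun x hx => ?_
    have h2 : (2 : ℝ) ≤ x.1 := by exact_mod_cast hX x (hr hx)
    have h3 : (x.1 : ℝ) ≠ 0 := by linarith
    have h4 : (x.1 : ℝ) - 1 ≠ 0 := by linarith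
    rw [if_pos hx, if_pos hx]
    field_simp
    ring
  · rw [if_neg h]
    obtain ⟨x, hx⟩ : ∃ x, ¬ (x ∈ r ↔ x ∈ r') := by
      by_contra hc
      push Not at hc
      exact h (Finset.ext hc)
    have hxX : x ∈ X := by
      by_contra hc
      exact hx ⟨fun h1 => absurd (hr h1) hc, fun h1 => absurd (hr' h1) hc⟩
    apply prod_eq_zero hxX
    have h2 : (2 : ℝ) ≤ x.1 := by exact_mod_cast hX x hxX
    have h3 : (x.1 : ℝ) ≠ 0 := by linarith
    have h4 : (x.1 : ℝ) - 1 ≠ 0 := by linarith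
    by_cases h5 : x ∈ r <;> by_cases h6 : x ∈ r'
    · exact absurd (iff_of_true h5 h6) hx
    · rw [if_pos h5, if_neg h6, if_pos h5, if_neg h6]
      field_simp
      ring
    · rw [if_neg h5, if_pos h6, if_neg h5, if_pos h6]
      field_simp
      ring
    · exact absurd (iff_of_false h5 h6) hx

lemma second_moment (X : Finset (ℕ × ι)) (hX : ∀ x ∈ X, 2 ≤ x.1) (A : Finset (ℕ × ι) → ℝ) :
    Eid X (fun S => (∑ r ∈ X.powerset, A r * ∏ x ∈ r, w S x) ^ 2) =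
      ∑ r ∈ X.powerset, A r ^ 2 / ∏ x ∈ r, ((x.1 : ℝ) - 1) := by
  have h1 : ∀ S ⊆ X, (∑ r ∈ X.powerset, A r * ∏ x ∈ r, w S x) ^ 2 =
      ∑ r ∈ X.powerset, ∑ r' ∈ X.powerset, (A r * A r') *
        ((∏ x ∈ r, w S x) * ∏ x ∈ r', w S x) := by
    intro S _
    rw [sq, sum_mul_sum]
    exact sum_congr rfl fun r _ => sum_congr rfl fun r' _ => by ring
  rw [Eid_congr h1, Eid_sum]
  refine sum_congr rfl fun r hr => ?_
  rw [Eid_sum]
  have h2 : ∀ r' ∈ X.powerset, Eid X (fun S => (A r * A r') *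
        ((∏ x ∈ r, w S x) * ∏ x ∈ r', w S x)) =
      if r = r' then A r ^ 2 / ∏ x ∈ r, ((x.1 : ℝ) - 1) else 0 := by
    intro r' hr'
    rw [Eid_smul, orth X r r' hX (mem_powerset.1 hr) (mem_powerset.1 hr')]
    split_ifs with h
    · subst h; ring
    · ring
  rw [sum_congr rfl h2, sum_ite_eq, if_pos hr]

/-- The inner coefficient. -/
noncomputable def Ac (y : Finset (ℕ × ι) → ℝ) (X₂ s r : Finset (ℕ × ι)) : ℝ :=
  ∑ u ∈ X₂.powerset, y (r ∪ u) * ∏ x ∈ u, w s x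

lemma Lam_eq (y : Finset (ℕ × ι) → ℝ) {X₁ X₂ : Finset (ℕ × ι)} (h : Disjoint X₁ X₂)
    {S s : Finset (ℕ × ι)} (hS : S ⊆ X₁) (hs : s ⊆ X₂) :
    Lam y (X₁ ∪ X₂) (S ∪ s) = ∑ r ∈ X₁.powerset, Ac y X₂ s r * ∏ x ∈ r, w S x := by
  unfold Lam
  rw [sum_union h, sum_comm]
  refine sum_congr rfl fun r hr => ?_
  rw [Ac, sum_mul]
  refine sum_congr rfl fun u hu => ?_
  rw [mem_powerset] at hr hu
  rw [prod_union (disjoint_of_subset_left hr (disjoint_of_subset_right hu h))]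
  have e1 : ∏ x ∈ r, (if x ∈ S ∪ s then (-1 : ℝ) else 1 / ((x.1 : ℝ) - 1)) = ∏ x ∈ r, w S x := by
    refine prod_congr rfl fun x hx => ?_
    have : x ∉ s := fun hc => (disjoint_left.1 h) (hr hx) (hs hc)
    simp [w, this]
  have e2 : ∏ x ∈ u, (if x ∈ S ∪ s then (-1 : ℝ) else 1 / ((x.1 : ℝ) - 1)) = ∏ x ∈ u, w s x := by
    refine prod_congr rfl fun x hx => ?_
    have : x ∉ S := fun hc => (disjoint_left.1 h) (hS hc) (hu hx)
    simp [w, this]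
  rw [e1, e2]
  ring

lemma phi_pos {X r : Finset (ℕ × ι)} (hX : ∀ x ∈ X, 2 ≤ x.1) (hr : r ⊆ X) :
    0 < ∏ x ∈ r, ((x.1 : ℝ) - 1) := by
  apply prod_pos
  intro x hx
  have h2 : (2 : ℝ) ≤ x.1 := by exact_mod_cast hX x (hr hx)
  linarith

lemma Ac_bound (y : Finset (ℕ × ι) → ℝ) (X₂ s r : Finset (ℕ × ι)) (hX : ∀ x ∈ X₂, 2 ≤ x.1)
    (h0 : ∀ r, 0 ≤ y r) (hm : ∀ r r', r ⊆ r' → y r' ≤ y r) (hs : s ⊆ X₂) :
    |Ac y X₂ s r| ≤ 2 ^ s.card *
      ∑ u ∈ X₂.powerset, y (r ∪ u) / ∏ x ∈ u, ((x.1 : ℝ) - 1) := by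
  have hd : Disjoint (X₂ \ s) s := sdiff_disjoint
  have hX2 : X₂ \ s ∪ s = X₂ := sdiff_union_of_subset hs
  have key : Ac y X₂ s r = ∑ b ∈ s.powerset, ∑ u ∈ (X₂ \ s).powerset,
      y (r ∪ (u ∪ b)) * ∏ x ∈ u ∪ b, w s x := by
    rw [Ac]
    conv_lhs => rw [← hX2]
    rw [sum_union hd]
  have hnn : 0 ≤ ∑ u ∈ (X₂ \ s).powerset, y (r ∪ u) / ∏ x ∈ u, ((x.1 : ℝ) - 1) :=
    sum_nonneg fun u hu => div_nonneg (h0 _)
      (phi_pos hX ((mem_powerset.1 hu).trans sdiff_subset)).le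
  have b1 : ∀ b ∈ s.powerset, |∑ u ∈ (X₂ \ s).powerset,
      y (r ∪ (u ∪ b)) * ∏ x ∈ u ∪ b, w s x| ≤
      ∑ u ∈ (X₂ \ s).powerset, y (r ∪ u) / ∏ x ∈ u, ((x.1 : ℝ) - 1) := by
    intro b hb
    refine (abs_sum_le_sum_abs _ _).trans (sum_le_sum fun u hu => ?_)
    rw [mem_powerset] at hb hu
    have hub : Disjoint u b := disjoint_of_subset_left hu (disjoint_of_subset_right hb hd)
    have hpos := phi_pos hX (hu.trans sdiff_subset)
    rw [prod_union hub, abs_mul, abs_mul, abs_of_nonneg (h0 _)]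
    have e1 : |∏ x ∈ b, w s x| = 1 := by
      rw [abs_prod]
      apply prod_eq_one
      intro x hx
      simp [w, hb hx]
    have e2 : |∏ x ∈ u, w s x| = 1 / ∏ x ∈ u, ((x.1 : ℝ) - 1) := by
      have : ∏ x ∈ u, w s x = ∏ x ∈ u, ((x.1 : ℝ) - 1)⁻¹ := by
        refine prod_congr rfl fun x hx => ?_
        have : x ∉ s := (mem_sdiff.1 (hu hx)).2
        simp [w, this]
      rw [this, prod_inv_distrib, abs_of_pos (inv_pos.2 hpos), one_div]
    rw [e1, e2, mul_one, mul_one_div]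
    refine div_le_div_of_nonneg_right (hm _ _ ?_) hpos.le
    exact union_subset_union (Subset.refl _) subset_union_left
  rw [key]
  calc |∑ b ∈ s.powerset, ∑ u ∈ (X₂ \ s).powerset, y (r ∪ (u ∪ b)) * ∏ x ∈ u ∪ b, w s x|
      ≤ ∑ b ∈ s.powerset, |∑ u ∈ (X₂ \ s).powerset, y (r ∪ (u ∪ b)) * ∏ x ∈ u ∪ b, w s x| :=
        abs_sum_le_sum_abs _ _
    _ ≤ ∑ b ∈ s.powerset, ∑ u ∈ (X₂ \ s).powerset, y (r ∪ u) / ∏ x ∈ u, ((x.1 : ℝ) - 1) :=
        sum_le_sum b1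
    _ = 2 ^ s.card * ∑ u ∈ (X₂ \ s).powerset, y (r ∪ u) / ∏ x ∈ u, ((x.1 : ℝ) - 1) := by
        rw [sum_const, card_powerset, nsmul_eq_mul]
        push_cast
        ring
    _ ≤ 2 ^ s.card * ∑ u ∈ X₂.powerset, y (r ∪ u) / ∏ x ∈ u, ((x.1 : ℝ) - 1) := by
        refine mul_le_mul_of_nonneg_left ?_ (by positivity)
        refine sum_le_sum_of_subset_of_nonneg (powerset_mono.2 sdiff_subset) fun u hu _ => ?_
        exact div_nonneg (h0 _) (phi_pos hX (mem_powerset.1 hu)).le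

lemma Ac_empty (y : Finset (ℕ × ι) → ℝ) (X₂ r : Finset (ℕ × ι)) :
    Ac y X₂ ∅ r = ∑ u ∈ X₂.powerset, y (r ∪ u) / ∏ x ∈ u, ((x.1 : ℝ) - 1) := by
  unfold Ac
  refine sum_congr rfl fun u _ => ?_
  have : ∏ x ∈ u, w (∅ : Finset (ℕ × ι)) x = ∏ x ∈ u, ((x.1 : ℝ) - 1)⁻¹ := by
    refine prod_congr rfl fun x _ => ?_
    simp [w]
  rw [this, prod_inv_distrib, div_eq_mul_inv]

lemma fubini {X₁ X₂ : Finset (ℕ × ι)} (h : Disjoint X₁ X₂) (f : Finset (ℕ × ι) → ℝ) :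
    Eid (X₁ ∪ X₂) f = Eid X₂ (fun s => Eid X₁ (fun S => f (S ∪ s))) := by
  unfold Eid
  rw [sum_union h]
  refine sum_congr rfl fun s hs => ?_
  rw [mul_sum]
  refine sum_congr rfl fun S hS => ?_
  rw [mem_powerset] at hs hS
  have hSs : Disjoint S s := disjoint_of_subset_left hS (disjoint_of_subset_right hs h)
  have e : (X₁ ∪ X₂) \ (S ∪ s) = (X₁ \ S) ∪ (X₂ \ s) := by
    ext x
    simp only [mem_sdiff, mem_union]
    constructor
    · rintro ⟨h1 | h1, h2⟩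
      · exact Or.inl ⟨h1, fun hc => h2 (Or.inl hc)⟩
      · exact Or.inr ⟨h1, fun hc => h2 (Or.inr hc)⟩
    · rintro (⟨h1, h2⟩ | ⟨h1, h2⟩)
      · exact ⟨Or.inl h1, fun hc => hc.elim h2 fun hc => (disjoint_left.1 h) h1 (hs hc)⟩
      · exact ⟨Or.inr h1, fun hc => hc.elim (fun hc => (disjoint_left.1 h) (hS hc) h1) h2⟩
  have hd : Disjoint (X₁ \ S) (X₂ \ s) :=
    disjoint_of_subset_left sdiff_subset (disjoint_of_subset_right sdiff_subset h)
  rw [e, prod_union hSs, prod_union hd]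
  ring

lemma expand (y : Finset (ℕ × ι) → ℝ) (X S : Finset (ℕ × ι)) (hX : ∀ x ∈ X, 2 ≤ x.1)
    (hS : S ⊆ X) : Lam y X S = poly (cLam y X) S := by
  unfold Lam poly
  have h1 : ∀ r ∈ X.powerset, y r * ∏ x ∈ r, (if x ∈ S then (-1 : ℝ) else 1 / ((x.1 : ℝ) - 1)) =
      ∑ T ∈ S.powerset, if T ⊆ r then
        y r * (-1) ^ T.card * (∏ x ∈ T, (x.1 : ℝ)) / ∏ x ∈ r, ((x.1 : ℝ) - 1) else 0 := by
    intro r hr
    rw [mem_powerset] at hr
    have e1 : ∏ x ∈ r, (if x ∈ S then (-1 : ℝ) else 1 / ((x.1 : ℝ) - 1)) =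
        ∏ x ∈ r, ((if x ∈ S then -((x.1 : ℝ) / ((x.1 : ℝ) - 1)) else 0) +
          1 / ((x.1 : ℝ) - 1)) := by
      refine prod_congr rfl fun x hx => ?_
      have h2 : (2 : ℝ) ≤ x.1 := by exact_mod_cast hX x (hr hx)
      have h4 : (x.1 : ℝ) - 1 ≠ 0 := by linarith
      split_ifs
      · field_simp
        ring
      · ring
    rw [e1, prod_add, mul_sum]
    have e2 : ∑ T ∈ S.powerset, (if T ⊆ r then
        y r * (-1) ^ T.card * (∏ x ∈ T, (x.1 : ℝ)) / ∏ x ∈ r, ((x.1 : ℝ) - 1) else 0) =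
        ∑ T ∈ r.powerset, if T ⊆ S then
        y r * (-1) ^ T.card * (∏ x ∈ T, (x.1 : ℝ)) / ∏ x ∈ r, ((x.1 : ℝ) - 1) else 0 := by
      rw [← sum_filter, ← sum_filter]
      refine sum_congr ?_ fun _ _ => rfl
      ext T
      simp only [mem_filter, mem_powerset]
      tauto
    rw [e2]
    refine sum_congr rfl fun T hT => ?_
    rw [mem_powerset] at hT
    have hp1 : ∏ x ∈ r \ T, 1 / ((x.1 : ℝ) - 1) = 1 / ∏ x ∈ r \ T, ((x.1 : ℝ) - 1) := by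
      rw [prod_div_distrib]; simp
    have hp2 : ∏ x ∈ r, ((x.1 : ℝ) - 1) =
        (∏ x ∈ r \ T, ((x.1 : ℝ) - 1)) * ∏ x ∈ T, ((x.1 : ℝ) - 1) := (prod_sdiff hT).symm
    have hn1 : ∏ x ∈ r \ T, ((x.1 : ℝ) - 1) ≠ 0 := (phi_pos hX (sdiff_subset.trans hr)).ne'
    have hn2 : ∏ x ∈ T, ((x.1 : ℝ) - 1) ≠ 0 := (phi_pos hX (hT.trans hr)).ne'
    split_ifs with h
    · have : ∏ x ∈ T, (if x ∈ S then -((x.1 : ℝ) / ((x.1 : ℝ) - 1)) else 0) =
          (-1) ^ T.card * ((∏ x ∈ T, (x.1 : ℝ)) / ∏ x ∈ T, ((x.1 : ℝ) - 1)) := by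
        rw [← prod_div_distrib, ← prod_const, ← prod_mul_distrib]
        refine prod_congr rfl fun x hx => ?_
        rw [if_pos (h hx)]
        ring
      rw [this, hp1, hp2]
      field_simp
    · obtain ⟨x, hx, hxS⟩ := not_subset.1 h
      have : ∏ x ∈ T, (if x ∈ S then -((x.1 : ℝ) / ((x.1 : ℝ) - 1)) else 0) = 0 :=
        prod_eq_zero hx (by simp [hxS])
      rw [this]
      ring
  rw [sum_congr rfl h1, sum_comm]
  refine sum_congr rfl fun T hT => ?_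
  rw [mem_powerset] at hT
  rw [cLam, if_pos (hT.trans hS), sum_filter]

theorem stmt_QFORM : Stmt_QFORM := by
  intro ι y X₁ X₂ hd hX h0 hm
  have hX1 : ∀ x ∈ X₁, 2 ≤ x.1 := fun x hx => hX x (mem_union_left _ hx)
  have hX2 : ∀ x ∈ X₂, 2 ≤ x.1 := fun x hx => hX x (mem_union_right _ hx)
  have main : ∀ s ⊆ X₂, Eid X₁ (fun S => Lam y (X₁ ∪ X₂) (S ∪ s) ^ 2) =
      ∑ r ∈ X₁.powerset, Ac y X₂ s r ^ 2 / ∏ x ∈ r, ((x.1 : ℝ) - 1) := by
    intro s hs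
    rw [← second_moment X₁ hX1]
    exact Eid_congr fun S hS => by rw [Lam_eq y hd hS hs]
  refine ⟨?_, ?_, fubini hd, fun S hS => expand y _ S hX hS⟩
  · intro s hs
    rw [main s hs, Qf, mul_sum]
    refine sum_le_sum fun r hr => ?_
    rw [← mul_div_assoc]
    refine div_le_div_of_nonneg_right ?_ (phi_pos hX1 (mem_powerset.1 hr)).le
    have h1 := Ac_bound y X₂ s r hX2 h0 hm hs
    have h2 : (0 : ℝ) ≤ ∑ u ∈ X₂.powerset, y (r ∪ u) / ∏ x ∈ u, ((x.1 : ℝ) - 1) :=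
      sum_nonneg fun u hu => div_nonneg (h0 _) (phi_pos hX2 (mem_powerset.1 hu)).le
    calc Ac y X₂ s r ^ 2 = |Ac y X₂ s r| ^ 2 := (sq_abs _).symm
      _ ≤ (2 ^ s.card * ∑ u ∈ X₂.powerset, y (r ∪ u) / ∏ x ∈ u, ((x.1 : ℝ) - 1)) ^ 2 :=
          pow_le_pow_left₀ (abs_nonneg _) h1 2
      _ = 4 ^ s.card * (∑ u ∈ X₂.powerset, y (r ∪ u) / ∏ x ∈ u, ((x.1 : ℝ) - 1)) ^ 2 := by
          rw [mul_pow, ← pow_mul, mul_comm s.card 2, pow_mul]
          norm_num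
  · have := main ∅ (empty_subset _)
    simp only [union_empty] at this
    rw [this, Qf]
    exact sum_congr rfl fun r _ => by rw [Ac_empty]

end Pool.Agent.GapTwo.QFORM_

namespace Pool.Agent.GapTwo

theorem stmt_QFORM : Stmt_QFORM := QFORM_.stmt_QFORM

end Pool.Agent.GapTwo
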