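import Pool.Agent.Work.MP_1ea053_nt.Tool
import Pool.Agent.Work.MP_1ea053_nt.QFORM
import Pool.Agent.Work.MP_1ea053_nt.BHAux

/-!
# Block LOC (helper96): algebra of polynomials and densities.
-/

set_option autoImplicit false

namespace Pool.Agent.GapTwo.LOC_

open Finset Filter
open scoped Classical Topology

variable {ι : Type}

/-! ## Products of polynomials -/

lemma mul_ext (c c' : Finset (ℕ × ι) → ℝ) {T S : Finset (ℕ × ι)} (hTS : T ⊆ S) :
    mul c c' T = ∑ A ∈ S.powerset, ∑ B ∈ S.powerset, if A ∪ B = T then c A * c' B else 0 := by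
  unfold mul
  have hsub : T.powerset ⊆ S.powerset := powerset_mono.2 hTS
  rw [← sum_subset hsub]
  · apply sum_congr rfl
    intro A hA
    rw [← sum_subset hsub]
    intro B _ hB
    rw [if_neg]
    intro h
    apply hB
    rw [mem_powerset, ← h]
    exact subset_union_right
  · intro A _ hA
    apply sum_eq_zero
    intro B _
    rw [if_neg]
    intro h
    apply hA
    rw [mem_powerset, ← h]
    exact subset_union_left

lemma poly_mul (c c' : Finset (ℕ × ι) → ℝ) (S : Finset (ℕ × ι)) :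
    poly (mul c c') S = poly c S * poly c' S := by
  unfold poly
  rw [sum_mul_sum]
  calc ∑ T ∈ S.powerset, mul c c' T
      = ∑ T ∈ S.powerset, ∑ A ∈ S.powerset, ∑ B ∈ S.powerset,
          (if A ∪ B = T then c A * c' B else 0) :=
        sum_congr rfl fun T hT => mul_ext c c' (mem_powerset.1 hT)
    _ = ∑ A ∈ S.powerset, ∑ B ∈ S.powerset, ∑ T ∈ S.powerset,
          (if A ∪ B = T then c A * c' B else 0) := by
        rw [sum_comm]
        apply sum_congr rfl
        intro A _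
        rw [sum_comm]
    _ = ∑ A ∈ S.powerset, ∑ B ∈ S.powerset, c A * c' B := by
        apply sum_congr rfl
        intro A hA
        apply sum_congr rfl
        intro B hB
        rw [mem_powerset] at hA hB
        rw [sum_ite_eq, if_pos (mem_powerset.2 (union_subset hA hB))]

lemma count_le (T A : Finset (ℕ × ι)) :
    (T.powerset.filter fun B => A ∪ B = T).card ≤ 2 ^ A.card := by
  rw [← card_powerset]
  apply card_le_card_of_injOn (fun B => B ∩ A)
  · intro B _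
    simp
  · intro B hB B' hB' h
    rw [mem_coe, mem_filter] at hB hB'
    have key : ∀ B, A ∪ B = T → B = (B ∩ A) ∪ (T \ A) := by
      intro B hB
      rw [← hB]
      ext x
      simp only [mem_union, mem_inter, Finset.mem_sdiff]
      tauto
    rw [key B hB.2, key B' hB'.2]
    simp only at h
    rw [h]

lemma abs_mul_le (c c' : Finset (ℕ × ι) → ℝ) (C C' : ℝ) (hC : 1 ≤ C) (hC' : 1 ≤ C')
    (h : ∀ T, |c T| ≤ C ^ (T.card + 1)) (h' : ∀ T, |c' T| ≤ C' ^ (T.card + 1))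
    (T : Finset (ℕ × ι)) : |mul c c' T| ≤ (3 * C * C') ^ (T.card + 1) := by
  unfold mul
  calc |∑ A ∈ T.powerset, ∑ B ∈ T.powerset, if A ∪ B = T then c A * c' B else 0|
      ≤ ∑ A ∈ T.powerset, ∑ B ∈ T.powerset, |if A ∪ B = T then c A * c' B else 0| := by
        refine (abs_sum_le_sum_abs _ _).trans ?_
        exact sum_le_sum fun A _ => abs_sum_le_sum_abs _ _
    _ ≤ ∑ A ∈ T.powerset, ∑ B ∈ T.powerset,
          if A ∪ B = T then C ^ (T.card + 1) * C' ^ (T.card + 1) else 0 := by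
        apply sum_le_sum; intro A hA
        apply sum_le_sum; intro B hB
        have hA' := card_le_card (mem_powerset.1 hA)
        have hB' := card_le_card (mem_powerset.1 hB)
        split_ifs
        · rw [abs_mul]
          apply mul_le_mul
          · exact (h A).trans (pow_le_pow_right₀ hC (by omega))
          · exact (h' B).trans (pow_le_pow_right₀ hC' (by omega))
          · exact abs_nonneg _
          · positivity
        · simp
    _ = ∑ A ∈ T.powerset, ((T.powerset.filter fun B => A ∪ B = T).card : ℝ) *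
          (C ^ (T.card + 1) * C' ^ (T.card + 1)) := by
        apply sum_congr rfl; intro A _
        rw [← sum_filter, sum_const, nsmul_eq_mul]
    _ ≤ ∑ A ∈ T.powerset, ((2 : ℝ) ^ A.card * 1 ^ (T.card - A.card)) *
          (C ^ (T.card + 1) * C' ^ (T.card + 1)) := by
        apply sum_le_sum; intro A _
        apply mul_le_mul_of_nonneg_right _ (by positivity)
        rw [one_pow, mul_one]
        exact_mod_cast count_le T A
    _ = 3 ^ T.card * (C ^ (T.card + 1) * C' ^ (T.card + 1)) := by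
        rw [← sum_mul, sum_pow_mul_eq_add_pow]; norm_num
    _ ≤ (3 * C * C') ^ (T.card + 1) := by
        rw [mul_pow, mul_pow, mul_assoc]
        apply mul_le_mul_of_nonneg_right
        · exact pow_le_pow_right₀ (by norm_num) (by omega)
        · positivity

lemma supp_mul (c c' : Finset (ℕ × ι) → ℝ) {T : Finset (ℕ × ι)} (h : mul c c' T ≠ 0) :
    ∃ A B, A ∪ B = T ∧ c A ≠ 0 ∧ c' B ≠ 0 := by
  unfold mul at h
  obtain ⟨A, _, hA⟩ := exists_ne_zero_of_sum_ne_zero h
  obtain ⟨B, _, hB⟩ := exists_ne_zero_of_sum_ne_zero hA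
  have hAB : A ∪ B = T := by
    by_contra hne
    exact hB (if_neg hne)
  rw [if_pos hAB] at hB
  exact ⟨A, B, hAB, left_ne_zero_of_mul hB, right_ne_zero_of_mul hB⟩

lemma sz_union_le {A B : Finset (ℕ × ι)} (h : ∀ x ∈ A ∪ B, 1 ≤ x.1) :
    sz (A ∪ B) ≤ sz A * sz B := by
  have h1 : sz (A ∪ B) * sz (A ∩ B) = sz A * sz B := prod_union_inter
  have h2 : 0 < sz (A ∩ B) := by
    unfold sz
    apply prod_pos
    intro x hx
    have := h x (mem_union_left _ (mem_inter.1 hx).1)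
    omega
  rw [← h1]
  exact Nat.le_mul_of_pos_right _ h2

lemma Lev_mul (X : Finset (ℕ × ι)) (c c' : Finset (ℕ × ι) → ℝ) (Y Y' C C' : ℝ)
    (hX : ∀ x ∈ X, 1 ≤ x.1) (hY : 1 ≤ Y) (hC : 1 ≤ C) (hC' : 1 ≤ C')
    (h : Lev X c Y C) (h' : Lev X c' Y' C') :
    Lev X (mul c c') (Y * Y') (3 * C * C') := by
  refine ⟨fun T hT => ?_, abs_mul_le c c' C C' hC hC' h.bd h'.bd⟩
  obtain ⟨A, B, rfl, hA, hB⟩ := supp_mul c c' hT
  have hA' := h.supp A hA
  have hB' := h'.supp B hB
  have hsub : A ∪ B ⊆ X := union_subset hA'.1 hB'.1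
  refine ⟨hsub, ?_⟩
  calc (sz (A ∪ B) : ℝ) ≤ (sz A : ℝ) * sz B := by
        exact_mod_cast sz_union_le fun x hx => hX x (hsub hx)
    _ ≤ Y * Y' := mul_le_mul hA'.2 hB'.2 (by positivity) (by linarith)

/-! ## Expectations -/

lemma Eid_poly (X : Finset (ℕ × ι)) (c : Finset (ℕ × ι) → ℝ) :
    Eid X (poly c) = ∑ T ∈ X.powerset, c T / sz T := by
  have h1 : Eid X (poly c) = Eid X (fun S => ∑ T ∈ X.powerset,
      c T * ∏ x ∈ X, if x ∈ S then (1 : ℝ) else (if x ∈ T then 0 else 1)) := by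
    apply QFORM_.Eid_congr
    intro S hS
    unfold poly
    have hsub : S.powerset ⊆ X.powerset := powerset_mono.2 hS
    rw [← sum_subset hsub]
    · apply sum_congr rfl
      intro T hT
      rw [mem_powerset] at hT
      rw [prod_eq_one, mul_one]
      intro x _
      split_ifs with h2 h3
      · rfl
      · exact absurd (hT h3) h2
      · rfl
    · intro T hT hTS
      rw [mem_powerset] at hT hTS
      obtain ⟨x, hx, hxS⟩ := not_subset.1 hTS
      rw [prod_eq_zero (hT hx), mul_zero]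
      rw [if_neg hxS, if_pos hx]
  rw [h1, QFORM_.Eid_sum]
  apply sum_congr rfl
  intro T hT
  rw [QFORM_.Eid_smul, QFORM_.Eid_prod, div_eq_mul_inv]
  congr 1
  rw [mem_powerset] at hT
  rw [← prod_sdiff hT]
  have h2 : ∏ x ∈ X \ T, (1 / (x.1 : ℝ) * 1 + (1 - 1 / (x.1 : ℝ)) * (if x ∈ T then 0 else 1)) = 1 := by
    apply prod_eq_one
    intro x hx
    rw [if_neg (Finset.mem_sdiff.1 hx).2]
    ring
  have h3 : ∏ x ∈ T, (1 / (x.1 : ℝ) * 1 + (1 - 1 / (x.1 : ℝ)) * (if x ∈ T then 0 else 1)) =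
      ∏ x ∈ T, (x.1 : ℝ)⁻¹ := by
    apply prod_congr rfl
    intro x hx
    rw [if_pos hx]
    ring
  rw [h2, h3, one_mul, sz, Nat.cast_prod, prod_inv_distrib]

/-! ## Multiplicativity over disjoint sets of primes -/

lemma mul_split {X₁ X₂ : Finset (ℕ × ι)} (hd : Disjoint X₁ X₂) (c c' : Finset (ℕ × ι) → ℝ)
    (hc : ∀ T, c T ≠ 0 → T ⊆ X₁) (hc' : ∀ T, c' T ≠ 0 → T ⊆ X₂)
    {A B : Finset (ℕ × ι)} (hA : A ⊆ X₁) (hB : B ⊆ X₂) :
    mul c c' (A ∪ B) = c A * c' B := by
  have key : ∀ A' B', A' ∪ B' = A ∪ B → c A' * c' B' ≠ 0 → A' = A ∧ B' = B := by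
    intro A' B' he hne
    have h1 := hc A' (left_ne_zero_of_mul hne)
    have h2 := hc' B' (right_ne_zero_of_mul hne)
    have e1 : ∀ {P Q : Finset (ℕ × ι)}, P ⊆ X₁ → Q ⊆ X₂ → (P ∪ Q) ∩ X₁ = P := by
      intro P Q hP hQ
      rw [union_inter_distrib_right, inter_eq_left.2 hP,
        (disjoint_iff_inter_eq_empty.1 ((hd.mono_right hQ).symm)), union_empty]
    have e2 : ∀ {P Q : Finset (ℕ × ι)}, P ⊆ X₁ → Q ⊆ X₂ → (P ∪ Q) ∩ X₂ = Q := by
      intro P Q hP hQ
      rw [union_inter_distrib_right, inter_eq_left.2 hQ,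
        (disjoint_iff_inter_eq_empty.1 ((hd.mono_left hP))), empty_union]
    constructor
    · rw [← e1 h1 h2, he, e1 hA hB]
    · rw [← e2 h1 h2, he, e2 hA hB]
  unfold mul
  rw [sum_eq_single A, sum_eq_single B]
  · rw [if_pos rfl]
  · intro B' _ hne
    by_contra h0
    have he : A ∪ B' = A ∪ B := by
      by_contra h3
      exact h0 (if_neg h3)
    rw [if_pos he] at h0
    exact hne (key A B' he h0).2
  · intro h
    exact absurd (mem_powerset.2 subset_union_right) h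
  · intro A' _ hne
    apply sum_eq_zero
    intro B' _
    by_contra h0
    have he : A' ∪ B' = A ∪ B := by
      by_contra h3
      exact h0 (if_neg h3)
    rw [if_pos he] at h0
    exact hne (key A' B' he h0).1
  · intro h
    exact absurd (mem_powerset.2 subset_union_left) h

lemma disj_of {X₁ X₂ : Finset (ℕ × ι)} (h : ∀ x ∈ X₁, ∀ y ∈ X₂, x.1 ≠ y.1) : Disjoint X₁ X₂ := by
  rw [disjoint_left]
  intro x h1 h2
  exact h x h1 x h2 rfl

lemma cons_union {A B : Finset (ℕ × ι)} (h : ∀ x ∈ A, ∀ y ∈ B, x.1 ≠ y.1) :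
    Cons (A ∪ B) ↔ Cons A ∧ Cons B := by
  constructor
  · intro hc
    exact ⟨fun x hx y hy he => hc x (mem_union_left _ hx) y (mem_union_left _ hy) he,
      fun x hx y hy he => hc x (mem_union_right _ hx) y (mem_union_right _ hy) he⟩
  · rintro ⟨h1, h2⟩ x hx y hy he
    rw [mem_union] at hx hy
    rcases hx with hx | hx <;> rcases hy with hy | hy
    · exact h1 x hx y hy he
    · exact absurd he (h x hx y hy)
    · exact absurd he.symm (h y hy x hx)
    · exact h2 x hx y hy he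

lemma Eloc_mul {X₁ X₂ : Finset (ℕ × ι)} (h : ∀ x ∈ X₁, ∀ y ∈ X₂, x.1 ≠ y.1)
    (c c' : Finset (ℕ × ι) → ℝ)
    (hc : ∀ T, c T ≠ 0 → T ⊆ X₁) (hc' : ∀ T, c' T ≠ 0 → T ⊆ X₂) :
    Eloc (X₁ ∪ X₂) (mul c c') = Eloc X₁ c * Eloc X₂ c' := by
  have hd := disj_of h
  unfold Eloc
  rw [sum_filter, BH_.sum_powerset_union hd, sum_filter, sum_filter, sum_mul_sum]
  apply sum_congr rfl
  intro A hA
  apply sum_congr rfl
  intro B hB
  rw [mem_powerset] at hA hB
  have hAB : ∀ x ∈ A, ∀ y ∈ B, x.1 ≠ y.1 := fun x hx y hy => h x (hA hx) y (hB hy)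
  rw [mul_split hd c c' hc hc' hA hB]
  have hs : sz (A ∪ B) = sz A * sz B := prod_union (disj_of hAB)
  rw [hs]
  by_cases h1 : Cons A <;> by_cases h2 : Cons B
  · rw [if_pos ((cons_union hAB).2 ⟨h1, h2⟩), if_pos h1, if_pos h2, Nat.cast_mul,
      mul_div_mul_comm]
  · rw [if_neg (fun h3 => h2 ((cons_union hAB).1 h3).2), if_neg h2, mul_zero]
  · rw [if_neg (fun h3 => h1 ((cons_union hAB).1 h3).1), if_neg h1, zero_mul]
  · rw [if_neg (fun h3 => h2 ((cons_union hAB).1 h3).2), if_neg h2, mul_zero]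

lemma EloI_mul {X₁ X₂ : Finset (ℕ × ι)} (h : ∀ x ∈ X₁, ∀ y ∈ X₂, x.1 ≠ y.1)
    (c c' : Finset (ℕ × ι) → ℝ)
    (hc : ∀ T, c T ≠ 0 → T ⊆ X₁) (hc' : ∀ T, c' T ≠ 0 → T ⊆ X₂) (i : ι) :
    EloI (X₁ ∪ X₂) i (mul c c') = EloI X₁ i c * EloI X₂ i c' := by
  have hd := disj_of h
  unfold EloI
  rw [sum_filter, BH_.sum_powerset_union hd, sum_filter, sum_filter, sum_mul_sum]
  apply sum_congr rfl
  intro A hA
  apply sum_congr rfl
  intro B hB
  rw [mem_powerset] at hA hB
  have hAB : ∀ x ∈ A, ∀ y ∈ B, x.1 ≠ y.1 := fun x hx y hy => h x (hA hx) y (hB hy)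
  rw [mul_split hd c c' hc hc' hA hB]
  rw [prod_union (disj_of hAB)]
  have key : (Cons (A ∪ B) ∧ ∀ x ∈ A ∪ B, x.2 ≠ i) ↔
      (Cons A ∧ ∀ x ∈ A, x.2 ≠ i) ∧ (Cons B ∧ ∀ x ∈ B, x.2 ≠ i) := by
    rw [cons_union hAB]
    constructor
    · rintro ⟨⟨h1, h2⟩, h3⟩
      exact ⟨⟨h1, fun x hx => h3 x (mem_union_left _ hx)⟩,
        ⟨h2, fun x hx => h3 x (mem_union_right _ hx)⟩⟩
    · rintro ⟨⟨h1, h2⟩, ⟨h3, h4⟩⟩
      refine ⟨⟨h1, h3⟩, fun x hx => ?_⟩
      rcases mem_union.1 hx with hx | hx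
      · exact h2 x hx
      · exact h4 x hx
  by_cases h1 : (Cons A ∧ ∀ x ∈ A, x.2 ≠ i) <;> by_cases h2 : (Cons B ∧ ∀ x ∈ B, x.2 ≠ i)
  · rw [if_pos (key.2 ⟨h1, h2⟩), if_pos h1, if_pos h2, mul_div_mul_comm]
  · rw [if_neg (fun h3 => h2 (key.1 h3).2), if_neg h2, mul_zero]
  · rw [if_neg (fun h3 => h1 (key.1 h3).1), if_neg h1, zero_mul]
  · rw [if_neg (fun h3 => h2 (key.1 h3).2), if_neg h2, mul_zero]

/-! ## Inconsistent sets are negligible -/

lemma sum_powerset_prod (X : Finset (ℕ × ι)) (w : ℕ × ι → ℝ) :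
    ∑ T ∈ X.powerset, ∏ x ∈ T, w x = ∏ x ∈ X, (1 + w x) := by
  rw [Finset.prod_one_add]

lemma pair_sum (X : Finset (ℕ × ι)) (w : ℕ × ι → ℝ) (hw : ∀ x, 0 ≤ w x) {x y : ℕ × ι}
    (hx : x ∈ X) (hy : y ∈ X) (hxy : x ≠ y) :
    ∑ T ∈ X.powerset, (if x ∈ T ∧ y ∈ T then ∏ z ∈ T, w z else 0) ≤
      w x * w y * ∏ z ∈ X, (1 + w z) := by
  set X' := (X.erase x).erase y with hX'
  have hyX : y ∈ X.erase x := mem_erase.2 ⟨hxy.symm, hy⟩
  have h1 : insert x (insert y X') = X := by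
    rw [hX', insert_erase hyX, insert_erase hx]
  have hy' : y ∉ X' := by simp [hX']
  have hx' : x ∉ insert y X' := by
    rw [hX', insert_erase hyX]
    simp
  have hx'' : x ∉ X' := fun h => hx' (mem_insert_of_mem h)
  have hM : (∏ z ∈ X', (1 + w z)) ≤ ∏ z ∈ X, (1 + w z) := by
    rw [← h1, prod_insert hx', prod_insert hy']
    have h2 : 0 ≤ ∏ z ∈ X', (1 + w z) := prod_nonneg fun z _ => by linarith [hw z]
    have h3 : (∏ z ∈ X', (1 + w z)) ≤ (1 + w y) * ∏ z ∈ X', (1 + w z) :=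
      le_mul_of_one_le_left h2 (by linarith [hw y])
    exact h3.trans (le_mul_of_one_le_left (h2.trans h3) (by linarith [hw x]))
  calc ∑ T ∈ X.powerset, (if x ∈ T ∧ y ∈ T then ∏ z ∈ T, w z else 0)
      = ∑ T ∈ X'.powerset, ∏ z ∈ insert x (insert y T), w z := by
        rw [← h1, sum_powerset_insert hx', sum_powerset_insert hy', sum_powerset_insert hy']
        have e1 : ∑ T ∈ X'.powerset, (if x ∈ T ∧ y ∈ T then ∏ z ∈ T, w z else 0) = 0 := by
          apply sum_eq_zero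
          intro T hT
          rw [if_neg]
          rintro ⟨h2, _⟩
          exact hx'' (mem_powerset.1 hT h2)
        have e2 : ∑ T ∈ X'.powerset, (if x ∈ insert y T ∧ y ∈ insert y T then
            ∏ z ∈ insert y T, w z else 0) = 0 := by
          apply sum_eq_zero
          intro T hT
          rw [if_neg]
          rintro ⟨h2, _⟩
          rcases mem_insert.1 h2 with h2 | h2
          · exact hxy h2
          · exact hx'' (mem_powerset.1 hT h2)
        have e3 : ∑ T ∈ X'.powerset, (if x ∈ insert x T ∧ y ∈ insert x T then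
            ∏ z ∈ insert x T, w z else 0) = 0 := by
          apply sum_eq_zero
          intro T hT
          rw [if_neg]
          rintro ⟨_, h2⟩
          rcases mem_insert.1 h2 with h2 | h2
          · exact hxy h2.symm
          · exact hy' (mem_powerset.1 hT h2)
        have e4 : ∑ T ∈ X'.powerset, (if x ∈ insert x (insert y T) ∧ y ∈ insert x (insert y T) then
            ∏ z ∈ insert x (insert y T), w z else 0) =
            ∑ T ∈ X'.powerset, ∏ z ∈ insert x (insert y T), w z := by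
          apply sum_congr rfl
          intro T _
          rw [if_pos]
          exact ⟨mem_insert_self _ _, mem_insert_of_mem (mem_insert_self _ _)⟩
        rw [e1, e2, e3, e4]
        ring
    _ = ∑ T ∈ X'.powerset, w x * w y * ∏ z ∈ T, w z := by
        apply sum_congr rfl
        intro T hT
        rw [mem_powerset] at hT
        rw [prod_insert (fun h => hx' (insert_subset_insert y hT h)),
          prod_insert (fun h => hy' (hT h))]
        ring
    _ = w x * w y * ∏ z ∈ X', (1 + w z) := by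
        rw [← mul_sum, sum_powerset_prod]
    _ ≤ w x * w y * ∏ z ∈ X, (1 + w z) :=
        mul_le_mul_of_nonneg_left hM (mul_nonneg (hw x) (hw y))

/-- The weight `1 / sz T` as a product. -/
lemma inv_sz (T : Finset (ℕ × ι)) : ∏ x ∈ T, 1 / (x.1 : ℝ) = 1 / (sz T : ℝ) := by
  rw [sz, Nat.cast_prod, prod_div_distrib, prod_const_one]

lemma noncons [Fintype ι] (u v : ℝ) :
    ∑ T ∈ (XX ι u v).powerset, (if Cons T then 0 else 1 / (sz T : ℝ)) ≤
      (Fintype.card ι : ℝ) ^ 2 * (∑ p ∈ PR u v, 1 / (p : ℝ) ^ 2) *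
        ∏ x ∈ XX ι u v, (1 + 1 / (x.1 : ℝ)) := by
  set X := XX ι u v with hX
  set M := ∏ x ∈ X, (1 + 1 / (x.1 : ℝ)) with hM
  have hM0 : 0 ≤ M := prod_nonneg fun x _ => by positivity
  have hW : ∀ T : Finset (ℕ × ι), 0 ≤ ∏ x ∈ T, 1 / (x.1 : ℝ) :=
    fun T => prod_nonneg fun x _ => by positivity
  calc ∑ T ∈ X.powerset, (if Cons T then 0 else 1 / (sz T : ℝ))
      ≤ ∑ T ∈ X.powerset, ∑ z ∈ PR u v ×ˢ ((univ : Finset ι) ×ˢ (univ : Finset ι)),
          (if z.2.1 ≠ z.2.2 ∧ (z.1, z.2.1) ∈ T ∧ (z.1, z.2.2) ∈ T then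
            ∏ x ∈ T, 1 / (x.1 : ℝ) else 0) := by
        apply sum_le_sum
        intro T hT
        rw [mem_powerset] at hT
        have hnn : ∀ z ∈ PR u v ×ˢ ((univ : Finset ι) ×ˢ (univ : Finset ι)),
            (0 : ℝ) ≤ (if z.2.1 ≠ z.2.2 ∧ (z.1, z.2.1) ∈ T ∧ (z.1, z.2.2) ∈ T then
            ∏ x ∈ T, 1 / (x.1 : ℝ) else 0) := by
          intro z _
          split_ifs
          · exact hW T
          · exact le_refl _
        split_ifs with hC
        · exact sum_nonneg hnn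
        · unfold Cons at hC
          push Not at hC
          obtain ⟨x, hx, y, hy, he, hne⟩ := hC
          obtain ⟨p, l⟩ := x
          obtain ⟨q, l'⟩ := y
          simp only at he
          subst he
          have hp : p ∈ PR u v := by
            have := hT hx
            rw [hX, mem_XX] at this
            exact mem_PR.2 this
          have hmem : (p, l, l') ∈ PR u v ×ˢ ((univ : Finset ι) ×ˢ (univ : Finset ι)) := by
            simp [hp]
          refine le_trans ?_ (single_le_sum hnn hmem)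
          rw [if_pos, inv_sz]
          refine ⟨fun h => hne ?_, hx, hy⟩
          simp only at h
          rw [h]
    _ = ∑ z ∈ PR u v ×ˢ ((univ : Finset ι) ×ˢ (univ : Finset ι)), ∑ T ∈ X.powerset,
          (if z.2.1 ≠ z.2.2 ∧ (z.1, z.2.1) ∈ T ∧ (z.1, z.2.2) ∈ T then
            ∏ x ∈ T, 1 / (x.1 : ℝ) else 0) := sum_comm
    _ ≤ ∑ z ∈ PR u v ×ˢ ((univ : Finset ι) ×ˢ (univ : Finset ι)), 1 / (z.1 : ℝ) ^ 2 * M := by
        apply sum_le_sum
        rintro ⟨p, l, l'⟩ hz
        rw [mem_product] at hz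
        have hp : p ∈ PR u v := hz.1
        have hmem : ∀ l : ι, (p, l) ∈ X := by
          intro l
          rw [hX, mem_XX]
          exact mem_PR.1 hp
        simp only
        by_cases hl : l = l'
        · have : ∑ T ∈ X.powerset, (if l ≠ l' ∧ (p, l) ∈ T ∧ (p, l') ∈ T then
              ∏ x ∈ T, 1 / (x.1 : ℝ) else 0) = 0 := by
            apply sum_eq_zero
            intro T _
            rw [if_neg]
            exact fun h => h.1 hl
          rw [this]
          positivity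
        · have h1 := pair_sum X (fun x => 1 / (x.1 : ℝ)) (fun x => by positivity)
            (hmem l) (hmem l') (fun h => hl (Prod.mk.inj h).2)
          have h2 : ∑ T ∈ X.powerset, (if l ≠ l' ∧ (p, l) ∈ T ∧ (p, l') ∈ T then
              ∏ x ∈ T, 1 / (x.1 : ℝ) else 0) =
              ∑ T ∈ X.powerset, (if (p, l) ∈ T ∧ (p, l') ∈ T then
              ∏ x ∈ T, 1 / (x.1 : ℝ) else 0) := by
            apply sum_congr rfl
            intro T _
            simp [hl]
          rw [h2]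
          refine h1.trans (le_of_eq ?_)
          simp only
          rw [← hM]
          have : (1 : ℝ) / p * (1 / p) = 1 / (p : ℝ) ^ 2 := by ring
          rw [this]
    _ = (Fintype.card ι : ℝ) ^ 2 * (∑ p ∈ PR u v, 1 / (p : ℝ) ^ 2) * M := by
        rw [← sum_mul, sum_product]
        simp only [sum_const, card_product, card_univ, nsmul_eq_mul]
        rw [← mul_sum]
        push_cast
        ring

/-! ## Bounds -/

lemma prod_XX [Fintype ι] (u v : ℝ) (f : ℕ → ℝ) :
    ∏ x ∈ XX ι u v, f x.1 = (∏ p ∈ PR u v, f p) ^ (Fintype.card ι) := by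
  unfold XX
  rw [prod_product]
  simp only [prod_const, card_univ]
  rw [prod_pow]

lemma prod_le_exp (P : Finset ℕ) : ∏ p ∈ P, (1 + 1 / (p : ℝ)) ≤ Real.exp (∑ p ∈ P, 1 / (p : ℝ)) := by
  rw [Real.exp_sum]
  apply Finset.prod_le_prod
  · intro p _; positivity
  · intro p _
    linarith [Real.add_one_le_exp (1 / (p : ℝ))]

lemma mert_bd (η₁ η : ℝ) (h1 : 0 < η₁) (h2 : η₁ < η) : ∃ M : ℝ, 1 ≤ M ∧ ∀ N : ℝ, 1 < N →
    2 ≤ N ^ η₁ → ∏ p ∈ PR (N ^ η₁) (N ^ η), (1 + 1 / (p : ℝ)) ≤ M := by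
  obtain ⟨C, hC, h⟩ := mert_sum
  refine ⟨Real.exp (Real.log (η / η₁) + C / Real.log 2), ?_, fun N hN hN2 => ?_⟩
  · apply Real.one_le_exp
    have : 0 < Real.log (η / η₁) := Real.log_pos (by rw [one_lt_div h1]; exact h2)
    have h3 : 0 < Real.log 2 := Real.log_pos (by norm_num)
    positivity
  · refine (prod_le_exp _).trans (Real.exp_le_exp.2 ?_)
    have hle : N ^ η₁ ≤ N ^ η := Real.rpow_le_rpow_of_exponent_le hN.le h2.le
    have h3 := (abs_le.1 (h _ _ hN2 hle)).2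
    have hlN : 0 < Real.log N := Real.log_pos hN
    have h4 : Real.log (Real.log (N ^ η)) - Real.log (Real.log (N ^ η₁)) = Real.log (η / η₁) := by
      rw [Real.log_rpow (by linarith), Real.log_rpow (by linarith),
        Real.log_mul (by linarith) hlN.ne', Real.log_mul h1.ne' hlN.ne',
        Real.log_div (by linarith) h1.ne']
      ring
    have h5 : C / Real.log (N ^ η₁) ≤ C / Real.log 2 := by
      apply div_le_div_of_nonneg_left hC.le (Real.log_pos (by norm_num))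
      exact Real.log_le_log (by norm_num) hN2
    linarith

lemma one_add_pow (x : ℝ) (h0 : 0 ≤ x) (h1 : x ≤ 1) (n : ℕ) :
    (1 + x) ^ n ≤ 1 + (2 ^ n - 1) * x := by
  induction n with
  | zero => simp
  | succ n ih =>
    have h2 : (0 : ℝ) ≤ 2 ^ n - 1 := by
      have : (1 : ℝ) ≤ 2 ^ n := one_le_pow₀ (by norm_num)
      linarith
    have h3 : (2 ^ n - 1) * x * x ≤ (2 ^ n - 1) * x * 1 :=
      mul_le_mul_of_nonneg_left h1 (mul_nonneg h2 h0)
    calc (1 + x) ^ (n + 1) = (1 + x) ^ n * (1 + x) := pow_succ _ _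
      _ ≤ (1 + (2 ^ n - 1) * x) * (1 + x) := mul_le_mul_of_nonneg_right ih (by linarith)
      _ ≤ 1 + (2 ^ (n + 1) - 1) * x := by
        rw [pow_succ]
        nlinarith

lemma inv_prod_le (T : Finset (ℕ × ι)) (u : ℝ) (hu : 2 ≤ u) (hT : ∀ x ∈ T, u ≤ (x.1 : ℝ))
    (R : ℕ) (hR : T.card ≤ R) :
    1 / ∏ x ∈ T, ((x.1 : ℝ) - 1) ≤ 1 / (sz T : ℝ) * (1 + 2 ^ R * (2 / u)) := by
  have h1 : 1 / ∏ x ∈ T, ((x.1 : ℝ) - 1) = ∏ x ∈ T, 1 / ((x.1 : ℝ) - 1) := by
    rw [prod_div_distrib, prod_const_one]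
  have hx1 : 2 / u ≤ 1 := by rw [div_le_one (by linarith)]; exact hu
  have hx0 : 0 ≤ 2 / u := by positivity
  have h2 : ∏ x ∈ T, 1 / ((x.1 : ℝ) - 1) ≤ ∏ x ∈ T, (1 / (x.1 : ℝ) * (1 + 2 / u)) := by
    apply Finset.prod_le_prod
    · intro x hx
      have := hT x hx
      have : (0 : ℝ) < x.1 - 1 := by linarith
      positivity
    · intro x hx
      have h3 := hT x hx
      have h4 : (0 : ℝ) < x.1 - 1 := by linarith
      have h5 : (0 : ℝ) < x.1 := by linarith
      have hu0 : 0 < u := by linarith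
      rw [div_mul_eq_mul_div, div_le_div_iff₀ h4 h5, one_mul, one_mul]
      have h6 : (1 + 2 / u) * ((x.1 : ℝ) - 1) = x.1 + ((2 * x.1 - 2 - u) / u) := by
        field_simp
        ring
      rw [h6]
      have h7 : 0 ≤ (2 * (x.1 : ℝ) - 2 - u) / u := div_nonneg (by linarith) hu0.le
      linarith
  rw [h1]
  refine h2.trans ?_
  rw [prod_mul_distrib, prod_const, inv_sz]
  apply mul_le_mul_of_nonneg_left _ (by positivity)
  calc (1 + 2 / u) ^ T.card ≤ (1 + 2 / u) ^ R := pow_le_pow_right₀ (by linarith) hR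
    _ ≤ 1 + (2 ^ R - 1) * (2 / u) := one_add_pow _ hx0 hx1 R
    _ ≤ 1 + 2 ^ R * (2 / u) := by nlinarith

lemma final_bd [Fintype ι] (u v C₁ M b : ℝ) (hu : 2 ≤ u) (hC₁ : 0 ≤ C₁) (hb : 0 ≤ b)
    (hM : ∏ p ∈ PR u v, (1 + 1 / (p : ℝ)) ≤ M)
    (X' : Finset (ℕ × ι)) (hX' : X' ⊆ XX ι u v) (F : Finset (ℕ × ι) → ℝ)
    (hF : ∀ T ⊆ X', |F T| ≤ C₁ * ((if Cons T then 0 else 1 / (sz T : ℝ)) + b * (1 / (sz T : ℝ)))) :
    |∑ T ∈ X'.powerset, F T| ≤
      C₁ * ((Fintype.card ι : ℝ) ^ 2 * (2 / u) * M ^ (Fintype.card ι) +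
        b * M ^ (Fintype.card ι)) := by
  have hM' : ∏ x ∈ XX ι u v, (1 + 1 / (x.1 : ℝ)) ≤ M ^ (Fintype.card ι) := by
    rw [prod_XX u v (fun p => 1 + 1 / (p : ℝ))]
    exact pow_le_pow_left₀ (prod_nonneg fun p _ => by positivity) hM _
  have hM0 : 0 ≤ ∏ x ∈ XX ι u v, (1 + 1 / (x.1 : ℝ)) := prod_nonneg fun x _ => by positivity
  have hnn : ∀ T : Finset (ℕ × ι),
      0 ≤ C₁ * ((if Cons T then 0 else 1 / (sz T : ℝ)) + b * (1 / (sz T : ℝ))) := by
    intro T
    apply mul_nonneg hC₁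
    apply add_nonneg
    · split_ifs
      · exact le_refl _
      · positivity
    · positivity
  calc |∑ T ∈ X'.powerset, F T| ≤ ∑ T ∈ X'.powerset, |F T| := abs_sum_le_sum_abs _ _
    _ ≤ ∑ T ∈ X'.powerset,
          C₁ * ((if Cons T then 0 else 1 / (sz T : ℝ)) + b * (1 / (sz T : ℝ))) :=
        sum_le_sum fun T hT => hF T (mem_powerset.1 hT)
    _ ≤ ∑ T ∈ (XX ι u v).powerset,
          C₁ * ((if Cons T then 0 else 1 / (sz T : ℝ)) + b * (1 / (sz T : ℝ))) :=
        sum_le_sum_of_subset_of_nonneg (powerset_mono.2 hX') fun T _ _ => hnn T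
    _ = C₁ * (∑ T ∈ (XX ι u v).powerset, (if Cons T then 0 else 1 / (sz T : ℝ)) +
          b * ∏ x ∈ XX ι u v, (1 + 1 / (x.1 : ℝ))) := by
        rw [← mul_sum, sum_add_distrib, ← mul_sum, ← sum_powerset_prod]
        simp only [inv_sz]
    _ ≤ _ := by
        apply mul_le_mul_of_nonneg_left _ hC₁
        apply add_le_add
        · refine (noncons u v).trans ?_
          apply mul_le_mul _ hM' hM0 (by positivity)
          exact mul_le_mul_of_nonneg_left (sum_inv_sq_le hu) (by positivity)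
        · exact mul_le_mul_of_nonneg_left hM' hb

lemma card_le_of_supp [Fintype ι] {η₁ η N C : ℝ} (h1 : 0 < η₁) (hN : 1 < N)
    {c : Finset (ℕ × ι) → ℝ}
    (hL : Lev (XX ι (N ^ η₁) (N ^ η)) c N C) {T : Finset (ℕ × ι)} (hT : c T ≠ 0) :
    T.card ≤ ⌊1 / η₁⌋₊ := by
  obtain ⟨hsub, hsz⟩ := hL.supp T hT
  have h2 : (N ^ η₁) ^ T.card ≤ (sz T : ℝ) := by
    rw [sz, Nat.cast_prod, ← prod_const]
    apply Finset.prod_le_prod
    · intro x _; positivity
    · intro x hx
      have := hsub hx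
      rw [mem_XX] at this
      exact this.2.1
  have h3 : N ^ (η₁ * T.card) ≤ N ^ (1 : ℝ) := by
    rw [Real.rpow_mul (by linarith), Real.rpow_natCast, Real.rpow_one]
    exact h2.trans hsz
  have h4 : η₁ * T.card ≤ 1 := (Real.rpow_le_rpow_left_iff hN).1 h3
  apply Nat.le_floor
  rw [le_div_iff₀ h1]
  linarith

theorem part5 [Fintype ι] (η₁ η C : ℝ) (h1 : 0 < η₁) (h2 : η₁ < η) (hC : 1 ≤ C) :
    ∃ C' N₀ : ℝ, ∀ N : ℝ, N₀ ≤ N → ∀ (c : Finset (ℕ × ι) → ℝ),
    Lev (XX ι (N ^ η₁) (N ^ η)) c N C →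
    |Eloc (XX ι (N ^ η₁) (N ^ η)) c - Eid (XX ι (N ^ η₁) (N ^ η)) (poly c)| ≤ C' * N ^ (-η₁) ∧
    ∀ i : ι, |EloI (XX ι (N ^ η₁) (N ^ η)) i c
      - Eid ((XX ι (N ^ η₁) (N ^ η)).filter fun x => x.2 ≠ i) (poly c)| ≤ C' * N ^ (-η₁) := by
  obtain ⟨M, hM1, hM⟩ := mert_bd η₁ η h1 h2
  set R : ℕ := ⌊1 / η₁⌋₊ with hR
  set K : ℕ := Fintype.card ι with hK
  refine ⟨C ^ (R + 1) * ((K : ℝ) ^ 2 * 2 * M ^ K + 2 ^ R * 2 * M ^ K),
    max 2 ((2 : ℝ) ^ (1 / η₁)), fun N hN c hL => ?_⟩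
  have hN1 : 1 < N := by linarith [le_max_left 2 ((2 : ℝ) ^ (1 / η₁))]
  have hN2 : 2 ≤ N ^ η₁ := by
    have h3 : (2 : ℝ) ^ (1 / η₁) ≤ N := (le_max_right _ _).trans hN
    calc (2 : ℝ) = ((2 : ℝ) ^ (1 / η₁)) ^ η₁ := by
          rw [← Real.rpow_mul (by norm_num), one_div_mul_cancel h1.ne', Real.rpow_one]
      _ ≤ N ^ η₁ := Real.rpow_le_rpow (by positivity) h3 h1.le
  set u := N ^ η₁ with hu
  set v := N ^ η with hv
  have hM' := hM N hN1 hN2
  have hC1 : ∀ T, |c T| ≤ C ^ (R + 1) := by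
    intro T
    by_cases h0 : c T = 0
    · rw [h0, abs_zero]; positivity
    · refine (hL.bd T).trans (pow_le_pow_right₀ hC ?_)
      have := card_le_of_supp h1 hN1 hL h0
      omega
  have hC0 : (0 : ℝ) ≤ C ^ (R + 1) := by positivity
  have hneg : N ^ (-η₁) = 1 / u := by
    rw [Real.rpow_neg (by linarith), one_div]
  have hb : (0 : ℝ) ≤ 2 ^ R * (2 / u) := by positivity
  have hfin : C ^ (R + 1) * ((K : ℝ) ^ 2 * (2 / u) * M ^ K + 2 ^ R * (2 / u) * M ^ K) =
      C ^ (R + 1) * ((K : ℝ) ^ 2 * 2 * M ^ K + 2 ^ R * 2 * M ^ K) * N ^ (-η₁) := by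
    rw [hneg]
    ring
  rw [← hfin]
  constructor
  · have h3 : Eloc (XX ι u v) c - Eid (XX ι u v) (poly c) = ∑ T ∈ (XX ι u v).powerset,
        ((if Cons T then c T / sz T else 0) - c T / sz T) := by
      rw [Eid_poly, Eloc, sum_filter, ← sum_sub_distrib]
    rw [h3]
    apply final_bd u v _ M _ hN2 hC0 hb hM' _ (Subset.refl _)
    intro T _
    have h4 : |c T / (sz T : ℝ)| ≤ C ^ (R + 1) * (1 / (sz T : ℝ)) := by
      rw [abs_div, Nat.abs_cast, div_eq_mul_one_div]
      exact mul_le_mul_of_nonneg_right (hC1 T) (by positivity)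
    split_ifs with hCo
    · rw [sub_self, abs_zero]
      positivity
    · rw [zero_sub, abs_neg]
      refine h4.trans (mul_le_mul_of_nonneg_left ?_ hC0)
      have : 0 ≤ 2 ^ R * (2 / u) * (1 / (sz T : ℝ)) := by positivity
      linarith
  · intro i
    set X' := (XX ι u v).filter fun x => x.2 ≠ i with hX'
    have h3 : EloI (XX ι u v) i c - Eid X' (poly c) = ∑ T ∈ X'.powerset,
        ((if Cons T then c T / ∏ x ∈ T, ((x.1 : ℝ) - 1) else 0) - c T / sz T) := by
      rw [Eid_poly, EloI, sum_sub_distrib, ← sum_filter]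
      congr 2
      ext T
      simp only [mem_filter, mem_powerset, hX']
      constructor
      · rintro ⟨h4, h5, h6⟩
        exact ⟨fun x hx => mem_filter.2 ⟨h4 hx, h6 x hx⟩, h5⟩
      · rintro ⟨h4, h5⟩
        exact ⟨fun x hx => (mem_filter.1 (h4 hx)).1, h5, fun x hx => (mem_filter.1 (h4 hx)).2⟩
    rw [h3]
    apply final_bd u v _ M _ hN2 hC0 hb hM' _ (filter_subset _ _)
    intro T hT
    have h4 : |c T / (sz T : ℝ)| ≤ C ^ (R + 1) * (1 / (sz T : ℝ)) := by
      rw [abs_div, Nat.abs_cast, div_eq_mul_one_div]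
      exact mul_le_mul_of_nonneg_right (hC1 T) (by positivity)
    split_ifs with hCo
    · rw [zero_add]
      by_cases h0 : c T = 0
      · rw [h0]
        simp only [zero_div, sub_self, abs_zero]
        positivity
      · have hcard := card_le_of_supp h1 hN1 hL h0
        have hTu : ∀ x ∈ T, u ≤ (x.1 : ℝ) := by
          intro x hx
          have := (mem_filter.1 (hT hx)).1
          rw [mem_XX] at this
          exact this.2.1
        have h5 := inv_prod_le T u hN2 hTu R hcard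
        have h6 : 1 / (sz T : ℝ) ≤ 1 / ∏ x ∈ T, ((x.1 : ℝ) - 1) := by
          apply one_div_le_one_div_of_le
          · apply prod_pos
            intro x hx
            linarith [hTu x hx]
          · rw [sz, Nat.cast_prod]
            apply Finset.prod_le_prod
            · intro x hx
              linarith [hTu x hx]
            · intro x _
              linarith
        have h7 : c T / ∏ x ∈ T, ((x.1 : ℝ) - 1) - c T / sz T =
            c T * (1 / ∏ x ∈ T, ((x.1 : ℝ) - 1) - 1 / (sz T : ℝ)) := by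
          ring
        rw [h7, abs_mul]
        apply mul_le_mul (hC1 T) _ (abs_nonneg _) hC0
        rw [abs_of_nonneg (by linarith)]
        linarith
    · rw [zero_sub, abs_neg]
      refine h4.trans (mul_le_mul_of_nonneg_left ?_ hC0)
      have : 0 ≤ 2 ^ R * (2 / u) * (1 / (sz T : ℝ)) := by positivity
      linarith

theorem stmt_LOC : Stmt_LOC := by
  refine ⟨?_, ?_, ?_, ?_, ?_⟩
  · intro ι c c' S
    exact poly_mul c c' S
  · intro ι X c c' Y Y' C C' hX hY _ hC hC' h h'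
    exact Lev_mul X c c' Y Y' C C' hX hY hC hC' h h'
  · intro ι X c _
    exact Eid_poly X c
  · intro ι X₁ X₂ c c' h hc hc'
    exact ⟨Eloc_mul h c c' hc hc', fun i => EloI_mul h c c' hc hc' i⟩
  · intro ι _ η₁ η C h1 h2 _ hC
    exact part5 η₁ η C h1 h2 hC

end Pool.Agent.GapTwo.LOC_

namespace Pool.Agent.GapTwo

theorem stmt_LOC : Stmt_LOC := LOC_.stmt_LOC

end Pool.Agent.GapTwo
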