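import Pool.Agent.Work.MP_1ea053_nt.IG

/-!
# The number of missing pairs is at most the total excess of the gaps over 2
-/

set_option autoImplicit false

namespace Pool.Agent.GapTwo

open Finset

theorem miss_le (S : Finset ℕ) :
    {m : ℕ | m ∉ S ∧ m + 1 ∉ S ∧ (∃ x ∈ S, x < m) ∧ ∃ y ∈ S, m + 1 < y}.ncard ≤
      ∑ x ∈ S, ∑ y ∈ S.filter (fun y => x < y ∧ ∀ z ∈ S, z ≤ x ∨ y ≤ z), (y - x - 2) := by
  classical
  have hsub : {m : ℕ | m ∉ S ∧ m + 1 ∉ S ∧ (∃ x ∈ S, x < m) ∧ ∃ y ∈ S, m + 1 < y} ⊆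
      ((S.biUnion fun x => (S.filter (fun y => x < y ∧ ∀ z ∈ S, z ≤ x ∨ y ≤ z)).biUnion fun y =>
        Finset.Ioo x (y - 1) : Finset ℕ) : Set ℕ) := by
    rintro m ⟨hm, hm1, ⟨x₁, hx₁, hx₁m⟩, x₂, hx₂, hmx₂⟩
    have hne1 : (S.filter (fun y => y < m)).Nonempty := ⟨x₁, mem_filter.2 ⟨hx₁, hx₁m⟩⟩
    have hne2 : (S.filter (fun y => m + 1 < y)).Nonempty := ⟨x₂, mem_filter.2 ⟨hx₂, hmx₂⟩⟩
    have hyS := mem_filter.1 ((S.filter (fun y => y < m)).max'_mem hne1)
    have hzS := mem_filter.1 ((S.filter (fun y => m + 1 < y)).min'_mem hne2)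
    set y := (S.filter (fun y => y < m)).max' hne1 with hy
    set z := (S.filter (fun y => m + 1 < y)).min' hne2 with hz
    rw [Finset.mem_coe, mem_biUnion]
    refine ⟨y, hyS.1, ?_⟩
    rw [mem_biUnion]
    refine ⟨z, ?_, ?_⟩
    · rw [mem_filter]
      refine ⟨hzS.1, by omega, ?_⟩
      intro w hw
      rcases lt_or_ge w m with h | h
      · left
        exact (S.filter (fun y => y < m)).le_max' w (mem_filter.2 ⟨hw, h⟩)
      · right
        have h1 : w ≠ m := fun h => hm (h ▸ hw)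
        have h2 : w ≠ m + 1 := fun h => hm1 (h ▸ hw)
        exact (S.filter (fun y => m + 1 < y)).min'_le w (mem_filter.2 ⟨hw, by omega⟩)
    · rw [Finset.mem_Ioo]
      omega
  refine (Set.ncard_le_ncard hsub (Finset.finite_toSet _)).trans ?_
  rw [Set.ncard_coe_finset]
  refine card_biUnion_le.trans (sum_le_sum fun x _ => ?_)
  refine card_biUnion_le.trans (sum_le_sum fun y _ => ?_)
  rw [Nat.card_Ioo]
  omega

end Pool.Agent.GapTwo
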