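import Pool.Agent.Work.MP_1ea053_nt.Interface

/-!
# Block PAIRD
-/

set_option autoImplicit false

namespace Pool.Agent.GapTwo

open Finset

theorem stmt_PAIRD : Stmt_PAIRD := by
  intro hcore hforms hcomb
  obtain ⟨k, hk, hcore⟩ := hcore
  obtain ⟨U, b, c₀, hU, hc₀, hinj₀, hdiv₀, hpos₀⟩ := hforms (26 * k)
    (fun i => ((finProdFinEquiv.symm i).1 : ℕ) / 7) (1 / 10000) (by norm_num)
  set c : Fin 26 × Fin k → ℕ := fun x => c₀ (finProdFinEquiv x) with hcdef
  have hc : ∀ x, 0 < c x := fun x => hc₀ _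
  have hinj : Function.Injective c := hinj₀.comp finProdFinEquiv.injective
  have hdiv : ∀ x y, x ≠ y → ((c y : ℤ) - c x) ∣ (c x : ℤ) := fun x y h =>
    hdiv₀ _ _ (fun h' => h (finProdFinEquiv.injective h'))
  have hpos : ∀ x : Fin 26 × Fin k, |((c x : ℝ) - b) / U - (x.1 : ℕ) / 7| < 1 / 10000 := by
    intro x
    have := hpos₀ (finProdFinEquiv x)
    rw [Equiv.symm_apply_apply] at this
    exact this
  set A : ℕ := ∏ x, c x with hA
  have hA0 : 0 < A := Finset.prod_pos fun x _ => hc x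
  have hcA : ∀ x, c x ∣ A := fun x => Finset.dvd_prod_of_mem _ (Finset.mem_univ x)
  set a : Fin 26 × Fin k → ℕ := fun x => A / c x with ha
  have hac : ∀ x, a x * c x = A := fun x => Nat.div_mul_cancel (hcA x)
  have ha0 : ∀ x, 0 < a x := fun x => Nat.div_pos (Nat.le_of_dvd hA0 (hcA x)) (hc x)
  have hainj : Function.Injective a := by
    intro x y hxy
    apply hinj
    have h1 := hac x
    rw [hxy, ← hac y] at h1
    exact Nat.eq_of_mul_eq_mul_left (ha0 y) h1
  obtain ⟨N₀, hN₀⟩ := hcore a ha0 hainj (1 / 10000) (by norm_num) (by norm_num)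
  have hAr : (0 : ℝ) < A := by exact_mod_cast hA0
  refine ⟨⌈(A : ℝ) / (U * (9997 / 10000))⌉₊ + 1, Nat.succ_pos _,
    ⌈|N₀| * (A : ℝ) / (U * (9997 / 10000))⌉₊ + ⌈(A : ℝ) * 100000000 / U⌉₊ + 1, ?_⟩
  intro x hx
  have hx' : |N₀| * (A : ℝ) / (U * (9997 / 10000)) + (A : ℝ) * 100000000 / U + 1 ≤ x := by
    have h1 := Nat.le_ceil (|N₀| * (A : ℝ) / (U * (9997 / 10000)))
    have h2 := Nat.le_ceil ((A : ℝ) * 100000000 / U)
    have h3 : ((⌈|N₀| * (A : ℝ) / (U * (9997 / 10000))⌉₊ + ⌈(A : ℝ) * 100000000 / U⌉₊ + 1 : ℕ) : ℝ)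
      ≤ x := by exact_mod_cast hx
    push_cast at h3
    linarith
  have hx0 : (0 : ℝ) < x := by
    have : 0 ≤ |N₀| * (A : ℝ) / (U * (9997 / 10000)) := by positivity
    have : 0 ≤ (A : ℝ) * 100000000 / U := by positivity
    linarith
  have hxA : (A : ℝ) * 100000000 < x * U := by
    have h1 : 0 ≤ |N₀| * (A : ℝ) / (U * (9997 / 10000)) := by positivity
    have h2 : (A : ℝ) * 100000000 / U < x := by linarith
    rwa [div_lt_iff₀ hU] at h2
  have hxN : |N₀| * (A : ℝ) ≤ x * (U * (9997 / 10000)) := by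
    have h1 : 0 ≤ (A : ℝ) * 100000000 / U := by positivity
    have h2 : |N₀| * (A : ℝ) / (U * (9997 / 10000)) ≤ x := by linarith
    rwa [div_le_iff₀ (by positivity)] at h2
  set N : ℝ := x * U * (9997 / 10000) / A with hN
  have hNA : A * N = x * U * (9997 / 10000) := by
    rw [hN]; field_simp
  have hN₀N : N₀ ≤ N := by
    refine (le_abs_self N₀).trans ?_
    rw [hN, le_div_iff₀ hAr]
    linarith
  have hNpos : 0 < N := by rw [hN]; positivity
  obtain ⟨n, hn1, hn2, T, hT, hprime⟩ := hN₀ N hN₀N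
  obtain ⟨s, hs, s', hs', hss1, hss2⟩ := hcomb T hT
  obtain ⟨l, hp⟩ := hprime s hs
  obtain ⟨l', hq⟩ := hprime s' hs'
  have hne : (s, l) ≠ (s', l') := by
    intro h
    have : s = s' := congrArg Prod.fst h
    rw [this] at hss1
    omega
  have h1 := hdiv _ _ hne
  have hp1 := abs_lt.1 (hpos (s, l))
  have hp2 := abs_lt.1 (hpos (s', l'))
  simp only at hp1 hp2
  set c₁ := c (s, l) with hc₁
  set c₂ := c (s', l') with hc₂
  have hss1' : ((s : ℕ) : ℝ) + 7 ≤ (s' : ℕ) := by exact_mod_cast hss1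
  have hss2' : ((s' : ℕ) : ℝ) ≤ (s : ℕ) + 19 := by exact_mod_cast hss2
  have e1 : ((c₁ : ℝ) - b) / U + ((c₂ : ℝ) - c₁) / U = ((c₂ : ℝ) - b) / U := by ring
  have hg1 : U * (9998 / 10000) < (c₂ : ℝ) - c₁ := by
    have : (9998 / 10000 : ℝ) < ((c₂ : ℝ) - c₁) / U := by linarith
    rw [lt_div_iff₀ hU] at this
    linarith
  have hg2 : (c₂ : ℝ) - c₁ < U * (19 / 7 + 2 / 10000) := by
    have : ((c₂ : ℝ) - c₁) / U < 19 / 7 + 2 / 10000 := by linarith
    rw [div_lt_iff₀ hU] at this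
    linarith
  have hlt : c₁ < c₂ := by
    have : (c₁ : ℝ) < c₂ := by
      have : 0 < U * (9998 / 10000) := by positivity
      linarith
    exact_mod_cast this
  obtain ⟨g, hg⟩ := Nat.exists_eq_add_of_lt hlt
  set G := g + 1 with hG
  have hGr : (G : ℝ) = (c₂ : ℝ) - c₁ := by
    have : (c₂ : ℝ) = (c₁ : ℝ) + g + 1 := by exact_mod_cast hg
    rw [hG]; push_cast; linarith
  have hG0 : 0 < G := Nat.succ_pos _
  have hGc₁ : G ∣ c₁ := by
    have h2 : ((c₂ : ℤ) - c₁) = (G : ℤ) := by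
      have : (c₂ : ℤ) = (c₁ : ℤ) + g + 1 := by exact_mod_cast hg
      rw [hG]; push_cast; linarith
    rw [h2] at h1
    exact_mod_cast h1
  have hGc₂ : G ∣ c₂ := by
    have : c₂ = c₁ + G := by omega
    rw [this]
    exact Dvd.dvd.add hGc₁ dvd_rfl
  obtain ⟨u, hu⟩ := hGc₁
  obtain ⟨v, hv⟩ := hGc₂
  have hGrpos : (0 : ℝ) < G := by exact_mod_cast hG0
  have hm : G * (u * (a (s, l) * n + 1)) = A * n + c₁ := by
    rw [← hac (s, l), ← hc₁]
    rw [← mul_assoc, ← hu]; ring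
  have hm' : G * (v * (a (s', l') * n + 1)) = A * n + c₂ := by
    rw [← hac (s', l'), ← hc₂]
    rw [← mul_assoc, ← hv]; ring
  have hsucc : u * (a (s, l) * n + 1) + 1 = v * (a (s', l') * n + 1) := by
    have h2 : G * (u * (a (s, l) * n + 1) + 1) = G * (v * (a (s', l') * n + 1)) := by
      rw [mul_add, hm, hm']
      omega
    exact Nat.eq_of_mul_eq_mul_left hG0 h2
  have hnr : (0 : ℝ) < n := hNpos.trans hn1
  have hKp : ∀ y : Fin 26 × Fin k,
      x ≤ (⌈(A : ℝ) / (U * (9997 / 10000))⌉₊ + 1) * (a y * n + 1) := by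
    intro y
    have h2 := Nat.le_ceil ((A : ℝ) / (U * (9997 / 10000)))
    have h3 : (x : ℝ) ≤ (A : ℝ) / (U * (9997 / 10000)) * n := by
      have : (x : ℝ) = (A : ℝ) / (U * (9997 / 10000)) * N := by
        rw [hN]; field_simp
      rw [this]
      exact mul_le_mul_of_nonneg_left hn1.le (by positivity)
    have h4 : (1 : ℝ) ≤ a y := by exact_mod_cast ha0 y
    have h5 : (x : ℝ) ≤ ((⌈(A : ℝ) / (U * (9997 / 10000))⌉₊ : ℝ) + 1) * (a y * n + 1) := by
      have h6 : (A : ℝ) / (U * (9997 / 10000)) * n ≤ ((⌈(A : ℝ) / (U * (9997 / 10000))⌉₊ : ℝ) + 1) *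
          (a y * n + 1) := by
        apply mul_le_mul _ _ hnr.le (by positivity)
        · linarith
        · have := mul_le_mul_of_nonneg_right h4 hnr.le
          linarith
      linarith
    exact_mod_cast h5
  refine ⟨u * (a (s, l) * n + 1), a (s, l) * n + 1, a (s', l') * n + 1, hp, hq,
    Dvd.intro_left _ rfl, ?_, hKp _, hKp _, ?_, ?_⟩
  · rw [hsucc]; exact Dvd.intro_left _ rfl
  · -- lower bound
    have h2 : (G : ℝ) * ((u * (a (s, l) * n + 1) : ℕ) : ℝ) = A * n + c₁ := by exact_mod_cast hm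
    have h3 : (0 : ℝ) < c₁ := by exact_mod_cast hc _
    have h4 : x * U * (9997 / 10000) < (G : ℝ) * ((u * (a (s, l) * n + 1) : ℕ) : ℝ) := by
      rw [h2, ← hNA]
      have := mul_lt_mul_of_pos_left hn1 hAr
      linarith
    have h5 : (G : ℝ) * ((u * (a (s, l) * n + 1) : ℕ) : ℝ) ≤
        U * (19 / 7 + 2 / 10000) * ((u * (a (s, l) * n + 1) : ℕ) : ℝ) := by
      apply mul_le_mul_of_nonneg_right _ (Nat.cast_nonneg _)
      linarith
    have h6 : U * (x * (9997 / 10000)) <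
        U * ((19 / 7 + 2 / 10000) * ((u * (a (s, l) * n + 1) : ℕ) : ℝ)) := by
      calc U * (x * (9997 / 10000)) = x * U * (9997 / 10000) := by ring
        _ < _ := h4
        _ ≤ _ := h5
        _ = _ := by ring
    have h7 := lt_of_mul_lt_mul_left h6 hU.le
    rw [div_lt_iff₀ (by norm_num)]
    have h8 : (0 : ℝ) ≤ ((u * (a (s, l) * n + 1) : ℕ) : ℝ) := Nat.cast_nonneg _
    linarith
  · -- upper bound
    have h2 : (G : ℝ) * (((u * (a (s, l) * n + 1) : ℕ) : ℝ) + 1) = A * n + c₂ := by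
      have : G * (u * (a (s, l) * n + 1) + 1) = A * n + c₂ := by rw [hsucc, hm']
      exact_mod_cast this
    have h3 : (c₂ : ℝ) ≤ A := by exact_mod_cast Nat.le_of_dvd hA0 (hcA _)
    have h4 : (A : ℝ) * n ≤ (1 + 1 / 10000) * (x * U * (9997 / 10000)) := by
      rw [← hNA]
      calc (A : ℝ) * n ≤ A * ((1 + 1 / 10000) * N) := mul_le_mul_of_nonneg_left hn2 hAr.le
        _ = _ := by ring
    have h5 : (G : ℝ) * (((u * (a (s, l) * n + 1) : ℕ) : ℝ) + 1) <
        U * (9998 / 10000) * x := by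
      rw [h2]
      have h6 : 0 < x * U := by positivity
      have h7 : U * (9998 / 10000) * x = (x * U) * (9998 / 10000) := by ring
      rw [h7]
      linarith
    have h6 : U * (9998 / 10000) * (((u * (a (s, l) * n + 1) : ℕ) : ℝ) + 1) ≤
        (G : ℝ) * (((u * (a (s, l) * n + 1) : ℕ) : ℝ) + 1) := by
      apply mul_le_mul_of_nonneg_right _ (by positivity)
      rw [hGr]; exact hg1.le
    have h7 := lt_of_mul_lt_mul_left (h6.trans_lt h5) (by positivity)
    exact_mod_cast h7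

end Pool.Agent.GapTwo
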