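import Pool.Agent.Work.MP_1ea053_nt.Interface

/-!
# Block RED
-/

set_option autoImplicit false

namespace Pool.Agent.GapTwo

open Finset

namespace RED_

/-- A large prime factor is impossible. -/
lemma no_prime {S : Finset ℕ} (hS : IsSol S) {K x p s : ℕ} (hx : ∀ y ∈ S, y ≤ x)
    (hp : p.Prime) (hKp : x ≤ K * p) (hbig : K * K.factorial < p) (hs : s ∈ S) (hps : p ∣ s) :
    False := by
  obtain ⟨-, hpos, hsum⟩ := hS
  set A := S.filter (fun s => p ∣ s) with hA
  set B := S.filter (fun s => ¬ p ∣ s) with hB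
  set D : ℕ := ∏ s ∈ B, s with hD
  set Z : ℕ := ∑ s ∈ A, K.factorial / (s / p) with hZ
  set E : ℕ := ∑ s ∈ B, D / s with hE
  have hp0 : 0 < p := hp.pos
  have hAj : ∀ s ∈ A, 1 ≤ s / p ∧ s / p ≤ K ∧ p * (s / p) = s := by
    intro s hs
    rw [hA, mem_filter] at hs
    have h1 : p * (s / p) = s := Nat.mul_div_cancel' hs.2
    have h2 := hpos s hs.1
    have h3 := hx s hs.1
    refine ⟨?_, ?_, h1⟩
    · rcases Nat.eq_zero_or_pos (s / p) with h0 | h0
      · rw [h0] at h1; omega
      · exact h0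
    · have : p * (s / p) ≤ p * K := by rw [h1, mul_comm p K]; exact h3.trans hKp
      exact Nat.le_of_mul_le_mul_left this hp0
  have hDpos : 0 < D := Finset.prod_pos fun s hs => hpos s (mem_filter.1 hs).1
  have hpD : ¬ p ∣ D := by
    intro h
    obtain ⟨s, hs, hps⟩ := (Prime.dvd_finset_prod_iff hp.prime _).1 h
    exact (mem_filter.1 hs).2 hps
  have hfac : (0 : ℚ) < K.factorial := by exact_mod_cast K.factorial_pos
  have hmain : D * Z + p * K.factorial * E = p * D * K.factorial := by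
    have h1 : ∑ s ∈ A, (1 : ℚ) / s + ∑ s ∈ B, (1 : ℚ) / s = 1 := by
      have h0 := Finset.sum_filter_add_sum_filter_not S (fun s => p ∣ s) (fun s => (1 : ℚ) / s)
      rw [hsum] at h0
      exact h0
    have h2 : (Z : ℚ) = p * K.factorial * ∑ s ∈ A, (1 : ℚ) / s := by
      rw [hZ, Nat.cast_sum, Finset.mul_sum]
      refine Finset.sum_congr rfl fun s hs => ?_
      obtain ⟨h3, h4, h5⟩ := hAj s hs
      rw [Nat.cast_div (Nat.dvd_factorial h3 h4) (by positivity)]
      have h6 : (s : ℚ) = p * ((s / p : ℕ) : ℚ) := by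
        rw [← Nat.cast_mul, h5]
      rw [h6]
      have h7 : (((s / p : ℕ)) : ℚ) ≠ 0 := by positivity
      have h8 : (p : ℚ) ≠ 0 := by positivity
      field_simp
    have h3 : (E : ℚ) = D * ∑ s ∈ B, (1 : ℚ) / s := by
      rw [hE, Nat.cast_sum, Finset.mul_sum]
      refine Finset.sum_congr rfl fun s hs => ?_
      have h4 : 0 < s := hpos s (mem_filter.1 hs).1
      rw [Nat.cast_div (Finset.dvd_prod_of_mem _ hs) (by positivity)]
      ring
    have h4 : (D : ℚ) * Z + p * K.factorial * E = p * D * K.factorial := by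
      rw [h2, h3]
      linear_combination ((p : ℚ) * D * K.factorial) * h1
    exact_mod_cast h4
  have hpZ : p ∣ Z := by
    have h1 : p ∣ D * Z + p * K.factorial * E := by
      rw [hmain]; exact ⟨D * K.factorial, by ring⟩
    have h2 : p ∣ p * K.factorial * E := ⟨K.factorial * E, by ring⟩
    have h3 : p ∣ D * Z := (Nat.dvd_add_left h2).1 h1
    exact (hp.dvd_mul.1 h3).resolve_left hpD
  have hZpos : 0 < Z := by
    refine Finset.sum_pos (fun s hs => ?_) ⟨s, mem_filter.2 ⟨hs, hps⟩⟩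
    obtain ⟨h3, h4, h5⟩ := hAj s hs
    exact Nat.div_pos (Nat.le_of_dvd K.factorial_pos (Nat.dvd_factorial h3 h4)) (by omega)
  have hAcard : A.card ≤ K := by
    have h1 : (A.image (fun s => s / p)) ⊆ Finset.Icc 1 K := by
      intro j hj
      obtain ⟨s, hs, rfl⟩ := Finset.mem_image.1 hj
      obtain ⟨h3, h4, h5⟩ := hAj s hs
      exact Finset.mem_Icc.2 ⟨h3, h4⟩
    have h2 : Set.InjOn (fun s => s / p) A := by
      intro s hs t ht hst
      have h3 := (hAj s hs).2.2
      have h4 := (hAj t ht).2.2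
      simp only at hst
      rw [← h3, ← h4, hst]
    have h3 := Finset.card_le_card h1
    rw [Finset.card_image_of_injOn h2, Nat.card_Icc] at h3
    omega
  have hZle : Z ≤ K * K.factorial := by
    calc Z ≤ ∑ s ∈ A, K.factorial := Finset.sum_le_sum fun s _ => Nat.div_le_self _ _
      _ = A.card * K.factorial := by rw [Finset.sum_const, smul_eq_mul]
      _ ≤ K * K.factorial := Nat.mul_le_mul_right _ hAcard
  have := Nat.le_of_dvd hZpos hpZ
  omega

lemma sum_le_log (a : ℕ) (ha : 0 < a) : ∀ b : ℕ, a ≤ b →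
    ∑ k ∈ Finset.Ioc a b, (1 : ℝ) / k ≤ Real.log b - Real.log a := by
  intro b hb
  induction b, hb using Nat.le_induction with
  | base => simp
  | succ b hb ih =>
    rw [← Finset.insert_Ioc_right_eq_Ioc_add_one (by omega), Finset.sum_insert (by simp)]
    have hb0 : (0 : ℝ) < b := by exact_mod_cast (by omega : 0 < b)
    have h1 : (1 : ℝ) / ((b + 1 : ℕ) : ℝ) ≤ Real.log ((b + 1 : ℕ) : ℝ) - Real.log b := by
      have h2 := Real.one_sub_inv_le_log_of_pos (x := ((b + 1 : ℕ) : ℝ) / b) (by positivity)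
      rw [Real.log_div (by positivity) (by positivity)] at h2
      have h3 : (1 : ℝ) - (((b + 1 : ℕ) : ℝ) / b)⁻¹ = 1 / ((b + 1 : ℕ) : ℝ) := by
        push_cast
        field_simp
        ring
      rw [h3] at h2
      exact h2
    linarith

/-- The smallest element is small. -/
lemma min_small {S : Finset ℕ} (hS : IsSol S) {x₁ x : ℕ} (hx₁ : x₁ ∈ S) (hmin : ∀ y ∈ S, x₁ ≤ y)
    (hmax : ∀ y ∈ S, y ≤ x) (hx : 27170 < x) : (x₁ : ℝ) < x / 2.717 := by
  obtain ⟨-, hpos, hsum⟩ := hS
  have h0 : 0 < x₁ := hpos _ hx₁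
  have hx1x : x₁ ≤ x := hmax _ hx₁
  rcases lt_or_ge x₁ 10000 with h | h
  · have h1 : (x₁ : ℝ) < 10000 := by exact_mod_cast h
    have h2 : (27170 : ℝ) < x := by exact_mod_cast hx
    rw [lt_div_iff₀ (by norm_num)]
    linarith
  · have hsum' : ∑ s ∈ S, (1 : ℝ) / s = 1 := by
      have : ((∑ s ∈ S, (1 : ℚ) / s : ℚ) : ℝ) = 1 := by rw [hsum]; norm_num
      push_cast at this
      exact this
    have h1 : S ⊆ insert x₁ (Finset.Ioc x₁ x) := by
      intro y hy
      have h2 := hmin y hy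
      have h3 := hmax y hy
      rw [Finset.mem_insert, Finset.mem_Ioc]
      omega
    have h2 : (1 : ℝ) ≤ 1 / x₁ + (Real.log x - Real.log x₁) := by
      calc (1 : ℝ) = ∑ s ∈ S, (1 : ℝ) / s := hsum'.symm
        _ ≤ ∑ s ∈ insert x₁ (Finset.Ioc x₁ x), (1 : ℝ) / s :=
            Finset.sum_le_sum_of_subset_of_nonneg h1 fun i _ _ => by positivity
        _ = 1 / x₁ + ∑ s ∈ Finset.Ioc x₁ x, (1 : ℝ) / s := by
            rw [Finset.sum_insert (by simp)]
        _ ≤ 1 / x₁ + (Real.log x - Real.log x₁) := by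
            have := sum_le_log x₁ h0 x hx1x
            linarith
    have hx10 : (0 : ℝ) < x₁ := by exact_mod_cast h0
    have hx0 : (0 : ℝ) < x := by exact_mod_cast (by omega : 0 < x)
    have h3 : (1 : ℝ) / x₁ ≤ 1 / 10000 := by
      have : (10000 : ℝ) ≤ x₁ := by exact_mod_cast h
      exact one_div_le_one_div_of_le (by norm_num) this
    have h4 : (1 : ℝ) - 1 / 10000 ≤ Real.log (x / x₁) := by
      rw [Real.log_div hx0.ne' hx10.ne']
      linarith
    have h5 : Real.exp (1 - 1 / 10000) ≤ x / x₁ := by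
      rw [← Real.exp_log (by positivity : (0 : ℝ) < x / x₁)]
      exact Real.exp_le_exp.2 h4
    have h6 : (2.717 : ℝ) < Real.exp (1 - 1 / 10000) := by
      have h7 := Real.exp_one_gt_d9
      have h8 := Real.add_one_le_exp (-(1 / 10000) : ℝ)
      have h9 : Real.exp (1 - 1 / 10000) = Real.exp 1 * Real.exp (-(1 / 10000)) := by
        rw [← Real.exp_add]; congr 1
      rw [h9]
      nlinarith [Real.exp_pos (1 : ℝ)]
    have h7 : (2.717 : ℝ) < x / x₁ := lt_of_lt_of_le h6 h5
    rw [lt_div_iff₀ hx10] at h7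
    rw [lt_div_iff₀ (by norm_num)]
    linarith

end RED_

open RED_

theorem stmt_RED : Stmt_RED := by
  rintro ⟨K, hK, x₀, hP⟩
  set X : ℕ := max x₀ (max 27171 (K * (K * K.factorial) + 1)) with hX
  refine Set.Finite.subset (Finset.finite_toSet (Finset.range X).powerset) ?_
  rintro S ⟨hS, hgap⟩
  rw [Finset.mem_coe, Finset.mem_powerset]
  by_contra hcon
  rw [Finset.not_subset] at hcon
  obtain ⟨z₀, hz₀, hz₀X⟩ := hcon
  rw [Finset.mem_range, not_lt] at hz₀X
  have hne : S.Nonempty := ⟨z₀, hz₀⟩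
  set x := S.max' hne with hx
  set x₁ := S.min' hne with hx₁
  have hxS : x ∈ S := S.max'_mem hne
  have hx₁S : x₁ ∈ S := S.min'_mem hne
  have hmax : ∀ y ∈ S, y ≤ x := fun y hy => S.le_max' y hy
  have hmin : ∀ y ∈ S, x₁ ≤ y := fun y hy => S.min'_le y hy
  have hxX : X ≤ x := hz₀X.trans (hmax _ hz₀)
  have hx1 : x₀ ≤ x := le_trans (le_max_left _ _) hxX
  have hx2 : 27171 ≤ x := le_trans (le_trans (le_max_left _ _) (le_max_right _ _)) hxX
  have hx3 : K * (K * K.factorial) + 1 ≤ x :=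
    le_trans (le_trans (le_max_right _ _) (le_max_right _ _)) hxX
  obtain ⟨m, p, q, hp, hq, hpm, hqm, hKp, hKq, hm1, hm2⟩ := hP x hx1
  have hbig : ∀ p : ℕ, x ≤ K * p → K * K.factorial < p := by
    intro p h
    have : K * (K * K.factorial) < K * p := by omega
    exact Nat.lt_of_mul_lt_mul_left this
  have hmS : m ∉ S := fun h => no_prime hS hmax hp hKp (hbig p hKp) h hpm
  have hm1S : m + 1 ∉ S := fun h => no_prime hS hmax hq hKq (hbig q hKq) h hqm
  have hlt : (x₁ : ℝ) < m := (min_small hS hx₁S hmin hmax (by omega)).trans hm1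
  have hx1m : x₁ < m := by exact_mod_cast hlt
  have hmx : m + 1 < x := by exact_mod_cast hm2
  have hne1 : (S.filter (fun y => y < m)).Nonempty := ⟨x₁, mem_filter.2 ⟨hx₁S, hx1m⟩⟩
  have hne2 : (S.filter (fun y => m + 1 < y)).Nonempty := ⟨x, mem_filter.2 ⟨hxS, hmx⟩⟩
  set y := (S.filter (fun y => y < m)).max' hne1 with hy
  set z := (S.filter (fun y => m + 1 < y)).min' hne2 with hz
  have hyS := mem_filter.1 ((S.filter (fun y => y < m)).max'_mem hne1)
  have hzS := mem_filter.1 ((S.filter (fun y => m + 1 < y)).min'_mem hne2)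
  have := hgap y hyS.1 z hzS.1 (by omega) (by
    intro w hw
    rcases lt_or_ge w m with h | h
    · left
      exact (S.filter (fun y => y < m)).le_max' w (mem_filter.2 ⟨hw, h⟩)
    · right
      have h1 : w ≠ m := fun h => hmS (h ▸ hw)
      have h2 : w ≠ m + 1 := fun h => hm1S (h ▸ hw)
      exact (S.filter (fun y => m + 1 < y)).min'_le w (mem_filter.2 ⟨hw, by omega⟩))
  omega

end Pool.Agent.GapTwo
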