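import Pool.Agent.Work.MP_1ea053_nt.ROSA

set_option autoImplicit false

namespace Pool.Agent.GapTwo.ROSF_

open Finset Filter Pool.Agent.GapTwo
open scoped Classical Topology

/-- The greedy factorisation. -/
lemma split (v : ℕ → ℝ) (l : List ℕ) : ∀ D₁ D₂ : ℝ, 1 ≤ D₁ → 1 ≤ D₂ → (∀ x ∈ l, 2 ≤ v x) →
    (l.Pairwise fun x y => v y ≤ v x) →
    (okL v true (D₁ * D₂) l → ∃ m₁ m₂ : Multiset ℕ, m₁ + m₂ = (l : Multiset ℕ) ∧
      (m₁.map v).prod ≤ D₁ ∧ (m₂.map v).prod ≤ D₂) ∧
    ((∀ x ∈ l, v x ^ 2 < D₁ * D₂) → okL v false (D₁ * D₂) l →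
      ∃ m₁ m₂ : Multiset ℕ, m₁ + m₂ = (l : Multiset ℕ) ∧
      (m₁.map v).prod ≤ D₁ ∧ (m₂.map v).prod ≤ D₂) := by
  induction l with
  | nil =>
    intro D₁ D₂ h1 h2 _ _
    refine ⟨fun _ => ⟨0, 0, by simp, by simpa using h1, by simpa using h2⟩,
      fun _ _ => ⟨0, 0, by simp, by simpa using h1, by simpa using h2⟩⟩
  | cons p l ih =>
    intro D₁ D₂ h1 h2 hv hp
    rw [List.pairwise_cons] at hp
    have h2p : 2 ≤ v p := hv p (by simp)
    have hp0 : 0 < v p := by linarith
    have hvl : ∀ x ∈ l, 2 ≤ v x := fun x hx => hv x (by simp [hx])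
    -- one step
    have step : ∀ s : Bool, v p ^ 2 < D₁ * D₂ →
        (∀ E₁ E₂ : ℝ, 1 ≤ E₁ → 1 ≤ E₂ → E₁ * E₂ = D₁ * D₂ / v p →
          ∃ m₁ m₂ : Multiset ℕ, m₁ + m₂ = (l : Multiset ℕ) ∧
          (m₁.map v).prod ≤ E₁ ∧ (m₂.map v).prod ≤ E₂) →
        ∃ m₁ m₂ : Multiset ℕ, m₁ + m₂ = ((p :: l : List ℕ) : Multiset ℕ) ∧
          (m₁.map v).prod ≤ D₁ ∧ (m₂.map v).prod ≤ D₂ := by
      intro _ hsq H
      rcases le_total D₁ D₂ with h12 | h12
      · have hpD : v p ≤ D₂ := by
          by_contra hc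
          push Not at hc
          have : D₁ * D₂ ≤ v p ^ 2 := by nlinarith
          linarith
        obtain ⟨m₁, m₂, e, b1, b2⟩ := H D₁ (D₂ / v p) h1 ((one_le_div hp0).2 hpD) (by ring)
        refine ⟨m₁, p ::ₘ m₂, ?_, b1, ?_⟩
        · rw [Multiset.add_cons, e]; rfl
        · rw [Multiset.map_cons, Multiset.prod_cons]
          rw [le_div_iff₀ hp0] at b2
          linarith
      · have hpD : v p ≤ D₁ := by
          by_contra hc
          push Not at hc
          have : D₁ * D₂ ≤ v p ^ 2 := by nlinarith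
          linarith
        obtain ⟨m₁, m₂, e, b1, b2⟩ := H (D₁ / v p) D₂ ((one_le_div hp0).2 hpD) h2 (by ring)
        refine ⟨p ::ₘ m₁, m₂, ?_, ?_, b2⟩
        · rw [Multiset.cons_add, e]; rfl
        · rw [Multiset.map_cons, Multiset.prod_cons]
          rw [le_div_iff₀ hp0] at b1
          linarith
    simp only [okL]
    constructor
    · rintro ⟨h3, hok⟩
      have hsq' : v p ^ 2 < D₁ * D₂ / v p := by
        rw [lt_div_iff₀ hp0]
        calc v p ^ 2 * v p = v p ^ 3 := by ring
          _ < D₁ * D₂ := h3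
      have hsq : v p ^ 2 < D₁ * D₂ := by
        refine lt_of_le_of_lt ?_ h3
        nlinarith [pow_pos hp0 2]
      refine step true hsq fun E₁ E₂ hE1 hE2 hE => ?_
      refine (ih E₁ E₂ hE1 hE2 hvl hp.2).2 ?_ (by rw [hE]; exact hok)
      intro x hx
      have hx1 := hp.1 x hx
      have hx2 := hvl x hx
      rw [hE]
      calc v x ^ 2 ≤ v p ^ 2 := by gcongr
        _ < _ := hsq'
    · intro hsq hok
      refine step true (hsq p (by simp)) fun E₁ E₂ hE1 hE2 hE => ?_
      exact (ih E₁ E₂ hE1 hE2 hvl hp.2).1 (by rw [hE]; exact hok)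

/-- The conditions in terms of the boxes. -/
def okB {J : ℕ} (vv : Fin J → ℝ) : Bool → ℝ → List (Fin J) → Prop
  | _, _, [] => True
  | true, D, p :: l => (vv p) ^ 3 < D ∧ okB vv false (D / vv p) l
  | false, D, p :: l => okB vv true (D / vv p) l

lemma okL_iff {J : ℕ} (bx : ℕ → Fin J) (vv : Fin J → ℝ) (l : List ℕ) : ∀ (s : Bool) (D : ℝ),
    okL (fun p => vv (bx p)) s D l ↔ okB vv s D (l.map bx) := by
  induction l with
  | nil => intro s D; cases s <;> simp [okL, okB]
  | cons p l ih =>
    intro s D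
    cases s with
    | true => simp only [okL, okB, List.map_cons, ih]
    | false => simp only [okL, okB, List.map_cons, ih]

lemma ok_congr (P : Finset ℕ) {J : ℕ} (bx : ℕ → Fin J) (vv : Fin J → ℝ) (D : ℝ)
    (hb : ∀ p ∈ P, ∀ q ∈ P, p ≤ q → bx p ≤ bx q) (T T' : Finset ℕ) (hT : T ⊆ P) (hT' : T' ⊆ P)
    (h : T.val.map bx = T'.val.map bx) (hok : okL (fun p => vv (bx p)) true D (T.sort (· ≥ ·))) :
    okL (fun p => vv (bx p)) true D (T'.sort (· ≥ ·)) := by
  rw [okL_iff] at hok ⊢
  have e : (T.sort (· ≥ ·)).map bx = (T'.sort (· ≥ ·)).map bx := by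
    have aux : ∀ S : Finset ℕ, S ⊆ P → ((S.sort (· ≥ ·)).map bx).Pairwise (· ≥ ·) := by
      intro S hS
      rw [List.pairwise_map]
      refine List.Pairwise.imp_of_mem ?_ (Finset.pairwise_sort S (· ≥ ·))
      intro a b ha hb' hab
      exact hb b (hS ((Finset.mem_sort _).1 hb')) a (hS ((Finset.mem_sort _).1 ha)) hab
    have aux2 : ∀ S : Finset ℕ, (((S.sort (· ≥ ·)).map bx : List (Fin J)) : Multiset (Fin J)) =
        S.val.map bx := by
      intro S
      rw [← Multiset.map_coe, Finset.sort_eq]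
    have hperm : ((T.sort (· ≥ ·)).map bx).Perm ((T'.sort (· ≥ ·)).map bx) := by
      rw [← Multiset.coe_eq_coe, aux2, aux2, h]
    exact hperm.eq_of_pairwise' (aux T hT) (aux T' hT')
  rw [← e]
  exact hok

/-- The number of subsets with given box counts. -/
lemma card_sub (T : Finset ℕ) {J : ℕ} (bx : ℕ → Fin J) (B : Multiset (Fin J)) :
    (T.powerset.filter fun S => S.val.map bx = B).card =
      ∏ j, ((T.val.map bx).count j).choose (B.count j) := by
  have e : ∀ (S : Finset ℕ) (j : Fin J), (S.val.map bx).count j = (S.filter fun p => bx p = j).card := by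
    intro S j
    rw [Multiset.count_map]
    congr 1
    show _ = (S.filter fun p => bx p = j).val
    rw [Finset.filter_val]
    congr 1
    funext x
    exact propext eq_comm
  have : ∏ j, ((T.val.map bx).count j).choose (B.count j) =
      (Fintype.piFinset fun j => (T.filter fun p => bx p = j).powersetCard (B.count j)).card := by
    rw [Fintype.card_piFinset]
    refine prod_congr rfl fun j _ => ?_
    rw [card_powersetCard, e]
  rw [this]
  refine card_bij' (fun S _ j => S.filter fun p => bx p = j)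
    (fun f _ => univ.biUnion f) ?_ ?_ ?_ ?_
  · intro S hS
    rw [mem_filter, mem_powerset] at hS
    rw [Fintype.mem_piFinset]
    intro j
    rw [mem_powersetCard]
    refine ⟨filter_subset_filter _ hS.1, ?_⟩
    rw [← e, hS.2]
  · intro f hf
    rw [Fintype.mem_piFinset] at hf
    have hf' := fun j => mem_powersetCard.1 (hf j)
    rw [mem_filter, mem_powerset]
    constructor
    · intro x hx
      rw [mem_biUnion] at hx
      obtain ⟨j, _, hj⟩ := hx
      exact (mem_filter.1 ((hf' j).1 hj)).1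
    · ext j
      rw [e, ← (hf' j).2]
      congr 1
      ext x
      rw [mem_filter, mem_biUnion]
      constructor
      · rintro ⟨⟨i, _, hi⟩, hx⟩
        have := (mem_filter.1 ((hf' i).1 hi)).2
        rw [this] at hx
        subst hx
        exact hi
      · intro hx
        exact ⟨⟨j, mem_univ _, hx⟩, (mem_filter.1 ((hf' j).1 hx)).2⟩
  · intro S hS
    ext x
    simp
  · intro f hf
    rw [Fintype.mem_piFinset] at hf
    have hf' := fun j => mem_powersetCard.1 (hf j)
    funext j
    ext x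
    rw [mem_filter, mem_biUnion]
    constructor
    · rintro ⟨⟨i, _, hi⟩, hx⟩
      have := (mem_filter.1 ((hf' i).1 hi)).2
      rw [this] at hx
      subst hx
      exact hi
    · intro hx
      exact ⟨⟨j, mem_univ _, hx⟩, (mem_filter.1 ((hf' j).1 hx)).2⟩

/-- Sums over factorisations of a squarefree number. -/
lemma sum_antidiag (d : ℕ) (hd : Squarefree d) (f : ℕ → ℕ → ℝ) :
    ∑ x ∈ d.divisorsAntidiagonal, f x.1 x.2 =
      ∑ S ∈ d.primeFactors.powerset, f (∏ p ∈ S, p) (∏ p ∈ d.primeFactors \ S, p) := by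
  have hd0 : d ≠ 0 := hd.ne_zero
  have hpr : ∀ S ⊆ d.primeFactors, (∏ p ∈ S, p).primeFactors = S := fun S hS =>
    Nat.primeFactors_prod fun p hp => Nat.prime_of_mem_primeFactors (hS hp)
  have key : ∀ x ∈ d.divisorsAntidiagonal, (∏ p ∈ x.1.primeFactors, p) = x.1 ∧
      (∏ p ∈ d.primeFactors \ x.1.primeFactors, p) = x.2 := by
    intro x hx
    have hx' := (Nat.mem_divisorsAntidiagonal.1 hx).1
    rw [← hx'] at hd
    have hc : Nat.Coprime x.1 x.2 := Nat.coprime_of_squarefree_mul hd
    constructor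
    · exact Nat.prod_primeFactors_of_squarefree hd.of_mul_left
    · rw [← hx', hc.primeFactors_mul, union_sdiff_left,
        sdiff_eq_self_of_disjoint hc.disjoint_primeFactors.symm]
      exact Nat.prod_primeFactors_of_squarefree hd.of_mul_right
  refine sum_bij' (fun x _ => x.1.primeFactors)
    (fun S _ => (∏ p ∈ S, p, ∏ p ∈ d.primeFactors \ S, p)) ?_ ?_ ?_ ?_ ?_
  · intro x hx
    rw [mem_powerset]
    have hx' := (Nat.mem_divisorsAntidiagonal.1 hx).1
    exact Nat.primeFactors_mono (Dvd.intro _ hx') hd0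
  · intro S hS
    rw [mem_powerset] at hS
    rw [Nat.mem_divisorsAntidiagonal]
    refine ⟨?_, hd0⟩
    show (∏ p ∈ S, p) * (∏ p ∈ d.primeFactors \ S, p) = d
    rw [mul_comm, prod_sdiff hS]
    exact Nat.prod_primeFactors_of_squarefree hd
  · intro x hx
    exact Prod.ext (key x hx).1 (key x hx).2
  · intro S hS
    exact hpr S (mem_powerset.1 hS)
  · intro x hx
    rw [(key x hx).1, (key x hx).2]

lemma prod_map_sub {J : ℕ} (bx : ℕ → Fin J) (vv : Fin J → ℝ) (m : Multiset ℕ) :
    (m.map fun p => vv (bx p)).prod = ((m.map bx).map vv).prod := by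
  rw [Multiset.map_map]
  rfl

end Pool.Agent.GapTwo.ROSF_

namespace Pool.Agent.GapTwo

open Finset Filter
open scoped Classical Topology

/-- Block ROSF. -/
theorem stmt_ROSF : Stmt_ROSF := by
  intro P J R bx vv D hP hD hv hb hmono hR D₁ D₂ hD1 hD2 hDD
  set v : ℕ → ℝ := fun p => vv (bx p) with hvdef
  have hmon : ∀ p ∈ P, ∀ q ∈ P, p ≤ q → v p ≤ v q := fun p hp q hq h => hmono (hb p hp q hq h)
  have hv2 : ∀ p ∈ P, 2 ≤ v p := fun p hp =>
    le_trans (by exact_mod_cast (hP p hp).two_le) (hv p hp)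
  let G : (Fin J → Fin (R + 1)) → Prop := fun i => ∃ T : Finset ℕ, T ⊆ P ∧
    okL v true D (T.sort (· ≥ ·)) ∧ ∀ j, (T.val.map bx).count j = (i j : ℕ)
  have hex : ∀ i, ∃ B₁ B₂ : Multiset (Fin J), G i → (∀ j, (B₁ + B₂).count j = (i j : ℕ)) ∧
      (B₁.map vv).prod ≤ D₁ ∧ (B₂.map vv).prod ≤ D₂ := by
    intro i
    by_cases hi : G i
    · obtain ⟨T, hTP, hok, hc⟩ := hi
      have := (ROSF_.split v (T.sort (· ≥ ·)) D₁ D₂ hD1 hD2
        (fun x hx => hv2 x (hTP ((Finset.mem_sort _).1 hx)))
        (ROSA_.sort_pairwise P v hmon T hTP)).1 (by rw [hDD]; exact hok)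
      obtain ⟨m₁, m₂, e, b1, b2⟩ := this
      refine ⟨m₁.map bx, m₂.map bx, fun _ => ⟨?_, ?_, ?_⟩⟩
      · intro j
        rw [← Multiset.map_add, e, Finset.sort_eq]
        exact hc j
      · rw [← ROSF_.prod_map_sub]; exact b1
      · rw [← ROSF_.prod_map_sub]; exact b2
    · exact ⟨0, 0, fun h => absurd h hi⟩
  choose B₁ B₂ hB using hex
  let cnt : (Fin J → Fin (R + 1)) → ℕ := fun i => ∏ j, ((B₁ i + B₂ i).count j).choose ((B₁ i).count j)
  let α : (Fin J → Fin (R + 1)) → ℕ → ℝ := fun i d =>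
    if G i ∧ Squarefree d ∧ d.primeFactors ⊆ P ∧ d.primeFactors.val.map bx = B₁ i then
      (-1) ^ Multiset.card (B₁ i + B₂ i) / (cnt i : ℝ) else 0
  let β : (Fin J → Fin (R + 1)) → ℕ → ℝ := fun i d =>
    if G i ∧ Squarefree d ∧ d.primeFactors ⊆ P ∧ d.primeFactors.val.map bx = B₂ i then 1 else 0
  have hsize : ∀ (d : ℕ) (B : Multiset (Fin J)) (E : ℝ), Squarefree d → d.primeFactors ⊆ P →
      d.primeFactors.val.map bx = B → (B.map vv).prod ≤ E → (d : ℝ) ≤ E := by
    intro d B E h1 h2 h3 h4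
    refine le_trans ?_ h4
    rw [← h3, ← ROSF_.prod_map_sub]
    have e : (d : ℝ) = ∏ p ∈ d.primeFactors, (p : ℝ) := by
      conv_lhs => rw [← Nat.prod_primeFactors_of_squarefree h1]
      push_cast
      rfl
    rw [e]
    exact prod_le_prod (fun _ _ => Nat.cast_nonneg _) fun p hp => hv p (h2 hp)
  refine ⟨α, β, ?_, ?_, ?_, ?_, ?_⟩
  · intro i d
    simp only [α]
    split_ifs
    · rw [abs_div, abs_pow, abs_neg, abs_one, one_pow, Nat.abs_cast]
      rcases Nat.eq_zero_or_pos (cnt i) with h | h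
      · rw [h]; simp
      · rw [div_le_one (by exact_mod_cast h)]
        exact_mod_cast h
    · simp
  · intro i d
    simp only [β]
    split_ifs <;> simp
  · intro i d h
    simp only [α] at h
    by_cases hc : G i ∧ Squarefree d ∧ d.primeFactors ⊆ P ∧ d.primeFactors.val.map bx = B₁ i
    · exact ⟨hc.2.1, hc.2.2.1, hsize d _ _ hc.2.1 hc.2.2.1 hc.2.2.2 (hB i hc.1).2.1⟩
    · exact absurd (if_neg hc) h
  · intro i d h
    simp only [β] at h
    by_cases hc : G i ∧ Squarefree d ∧ d.primeFactors ⊆ P ∧ d.primeFactors.val.map bx = B₂ i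
    · exact ⟨hc.2.1, hc.2.2.1, hsize d _ _ hc.2.1 hc.2.2.1 hc.2.2.2 (hB i hc.1).2.2⟩
    · exact absurd (if_neg hc) h
  · intro d hd
    set T := d.primeFactors with hT
    have hpr : ∀ S ⊆ T, (∏ p ∈ S, p).primeFactors = S := fun S hS =>
      Nat.primeFactors_prod fun p hp => Nat.prime_of_mem_primeFactors (hS hp)
    have hsq : ∀ S ⊆ T, Squarefree (∏ p ∈ S, p) := by
      intro S hS
      refine hd.squarefree_of_dvd ?_
      have h1 : ∏ p ∈ S, p ∣ ∏ p ∈ d.primeFactors, p := prod_dvd_prod_of_subset _ _ _ hS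
      exact h1.trans (Nat.prod_primeFactors_dvd d)
    have hsum : ∀ i, ∑ x ∈ d.divisorsAntidiagonal, α i x.1 * β i x.2 =
        ∑ S ∈ T.powerset, (if G i ∧ S ⊆ P ∧ S.val.map bx = B₁ i then
          (-1) ^ Multiset.card (B₁ i + B₂ i) / (cnt i : ℝ) else 0) *
          (if G i ∧ T \ S ⊆ P ∧ (T \ S).val.map bx = B₂ i then 1 else 0) := by
      intro i
      rw [ROSF_.sum_antidiag d hd (fun a b => α i a * β i b)]
      refine sum_congr rfl fun S hS => ?_
      rw [mem_powerset] at hS
      simp only [α, β]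
      rw [hpr S hS, hpr (T \ S) sdiff_subset]
      congr 1
      · by_cases h : G i ∧ S ⊆ P ∧ S.val.map bx = B₁ i
        · rw [if_pos h, if_pos ⟨h.1, hsq S hS, h.2⟩]
        · rw [if_neg h, if_neg (fun h' => h ⟨h'.1, h'.2.2⟩)]
      · by_cases h : G i ∧ T \ S ⊆ P ∧ (T \ S).val.map bx = B₂ i
        · rw [if_pos h, if_pos ⟨h.1, hsq _ sdiff_subset, h.2⟩]
        · rw [if_neg h, if_neg (fun h' => h ⟨h'.1, h'.2.2⟩)]
    have hval : ∀ S ⊆ T, S.val.map bx + (T \ S).val.map bx = T.val.map bx := by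
      intro S hS
      rw [← Multiset.map_add]
      congr 1
      rw [← Finset.disjUnion_val S (T \ S) disjoint_sdiff]
      congr 1
      rw [disjUnion_eq_union, union_sdiff_of_subset hS]
    simp only [hsum]
    by_cases hok : T ⊆ P ∧ okL v true D (T.sort (· ≥ ·))
    · obtain ⟨hTP, hok⟩ := hok
      have hrw : rw' P v D d = (-1) ^ T.card := by
        unfold rw'
        rw [if_pos ⟨hd, hTP, hok⟩]
      have hcard : T.card ≤ R := hR d (by rw [hrw]; positivity)
      have hlt : ∀ j, (T.val.map bx).count j < R + 1 := by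
        intro j
        have h1 := Multiset.count_le_card j (T.val.map bx)
        rw [Multiset.card_map] at h1
        have h2 : Multiset.card T.val = T.card := rfl
        omega
      let b : Fin J → Fin (R + 1) := fun j => ⟨(T.val.map bx).count j, hlt j⟩
      have hGb : G b := ⟨T, hTP, hok, fun j => rfl⟩
      have hBb : B₁ b + B₂ b = T.val.map bx := by
        ext j
        exact (hB b hGb).1 j
      rw [hrw, sum_eq_single b]
      · have : ∀ S ∈ T.powerset, (if G b ∧ S ⊆ P ∧ S.val.map bx = B₁ b then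
            (-1 : ℝ) ^ Multiset.card (B₁ b + B₂ b) / (cnt b : ℝ) else 0) *
            (if G b ∧ T \ S ⊆ P ∧ (T \ S).val.map bx = B₂ b then 1 else 0) =
            if S.val.map bx = B₁ b then (-1 : ℝ) ^ T.card / (cnt b : ℝ) else 0 := by
          intro S hS
          rw [mem_powerset] at hS
          by_cases h : S.val.map bx = B₁ b
          · have h2 : (T \ S).val.map bx = B₂ b := by
              have := hval S hS
              rw [← hBb, h] at this
              exact add_left_cancel this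
            rw [if_pos ⟨hGb, hS.trans hTP, h⟩, if_pos ⟨hGb, sdiff_subset.trans hTP, h2⟩, if_pos h,
              mul_one, hBb, Multiset.card_map]
            rfl
          · rw [if_neg (fun h' => h h'.2.2), if_neg h, zero_mul]
        rw [sum_congr rfl this, ← sum_filter, sum_const, ROSF_.card_sub, nsmul_eq_mul]
        have hc : (∏ j, ((T.val.map bx).count j).choose ((B₁ b).count j)) = cnt b := by
          simp only [cnt, hBb]
        rw [hc]
        have hpos : (cnt b : ℝ) ≠ 0 := by
          rw [← hc]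
          rw [Nat.cast_ne_zero, Finset.prod_ne_zero_iff]
          intro j _
          apply (Nat.choose_pos _).ne'
          rw [← hBb, Multiset.count_add]
          omega
        field_simp
      · intro i _ hi
        apply sum_eq_zero
        intro S hS
        rw [mem_powerset] at hS
        by_cases h1 : G i ∧ S ⊆ P ∧ S.val.map bx = B₁ i
        · by_cases h2 : G i ∧ T \ S ⊆ P ∧ (T \ S).val.map bx = B₂ i
          · exfalso
            apply hi
            have e := hval S hS
            rw [h1.2.2, h2.2.2] at e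
            funext j
            apply Fin.ext
            show ((i j : Fin (R + 1)) : ℕ) = (T.val.map bx).count j
            rw [← e]
            exact ((hB i h1.1).1 j).symm
          · rw [if_neg h2, mul_zero]
        · rw [if_neg h1, zero_mul]
      · intro h
        exact absurd (mem_univ _) h
    · have hrw : rw' P v D d = 0 := by
        unfold rw'
        exact if_neg fun h => hok h.2
      rw [hrw]
      symm
      apply sum_eq_zero
      intro i _
      apply sum_eq_zero
      intro S hS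
      rw [mem_powerset] at hS
      by_cases h1 : G i ∧ S ⊆ P ∧ S.val.map bx = B₁ i
      · by_cases h2 : G i ∧ T \ S ⊆ P ∧ (T \ S).val.map bx = B₂ i
        · exfalso
          have hTP : T ⊆ P := by
            rw [← union_sdiff_of_subset hS]
            exact union_subset h1.2.1 h2.2.1
          apply hok
          refine ⟨hTP, ?_⟩
          obtain ⟨T', hT'P, hok', hc'⟩ := h1.1
          refine ROSF_.ok_congr P bx vv D hb T' T hT'P hTP ?_ hok'
          have e := hval S hS
          rw [h1.2.2, h2.2.2] at e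
          rw [← e]
          ext j
          rw [hc' j, (hB i h1.1).1 j]
        · rw [if_neg h2, mul_zero]
      · rw [if_neg h1, zero_mul]

end Pool.Agent.GapTwo
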