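import Pool.Agent.Work.MP_1ea053_nt.Interface
import Pool.Agent.Work.LinearSieve.MERT
import Pool.Agent.Work.LinearSieve.Main

/-!
# Block ROSM: the main term of the box weights (from ROSA, `LinearSieve.claims` and MERT)
-/

set_option autoImplicit false

namespace Pool.Agent.GapTwo
namespace ROSMAux

open Finset Filter
open scoped Classical Topology

/-! ### Combinatorics of the conditions -/

lemma okL_mono (v : ℕ → ℝ) (l : List ℕ) : (∀ p ∈ l, 0 < (p : ℝ) ∧ (p : ℝ) ≤ v p) →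
    ∀ (b : Bool) (D D' : ℝ), 0 < D' → D' ≤ D → okL v b D' l → okL (fun p => (p : ℝ)) b D l := by
  induction l with
  | nil => intro _ b D D' _ _ _; simp [okL]
  | cons p l ih =>
    intro hl b D D' hD' hDD h
    have hp := hl p (by simp)
    have hvp : 0 < v p := lt_of_lt_of_le hp.1 hp.2
    have hl' : ∀ q ∈ l, 0 < (q : ℝ) ∧ (q : ℝ) ≤ v q := fun q hq => hl q (by simp [hq])
    have hdiv : D' / v p ≤ D / p := div_le_div₀ (hD'.le.trans hDD) hDD hp.1 hp.2
    cases b with
    | true =>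
      simp only [okL] at h ⊢
      refine ⟨?_, ih hl' _ _ _ (by positivity) hdiv h.2⟩
      have : (p : ℝ) ^ 3 ≤ (v p) ^ 3 := pow_le_pow_left₀ hp.1.le hp.2 3
      linarith [h.1]
    | false =>
      simp only [okL] at h ⊢
      exact ih hl' _ _ _ (by positivity) hdiv h

lemma okL_bad (v : ℕ → ℝ) (l : List ℕ) : (∀ p ∈ l, 0 < (p : ℝ) ∧ (p : ℝ) ≤ v p) →
    ∀ (b : Bool) (D D' : ℝ), 0 < D' → D' ≤ D → okL (fun p => (p : ℝ)) b D l → ¬ okL v b D' l →
    ∃ (l₁ : List ℕ) (q : ℕ) (l₂ : List ℕ), l = l₁ ++ q :: l₂ ∧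
      (l₁.map (fun p : ℕ => (p : ℝ))).prod * (q : ℝ) ^ 3 < D ∧
      D' ≤ (l₁.map v).prod * (v q) ^ 3 := by
  induction l with
  | nil => intro _ b D D' _ _ _ h; exact absurd (by simp [okL]) h
  | cons p l ih =>
    intro hl b D D' hD' hDD h hn
    have hp := hl p (by simp)
    have hvp : 0 < v p := lt_of_lt_of_le hp.1 hp.2
    have hl' : ∀ q ∈ l, 0 < (q : ℝ) ∧ (q : ℝ) ≤ v q := fun q hq => hl q (by simp [hq])
    have hdiv : D' / v p ≤ D / p := div_le_div₀ (hD'.le.trans hDD) hDD hp.1 hp.2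
    have key : ∀ b', okL (fun p => (p : ℝ)) b' (D / p) l → ¬ okL v b' (D' / v p) l →
        ∃ (l₁ : List ℕ) (q : ℕ) (l₂ : List ℕ), p :: l = l₁ ++ q :: l₂ ∧
          (l₁.map (fun p : ℕ => (p : ℝ))).prod * (q : ℝ) ^ 3 < D ∧
          D' ≤ (l₁.map v).prod * (v q) ^ 3 := by
      intro b' h1 h2
      obtain ⟨l₁, q, l₂, e, h3, h4⟩ := ih hl' b' _ _ (by positivity) hdiv h1 h2
      refine ⟨p :: l₁, q, l₂, by simp [e], ?_, ?_⟩
      · rw [List.map_cons, List.prod_cons]
        rw [lt_div_iff₀ hp.1] at h3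
        calc _ = (l₁.map (fun p : ℕ => (p : ℝ))).prod * (q : ℝ) ^ 3 * p := by ring
          _ < D := h3
      · rw [List.map_cons, List.prod_cons]
        rw [div_le_iff₀ hvp] at h4
        calc D' ≤ _ := h4
          _ = _ := by ring
    cases b with
    | true =>
      simp only [okL] at h hn
      by_cases h1 : (v p) ^ 3 < D'
      · exact key false h.2 fun h2 => hn ⟨h1, h2⟩
      · refine ⟨[], p, l, by simp, ?_, ?_⟩
        · simpa using h.1
        · simpa using not_lt.1 h1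
    | false =>
      simp only [okL] at h hn
      exact key true h hn

/-! ### The weights on products of sets of primes -/

lemma rw'_prod (P : Finset ℕ) (hP : ∀ p ∈ P, p.Prime) (v : ℕ → ℝ) (D : ℝ) (T : Finset ℕ)
    (hT : T ⊆ P) : rw' P v D (∏ p ∈ T, p) =
      if okL v true D (T.sort (· ≥ ·)) then (-1) ^ T.card else 0 := by
  have hpf : (∏ p ∈ T, p).primeFactors = T := Nat.primeFactors_prod fun p hp => hP p (hT hp)
  have hsq : Squarefree (∏ p ∈ T, p) := by
    refine Finset.squarefree_prod_of_pairwise_isCoprime ?_ ?_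
    · intro p hp q hq hpq
      exact Nat.coprime_iff_isRelPrime.1
        ((Nat.coprime_primes (hP p (hT hp)) (hP q (hT hq))).2 hpq)
    · intro p hp
      exact (hP p (hT hp)).prime.squarefree
  unfold rw'
  rw [hpf]
  by_cases h : okL v true D (T.sort (· ≥ ·))
  · rw [if_pos ⟨hsq, hT, h⟩, if_pos h]
  · rw [if_neg (fun h' => h h'.2.2), if_neg h]

/-- A factor of a bad set. -/
lemma bad_split (T : Finset ℕ) (hT : ∀ p ∈ T, 0 < p) (v : ℕ → ℝ) (Y : ℝ) (hY : 1 ≤ Y)
    (hv : ∀ p ∈ T, (p : ℝ) ≤ v p ∧ v p ≤ p * Y) (D : ℝ) (hD : 0 < D)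
    (h1 : okL (fun p => (p : ℝ)) true D (T.sort (· ≥ ·)))
    (h2 : ¬ okL v true D (T.sort (· ≥ ·))) :
    ∃ (A : Finset ℕ) (q : ℕ) (B : Finset ℕ), T = A ∪ insert q B ∧ Disjoint A (insert q B) ∧
      q ∉ B ∧ (∏ p ∈ A, (p : ℝ)) * (q : ℝ) ^ 3 < D ∧
      D ≤ (∏ p ∈ A, (p : ℝ)) * (q : ℝ) ^ 3 * Y ^ (T.card + 2) := by
  have hl : ∀ p ∈ T.sort (· ≥ ·), 0 < (p : ℝ) ∧ (p : ℝ) ≤ v p := by
    intro p hp
    have hp' : p ∈ T := by simpa using hp
    exact ⟨by exact_mod_cast hT p hp', (hv p hp').1⟩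
  obtain ⟨l₁, q, l₂, e, h3, h4⟩ := okL_bad v _ hl true D D hD le_rfl h1 h2
  have hnd : (T.sort (· ≥ ·)).Nodup := Finset.sort_nodup _ _
  have hTe : T = (T.sort (· ≥ ·)).toFinset := (Finset.sort_toFinset _ _).symm
  rw [e] at hnd hTe
  have hnd1 : l₁.Nodup := hnd.of_append_left
  have hnd2 : (q :: l₂).Nodup := hnd.of_append_right
  have hdis : List.Disjoint l₁ (q :: l₂) := List.disjoint_of_nodup_append hnd
  refine ⟨l₁.toFinset, q, l₂.toFinset, ?_, ?_, ?_, ?_, ?_⟩
  · rw [hTe]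
    simp
  · rw [Finset.disjoint_left]
    intro x hx hx'
    rw [List.mem_toFinset] at hx
    apply hdis hx
    simpa using hx'
  · rw [List.mem_toFinset]
    exact (List.nodup_cons.1 hnd2).1
  · rw [List.prod_toFinset _ hnd1]
    exact h3
  · rw [List.prod_toFinset _ hnd1]
    have hmem : ∀ p ∈ l₁, p ∈ T := by
      intro p hp
      rw [hTe]; simp [hp]
    have hqT : q ∈ T := by rw [hTe]; simp
    have hb : (l₁.map v).prod ≤ (l₁.map (fun p : ℕ => (p : ℝ))).prod * Y ^ l₁.length := by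
      clear e h3 h4 hnd hTe hnd1 hnd2 hdis
      induction l₁ with
      | nil => simp
      | cons p l₁ ih =>
        rw [List.map_cons, List.prod_cons, List.map_cons, List.prod_cons, List.length_cons]
        have h5 := ih fun q hq => hmem q (by simp [hq])
        have h6 := hv p (hmem p (by simp))
        have h7 : 0 < (p : ℝ) := by exact_mod_cast hT p (hmem p (by simp))
        have h8 : 0 ≤ (l₁.map v).prod := by
          apply List.prod_nonneg
          intro x hx
          obtain ⟨y, hy, rfl⟩ := List.mem_map.1 hx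
          have h9 := (hv y (hmem y (by simp [hy]))).1
          exact (Nat.cast_nonneg y).trans h9
        calc v p * (l₁.map v).prod ≤ (p * Y) * ((l₁.map (fun p : ℕ => (p : ℝ))).prod * Y ^ l₁.length) :=
              mul_le_mul h6.2 h5 h8 (by positivity)
          _ = _ := by ring
    have hcard : l₁.length + 1 ≤ T.card := by
      have : T.card = (l₁ ++ q :: l₂).length := by
        conv_lhs => rw [hTe]
        rw [List.toFinset_card_of_nodup hnd]
      rw [this, List.length_append, List.length_cons]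
      omega
    have hq := hv q hqT
    have hq0 : 0 < (q : ℝ) := by exact_mod_cast hT q hqT
    have hvq : 0 < v q := lt_of_lt_of_le hq0 hq.1
    have hq3 : (v q) ^ 3 ≤ (q * Y) ^ 3 := pow_le_pow_left₀ hvq.le hq.2 3
    have hpos : 0 ≤ (l₁.map (fun p : ℕ => (p : ℝ))).prod := by
      apply List.prod_nonneg
      intro x hx
      obtain ⟨y, _, rfl⟩ := List.mem_map.1 hx
      exact Nat.cast_nonneg y
    calc D ≤ (l₁.map v).prod * (v q) ^ 3 := h4
      _ ≤ ((l₁.map (fun p : ℕ => (p : ℝ))).prod * Y ^ l₁.length) * (q * Y) ^ 3 :=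
          mul_le_mul hb hq3 (by positivity) (by positivity)
      _ = (l₁.map (fun p : ℕ => (p : ℝ))).prod * (q : ℝ) ^ 3 * Y ^ (l₁.length + 3) := by ring
      _ ≤ _ := by
          apply mul_le_mul_of_nonneg_left _ (by positivity)
          exact pow_le_pow_right₀ hY (by omega)

/-! ### Sums over bad sets -/

lemma bad_sum (P : Finset ℕ) (Bad : Finset (Finset ℕ)) (C : Finset ℕ → ℕ → Prop) (c : ℝ)
    (w : ℕ → ℝ) (hw : ∀ p, 0 ≤ w p)
    (h : ∀ T ∈ Bad, ∃ (A : Finset ℕ) (q : ℕ) (B : Finset ℕ), T = A ∪ insert q B ∧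
      Disjoint A (insert q B) ∧ q ∉ B ∧ A ⊆ P ∧ q ∈ P ∧ B ⊆ P ∧ C A q)
    (hc : ∀ A ⊆ P, ∑ q ∈ P.filter (fun q => C A q), w q ≤ c) :
    ∑ T ∈ Bad, ∏ p ∈ T, w p ≤ (∏ p ∈ P, (1 + w p)) * c * (∏ p ∈ P, (1 + w p)) := by
  classical
  choose! fA fq fB h1 h2 h3 h4 h5 h6 h7 using h
  set S : Finset (Finset ℕ × ℕ × Finset ℕ) :=
    (P.powerset ×ˢ P ×ˢ P.powerset).filter (fun x => C x.1 x.2.1) with hS
  set f : Finset ℕ → Finset ℕ × ℕ × Finset ℕ := fun T => (fA T, fq T, fB T) with hf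
  have hprod : ∀ T ∈ Bad, ∏ p ∈ T, w p = (∏ p ∈ (f T).1, w p) * w (f T).2.1 *
      ∏ p ∈ (f T).2.2, w p := by
    intro T hT
    conv_lhs => rw [h1 T hT]
    rw [prod_union (h2 T hT), prod_insert (h3 T hT)]
    simp only [hf]
    ring
  have hinj : Set.InjOn f (Bad : Set (Finset ℕ)) := by
    intro T hT T' hT' e
    simp only [hf, Prod.mk.injEq] at e
    rw [h1 T hT, h1 T' hT', e.1, e.2.1, e.2.2]
  have hsub : Bad.image f ⊆ S := by
    intro x hx
    obtain ⟨T, hT, rfl⟩ := mem_image.1 hx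
    rw [hS, mem_filter, mem_product, mem_product, mem_powerset, mem_powerset]
    exact ⟨⟨h4 T hT, h5 T hT, h6 T hT⟩, h7 T hT⟩
  have hpr : ∑ T ∈ P.powerset, ∏ p ∈ T, w p = ∏ p ∈ P, (1 + w p) := by
    rw [prod_one_add]
  have hc0 : 0 ≤ c := le_trans (sum_nonneg fun q _ => hw q) (hc ∅ (empty_subset _))
  calc ∑ T ∈ Bad, ∏ p ∈ T, w p
      = ∑ T ∈ Bad, (∏ p ∈ (f T).1, w p) * w (f T).2.1 * ∏ p ∈ (f T).2.2, w p :=
        sum_congr rfl hprod
    _ = ∑ x ∈ Bad.image f, (∏ p ∈ x.1, w p) * w x.2.1 * ∏ p ∈ x.2.2, w p := by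
        rw [sum_image hinj]
    _ ≤ ∑ x ∈ S, (∏ p ∈ x.1, w p) * w x.2.1 * ∏ p ∈ x.2.2, w p := by
        apply sum_le_sum_of_subset_of_nonneg hsub
        intro x _ _
        have a1 : 0 ≤ ∏ p ∈ x.1, w p := prod_nonneg fun p _ => hw p
        have a2 : 0 ≤ ∏ p ∈ x.2.2, w p := prod_nonneg fun p _ => hw p
        exact mul_nonneg (mul_nonneg a1 (hw _)) a2
    _ = ∑ A ∈ P.powerset, (∏ p ∈ A, w p) * (∑ q ∈ P.filter (fun q => C A q), w q) *
          ∑ B ∈ P.powerset, ∏ p ∈ B, w p := by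
        rw [hS, sum_filter, sum_product]
        refine sum_congr rfl fun A _ => ?_
        rw [sum_product, mul_assoc, sum_mul_sum, mul_sum, sum_filter]
        refine sum_congr rfl fun q _ => ?_
        by_cases hq : C A q
        · simp only [hq, if_true]
          rw [mul_sum]
          refine sum_congr rfl fun B _ => ?_
          ring
        · simp [hq]
    _ ≤ ∑ A ∈ P.powerset, (∏ p ∈ A, w p) * c * ∑ B ∈ P.powerset, ∏ p ∈ B, w p := by
        refine sum_le_sum fun A hA => ?_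
        have a1 : 0 ≤ ∏ p ∈ A, w p := prod_nonneg fun p _ => hw p
        have a2 : 0 ≤ ∑ B ∈ P.powerset, ∏ p ∈ B, w p :=
          sum_nonneg fun B _ => prod_nonneg fun p _ => hw p
        exact mul_le_mul_of_nonneg_right (mul_le_mul_of_nonneg_left (hc A (mem_powerset.1 hA)) a1) a2
    _ = _ := by
        rw [← sum_mul, ← sum_mul, hpr]

/-! ### Sums of `1 / p` over short windows -/

/-- The density condition of MERT at one pair. -/
def Dens (δ u w : ℝ) : Prop := 1 ≤ (1 + δ) * (Real.log w / Real.log u) *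
    ∏ p ∈ (range ⌈w⌉₊).filter (fun p : ℕ => p.Prime ∧ u ≤ (p : ℝ)), (1 - 1 / ((p : ℝ) - 1))

lemma PR_eq (u w : ℝ) : PR u w = (range ⌈w⌉₊).filter (fun p : ℕ => p.Prime ∧ u ≤ (p : ℝ)) := rfl

lemma mem_PR (u w : ℝ) (p : ℕ) : p ∈ PR u w ↔ p.Prime ∧ u ≤ (p : ℝ) ∧ (p : ℝ) < w := by
  rw [PR_eq, mem_filter, mem_range, Nat.lt_ceil]
  tauto

lemma prod_le (u w : ℝ) (hu : 3 ≤ u) :
    ∏ p ∈ PR u w, (1 - 1 / ((p : ℝ) - 1)) ≤ ∏ p ∈ PR u w, (1 - 1 / (p : ℝ)) := by
  apply Finset.prod_le_prod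
  · intro p hp
    rw [mem_PR] at hp
    have h1 : 1 / ((p : ℝ) - 1) ≤ 1 := by
      rw [div_le_one (by linarith)]; linarith
    linarith
  · intro p hp
    rw [mem_PR] at hp
    have h1 : 1 / (p : ℝ) ≤ 1 / ((p : ℝ) - 1) :=
      one_div_le_one_div_of_le (by linarith) (by linarith)
    linarith

lemma sum_inv_le (δ u w : ℝ) (hδ : 0 < δ) (hu : 3 ≤ u) (huw : u ≤ w) (hd : Dens δ u w) :
    ∑ p ∈ PR u w, 1 / (p : ℝ) ≤ δ + (Real.log w - Real.log u) / Real.log u := by
  have hlu : 0 < Real.log u := Real.log_pos (by linarith)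
  have hlw : 0 < Real.log w := Real.log_pos (by linarith)
  have h1 : ∏ p ∈ PR u w, (1 - 1 / (p : ℝ)) ≤ Real.exp (-∑ p ∈ PR u w, 1 / (p : ℝ)) := by
    rw [← sum_neg_distrib, Real.exp_sum]
    apply Finset.prod_le_prod
    · intro p hp
      rw [mem_PR] at hp
      have h1 : 1 / (p : ℝ) ≤ 1 := by
        rw [div_le_one (by linarith)]; linarith
      linarith
    · intro p _
      have := Real.add_one_le_exp (-(1 / (p : ℝ)))
      linarith
  have h2 : 1 ≤ (1 + δ) * (Real.log w / Real.log u) * Real.exp (-∑ p ∈ PR u w, 1 / (p : ℝ)) := by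
    refine le_trans hd ?_
    apply mul_le_mul_of_nonneg_left _ (by positivity)
    exact (prod_le u w hu).trans h1
  have h3 : Real.exp (∑ p ∈ PR u w, 1 / (p : ℝ)) ≤ (1 + δ) * (Real.log w / Real.log u) := by
    have h4 := mul_le_mul_of_nonneg_right h2 (Real.exp_pos (∑ p ∈ PR u w, 1 / (p : ℝ))).le
    rw [one_mul, mul_assoc, ← Real.exp_add, neg_add_cancel, Real.exp_zero, mul_one] at h4
    exact h4
  have h4 : ∑ p ∈ PR u w, 1 / (p : ℝ) ≤ Real.log ((1 + δ) * (Real.log w / Real.log u)) := by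
    rw [Real.le_log_iff_exp_le (by positivity)]
    exact h3
  rw [Real.log_mul (by positivity) (by positivity)] at h4
  have h5 := Real.log_le_sub_one_of_pos (by linarith : 0 < 1 + δ)
  have h6 := Real.log_le_sub_one_of_pos (div_pos hlw hlu)
  have h7 : Real.log w / Real.log u - 1 = (Real.log w - Real.log u) / Real.log u := by
    field_simp
  linarith

/-- The primes in a short window. -/
lemma window (δ y z D a X : ℝ) (hδ : 0 < δ) (hy : 3 ≤ y) (hD : 0 < D) (ha : 0 < a) (hX : 1 ≤ X)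
    (hd : ∀ u w : ℝ, y ≤ u → u ≤ w → Dens δ u w) :
    ∑ q ∈ (PR y z).filter (fun q : ℕ => a * (q : ℝ) ^ 3 < D ∧ D ≤ a * (q : ℝ) ^ 3 * X),
      1 / (q : ℝ) ≤ δ + Real.log X / (3 * Real.log y) := by
  have hly : 0 < Real.log y := Real.log_pos (by linarith)
  have hlX : 0 ≤ Real.log X := Real.log_nonneg hX
  set w := (D / a) ^ (1 / 3 : ℝ) with hw
  have hDa : 0 < D / a := by positivity
  have hw0 : 0 < w := Real.rpow_pos_of_pos hDa _
  have hw3 : w ^ 3 = D / a := by
    rw [hw, ← Real.rpow_natCast, ← Real.rpow_mul hDa.le]; norm_num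
  set x := X ^ (1 / 3 : ℝ) with hx
  have hx0 : 0 < x := Real.rpow_pos_of_pos (by linarith) _
  have hx3 : x ^ 3 = X := by
    rw [hx, ← Real.rpow_natCast, ← Real.rpow_mul (by linarith)]; norm_num
  have hx1 : 1 ≤ x := Real.one_le_rpow hX (by norm_num)
  have hlx : Real.log x = Real.log X / 3 := by
    rw [hx, Real.log_rpow (by linarith)]; ring
  have hq1 : ∀ q : ℕ, a * (q : ℝ) ^ 3 < D → (q : ℝ) < w := by
    intro q hq
    have : (q : ℝ) ^ 3 < w ^ 3 := by
      rw [hw3, lt_div_iff₀ ha]; linarith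
    exact lt_of_pow_lt_pow_left₀ 3 hw0.le this
  have hq2 : ∀ q : ℕ, D ≤ a * (q : ℝ) ^ 3 * X → w / x ≤ (q : ℝ) := by
    intro q hq
    have h1 : (w / x) ^ 3 ≤ (q : ℝ) ^ 3 := by
      rw [div_pow, hw3, hx3, div_div, div_le_iff₀ (by positivity)]
      linarith
    exact le_of_pow_le_pow_left₀ (by norm_num) (Nat.cast_nonneg q) h1
  rcases le_or_gt w y with h | h
  · rw [filter_false_of_mem, sum_empty]
    · positivity
    · rintro q hq ⟨h1, _⟩
      rw [mem_PR] at hq
      have := hq1 q h1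
      linarith [hq.2.1]
  · set u := max y (w / x) with hu
    have huy : y ≤ u := le_max_left _ _
    have huw : u ≤ w := max_le h.le (div_le_self hw0.le hx1)
    have hu0 : 0 < u := by linarith
    have h1 : ∑ q ∈ (PR y z).filter (fun q : ℕ => a * (q : ℝ) ^ 3 < D ∧ D ≤ a * (q : ℝ) ^ 3 * X),
        1 / (q : ℝ) ≤ ∑ q ∈ PR u w, 1 / (q : ℝ) := by
      apply sum_le_sum_of_subset_of_nonneg
      · intro q hq
        rw [mem_filter, mem_PR] at hq
        rw [mem_PR]
        exact ⟨hq.1.1, max_le hq.1.2.1 (hq2 q hq.2.2), hq1 q hq.2.1⟩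
      · intro q _ _
        positivity
    have h2 := sum_inv_le δ u w hδ (by linarith) huw (hd u w huy huw)
    have h3 : Real.log w - Real.log u ≤ Real.log X / 3 := by
      have h4 : Real.log (w / x) ≤ Real.log u := Real.log_le_log (by positivity) (le_max_right _ _)
      rw [Real.log_div hw0.ne' hx0.ne', hlx] at h4
      linarith
    have h4 : Real.log y ≤ Real.log u := Real.log_le_log (by linarith) huy
    have h5 : (Real.log w - Real.log u) / Real.log u ≤ Real.log X / (3 * Real.log y) := by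
      have e : Real.log X / (3 * Real.log y) = (Real.log X / 3) / Real.log y := by
        rw [div_div]
      rw [e]
      apply div_le_div₀ (by positivity) h3 hly h4
    linarith

/-! ### The exact main term -/

open Pool.Agent.LinearSieve in
/-- The main term of the Rosser weights of level `z ^ 3`. -/
lemma exact_main (ε : ℝ) (hε : 0 < ε) : ∃ δ₀ : ℝ, 0 < δ₀ ∧ ∀ δ : ℝ, 0 < δ → δ ≤ δ₀ →
    ∀ y z : ℝ, 3 ≤ y → y ≤ z → (∀ u w : ℝ, y ≤ u → u ≤ w → Dens δ u w) →
    M (PR y z) ⌈z⌉₊ true (z ^ 3) (GG (fun p => 1 / (p : ℝ))) ≤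
      (fns.A / 3 + ε) * ∏ p ∈ PR y z, (1 - 1 / (p : ℝ)) := by
  set F := fns with hF
  have hA := A_ge
  have hh3 := hh_pos 3
  have hC := F.C_nonneg
  have hfm := F.fm_nonneg 2
  have hJm := F.Jm_nonneg 3
  have hA0 : 0 < F.A := by linarith
  set K := 2500 * F.C + 500 * (F.A + 6 * F.fm 2 + 2 * F.Jm 3) / hh 3 with hK
  have hK1 : 0 ≤ 500 * (F.A + 6 * F.fm 2 + 2 * F.Jm 3) / hh 3 := by positivity
  have hK0 : 0 ≤ K := by linarith
  refine ⟨min (1 / 2000) (ε / (K + 1)), by positivity, ?_⟩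
  intro δ hδ hδ0 y z hy hyz hd
  have hδ1 : δ ≤ 1 / 2000 := hδ0.trans (min_le_left _ _)
  have hδ2 : K * δ ≤ ε := by
    have h1 : δ ≤ ε / (K + 1) := hδ0.trans (min_le_right _ _)
    calc K * δ ≤ K * (ε / (K + 1)) := mul_le_mul_of_nonneg_left h1 hK0
      _ ≤ (K + 1) * (ε / (K + 1)) := mul_le_mul_of_nonneg_right (by linarith) (by positivity)
      _ = ε := by field_simp
  set P := PR y z with hP
  set g : ℕ → ℝ := fun p => 1 / (p : ℝ) with hg
  have hPp : ∀ p ∈ P, p.Prime ∧ y ≤ (p : ℝ) ∧ (p : ℝ) < z := fun p hp => (mem_PR y z p).1 hp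
  have hP2 : ∀ p ∈ P, 2 ≤ p := fun p hp => (hPp p hp).1.two_le
  have hg0 : ∀ p ∈ P, 0 ≤ g p := fun p _ => by simp only [hg]; positivity
  have hg1 : ∀ p ∈ P, g p < 1 := by
    intro p hp
    have := (hPp p hp).2.1
    simp only [hg]
    rw [div_lt_one (by linarith)]
    linarith
  have hz1 : 1 < z := by linarith
  have hreg : ∀ u w : ℝ, 2 ≤ u → u ≤ w → w ≤ z → 1 ≤ (1 + δ) * (Real.log w / Real.log u) *
      ∏ p ∈ P.filter (fun p : ℕ => u ≤ (p : ℝ) ∧ (p : ℝ) < w), (1 - g p) := by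
    intro u w hu huw hwz
    have hlu : 0 < Real.log u := Real.log_pos (by linarith)
    have hlw : Real.log u ≤ Real.log w := Real.log_le_log (by linarith) huw
    rcases le_or_gt w y with h | h
    · rw [filter_false_of_mem, prod_empty, mul_one]
      · have h1 : 1 ≤ Real.log w / Real.log u := by
          rw [le_div_iff₀ hlu]; linarith
        nlinarith
      · rintro p hp ⟨_, h1⟩
        have := (hPp p hp).2.1
        linarith
    · set u' := max u y with hu'
      have h1 : u' ≤ w := max_le huw h.le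
      have h2 := hd u' w (le_max_right _ _) h1
      have h3 : P.filter (fun p : ℕ => u ≤ (p : ℝ) ∧ (p : ℝ) < w) = PR u' w := by
        ext p
        rw [mem_filter, hP, mem_PR, mem_PR, hu', max_le_iff]
        constructor
        · rintro ⟨⟨a, b, c⟩, d, e⟩; exact ⟨a, ⟨d, b⟩, e⟩
        · rintro ⟨a, ⟨d, b⟩, e⟩; exact ⟨⟨a, b, by linarith⟩, d, e⟩
      rw [h3]
      have hlu' : 0 < Real.log u' := Real.log_pos (by
        have := le_max_right u y
        linarith)
      have h4 : Real.log u ≤ Real.log u' := Real.log_le_log (by linarith) (le_max_left _ _)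
      have h5 : Real.log w / Real.log u' ≤ Real.log w / Real.log u :=
        div_le_div_of_nonneg_left (by linarith) hlu h4
      have h6 : 0 ≤ ∏ p ∈ PR u' w, (1 - 1 / ((p : ℝ) - 1)) := by
        apply prod_nonneg
        intro p hp
        rw [mem_PR] at hp
        have h7 := le_max_right u y
        have h1 : 1 / ((p : ℝ) - 1) ≤ 1 := by
          rw [div_le_one (by linarith [hp.2.1])]; linarith [hp.2.1]
        linarith
      refine le_trans h2 ?_
      apply mul_le_mul _ (prod_le u' w (by have := le_max_right u y; linarith)) h6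
      · have : 0 ≤ Real.log w / Real.log u := by
          apply div_nonneg <;> linarith
        nlinarith
      · exact mul_le_mul_of_nonneg_left h5 (by linarith)
  have hR := reg_of_hyp P g δ z hδ.le (by linarith) hP2 hg1 (fun p hp => (hPp p hp).2.2) hreg
  have hcl := claims P g F δ K hP2 hg0 hg1 hδ.le hδ1 hK0 (by linarith)
    (by rw [hK, add_mul, div_mul_cancel₀ _ hh3.ne']
        have : 0 ≤ 2500 * F.C * hh 3 := by positivity
        linarith) hR z hz1
  have h1 := hcl.1 (z ^ 3) (by nlinarith [sq_nonneg (z - 1)])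
  have hlz : 0 < Real.log z := Real.log_pos hz1
  have e3 : Real.log (z ^ 3) / Real.log z = 3 := by
    rw [Real.log_pow]
    push_cast
    field_simp
  rw [e3, F.fp_small 3 (by norm_num) le_rfl] at h1
  have hVz : V P g z = ∏ p ∈ P, (1 - 1 / (p : ℝ)) :=
    V_eq_all P g z z (fun p hp => (hPp p hp).2.2) le_rfl
  have hVp : 0 < V P g z := V_pos P g hg1 z
  have hhle : hh 3 ≤ 1 := by
    unfold hh
    rw [Real.exp_le_one_iff]
    have := le_max_right (3 : ℝ) 2
    linarith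
  have h2 : K * δ * hh 3 ≤ ε := by
    calc K * δ * hh 3 ≤ K * δ * 1 := mul_le_mul_of_nonneg_left hhle (by positivity)
      _ ≤ ε := by linarith
  have h3 := mul_le_mul_of_nonneg_left h2 hVp.le
  rw [← hVz]
  nlinarith

end ROSMAux

open Finset Filter ROSMAux
open scoped Classical Topology

open Pool.Agent.LinearSieve in
theorem stmt_ROSM (hA : Stmt_ROSA) : Stmt_ROSM := by
  intro ε η hε hη hη1
  obtain ⟨δ₀, hδ₀, hmain⟩ := exact_main (ε / 2) (by positivity)
  set δ := min δ₀ (min 1 (2 * ε * η ^ 3)) with hδ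
  have hδp : 0 < δ := by positivity
  have hδ1 : δ ≤ δ₀ := min_le_left _ _
  have hδ2 : δ ≤ 1 := (min_le_right _ _).trans (min_le_left _ _)
  have hδ3 : δ ≤ 2 * ε * η ^ 3 := (min_le_right _ _).trans (min_le_right _ _)
  obtain ⟨u₀, hu₀, hM⟩ := Pool.Agent.LinSieve.MERT δ hδp
  set R : ℝ := 1 / η + 2 with hR
  have hR0 : 0 < R := by positivity
  set κ' : ℝ := 2 * ε * η ^ 3 * (3 * η) / R with hκ'
  have hκp : 0 < κ' := by positivity
  refine ⟨κ', hκp, (u₀ : ℝ) ^ (1 / η), ?_⟩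
  intro N hN v hv _
  have hu3 : (3 : ℝ) ≤ u₀ := by exact_mod_cast hu₀
  have hN1 : 1 < N := lt_of_lt_of_le (Real.one_lt_rpow (by linarith) (by positivity)) hN
  have hN0 : 0 < N := by linarith
  set y := N ^ η with hy
  set z := N ^ (θ₀ / 3) with hz
  have hyu : (u₀ : ℝ) ≤ y := by
    have h1 : ((u₀ : ℝ) ^ (1 / η)) ^ η ≤ N ^ η := Real.rpow_le_rpow (by positivity) hN hη.le
    rw [← Real.rpow_mul (by linarith)] at h1
    have h2 : 1 / η * η = 1 := by field_simp
    rw [h2, Real.rpow_one] at h1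
    exact h1
  have hy3 : 3 ≤ y := by linarith
  have hθ : θ₀ / 3 = 363 / 2000 := by unfold θ₀; norm_num
  have hyz : y ≤ z := Real.rpow_le_rpow_of_exponent_le hN1.le (by rw [hθ]; linarith)
  have hd : ∀ u w : ℝ, y ≤ u → u ≤ w → Dens δ u w := fun u w hu huw =>
    (hM u w (by linarith) huw).1
  have hlN : 0 < Real.log N := Real.log_pos hN1
  have hly : Real.log y = η * Real.log N := Real.log_rpow hN0 η
  have hlz : Real.log z = θ₀ / 3 * Real.log N := Real.log_rpow hN0 _
  have hz3 : z ^ 3 = N ^ θ₀ := by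
    rw [hz, ← Real.rpow_natCast, ← Real.rpow_mul hN0.le]
    congr 1
    push_cast
    ring
  set P := PR y z with hP
  have hPp : ∀ p ∈ P, p.Prime ∧ y ≤ (p : ℝ) ∧ (p : ℝ) < z := fun p hp => (mem_PR y z p).1 hp
  have hprime : ∀ p ∈ P, p.Prime := fun p hp => (hPp p hp).1
  set D := N ^ θ₀ with hD
  have hθp : 0 < θ₀ := by unfold θ₀; norm_num
  have hD1 : 1 < D := Real.one_lt_rpow hN1 hθp
  -- the exact weights
  have hA' := hA P (fun p => (p : ℝ)) D hprime hD1 (fun p _ => le_rfl)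
    (fun p _ q _ hpq => by exact_mod_cast hpq)
  have hex := hA'.2.2.2.2.2 ⌈z⌉₊ (fun p hp => Nat.lt_ceil.2 (hPp p hp).2.2) (fun p => 1 / (p : ℝ))
  have h1 := hmain δ hδp hδ1 y z hy3 hyz hd
  rw [hz3, ← hP, hex] at h1
  -- the bad sets
  set w : ℕ → ℝ := fun p => 1 / (p : ℝ) with hw
  have hw0 : ∀ p, 0 ≤ w p := fun p => by simp only [hw]; positivity
  set Bad := P.powerset.filter (fun T => okL (fun p => (p : ℝ)) true D (T.sort (· ≥ ·)) ∧
    ¬ okL v true D (T.sort (· ≥ ·))) with hBad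
  set V := ∏ p ∈ P, (1 - 1 / (p : ℝ)) with hV
  set Y := N ^ κ' with hY
  have hY1 : 1 ≤ Y := Real.one_le_rpow hN1.le hκp.le
  have hdiff : ∑ T ∈ P.powerset, rw' P v D (∏ p ∈ T, p) * ∏ p ∈ T, w p ≤
      ∑ T ∈ P.powerset, rw' P (fun p => (p : ℝ)) D (∏ p ∈ T, p) * ∏ p ∈ T, w p
        + ∑ T ∈ Bad, ∏ p ∈ T, w p := by
    rw [hBad, sum_filter, ← sum_add_distrib]
    refine sum_le_sum fun T hT => ?_
    rw [mem_powerset] at hT
    rw [rw'_prod P hprime v D T hT, rw'_prod P hprime _ D T hT]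
    have h2 : 0 ≤ ∏ p ∈ T, w p := prod_nonneg fun p _ => hw0 p
    have hl : ∀ p ∈ T.sort (· ≥ ·), 0 < (p : ℝ) ∧ (p : ℝ) ≤ v p := by
      intro p hp
      have hp' : p ∈ T := by simpa using hp
      exact ⟨by exact_mod_cast (hprime p (hT hp')).pos, (hv p (hT hp')).1⟩
    by_cases h3 : okL v true D (T.sort (· ≥ ·))
    · have h4 := okL_mono v _ hl true D D (by linarith) le_rfl h3
      rw [if_pos h3, if_pos h4, if_neg (fun h => h.2 h3)]
      linarith
    · rw [if_neg h3]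
      by_cases h4 : okL (fun p => (p : ℝ)) true D (T.sort (· ≥ ·))
      · rw [if_pos h4, if_pos ⟨h4, h3⟩]
        have h5 : -1 ≤ (-1 : ℝ) ^ T.card := by
          rcases neg_one_pow_eq_or ℝ T.card with h | h <;> rw [h] <;> norm_num
        nlinarith
      · rw [if_neg h4, if_neg (fun h => h4 h.1)]
        simp
  -- the window bound
  set X := Y ^ (⌊1 / η⌋₊ + 2) with hX
  have hX1 : 1 ≤ X := one_le_pow₀ hY1
  have hlX : Real.log X ≤ κ' * R * Real.log N := by
    rw [hX, Real.log_pow, hY, Real.log_rpow hN0, hR]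
    push_cast
    have h2 : (⌊1 / η⌋₊ : ℝ) ≤ 1 / η := Nat.floor_le (by positivity)
    have h3 : 0 ≤ κ' * Real.log N := by positivity
    nlinarith
  set c := δ + Real.log X / (3 * Real.log y) with hc
  have hcle : c ≤ 4 * ε * η ^ 3 := by
    have h2 : Real.log X / (3 * Real.log y) ≤ 2 * ε * η ^ 3 := by
      rw [hly, div_le_iff₀ (by positivity)]
      refine hlX.trans (le_of_eq ?_)
      rw [hκ']
      field_simp
    rw [hc]
    linarith
  have hcnn : 0 ≤ c := by
    have : 0 ≤ Real.log X := Real.log_nonneg hX1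
    have h2 : 0 < Real.log y := Real.log_pos (by linarith)
    positivity
  have hbad := bad_sum P Bad (fun A q => (∏ p ∈ A, (p : ℝ)) * (q : ℝ) ^ 3 < D ∧
      D ≤ (∏ p ∈ A, (p : ℝ)) * (q : ℝ) ^ 3 * X) c w hw0 ?_ ?_
  rotate_left
  · intro T hT
    rw [hBad, mem_filter, mem_powerset] at hT
    obtain ⟨hTP, hT1, hT2⟩ := hT
    obtain ⟨A, q, B, e, hdis, hqB, h2, h3⟩ := bad_split T (fun p hp => (hprime p (hTP hp)).pos) v Y hY1
      (fun p hp => hv p (hTP hp)) D (by linarith) hT1 hT2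
    have hcard : T.card ≤ ⌊1 / η⌋₊ := by
      apply Nat.le_floor
      have h4 : ((∏ p ∈ T, p : ℕ) : ℝ) < D := by
        apply hA'.2.2.1
        rw [rw'_prod P hprime _ D T hTP, if_pos hT1]
        exact pow_ne_zero _ (by norm_num)
      have h5 : y ^ T.card ≤ ((∏ p ∈ T, p : ℕ) : ℝ) := by
        push_cast
        rw [← prod_const]
        apply Finset.prod_le_prod
        · intro p _; linarith
        · intro p hp; exact (hPp p (hTP hp)).2.1
      have h6 : N ^ (η * T.card) < N ^ θ₀ := by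
        rw [Real.rpow_mul hN0.le, Real.rpow_natCast]
        linarith
      have h7 : η * T.card < θ₀ := (Real.rpow_lt_rpow_left_iff hN1).1 h6
      have h8 : θ₀ < 1 := by unfold θ₀; norm_num
      rw [le_div_iff₀ hη]
      linarith
    have hAT : A ⊆ T := by rw [e]; exact subset_union_left
    have hqT : q ∈ T := by rw [e]; simp
    have hBT : B ⊆ T := by
      rw [e]
      exact (subset_insert q B).trans subset_union_right
    refine ⟨A, q, B, e, hdis, hqB, hAT.trans hTP, hTP hqT, hBT.trans hTP, h2, h3.trans ?_⟩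
    apply mul_le_mul_of_nonneg_left _ (by positivity)
    exact pow_le_pow_right₀ hY1 (by omega)
  · intro A hA1
    have hApos : 0 < ∏ p ∈ A, (p : ℝ) := by
      apply prod_pos
      intro p hp
      exact_mod_cast (hprime p (hA1 hp)).pos
    have h2 := window δ y z D (∏ p ∈ A, (p : ℝ)) X hδp hy3 (by linarith) hApos hX1 hd
    convert h2
  -- bounds for the products
  have hlt : ∀ p ∈ P, 0 ≤ 1 - 1 / (p : ℝ) := by
    intro p hp
    have h2 : 1 / (p : ℝ) ≤ 1 := by
      rw [div_le_one (by linarith [(hPp p hp).2.1])]; linarith [(hPp p hp).2.1]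
    linarith
  have hVge : 2 * η ≤ V := by
    have h2 := hd y z le_rfl hyz
    unfold Dens at h2
    rw [← PR_eq, hly, hlz] at h2
    have h3 := prod_le y z hy3
    rw [← hP, ← hV] at h3
    rw [← hP] at h2
    have h4 : θ₀ / 3 * Real.log N / (η * Real.log N) = θ₀ / 3 / η := by
      field_simp
    rw [h4, hθ] at h2
    have h5 : 1 ≤ (1 + δ) * (363 / 2000 / η) * V :=
      h2.trans (mul_le_mul_of_nonneg_left h3 (by positivity))
    have h6 : (1 + δ) * (363 / 2000 / η) * V = ((1 + δ) * (363 / 2000) * V) / η := by ring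
    rw [h6, le_div_iff₀ hη] at h5
    have hV0 : 0 ≤ V := prod_nonneg hlt
    have h7 : (1 + δ) * (363 / 2000) * V ≤ 2 * (363 / 2000) * V := by
      apply mul_le_mul_of_nonneg_right _ hV0
      apply mul_le_mul_of_nonneg_right _ (by norm_num)
      linarith
    linarith
  have hV0 : 0 < V := by linarith
  have hUV : (∏ p ∈ P, (1 + w p)) * V ≤ 1 := by
    rw [hV, ← prod_mul_distrib]
    apply Finset.prod_le_one
    · intro p hp
      exact mul_nonneg (by linarith [hw0 p]) (hlt p hp)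
    · intro p _
      have h2 : (1 + w p) * (1 - 1 / (p : ℝ)) = 1 - w p ^ 2 := by simp only [hw]; ring
      rw [h2]
      nlinarith [sq_nonneg (w p)]
  set U := ∏ p ∈ P, (1 + w p) with hU
  have hU0 : 0 ≤ U := prod_nonneg fun p _ => by linarith [hw0 p]
  have hfin : U * c * U ≤ ε / 2 * V := by
    -- `U ≤ 1 / V`, `c ≤ 4 ε η ^ 3 ≤ ε V ^ 3 / 2`
    have h2 : c ≤ ε / 2 * V ^ 3 := by
      have h4 : (2 * η) ^ 3 ≤ V ^ 3 := pow_le_pow_left₀ (by positivity) hVge 3
      have h5 : ε / 2 * (2 * η) ^ 3 ≤ ε / 2 * V ^ 3 := mul_le_mul_of_nonneg_left h4 (by positivity)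
      have h6 : ε / 2 * (2 * η) ^ 3 = 4 * ε * η ^ 3 := by ring
      linarith
    have h3 : (U * V) ^ 2 ≤ 1 := pow_le_one₀ (by positivity) hUV
    calc U * c * U = U ^ 2 * c := by ring
      _ ≤ U ^ 2 * (ε / 2 * V ^ 3) := mul_le_mul_of_nonneg_left h2 (by positivity)
      _ = (U * V) ^ 2 * (ε / 2 * V) := by ring
      _ ≤ 1 * (ε / 2 * V) := mul_le_mul_of_nonneg_right h3 (by positivity)
      _ = _ := by ring
  have h7 := hdiff
  have h8 : ∑ T ∈ P.powerset, rw' P v D (∏ p ∈ T, p) * ∏ p ∈ T, w p ≤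
      (fns.A / 3 + ε / 2) * V + ε / 2 * V := by
    linarith
  calc _ ≤ (fns.A / 3 + ε / 2) * V + ε / 2 * V := h8
    _ = _ := by ring

end Pool.Agent.GapTwo
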