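import Pool.Agent.Work.MP_1ea053_nt.ROSA
import Pool.Agent.Work.MP_1ea053_nt.ROSF
import Pool.Agent.Work.MP_1ea053_nt.ROSM

/-!
# Block ROSD: assembly of the sieve for the large primes (ROSA -> ROSF -> ROSM -> ROS)
-/

set_option autoImplicit false

namespace Pool.Agent.GapTwo
namespace ROSDAux

open Finset Filter
open scoped Classical Topology

lemma mem_PR (u w : ℝ) (p : ℕ) : p ∈ PR u w ↔ p.Prime ∧ u ≤ (p : ℝ) ∧ (p : ℝ) < w := by
  unfold PR
  rw [mem_filter, mem_range, Nat.lt_ceil]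
  tauto

lemma rw'_ne {P : Finset ℕ} {v : ℕ → ℝ} {D : ℝ} {d : ℕ} (h : rw' P v D d ≠ 0) :
    Squarefree d ∧ d.primeFactors ⊆ P := by
  unfold rw' at h
  by_cases h1 : Squarefree d ∧ d.primeFactors ⊆ P ∧ okL v true D (d.primeFactors.sort (· ≥ ·))
  · exact ⟨h1.1, h1.2.1⟩
  · rw [if_neg h1] at h
    exact absurd rfl h

/-- The number of prime factors. -/
lemma card_le (N η : ℝ) (hN : 1 < N) (hη : 0 < η) (z : ℝ) (d : ℕ) (hsq : Squarefree d)
    (hd : d.primeFactors ⊆ PR (N ^ η) z) (hdD : (d : ℝ) < N ^ θ₀) :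
    d.primeFactors.card ≤ ⌊1 / η⌋₊ := by
  have hN0 : 0 < N := by linarith
  apply Nat.le_floor
  have h5 : (N ^ η) ^ d.primeFactors.card ≤ (d : ℝ) := by
    conv_rhs => rw [← Nat.prod_primeFactors_of_squarefree hsq]
    push_cast
    rw [← prod_const]
    apply Finset.prod_le_prod
    · intro p _; positivity
    · intro p hp; exact ((mem_PR _ _ p).1 (hd hp)).2.1
  have h6 : N ^ (η * d.primeFactors.card) < N ^ θ₀ := by
    rw [Real.rpow_mul hN0.le, Real.rpow_natCast]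
    linarith
  have h7 : η * d.primeFactors.card < θ₀ := (Real.rpow_lt_rpow_left_iff hN).1 h6
  have h8 : θ₀ < 1 := by unfold θ₀; norm_num
  rw [le_div_iff₀ hη]
  linarith

/-- The main term as a sum over sets of primes. -/
lemma gam_eq (N : ℝ) (P : Finset ℕ) (hP : ∀ p ∈ P, p.Prime) (lam : ℕ → ℝ)
    (h : ∀ d, lam d ≠ 0 → Squarefree d ∧ d.primeFactors ⊆ P ∧ (d : ℝ) ≤ N ^ θ₀) :
    gam N lam = ∑ T ∈ P.powerset, lam (∏ p ∈ T, p) * ∏ p ∈ T, 1 / (p : ℝ) := by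
  have hpf : ∀ U ⊆ P, (∏ p ∈ U, p).primeFactors = U := fun U hU =>
    Nat.primeFactors_prod fun p hp => hP p (hU hp)
  have hinj : Set.InjOn (fun T : Finset ℕ => ∏ p ∈ T, p) (P.powerset : Set (Finset ℕ)) := by
    intro U hU W hW hUW
    have hU' := mem_powerset.1 (mem_coe.1 hU)
    have hW' := mem_powerset.1 (mem_coe.1 hW)
    simp only at hUW
    rw [← hpf U hU', ← hpf W hW', hUW]
  have h1 : ∑ T ∈ P.powerset, lam (∏ p ∈ T, p) * ∏ p ∈ T, 1 / (p : ℝ)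
      = ∑ d ∈ P.powerset.image (fun T : Finset ℕ => ∏ p ∈ T, p), lam d / d := by
    rw [sum_image hinj]
    refine sum_congr rfl fun T _ => ?_
    have h2 : ∏ p ∈ T, 1 / (p : ℝ) = 1 / ((∏ p ∈ T, p : ℕ) : ℝ) := by
      push_cast
      rw [prod_div_distrib, prod_const_one]
    rw [h2, mul_one_div]
  rw [h1, gam, ← sum_filter_ne_zero, ← sum_filter_ne_zero (s := P.powerset.image _)]
  apply sum_congr _ fun _ _ => rfl
  ext d
  simp only [mem_filter, mem_Icc, mem_image, mem_powerset]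
  constructor
  · rintro ⟨⟨_, _⟩, h3⟩
    have h4 : lam d ≠ 0 := fun h5 => h3 (by rw [h5, zero_div])
    obtain ⟨h5, h6, _⟩ := h d h4
    exact ⟨⟨d.primeFactors, h6, Nat.prod_primeFactors_of_squarefree h5⟩, h3⟩
  · rintro ⟨_, h3⟩
    have h4 : lam d ≠ 0 := fun h5 => h3 (by rw [h5, zero_div])
    obtain ⟨h5, _, h7⟩ := h d h4
    exact ⟨⟨Nat.one_le_iff_ne_zero.2 h5.ne_zero, Nat.le_floor h7⟩, h3⟩

end ROSDAux

open Finset Filter ROSDAux
open scoped Classical Topology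

theorem stmt_ROS_of (hA : Stmt_ROSA) (hF : Stmt_ROSF) (hM : Stmt_ROSM) : Stmt_ROS := by
  intro ε hε η hη hη1
  obtain ⟨κ', hκ, N₀, hN₀⟩ := hM ε η hε hη hη1
  set J : ℕ := ⌈1 / κ'⌉₊ + 1 with hJ
  set R : ℕ := ⌊1 / η⌋₊ with hR
  set M : ℕ := Fintype.card (Fin J → Fin (R + 1)) with hMdef
  refine ⟨M, max N₀ 2, ?_⟩
  intro N hN
  have hNN : N₀ ≤ N := (le_max_left _ _).trans hN
  have hN2 : 2 ≤ N := (le_max_right _ _).trans hN
  have hN1 : 1 < N := by linarith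
  have hN0 : 0 < N := by linarith
  have hlN : 0 < Real.log N := Real.log_pos hN1
  set P := PR (N ^ η) (N ^ (θ₀ / 3)) with hP
  have hPp : ∀ p ∈ P, p.Prime ∧ N ^ η ≤ (p : ℝ) ∧ (p : ℝ) < N ^ (θ₀ / 3) :=
    fun p hp => (mem_PR _ _ p).1 hp
  have hprime : ∀ p ∈ P, p.Prime := fun p hp => (hPp p hp).1
  set D := N ^ θ₀ with hD
  have hθp : 0 < θ₀ := by unfold θ₀; norm_num
  have hD1 : 1 < D := Real.one_lt_rpow hN1 hθp
  have hθ : θ₀ / 3 = 363 / 2000 := by unfold θ₀; norm_num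
  -- the boxes
  set k : ℕ → ℕ := fun p => ⌊(Real.log p / Real.log N - η) / κ'⌋₊ with hk
  have hJ0 : 0 < J := Nat.succ_pos _
  set bx : ℕ → Fin J := fun p => ⟨min (k p) (J - 1), by omega⟩ with hbx
  set vv : Fin J → ℝ := fun j => N ^ (η + ((j : ℕ) + 1) * κ') with hvv
  have ht : ∀ p ∈ P, η ≤ Real.log p / Real.log N ∧ Real.log p / Real.log N < θ₀ / 3 := by
    intro p hp
    obtain ⟨h1, h2, h3⟩ := hPp p hp
    have hp0 : 0 < (p : ℝ) := by exact_mod_cast h1.pos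
    constructor
    · rw [le_div_iff₀ hlN, ← Real.log_rpow hN0]
      exact Real.log_le_log (Real.rpow_pos_of_pos hN0 _) h2
    · rw [div_lt_iff₀ hlN, ← Real.log_rpow hN0]
      exact Real.log_lt_log hp0 h3
  have hpN : ∀ p ∈ P, (p : ℝ) = N ^ (Real.log p / Real.log N) := by
    intro p hp
    have hp0 : 0 < (p : ℝ) := by exact_mod_cast (hPp p hp).1.pos
    rw [Real.rpow_def_of_pos hN0, mul_div_cancel₀ _ hlN.ne', Real.exp_log hp0]
  have hkJ : ∀ p ∈ P, k p ≤ J - 1 := by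
    intro p hp
    have h1 : (k p : ℝ) ≤ (Real.log p / Real.log N - η) / κ' := by
      apply Nat.floor_le
      apply div_nonneg _ hκ.le
      linarith [(ht p hp).1]
    have h2 : (Real.log p / Real.log N - η) / κ' ≤ 1 / κ' := by
      apply div_le_div_of_nonneg_right _ hκ.le
      linarith [(ht p hp).2]
    have h3 := Nat.le_ceil (1 / κ')
    have h4 : (k p : ℝ) ≤ (⌈1 / κ'⌉₊ : ℝ) := by linarith
    have h5 : k p ≤ ⌈1 / κ'⌉₊ := by exact_mod_cast h4
    omega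
  have hbk : ∀ p ∈ P, ((bx p : ℕ) : ℝ) = k p := by
    intro p hp
    simp only [hbx]
    rw [min_eq_left (hkJ p hp)]
  have hv1 : ∀ p ∈ P, (p : ℝ) ≤ vv (bx p) ∧ vv (bx p) ≤ p * N ^ κ' := by
    intro p hp
    have h1 : (k p : ℝ) ≤ (Real.log p / Real.log N - η) / κ' := by
      apply Nat.floor_le
      apply div_nonneg _ hκ.le
      linarith [(ht p hp).1]
    have h2 : (Real.log p / Real.log N - η) / κ' < k p + 1 := Nat.lt_floor_add_one _
    rw [le_div_iff₀ hκ] at h1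
    rw [div_lt_iff₀ hκ] at h2
    simp only [hvv]
    rw [hbk p hp]
    constructor
    · conv_lhs => rw [hpN p hp]
      apply Real.rpow_le_rpow_of_exponent_le hN1.le
      linarith
    · conv_rhs => rw [hpN p hp]
      rw [← Real.rpow_add hN0]
      apply Real.rpow_le_rpow_of_exponent_le hN1.le
      linarith
  have hkmono : ∀ p ∈ P, ∀ q ∈ P, p ≤ q → bx p ≤ bx q := by
    intro p hp q hq hpq
    have hp0 : 0 < (p : ℝ) := by exact_mod_cast (hPp p hp).1.pos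
    rw [Fin.le_def]
    simp only [hbx]
    apply min_le_min_right
    simp only [hk]
    apply Nat.floor_le_floor
    apply div_le_div_of_nonneg_right _ hκ.le
    have h1 : Real.log p ≤ Real.log q := Real.log_le_log hp0 (by exact_mod_cast hpq)
    have h2 : Real.log p / Real.log N ≤ Real.log q / Real.log N :=
      div_le_div_of_nonneg_right h1 hlN.le
    linarith
  have hvmono : Monotone vv := by
    intro i j hij
    simp only [hvv]
    apply Real.rpow_le_rpow_of_exponent_le hN1.le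
    have h1 : ((i : ℕ) : ℝ) ≤ ((j : ℕ) : ℝ) := by exact_mod_cast (Fin.le_def.1 hij)
    nlinarith
  set v : ℕ → ℝ := fun p => vv (bx p) with hv
  have hvm : ∀ p ∈ P, ∀ q ∈ P, p ≤ q → v p ≤ v q := fun p hp q hq hpq =>
    hvmono (hkmono p hp q hq hpq)
  obtain ⟨a1, a2, a3, _, a5, _⟩ := hA P v D hprime hD1 (fun p hp => (hv1 p hp).1) hvm
  have hsupp : ∀ d, rw' P v D d ≠ 0 → Squarefree d ∧ d.primeFactors ⊆ P ∧ (d : ℝ) ≤ D :=
    fun d hd => ⟨(rw'_ne hd).1, (rw'_ne hd).2, (a3 d hd).le⟩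
  have hrough : ∀ f : ℕ → ℝ, (∀ d, f d ≠ 0 → Squarefree d ∧ d.primeFactors ⊆ P) →
      Rough (N ^ η) f := by
    intro f hf d hd
    obtain ⟨h1, h2⟩ := hf d hd
    refine ⟨h1, fun p hp hpd => ?_⟩
    exact (hPp p (h2 (Nat.mem_primeFactors.2 ⟨hp, hpd, h1.ne_zero⟩))).2.1
  refine ⟨rw' P v D, ⟨a1, a2, hrough _ fun d hd => rw'_ne hd, ?_, a5, ?_⟩, ?_⟩
  · intro d hd
    obtain ⟨h1, h2, h3⟩ := hsupp d hd
    refine ⟨h3, fun p hp hpd => ?_⟩
    exact (hPp p (h2 (Nat.mem_primeFactors.2 ⟨hp, hpd, h1.ne_zero⟩))).2.2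
  · intro D₁ D₂ hD₁ hD₂ hDD
    obtain ⟨α, β, b1, b2, b3, b4, b5⟩ := hF P J R bx vv D hprime hD1 (fun p hp => (hv1 p hp).1)
      hkmono hvmono (fun d hd => card_le N η hN1 hη _ d (rw'_ne hd).1 (rw'_ne hd).2 (a3 d hd))
      D₁ D₂ hD₁ hD₂ hDD
    set e : Fin M ≃ (Fin J → Fin (R + 1)) := (Fintype.equivFin (Fin J → Fin (R + 1))).symm
    refine ⟨fun i => α (e i), fun i => β (e i), fun i => hrough _ fun d hd => ?_,
      fun i => hrough _ fun d hd => ?_, fun i d => b1 _ d, fun i d => b2 _ d,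
      fun i d hd => (b3 _ d hd).2.2, fun i d hd => (b4 _ d hd).2.2, fun d hd => ?_⟩
    · exact ⟨(b3 _ d hd).1, (b3 _ d hd).2.1⟩
    · exact ⟨(b4 _ d hd).1, (b4 _ d hd).2.1⟩
    · rw [b5 d hd]
      exact (Equiv.sum_comp e (fun i => ∑ x ∈ d.divisorsAntidiagonal, α i x.1 * β i x.2)).symm
  · rw [gam_eq N P hprime _ hsupp]
    exact hN₀ N hNN v hv1 hvm

theorem stmt_ROS : Stmt_ROS := stmt_ROS_of stmt_ROSA stmt_ROSF (stmt_ROSM stmt_ROSA)

end Pool.Agent.GapTwo
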