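import Pool.Agent.Work.MP_1ea053_nt.T2D
import Pool.Agent.Work.BV.Main
import Pool.Agent.Work.PNT70.PNT

/-!
# Block T2: the sum of a polynomial over the prime values of a form
-/

set_option autoImplicit false

namespace Pool.Agent.GapTwo

theorem stmt_T2 : Stmt_T2 :=
  T2_.main Pool.Agent.BV.main_bvw Pool.Agent.Work.PNT70.primeCounting_tendsto

end Pool.Agent.GapTwo
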