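import Pool.Agent.Work.MP_1ea053_nt.VARC

/-!
# Block VARD: the variance (from T1 and Theorem K)
-/

set_option autoImplicit false

namespace Pool.Agent.GapTwo.VAR_

open Finset Filter
open scoped Classical Topology

lemma ev_of {p : ℝ → Prop} (h : ∃ N₀ : ℝ, ∀ N : ℝ, N₀ ≤ N → p N) : ∀ᶠ N : ℝ in atTop, p N :=
  eventually_atTop.2 h

lemma ev_rpow (e : ℝ) (he : 0 < e) (c : ℝ) : ∀ᶠ N : ℝ in atTop, c ≤ N ^ e :=
  (tendsto_rpow_atTop he).eventually_ge_atTop c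

lemma ev_log (c : ℝ) (e : ℝ) (he : 0 < e) :
    ∀ᶠ N : ℝ in atTop, c * (1 + Real.log N) ^ 4 ≤ N ^ e := by
  have h1 := (isLittleO_log_rpow_atTop (show 0 < e / 8 by positivity)).bound
    (show (0 : ℝ) < 1 by norm_num)
  filter_upwards [h1, eventually_ge_atTop (1 : ℝ), ev_rpow (e / 8) (by positivity) 1,
    ev_rpow (e / 2) (by positivity) (|c| * 16)] with N h2 hN1 h3 h4
  have hN0 : 0 < N := by linarith
  have hl : 0 ≤ Real.log N := Real.log_nonneg hN1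
  rw [one_mul, Real.norm_of_nonneg hl, Real.norm_of_nonneg (by positivity)] at h2
  have h5 : (1 + Real.log N) ^ 4 ≤ (2 * N ^ (e / 8)) ^ 4 :=
    pow_le_pow_left₀ (by linarith) (by linarith) 4
  have h6 : (2 * N ^ (e / 8)) ^ 4 = 16 * N ^ (e / 2) := by
    rw [mul_pow, ← Real.rpow_natCast (N ^ (e / 8)) 4, ← Real.rpow_mul hN0.le]
    have : e / 8 * ((4 : ℕ) : ℝ) = e / 2 := by push_cast; ring
    rw [this]
    norm_num
  have h7 : 0 ≤ (1 + Real.log N) ^ 4 := by positivity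
  calc c * (1 + Real.log N) ^ 4 ≤ |c| * (1 + Real.log N) ^ 4 :=
        mul_le_mul_of_nonneg_right (le_abs_self c) h7
    _ ≤ |c| * (16 * N ^ (e / 2)) := mul_le_mul_of_nonneg_left (h5.trans h6.le) (abs_nonneg c)
    _ = |c| * 16 * N ^ (e / 2) := by ring
    _ ≤ N ^ (e / 2) * N ^ (e / 2) := mul_le_mul_of_nonneg_right h4 (by positivity)
    _ = N ^ e := by
        rw [← Real.rpow_add hN0]
        congr 1
        ring

lemma samePr {ι : Type} [Fintype ι] (a : ι → ℕ) (D₀ : ℕ) (ha : ∀ i, 0 < a i)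
    (hinj : Function.Injective a) (hD : ∀ i, a i < D₀) (i j : ι) (hij : i ≠ j) :
    SamePr (a i * WW D₀) (a j * WW D₀) := by
  have hW := WW_pos D₀
  have h1 : ∀ (l : ι) (p : ℕ), p.Prime → (p ∣ a l * WW D₀ ↔ p ∣ WW D₀) := by
    intro l p hp
    constructor
    · intro h
      rcases hp.dvd_mul.1 h with h | h
      · rw [prime_dvd_WW hp]
        exact (Nat.le_of_dvd (ha l) h).trans_lt (hD l)
      · exact h
    · intro h; exact h.mul_left _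
  refine ⟨Nat.mul_pos (ha i) hW, Nat.mul_pos (ha j) hW, ?_, ?_, ?_⟩
  · intro h
    exact hij (hinj (Nat.eq_of_mul_eq_mul_right hW h))
  · intro p hp
    rw [h1 i p hp, h1 j p hp]
  · intro p hp h
    rw [h1 i p hp]
    push_cast at h
    rw [← sub_mul] at h
    rcases (Nat.prime_iff_prime_int.1 hp).dvd_or_dvd h with h2 | h2
    · rw [prime_dvd_WW hp]
      have h3 : (a i : ℤ) - a j ≠ 0 := by
        intro h0
        exact hij (hinj (by omega))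
      have h4 := Int.le_of_dvd (by positivity : (0 : ℤ) < |(a i : ℤ) - a j|) ((dvd_abs _ _).2 h2)
      have h5 : |(a i : ℤ) - a j| < D₀ := by
        rw [abs_lt]
        have := hD i
        have := hD j
        constructor <;> omega
      omega
    · exact Int.natCast_dvd_natCast.1 h2

/-- Rough numbers are coprime to the coefficients. -/
lemma rg_cop {D₀ : ℕ} {al : ℕ} (hal : 0 < al) (hD : al < D₀) {z : ℝ} (hz : (D₀ : ℝ) ≤ z) {d : ℕ}
    (hd : Rg z d) : Nat.Coprime (al * WW D₀) d := by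
  rw [Nat.coprime_iff_gcd_eq_one]
  by_contra hne
  obtain ⟨p, hp, hpd⟩ := Nat.exists_prime_and_dvd hne
  have h6 : p ∣ al * WW D₀ := hpd.trans (Nat.gcd_dvd_left _ _)
  have h7 : p ∣ d := hpd.trans (Nat.gcd_dvd_right _ _)
  have h8 := hd.2 p hp h7
  have h9 : D₀ ≤ p := by exact_mod_cast hz.trans h8
  rcases hp.dvd_mul.1 h6 with h | h
  · have := Nat.le_of_dvd hal h
    omega
  · rw [prime_dvd_WW hp] at h
    omega

/-- The telescoping sum over dyadic ranges. -/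
lemma tele (F : ℕ → ℝ) (E₀ Z Bd : ℝ) (hE₀ : 0 ≤ E₀)
    (h : ∀ k : ℕ, 2 ^ k * E₀ ≤ Z → |∑ e ∈ Ioc ⌊2 ^ k * E₀⌋₊ ⌊2 * (2 ^ k * E₀)⌋₊, F e| ≤ Bd) :
    ∀ k : ℕ, (∀ j < k, 2 ^ j * E₀ ≤ Z) → |∑ e ∈ Ioc ⌊E₀⌋₊ ⌊2 ^ k * E₀⌋₊, F e| ≤ k * Bd := by
  intro k
  induction k with
  | zero => intro _; simp
  | succ k ih =>
    intro hk
    have h1 := ih fun j hj => hk j (by omega)
    have h2 := h k (hk k (by omega))
    have h3 : ⌊E₀⌋₊ ≤ ⌊2 ^ k * E₀⌋₊ := by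
      apply Nat.floor_le_floor
      have : (1 : ℝ) ≤ 2 ^ k := one_le_pow₀ (by norm_num)
      nlinarith
    have h4 : ⌊2 ^ k * E₀⌋₊ ≤ ⌊2 * (2 ^ k * E₀)⌋₊ := by
      apply Nat.floor_le_floor
      have : 0 ≤ 2 ^ k * E₀ := by positivity
      linarith
    have h5 : (2 : ℝ) ^ (k + 1) * E₀ = 2 * (2 ^ k * E₀) := by rw [pow_succ]; ring
    rw [h5, ← sum_Ioc_consecutive F h3 h4]
    refine (abs_add_le _ _).trans ?_
    push_cast
    linarith

/-- The variance for one pair of forms. -/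
theorem var_pair (η : ℝ) (hη : 0 < η) (hη1 : η ≤ 1 / 100) (M : ℕ) (ε₂ : ℝ) (hε₂ : 0 < ε₂)
    {ι : Type} [Fintype ι] (a : ι → ℕ) (D₀ : ℕ) (ha : ∀ i, 0 < a i)
    (hinj : Function.Injective a) (hD : ∀ i, a i < D₀) (C κ : ℝ) (hC : 1 ≤ C) (hκ0 : 0 < κ)
    (hκ1 : κ ≤ 1) (i j : ι) (hij : i ≠ j)
    (hK : ∃ N₀ : ℝ, ∀ N : ℝ, N₀ ≤ N →
      ∀ D₁ D₂ E : ℝ, 1 ≤ D₁ → 1 ≤ D₂ → E ≤ N ^ θ₀ → D₁ * E ≤ N ^ (1 - τ₀) →
      D₂ ≤ N ^ (θ₀ - 1 + 2 * τ₀) * E →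
      ∀ {σ : Type} (J : Finset σ) (c : σ → ℝ) (m b : σ → ℕ), ∑ j ∈ J, |c j| ≤ N ^ δ₁ →
      (∀ j ∈ J, 0 < m j ∧ (m j : ℝ) ≤ N ^ δ₁ ∧
        ∀ p : ℕ, p.Prime → p ∣ m j → ¬ p ∣ a i * WW D₀ ∧ (p : ℝ) < N ^ η) →
      (∀ n ∈ II (N / WW D₀) κ, |Om J c m b n| ≤ N ^ ε₂) →
      ∀ α β γ : ℕ → ℝ, (∀ d, |α d| ≤ 1) → (∀ d, |β d| ≤ 1) → (∀ d, |γ d| ≤ 1) →
      Rough (N ^ η) α → Rough (N ^ η) β → Rough (N ^ η) γ →
      |∑ d₁ ∈ Icc 1 ⌊D₁⌋₊, ∑ d₂ ∈ Icc 1 ⌊D₂⌋₊, ∑ e ∈ Ioc ⌊E⌋₊ ⌊2 * E⌋₊, α d₁ * β d₂ * γ e *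
        ∑ n ∈ (II (N / WW D₀) κ).filter
            (fun n => d₁ ∣ a i * WW D₀ * n + 1 ∧ e ∣ a j * WW D₀ * n + 1),
          Om J c m b n * ((if d₁ * d₂ ∣ a i * WW D₀ * n + 1 then 1 else 0) - 1 / (d₂ : ℝ))|
        ≤ N ^ (1 - ε₂)) :
    ∃ N₀ : ℝ, ∀ N : ℝ, N₀ ≤ N →
      ∀ lam : ℕ → ℝ, Ros η M N lam → ∀ c : Finset (ℕ × ι) → ℝ,
      Lev (XX ι D₀ (N ^ η)) c (N ^ δ₀) C →
      |∑ n ∈ NW (WW D₀) N κ, poly c (ev a (XX ι D₀ (N ^ η)) n) *
          (gg lam (a i * n + 1) * gg lam (a j * n + 1))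
        - gam N lam ^ 2 * (κ * N / WW D₀ * Eloc (XX ι D₀ (N ^ η)) c)| ≤
      N ^ (1 - min (min ε₂ (η / 2)) (9 / 100000) / 2) := by
  set W := WW D₀ with hW
  have hW0 : 0 < W := WW_pos D₀
  set A₁ := a i * W with hA₁
  set A₂ := a j * W with hA₂
  set μ := min (min ε₂ (η / 2)) (9 / 100000) with hμ
  have hμ0 : 0 < μ := by positivity
  have hμ1 : μ ≤ ε₂ := (min_le_left _ _).trans (min_le_left _ _)
  have hμ2 : μ ≤ η / 2 := (min_le_left _ _).trans (min_le_right _ _)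
  have hμ3 : μ ≤ 9 / 100000 := min_le_right _ _
  have hS : SamePr A₁ A₂ := samePr a D₀ ha hinj hD i j hij
  set εP := min (η / 8) ε₂ with hεP
  have hεP0 : 0 < εP := by positivity
  have hεP1 : εP ≤ η / 8 := min_le_left _ _
  have hεP2 : εP ≤ ε₂ := min_le_right _ _
  obtain ⟨B₁, hB₁, hdiv1⟩ := K3_.div_bd A₁ (εP / 2) (by positivity)
  obtain ⟨B₂, hB₂, hdiv2⟩ := K3_.div_bd A₂ (εP / 2) (by positivity)
  set C₁ : ℝ := 3 + 2 * (M * (4 * A₁ + 10)) with hC₁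
  refine eventually_atTop.1 ?_
  filter_upwards [ev_of hK, ev_of (bound_poly a W hW0 C κ εP hC hκ0 hκ1 hεP0),
    ev_of (sum_abs_le' (ι := ι) C (δ₁ - δ₀) hC (by unfold δ₁ δ₀; norm_num)),
    ev_of (eloc_le (ι := ι) C (η / 4) hC (by positivity)),
    ev_rpow η hη (D₀ + 2), ev_rpow τ₀ (by unfold τ₀; norm_num) 2,
    ev_log C₁ (μ / 2) (by positivity), ev_rpow (εP / 2) (by positivity) (max B₁ B₂),
    ev_rpow (1 / 10) (by norm_num) 4, eventually_ge_atTop (4 : ℝ)]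
    with N hK hpoly hsum heloc hzD hτ2 hlog hdivN hN10 hN4 lam hlam c hc
  have hN0 : 0 < N := by linarith
  have hN1 : 1 < N := by linarith
  have hD₀2 : 2 ≤ D₀ := by
    have h1 := ha i
    have h2 := hD i
    have h3 : i ≠ j := hij
    have h4 := ha j
    have h5 := hD j
    omega
  set z := N ^ η with hz
  have hz2 : 2 ≤ z := by
    have : (0 : ℝ) ≤ D₀ := Nat.cast_nonneg _
    linarith
  have hzD' : (D₀ : ℝ) ≤ z := by linarith
  set X := XX ι D₀ z with hX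
  have hAdm : Adm a X := adm_XX a D₀ ha hinj hD _
  have hXW : ∀ x ∈ X, ¬ x.1 ∣ W := fun x hx => not_dvd_WW hx
  set Ω : ℕ → ℝ := fun n => poly c (ev a X (W * n)) with hΩ
  set I := II (N / W) κ with hI
  set MΩ := κ * (N / W) * Eloc X c with hMΩ
  set B := ∑ T ∈ X.powerset, |c T| with hB
  have hB0 : 0 ≤ B := sum_nonneg fun T _ => abs_nonneg _
  have hBle : B ≤ N ^ δ₁ := by
    have h1 := hsum D₀ η (N ^ δ₀) hD₀2 (by linarith) (by positivity) c hc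
    refine h1.trans (le_of_eq ?_)
    rw [← Real.rpow_add hN0]
    congr 1
    ring
  have hProg : Prog I A₁ A₂ Ω z MΩ B := by
    intro d e hd he hde
    have hd0 : 0 < d := Nat.pos_of_ne_zero hd.1.ne_zero
    have he0 : 0 < e := Nat.pos_of_ne_zero he.1.ne_zero
    obtain ⟨b, hb⟩ := lin2 A₁ A₂ d e hd0 he0 (rg_cop (ha i) (hD i) hzD' hd)
      (rg_cop (ha j) (hD j) hzD' he) hde
    have h1 := prog a X hAdm W hW0 hXW c (d * e) b (Nat.mul_pos hd0 he0) (fun x hx h => by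
      have h2 := mem_XX.1 hx
      rcases h2.1.dvd_mul.1 h with h | h
      · linarith [hd.2 _ h2.1 h, h2.2.2]
      · linarith [he.2 _ h2.1 h, h2.2.2]) N κ hN0.le hκ0.le
    have h2 : SS I A₁ A₂ Ω d e = ∑ n ∈ I.filter (fun n => n ≡ b [MOD d * e]), Ω n := by
      unfold SS
      apply sum_congr _ fun _ _ => rfl
      exact filter_congr fun n _ => hb n
    rw [h2]
    have h3 : MΩ * (1 / (d : ℝ) * (1 / (e : ℝ))) = κ * (N / W) * Eloc X c / ((d * e : ℕ) : ℝ) := by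
      rw [hMΩ, one_div_mul_one_div]
      push_cast
      ring
    rw [h3]
    exact h1
  obtain ⟨b, hb⟩ := Om_eq a X hAdm W hXW c
  set Z := N ^ θ₀ with hZ
  have hθ₀ : θ₀ = 1089 / 2000 := rfl
  have hτ₀ : τ₀ = 1 / 10000 := rfl
  have hδ₀ : δ₀ = 1 / 1000000 := rfl
  have hδ₁ : δ₁ = 1 / 100000 := rfl
  have hlamZ : ∀ d, lam d ≠ 0 → (d : ℝ) ≤ Z := fun d hd => (hlam.supp d hd).1
  set m := ⌊N⌋₊ with hm
  set L := 1 + Real.log (m : ℝ) with hL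
  have hL1 : 1 ≤ L := by
    have := Real.log_natCast_nonneg m
    linarith
  have hm1 : 1 ≤ m := Nat.le_floor (by exact_mod_cast hN1.le)
  have hLle : L ≤ 1 + Real.log N := by
    have : Real.log (m : ℝ) ≤ Real.log N :=
      Real.log_le_log (by exact_mod_cast hm1) (Nat.floor_le hN0.le)
    linarith
  -- small facts on powers
  have hpow : ∀ x y : ℝ, x ≤ y → N ^ x ≤ N ^ y := fun x y hxy =>
    Real.rpow_le_rpow_of_exponent_le hN1.le hxy
  have hZ1 : 1 ≤ Z := Real.one_le_rpow hN1.le (by rw [hθ₀]; norm_num)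
  have hN4' : 4 * Z ≤ N := by
    calc 4 * Z ≤ N ^ (1 / 10 : ℝ) * Z := mul_le_mul_of_nonneg_right hN10 (by linarith)
      _ = N ^ (1 / 10 + θ₀) := by rw [hZ, ← Real.rpow_add hN0]
      _ ≤ N ^ (1 : ℝ) := hpow _ _ (by rw [hθ₀]; norm_num)
      _ = N := Real.rpow_one N
  set T := N ^ (1 - τ₀) with hT
  have hT0 : 0 < T := Real.rpow_pos_of_pos hN0 _
  have hTZ : 4 * Z ≤ T := by
    calc 4 * Z ≤ N ^ (1 / 10 : ℝ) * Z := mul_le_mul_of_nonneg_right hN10 (by linarith)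
      _ = N ^ (1 / 10 + θ₀) := by rw [hZ, ← Real.rpow_add hN0]
      _ ≤ T := hpow _ _ (by rw [hθ₀, hτ₀]; norm_num)
  set E₀ := N ^ (1 - θ₀ - τ₀) / 2 with hE₀
  have hE₀pos : 0 < E₀ := by positivity
  have hE₀Z : 2 * E₀ * Z = T := by
    rw [hE₀, hZ, hT, mul_div_cancel₀ _ (two_ne_zero' ℝ), ← Real.rpow_add hN0]
    congr 1
    ring
  have hE₀1 : 1 ≤ E₀ := by
    have h1 : 4 * Z ≤ 2 * E₀ * Z := by rw [hE₀Z]; exact hTZ
    have h2 := le_of_mul_le_mul_right h1 (by linarith : 0 < Z)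
    linarith
  -- the bounds for the error terms
  set P := N ^ εP with hP
  have hP0 : 0 ≤ P := by positivity
  have hΩP : ∀ n ∈ I, |Ω n| ≤ P := fun n hn =>
    hpoly X (fun x hx => (mem_XX.1 hx).1) c hc.bd n hn
  have hPhalf : ∀ B' : ℝ, B' ≤ max B₁ B₂ → B' * N ^ (εP / 2) ≤ P := by
    intro B' hB'
    calc B' * N ^ (εP / 2) ≤ N ^ (εP / 2) * N ^ (εP / 2) :=
          mul_le_mul_of_nonneg_right (hB'.trans hdivN) (by positivity)
      _ = P := by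
          rw [← Real.rpow_add hN0]
          congr 1
          ring
  have hd1 : ∀ n ∈ I, ((A₁ * n + 1).divisors.card : ℝ) ≤ P := fun n hn =>
    (hdiv1 W N κ hW0 hκ0 hκ1 hN1.le n hn _ dvd_rfl).trans (hPhalf B₁ (le_max_left _ _))
  have hd2 : ∀ n ∈ I, ((A₂ * n + 1).divisors.card : ℝ) ≤ P := fun n hn =>
    (hdiv2 W N κ hW0 hκ0 hκ1 hN1.le n hn _ dvd_rfl).trans (hPhalf B₂ (le_max_right _ _))
  set NB := (2 * (A₁ : ℝ) + 2) * N * (2 / z) with hNB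
  have hNB1 := card_bad hW0 hκ0 hκ1 hN1.le A₁ z hz2
  set ν := N ^ (1 - μ) with hν
  have hν0 : 0 < ν := Real.rpow_pos_of_pos hN0 _
  have q1 : T * B ≤ ν := by
    calc T * B ≤ T * N ^ δ₁ := mul_le_mul_of_nonneg_left hBle hT0.le
      _ = N ^ (1 - τ₀ + δ₁) := by rw [hT, ← Real.rpow_add hN0]
      _ ≤ ν := hpow _ _ (by rw [hτ₀, hδ₁]; linarith)
  have hzinv : 2 / z = 2 * N ^ (-η) := by
    rw [hz, Real.rpow_neg hN0.le, div_eq_mul_inv]
  have q2 : |MΩ| * (2 / z) ≤ 2 * ν := by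
    have h1 : |MΩ| ≤ N * N ^ (η / 4) := by
      rw [hMΩ, abs_mul, abs_of_nonneg (by positivity : 0 ≤ κ * (N / W))]
      have h2 : κ * (N / W) ≤ N := by
        have : N / W ≤ N := div_le_self hN0.le (by exact_mod_cast hW0)
        calc κ * (N / W) ≤ 1 * (N / W) := mul_le_mul_of_nonneg_right hκ1 (by positivity)
          _ ≤ N := by linarith
      exact mul_le_mul h2 (heloc D₀ η hD₀2 (by linarith) c hc.bd) (abs_nonneg _) hN0.le
    calc |MΩ| * (2 / z) ≤ N * N ^ (η / 4) * (2 * N ^ (-η)) := by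
          rw [hzinv]
          exact mul_le_mul_of_nonneg_right h1 (by positivity)
      _ = 2 * N ^ (1 + η / 4 + -η) := by
          rw [Real.rpow_add hN0, Real.rpow_add hN0, Real.rpow_one]
          ring
      _ ≤ 2 * ν := mul_le_mul_of_nonneg_left (hpow _ _ (by linarith)) (by norm_num)
  have q3 : N * (2 / z) * P ^ 4 ≤ 2 * ν := by
    calc N * (2 / z) * P ^ 4 = 2 * N ^ (1 + -η + εP * 4) := by
          rw [hzinv, hP, ← Real.rpow_natCast (N ^ εP) 4, ← Real.rpow_mul hN0.le,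
            Real.rpow_add hN0, Real.rpow_add hN0, Real.rpow_one]
          push_cast
          ring
      _ ≤ 2 * ν := mul_le_mul_of_nonneg_left (hpow _ _ (by linarith)) (by norm_num)
  have q4 : N ^ (1 - ε₂) ≤ ν := hpow _ _ (by linarith)
  set Q := T * B + |MΩ| * (2 / z * L ^ 2) with hQ
  have hQ1 : Q ≤ 3 * ν * L ^ 2 := by
    have h1 : |MΩ| * (2 / z * L ^ 2) ≤ 2 * ν * L ^ 2 := by
      rw [← mul_assoc]
      exact mul_le_mul_of_nonneg_right q2 (by positivity)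
    have h2 : ν ≤ ν * L ^ 2 := le_mul_of_one_le_right hν0.le (one_le_pow₀ hL1)
    rw [hQ]
    linarith
  set Bd := M * N ^ (1 - ε₂) + NB * (P * (M * P ^ 2) * P) +
        M * (L * Q) + |MΩ| * (M * (2 / z * L ^ 2)) * L with hBd
  have hBd1 : Bd ≤ ν * L ^ 3 * (M * (4 * A₁ + 10)) := by
    have hM0 : (0 : ℝ) ≤ M := Nat.cast_nonneg _
    have hL3 : 1 ≤ L ^ 3 := one_le_pow₀ hL1
    have hL0 : 0 ≤ L := by linarith
    have e1 : M * N ^ (1 - ε₂) ≤ M * (ν * L ^ 3) := by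
      apply mul_le_mul_of_nonneg_left _ hM0
      exact q4.trans (le_mul_of_one_le_right hν0.le hL3)
    have e2 : NB * (P * (M * P ^ 2) * P) ≤ M * (4 * A₁ + 4) * (ν * L ^ 3) := by
      have h1 : NB * (P * (M * P ^ 2) * P) = M * (2 * A₁ + 2) * (N * (2 / z) * P ^ 4) := by
        rw [hNB]; ring
      rw [h1]
      calc M * (2 * (A₁ : ℝ) + 2) * (N * (2 / z) * P ^ 4) ≤ M * (2 * (A₁ : ℝ) + 2) * (2 * ν) :=
            mul_le_mul_of_nonneg_left q3 (by positivity)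
        _ = M * (4 * (A₁ : ℝ) + 4) * ν := by ring
        _ ≤ M * (4 * (A₁ : ℝ) + 4) * (ν * L ^ 3) := by
            apply mul_le_mul_of_nonneg_left _ (by positivity)
            exact le_mul_of_one_le_right hν0.le hL3
    have e3 : M * (L * Q) ≤ M * (3 * (ν * L ^ 3)) := by
      apply mul_le_mul_of_nonneg_left _ hM0
      calc L * Q ≤ L * (3 * ν * L ^ 2) := mul_le_mul_of_nonneg_left hQ1 hL0
        _ = _ := by ring
    have e4 : |MΩ| * (M * (2 / z * L ^ 2)) * L ≤ M * (2 * (ν * L ^ 3)) := by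
      have h1 : |MΩ| * (M * (2 / z * L ^ 2)) * L = M * ((|MΩ| * (2 / z)) * L ^ 3) := by ring
      rw [h1]
      apply mul_le_mul_of_nonneg_left _ hM0
      calc |MΩ| * (2 / z) * L ^ 3 ≤ 2 * ν * L ^ 3 :=
            mul_le_mul_of_nonneg_right q2 (by positivity)
        _ = _ := by ring
    calc Bd ≤ M * (ν * L ^ 3) + M * (4 * A₁ + 4) * (ν * L ^ 3) + M * (3 * (ν * L ^ 3)) +
          M * (2 * (ν * L ^ 3)) := by rw [hBd]; linarith
      _ = _ := by ring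
  -- the function on `e`
  set γ := ∑ d ∈ Icc 1 ⌊Z⌋₊, lam d * (1 / (d : ℝ)) with hγ
  set F : ℕ → ℝ := fun e => lam e * (∑ d ∈ Icc 1 ⌊Z⌋₊, lam d * SS I A₁ A₂ Ω d e)
    - MΩ * γ * (lam e * (1 / (e : ℝ))) with hF
  have hgamγ : gam N lam = γ := by
    rw [hγ, gam]
    refine sum_congr rfl fun d _ => ?_
    rw [mul_one_div]
  have htot : ∑ n ∈ NW W N κ, poly c (ev a X n) * (gg lam (a i * n + 1) * gg lam (a j * n + 1))
      - gam N lam ^ 2 * (κ * N / W * Eloc X c) = ∑ e ∈ Icc 1 ⌊Z⌋₊, F e := by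
    have h1 : ∑ n ∈ NW W N κ, poly c (ev a X n) * (gg lam (a i * n + 1) * gg lam (a j * n + 1)) =
        ∑ n ∈ I, Ω n * (gg lam (A₁ * n + 1) * gg lam (A₂ * n + 1)) := by
      unfold NW
      rw [II_mul hW0 hN0.le hκ0.le]
      refine sum_congr rfl fun n _ => ?_
      rw [hA₁, hA₂, mul_assoc, mul_assoc]
    have h2 : ∑ n ∈ I, Ω n * (gg lam (A₁ * n + 1) * gg lam (A₂ * n + 1)) =
        ∑ e ∈ Icc 1 ⌊Z⌋₊, lam e * (∑ d ∈ Icc 1 ⌊Z⌋₊, lam d * SS I A₁ A₂ Ω d e) := by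
      have h3 : ∀ n ∈ I, Ω n * (gg lam (A₁ * n + 1) * gg lam (A₂ * n + 1)) =
          ∑ e ∈ Icc 1 ⌊Z⌋₊, lam e * (if e ∣ A₂ * n + 1 then Ω n * gg lam (A₁ * n + 1) else 0) := by
        intro n _
        rw [gg_Icc lam Z hlamZ (A₂ * n + 1) (Nat.succ_pos _), mul_sum, mul_sum]
        refine sum_congr rfl fun e _ => ?_
        split_ifs <;> ring
      rw [sum_congr rfl h3, sum_comm]
      refine sum_congr rfl fun e _ => ?_
      rw [sum_SS I A₁ A₂ Ω lam Z hlamZ e, ← mul_sum, sum_filter]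
    have h4 : gam N lam ^ 2 * (κ * N / W * Eloc X c) =
        ∑ e ∈ Icc 1 ⌊Z⌋₊, MΩ * γ * (lam e * (1 / (e : ℝ))) := by
      rw [← mul_sum, hgamγ, hMΩ]
      have : ∑ e ∈ Icc 1 ⌊Z⌋₊, lam e * (1 / (e : ℝ)) = γ := rfl
      rw [this]
      ring
    rw [h1, h2, h4, ← sum_sub_distrib]
  have hFz : ∀ e, lam e = 0 → F e = 0 := by
    intro e he
    simp only [hF]
    rw [he]
    ring
  -- small `e`
  have hEZ : E₀ ≤ Z := by
    rw [hE₀]
    have : N ^ (1 - θ₀ - τ₀) ≤ N ^ θ₀ := hpow _ _ (by rw [hθ₀, hτ₀]; norm_num)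
    linarith
  have hZN : Z ≤ N := by linarith
  have hsmall : |∑ e ∈ Icc 1 ⌊E₀⌋₊, F e| ≤ Q := by
    have h1 : ∑ e ∈ Icc 1 ⌊E₀⌋₊, F e = ∑ d ∈ Icc 1 ⌊Z⌋₊, ∑ e ∈ Icc 1 ⌊E₀⌋₊,
        lam d * lam e * (SS I A₁ A₂ Ω d e - MΩ * (1 / (d : ℝ) * (1 / (e : ℝ)))) := by
      rw [sum_comm]
      refine sum_congr rfl fun e _ => ?_
      simp only [hF]
      rw [hγ, mul_sum, mul_sum, sum_mul, ← sum_sub_distrib]
      refine sum_congr rfl fun d _ => ?_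
      ring
    rw [h1]
    have h2 := small hS hB0 hz2 hProg m (Icc 1 ⌊Z⌋₊) (Icc 1 ⌊E₀⌋₊)
      (Icc_subset_Icc_right (Nat.floor_le_floor hZN))
      (Icc_subset_Icc_right (Nat.floor_le_floor (hEZ.trans hZN))) lam lam hlam.rough hlam.rough
      hlam.bd hlam.bd T (by
        rw [Nat.card_Icc, Nat.card_Icc, Nat.add_sub_cancel, Nat.add_sub_cancel]
        have e1 : (⌊Z⌋₊ : ℝ) ≤ Z := Nat.floor_le (by linarith)
        have e2 : (⌊E₀⌋₊ : ℝ) ≤ E₀ := Nat.floor_le hE₀pos.le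
        calc (⌊Z⌋₊ : ℝ) * ⌊E₀⌋₊ ≤ Z * E₀ := mul_le_mul e1 e2 (Nat.cast_nonneg _) (by linarith)
          _ ≤ T := by
              have : 0 ≤ Z * E₀ := by positivity
              linarith)
    exact h2
  -- dyadic ranges
  have hdy : ∀ k : ℕ, 2 ^ k * E₀ ≤ Z →
      |∑ e ∈ Ioc ⌊2 ^ k * E₀⌋₊ ⌊2 * (2 ^ k * E₀)⌋₊, F e| ≤ Bd := by
    intro k hk
    set E := 2 ^ k * E₀ with hE
    have hE0 : E₀ ≤ E := le_mul_of_one_le_left hE₀pos.le (one_le_pow₀ (by norm_num))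
    have hEpos : 0 < E := by linarith
    set D₁ := T / (2 * E) with hD₁
    have hD₁pos : 0 < D₁ := by positivity
    have hD₁E : D₁ * (2 * E) = T := by
      rw [hD₁]; field_simp
    have hD₁1 : 1 ≤ D₁ := by
      rw [hD₁, le_div_iff₀ (by positivity)]
      linarith
    have hD₁Z : D₁ ≤ Z := by
      rw [hD₁, div_le_iff₀ (by positivity), ← hE₀Z]
      have : Z * E₀ ≤ Z * E := mul_le_mul_of_nonneg_left hE0 (by linarith)
      linarith
    set D₂ := Z / D₁ with hD₂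
    have hD₂1 : 1 ≤ D₂ := by
      rw [hD₂, le_div_iff₀ hD₁pos]
      linarith
    have hDD : D₁ * D₂ = Z := by
      rw [hD₂]; field_simp
    have hD₂Z : D₂ ≤ Z := by
      have : D₂ ≤ D₁ * D₂ := le_mul_of_one_le_left (by linarith) hD₁1
      linarith
    obtain ⟨α, β, f1, f2, f3, f4, f5, f6, f7⟩ := hlam.fact D₁ D₂ hD₁1 hD₂1 hDD
    have hD₂E : D₂ ≤ N ^ (θ₀ - 1 + 2 * τ₀) * E := by
      have h1 : D₂ = 2 * E * (Z / T) := by
        rw [hD₂, hD₁]; field_simp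
      have h2 : Z / T = N ^ (θ₀ - 1 + τ₀) := by
        rw [hZ, hT, ← Real.rpow_sub hN0]
        congr 1
        ring
      have h3 : N ^ (θ₀ - 1 + 2 * τ₀) = N ^ (θ₀ - 1 + τ₀) * N ^ τ₀ := by
        rw [← Real.rpow_add hN0]
        congr 1
        ring
      rw [h1, h2, h3]
      have h4 : 0 < N ^ (θ₀ - 1 + τ₀) * E := by positivity
      have h5 := mul_le_mul_of_nonneg_left hτ2 h4.le
      linarith
    have hKi : ∀ l, |∑ d₁ ∈ Icc 1 ⌊D₁⌋₊, ∑ d₂ ∈ Icc 1 ⌊D₂⌋₊, ∑ e ∈ Ioc ⌊E⌋₊ ⌊2 * E⌋₊,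
        α l d₁ * β l d₂ * lam e *
        ∑ n ∈ I.filter (fun n => d₁ ∣ A₁ * n + 1 ∧ e ∣ A₂ * n + 1),
        Ω n * ((if d₁ * d₂ ∣ A₁ * n + 1 then 1 else 0) - 1 / (d₂ : ℝ))| ≤ N ^ (1 - ε₂) := by
      intro l
      have h1 := hK D₁ D₂ E hD₁1 hD₂1 hk (by
          have : 0 < D₁ * E := mul_pos hD₁pos hEpos
          linarith) hD₂E
        (X.powerset.filter (fun T => Cons T ∧ c T ≠ 0)) c sz b
        (le_trans (sum_le_sum_of_subset_of_nonneg (filter_subset _ _) fun _ _ _ => abs_nonneg _)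
          hBle)
        (by
          intro S hS'
          rw [mem_filter, mem_powerset] at hS'
          refine ⟨prod_pos fun x hx => (mem_XX.1 (hS'.1 hx)).1.pos, ?_, ?_⟩
          · exact (hc.supp S hS'.2.2).2.trans (hpow _ _ (by rw [hδ₀, hδ₁]; norm_num))
          · intro p hp hpd
            unfold sz at hpd
            obtain ⟨x, hx, hpx⟩ := (Prime.dvd_finsetProd_iff hp.prime _).1 hpd
            have h2 := mem_XX.1 (hS'.1 hx)
            have h3 := (Nat.prime_dvd_prime_iff_eq hp h2.1).1 hpx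
            rw [h3]
            refine ⟨fun h => ?_, h2.2.2⟩
            rcases h2.1.dvd_mul.1 h with h | h
            · exact (hAdm x (hS'.1 hx)).2.1 i h
            · exact hXW x (hS'.1 hx) h)
        (by
          intro n hn
          rw [hb n]
          exact (hΩP n hn).trans (hpow _ _ hεP2))
        (α l) (β l) lam (f3 l) (f4 l) hlam.bd (f1 l) (f2 l) hlam.rough
      simp only [hb] at h1
      exact h1
    have h1 := dyadic hS hB0 hz2 hProg lam M α β Z D₁ D₂ hD₁1 hD₂1 hDD f1 f2 f3 f4 f5 f6 hlam.bd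
      hlam.rough hlamZ f7 m (Nat.floor_le_floor (hD₁Z.trans hZN))
      (Nat.floor_le_floor (hD₂Z.trans hZN)) E hEpos.le
      (Nat.floor_le_floor (by linarith)) T hD₁E.le P hP0 hΩP hd1 hd2 NB hNB1
      (N ^ (1 - ε₂)) hKi
    have h2 : ∑ e ∈ Ioc ⌊E⌋₊ ⌊2 * E⌋₊, F e =
        ∑ e ∈ Ioc ⌊E⌋₊ ⌊2 * E⌋₊, lam e * (∑ d ∈ Icc 1 ⌊Z⌋₊, lam d * SS I A₁ A₂ Ω d e)
        - MΩ * γ * ∑ e ∈ Ioc ⌊E⌋₊ ⌊2 * E⌋₊, lam e * (1 / (e : ℝ)) := by
      simp only [hF]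
      rw [sum_sub_distrib, ← mul_sum]
    rw [h2]
    exact h1
  have htele := tele F E₀ Z Bd hE₀pos.le hdy
  -- the number of dyadic ranges
  set K' := ⌊2 * Real.log N⌋₊ + 1 with hK'
  have hlN : 0 < Real.log N := Real.log_pos hN1
  have hbig : Z < 2 ^ K' * E₀ := by
    have h1 : N ≤ (2 : ℝ) ^ K' := by
      have h2 : 2 * Real.log N ≤ K' := by
        have := (Nat.lt_floor_add_one (2 * Real.log N)).le
        rw [hK']
        push_cast
        exact this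
      have h3 : Real.log N ≤ Real.log ((2 : ℝ) ^ K') := by
        rw [Real.log_pow]
        have h4 : (0.69 : ℝ) < Real.log 2 := by linarith [Real.log_two_gt_d9]
        calc Real.log N = Real.log N * 1 := (mul_one _).symm
          _ ≤ Real.log N * (2 * Real.log 2) := mul_le_mul_of_nonneg_left (by linarith) hlN.le
          _ = 2 * Real.log N * Real.log 2 := by ring
          _ ≤ K' * Real.log 2 := mul_le_mul_of_nonneg_right h2 (by linarith)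
      exact (Real.log_le_log_iff hN0 (by positivity)).1 h3
    have h2 : (2 : ℝ) ^ K' ≤ 2 ^ K' * E₀ := le_mul_of_one_le_right (by positivity) hE₀1
    linarith
  have hex : ∃ k : ℕ, Z < 2 ^ k * E₀ := ⟨K', hbig⟩
  set k₀ := Nat.find hex with hk₀
  have hk1 : Z < 2 ^ k₀ * E₀ := Nat.find_spec hex
  have hk2 : ∀ j < k₀, 2 ^ j * E₀ ≤ Z := fun j hj => not_lt.1 (Nat.find_min hex hj)
  have hk3 : k₀ ≤ K' := Nat.find_min' hex hbig
  have hk4 : (k₀ : ℝ) ≤ 2 * (1 + Real.log N) := by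
    have h1 : (k₀ : ℝ) ≤ K' := by exact_mod_cast hk3
    have h2 : (⌊2 * Real.log N⌋₊ : ℝ) ≤ 2 * Real.log N := Nat.floor_le (by positivity)
    rw [hK'] at h1
    push_cast at h1
    linarith
  have hsplit : ∑ e ∈ Icc 1 ⌊Z⌋₊, F e = ∑ e ∈ Icc 1 ⌊E₀⌋₊, F e +
      ∑ e ∈ Ioc ⌊E₀⌋₊ ⌊2 ^ k₀ * E₀⌋₊, F e := by
    have h1 : ∀ n : ℕ, Icc 1 n = Ioc 0 n := by
      intro n
      ext x
      rw [mem_Icc, mem_Ioc]
      omega
    have h2 : ⌊E₀⌋₊ ≤ ⌊2 ^ k₀ * E₀⌋₊ := by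
      apply Nat.floor_le_floor
      exact le_mul_of_one_le_left hE₀pos.le (one_le_pow₀ (by norm_num))
    rw [h1, h1, sum_Ioc_consecutive F (Nat.zero_le _) h2]
    apply sum_subset
    · intro e he
      rw [mem_Ioc] at he ⊢
      exact ⟨he.1, he.2.trans (Nat.floor_le_floor hk1.le)⟩
    · intro e he he'
      apply hFz
      by_contra h3
      apply he'
      rw [mem_Ioc] at he ⊢
      exact ⟨he.1, Nat.le_floor (hlamZ e h3)⟩
  have hfin : |∑ e ∈ Icc 1 ⌊Z⌋₊, F e| ≤ ν * N ^ (μ / 2) := by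
    rw [hsplit]
    have h1 := htele k₀ hk2
    have h2 : (k₀ : ℝ) * Bd ≤ 2 * (1 + Real.log N) * (ν * L ^ 3 * (M * (4 * A₁ + 10))) := by
      calc (k₀ : ℝ) * Bd ≤ k₀ * (ν * L ^ 3 * (M * (4 * A₁ + 10))) :=
            mul_le_mul_of_nonneg_left hBd1 (Nat.cast_nonneg _)
        _ ≤ _ := mul_le_mul_of_nonneg_right hk4 (by positivity)
    set Λ := 1 + Real.log N with hΛ
    have hΛ1 : 1 ≤ Λ := by linarith
    have hL3 : L ^ 3 ≤ Λ ^ 3 := pow_le_pow_left₀ (by linarith) hLle 3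
    have hL2 : L ^ 2 ≤ Λ ^ 4 := by
      calc L ^ 2 ≤ Λ ^ 2 := pow_le_pow_left₀ (by linarith) hLle 2
        _ ≤ Λ ^ 4 := pow_le_pow_right₀ hΛ1 (by norm_num)
    have h3 : 2 * Λ * (ν * L ^ 3 * (M * (4 * A₁ + 10))) ≤
        ν * (2 * (M * (4 * A₁ + 10)) * Λ ^ 4) := by
      calc 2 * Λ * (ν * L ^ 3 * (M * (4 * A₁ + 10)))
          ≤ 2 * Λ * (ν * Λ ^ 3 * (M * (4 * A₁ + 10))) := by
            apply mul_le_mul_of_nonneg_left _ (by linarith)
            apply mul_le_mul_of_nonneg_right _ (by positivity)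
            exact mul_le_mul_of_nonneg_left hL3 hν0.le
        _ = _ := by ring
    have h4 : 3 * ν * L ^ 2 ≤ ν * (3 * Λ ^ 4) := by
      calc 3 * ν * L ^ 2 ≤ 3 * ν * Λ ^ 4 := mul_le_mul_of_nonneg_left hL2 (by positivity)
        _ = _ := by ring
    have h5 : |∑ e ∈ Icc 1 ⌊E₀⌋₊, F e + ∑ e ∈ Ioc ⌊E₀⌋₊ ⌊2 ^ k₀ * E₀⌋₊, F e| ≤
        ν * (C₁ * Λ ^ 4) := by
      refine (abs_add_le _ _).trans ?_
      have h6 : ν * (C₁ * Λ ^ 4) = ν * (3 * Λ ^ 4) + ν * (2 * (M * (4 * A₁ + 10)) * Λ ^ 4) := by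
        rw [hC₁]; ring
      rw [h6]
      linarith
    exact h5.trans (mul_le_mul_of_nonneg_left hlog hν0.le)
  rw [htot]
  refine hfin.trans (le_of_eq ?_)
  rw [hν, ← Real.rpow_add hN0]
  congr 1
  ring

end Pool.Agent.GapTwo.VAR_

namespace Pool.Agent.GapTwo

open Finset Filter VAR_
open scoped Classical Topology

theorem stmt_VAR (hK : Stmt_K) : Stmt_VAR := by
  intro η hη hη1 M
  obtain ⟨ε₂, hε₂, hK'⟩ := hK η hη hη1
  refine ⟨min (min ε₂ (η / 2)) (9 / 100000) / 2, by positivity, ?_⟩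
  intro ι _ a D₀ ha hinj hD C κ hC hκ0 hκ1
  have h1 : ∀ i j : ι, ∃ N₀ : ℝ, i ≠ j → ∀ N : ℝ, N₀ ≤ N →
      ∀ lam : ℕ → ℝ, Ros η M N lam → ∀ c : Finset (ℕ × ι) → ℝ,
      Lev (XX ι D₀ (N ^ η)) c (N ^ δ₀) C →
      |∑ n ∈ NW (WW D₀) N κ, poly c (ev a (XX ι D₀ (N ^ η)) n) *
          (gg lam (a i * n + 1) * gg lam (a j * n + 1))
        - gam N lam ^ 2 * (κ * N / WW D₀ * Eloc (XX ι D₀ (N ^ η)) c)| ≤
      N ^ (1 - min (min ε₂ (η / 2)) (9 / 100000) / 2) := by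
    intro i j
    by_cases hij : i = j
    · exact ⟨0, fun h => absurd hij h⟩
    · obtain ⟨N₀, hN₀⟩ := var_pair η hη hη1 M ε₂ hε₂ a D₀ ha hinj hD C κ hC hκ0 hκ1 i j hij
        (hK' (a i * WW D₀) (a j * WW D₀) (WW D₀) (samePr a D₀ ha hinj hD i j hij) (WW_pos D₀)
          κ hκ0 hκ1)
      exact ⟨N₀, fun _ => hN₀⟩
  choose f hf using h1
  refine ⟨∑ i, ∑ j, |f i j|, fun N hN lam hlam c hc i j hij => ?_⟩
  have h2 : f i j ≤ N := by
    refine le_trans ?_ hN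
    calc f i j ≤ |f i j| := le_abs_self _
      _ ≤ ∑ j, |f i j| := single_le_sum (f := fun j => |f i j|) (fun _ _ => abs_nonneg _)
          (mem_univ j)
      _ ≤ ∑ i, ∑ j, |f i j| := single_le_sum (f := fun i => ∑ j, |f i j|)
          (fun _ _ => sum_nonneg fun _ _ => abs_nonneg _) (mem_univ i)
  exact hf i j hij N h2 lam hlam c hc

end Pool.Agent.GapTwo
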