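import Pool.Agent.Work.MP_1ea053_nt.T1
import Pool.Agent.Work.MP_1ea053_nt.T2
import Pool.Agent.Work.MP_1ea053_nt.LOC
import Pool.Agent.Work.MP_1ea053_nt.BASE
import Pool.Agent.Work.MP_1ea053_nt.IDEALD
import Pool.Agent.Work.MP_1ea053_nt.ROSD
import Pool.Agent.Work.MP_1ea053_nt.CONST
import Pool.Agent.Work.MP_1ea053_nt.MER
import Pool.Agent.Work.MP_1ea053_nt.VARD
import Pool.Agent.Work.MP_1ea053_nt.K1
import Pool.Agent.Work.MP_1ea053_nt.K2
import Pool.Agent.Work.MP_1ea053_nt.K3A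
import Pool.Agent.Work.MP_1ea053_nt.K3B
import Pool.Agent.Work.MP_1ea053_nt.K3C
import Pool.Agent.Work.MP_1ea053_nt.K3D
import Pool.Agent.Work.MP_1ea053_nt.K4
import Pool.Agent.Work.MP_1ea053_nt.KG
import Pool.Agent.Work.MP_1ea053_nt.K5
import Pool.Agent.Work.MP_1ea053_nt.COMB
import Pool.Agent.Work.MP_1ea053_nt.FORMS
import Pool.Agent.Work.MP_1ea053_nt.RED
import Pool.Agent.Work.MP_1ea053_nt.PAIRD
import Pool.Agent.Work.MP_1ea053_nt.Cored6

/-!
# MP_1ea053 (Erdos problem 287): assembly of the blocks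
-/

set_option autoImplicit false

namespace Pool.Agent.GapTwo

/-- The Kloosterman theorem K. -/
theorem stmt_K : Stmt_K :=
  stmt_K5 stmt_K3A stmt_K3B stmt_K3D (stmt_KG (stmt_K4 stmt_K2) stmt_K3A stmt_K3C)

/-- At least 8 of the 26 clusters contain a prime. -/
theorem core : Stmt_CORE :=
  stmt_CORE stmt_T1 stmt_T2 stmt_LOC stmt_BASE stmt_IDEAL stmt_ROS stmt_CONST stmt_MER
    (stmt_VAR stmt_K)

/-- Pairs of consecutive integers with huge prime factors in every window of ratio `2.717`. -/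
theorem pair : Stmt_PAIR := stmt_PAIRD core stmt_FORMS stmt_COMB

/-- Only finitely many solutions have all gaps at most `2`. -/
theorem final : Final := stmt_RED pair

end Pool.Agent.GapTwo
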