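import Pool.Agent.Work.MP_1ea053_nt.IG

/-!
# Block PAIRG
-/

set_option autoImplicit false

namespace Pool.Agent.GapTwo

open Finset

theorem stmt_PAIRGD : Stmt_PAIRGD := by
  intro hcore hforms hcomb
  obtain ⟨k, hk, hcore⟩ := hcore
  obtain ⟨U, b, c₀, hU, hc₀, hinj₀, hdiv₀, hpos₀⟩ := hforms (26 * k)
    (fun i => ((finProdFinEquiv.symm i).1 : ℕ) / 7) (1 / 10000) (by norm_num)
  set c : Fin 26 × Fin k → ℕ := fun x => c₀ (finProdFinEquiv x) with hcdef
  have hc : ∀ x, 0 < c x := fun x => hc₀ _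
  have hinj : Function.Injective c := hinj₀.comp finProdFinEquiv.injective
  have hdiv : ∀ x y, x ≠ y → ((c y : ℤ) - c x) ∣ (c x : ℤ) := fun x y h =>
    hdiv₀ _ _ (fun h' => h (finProdFinEquiv.injective h'))
  have hpos : ∀ x : Fin 26 × Fin k, |((c x : ℝ) - b) / U - (x.1 : ℕ) / 7| < 1 / 10000 := by
    intro x
    have := hpos₀ (finProdFinEquiv x)
    rw [Equiv.symm_apply_apply] at this
    exact this
  set A : ℕ := ∏ x, c x with hA
  have hA0 : 0 < A := Finset.prod_pos fun x _ => hc x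
  have hcA : ∀ x, c x ∣ A := fun x => Finset.dvd_prod_of_mem _ (Finset.mem_univ x)
  set a : Fin 26 × Fin k → ℕ := fun x => A / c x with ha
  have hac : ∀ x, a x * c x = A := fun x => Nat.div_mul_cancel (hcA x)
  have ha0 : ∀ x, 0 < a x := fun x => Nat.div_pos (Nat.le_of_dvd hA0 (hcA x)) (hc x)
  have hainj : Function.Injective a := by
    intro x y hxy
    apply hinj
    have h1 := hac x
    rw [hxy, ← hac y] at h1
    exact Nat.eq_of_mul_eq_mul_left (ha0 y) h1
  have hAr : (0 : ℝ) < A := by exact_mod_cast hA0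
  refine ⟨⌈(A : ℝ) / (U * (9997 / 10000))⌉₊ + 1, Nat.succ_pos _, ?_⟩
  intro G₀
  set P : ℕ := Fintype.card ((Fin 26 × Fin k) × (Fin 26 × Fin k)) with hP
  set J : ℕ := G₀ * P + 1 with hJ
  have hJ0 : (1 : ℝ) ≤ J := by
    have : 1 ≤ J := by omega
    exact_mod_cast this
  obtain ⟨N₀, hN₀⟩ := hcore a ha0 hainj (1 / (20000 * J)) (by positivity) (by
    rw [div_le_one (by positivity)]; linarith)
  refine ⟨⌈|N₀| * (A : ℝ) / (U * (9997 / 10000))⌉₊ + ⌈(A : ℝ) * 100000000 / U⌉₊ + 1, ?_⟩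
  intro x hx
  have hx' : |N₀| * (A : ℝ) / (U * (9997 / 10000)) + (A : ℝ) * 100000000 / U + 1 ≤ x := by
    have h1 := Nat.le_ceil (|N₀| * (A : ℝ) / (U * (9997 / 10000)))
    have h2 := Nat.le_ceil ((A : ℝ) * 100000000 / U)
    have h3 : ((⌈|N₀| * (A : ℝ) / (U * (9997 / 10000))⌉₊ + ⌈(A : ℝ) * 100000000 / U⌉₊ + 1 : ℕ) : ℝ)
      ≤ x := by exact_mod_cast hx
    push_cast at h3
    linarith
  have hx0 : (0 : ℝ) < x := by
    have : 0 ≤ |N₀| * (A : ℝ) / (U * (9997 / 10000)) := by positivity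
    have : 0 ≤ (A : ℝ) * 100000000 / U := by positivity
    linarith
  have hxA : (A : ℝ) * 100000000 < x * U := by
    have h1 : 0 ≤ |N₀| * (A : ℝ) / (U * (9997 / 10000)) := by positivity
    have h2 : (A : ℝ) * 100000000 / U < x := by linarith
    rwa [div_lt_iff₀ hU] at h2
  have hxN : |N₀| * (A : ℝ) ≤ x * (U * (9997 / 10000)) := by
    have h1 : 0 ≤ (A : ℝ) * 100000000 / U := by positivity
    have h2 : |N₀| * (A : ℝ) / (U * (9997 / 10000)) ≤ x := by linarith
    rwa [div_le_iff₀ (by positivity)] at h2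
  set N : ℝ := x * U * (9997 / 10000) / A with hN
  have hNA : A * N = x * U * (9997 / 10000) := by
    rw [hN]; field_simp
  have hN₀N : N₀ ≤ N := by
    refine (le_abs_self N₀).trans ?_
    rw [hN, le_div_iff₀ hAr]
    linarith
  have hNpos : 0 < N := by rw [hN]; positivity
  have main : ∀ n : ℕ, N < n → (n : ℝ) ≤ (1 + 1 / 10000) * N →
      (∃ T : Finset (Fin 26), 8 ≤ T.card ∧ ∀ s ∈ T, ∃ l : Fin k, (a (s, l) * n + 1).Prime) →
      ∃ (w : (Fin 26 × Fin k) × (Fin 26 × Fin k)) (m : ℕ), c w.1 < c w.2 ∧ (c w.2 - c w.1) * m = A * n + c w.1 ∧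
        ∃ p q : ℕ, p.Prime ∧ q.Prime ∧ p ∣ m ∧ q ∣ m + 1 ∧
          x ≤ (⌈(A : ℝ) / (U * (9997 / 10000))⌉₊ + 1) * p ∧ x ≤ (⌈(A : ℝ) / (U * (9997 / 10000))⌉₊ + 1) * q ∧
          (x : ℝ) / 2.717 < m ∧ m + 1 < x := by
    intro n hn1 hn2 hTT
    obtain ⟨T, hT, hprime⟩ := hTT
    obtain ⟨s, hs, s', hs', hss1, hss2⟩ := hcomb T hT
    obtain ⟨l, hp⟩ := hprime s hs
    obtain ⟨l', hq⟩ := hprime s' hs'
    have hne : (s, l) ≠ (s', l') := by
      intro h
      have : s = s' := congrArg Prod.fst h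
      rw [this] at hss1
      omega
    have h1 := hdiv _ _ hne
    have hp1 := abs_lt.1 (hpos (s, l))
    have hp2 := abs_lt.1 (hpos (s', l'))
    simp only at hp1 hp2
    set c₁ := c (s, l) with hc₁
    set c₂ := c (s', l') with hc₂
    have hss1' : ((s : ℕ) : ℝ) + 7 ≤ (s' : ℕ) := by exact_mod_cast hss1
    have hss2' : ((s' : ℕ) : ℝ) ≤ (s : ℕ) + 19 := by exact_mod_cast hss2
    have e1 : ((c₁ : ℝ) - b) / U + ((c₂ : ℝ) - c₁) / U = ((c₂ : ℝ) - b) / U := by ring
    have hg1 : U * (9998 / 10000) < (c₂ : ℝ) - c₁ := by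
      have : (9998 / 10000 : ℝ) < ((c₂ : ℝ) - c₁) / U := by linarith
      rw [lt_div_iff₀ hU] at this
      linarith
    have hg2 : (c₂ : ℝ) - c₁ < U * (19 / 7 + 2 / 10000) := by
      have : ((c₂ : ℝ) - c₁) / U < 19 / 7 + 2 / 10000 := by linarith
      rw [div_lt_iff₀ hU] at this
      linarith
    have hlt : c₁ < c₂ := by
      have : (c₁ : ℝ) < c₂ := by
        have : 0 < U * (9998 / 10000) := by positivity
        linarith
      exact_mod_cast this
    obtain ⟨g, hg⟩ := Nat.exists_eq_add_of_lt hlt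
    set G := g + 1 with hG
    have hGr : (G : ℝ) = (c₂ : ℝ) - c₁ := by
      have : (c₂ : ℝ) = (c₁ : ℝ) + g + 1 := by exact_mod_cast hg
      rw [hG]; push_cast; linarith
    have hG0 : 0 < G := Nat.succ_pos _
    have hGc₁ : G ∣ c₁ := by
      have h2 : ((c₂ : ℤ) - c₁) = (G : ℤ) := by
        have : (c₂ : ℤ) = (c₁ : ℤ) + g + 1 := by exact_mod_cast hg
        rw [hG]; push_cast; linarith
      rw [h2] at h1
      exact_mod_cast h1
    have hGc₂ : G ∣ c₂ := by
      have : c₂ = c₁ + G := by omega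
      rw [this]
      exact Dvd.dvd.add hGc₁ dvd_rfl
    obtain ⟨u, hu⟩ := hGc₁
    obtain ⟨v, hv⟩ := hGc₂
    have hGrpos : (0 : ℝ) < G := by exact_mod_cast hG0
    have hm : G * (u * (a (s, l) * n + 1)) = A * n + c₁ := by
      rw [← hac (s, l), ← hc₁]
      rw [← mul_assoc, ← hu]; ring
    have hm' : G * (v * (a (s', l') * n + 1)) = A * n + c₂ := by
      rw [← hac (s', l'), ← hc₂]
      rw [← mul_assoc, ← hv]; ring
    have hsucc : u * (a (s, l) * n + 1) + 1 = v * (a (s', l') * n + 1) := by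
      have h2 : G * (u * (a (s, l) * n + 1) + 1) = G * (v * (a (s', l') * n + 1)) := by
        rw [mul_add, hm, hm']
        omega
      exact Nat.eq_of_mul_eq_mul_left hG0 h2
    have hnr : (0 : ℝ) < n := hNpos.trans hn1
    have hKp : ∀ y : Fin 26 × Fin k,
        x ≤ (⌈(A : ℝ) / (U * (9997 / 10000))⌉₊ + 1) * (a y * n + 1) := by
      intro y
      have h2 := Nat.le_ceil ((A : ℝ) / (U * (9997 / 10000)))
      have h3 : (x : ℝ) ≤ (A : ℝ) / (U * (9997 / 10000)) * n := by
        have : (x : ℝ) = (A : ℝ) / (U * (9997 / 10000)) * N := by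
          rw [hN]; field_simp
        rw [this]
        exact mul_le_mul_of_nonneg_left hn1.le (by positivity)
      have h4 : (1 : ℝ) ≤ a y := by exact_mod_cast ha0 y
      have h5 : (x : ℝ) ≤ ((⌈(A : ℝ) / (U * (9997 / 10000))⌉₊ : ℝ) + 1) * (a y * n + 1) := by
        have h6 : (A : ℝ) / (U * (9997 / 10000)) * n ≤ ((⌈(A : ℝ) / (U * (9997 / 10000))⌉₊ : ℝ) + 1) *
            (a y * n + 1) := by
          apply mul_le_mul _ _ hnr.le (by positivity)
          · linarith
          · have := mul_le_mul_of_nonneg_right h4 hnr.le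
            linarith
        linarith
      exact_mod_cast h5
    refine ⟨((s, l), (s', l')), u * (a (s, l) * n + 1), hlt, ?_, a (s, l) * n + 1, a (s', l') * n + 1, hp, hq,
      Dvd.intro_left _ rfl, ?_, hKp _, hKp _, ?_, ?_⟩
    · have h9 : c (s', l') - c (s, l) = G := by omega
      rw [h9, hm]
    · rw [hsucc]; exact Dvd.intro_left _ rfl
    · -- lower bound
      have h2 : (G : ℝ) * ((u * (a (s, l) * n + 1) : ℕ) : ℝ) = A * n + c₁ := by exact_mod_cast hm
      have h3 : (0 : ℝ) < c₁ := by exact_mod_cast hc _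
      have h4 : x * U * (9997 / 10000) < (G : ℝ) * ((u * (a (s, l) * n + 1) : ℕ) : ℝ) := by
        rw [h2, ← hNA]
        have := mul_lt_mul_of_pos_left hn1 hAr
        linarith
      have h5 : (G : ℝ) * ((u * (a (s, l) * n + 1) : ℕ) : ℝ) ≤
          U * (19 / 7 + 2 / 10000) * ((u * (a (s, l) * n + 1) : ℕ) : ℝ) := by
        apply mul_le_mul_of_nonneg_right _ (Nat.cast_nonneg _)
        linarith
      have h6 : U * (x * (9997 / 10000)) <
          U * ((19 / 7 + 2 / 10000) * ((u * (a (s, l) * n + 1) : ℕ) : ℝ)) := by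
        calc U * (x * (9997 / 10000)) = x * U * (9997 / 10000) := by ring
          _ < _ := h4
          _ ≤ _ := h5
          _ = _ := by ring
      have h7 := lt_of_mul_lt_mul_left h6 hU.le
      rw [div_lt_iff₀ (by norm_num)]
      have h8 : (0 : ℝ) ≤ ((u * (a (s, l) * n + 1) : ℕ) : ℝ) := Nat.cast_nonneg _
      linarith
    · -- upper bound
      have h2 : (G : ℝ) * (((u * (a (s, l) * n + 1) : ℕ) : ℝ) + 1) = A * n + c₂ := by
        have : G * (u * (a (s, l) * n + 1) + 1) = A * n + c₂ := by rw [hsucc, hm']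
        exact_mod_cast this
      have h3 : (c₂ : ℝ) ≤ A := by exact_mod_cast Nat.le_of_dvd hA0 (hcA _)
      have h4 : (A : ℝ) * n ≤ (1 + 1 / 10000) * (x * U * (9997 / 10000)) := by
        rw [← hNA]
        calc (A : ℝ) * n ≤ A * ((1 + 1 / 10000) * N) := mul_le_mul_of_nonneg_left hn2 hAr.le
          _ = _ := by ring
      have h5 : (G : ℝ) * (((u * (a (s, l) * n + 1) : ℕ) : ℝ) + 1) <
          U * (9998 / 10000) * x := by
        rw [h2]
        have h6 : 0 < x * U := by positivity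
        have h7 : U * (9998 / 10000) * x = (x * U) * (9998 / 10000) := by ring
        rw [h7]
        linarith
      have h6 : U * (9998 / 10000) * (((u * (a (s, l) * n + 1) : ℕ) : ℝ) + 1) ≤
          (G : ℝ) * (((u * (a (s, l) * n + 1) : ℕ) : ℝ) + 1) := by
        apply mul_le_mul_of_nonneg_right _ (by positivity)
        rw [hGr]; exact hg1.le
      have h7 := lt_of_mul_lt_mul_left (h6.trans_lt h5) (by positivity)
      exact_mod_cast h7

  -- the intervals
  set δ : ℝ := N / (10000 * J) with hδ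
  have hδ0 : 0 < δ := by rw [hδ]; positivity
  have hJδ : (J : ℝ) * δ = N / 10000 := by
    rw [hδ]; field_simp
  have hex : ∀ j : ℕ, ∃ n : ℕ, j < J → (N + j * δ < n ∧ (n : ℝ) ≤ N + (j + 1) * δ ∧
      ∃ T : Finset (Fin 26), 8 ≤ T.card ∧ ∀ s ∈ T, ∃ l : Fin k, (a (s, l) * n + 1).Prime) := by
    intro j
    by_cases hj : j < J
    · have hjr : (j : ℝ) + 1 ≤ J := by exact_mod_cast hj
      have hj0 : (0 : ℝ) ≤ j := Nat.cast_nonneg j
      have h1 : (j : ℝ) * δ ≤ J * δ := mul_le_mul_of_nonneg_right (by linarith) hδ0.le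
      have h2 : 0 ≤ (j : ℝ) * δ := by positivity
      obtain ⟨n, h3, h4, h5⟩ := hN₀ (N + j * δ) (by linarith)
      refine ⟨n, fun _ => ⟨h3, h4.trans ?_, h5⟩⟩
      have h6 : 1 / (20000 * (J : ℝ)) * (N + j * δ) ≤ 1 / (20000 * (J : ℝ)) * (2 * N) := by
        apply mul_le_mul_of_nonneg_left _ (by positivity)
        linarith
      have h7 : 1 / (20000 * (J : ℝ)) * (2 * N) = δ := by
        rw [hδ]; field_simp; norm_num
      have h8 : (1 + 1 / (20000 * (J : ℝ))) * (N + j * δ) = (N + j * δ) + 1 / (20000 * (J : ℝ)) * (N + j * δ) := by ring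
      rw [h8]
      linarith
    · exact ⟨0, fun h => absurd h hj⟩
  choose f hf using hex
  have hex2 : ∀ j : ℕ, ∃ (w : (Fin 26 × Fin k) × (Fin 26 × Fin k)) (m : ℕ), j < J → (c w.1 < c w.2 ∧
      (c w.2 - c w.1) * m = A * f j + c w.1 ∧
        ∃ p q : ℕ, p.Prime ∧ q.Prime ∧ p ∣ m ∧ q ∣ m + 1 ∧
          x ≤ (⌈(A : ℝ) / (U * (9997 / 10000))⌉₊ + 1) * p ∧ x ≤ (⌈(A : ℝ) / (U * (9997 / 10000))⌉₊ + 1) * q ∧
          (x : ℝ) / 2.717 < m ∧ m + 1 < x) := by
    intro j
    by_cases hj : j < J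
    · obtain ⟨h1, h2, h3⟩ := hf j hj
      have hjr : (j : ℝ) + 1 ≤ J := by exact_mod_cast hj
      have hj0 : (0 : ℝ) ≤ j := Nat.cast_nonneg j
      have h4 : ((j : ℝ) + 1) * δ ≤ J * δ := mul_le_mul_of_nonneg_right hjr hδ0.le
      have h5 : 0 ≤ (j : ℝ) * δ := by positivity
      obtain ⟨w, m, h6⟩ := main (f j) (by linarith) (by linarith) h3
      exact ⟨w, m, fun _ => h6⟩
    · have hk0 : 0 < k := hk
      exact ⟨((0, ⟨0, hk0⟩), (0, ⟨0, hk0⟩)), 0, fun h => absurd h hj⟩
  choose w μ hw using hex2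
  have hfinj : ∀ i < J, ∀ j < J, i < j → f i < f j := by
    intro i hi j hj hij
    have h1 := (hf i hi).2.1
    have h2 := (hf j hj).1
    have h3 : ((i : ℝ) + 1) * δ ≤ j * δ := by
      apply mul_le_mul_of_nonneg_right _ hδ0.le
      exact_mod_cast hij
    have h4 : (f i : ℝ) < f j := by linarith
    exact_mod_cast h4
  refine ⟨(Finset.range J).image μ, ?_, ?_⟩
  · have h1 : (Finset.range J).card ≤ P * ((Finset.range J).image μ).card := by
      apply Finset.card_le_mul_card_image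
      intro m _
      rw [hP, ← Finset.card_univ]
      apply Finset.card_le_card_of_injOn w (fun _ _ => Finset.mem_coe.2 (Finset.mem_univ _))
      intro i hi j hj hij
      have hi' := Finset.mem_filter.1 (Finset.mem_coe.1 hi)
      have hj' := Finset.mem_filter.1 (Finset.mem_coe.1 hj)
      have hiJ := Finset.mem_range.1 hi'.1
      have hjJ := Finset.mem_range.1 hj'.1
      have e1 := (hw i hiJ).2.1
      have e2 := (hw j hjJ).2.1
      rw [hi'.2, hij] at e1
      rw [hj'.2] at e2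
      have e3 : A * f i = A * f j := by
        rw [e1] at e2
        omega
      have e4 : f i = f j := Nat.eq_of_mul_eq_mul_left hA0 e3
      rcases lt_trichotomy i j with h | h | h
      · have := hfinj i hiJ j hjJ h
        omega
      · exact h
      · have := hfinj j hjJ i hiJ h
        omega
    rw [Finset.card_range] at h1
    by_contra hcon
    have h2 : ((Finset.range J).image μ).card ≤ G₀ := by omega
    have h3 : P * ((Finset.range J).image μ).card ≤ P * G₀ := Nat.mul_le_mul_left _ h2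
    have h4 : P * G₀ = G₀ * P := Nat.mul_comm _ _
    omega
  · intro m hm
    obtain ⟨j, hj, rfl⟩ := Finset.mem_image.1 hm
    exact (hw j (Finset.mem_range.1 hj)).2.2

end Pool.Agent.GapTwo
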