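import Pool.Agent.Work.MP_1ea053_nt.IG

/-!
# Block REDG (helper58; from RED)
-/

set_option autoImplicit false

namespace Pool.Agent.GapTwo

open Finset

namespace REDG_

/-- A large prime factor is impossible. -/
lemma no_prime {S : Finset ℕ} (hpos : ∀ s ∈ S, 0 < s) {N z : ℕ} (hN : 0 < N)
    (hsum : (N : ℚ) * ∑ s ∈ S, (1 : ℚ) / s = z) {K x p s : ℕ} (hx : ∀ y ∈ S, y ≤ x)
    (hp : p.Prime) (hKp : x ≤ K * p) (hbig : K * K.factorial < p) (hNp : N < p) (hs : s ∈ S) (hps : p ∣ s) :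
    False := by
  set A := S.filter (fun s => p ∣ s) with hA
  set B := S.filter (fun s => ¬ p ∣ s) with hB
  set D : ℕ := ∏ s ∈ B, s with hD
  set Z : ℕ := ∑ s ∈ A, K.factorial / (s / p) with hZ
  set E : ℕ := ∑ s ∈ B, D / s with hE
  have hp0 : 0 < p := hp.pos
  have hAj : ∀ s ∈ A, 1 ≤ s / p ∧ s / p ≤ K ∧ p * (s / p) = s := by
    intro s hs
    rw [hA, mem_filter] at hs
    have h1 : p * (s / p) = s := Nat.mul_div_cancel' hs.2
    have h2 := hpos s hs.1
    have h3 := hx s hs.1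
    refine ⟨?_, ?_, h1⟩
    · rcases Nat.eq_zero_or_pos (s / p) with h0 | h0
      · rw [h0] at h1; omega
      · exact h0
    · have : p * (s / p) ≤ p * K := by rw [h1, mul_comm p K]; exact h3.trans hKp
      exact Nat.le_of_mul_le_mul_left this hp0
  have hDpos : 0 < D := Finset.prod_pos fun s hs => hpos s (mem_filter.1 hs).1
  have hpD : ¬ p ∣ D := by
    intro h
    obtain ⟨s, hs, hps⟩ := (Prime.dvd_finset_prod_iff hp.prime _).1 h
    exact (mem_filter.1 hs).2 hps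
  have hfac : (0 : ℚ) < K.factorial := by exact_mod_cast K.factorial_pos
  have hmain : N * (D * Z + p * K.factorial * E) = p * (z * D * K.factorial) := by
    have h1 : (N : ℚ) * (∑ s ∈ A, (1 : ℚ) / s + ∑ s ∈ B, (1 : ℚ) / s) = z := by
      have h0 := Finset.sum_filter_add_sum_filter_not S (fun s => p ∣ s) (fun s => (1 : ℚ) / s)
      rw [← hA, ← hB] at h0
      rw [h0, hsum]
    have h2 : (Z : ℚ) = p * K.factorial * ∑ s ∈ A, (1 : ℚ) / s := by
      rw [hZ, Nat.cast_sum, Finset.mul_sum]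
      refine Finset.sum_congr rfl fun s hs => ?_
      obtain ⟨h3, h4, h5⟩ := hAj s hs
      rw [Nat.cast_div (Nat.dvd_factorial h3 h4) (by positivity)]
      have h6 : (s : ℚ) = p * ((s / p : ℕ) : ℚ) := by
        rw [← Nat.cast_mul, h5]
      rw [h6]
      have h7 : (((s / p : ℕ)) : ℚ) ≠ 0 := by positivity
      have h8 : (p : ℚ) ≠ 0 := by positivity
      field_simp
    have h3 : (E : ℚ) = D * ∑ s ∈ B, (1 : ℚ) / s := by
      rw [hE, Nat.cast_sum, Finset.mul_sum]
      refine Finset.sum_congr rfl fun s hs => ?_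
      have h4 : 0 < s := hpos s (mem_filter.1 hs).1
      rw [Nat.cast_div (Finset.dvd_prod_of_mem _ hs) (by positivity)]
      ring
    have h4 : (N : ℚ) * (D * Z + p * K.factorial * E) = p * (z * D * K.factorial) := by
      rw [h2, h3]
      linear_combination ((p : ℚ) * D * K.factorial) * h1
    exact_mod_cast h4
  have hpZ : p ∣ Z := by
    have h1 : p ∣ N * (D * Z + p * K.factorial * E) := by
      rw [hmain]
      exact dvd_mul_right _ _
    have h0 : ¬ p ∣ N := fun h => by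
      have := Nat.le_of_dvd hN h
      omega
    have h1 := (hp.dvd_mul.1 h1).resolve_left h0
    have h2 : p ∣ p * K.factorial * E := ⟨K.factorial * E, by ring⟩
    have h3 : p ∣ D * Z := (Nat.dvd_add_left h2).1 h1
    exact (hp.dvd_mul.1 h3).resolve_left hpD
  have hZpos : 0 < Z := by
    refine Finset.sum_pos (fun s hs => ?_) ⟨s, mem_filter.2 ⟨hs, hps⟩⟩
    obtain ⟨h3, h4, h5⟩ := hAj s hs
    exact Nat.div_pos (Nat.le_of_dvd K.factorial_pos (Nat.dvd_factorial h3 h4)) (by omega)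
  have hAcard : A.card ≤ K := by
    have h1 : (A.image (fun s => s / p)) ⊆ Finset.Icc 1 K := by
      intro j hj
      obtain ⟨s, hs, rfl⟩ := Finset.mem_image.1 hj
      obtain ⟨h3, h4, h5⟩ := hAj s hs
      exact Finset.mem_Icc.2 ⟨h3, h4⟩
    have h2 : Set.InjOn (fun s => s / p) A := by
      intro s hs t ht hst
      have h3 := (hAj s hs).2.2
      have h4 := (hAj t ht).2.2
      simp only at hst
      rw [← h3, ← h4, hst]
    have h3 := Finset.card_le_card h1
    rw [Finset.card_image_of_injOn h2, Nat.card_Icc] at h3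
    omega
  have hZle : Z ≤ K * K.factorial := by
    calc Z ≤ ∑ s ∈ A, K.factorial := Finset.sum_le_sum fun s _ => Nat.div_le_self _ _
      _ = A.card * K.factorial := by rw [Finset.sum_const, smul_eq_mul]
      _ ≤ K * K.factorial := Nat.mul_le_mul_right _ hAcard
  have := Nat.le_of_dvd hZpos hpZ
  omega

lemma sum_le_log (a : ℕ) (ha : 0 < a) : ∀ b : ℕ, a ≤ b →
    ∑ k ∈ Finset.Ioc a b, (1 : ℝ) / k ≤ Real.log b - Real.log a := by
  intro b hb
  induction b, hb using Nat.le_induction with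
  | base => simp
  | succ b hb ih =>
    rw [← Finset.insert_Ioc_right_eq_Ioc_add_one (by omega), Finset.sum_insert (by simp)]
    have hb0 : (0 : ℝ) < b := by exact_mod_cast (by omega : 0 < b)
    have h1 : (1 : ℝ) / ((b + 1 : ℕ) : ℝ) ≤ Real.log ((b + 1 : ℕ) : ℝ) - Real.log b := by
      have h2 := Real.one_sub_inv_le_log_of_pos (x := ((b + 1 : ℕ) : ℝ) / b) (by positivity)
      rw [Real.log_div (by positivity) (by positivity)] at h2
      have h3 : (1 : ℝ) - (((b + 1 : ℕ) : ℝ) / b)⁻¹ = 1 / ((b + 1 : ℕ) : ℝ) := by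
        push_cast
        field_simp
        ring
      rw [h3] at h2
      exact h2
    linarith

/-- The smallest element is small. -/
lemma min_small {S : Finset ℕ} (hpos : ∀ s ∈ S, 0 < s) (hsum : 1 ≤ ∑ s ∈ S, (1 : ℚ) / s) {x₁ x : ℕ} (hx₁ : x₁ ∈ S)
    (hmin : ∀ y ∈ S, x₁ ≤ y) (hmax : ∀ y ∈ S, y ≤ x) (hx : 27170 < x) : (x₁ : ℝ) < x / 2.717 := by
  have h0 : 0 < x₁ := hpos _ hx₁
  have hx1x : x₁ ≤ x := hmax _ hx₁
  rcases lt_or_ge x₁ 10000 with h | h
  · have h1 : (x₁ : ℝ) < 10000 := by exact_mod_cast h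
    have h2 : (27170 : ℝ) < x := by exact_mod_cast hx
    rw [lt_div_iff₀ (by norm_num)]
    linarith
  · have hsum' : 1 ≤ ∑ s ∈ S, (1 : ℝ) / s := by
      have : ((1 : ℚ) : ℝ) ≤ ((∑ s ∈ S, (1 : ℚ) / s : ℚ) : ℝ) := by exact_mod_cast hsum
      push_cast at this
      exact this
    have h1 : S ⊆ insert x₁ (Finset.Ioc x₁ x) := by
      intro y hy
      have h2 := hmin y hy
      have h3 := hmax y hy
      rw [Finset.mem_insert, Finset.mem_Ioc]
      omega
    have h2 : (1 : ℝ) ≤ 1 / x₁ + (Real.log x - Real.log x₁) := by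
      calc (1 : ℝ) ≤ ∑ s ∈ S, (1 : ℝ) / s := hsum'
        _ ≤ ∑ s ∈ insert x₁ (Finset.Ioc x₁ x), (1 : ℝ) / s :=
            Finset.sum_le_sum_of_subset_of_nonneg h1 fun i _ _ => by positivity
        _ = 1 / x₁ + ∑ s ∈ Finset.Ioc x₁ x, (1 : ℝ) / s := by
            rw [Finset.sum_insert (by simp)]
        _ ≤ 1 / x₁ + (Real.log x - Real.log x₁) := by
            have := sum_le_log x₁ h0 x hx1x
            linarith
    have hx10 : (0 : ℝ) < x₁ := by exact_mod_cast h0
    have hx0 : (0 : ℝ) < x := by exact_mod_cast (by omega : 0 < x)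
    have h3 : (1 : ℝ) / x₁ ≤ 1 / 10000 := by
      have : (10000 : ℝ) ≤ x₁ := by exact_mod_cast h
      exact one_div_le_one_div_of_le (by norm_num) this
    have h4 : (1 : ℝ) - 1 / 10000 ≤ Real.log (x / x₁) := by
      rw [Real.log_div hx0.ne' hx10.ne']
      linarith
    have h5 : Real.exp (1 - 1 / 10000) ≤ x / x₁ := by
      rw [← Real.exp_log (by positivity : (0 : ℝ) < x / x₁)]
      exact Real.exp_le_exp.2 h4
    have h6 : (2.717 : ℝ) < Real.exp (1 - 1 / 10000) := by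
      have h7 := Real.exp_one_gt_d9
      have h8 := Real.add_one_le_exp (-(1 / 10000) : ℝ)
      have h9 : Real.exp (1 - 1 / 10000) = Real.exp 1 * Real.exp (-(1 / 10000)) := by
        rw [← Real.exp_add]; congr 1
      rw [h9]
      nlinarith [Real.exp_pos (1 : ℝ)]
    have h7 : (2.717 : ℝ) < x / x₁ := lt_of_lt_of_le h6 h5
    rw [lt_div_iff₀ hx10] at h7
    rw [lt_div_iff₀ (by norm_num)]
    linarith

theorem win (hP : Stmt_PAIRG) : Final_W := by
  obtain ⟨K, hK, hP⟩ := hP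
  intro C D G hD
  obtain ⟨x₀, hx₀⟩ := hP G
  refine ⟨C * x₀ + K * C * (K * C * (K * C).factorial + D) + 1, ?_⟩
  rintro S hpos ⟨z, hz⟩ X hX hmax x hxX hXx
  have hx1 : x₀ ≤ x := by
    by_contra hcon
    push Not at hcon
    have : C * x ≤ C * x₀ := Nat.mul_le_mul_left _ hcon.le
    omega
  obtain ⟨M, hMG, hM⟩ := hx₀ x hx1
  have hbig : ∀ p : ℕ, x ≤ K * p → X ≤ K * C * p ∧ K * C * (K * C).factorial < p ∧ D < p := by
    intro p h
    have h1 : X ≤ K * C * p := by
      calc X ≤ C * x := hXx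
        _ ≤ C * (K * p) := Nat.mul_le_mul_left _ h
        _ = K * C * p := by ring
    have h2 : K * C * (K * C * (K * C).factorial + D) < K * C * p := by omega
    have h3 := Nat.lt_of_mul_lt_mul_left h2
    exact ⟨h1, by omega, by omega⟩
  refine hMG.trans (Finset.card_le_card ?_)
  intro m hm
  obtain ⟨p, q, hp, hq, hpm, hqm, hKp, hKq, hm1, hm2⟩ := hM m hm
  have hm2' : m + 1 < x := by exact_mod_cast hm2
  rw [mem_filter, mem_range]
  refine ⟨by omega, hm1, hm2', ?_, ?_⟩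
  · intro h
    obtain ⟨b1, b2, b3⟩ := hbig p hKp
    exact no_prime hpos hD hz hmax hp b1 b2 b3 h hpm
  · intro h
    obtain ⟨b1, b2, b3⟩ := hbig q hKq
    exact no_prime hpos hD hz hmax hq b1 b2 b3 h hqm

theorem fin (hW : Final_W) : Final_G := by
  intro D G hD
  obtain ⟨X₀, hX₀⟩ := hW 1 D (G + 1) hD
  set X : ℕ := max X₀ 27171 with hX
  refine Set.Finite.subset (Finset.finite_toSet (Finset.range X).powerset) ?_
  rintro S ⟨-, hpos, hsum, hz, hG⟩
  rw [Finset.mem_coe, Finset.mem_powerset]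
  by_contra hcon
  rw [Finset.not_subset] at hcon
  obtain ⟨z₀, hz₀, hz₀X⟩ := hcon
  rw [Finset.mem_range, not_lt] at hz₀X
  have hne : S.Nonempty := ⟨z₀, hz₀⟩
  set x := S.max' hne with hx
  set x₁ := S.min' hne with hx₁
  have hxS : x ∈ S := S.max'_mem hne
  have hx₁S : x₁ ∈ S := S.min'_mem hne
  have hmax : ∀ y ∈ S, y ≤ x := fun y hy => S.le_max' y hy
  have hmin : ∀ y ∈ S, x₁ ≤ y := fun y hy => S.min'_le y hy
  have hxX : X ≤ x := hz₀X.trans (hmax _ hz₀)
  have hx1 : X₀ ≤ x := le_trans (le_max_left _ _) hxX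
  have hx2 : 27171 ≤ x := le_trans (le_max_right _ _) hxX
  have h1 := hX₀ S hpos hz x hx1 hmax x le_rfl (by omega)
  have hfin : {m : ℕ | m ∉ S ∧ m + 1 ∉ S ∧ (∃ x ∈ S, x < m) ∧ ∃ y ∈ S, m + 1 < y}.Finite := by
    refine (Set.finite_Iio x).subset ?_
    rintro m ⟨-, -, -, y, hy, hmy⟩
    have := hmax y hy
    rw [Set.mem_Iio]
    omega
  have h2 : (((Finset.range x).filter fun m : ℕ => (x : ℝ) / 2.717 < m ∧ m + 1 < x ∧ m ∉ S ∧ m + 1 ∉ S : Finset ℕ) : Set ℕ) ⊆
      {m : ℕ | m ∉ S ∧ m + 1 ∉ S ∧ (∃ x ∈ S, x < m) ∧ ∃ y ∈ S, m + 1 < y} := by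
    intro m hm
    rw [Finset.mem_coe, mem_filter] at hm
    obtain ⟨-, hm1, hm2, hm3, hm4⟩ := hm
    have hlt : (x₁ : ℝ) < m := (min_small hpos hsum hx₁S hmin hmax (by omega)).trans hm1
    exact ⟨hm3, hm4, ⟨x₁, hx₁S, by exact_mod_cast hlt⟩, x, hxS, hm2⟩
  have h3 := Set.ncard_le_ncard h2 hfin
  rw [Set.ncard_coe_finset] at h3
  omega

end REDG_

theorem stmt_REDG : Stmt_REDG := fun hP => ⟨REDG_.win hP, REDG_.fin (REDG_.win hP)⟩

end Pool.Agent.GapTwo
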