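import Pool.Agent.Work.MP_1ea053_nt.Main
import Pool.Agent.Work.MP_1ea053_nt.PAIRG
import Pool.Agent.Work.MP_1ea053_nt.REDG
import Pool.Agent.Work.MP_1ea053_nt.MISS

/-!
# MP_1ea053_nt: assembly of the theorem on the total excess of the gaps
-/

set_option autoImplicit false

namespace Pool.Agent.GapTwo

/-- At least `G` pairs of consecutive integers with huge prime factors in every window of ratio `2.717`. -/
theorem pairG : Stmt_PAIRG := stmt_PAIRGD core stmt_FORMS stmt_COMB

theorem finalG : Final_W ∧ Final_G := stmt_REDG pairG

end Pool.Agent.GapTwo
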