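import Pool.Agent.Work.MP_1ea053_nt.Interface
import Pool.Agent.Work.LinearSieve.Basic

set_option autoImplicit false

namespace Pool.Agent.GapTwo.ROSA_

open Finset Filter Pool.Agent.GapTwo
open scoped Classical Topology

/-- The sieve functional as a sum over sets. -/
noncomputable def Phi (P : Finset ℕ) (v : ℕ → ℝ) (z : ℕ) (s : Bool) (D : ℝ)
    (φ : Multiset ℕ → ℝ) : ℝ :=
  ∑ T ∈ (P.filter (· < z)).powerset,
    if okL v s D (T.sort (· ≥ ·)) then (-1) ^ T.card * φ T.val else 0

lemma sort_insert_lt (P : Finset ℕ) (z : ℕ) (T : Finset ℕ)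
    (hT : T ∈ (P.filter (· < z)).powerset) :
    (insert z T).sort (· ≥ ·) = z :: T.sort (· ≥ ·) := by
  apply Finset.sort_insert
  · intro b hb
    have := mem_powerset.1 hT hb
    simp at this
    exact this.2.le
  · intro h
    have := mem_powerset.1 hT h
    simp at this

lemma Phi_zero (P : Finset ℕ) (v : ℕ → ℝ) (s : Bool) (D : ℝ) (φ : Multiset ℕ → ℝ) :
    Phi P v 0 s D φ = φ 0 := by
  unfold Phi
  have : P.filter (· < 0) = ∅ := by
    apply filter_false_of_mem
    intro x _
    omega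
  rw [this]
  simp [okL]

lemma Phi_succ (P : Finset ℕ) (v : ℕ → ℝ) (z : ℕ) (s : Bool) (D : ℝ) (φ : Multiset ℕ → ℝ) :
    Phi P v (z + 1) s D φ = Phi P v z s D φ -
      if z ∈ P ∧ (s = true → (v z) ^ 3 < D) then
        Phi P v z (!s) (D / v z) (fun m => φ (z ::ₘ m)) else 0 := by
  by_cases hz : z ∈ P
  · unfold Phi
    rw [LinearSieve.filter_lt_succ_of_mem P z hz, sum_powerset_insert (by simp)]
    have key : ∑ T ∈ (P.filter (· < z)).powerset,
        (if okL v s D ((insert z T).sort (· ≥ ·)) then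
          (-1 : ℝ) ^ (insert z T).card * φ (insert z T).val else 0)
        = - if z ∈ P ∧ (s = true → (v z) ^ 3 < D) then
          ∑ T ∈ (P.filter (· < z)).powerset,
            (if okL v (!s) (D / v z) (T.sort (· ≥ ·)) then
              (-1 : ℝ) ^ T.card * φ (z ::ₘ T.val) else 0) else 0 := by
      by_cases hc : (s = true → (v z) ^ 3 < D)
      · rw [if_pos ⟨hz, hc⟩, ← sum_neg_distrib]
        refine sum_congr rfl fun T hT => ?_
        have hzT : z ∉ T := by
          intro h
          have := mem_powerset.1 hT h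
          simp at this
        rw [sort_insert_lt P z T hT, card_insert_of_notMem hzT, insert_val_of_notMem hzT]
        have e : okL v s D (z :: T.sort (· ≥ ·)) ↔ okL v (!s) (D / v z) (T.sort (· ≥ ·)) := by
          cases s with
          | true =>
            simp only [okL, Bool.not_true]
            exact ⟨fun h => h.2, fun h => ⟨hc rfl, h⟩⟩
          | false => simp only [okL, Bool.not_false]
        by_cases h : okL v (!s) (D / v z) (T.sort (· ≥ ·))
        · rw [if_pos h, if_pos (e.2 h)]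
          ring
        · rw [if_neg h, if_neg (fun h' => h (e.1 h')), neg_zero]
      · rw [if_neg (fun h => hc h.2), neg_zero]
        apply sum_eq_zero
        intro T hT
        rw [sort_insert_lt P z T hT]
        rw [if_neg]
        intro h
        apply hc
        intro hs
        subst hs
        exact h.1
    rw [key]
    ring
  · rw [if_neg (fun h => hz h.1), sub_zero]
    unfold Phi
    rw [LinearSieve.filter_lt_succ_of_notMem P z hz]

/-- Comparison with the library functional. -/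
lemma Phi_eq_M (P : Finset ℕ) (z : ℕ) : ∀ (s : Bool) (D : ℝ) (φ : Multiset ℕ → ℝ),
    Phi P (fun p => (p : ℝ)) z s D φ = LinearSieve.M P z s D φ := by
  induction z with
  | zero => intro s D φ; rw [Phi_zero]; rfl
  | succ z ih =>
    intro s D φ
    rw [Phi_succ]
    simp only [LinearSieve.M]
    rw [ih, ih]

/-- The sieve inequalities. -/
lemma Phi_bounds (P : Finset ℕ) (v : ℕ → ℝ) (z : ℕ) : ∀ D : ℝ,
    (if P.filter (· < z) = ∅ then (1 : ℝ) else 0) ≤ Phi P v z true D (fun _ => 1) ∧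
    Phi P v z false D (fun _ => 1) ≤ (if P.filter (· < z) = ∅ then (1 : ℝ) else 0) := by
  induction z with
  | zero =>
    intro D
    have : P.filter (· < 0) = ∅ := by
      apply filter_false_of_mem
      intro x _
      omega
    rw [this, Phi_zero, Phi_zero]
    simp
  | succ z ih =>
    intro D
    by_cases hz : z ∈ P
    · have hne : P.filter (· < z + 1) ≠ ∅ := by
        rw [LinearSieve.filter_lt_succ_of_mem P z hz]
        exact insert_ne_empty _ _
      rw [if_neg hne, Phi_succ, Phi_succ]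
      have h1 := ih D
      have h2 := ih (D / v z)
      simp only [Bool.not_true, Bool.not_false]
      constructor
      · split_ifs at h1 h2 ⊢ <;> linarith
      · rw [if_pos ⟨hz, by simp⟩]
        split_ifs at h1 h2 ⊢ <;> linarith
    · have e1 : Phi P v (z + 1) true D (fun _ => 1) = Phi P v z true D (fun _ => 1) := by
        rw [Phi_succ, if_neg (fun h => hz h.1), sub_zero]
      have e2 : Phi P v (z + 1) false D (fun _ => 1) = Phi P v z false D (fun _ => 1) := by
        rw [Phi_succ, if_neg (fun h => hz h.1), sub_zero]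
      rw [LinearSieve.filter_lt_succ_of_notMem P z hz, e1, e2]
      exact ih D

/-- Size of the products. -/
lemma okL_prod (v : ℕ → ℝ) (l : List ℕ) : ∀ D : ℝ, (∀ x ∈ l, 2 ≤ v x) →
    (l.Pairwise fun x y => v y ≤ v x) →
    (1 < D → okL v true D l → (l.map v).prod < D) ∧
    (1 < D → (∀ x ∈ l, v x ^ 2 < D) → okL v false D l → (l.map v).prod < D) := by
  induction l with
  | nil =>
    intro D _ _
    simp [okL]
  | cons p l ih =>
    intro D h2 hp
    rw [List.pairwise_cons] at hp
    have h2p : 2 ≤ v p := h2 p (by simp)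
    have hp0 : 0 < v p := by linarith
    have ih' := ih (D / v p) (fun x hx => h2 x (by simp [hx])) hp.2
    simp only [okL, List.map_cons, List.prod_cons]
    constructor
    · rintro hD ⟨h3, hok⟩
      have hsq : v p ^ 2 < D / v p := by
        rw [lt_div_iff₀ hp0]
        calc v p ^ 2 * v p = v p ^ 3 := by ring
          _ < D := h3
      have h1 : 1 < D / v p := by nlinarith
      have := ih'.2 h1 (fun x hx => by
        have hx1 := hp.1 x hx
        have hx2 := h2 x (by simp [hx])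
        calc v x ^ 2 ≤ v p ^ 2 := by gcongr
          _ < D / v p := hsq) hok
      rw [lt_div_iff₀ hp0] at this
      linarith
    · rintro hD hsq hok
      have h1 : 1 < D / v p := by
        have := hsq p (by simp)
        rw [lt_div_iff₀ hp0]
        nlinarith
      have := ih'.1 h1 hok
      rw [lt_div_iff₀ hp0] at this
      linarith

lemma sort_pairwise (P : Finset ℕ) (v : ℕ → ℝ) (hv : ∀ p ∈ P, ∀ q ∈ P, p ≤ q → v p ≤ v q)
    (T : Finset ℕ) (hT : T ⊆ P) : (T.sort (· ≥ ·)).Pairwise fun x y => v y ≤ v x := by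
  have h := Finset.pairwise_sort T (· ≥ ·)
  refine List.Pairwise.imp_of_mem ?_ h
  intro a b ha hb hab
  exact hv b (hT ((Finset.mem_sort _).1 hb)) a (hT ((Finset.mem_sort _).1 ha)) hab

lemma map_sort_prod (v : ℕ → ℝ) (T : Finset ℕ) :
    ((T.sort (· ≥ ·)).map v).prod = ∏ p ∈ T, v p := by
  have h : ((T.sort (· ≥ ·) : List ℕ) : Multiset ℕ) = T.val := Finset.sort_eq T (· ≥ ·)
  have : ∏ p ∈ T, v p = (T.val.map v).prod := rfl
  rw [this, ← h, Multiset.map_coe, Multiset.prod_coe]

/-- The value at a product of primes. -/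
lemma rw'_prod (P : Finset ℕ) (v : ℕ → ℝ) (D : ℝ) (hP : ∀ p ∈ P, p.Prime) (T : Finset ℕ)
    (hT : T ⊆ P) : rw' P v D (∏ p ∈ T, p) =
      if okL v true D (T.sort (· ≥ ·)) then (-1) ^ T.card else 0 := by
  have hpf : (∏ p ∈ T, p).primeFactors = T := Nat.primeFactors_prod fun p hp => hP p (hT hp)
  have hsq : Squarefree (∏ p ∈ T, p) := by
    refine Finset.squarefree_prod_of_pairwise_isCoprime (fun p hp q hq hpq => ?_)
      (fun p hp => (hP p (hT hp)).squarefree)
    exact Nat.coprime_iff_isRelPrime.1 ((Nat.coprime_primes (hP p (hT hp)) (hP q (hT hq))).2 hpq)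
  unfold rw'
  rw [hpf]
  by_cases h : okL v true D (T.sort (· ≥ ·))
  · rw [if_pos h, if_pos ⟨hsq, hT, h⟩]
  · rw [if_neg h, if_neg (fun h' => h h'.2.2)]

lemma rw'_ne (P : Finset ℕ) (v : ℕ → ℝ) (D : ℝ) (d : ℕ) (h : rw' P v D d ≠ 0) :
    Squarefree d ∧ d.primeFactors ⊆ P ∧ okL v true D (d.primeFactors.sort (· ≥ ·)) := by
  unfold rw' at h
  by_contra hc
  exact h (if_neg hc)

lemma gg_eq (P : Finset ℕ) (v : ℕ → ℝ) (D : ℝ) (hP : ∀ p ∈ P, p.Prime) (m : ℕ) (hm : 0 < m) :
    gg (rw' P v D) m = ∑ T ∈ (P ∩ m.primeFactors).powerset, rw' P v D (∏ p ∈ T, p) := by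
  unfold gg
  rw [← sum_filter_ne_zero]
  symm
  rw [← sum_filter_ne_zero]
  refine sum_bij' (fun T _ => ∏ p ∈ T, p) (fun d _ => d.primeFactors) ?_ ?_ ?_ ?_ ?_
  · intro T hT
    rw [mem_filter, mem_powerset] at hT
    rw [mem_filter, Nat.mem_divisors]
    refine ⟨⟨?_, hm.ne'⟩, hT.2⟩
    have h1 : ∏ p ∈ T, p ∣ ∏ p ∈ m.primeFactors, p :=
      prod_dvd_prod_of_subset _ _ _ (hT.1.trans inter_subset_right)
    exact h1.trans (Nat.prod_primeFactors_dvd m)
  · intro d hd
    rw [mem_filter, Nat.mem_divisors] at hd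
    obtain ⟨⟨hd1, _⟩, hd2⟩ := hd
    obtain ⟨h1, h2, h3⟩ := rw'_ne P v D d hd2
    rw [mem_filter, mem_powerset]
    refine ⟨?_, ?_⟩
    · exact subset_inter h2 (Nat.primeFactors_mono hd1 hm.ne')
    · rw [Nat.prod_primeFactors_of_squarefree h1]
      exact hd2
  · intro T hT
    rw [mem_filter, mem_powerset] at hT
    exact Nat.primeFactors_prod fun p hp => hP p (mem_inter.1 (hT.1 hp)).1
  · intro d hd
    rw [mem_filter] at hd
    exact Nat.prod_primeFactors_of_squarefree (rw'_ne P v D d hd.2).1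
  · intro T _
    rfl

lemma exists_bound (P : Finset ℕ) : ∃ z : ℕ, ∀ p ∈ P, p < z :=
  ⟨P.sup id + 1, fun p hp => Nat.lt_succ_of_le (le_sup (f := id) hp)⟩

lemma gg_nonneg (P : Finset ℕ) (v : ℕ → ℝ) (D : ℝ) (hP : ∀ p ∈ P, p.Prime) (m : ℕ) (hm : 0 < m) :
    0 ≤ gg (rw' P v D) m := by
  rw [gg_eq P v D hP m hm]
  obtain ⟨z, hz⟩ := exists_bound (P ∩ m.primeFactors)
  have h := (Phi_bounds (P ∩ m.primeFactors) v z D).1
  have hf : (P ∩ m.primeFactors).filter (· < z) = P ∩ m.primeFactors :=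
    filter_true_of_mem hz
  have : ∑ T ∈ (P ∩ m.primeFactors).powerset, rw' P v D (∏ p ∈ T, p) =
      Phi (P ∩ m.primeFactors) v z true D (fun _ => 1) := by
    unfold Phi
    rw [hf]
    refine sum_congr rfl fun T hT => ?_
    rw [rw'_prod P v D hP T ((mem_powerset.1 hT).trans inter_subset_left), mul_one]
  rw [this]
  refine le_trans ?_ h
  split_ifs <;> norm_num

lemma prod_lt (P : Finset ℕ) (v : ℕ → ℝ) (D : ℝ) (hP : ∀ p ∈ P, p.Prime) (hD : 1 < D)
    (hv : ∀ p ∈ P, (p : ℝ) ≤ v p) (hm : ∀ p ∈ P, ∀ q ∈ P, p ≤ q → v p ≤ v q) (d : ℕ)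
    (h : rw' P v D d ≠ 0) : ∏ p ∈ d.primeFactors, v p < D := by
  obtain ⟨h1, h2, h3⟩ := rw'_ne P v D d h
  rw [← map_sort_prod]
  refine (okL_prod v _ D ?_ (sort_pairwise P v hm _ h2)).1 hD h3
  intro x hx
  have hx' := h2 ((Finset.mem_sort _).1 hx)
  have h2x : (2 : ℝ) ≤ x := by exact_mod_cast (hP x hx').two_le
  exact h2x.trans (hv x hx')

lemma lt_of_ne (P : Finset ℕ) (v : ℕ → ℝ) (D : ℝ) (hP : ∀ p ∈ P, p.Prime) (hD : 1 < D)
    (hv : ∀ p ∈ P, (p : ℝ) ≤ v p) (hm : ∀ p ∈ P, ∀ q ∈ P, p ≤ q → v p ≤ v q) (d : ℕ)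
    (h : rw' P v D d ≠ 0) : (d : ℝ) < D := by
  obtain ⟨h1, h2, h3⟩ := rw'_ne P v D d h
  refine lt_of_le_of_lt ?_ (prod_lt P v D hP hD hv hm d h)
  have e : (d : ℝ) = ∏ p ∈ d.primeFactors, (p : ℝ) := by
    conv_lhs => rw [← Nat.prod_primeFactors_of_squarefree h1]
    push_cast
    rfl
  rw [e]
  exact prod_le_prod (fun _ _ => Nat.cast_nonneg _) fun p hp => hv p (h2 hp)

end Pool.Agent.GapTwo.ROSA_

namespace Pool.Agent.GapTwo

open Finset Filter
open scoped Classical Topology

/-- Block ROSA. -/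
theorem stmt_ROSA : Stmt_ROSA := by
  intro P v D hP hD hv hm
  refine ⟨?_, ?_, ?_, ?_, ?_, ?_⟩
  · unfold rw'
    rw [if_pos]
    · simp
    · refine ⟨squarefree_one, by simp, ?_⟩
      simp [okL]
  · intro d
    unfold rw'
    split_ifs
    · simp
    · simp
  · exact fun d h => ROSA_.lt_of_ne P v D hP hD hv hm d h
  · exact fun d h => ROSA_.prod_lt P v D hP hD hv hm d h
  · exact fun m hm' => ROSA_.gg_nonneg P v D hP m hm'
  · intro z hz g
    rw [← ROSA_.Phi_eq_M]
    unfold ROSA_.Phi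
    rw [filter_true_of_mem hz]
    refine sum_congr rfl fun T hT => ?_
    rw [ROSA_.rw'_prod P _ D hP T (mem_powerset.1 hT), LinearSieve.GG_val]
    split_ifs <;> simp

end Pool.Agent.GapTwo
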