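import Pool.Agent.Work.MP_1ea053_nt.MainG

/-!
# The case `D = 1`, `G = 0` of the theorem on the total excess: only finitely many solutions have all gaps at most `2`
-/

set_option autoImplicit false

namespace Pool.Agent.GapTwo

theorem excess_finite (D G : ℕ) (hD : 0 < D) : {S : Finset ℕ | 2 ≤ S.card ∧ (∀ x ∈ S, 0 < x) ∧
    1 ≤ ∑ x ∈ S, (1 : ℚ) / x ∧ (∃ z : ℕ, (D : ℚ) * ∑ x ∈ S, (1 : ℚ) / x = z) ∧
    ∑ x ∈ S, ∑ y ∈ S.filter (fun y => x < y ∧ ∀ z ∈ S, z ≤ x ∨ y ≤ z), (y - x - 2) ≤ G}.Finite := by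
  refine (finalG.2 D G hD).subset ?_
  rintro S ⟨h1, h2, h3, h4, h5⟩
  exact ⟨h1, h2, h3, h4, (miss_le S).trans h5⟩

/-- The earlier hand-in FinitelyManyGapTwo, deduced from the case `D = 1`, `G = 0`. -/
theorem finitelyManyGapTwo : {S : Finset ℕ | 2 ≤ S.card ∧ (∀ x ∈ S, 0 < x) ∧ ∑ x ∈ S, (1 : ℚ) / x = 1 ∧
    ∀ x ∈ S, ∀ y ∈ S, x < y → (∀ z ∈ S, z ≤ x ∨ y ≤ z) → y ≤ x + 2}.Finite := by
  refine (excess_finite 1 0 one_pos).subset ?_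
  rintro S ⟨h1, h2, h3, h4⟩
  refine ⟨h1, h2, h3.ge, ⟨1, by rw [h3]; norm_num⟩, ?_⟩
  apply le_of_eq
  apply Finset.sum_eq_zero
  intro x hx
  apply Finset.sum_eq_zero
  intro y hy
  have h5 := Finset.mem_filter.1 hy
  have := h4 x hx y h5.1 h5.2.1 h5.2.2
  omega

end Pool.Agent.GapTwo
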