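import Pool.Agent.Work.MP_1ea053_nt.Interface

/-!
# Block T1: the sum of a polynomial over an arithmetic progression
-/

set_option autoImplicit false

namespace Pool.Agent.GapTwo.T1_

open Finset Filter
open scoped Classical Topology

lemma floor_aux (x : ℝ) (hx : 0 ≤ x) (r v : ℕ) (hr : 0 < r) :
    ((⌊(((⌊x⌋₊ : ℕ) : ℚ) - (v : ℚ)) / (r : ℚ)⌋ : ℤ) : ℝ) ≤ (x - v) / r ∧
      (x - v) / r < ((⌊(((⌊x⌋₊ : ℕ) : ℚ) - (v : ℚ)) / (r : ℚ)⌋ : ℤ) : ℝ) + 1 := by
  set β : ℤ := ⌊(((⌊x⌋₊ : ℕ) : ℚ) - (v : ℚ)) / (r : ℚ)⌋ with hβ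
  have hr' : (0 : ℚ) < r := by exact_mod_cast hr
  have hr'' : (0 : ℝ) < r := by exact_mod_cast hr
  have h1 : (β : ℚ) ≤ (((⌊x⌋₊ : ℕ) : ℚ) - (v : ℚ)) / (r : ℚ) := Int.floor_le _
  have h2 : (((⌊x⌋₊ : ℕ) : ℚ) - (v : ℚ)) / (r : ℚ) < β + 1 := Int.lt_floor_add_one _
  rw [le_div_iff₀ hr'] at h1
  rw [div_lt_iff₀ hr'] at h2
  have h1' : β * (r : ℤ) ≤ (⌊x⌋₊ : ℤ) - v := by exact_mod_cast h1
  have h2' : (⌊x⌋₊ : ℤ) - v < (β + 1) * r := by exact_mod_cast h2
  have h3 : ((β * (r : ℤ) : ℤ) : ℝ) ≤ (((⌊x⌋₊ : ℤ) - v : ℤ) : ℝ) := by exact_mod_cast h1'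
  have h4 : (((⌊x⌋₊ : ℤ) - v + 1 : ℤ) : ℝ) ≤ (((β + 1) * r : ℤ) : ℝ) := by exact_mod_cast h2'
  push_cast at h3 h4
  have h5 : ((⌊x⌋₊ : ℕ) : ℝ) ≤ x := Nat.floor_le hx
  have h6 : x < ((⌊x⌋₊ : ℕ) : ℝ) + 1 := Nat.lt_floor_add_one x
  constructor
  · rw [le_div_iff₀ hr'']
    linarith
  · rw [div_lt_iff₀ hr'']
    linarith

/-- integers of an interval in a residue class -/
lemma count_ap (N κ : ℝ) (hN : 0 ≤ N) (hκ : 0 ≤ κ) (M v : ℕ) (hM : 0 < M) :
    |(((II N κ).filter (fun n => n ≡ v [MOD M])).card : ℝ) - κ * N / M| ≤ 1 := by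
  have hN2 : N ≤ (1 + κ) * N := by nlinarith
  have hM' : (0 : ℝ) < M := by exact_mod_cast hM
  have h0 := Nat.Ioc_filter_modEq_card ⌊N⌋₊ ⌊(1 + κ) * N⌋₊ hM v
  have h1 := floor_aux N hN M v hM
  have h2 := floor_aux ((1 + κ) * N) (by linarith) M v hM
  set α : ℤ := ⌊(((⌊N⌋₊ : ℕ) : ℚ) - (v : ℚ)) / (M : ℚ)⌋ with hα
  set β : ℤ := ⌊(((⌊(1 + κ) * N⌋₊ : ℕ) : ℚ) - (v : ℚ)) / (M : ℚ)⌋ with hβ
  have hαβ : α ≤ β := by
    rw [hα, hβ]
    apply Int.floor_le_floor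
    have hM'' : (0 : ℚ) < M := by exact_mod_cast hM
    apply div_le_div_of_nonneg_right _ hM''.le
    have : ((⌊N⌋₊ : ℕ) : ℚ) ≤ ((⌊(1 + κ) * N⌋₊ : ℕ) : ℚ) := by
      exact_mod_cast Nat.floor_le_floor hN2
    linarith
  have h3 : ((((II N κ).filter (fun n => n ≡ v [MOD M])).card : ℕ) : ℤ) = β - α := by
    unfold II
    have h4 : max (β - α) 0 = β - α := max_eq_left (by omega)
    rw [← h4, ← h0]
  have h5 : (((II N κ).filter (fun n => n ≡ v [MOD M])).card : ℝ) = β - α := by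
    exact_mod_cast h3
  rw [h5]
  have h6 : κ * N / M = ((1 + κ) * N - v) / M - (N - v) / M := by
    field_simp
    ring
  rw [h6, abs_le]
  constructor <;> linarith [h1.1, h1.2, h2.1, h2.2]

lemma Cons.mono {ι : Type} {T T' : Finset (ℕ × ι)} (h : Cons T') (hT : T ⊆ T') : Cons T :=
  fun x hx y hy he => h x (hT hx) y (hT hy) he

lemma sz_insert {ι : Type} (T : Finset (ℕ × ι)) (x : ℕ × ι) (hx : x ∉ T) :
    sz (insert x T) = x.1 * sz T := by
  unfold sz
  rw [prod_insert hx]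

/-- one event is one residue class -/
lemma one_event (p a : ℕ) (hp : p.Prime) (ha : ¬ p ∣ a) :
    ∃ r : ℕ, ∀ n : ℕ, p ∣ a * n + 1 ↔ n ≡ r [MOD p] := by
  have : Fact p.Prime := ⟨hp⟩
  have ha0 : (a : ZMod p) ≠ 0 := by
    rw [Ne, ZMod.natCast_eq_zero_iff]
    exact ha
  refine ⟨(-(a : ZMod p)⁻¹).val, fun n => ?_⟩
  rw [← ZMod.natCast_eq_zero_iff, ← ZMod.natCast_eq_natCast_iff, ZMod.natCast_zmod_val]
  push_cast
  constructor
  · intro h
    have h1 : (a : ZMod p) * n = -1 := by linear_combination h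
    calc (n : ZMod p) = (a : ZMod p)⁻¹ * ((a : ZMod p) * n) := by
          rw [← mul_assoc, inv_mul_cancel₀ ha0, one_mul]
      _ = -(a : ZMod p)⁻¹ := by rw [h1]; ring
  · intro h
    rw [h, mul_neg, mul_inv_cancel₀ ha0]
    ring

lemma coprime_sz {ι : Type} (T : Finset (ℕ × ι)) (m : ℕ) (hT : ∀ x ∈ T, x.1.Prime)
    (h : ∀ x ∈ T, ¬ x.1 ∣ m) : (sz T).Coprime m := by
  unfold sz
  apply Nat.Coprime.prod_left
  intro x hx
  exact (Nat.Prime.coprime_iff_not_dvd (hT x hx)).2 (h x hx)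

/-- a consistent set of events is one residue class modulo `sz T` -/
lemma crt {ι : Type} (a : ι → ℕ) (T : Finset (ℕ × ι)) (hT : ∀ x ∈ T, x.1.Prime ∧ ¬ x.1 ∣ a x.2)
    (hC : Cons T) : ∃ b : ℕ, ∀ n : ℕ, (∀ x ∈ T, x.1 ∣ a x.2 * n + 1) ↔ n ≡ b [MOD sz T] := by
  induction T using Finset.induction_on with
  | empty =>
    refine ⟨0, fun n => ?_⟩
    simp [sz, Nat.modEq_one]
  | insert x T hx ih =>
    obtain ⟨b, hb⟩ := ih (fun y hy => hT y (mem_insert_of_mem hy))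
      (Cons.mono hC (subset_insert _ _))
    obtain ⟨r, hr⟩ := one_event x.1 (a x.2) (hT x (mem_insert_self _ _)).1
      (hT x (mem_insert_self _ _)).2
    have hxp := (hT x (mem_insert_self _ _)).1
    have hcop : x.1.Coprime (sz T) := by
      unfold sz
      apply Nat.Coprime.prod_right
      intro y hy
      rw [Nat.coprime_primes hxp (hT y (mem_insert_of_mem hy)).1]
      intro he
      have := hC x (mem_insert_self _ _) y (mem_insert_of_mem hy) he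
      exact hx (this ▸ hy)
    obtain ⟨b', h1, h2⟩ := Nat.chineseRemainder hcop r b
    refine ⟨b', fun n => ?_⟩
    rw [sz_insert T x hx, ← Nat.modEq_and_modEq_iff_modEq_mul hcop]
    constructor
    · intro h
      have h3 := (hr n).1 (h x (mem_insert_self _ _))
      have h4 := (hb n).1 fun y hy => h y (mem_insert_of_mem hy)
      exact ⟨h3.trans h1.symm, h4.trans h2.symm⟩
    · rintro ⟨h3, h4⟩ y hy
      rw [mem_insert] at hy
      rcases hy with rfl | hy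
      · exact (hr n).2 (h3.trans h1)
      · exact (hb n).2 (h4.trans h2) y hy

/-- sets which are not consistent never occur -/
lemma not_cons {ι : Type} (a : ι → ℕ) (X T : Finset (ℕ × ι)) (hA : Adm a X) (hT : T ⊆ X)
    (hC : ¬ Cons T) (n : ℕ) : ¬ T ⊆ ev a X n := by
  intro h
  apply hC
  intro x hx y hy he
  by_contra hne
  have h1 := (mem_filter.1 (h hx)).2
  have h2 := (mem_filter.1 (h hy)).2
  obtain ⟨hp, _, hd⟩ := hA x (hT hx)
  have hl : x.2 ≠ y.2 := fun h => hne (Prod.ext he h)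
  rw [← he] at h2
  have h3 : (x.1 : ℤ) ∣ ((a x.2 : ℤ) - a y.2) * n := by
    have h4 : (x.1 : ℤ) ∣ ((a x.2 * n + 1 : ℕ) : ℤ) := Int.natCast_dvd_natCast.2 h1
    have h5 : (x.1 : ℤ) ∣ ((a y.2 * n + 1 : ℕ) : ℤ) := Int.natCast_dvd_natCast.2 h2
    have := dvd_sub h4 h5
    push_cast at this
    have e : ((a x.2 : ℤ) - a y.2) * n = (a x.2 : ℤ) * n + 1 - ((a y.2 : ℤ) * n + 1) := by ring
    rw [e]; exact this
  have hp' : Prime (x.1 : ℤ) := Nat.prime_iff_prime_int.1 hp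
  rcases hp'.dvd_or_dvd h3 with h4 | h4
  · exact hd x.2 y.2 hl h4
  · have h5 : x.1 ∣ n := Int.natCast_dvd_natCast.1 h4
    have h6 : x.1 ∣ 1 := by
      have := (Nat.dvd_sub h1 (h5.mul_left (a x.2)))
      simpa using this
    exact hp.one_lt.ne' (Nat.dvd_one.1 h6)

/-- swapping the sums -/
lemma sum_poly {ι : Type} (a : ι → ℕ) (X : Finset (ℕ × ι)) (c : Finset (ℕ × ι) → ℝ)
    (I : Finset ℕ) : ∑ n ∈ I, poly c (ev a X n) =
      ∑ T ∈ X.powerset, c T * ((I.filter fun n => T ⊆ ev a X n).card : ℝ) := by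
  have h1 : ∀ n ∈ I, poly c (ev a X n) = ∑ T ∈ X.powerset, if T ⊆ ev a X n then c T else 0 := by
    intro n _
    unfold poly
    rw [← sum_filter]
    apply sum_congr _ fun _ _ => rfl
    ext T
    rw [mem_powerset, mem_filter, mem_powerset]
    constructor
    · intro h
      exact ⟨h.trans (filter_subset _ _), h⟩
    · exact fun h => h.2
  rw [sum_congr rfl h1, sum_comm]
  refine sum_congr rfl fun T _ => ?_
  rw [← sum_filter, sum_const, nsmul_eq_mul, mul_comm]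

lemma sub_ev {ι : Type} (a : ι → ℕ) (X T : Finset (ℕ × ι)) (hT : T ⊆ X) (n : ℕ) :
    T ⊆ ev a X n ↔ ∀ x ∈ T, x.1 ∣ a x.2 * n + 1 := by
  constructor
  · intro h x hx
    exact (mem_filter.1 (h hx)).2
  · intro h x hx
    exact mem_filter.2 ⟨hT hx, h x hx⟩

end Pool.Agent.GapTwo.T1_

namespace Pool.Agent.GapTwo

open Finset Filter T1_
open scoped Classical Topology

theorem stmt_T1 : Stmt_T1 := by
  intro ι _ a X hA c m b hm hXm N κ hN hκ
  rw [sum_poly]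
  have hm' : (0 : ℝ) < m := by exact_mod_cast hm
  have h1 : κ * N / m * Eloc X c = ∑ T ∈ X.powerset,
      if Cons T then c T * (κ * N / (m * sz T)) else 0 := by
    unfold Eloc
    rw [← sum_filter, mul_sum]
    refine sum_congr rfl fun T _ => ?_
    rw [← div_div]
    ring
  rw [h1, ← sum_sub_distrib]
  refine (abs_sum_le_sum_abs _ _).trans (sum_le_sum fun T hT => ?_)
  rw [mem_powerset] at hT
  by_cases hC : Cons T
  · rw [if_pos hC, ← mul_sub, abs_mul]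
    have hTp : ∀ x ∈ T, x.1.Prime ∧ ¬ x.1 ∣ a x.2 := fun x hx =>
      ⟨(hA x (hT hx)).1, (hA x (hT hx)).2.1 x.2⟩
    obtain ⟨b', hb'⟩ := crt a T hTp hC
    have hcop : m.Coprime (sz T) := (coprime_sz T m (fun x hx => (hTp x hx).1)
      (fun x hx => hXm x (hT hx))).symm
    obtain ⟨v, hv1, hv2⟩ := Nat.chineseRemainder hcop b b'
    have hsz : 0 < sz T := prod_pos fun x hx => (hTp x hx).1.pos
    have h2 : ((II N κ).filter (fun n => n ≡ b [MOD m])).filter (fun n => T ⊆ ev a X n) =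
        (II N κ).filter (fun n => n ≡ v [MOD m * sz T]) := by
      rw [filter_filter]
      apply filter_congr
      intro n _
      rw [sub_ev a X T hT, hb', ← Nat.modEq_and_modEq_iff_modEq_mul hcop]
      constructor
      · rintro ⟨h3, h4⟩
        exact ⟨h3.trans hv1.symm, h4.trans hv2.symm⟩
      · rintro ⟨h3, h4⟩
        exact ⟨h3.trans hv1, h4.trans hv2⟩
    rw [h2]
    have h3 := count_ap N κ hN hκ (m * sz T) v (Nat.mul_pos hm hsz)
    push_cast at h3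
    calc |c T| * _ ≤ |c T| * 1 := mul_le_mul_of_nonneg_left h3 (abs_nonneg _)
      _ = |c T| := mul_one _
  · rw [if_neg hC, sub_zero]
    have h2 : ((II N κ).filter (fun n => n ≡ b [MOD m])).filter (fun n => T ⊆ ev a X n) = ∅ := by
      apply filter_eq_empty_iff.2
      intro n _
      exact not_cons a X T hA hT hC n
    rw [h2, card_empty]
    simp

end Pool.Agent.GapTwo
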