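import Pool.Agent.Work.MP_1ea053_nt.T1

/-!
# Block T2, part 1: combinatorics of the moduli
-/

set_option autoImplicit false

namespace Pool.Agent.GapTwo.T2_

open Finset Filter T1_
open scoped Classical Topology

lemma mem_PR {u v : ℝ} {p : ℕ} : p ∈ PR u v ↔ p.Prime ∧ u ≤ (p : ℝ) ∧ (p : ℝ) < v := by
  unfold PR
  rw [mem_filter, mem_range, Nat.lt_ceil]
  tauto

lemma mem_XX {ι : Type} [Fintype ι] {u v : ℝ} {x : ℕ × ι} :
    x ∈ XX ι u v ↔ x.1.Prime ∧ u ≤ (x.1 : ℝ) ∧ (x.1 : ℝ) < v := by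
  unfold XX
  rw [mem_product, mem_PR]
  simp

lemma dvd_WW {D₀ p : ℕ} (hp : p.Prime) : p ∣ WW D₀ ↔ p < D₀ := by
  unfold WW
  constructor
  · intro h
    rw [hp.prime.dvd_finsetProd_iff] at h
    obtain ⟨q, hq, hpq⟩ := h
    rw [mem_filter, mem_range] at hq
    rw [(Nat.prime_dvd_prime_iff_eq hp hq.2).1 hpq]
    exact hq.1
  · intro h
    exact dvd_prod_of_mem (fun p => p) (mem_filter.2 ⟨mem_range.2 h, hp⟩)

lemma WW_pos (D₀ : ℕ) : 0 < WW D₀ := by
  unfold WW
  exact prod_pos fun p hp => (mem_filter.1 hp).2.pos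

lemma adm_XX {ι : Type} [Fintype ι] (a : ι → ℕ) (D₀ : ℕ) (h0 : ∀ i, 0 < a i)
    (hinj : Function.Injective a) (hD : ∀ i, a i < D₀) (v : ℝ) : Adm a (XX ι D₀ v) := by
  intro x hx
  rw [mem_XX] at hx
  obtain ⟨hp, h1, h2⟩ := hx
  have h1' : D₀ ≤ x.1 := by exact_mod_cast h1
  refine ⟨hp, fun l h => ?_, fun l l' hl h => ?_⟩
  · have := Nat.le_of_dvd (h0 l) h
    have := hD l
    omega
  · have h3 : (a l : ℤ) - a l' ≠ 0 := by
      intro h4
      apply hl
      apply hinj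
      omega
    have h4 := Int.le_of_dvd (abs_pos.2 h3) ((dvd_abs _ _).2 h)
    have h5 := hD l
    have h6 := hD l'
    have h7 : |(a l : ℤ) - a l'| < D₀ := by
      rw [abs_lt]; constructor <;> omega
    omega

lemma totient_sz {ι : Type} (T : Finset (ℕ × ι)) (hT : ∀ x ∈ T, x.1.Prime) (hC : Cons T) :
    ((sz T).totient : ℝ) = ∏ x ∈ T, ((x.1 : ℝ) - 1) := by
  induction T using Finset.induction_on with
  | empty => simp [sz]
  | insert x T hx ih =>
    have hxp := hT x (mem_insert_self _ _)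
    have hcop : x.1.Coprime (sz T) := by
      unfold sz
      apply Nat.Coprime.prod_right
      intro y hy
      rw [Nat.coprime_primes hxp (hT y (mem_insert_of_mem hy))]
      intro he
      have := hC x (mem_insert_self _ _) y (mem_insert_of_mem hy) he
      exact hx (this ▸ hy)
    rw [sz_insert T x hx, Nat.totient_mul hcop, prod_insert hx, Nat.totient_prime hxp]
    rw [← ih (fun y hy => hT y (mem_insert_of_mem hy)) (Cons.mono hC (subset_insert _ _))]
    push_cast [Nat.cast_sub hxp.one_lt.le]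
    ring

lemma totient_aW (D₀ A : ℕ) (hA : 0 < A) (hAD : A < D₀) :
    ((A * WW D₀).totient : ℝ) = A * WW D₀ * ∏ p ∈ PR 2 D₀, (1 - 1 / (p : ℝ)) := by
  have h1 := Nat.totient_eq_mul_prod_factors (A * WW D₀)
  have h2 : (A * WW D₀).primeFactors = PR 2 D₀ := by
    ext p
    rw [Nat.mem_primeFactors, mem_PR]
    constructor
    · rintro ⟨hp, hd, _⟩
      refine ⟨hp, by exact_mod_cast hp.two_le, ?_⟩
      rcases (Nat.Prime.dvd_mul hp).1 hd with h | h
      · have := Nat.le_of_dvd hA h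
        exact_mod_cast (by omega : p < D₀)
      · exact_mod_cast (dvd_WW hp).1 h
    · rintro ⟨hp, _, h⟩
      exact ⟨hp, ((dvd_WW hp).2 (by exact_mod_cast h)).mul_left _,
        (Nat.mul_pos hA (WW_pos D₀)).ne'⟩
  have h3 : (((A * WW D₀).totient : ℚ) : ℝ) =
      ((((A * WW D₀ : ℕ) : ℚ) * ∏ p ∈ (A * WW D₀).primeFactors, (1 - ((p : ℕ) : ℚ)⁻¹) : ℚ) : ℝ) := by
    rw [h1]
  push_cast at h3
  rw [h2] at h3
  rw [h3]
  simp only [one_div]

/-- products with index `l` -/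
noncomputable def mi {ι : Type} (T : Finset (ℕ × ι)) (l : ι) : ℕ :=
  ∏ x ∈ T.filter (fun x => x.2 = l), x.1

lemma mem_of_mi {ι : Type} (T : Finset (ℕ × ι)) (hT : ∀ x ∈ T, x.1.Prime) (x : ℕ × ι) :
    x ∈ T ↔ x.1.Prime ∧ x.1 ∣ mi T x.2 := by
  unfold mi
  constructor
  · intro hx
    exact ⟨hT x hx, dvd_prod_of_mem (fun x : ℕ × ι => x.1) (mem_filter.2 ⟨hx, rfl⟩)⟩
  · rintro ⟨hp, hd⟩
    rw [hp.prime.dvd_finsetProd_iff] at hd
    obtain ⟨y, hy, hxy⟩ := hd
    rw [mem_filter] at hy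
    have h1 := (Nat.prime_dvd_prime_iff_eq hp (hT y hy.1)).1 hxy
    have : x = y := Prod.ext h1 hy.2.symm
    rw [this]; exact hy.1

lemma mi_dvd {ι : Type} (T : Finset (ℕ × ι)) (l : ι) : mi T l ∣ sz T := by
  unfold mi sz
  exact prod_dvd_prod_of_subset _ _ _ (filter_subset _ _)

/-- the number of sets with a given product -/
lemma card_sz {ι : Type} [Fintype ι] (F : Finset (Finset (ℕ × ι))) (m : ℕ) (hm : 0 < m)
    (hF : ∀ T ∈ F, (∀ x ∈ T, x.1.Prime) ∧ sz T = m) :
    F.card ≤ m.divisors.card ^ Fintype.card ι := by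
  have h1 : (Fintype.piFinset fun _ : ι => m.divisors).card = m.divisors.card ^ Fintype.card ι := by
    rw [Fintype.card_piFinset]
    simp
  rw [← h1]
  apply card_le_card_of_injOn mi
  · intro T hT
    have hT' := hF T hT
    simp only [Fintype.coe_piFinset, Set.mem_pi, Set.mem_univ, forall_const]
    intro l
    rw [mem_coe, Nat.mem_divisors]
    exact ⟨hT'.2 ▸ mi_dvd T l, hm.ne'⟩
  · intro T hT T' hT' he
    ext x
    rw [mem_of_mi T (hF T hT).1, mem_of_mi T' (hF T' hT').1, he]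

lemma two_pow_le {ι : Type} (T : Finset (ℕ × ι)) (hT : ∀ x ∈ T, x.1.Prime) (hC : Cons T) :
    2 ^ T.card ≤ (sz T).divisors.card := by
  induction T using Finset.induction_on with
  | empty => simp [sz]
  | insert x T hx ih =>
    have hxp := hT x (mem_insert_self _ _)
    have hcop : x.1.Coprime (sz T) := by
      unfold sz
      apply Nat.Coprime.prod_right
      intro y hy
      rw [Nat.coprime_primes hxp (hT y (mem_insert_of_mem hy))]
      intro he
      have := hC x (mem_insert_self _ _) y (mem_insert_of_mem hy) he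
      exact hx (this ▸ hy)
    rw [sz_insert T x hx, Nat.Coprime.card_divisors_mul hcop, card_insert_of_notMem hx, pow_succ,
      mul_comm, hxp.divisors, card_pair hxp.one_lt.ne]
    exact Nat.mul_le_mul_left _ (ih (fun y hy => hT y (mem_insert_of_mem hy))
      (Cons.mono hC (subset_insert _ _)))

/-- weighted number of sets with a given product -/
lemma weight_sz {ι : Type} [Fintype ι] (F : Finset (Finset (ℕ × ι))) (m q : ℕ) (hm : 0 < m)
    (hq : 0 < q) (hmq : m ∣ q) (c : Finset (ℕ × ι) → ℝ) (C : ℝ) (hC1 : 1 ≤ C) (k : ℕ)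
    (hk : C ≤ 2 ^ k) (hF : ∀ T ∈ F, (∀ x ∈ T, x.1.Prime) ∧ Cons T ∧ sz T = m)
    (hc : ∀ T, |c T| ≤ C ^ (T.card + 1)) :
    ∑ T ∈ F, |c T| ≤ C * (q.divisors.card : ℝ) ^ (Fintype.card ι + k) := by
  have h1 : ∀ T ∈ F, |c T| ≤ C * (q.divisors.card : ℝ) ^ k := by
    intro T hT
    obtain ⟨h2, h3, h4⟩ := hF T hT
    have h5 := two_pow_le T h2 h3
    rw [h4] at h5
    have h6 : m.divisors.card ≤ q.divisors.card := card_le_card (Nat.divisors_subset_of_dvd hq.ne' hmq)
    have h7 : (2 : ℝ) ^ T.card ≤ q.divisors.card := by exact_mod_cast h5.trans h6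
    calc |c T| ≤ C ^ (T.card + 1) := hc T
      _ = C * C ^ T.card := by rw [pow_succ]; ring
      _ ≤ C * (2 ^ k) ^ T.card := by gcongr
      _ = C * (2 ^ T.card) ^ k := by rw [← pow_mul, ← pow_mul, mul_comm k]
      _ ≤ C * (q.divisors.card : ℝ) ^ k := by gcongr
  have h2 := card_sz F m hm fun T hT => ⟨(hF T hT).1, (hF T hT).2.2⟩
  have h6 : m.divisors.card ≤ q.divisors.card := card_le_card (Nat.divisors_subset_of_dvd hq.ne' hmq)
  have h3 : (F.card : ℝ) ≤ (q.divisors.card : ℝ) ^ Fintype.card ι := by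
    exact_mod_cast h2.trans (Nat.pow_le_pow_left h6 _)
  calc ∑ T ∈ F, |c T| ≤ F.card • (C * (q.divisors.card : ℝ) ^ k) := sum_le_card_nsmul _ _ _ h1
    _ = F.card * (C * (q.divisors.card : ℝ) ^ k) := by rw [nsmul_eq_mul]
    _ ≤ (q.divisors.card : ℝ) ^ Fintype.card ι * (C * (q.divisors.card : ℝ) ^ k) := by gcongr
    _ = _ := by rw [pow_add]; ring

end Pool.Agent.GapTwo.T2_
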