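import Pool.Agent.Work.MP_1ea053_nt.T2A

/-!
# Block T2, part 2: prime values and primes in progressions
-/

set_option autoImplicit false

namespace Pool.Agent.GapTwo.T2_

open Finset Filter T1_
open scoped Classical Topology

/-- primes up to `y` in a class -/
noncomputable def pic (y q : ℕ) (a : ZMod q) : ℝ :=
  (((Ioc 0 y).filter (fun n : ℕ => n.Prime ∧ (n : ZMod q) = a)).card : ℝ)

/-- number of primes up to `y` -/
noncomputable def piy (y : ℕ) : ℝ := (((Ioc 0 y).filter Nat.Prime).card : ℝ)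

/-- the error term -/
noncomputable def EE (y q : ℕ) (a : ZMod q) : ℝ := |pic y q a - piy y / (q.totient : ℝ)|

lemma pic_sub (y₁ y₂ q : ℕ) (h : y₁ ≤ y₂) (a : ZMod q) :
    (((Ioc y₁ y₂).filter (fun n : ℕ => n.Prime ∧ (n : ZMod q) = a)).card : ℝ) =
      pic y₂ q a - pic y₁ q a := by
  unfold pic
  have h1 : (Ioc 0 y₂).filter (fun n : ℕ => n.Prime ∧ (n : ZMod q) = a) =
      (Ioc 0 y₁).filter (fun n : ℕ => n.Prime ∧ (n : ZMod q) = a) ∪
        (Ioc y₁ y₂).filter (fun n : ℕ => n.Prime ∧ (n : ZMod q) = a) := by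
    rw [← filter_union, Ioc_union_Ioc_eq_Ioc (Nat.zero_le _) h]
  rw [h1, card_union_of_disjoint]
  · push_cast; ring
  · rw [disjoint_left]
    intro n h2 h3
    have h4 := (mem_Ioc.1 (mem_filter.1 h2).1).2
    have h5 := (mem_Ioc.1 (mem_filter.1 h3).1).1
    omega

/-- the number of `n` for which the form is prime and the events of `T` occur -/
lemma count_prime {ι : Type} (a : ι → ℕ) (X T : Finset (ℕ × ι)) (hA : Adm a X) (hT : T ⊆ X)
    (hC : Cons T) (i : ι) (hi : ∀ x ∈ T, x.2 ≠ i) (ha : 0 < a i) (W : ℕ) (hW : 0 < W)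
    (hXW : ∀ x ∈ X, ¬ x.1 ∣ W) (N κ : ℝ) (hN : 0 ≤ N) (hκ : 0 ≤ κ) :
    ∃ r : ℕ, IsUnit ((r : ℕ) : ZMod (a i * W * sz T)) ∧
      (((((NW W N κ).filter (fun n => (a i * n + 1).Prime)).filter
        (fun n => T ⊆ ev a X n)).card : ℕ) : ℝ) =
      pic (a i * ⌊(1 + κ) * N⌋₊ + 1) (a i * W * sz T) ((r : ℕ) : ZMod (a i * W * sz T)) -
      pic (a i * ⌊N⌋₊ + 1) (a i * W * sz T) ((r : ℕ) : ZMod (a i * W * sz T)) := by
  have hTp : ∀ x ∈ T, x.1.Prime ∧ ¬ x.1 ∣ a x.2 := fun x hx =>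
    ⟨(hA x (hT hx)).1, (hA x (hT hx)).2.1 x.2⟩
  obtain ⟨b, hb⟩ := crt a T hTp hC
  have hcop : W.Coprime (sz T) := (coprime_sz T W (fun x hx => (hTp x hx).1)
    (fun x hx => hXW x (hT hx))).symm
  obtain ⟨v, hv1, hv2⟩ := Nat.chineseRemainder hcop 0 b
  have hsz : 0 < sz T := prod_pos fun x hx => (hTp x hx).1.pos
  have hNN : ⌊N⌋₊ ≤ ⌊(1 + κ) * N⌋₊ := Nat.floor_le_floor (by nlinarith)
  refine ⟨a i * v + 1, ?_, ?_⟩
  · -- unit
    rw [ZMod.isUnit_iff_coprime]
    apply Nat.Coprime.mul_right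
    · apply Nat.Coprime.mul_right
      · have : (a i * v + 1).Coprime (a i) := by
          rw [Nat.coprime_comm, mul_comm, Nat.coprime_mul_right_add_right]
          exact Nat.coprime_one_right _
        exact this
      · have h1 : W ∣ v := (Nat.modEq_zero_iff_dvd).1 hv1
        obtain ⟨w, rfl⟩ := h1
        rw [Nat.coprime_comm]
        have : a i * (W * w) + 1 = (a i * w) * W + 1 := by ring
        rw [this, Nat.coprime_mul_right_add_right]
        exact Nat.coprime_one_right _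
    · rw [Nat.coprime_comm]
      apply coprime_sz T _ (fun x hx => (hTp x hx).1)
      intro x hx hd
      have h1 := ((hb v).2 hv2) x hx
      -- both `x.1 ∣ a x.2 * v + 1` and `x.1 ∣ a i * v + 1`
      obtain ⟨hp, _, hd'⟩ := hA x (hT hx)
      have h3 : (x.1 : ℤ) ∣ ((a x.2 : ℤ) - a i) * v := by
        have h4 : (x.1 : ℤ) ∣ ((a x.2 * v + 1 : ℕ) : ℤ) := Int.natCast_dvd_natCast.2 h1
        have h5 : (x.1 : ℤ) ∣ ((a i * v + 1 : ℕ) : ℤ) := Int.natCast_dvd_natCast.2 hd
        have := dvd_sub h4 h5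
        push_cast at this
        have e : ((a x.2 : ℤ) - a i) * v = (a x.2 : ℤ) * v + 1 - ((a i : ℤ) * v + 1) := by ring
        rw [e]; exact this
      rcases (Nat.prime_iff_prime_int.1 hp).dvd_or_dvd h3 with h4 | h4
      · exact hd' x.2 i (hi x hx) h4
      · have h5 : x.1 ∣ v := Int.natCast_dvd_natCast.1 h4
        have h6 : x.1 ∣ 1 := by
          have := (Nat.dvd_sub h1 (h5.mul_left (a x.2)))
          simpa using this
        exact hp.one_lt.ne' (Nat.dvd_one.1 h6)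
  · rw [← pic_sub _ _ _ (by
      have := Nat.mul_le_mul_left (a i) hNN
      omega)]
    congr 1
    have hmod : ∀ n : ℕ, (W ∣ n ∧ T ⊆ ev a X n) ↔ n ≡ v [MOD W * sz T] := by
      intro n
      rw [sub_ev a X T hT, hb, ← Nat.modEq_zero_iff_dvd, ← Nat.modEq_and_modEq_iff_modEq_mul hcop]
      constructor
      · rintro ⟨h3, h4⟩
        exact ⟨h3.trans hv1.symm, h4.trans hv2.symm⟩
      · rintro ⟨h3, h4⟩
        exact ⟨h3.trans hv1, h4.trans hv2⟩
    have hmod2 : ∀ n : ℕ, n ≡ v [MOD W * sz T] ↔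
        ((a i * n + 1 : ℕ) : ZMod (a i * W * sz T)) = ((a i * v + 1 : ℕ) : ZMod (a i * W * sz T)) := by
      intro n
      rw [ZMod.natCast_eq_natCast_iff]
      constructor
      · intro h
        have := (h.mul_left' (a i)).add_right 1
        rwa [← mul_assoc] at this
      · intro h
        have h1 := Nat.ModEq.add_right_cancel' 1 h
        rw [mul_assoc] at h1
        exact Nat.ModEq.mul_left_cancel' ha.ne' h1
    apply card_bij (fun n _ => a i * n + 1)
    · intro n hn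
      rw [mem_filter, mem_filter] at hn
      obtain ⟨⟨h1, h2⟩, h3⟩ := hn
      unfold NW at h1
      rw [mem_filter] at h1
      unfold II at h1
      rw [mem_Ioc] at h1
      rw [mem_filter, mem_Ioc]
      refine ⟨⟨?_, ?_⟩, h2, ?_⟩
      · have := Nat.mul_lt_mul_of_pos_left h1.1.1 ha
        omega
      · have := Nat.mul_le_mul_left (a i) h1.1.2
        omega
      · exact (hmod2 n).1 ((hmod n).1 ⟨h1.2, h3⟩)
    · intro n _ n' _ h
      have : a i * n = a i * n' := Nat.add_right_cancel h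
      exact Nat.eq_of_mul_eq_mul_left ha this
    · intro q hq
      rw [mem_filter, mem_Ioc] at hq
      obtain ⟨⟨h1, h2⟩, h3, h4⟩ := hq
      -- `q ≡ 1 mod a i`
      have h5 : q ≡ a i * v + 1 [MOD a i * W * sz T] := by
        rwa [ZMod.natCast_eq_natCast_iff] at h4
      have h6 : q ≡ 1 [MOD a i] := by
        have h7 : q ≡ a i * v + 1 [MOD a i] := h5.of_dvd (by rw [mul_assoc]; exact Dvd.intro _ rfl)
        refine h7.trans ?_
        have : a i * v + 1 ≡ 0 + 1 [MOD a i] :=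
          Nat.ModEq.add_right 1 ((Nat.modEq_zero_iff_dvd).2 (Dvd.intro _ rfl))
        simpa using this
      have h7 : a i ∣ q - 1 := (Nat.modEq_iff_dvd' (by omega)).1 h6.symm
      obtain ⟨n, hn⟩ := h7
      have hqn : q = a i * n + 1 := by omega
      subst hqn
      refine ⟨n, ?_, rfl⟩
      have h8 : n ≡ v [MOD W * sz T] := (hmod2 n).2 h4
      obtain ⟨h9, h10⟩ := (hmod n).2 h8
      rw [mem_filter, mem_filter]
      refine ⟨⟨?_, h3⟩, h10⟩
      unfold NW II
      rw [mem_filter, mem_Ioc]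
      refine ⟨⟨?_, ?_⟩, h9⟩
      · have : a i * ⌊N⌋₊ < a i * n := by omega
        exact Nat.lt_of_mul_lt_mul_left this
      · have : a i * n ≤ a i * ⌊(1 + κ) * N⌋₊ := by omega
        exact Nat.le_of_mul_le_mul_left this ha

/-- an event with index `i` never occurs when the form `i` is prime -/
lemma count_zero {ι : Type} (a : ι → ℕ) (X T : Finset (ℕ × ι)) (hT : T ⊆ X) (i : ι)
    (hi : ∃ x ∈ T, x.2 = i) (ha : 0 < a i) (W : ℕ) (N κ : ℝ)
    (hX : ∀ x ∈ X, x.1.Prime ∧ (x.1 : ℝ) ≤ N) :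
    ((NW W N κ).filter (fun n => (a i * n + 1).Prime)).filter (fun n => T ⊆ ev a X n) = ∅ := by
  apply filter_eq_empty_iff.2
  intro n hn h
  obtain ⟨x, hx, rfl⟩ := hi
  rw [mem_filter] at hn
  obtain ⟨h1, h2⟩ := hn
  have h3 : ⌊N⌋₊ < n := by
    unfold NW II at h1
    exact (mem_Ioc.1 (mem_filter.1 h1).1).1
  have h4 : N < n := (Nat.floor_lt' (by omega)).1 h3
  have h5 := (mem_filter.1 (h hx)).2
  have h6 := (Nat.prime_dvd_prime_iff_eq (hX x (hT hx)).1 h2).1 h5
  have h7 := (hX x (hT hx)).2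
  rw [h6] at h7
  push_cast at h7
  have h8 : (1 : ℝ) ≤ a x.2 := by exact_mod_cast ha
  nlinarith [(Nat.cast_nonneg n : (0 : ℝ) ≤ n)]

end Pool.Agent.GapTwo.T2_
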