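import Pool.Agent.Work.MP_1ea053_nt.T2B

/-!
# Block T2, part 3: the sum of the errors
-/

set_option autoImplicit false

namespace Pool.Agent.GapTwo.T2_

open Finset Filter T1_
open scoped Classical Topology

/-- the consistent sets without index `i` -/
def Gd {ι : Type} (i : ι) (T : Finset (ℕ × ι)) : Prop := Cons T ∧ ∀ x ∈ T, x.2 ≠ i

/-- the sum of the errors, for one end point -/
lemma err_sum {ι : Type} [Fintype ι] (X : Finset (ℕ × ι)) (hX : ∀ x ∈ X, x.1.Prime) (i : ι)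
    (A : ℕ) (hA : 0 < A) (c : Finset (ℕ × ι) → ℝ) (C : ℝ) (hC1 : 1 ≤ C) (k : ℕ) (hk : C ≤ 2 ^ k)
    (hc : ∀ T, |c T| ≤ C ^ (T.card + 1)) (L : ℕ) (hL : ∀ T, c T ≠ 0 → sz T ≤ L)
    (r : Finset (ℕ × ι) → ℕ) (hr : ∀ T ⊆ X, Gd i T → IsUnit ((r T : ℕ) : ZMod (A * sz T)))
    (y : ℕ) : ∃ b : (q : ℕ) → ZMod q, (∀ q, IsUnit (b q)) ∧
      ∑ T ∈ X.powerset.filter (fun T => Gd i T), |c T| * EE y (A * sz T) ((r T : ℕ) : ZMod (A * sz T)) ≤
      C * ∑ q ∈ Ioc 0 (A * L), (q.divisors.card : ℝ) ^ (Fintype.card ι + k) * EE y q (b q) := by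
  set F : ℕ → Finset (Finset (ℕ × ι)) := fun q =>
    (X.powerset.filter (fun T => Gd i T)).filter (fun T => A * sz T = q) with hF
  have hEE : ∀ y q a, 0 ≤ EE y q a := fun y q a => abs_nonneg _
  have hex : ∀ q : ℕ, ∃ b : ZMod q, IsUnit b ∧ ∀ T ∈ F q,
      EE y q ((r T : ℕ) : ZMod q) ≤ EE y q b := by
    intro q
    rcases (F q).eq_empty_or_nonempty with h | h
    · refine ⟨1, isUnit_one, ?_⟩
      rw [h]
      intro T hT
      exact absurd hT (notMem_empty _)
    · obtain ⟨T₀, hT₀, hmax⟩ := exists_max_image (F q) (fun T => EE y q ((r T : ℕ) : ZMod q)) h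
      refine ⟨((r T₀ : ℕ) : ZMod q), ?_, hmax⟩
      rw [hF, mem_filter, mem_filter, mem_powerset] at hT₀
      obtain ⟨⟨h1, h2⟩, h3⟩ := hT₀
      have := hr T₀ h1 h2
      rwa [h3] at this
  choose b hb1 hb2 using hex
  refine ⟨b, hb1, ?_⟩
  have h1 : ∑ T ∈ X.powerset.filter (fun T => Gd i T),
      |c T| * EE y (A * sz T) ((r T : ℕ) : ZMod (A * sz T)) ≤
      ∑ T ∈ X.powerset.filter (fun T => Gd i T),
        ∑ q ∈ Ioc 0 (A * L), if A * sz T = q then |c T| * EE y q (b q) else 0 := by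
    apply sum_le_sum
    intro T hT
    by_cases hcT : c T = 0
    · rw [hcT, abs_zero, zero_mul]
      apply sum_nonneg
      intro q _
      split_ifs
      · exact mul_nonneg le_rfl (hEE _ _ _)
      · exact le_rfl
    · have h2 := hL T hcT
      have h3 : 0 < sz T := by
        rw [mem_filter, mem_powerset] at hT
        exact prod_pos fun x hx => (hX x (hT.1 hx)).pos
      have h4 : A * sz T ∈ Ioc 0 (A * L) :=
        mem_Ioc.2 ⟨Nat.mul_pos hA h3, Nat.mul_le_mul_left A h2⟩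
      have h5 : ∑ q ∈ Ioc 0 (A * L), (if A * sz T = q then |c T| * EE y q (b q) else 0) =
          |c T| * EE y (A * sz T) (b (A * sz T)) := by
        rw [sum_eq_single (A * sz T)]
        · rw [if_pos rfl]
        · intro q _ hq
          rw [if_neg (Ne.symm hq)]
        · intro h; exact absurd h4 h
      rw [h5]
      apply mul_le_mul_of_nonneg_left _ (abs_nonneg _)
      exact hb2 (A * sz T) T (mem_filter.2 ⟨hT, rfl⟩)
  refine h1.trans ?_
  rw [sum_comm, mul_sum]
  apply sum_le_sum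
  intro q hq
  rw [mem_Ioc] at hq
  rw [← sum_filter, ← sum_mul]
  have h2 : ∑ T ∈ (X.powerset.filter (fun T => Gd i T)).filter (fun T => A * sz T = q), |c T| ≤
      C * (q.divisors.card : ℝ) ^ (Fintype.card ι + k) := by
    by_cases hAq : A ∣ q
    · obtain ⟨m, rfl⟩ := hAq
      have hm : 0 < m := Nat.pos_of_mul_pos_left hq.1
      apply weight_sz _ m (A * m) hm hq.1 (Dvd.intro_left _ rfl) c C hC1 k hk _ hc
      intro T hT
      rw [mem_filter, mem_filter, mem_powerset] at hT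
      obtain ⟨⟨h3, h4⟩, h5⟩ := hT
      exact ⟨fun x hx => hX x (h3 hx), h4.1, Nat.eq_of_mul_eq_mul_left hA h5⟩
    · have h3 : (X.powerset.filter (fun T => Gd i T)).filter (fun T => A * sz T = q) = ∅ := by
        apply filter_eq_empty_iff.2
        intro T _ h
        exact hAq (Dvd.intro _ h)
      rw [h3, sum_empty]
      positivity
  calc _ ≤ C * (q.divisors.card : ℝ) ^ (Fintype.card ι + k) * EE y q (b q) :=
        mul_le_mul_of_nonneg_right h2 (hEE _ _ _)
    _ = _ := by ring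

end Pool.Agent.GapTwo.T2_
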