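import Pool.Agent.Work.MP_1ea053_nt.T2C

/-!
# Block T2, part 4: assembly
-/

set_option autoImplicit false

namespace Pool.Agent.GapTwo.T2_

open Finset Filter T1_
open scoped Classical Topology

lemma piy_eq (y : ℕ) : piy y = Nat.primeCounting y := by
  unfold piy
  congr 1
  rw [Nat.primeCounting, Nat.primeCounting', Nat.count_eq_card_filter_range]
  congr 1
  ext p
  simp only [mem_filter, mem_range, mem_Ioc]
  constructor
  · rintro ⟨h, hp⟩
    exact ⟨by omega, hp⟩
  · rintro ⟨h, hp⟩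
    exact ⟨⟨hp.pos, by omega⟩, hp⟩

/-- the prime number theorem along a linear form -/
lemma pnt_lin (hP : Tendsto (fun x : ℝ => (Nat.primeCounting ⌊x⌋₊ : ℝ) / (x / Real.log x)) atTop (𝓝 1))
    (a : ℕ) (ha : 0 < a) (t : ℝ) (ht : 0 < t) :
    Tendsto (fun N : ℝ => piy (a * ⌊t * N⌋₊ + 1) / (N / Real.log N)) atTop (𝓝 (a * t)) := by
  set x : ℝ → ℝ := fun N => ((a * ⌊t * N⌋₊ + 1 : ℕ) : ℝ) with hx
  have ha' : (0 : ℝ) < a := by exact_mod_cast ha
  have h1 : Tendsto (fun N => x N / N) atTop (𝓝 (a * t)) := by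
    have h2 : Tendsto (fun N : ℝ => (a : ℝ) * ((⌊t * N⌋₊ : ℝ) / N) + 1 / N) atTop
        (𝓝 (a * t + 0)) :=
      ((tendsto_nat_floor_mul_div_atTop ht.le).const_mul (a : ℝ)).add
        (tendsto_const_nhds.div_atTop tendsto_id)
    rw [add_zero] at h2
    refine h2.congr fun N => ?_
    simp only [hx]
    push_cast
    ring
  have h2 : Tendsto x atTop atTop := by
    have h3 := h1.pos_mul_atTop (by positivity) tendsto_id
    refine h3.congr' ?_
    filter_upwards [eventually_gt_atTop 0] with N hN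
    simp only [id]
    field_simp
  have h3 := hP.comp h2
  have h4 : Tendsto (fun N => Real.log N / Real.log (x N)) atTop (𝓝 1) := by
    have h5 : Tendsto (fun N => Real.log (x N / N) / Real.log N) atTop (𝓝 0) := by
      apply Tendsto.div_atTop (a := Real.log (a * t))
      · exact (Real.continuousAt_log (by positivity)).tendsto.comp h1
      · exact Real.tendsto_log_atTop
    have h6 : Tendsto (fun N => (1 + Real.log (x N / N) / Real.log N)⁻¹) atTop (𝓝 (1 + 0)⁻¹) :=
      (h5.const_add 1).inv₀ (by norm_num)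
    rw [add_zero, inv_one] at h6
    refine h6.congr' ?_
    filter_upwards [eventually_gt_atTop 1, h2.eventually_gt_atTop 1] with N hN hxN
    have h7 : 0 < Real.log N := Real.log_pos hN
    have h8 : 0 < Real.log (x N) := Real.log_pos hxN
    rw [Real.log_div (by linarith) (by linarith)]
    have h9 : 1 + (Real.log (x N) - Real.log N) / Real.log N = Real.log (x N) / Real.log N := by
      field_simp
      ring
    rw [h9, inv_div]
  have h5 := (h3.mul h1).mul h4
  rw [one_mul, mul_one] at h5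
  refine h5.congr' ?_
  filter_upwards [eventually_gt_atTop 1, h2.eventually_gt_atTop 1] with N hN hxN
  have h7 : 0 < Real.log N := Real.log_pos hN
  have h8 : 0 < Real.log (x N) := Real.log_pos hxN
  simp only [Function.comp]
  have h9 : ⌊x N⌋₊ = a * ⌊t * N⌋₊ + 1 := by
    simp only [hx]
    exact Nat.floor_natCast _
  rw [h9, piy_eq]
  have h10 : x N ≠ 0 := by linarith
  field_simp

theorem main (hBV : Pool.Agent.BV.Stmt_BVW)
    (hP : Tendsto (fun x : ℝ => (Nat.primeCounting ⌊x⌋₊ : ℝ) / (x / Real.log x)) atTop (𝓝 1)) :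
    Stmt_T2 := by
  intro ι _ a D₀ h0 hinj hD C κ ε B hκ hκ1 hε
  rcases isEmpty_or_nonempty ι with hι | hι
  · exact ⟨0, fun N _ i => hι.elim i⟩
  obtain ⟨i₀⟩ := hι
  have hD₀ : 0 < D₀ := lt_trans (h0 i₀) (hD i₀)
  have hD₀' : (1 : ℝ) ≤ D₀ := by exact_mod_cast hD₀
  set C' : ℝ := max |C| 1 with hC'
  have hC'1 : 1 ≤ C' := le_max_right _ _
  obtain ⟨k, hk⟩ := pow_unbounded_of_one_lt C' (by norm_num : (1 : ℝ) < 2)
  obtain ⟨B', CB, hCB, hBVX⟩ := hBV (B + 1) (Fintype.card ι + k)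
  set P : ℝ := ∏ p ∈ PR 2 D₀, (1 - 1 / (p : ℝ)) with hPdef
  have hP0 : 0 < P := by
    apply prod_pos
    intro p hp
    rw [mem_PR] at hp
    have h1 : 1 / (p : ℝ) ≤ 1 / 2 := one_div_le_one_div_of_le (by norm_num) hp.2.1
    linarith
  set W : ℕ := WW D₀ with hW
  have hW0 : 0 < W := WW_pos D₀
  have hW0' : (0 : ℝ) < W := by exact_mod_cast hW0
  -- large `N`
  have ev1 : ∀ i, ∀ᶠ N : ℝ in atTop, |(piy (a i * ⌊(1 + κ) * N⌋₊ + 1) - piy (a i * ⌊N⌋₊ + 1)) / a i
      - κ * N / Real.log N| ≤ ε * (κ * N / Real.log N) := by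
    intro i
    have hai : (0 : ℝ) < a i := by exact_mod_cast h0 i
    have h1 := pnt_lin hP (a i) (h0 i) (1 + κ) (by linarith)
    have h2 := pnt_lin hP (a i) (h0 i) 1 (by norm_num)
    simp only [one_mul, mul_one] at h2
    have h3 : Tendsto (fun N : ℝ => (piy (a i * ⌊(1 + κ) * N⌋₊ + 1) - piy (a i * ⌊N⌋₊ + 1)) / a i
        / (κ * N / Real.log N)) atTop (𝓝 1) := by
      have h4 := ((h1.sub h2).div_const (a i : ℝ)).div_const κ
      have e : ((a i : ℝ) * (1 + κ) - a i) / a i / κ = 1 := by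
        field_simp
        ring
      rw [e] at h4
      refine h4.congr' ?_
      filter_upwards [eventually_gt_atTop 1] with N hN
      have h7 : 0 < Real.log N := Real.log_pos hN
      field_simp
    have h4 := h3.eventually (Metric.closedBall_mem_nhds (1 : ℝ) hε)
    filter_upwards [h4, eventually_gt_atTop 1] with N hN1 hN2
    rw [Real.dist_eq] at hN1
    have h7 : 0 < Real.log N := Real.log_pos hN2
    have h8 : 0 < κ * N / Real.log N := by positivity
    have h9 := mul_le_mul_of_nonneg_right hN1 h8.le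
    rw [← abs_of_pos h8, ← abs_mul, abs_of_pos h8, sub_mul, one_mul,
      div_mul_cancel₀ _ h8.ne'] at h9
    exact h9
  have hX : Tendsto (fun N : ℝ => 3 * (D₀ : ℝ) * N) atTop atTop :=
    tendsto_id.const_mul_atTop (by positivity)
  have ev2 : ∀ᶠ N : ℝ in atTop, (D₀ : ℝ) * W * N ^ (1 / 3 : ℝ) ≤
      √(3 * D₀ * N) / (Real.log (3 * D₀ * N)) ^ B' := by
    have h1 := (isLittleO_log_rpow_rpow_atTop (s := 1 / 6) (B' : ℝ) (by norm_num)).comp_tendsto hX
    have h2 := h1.bound (show (0 : ℝ) < 1 / (D₀ * W) by positivity)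
    filter_upwards [h2, eventually_gt_atTop 1, hX.eventually_gt_atTop 1] with N hN1 hN2 hN3
    simp only [Function.comp, Real.rpow_natCast] at hN1
    have hl : 0 < Real.log (3 * D₀ * N) := Real.log_pos hN3
    have hN0 : 0 < N := by linarith
    have hNX : N ≤ 3 * D₀ * N := by nlinarith
    rw [Real.norm_of_nonneg (by positivity), Real.norm_of_nonneg (by positivity)] at hN1
    rw [le_div_iff₀ (by positivity)]
    calc (D₀ : ℝ) * W * N ^ (1 / 3 : ℝ) * Real.log (3 * D₀ * N) ^ B'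
        ≤ (D₀ : ℝ) * W * (3 * D₀ * N) ^ (1 / 3 : ℝ) *
          (1 / (D₀ * W) * (3 * D₀ * N) ^ (1 / 6 : ℝ)) := by gcongr
      _ = (3 * D₀ * N) ^ (1 / 3 : ℝ) * (3 * D₀ * N) ^ (1 / 6 : ℝ) := by field_simp
      _ = √(3 * D₀ * N) := by
          rw [← Real.rpow_add (by positivity), Real.sqrt_eq_rpow]
          norm_num
  have ev3 : ∀ᶠ N : ℝ in atTop,
      2 * C' * (CB * (3 * D₀ * N / (Real.log (3 * D₀ * N)) ^ (B + 1))) ≤ N / Real.log N ^ B := by
    filter_upwards [eventually_gt_atTop 1,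
      Real.tendsto_log_atTop.eventually_ge_atTop (2 * C' * (CB * (3 * D₀)))] with N hN1 hN2
    have hl : 0 < Real.log N := Real.log_pos hN1
    have hN0 : 0 < N := by linarith
    have hNX : N ≤ 3 * D₀ * N := by nlinarith
    have hlX : Real.log N ≤ Real.log (3 * D₀ * N) := Real.log_le_log hN0 hNX
    calc 2 * C' * (CB * (3 * D₀ * N / (Real.log (3 * D₀ * N)) ^ (B + 1)))
        ≤ 2 * C' * (CB * (3 * D₀ * N / (Real.log N) ^ (B + 1))) := by gcongr
      _ = (2 * C' * (CB * (3 * D₀))) * (N / Real.log N ^ (B + 1)) := by ring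
      _ ≤ Real.log N * (N / Real.log N ^ (B + 1)) := by gcongr
      _ = N / Real.log N ^ B := by
          rw [pow_succ]
          field_simp
  have evall : ∀ᶠ N : ℝ in atTop, (∀ i, |(piy (a i * ⌊(1 + κ) * N⌋₊ + 1) -
      piy (a i * ⌊N⌋₊ + 1)) / a i - κ * N / Real.log N| ≤ ε * (κ * N / Real.log N)) ∧
      (D₀ : ℝ) * W * N ^ (1 / 3 : ℝ) ≤ √(3 * D₀ * N) / (Real.log (3 * D₀ * N)) ^ B' ∧
      2 * C' * (CB * (3 * D₀ * N / (Real.log (3 * D₀ * N)) ^ (B + 1))) ≤ N / Real.log N ^ B ∧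
      1 < N := by
    filter_upwards [eventually_all.2 ev1, ev2, ev3, eventually_gt_atTop 1] with N h1 h2 h3 h4
    exact ⟨h1, h2, h3, h4⟩
  obtain ⟨N₀, hN₀⟩ := eventually_atTop.1 evall
  refine ⟨N₀, ?_⟩
  intro N hN i c hc
  obtain ⟨hpnt, hlev, herr, hN1⟩ := hN₀ N hN
  have hN0 : 0 < N := by linarith
  have hlog : 0 < Real.log N := Real.log_pos hN1
  have hai : (0 : ℝ) < a i := by exact_mod_cast h0 i
  set X := XX ι D₀ (N ^ (1 / 4 : ℝ)) with hXdef
  have hA : Adm a X := adm_XX a D₀ h0 hinj hD _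
  have hXp : ∀ x ∈ X, x.1.Prime := fun x hx => (mem_XX.1 hx).1
  have hXW : ∀ x ∈ X, ¬ x.1 ∣ W := by
    intro x hx h
    have h1 := (dvd_WW (hXp x hx)).1 h
    have h2 := (mem_XX.1 hx).2.1
    have h3 : D₀ ≤ x.1 := by exact_mod_cast h2
    omega
  have hXN : ∀ x ∈ X, x.1.Prime ∧ (x.1 : ℝ) ≤ N := by
    intro x hx
    refine ⟨hXp x hx, ?_⟩
    have h2 := (mem_XX.1 hx).2.2
    calc (x.1 : ℝ) ≤ N ^ (1 / 4 : ℝ) := h2.le
      _ ≤ N ^ (1 : ℝ) := Real.rpow_le_rpow_of_exponent_le hN1.le (by norm_num)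
      _ = N := Real.rpow_one N
  set y₁ : ℕ := a i * ⌊N⌋₊ + 1 with hy₁
  set y₂ : ℕ := a i * ⌊(1 + κ) * N⌋₊ + 1 with hy₂
  -- classes
  have hex : ∀ T : Finset (ℕ × ι), ∃ r : ℕ, T ⊆ X → Gd i T →
      IsUnit ((r : ℕ) : ZMod (a i * W * sz T)) ∧
      (((((NW W N κ).filter (fun n => (a i * n + 1).Prime)).filter
        (fun n => T ⊆ ev a X n)).card : ℕ) : ℝ) =
      pic y₂ (a i * W * sz T) ((r : ℕ) : ZMod (a i * W * sz T)) -
      pic y₁ (a i * W * sz T) ((r : ℕ) : ZMod (a i * W * sz T)) := by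
    intro T
    by_cases h : T ⊆ X ∧ Gd i T
    · obtain ⟨r, hr1, hr2⟩ := count_prime a X T hA h.1 h.2.1 i h.2.2 (h0 i) W hW0 hXW N κ hN0.le hκ.le
      exact ⟨r, fun _ _ => ⟨hr1, hr2⟩⟩
    · exact ⟨0, fun h1 h2 => absurd ⟨h1, h2⟩ h⟩
  choose r hr using hex
  have hcb : ∀ T, |c T| ≤ C' ^ (T.card + 1) := by
    intro T
    calc |c T| ≤ C ^ (T.card + 1) := hc.bd T
      _ ≤ |C| ^ (T.card + 1) := by
          rw [← abs_pow]
          exact le_abs_self _
      _ ≤ C' ^ (T.card + 1) := pow_le_pow_left₀ (abs_nonneg _) (le_max_left _ _) _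
  have hcL : ∀ T, c T ≠ 0 → sz T ≤ ⌊N ^ (1 / 3 : ℝ)⌋₊ := fun T hT =>
    Nat.le_floor (hc.supp T hT).2
  have hAW : 0 < a i * W := Nat.mul_pos (h0 i) hW0
  have hbv : ∀ y : ℕ, (y : ℝ) ≤ 3 * D₀ * N →
      ∑ T ∈ X.powerset.filter (fun T => Gd i T),
        |c T| * EE y (a i * W * sz T) ((r T : ℕ) : ZMod (a i * W * sz T)) ≤
      C' * (CB * (3 * D₀ * N / (Real.log (3 * D₀ * N)) ^ (B + 1))) := by
    intro y hy
    obtain ⟨b, hb1, hb2⟩ := err_sum X hXp i (a i * W) hAW c C' hC'1 k hk.le hcb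
      ⌊N ^ (1 / 3 : ℝ)⌋₊ hcL r (fun T hT hG => (hr T hT hG).1) y
    refine hb2.trans ?_
    apply mul_le_mul_of_nonneg_left _ (by linarith)
    have h1 := hBVX (3 * D₀ * N) (by nlinarith) (a i * W * ⌊N ^ (1 / 3 : ℝ)⌋₊) (by
      push_cast
      refine le_trans ?_ hlev
      have h2 : (⌊N ^ (1 / 3 : ℝ)⌋₊ : ℝ) ≤ N ^ (1 / 3 : ℝ) := Nat.floor_le (by positivity)
      have h3 : (a i : ℝ) ≤ D₀ := by exact_mod_cast (hD i).le
      gcongr) (fun _ => y) (fun _ => hy) b hb1
    exact h1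
  have hNX : N ≤ 3 * D₀ * N := by nlinarith
  have hD1 : (a i : ℝ) + 1 ≤ D₀ := by exact_mod_cast hD i
  have hyb : ∀ m : ℕ, (m : ℝ) ≤ 2 * N → ((a i * m + 1 : ℕ) : ℝ) ≤ 3 * D₀ * N := by
    intro m hm
    push_cast
    have h1 : (a i : ℝ) * m ≤ a i * (2 * N) := by gcongr
    nlinarith
  have hy₁' : (y₁ : ℝ) ≤ 3 * D₀ * N := by
    apply hyb
    have := Nat.floor_le hN0.le
    linarith
  have hy₂' : (y₂ : ℝ) ≤ 3 * D₀ * N := by
    apply hyb
    have := Nat.floor_le (a := (1 + κ) * N) (by positivity)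
    nlinarith
  -- main term
  set Δ : ℝ := piy y₂ - piy y₁ with hΔ
  have hmain : |∑ n ∈ (NW W N κ).filter (fun n => (a i * n + 1).Prime), poly c (ev a X n) -
      Δ / (a i * W * P) * EloI X i c| ≤ N / Real.log N ^ B := by
    rw [sum_poly]
    have h1 : Δ / (a i * W * P) * EloI X i c = ∑ T ∈ X.powerset,
        if Gd i T then c T * (Δ / ((a i * W * sz T).totient : ℝ)) else 0 := by
      have hfil : X.powerset.filter (fun T => Cons T ∧ ∀ x ∈ T, x.2 ≠ i) =
          X.powerset.filter (fun T => Gd i T) := by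
        ext T
        rw [mem_filter, mem_filter]
        exact Iff.rfl
      unfold EloI
      rw [← sum_filter, mul_sum, hfil]
      refine sum_congr rfl fun T hT => ?_
      rw [mem_filter, mem_powerset] at hT
      obtain ⟨h2, h3, h4⟩ := hT
      have h5 : (a i * W).Coprime (sz T) := by
        apply Nat.Coprime.symm
        apply coprime_sz T _ (fun x hx => hXp x (h2 hx))
        intro x hx hd
        rcases ((hXp x (h2 hx)).dvd_mul).1 hd with h | h
        · exact (hA x (h2 hx)).2.1 i h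
        · exact hXW x (h2 hx) h
      rw [Nat.totient_mul h5]
      push_cast
      rw [totient_sz T (fun x hx => hXp x (h2 hx)) h3, totient_aW D₀ (a i) (h0 i) (hD i)]
      rw [← hPdef, ← hW]
      ring
    rw [h1, ← sum_sub_distrib]
    refine (abs_sum_le_sum_abs _ _).trans ?_
    have h2 : ∀ T ∈ X.powerset, |c T * ((((NW W N κ).filter (fun n => (a i * n + 1).Prime)).filter
        fun n => T ⊆ ev a X n).card : ℝ) -
        (if Gd i T then c T * (Δ / ((a i * W * sz T).totient : ℝ)) else 0)| ≤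
        if Gd i T then |c T| * EE y₂ (a i * W * sz T) ((r T : ℕ) : ZMod (a i * W * sz T)) +
          |c T| * EE y₁ (a i * W * sz T) ((r T : ℕ) : ZMod (a i * W * sz T)) else 0 := by
      intro T hT
      rw [mem_powerset] at hT
      by_cases hG : Gd i T
      · rw [if_pos hG, if_pos hG, (hr T hT hG).2, ← mul_sub, abs_mul, ← mul_add]
        apply mul_le_mul_of_nonneg_left _ (abs_nonneg _)
        unfold EE
        rw [hΔ, sub_div]
        set p2 := pic y₂ (a i * W * sz T) ((r T : ℕ) : ZMod (a i * W * sz T))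
        set p1 := pic y₁ (a i * W * sz T) ((r T : ℕ) : ZMod (a i * W * sz T))
        set q2 := piy y₂ / ((a i * W * sz T).totient : ℝ)
        set q1 := piy y₁ / ((a i * W * sz T).totient : ℝ)
        calc |p2 - p1 - (q2 - q1)| = |(p2 - q2) - (p1 - q1)| := by ring_nf
          _ ≤ |p2 - q2| + |p1 - q1| := abs_sub _ _
      · rw [if_neg hG, if_neg hG, sub_zero]
        have h3 : ((NW W N κ).filter (fun n => (a i * n + 1).Prime)).filter
            (fun n => T ⊆ ev a X n) = ∅ := by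
          by_cases hC : Cons T
          · have h4 : ∃ x ∈ T, x.2 = i := by
              by_contra hcon
              push Not at hcon
              exact hG ⟨hC, hcon⟩
            exact count_zero a X T hT i h4 (h0 i) W N κ hXN
          · apply filter_eq_empty_iff.2
            intro n _
            exact not_cons a X T hA hT hC n
        rw [h3, card_empty]
        simp
    refine (sum_le_sum h2).trans ?_
    rw [← sum_filter, sum_add_distrib]
    refine (add_le_add (hbv y₂ hy₂') (hbv y₁ hy₁')).trans ?_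
    refine le_trans (le_of_eq ?_) herr
    ring
  have hcmp : |Δ / (a i * W * P) * EloI X i c - κ * N / (W * Real.log N) * P⁻¹ * EloI X i c| ≤
      ε * (κ * N / (W * Real.log N) * P⁻¹ * |EloI X i c|) := by
    have h1 := hpnt i
    have h2 : Δ / (a i * W * P) * EloI X i c - κ * N / (W * Real.log N) * P⁻¹ * EloI X i c =
        (Δ / a i - κ * N / Real.log N) * (EloI X i c / (W * P)) := by
      field_simp
    rw [h2, abs_mul, abs_div, abs_of_pos (by positivity : 0 < (W : ℝ) * P)]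
    calc |Δ / a i - κ * N / Real.log N| * (|EloI X i c| / (W * P))
        ≤ ε * (κ * N / Real.log N) * (|EloI X i c| / (W * P)) := by gcongr
      _ = _ := by field_simp
  calc |∑ n ∈ (NW W N κ).filter (fun n => (a i * n + 1).Prime), poly c (ev a X n) -
        κ * N / (W * Real.log N) * P⁻¹ * EloI X i c|
      = |(∑ n ∈ (NW W N κ).filter (fun n => (a i * n + 1).Prime), poly c (ev a X n) -
          Δ / (a i * W * P) * EloI X i c) +
        (Δ / (a i * W * P) * EloI X i c - κ * N / (W * Real.log N) * P⁻¹ * EloI X i c)| := by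
        congr 1
        ring
    _ ≤ _ := (abs_add_le _ _).trans (by linarith)

end Pool.Agent.GapTwo.T2_
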