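import Pool.Agent.Work.MP_1ea053_nt.Tool

/-!
# Tools: events, levels
-/

set_option autoImplicit false

namespace Pool.Agent.GapTwo

open Finset Filter
open scoped Classical Topology

lemma PR_mono {u v u' v' : ℝ} (h1 : u' ≤ u) (h2 : v ≤ v') : PR u v ⊆ PR u' v' := by
  intro p hp
  rw [mem_PR] at hp ⊢
  exact ⟨hp.1, by linarith [hp.2.1], by linarith [hp.2.2]⟩

lemma XX_mono {ι : Type} [Fintype ι] {u v u' v' : ℝ} (h1 : u' ≤ u) (h2 : v ≤ v') :
    XX ι u v ⊆ XX ι u' v' := by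
  intro x hx
  rw [mem_XX] at hx ⊢
  exact ⟨hx.1, by linarith [hx.2.1], by linarith [hx.2.2]⟩

lemma WW_pos (D₀ : ℕ) : 0 < WW D₀ := prod_pos fun p hp => ((mem_filter.1 hp).2).pos

lemma prime_dvd_WW {D₀ p : ℕ} (hp : p.Prime) : p ∣ WW D₀ ↔ p < D₀ := by
  constructor
  · intro h
    unfold WW at h
    obtain ⟨q, hq, hpq⟩ := (Prime.dvd_finsetProd_iff hp.prime _).1 h
    rw [mem_filter, mem_range] at hq
    have := (Nat.prime_dvd_prime_iff_eq hp hq.2).1 hpq
    omega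
  · intro h
    exact dvd_prod_of_mem _ (mem_filter.2 ⟨mem_range.2 h, hp⟩)

/-- The events for primes `≥ D₀` are admissible. -/
lemma adm_XX {ι : Type} [Fintype ι] (a : ι → ℕ) (D₀ : ℕ) (ha : ∀ i, 0 < a i)
    (hinj : Function.Injective a) (hD : ∀ i, a i < D₀) (v : ℝ) : Adm a (XX ι D₀ v) := by
  intro x hx
  rw [mem_XX] at hx
  have hp : D₀ ≤ x.1 := by exact_mod_cast hx.2.1
  refine ⟨hx.1, fun l h => ?_, fun l l' hl h => ?_⟩
  · have := Nat.le_of_dvd (ha l) h
    have := hD l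
    omega
  · have h1 : (a l : ℤ) - a l' ≠ 0 := by
      intro h0
      exact hl (hinj (by omega))
    have h2 := Int.le_of_dvd (by positivity : (0 : ℤ) < |(a l : ℤ) - a l'|) ((dvd_abs _ _).2 h)
    have h3 : |(a l : ℤ) - a l'| < D₀ := by
      rw [abs_lt]
      have := hD l
      have := hD l'
      constructor <;> omega
    omega

lemma not_dvd_WW {ι : Type} [Fintype ι] {D₀ : ℕ} {v : ℝ} {x : ℕ × ι} (hx : x ∈ XX ι D₀ v) :
    ¬ x.1 ∣ WW D₀ := by
  rw [mem_XX] at hx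
  rw [prime_dvd_WW hx.1]
  have hp : D₀ ≤ x.1 := by exact_mod_cast hx.2.1
  omega

/-- Enlarging the set of events does not change a polynomial. -/
lemma poly_ev_mono {ι : Type} (a : ι → ℕ) {X X' : Finset (ℕ × ι)} (hX : X ⊆ X')
    (c : Finset (ℕ × ι) → ℝ) (hc : ∀ T, c T ≠ 0 → T ⊆ X) (n : ℕ) :
    poly c (ev a X' n) = poly c (ev a X n) := by
  unfold poly
  symm
  apply sum_subset
  · apply powerset_mono.2
    exact filter_subset_filter _ hX
  · intro T hT hT'
    by_contra h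
    apply hT'
    rw [mem_powerset] at hT ⊢
    intro x hx
    have h1 := mem_filter.1 (hT hx)
    exact mem_filter.2 ⟨hc T h hx, h1.2⟩

lemma Eloc_mono {ι : Type} {X X' : Finset (ℕ × ι)} (hX : X ⊆ X')
    (c : Finset (ℕ × ι) → ℝ) (hc : ∀ T, c T ≠ 0 → T ⊆ X) : Eloc X' c = Eloc X c := by
  unfold Eloc
  symm
  apply sum_subset
  · intro T hT
    rw [mem_filter, mem_powerset] at hT ⊢
    exact ⟨hT.1.trans hX, hT.2⟩
  · intro T hT hT'
    rw [mem_filter, mem_powerset] at hT hT'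
    have : c T = 0 := by
      by_contra h
      exact hT' ⟨hc T h, hT.2⟩
    rw [this, zero_div]

lemma EloI_mono {ι : Type} {X X' : Finset (ℕ × ι)} (hX : X ⊆ X') (i : ι)
    (c : Finset (ℕ × ι) → ℝ) (hc : ∀ T, c T ≠ 0 → T ⊆ X) : EloI X' i c = EloI X i c := by
  unfold EloI
  symm
  apply sum_subset
  · intro T hT
    rw [mem_filter, mem_powerset] at hT ⊢
    exact ⟨hT.1.trans hX, hT.2⟩
  · intro T hT hT'
    rw [mem_filter, mem_powerset] at hT hT'
    have : c T = 0 := by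
      by_contra h
      exact hT' ⟨hc T h, hT.2⟩
    rw [this, zero_div]

lemma Lev.mono {ι : Type} {X X' : Finset (ℕ × ι)} {c : Finset (ℕ × ι) → ℝ} {Y Y' C C' : ℝ}
    (h : Lev X c Y C) (hX : X ⊆ X') (hY : Y ≤ Y') (hC0 : 0 ≤ C) (hC : C ≤ C') : Lev X' c Y' C' where
  supp := fun T hT => ⟨(h.supp T hT).1.trans hX, (h.supp T hT).2.trans hY⟩
  bd := fun T => (h.bd T).trans (pow_le_pow_left₀ hC0 hC _)

/-- Rankin's trick: the total mass of the coefficients. -/
lemma sum_abs_le {ι : Type} (X : Finset (ℕ × ι)) (c : Finset (ℕ × ι) → ℝ) (Y C : ℝ)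
    (hX : ∀ x ∈ X, 1 ≤ x.1) (hY : 0 ≤ Y) (hC : 1 ≤ C) (h : Lev X c Y C) :
    ∑ T ∈ X.powerset, |c T| ≤ Y * C * Real.exp (C * ∑ x ∈ X, 1 / (x.1 : ℝ)) := by
  have h1 : ∀ T ∈ X.powerset, |c T| ≤ Y * C * ∏ x ∈ T, (C * (1 / (x.1 : ℝ))) := by
    intro T hT
    rw [mem_powerset] at hT
    by_cases hc : c T = 0
    · rw [hc, abs_zero]
      apply mul_nonneg (by positivity)
      exact prod_nonneg fun x _ => by positivity
    · have h2 := (h.supp T hc).2
      have hsz : (0 : ℝ) < sz T := by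
        unfold sz
        rw [Nat.cast_prod]
        exact prod_pos fun x hx => by exact_mod_cast hX x (hT hx)
      have h3 : (1 : ℝ) ≤ Y / sz T := by rw [le_div_iff₀ hsz]; linarith
      have h4 : ∏ x ∈ T, (C * (1 / (x.1 : ℝ))) = C ^ T.card / sz T := by
        rw [prod_mul_distrib, prod_const]
        unfold sz
        rw [Nat.cast_prod, prod_div_distrib, prod_const_one]
        ring
      rw [h4]
      have h5 : Y * C * (C ^ T.card / sz T) = Y / sz T * C ^ (T.card + 1) := by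
        rw [pow_succ]; ring
      rw [h5]
      refine (h.bd T).trans ?_
      have : 0 < C ^ (T.card + 1) := by positivity
      nlinarith
  refine (sum_le_sum h1).trans ?_
  rw [← mul_sum]
  apply mul_le_mul_of_nonneg_left _ (by positivity)
  have h6 : ∑ T ∈ X.powerset, ∏ x ∈ T, (C * (1 / (x.1 : ℝ))) = ∏ x ∈ X, (1 + C * (1 / (x.1 : ℝ))) := by
    rw [prod_one_add]
  rw [h6, mul_sum, Real.exp_sum]
  apply Finset.prod_le_prod
  · intro x _; positivity
  · intro x _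
    have := Real.add_one_le_exp (C * (1 / (x.1 : ℝ)))
    linarith

lemma sum_XX {ι : Type} [Fintype ι] (u v : ℝ) (f : ℕ → ℝ) :
    ∑ x ∈ XX ι u v, f x.1 = Fintype.card ι * ∑ p ∈ PR u v, f p := by
  unfold XX
  rw [sum_product]
  simp only [sum_const, card_univ, nsmul_eq_mul]
  rw [mul_sum]

/-- The total mass is at most `Y N^σ`. -/
theorem sum_abs_le' {ι : Type} [Fintype ι] (C σ : ℝ) (hC : 1 ≤ C) (hσ : 0 < σ) :
    ∃ N₀ : ℝ, ∀ N : ℝ, N₀ ≤ N → ∀ (D₀ : ℕ) (η Y : ℝ), 2 ≤ D₀ → η ≤ 1 → 0 ≤ Y →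
    ∀ c : Finset (ℕ × ι) → ℝ, Lev (XX ι D₀ (N ^ η)) c Y C →
    ∑ T ∈ (XX ι D₀ (N ^ η)).powerset, |c T| ≤ Y * N ^ σ := by
  obtain ⟨C₁, hC₁, hm⟩ := mert_sum
  set K : ℝ := (Fintype.card ι : ℝ) with hK
  have hK0 : 0 ≤ K := by positivity
  have hl2 : 0 < Real.log 2 := Real.log_pos (by norm_num)
  -- eventually `C exp (C K (log log N + c)) ≤ N^σ`
  have h1 : ∀ᶠ y : ℝ in atTop, Real.log C + C * (K * (y + (C₁ / Real.log 2 - Real.log (Real.log 2)))) ≤
      σ * Real.exp y := by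
    have h2 := Real.isLittleO_pow_exp_atTop (n := 1)
    have h3 := h2.bound (show 0 < σ / (2 * (C * K + 1)) by positivity)
    have h4 : ∀ᶠ y : ℝ in atTop, Real.log C + C * (K * (C₁ / Real.log 2 - Real.log (Real.log 2))) ≤
        σ / 2 * Real.exp y := by
      have := (Real.tendsto_exp_atTop.const_mul_atTop (show 0 < σ / 2 by positivity))
      exact this.eventually_ge_atTop _
    filter_upwards [h3, h4, eventually_ge_atTop (0 : ℝ)] with y h5 h6 h7
    rw [pow_one, Real.norm_of_nonneg h7, Real.norm_of_nonneg (Real.exp_pos y).le] at h5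
    have h8 : C * K * y ≤ σ / 2 * Real.exp y := by
      have h9 : C * K * y ≤ C * K * (σ / (2 * (C * K + 1)) * Real.exp y) :=
        mul_le_mul_of_nonneg_left h5 (by positivity)
      have h10 : C * K * (σ / (2 * (C * K + 1)) * Real.exp y) =
          (C * K / (C * K + 1)) * (σ / 2 * Real.exp y) := by
        field_simp
      have h11 : C * K / (C * K + 1) ≤ 1 := by
        rw [div_le_one (by positivity)]; linarith
      have h12 : 0 ≤ σ / 2 * Real.exp y := by positivity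
      nlinarith
    linarith
  have h2 := (Real.tendsto_log_atTop.comp Real.tendsto_log_atTop).eventually h1
  obtain ⟨N₀, hN₀⟩ := eventually_atTop.1 (h2.and (eventually_ge_atTop (3 : ℝ)))
  refine ⟨N₀, fun N hN D₀ η Y hD hη hY c hc => ?_⟩
  obtain ⟨h3, hN3⟩ := hN₀ N hN
  simp only [Function.comp_apply] at h3
  have hlN : 1 ≤ Real.log N := by
    rw [Real.le_log_iff_exp_le (by linarith)]
    linarith [Real.exp_one_lt_d9]
  have hNη : N ^ η ≤ N := by
    calc N ^ η ≤ N ^ (1 : ℝ) := Real.rpow_le_rpow_of_exponent_le (by linarith) hη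
      _ = N := Real.rpow_one N
  have hX : ∀ x ∈ XX ι D₀ (N ^ η), 1 ≤ x.1 := fun x hx => (mem_XX.1 hx).1.one_le
  refine (sum_abs_le _ c Y C hX hY hC hc).trans ?_
  rw [mul_assoc]
  apply mul_le_mul_of_nonneg_left _ hY
  have h4 : ∑ x ∈ XX ι D₀ (N ^ η), 1 / (x.1 : ℝ) ≤
      K * (Real.log (Real.log N) + (C₁ / Real.log 2 - Real.log (Real.log 2))) := by
    rw [sum_XX (ι := ι) (D₀ : ℝ) (N ^ η) (fun p => 1 / (p : ℝ))]
    apply mul_le_mul_of_nonneg_left _ hK0
    have h5 : PR D₀ (N ^ η) ⊆ PR 2 N := PR_mono (by exact_mod_cast hD) hNη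
    have h6 : ∑ p ∈ PR D₀ (N ^ η), 1 / (p : ℝ) ≤ ∑ p ∈ PR 2 N, 1 / (p : ℝ) :=
      sum_le_sum_of_subset_of_nonneg h5 fun _ _ _ => by positivity
    have h7 := (abs_le.1 (hm 2 N le_rfl (by linarith))).2
    linarith
  have h5 : C * Real.exp (C * ∑ x ∈ XX ι D₀ (N ^ η), 1 / (x.1 : ℝ)) ≤
      Real.exp (Real.log C + C * (K * (Real.log (Real.log N) +
        (C₁ / Real.log 2 - Real.log (Real.log 2))))) := by
    rw [Real.exp_add, Real.exp_log (by linarith)]
    apply mul_le_mul_of_nonneg_left _ (by linarith)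
    apply Real.exp_le_exp.2
    exact mul_le_mul_of_nonneg_left h4 (by linarith)
  refine h5.trans ?_
  rw [Real.exp_log (by linarith)] at h3
  rw [Real.rpow_def_of_pos (by linarith), mul_comm (Real.log N)]
  exact Real.exp_le_exp.2 h3

end Pool.Agent.GapTwo
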