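import Pool.Agent.Work.MP_1ea053_nt.T1
import Pool.Agent.Work.MP_1ea053_nt.K3Base
import Pool.Agent.Work.MP_1ea053_nt.Tool2

/-!
# Block VARD: arithmetic lemmas
-/

set_option autoImplicit false

namespace Pool.Agent.GapTwo.VAR_

open Finset Filter
open scoped Classical Topology

/-- Multiples of `W` in `II N κ`. -/
lemma II_mul {W : ℕ} {N κ : ℝ} (hW : 0 < W) (hN : 0 ≤ N) (hκ : 0 ≤ κ) (f : ℕ → ℝ) :
    ∑ n ∈ (II N κ).filter (fun n => W ∣ n), f n = ∑ n ∈ II (N / W) κ, f (W * n) := by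
  have hW' : (0 : ℝ) < W := by exact_mod_cast hW
  have h : (II N κ).filter (fun n => W ∣ n) = (II (N / W) κ).image (fun n => W * n) := by
    ext n
    rw [mem_filter, K3_.mem_II hN hκ, mem_image]
    constructor
    · rintro ⟨⟨h1, h2⟩, m, rfl⟩
      refine ⟨m, ?_, rfl⟩
      rw [K3_.mem_II (by positivity) hκ, div_lt_iff₀ hW', mul_div_assoc', le_div_iff₀ hW']
      push_cast at h1 h2
      constructor <;> linarith
    · rintro ⟨m, hm, rfl⟩
      rw [K3_.mem_II (by positivity) hκ, div_lt_iff₀ hW', mul_div_assoc', le_div_iff₀ hW'] at hm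
      refine ⟨?_, dvd_mul_right _ _⟩
      push_cast
      constructor <;> linarith [hm.1, hm.2]
  rw [h, sum_image]
  intro x _ y _ hxy
  exact Nat.eq_of_mul_eq_mul_left hW hxy

/-- The sum of a polynomial over a progression in `II (N / W)`. -/
lemma prog {ι : Type} [Fintype ι] (a : ι → ℕ) (X : Finset (ℕ × ι)) (hA : Adm a X) (W : ℕ)
    (hW : 0 < W) (hXW : ∀ x ∈ X, ¬ x.1 ∣ W) (c : Finset (ℕ × ι) → ℝ) (q b : ℕ) (hq : 0 < q)
    (hXq : ∀ x ∈ X, ¬ x.1 ∣ q) (N κ : ℝ) (hN : 0 ≤ N) (hκ : 0 ≤ κ) :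
    |∑ n ∈ (II (N / W) κ).filter (fun n => n ≡ b [MOD q]), poly c (ev a X (W * n))
      - κ * (N / W) * Eloc X c / q| ≤ ∑ T ∈ X.powerset, |c T| := by
  have h1 := stmt_T1 a X hA c (W * q) (W * b) (Nat.mul_pos hW hq)
    (fun x hx h => by
      rcases (hA x hx).1.dvd_mul.1 h with h | h
      · exact hXW x hx h
      · exact hXq x hx h) N κ hN hκ
  have h2 : ∑ n ∈ (II N κ).filter (fun n => n ≡ W * b [MOD W * q]), poly c (ev a X n) =
      ∑ n ∈ (II (N / W) κ).filter (fun n => n ≡ b [MOD q]), poly c (ev a X (W * n)) := by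
    have h3 : (II N κ).filter (fun n => n ≡ W * b [MOD W * q]) =
        ((II N κ).filter (fun n => W ∣ n)).filter (fun n => n ≡ W * b [MOD W * q]) := by
      rw [filter_filter]
      apply filter_congr
      intro n _
      constructor
      · intro h
        refine ⟨?_, h⟩
        have h4 : n ≡ W * b [MOD W] := h.of_mul_right q
        have h5 : W * b ≡ 0 [MOD W] := (Nat.modEq_zero_iff_dvd).2 (dvd_mul_right _ _)
        exact (Nat.modEq_zero_iff_dvd).1 (h4.trans h5)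
      · exact fun h => h.2
    rw [h3, sum_filter, II_mul hW hN hκ (fun n => if n ≡ W * b [MOD W * q] then
      poly c (ev a X n) else 0), sum_filter]
    refine sum_congr rfl fun n _ => ?_
    have h4 : (W * n ≡ W * b [MOD W * q]) ↔ n ≡ b [MOD q] := by
      constructor
      · intro h; exact Nat.ModEq.mul_left_cancel' hW.ne' h
      · intro h; exact h.mul_left' W
    simp only [h4]
  rw [h2] at h1
  have h3 : κ * N / ((W * q : ℕ) : ℝ) * Eloc X c = κ * (N / W) * Eloc X c / q := by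
    push_cast
    rw [← div_div]
    ring
  rw [h3] at h1
  exact h1

/-- One linear congruence. -/
lemma lin (A d : ℕ) (hd : 0 < d) (h : Nat.Coprime A d) :
    ∃ b : ℕ, ∀ n : ℕ, d ∣ A * n + 1 ↔ n ≡ b [MOD d] := by
  have : NeZero d := ⟨hd.ne'⟩
  have h1 : (A : ZMod d) * (A : ZMod d)⁻¹ = 1 := ZMod.coe_mul_inv_eq_one A h
  refine ⟨(-(A : ZMod d)⁻¹).val, fun n => ?_⟩
  rw [← ZMod.natCast_eq_zero_iff, ← ZMod.natCast_eq_natCast_iff, ZMod.natCast_zmod_val]
  push_cast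
  constructor
  · intro h2
    calc (n : ZMod d) = (A : ZMod d) * (A : ZMod d)⁻¹ * n := by rw [h1, one_mul]
      _ = (A : ZMod d)⁻¹ * ((A : ZMod d) * n + 1) - (A : ZMod d)⁻¹ := by ring
      _ = _ := by rw [h2]; ring
  · intro h2
    rw [h2]
    linear_combination -h1

/-- Two linear congruences. -/
lemma lin2 (A₁ A₂ d e : ℕ) (hd : 0 < d) (he : 0 < e) (h1 : Nat.Coprime A₁ d)
    (h2 : Nat.Coprime A₂ e) (h : Nat.Coprime d e) :
    ∃ b : ℕ, ∀ n : ℕ, (d ∣ A₁ * n + 1 ∧ e ∣ A₂ * n + 1) ↔ n ≡ b [MOD d * e] := by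
  obtain ⟨b₁, hb₁⟩ := lin A₁ d hd h1
  obtain ⟨b₂, hb₂⟩ := lin A₂ e he h2
  obtain ⟨b, hb, hb'⟩ := Nat.chineseRemainder h b₁ b₂
  refine ⟨b, fun n => ?_⟩
  rw [hb₁, hb₂, ← Nat.modEq_and_modEq_iff_modEq_mul h]
  constructor
  · rintro ⟨h3, h4⟩
    exact ⟨h3.trans hb.symm, h4.trans hb'.symm⟩
  · rintro ⟨h3, h4⟩
    exact ⟨h3.trans hb, h4.trans hb'⟩

/-- The values of the two forms are coprime. -/
lemma cop (A₁ A₂ : ℕ) (h : SamePr A₁ A₂) (n : ℕ) : Nat.Coprime (A₁ * n + 1) (A₂ * n + 1) := by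
  obtain ⟨_, _, _, h4, h5⟩ := h
  rw [Nat.coprime_iff_gcd_eq_one]
  by_contra hne
  obtain ⟨p, hp, hpd⟩ := Nat.exists_prime_and_dvd hne
  have h6 : p ∣ A₁ * n + 1 := hpd.trans (Nat.gcd_dvd_left _ _)
  have h7 : p ∣ A₂ * n + 1 := hpd.trans (Nat.gcd_dvd_right _ _)
  have h8 : (p : ℤ) ∣ (A₁ : ℤ) - A₂ := by
    have e1 : (p : ℤ) ∣ ((A₁ * n + 1 : ℕ) : ℤ) := Int.natCast_dvd_natCast.2 h6
    have e2 : (p : ℤ) ∣ ((A₂ * n + 1 : ℕ) : ℤ) := Int.natCast_dvd_natCast.2 h7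
    have e3 := dvd_sub (e2.mul_left (A₁ : ℤ)) (e1.mul_left (A₂ : ℤ))
    push_cast at e3
    have e4 : (A₁ : ℤ) * ((A₂ : ℤ) * n + 1) - (A₂ : ℤ) * ((A₁ : ℤ) * n + 1) = (A₁ : ℤ) - A₂ := by ring
    rwa [e4] at e3
  have h9 := h5 p hp h8
  have h10 : p ∣ 1 := (Nat.dvd_add_right (h9.mul_right n)).1 h6
  exact hp.one_lt.ne' (Nat.dvd_one.1 h10)

/-- Sum of `1 / d` over the multiples of `p`. -/
lemma sum_mult (s : Finset ℕ) (m : ℕ) (hs : s ⊆ Icc 1 m) (p : ℕ) (hp : 0 < p) :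
    ∑ d ∈ s.filter (fun d => p ∣ d), 1 / (d : ℝ) ≤ 1 / p * (1 + Real.log m) := by
  have hp' : (0 : ℝ) < p := by exact_mod_cast hp
  have h1 : ∑ d ∈ s.filter (fun d => p ∣ d), 1 / (d : ℝ) ≤
      ∑ d ∈ (Icc 1 m).image (fun k => p * k), 1 / (d : ℝ) := by
    apply sum_le_sum_of_subset_of_nonneg
    · intro d hd
      rw [mem_filter] at hd
      obtain ⟨h1, k, rfl⟩ := hd
      have h2 := mem_Icc.1 (hs h1)
      rw [mem_image]
      refine ⟨k, ?_, rfl⟩
      rw [mem_Icc]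
      have hk : 0 < k := by
        rcases Nat.eq_zero_or_pos k with h | h
        · rw [h] at h2; omega
        · exact h
      exact ⟨hk, (Nat.le_mul_of_pos_left k hp).trans h2.2⟩
    · intro d _ _; positivity
  refine h1.trans ?_
  rw [sum_image (fun x _ y _ hxy => Nat.eq_of_mul_eq_mul_left hp hxy)]
  have h2 : ∑ k ∈ Icc 1 m, 1 / ((p * k : ℕ) : ℝ) = 1 / p * ∑ k ∈ Icc 1 m, 1 / (k : ℝ) := by
    rw [mul_sum]
    refine sum_congr rfl fun k _ => ?_
    push_cast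
    rw [one_div_mul_one_div]
  rw [h2]
  apply mul_le_mul_of_nonneg_left _ (by positivity)
  have h3 := harmonic_le_one_add_log m
  rw [harmonic_eq_sum_Icc] at h3
  push_cast at h3
  simpa [one_div] using h3

lemma sum_inv (m : ℕ) : ∑ k ∈ Icc 1 m, 1 / (k : ℝ) ≤ 1 + Real.log m := by
  have := sum_mult (Icc 1 m) m subset_rfl 1 one_pos
  simpa using this

/-- The sum over pairs which are not coprime. -/
lemma nc (z : ℝ) (hz : 2 ≤ z) (m : ℕ) (s t : Finset ℕ) (hs : s ⊆ Icc 1 m) (ht : t ⊆ Icc 1 m)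
    (hs' : ∀ d ∈ s, ∀ p : ℕ, p.Prime → p ∣ d → z ≤ (p : ℝ)) :
    ∑ d ∈ s, ∑ e ∈ t, (if Nat.Coprime d e then 0 else 1 / (d : ℝ) * (1 / (e : ℝ))) ≤
      2 / z * (1 + Real.log m) ^ 2 := by
  have hL : 0 ≤ 1 + Real.log (m : ℝ) := by
    have := Real.log_natCast_nonneg m
    linarith
  set P := PR z ((m : ℝ) + 1) with hP
  have h1 : ∀ d ∈ s, ∀ e ∈ t, (if Nat.Coprime d e then 0 else 1 / (d : ℝ) * (1 / (e : ℝ))) ≤
      ∑ p ∈ P, (if p ∣ d then 1 / (d : ℝ) else 0) * (if p ∣ e then 1 / (e : ℝ) else 0) := by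
    intro d hd e he
    have hnn : ∀ p ∈ P, 0 ≤ (if p ∣ d then 1 / (d : ℝ) else 0) * (if p ∣ e then 1 / (e : ℝ) else 0) := by
      intro p _
      apply mul_nonneg <;> split_ifs <;> positivity
    by_cases h : Nat.Coprime d e
    · rw [if_pos h]
      exact sum_nonneg hnn
    · rw [if_neg h]
      obtain ⟨p, hp, hpd⟩ := Nat.exists_prime_and_dvd (fun h' => h (Nat.coprime_iff_gcd_eq_one.2 h'))
      have h6 : p ∣ d := hpd.trans (Nat.gcd_dvd_left _ _)
      have h7 : p ∣ e := hpd.trans (Nat.gcd_dvd_right _ _)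
      have hd1 := mem_Icc.1 (hs hd)
      have hpm : (p : ℝ) < (m : ℝ) + 1 := by
        have : p ≤ m := (Nat.le_of_dvd (by omega) h6).trans hd1.2
        have : (p : ℝ) ≤ m := by exact_mod_cast this
        linarith
      have hpP : p ∈ P := mem_PR.2 ⟨hp, hs' d hd p hp h6, hpm⟩
      refine le_trans (le_of_eq ?_) (single_le_sum hnn hpP)
      rw [if_pos h6, if_pos h7]
  refine (sum_le_sum fun d hd => sum_le_sum fun e he => h1 d hd e he).trans ?_
  have h2 : ∑ d ∈ s, ∑ e ∈ t, ∑ p ∈ P, (if p ∣ d then 1 / (d : ℝ) else 0) *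
      (if p ∣ e then 1 / (e : ℝ) else 0) = ∑ p ∈ P, (∑ d ∈ s.filter (fun d => p ∣ d), 1 / (d : ℝ)) *
        ∑ e ∈ t.filter (fun e => p ∣ e), 1 / (e : ℝ) := by
    have h3 : ∀ d ∈ s, ∑ e ∈ t, ∑ p ∈ P, (if p ∣ d then 1 / (d : ℝ) else 0) *
        (if p ∣ e then 1 / (e : ℝ) else 0) = ∑ p ∈ P, (if p ∣ d then 1 / (d : ℝ) else 0) *
          ∑ e ∈ t.filter (fun e => p ∣ e), 1 / (e : ℝ) := by
      intro d _
      rw [sum_comm]
      refine sum_congr rfl fun p _ => ?_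
      rw [← mul_sum, sum_filter]
    rw [sum_congr rfl h3, sum_comm]
    refine sum_congr rfl fun p _ => ?_
    rw [← sum_mul, sum_filter, sum_filter]
  rw [h2]
  have h3 : ∀ p ∈ P, (∑ d ∈ s.filter (fun d => p ∣ d), 1 / (d : ℝ)) *
      (∑ e ∈ t.filter (fun e => p ∣ e), 1 / (e : ℝ)) ≤ 1 / (p : ℝ) ^ 2 * (1 + Real.log m) ^ 2 := by
    intro p hp
    have hp0 : 0 < p := (mem_PR.1 hp).1.pos
    have a1 := sum_mult s m hs p hp0
    have a2 := sum_mult t m ht p hp0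
    calc _ ≤ (1 / (p : ℝ) * (1 + Real.log m)) * (1 / (p : ℝ) * (1 + Real.log m)) :=
          mul_le_mul a1 a2 (sum_nonneg fun _ _ => by positivity) (by positivity)
      _ = _ := by ring
  refine (sum_le_sum h3).trans ?_
  rw [← sum_mul]
  exact mul_le_mul_of_nonneg_right (sum_inv_sq_le hz) (by positivity)

/-- Representation of a polynomial as a periodic weight. -/
lemma Om_eq {ι : Type} [Fintype ι] (a : ι → ℕ) (X : Finset (ℕ × ι)) (hA : Adm a X) (W : ℕ)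
    (hXW : ∀ x ∈ X, ¬ x.1 ∣ W) (c : Finset (ℕ × ι) → ℝ) :
    ∃ b : Finset (ℕ × ι) → ℕ, ∀ n : ℕ,
      Om (X.powerset.filter (fun T => Cons T ∧ c T ≠ 0)) c sz b n = poly c (ev a X (W * n)) := by
  have h1 : ∀ T : Finset (ℕ × ι), ∃ b : ℕ, T ⊆ X → Cons T →
      ∀ n : ℕ, (∀ x ∈ T, x.1 ∣ a x.2 * (W * n) + 1) ↔ n ≡ b [MOD sz T] := by
    intro T
    by_cases hT : T ⊆ X ∧ Cons T
    · obtain ⟨b, hb⟩ := T1_.crt (fun i => a i * W) T (fun x hx => by
        obtain ⟨h2, h3, _⟩ := hA x (hT.1 hx)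
        refine ⟨h2, fun h => ?_⟩
        rcases h2.dvd_mul.1 h with h | h
        · exact h3 _ h
        · exact hXW x (hT.1 hx) h) hT.2
      refine ⟨b, fun _ _ n => ?_⟩
      rw [← hb n]
      simp only [mul_assoc]
    · exact ⟨0, fun h2 h3 => absurd ⟨h2, h3⟩ hT⟩
  choose b hb using h1
  refine ⟨b, fun n => ?_⟩
  unfold Om poly
  rw [sum_filter]
  have h3 : ∑ T ∈ (ev a X (W * n)).powerset, c T =
      ∑ T ∈ X.powerset, if T ⊆ ev a X (W * n) then c T else 0 := by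
    rw [← sum_filter]
    apply sum_congr _ fun _ _ => rfl
    ext T
    rw [mem_powerset, mem_filter, mem_powerset]
    exact ⟨fun h => ⟨h.trans (filter_subset _ _), h⟩, fun h => h.2⟩
  rw [h3]
  refine sum_congr rfl fun T hT => ?_
  rw [mem_powerset] at hT
  by_cases h4 : T ⊆ ev a X (W * n)
  · have hC : Cons T := by
      by_contra h
      exact T1_.not_cons a X T hA hT h _ h4
    have h5 := (hb T hT hC n).1 ((T1_.sub_ev a X T hT _).1 h4)
    rw [if_pos h4, if_pos h5]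
    by_cases h6 : c T = 0
    · rw [h6]; simp
    · rw [if_pos ⟨hC, h6⟩]
  · rw [if_neg h4]
    by_cases h6 : Cons T ∧ c T ≠ 0
    · rw [if_pos h6, if_neg]
      intro h7
      exact h4 ((T1_.sub_ev a X T hT _).2 ((hb T hT h6.1 n).2 h7))
    · rw [if_neg h6]

/-- `2 ^ ω(m) ≤ τ(m)`. -/
lemma two_pow_le (m : ℕ) (hm : m ≠ 0) : 2 ^ m.primeFactors.card ≤ m.divisors.card := by
  rw [← card_powerset]
  apply card_le_card_of_injOn (fun T : Finset ℕ => ∏ p ∈ T, p)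
  · intro T hT
    have hT' := mem_powerset.1 (mem_coe.1 hT)
    rw [mem_coe, Nat.mem_divisors]
    exact ⟨(prod_dvd_prod_of_subset _ _ _ hT').trans (Nat.prod_primeFactors_dvd m), hm⟩
  · intro T hT U hU h
    have hT' := mem_powerset.1 (mem_coe.1 hT)
    have hU' := mem_powerset.1 (mem_coe.1 hU)
    simp only at h
    rw [← Nat.primeFactors_prod (s := T) fun p hp => Nat.prime_of_mem_primeFactors (hT' hp), h,
      Nat.primeFactors_prod fun p hp => Nat.prime_of_mem_primeFactors (hU' hp)]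

/-- The number of events. -/
lemma card_ev {ι : Type} [Fintype ι] (a : ι → ℕ) (X : Finset (ℕ × ι))
    (hX : ∀ x ∈ X, x.1.Prime) (n : ℕ) :
    (ev a X n).card ≤ ∑ l, (a l * n + 1).primeFactors.card := by
  have h1 : ev a X n ⊆ univ.biUnion
      (fun l => (a l * n + 1).primeFactors.image (fun p => ((p, l) : ℕ × ι))) := by
    intro x hx
    obtain ⟨h1, h2⟩ := mem_filter.1 hx
    rw [mem_biUnion]
    refine ⟨x.2, mem_univ _, ?_⟩
    rw [mem_image]
    exact ⟨x.1, Nat.mem_primeFactors.2 ⟨hX x h1, h2, by omega⟩, rfl⟩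
  refine (card_le_card h1).trans (card_biUnion_le.trans ?_)
  exact sum_le_sum fun l _ => card_image_le

/-- The size of a polynomial. -/
lemma abs_poly_le {ι : Type} (c : Finset (ℕ × ι) → ℝ) (C : ℝ)
    (h : ∀ T, |c T| ≤ C ^ (T.card + 1)) (S : Finset (ℕ × ι)) :
    |poly c S| ≤ C * (1 + C) ^ S.card := by
  unfold poly
  refine (abs_sum_le_sum_abs _ _).trans ((sum_le_sum fun T _ => h T).trans ?_)
  have h1 : ∀ T ∈ S.powerset, C ^ (T.card + 1) = C * ∏ _x ∈ T, C := by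
    intro T _
    rw [prod_const, pow_succ, mul_comm]
  rw [sum_congr rfl h1, ← mul_sum, ← prod_one_add, prod_const]

/-- The polynomials are at most `N ^ ε`. -/
lemma bound_poly {ι : Type} [Fintype ι] (a : ι → ℕ) (W : ℕ) (hW : 0 < W) (C κ ε : ℝ)
    (hC : 1 ≤ C) (hκ0 : 0 < κ) (hκ1 : κ ≤ 1) (hε : 0 < ε) :
    ∃ N₀ : ℝ, ∀ N : ℝ, N₀ ≤ N → ∀ (X : Finset (ℕ × ι)), (∀ x ∈ X, x.1.Prime) →
      ∀ c : Finset (ℕ × ι) → ℝ, (∀ T, |c T| ≤ C ^ (T.card + 1)) →
      ∀ n ∈ II (N / W) κ, |poly c (ev a X (W * n))| ≤ N ^ ε := by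
  obtain ⟨k, hk⟩ : ∃ k : ℕ, 1 + C ≤ 2 ^ k := by
    obtain ⟨k, hk⟩ := pow_unbounded_of_one_lt (1 + C) (by norm_num : (1 : ℝ) < 2)
    exact ⟨k, hk.le⟩
  set K : ℕ := Fintype.card ι with hK
  set ε' : ℝ := ε / (2 * (K * k + 1)) with hε'
  have hε'0 : 0 < ε' := by positivity
  have h1 : ∀ l : ι, ∃ B : ℝ, 1 ≤ B ∧ ∀ (W' : ℕ) (N κ : ℝ), 0 < W' →
      0 < κ → κ ≤ 1 → 1 ≤ N → ∀ n ∈ II (N / W') κ, ∀ m : ℕ, m ∣ (a l * W) * n + 1 →
      (m.divisors.card : ℝ) ≤ B * N ^ ε' := fun l => K3_.div_bd (a l * W) ε' hε'0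
  choose B hB1 hB using h1
  set B' : ℝ := C * (∏ l, B l) ^ k with hB'
  have hBp : 1 ≤ ∏ l, B l := by
    have := Finset.prod_le_prod (s := (univ : Finset ι)) (f := fun _ => (1 : ℝ)) (g := B)
      (fun _ _ => zero_le_one) (fun l _ => hB1 l)
    simpa using this
  refine ⟨max 1 (B' ^ (2 / ε)), ?_⟩
  intro N hN X hX c hc n hn
  have hN1 : 1 ≤ N := (le_max_left _ _).trans hN
  have hN0 : 0 < N := by linarith
  have hB'0 : 0 < B' := by
    rw [hB']
    have : 0 < ∏ l, B l := by linarith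
    positivity
  have hBN : B' ≤ N ^ (ε / 2) := by
    have h2 : B' ^ (2 / ε) ≤ N := (le_max_right _ _).trans hN
    have h3 : (B' ^ (2 / ε)) ^ (ε / 2) ≤ N ^ (ε / 2) := Real.rpow_le_rpow (by positivity) h2 (by positivity)
    rw [← Real.rpow_mul hB'0.le] at h3
    have h4 : 2 / ε * (ε / 2) = 1 := by field_simp
    rw [h4, Real.rpow_one] at h3
    exact h3
  have h2 := abs_poly_le c C hc (ev a X (W * n))
  have h3 : (1 + C) ^ (ev a X (W * n)).card ≤ (∏ l, (B l * N ^ ε')) ^ k := by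
    calc (1 + C) ^ (ev a X (W * n)).card
        ≤ (1 + C) ^ (∑ l, (a l * (W * n) + 1).primeFactors.card) :=
          pow_le_pow_right₀ (by linarith) (card_ev a X hX _)
      _ ≤ ((2 : ℝ) ^ k) ^ (∑ l, (a l * (W * n) + 1).primeFactors.card) :=
          pow_le_pow_left₀ (by linarith) hk _
      _ = (∏ l, (2 : ℝ) ^ (a l * (W * n) + 1).primeFactors.card) ^ k := by
          rw [prod_pow_eq_pow_sum, ← pow_mul, ← pow_mul, mul_comm]
      _ ≤ _ := by
          apply pow_le_pow_left₀ (by positivity)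
          apply Finset.prod_le_prod
          · intro l _; positivity
          · intro l _
            have h4 := two_pow_le (a l * (W * n) + 1) (by omega)
            have h5 := hB l W N κ hW hκ0 hκ1 hN1 n hn (a l * (W * n) + 1) (by rw [mul_assoc])
            calc (2 : ℝ) ^ (a l * (W * n) + 1).primeFactors.card
                ≤ ((a l * (W * n) + 1).divisors.card : ℝ) := by exact_mod_cast h4
              _ ≤ _ := h5
  have h4 : (∏ l, (B l * N ^ ε')) ^ k = (∏ l, B l) ^ k * N ^ (ε' * (K * k)) := by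
    rw [prod_mul_distrib, prod_const, card_univ, mul_pow, ← hK, ← pow_mul, Real.rpow_mul hN0.le]
    congr 1
    rw [← Real.rpow_natCast]
    push_cast
    rfl
  have h5 : ε' * (K * k) ≤ ε / 2 := by
    rw [hε', div_mul_eq_mul_div, div_le_div_iff₀ (by positivity) (by norm_num)]
    have : 0 ≤ (K : ℝ) * k := by positivity
    nlinarith
  calc |poly c (ev a X (W * n))| ≤ C * (1 + C) ^ (ev a X (W * n)).card := h2
    _ ≤ C * ((∏ l, B l) ^ k * N ^ (ε' * (K * k))) := by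
        rw [← h4]
        exact mul_le_mul_of_nonneg_left h3 (by linarith)
    _ = B' * N ^ (ε' * (K * k)) := by rw [hB']; ring
    _ ≤ N ^ (ε / 2) * N ^ (ε / 2) := by
        apply mul_le_mul hBN _ (by positivity) (by positivity)
        exact Real.rpow_le_rpow_of_exponent_le hN1 h5
    _ = N ^ ε := by
        rw [← Real.rpow_add hN0]
        congr 1
        ring

/-- The total mass with the weights `1 / sz T`. -/
lemma eloc_abs_le {ι : Type} (X : Finset (ℕ × ι)) (c : Finset (ℕ × ι) → ℝ) (C : ℝ)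
    (hC : 0 ≤ C) (h : ∀ T, |c T| ≤ C ^ (T.card + 1)) :
    |Eloc X c| ≤ C * Real.exp (C * ∑ x ∈ X, 1 / (x.1 : ℝ)) := by
  have h1 : |Eloc X c| ≤ ∑ T ∈ X.powerset, |c T| / sz T := by
    unfold Eloc
    refine (abs_sum_le_sum_abs _ _).trans ?_
    refine le_trans (le_of_eq (sum_congr rfl fun T _ => ?_)) (sum_le_sum_of_subset_of_nonneg
      (filter_subset _ _) fun T _ _ => by positivity)
    rw [abs_div, Nat.abs_cast]
  refine h1.trans ?_
  have h2 : ∀ T ∈ X.powerset, |c T| / sz T ≤ C * ∏ x ∈ T, (C * (1 / (x.1 : ℝ))) := by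
    intro T _
    have h4 : ∏ x ∈ T, (C * (1 / (x.1 : ℝ))) = C ^ T.card / sz T := by
      rw [prod_mul_distrib, prod_const]
      unfold sz
      rw [Nat.cast_prod, prod_div_distrib, prod_const_one]
      ring
    rw [h4]
    have h5 : C * (C ^ T.card / sz T) = C ^ (T.card + 1) / sz T := by
      rw [pow_succ]; ring
    rw [h5]
    exact div_le_div_of_nonneg_right (h T) (Nat.cast_nonneg _)
  refine (sum_le_sum h2).trans ?_
  rw [← mul_sum]
  apply mul_le_mul_of_nonneg_left _ hC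
  rw [← prod_one_add, mul_sum, Real.exp_sum]
  apply Finset.prod_le_prod
  · intro x _; positivity
  · intro x _
    have := Real.add_one_le_exp (C * (1 / (x.1 : ℝ)))
    linarith

/-- `Eloc` is at most `N ^ σ`. -/
lemma eloc_le {ι : Type} [Fintype ι] (C σ : ℝ) (hC : 1 ≤ C) (hσ : 0 < σ) :
    ∃ N₀ : ℝ, ∀ N : ℝ, N₀ ≤ N → ∀ (D₀ : ℕ) (η : ℝ), 2 ≤ D₀ → η ≤ 1 →
    ∀ c : Finset (ℕ × ι) → ℝ, (∀ T, |c T| ≤ C ^ (T.card + 1)) →
    |Eloc (XX ι D₀ (N ^ η)) c| ≤ N ^ σ := by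
  obtain ⟨C₁, hC₁, hm⟩ := mert_sum
  set K : ℝ := (Fintype.card ι : ℝ) with hK
  have hK0 : 0 ≤ K := by positivity
  have hl2 : 0 < Real.log 2 := Real.log_pos (by norm_num)
  have h1 : ∀ᶠ y : ℝ in atTop, Real.log C + C * (K * (y + (C₁ / Real.log 2 - Real.log (Real.log 2)))) ≤
      σ * Real.exp y := by
    have h2 := Real.isLittleO_pow_exp_atTop (n := 1)
    have h3 := h2.bound (show 0 < σ / (2 * (C * K + 1)) by positivity)
    have h4 : ∀ᶠ y : ℝ in atTop, Real.log C + C * (K * (C₁ / Real.log 2 - Real.log (Real.log 2))) ≤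
        σ / 2 * Real.exp y := by
      have := (Real.tendsto_exp_atTop.const_mul_atTop (show 0 < σ / 2 by positivity))
      exact this.eventually_ge_atTop _
    filter_upwards [h3, h4, eventually_ge_atTop (0 : ℝ)] with y h5 h6 h7
    rw [pow_one, Real.norm_of_nonneg h7, Real.norm_of_nonneg (Real.exp_pos y).le] at h5
    have h8 : C * K * y ≤ σ / 2 * Real.exp y := by
      have h9 : C * K * y ≤ C * K * (σ / (2 * (C * K + 1)) * Real.exp y) :=
        mul_le_mul_of_nonneg_left h5 (by positivity)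
      have h10 : C * K * (σ / (2 * (C * K + 1)) * Real.exp y) =
          (C * K / (C * K + 1)) * (σ / 2 * Real.exp y) := by
        field_simp
      have h11 : C * K / (C * K + 1) ≤ 1 := by
        rw [div_le_one (by positivity)]; linarith
      have h12 : 0 ≤ σ / 2 * Real.exp y := by positivity
      nlinarith
    linarith
  have h2 := (Real.tendsto_log_atTop.comp Real.tendsto_log_atTop).eventually h1
  obtain ⟨N₀, hN₀⟩ := eventually_atTop.1 (h2.and (eventually_ge_atTop (3 : ℝ)))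
  refine ⟨N₀, fun N hN D₀ η hD hη c hc => ?_⟩
  obtain ⟨h3, hN3⟩ := hN₀ N hN
  simp only [Function.comp_apply] at h3
  have hlN : 1 ≤ Real.log N := by
    rw [Real.le_log_iff_exp_le (by linarith)]
    linarith [Real.exp_one_lt_d9]
  have hNη : N ^ η ≤ N := by
    calc N ^ η ≤ N ^ (1 : ℝ) := Real.rpow_le_rpow_of_exponent_le (by linarith) hη
      _ = N := Real.rpow_one N
  refine (eloc_abs_le _ c C (by linarith) hc).trans ?_
  have h4 : ∑ x ∈ XX ι D₀ (N ^ η), 1 / (x.1 : ℝ) ≤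
      K * (Real.log (Real.log N) + (C₁ / Real.log 2 - Real.log (Real.log 2))) := by
    rw [sum_XX (ι := ι) (D₀ : ℝ) (N ^ η) (fun p => 1 / (p : ℝ))]
    apply mul_le_mul_of_nonneg_left _ hK0
    have h5 : PR D₀ (N ^ η) ⊆ PR 2 N := PR_mono (by exact_mod_cast hD) hNη
    have h6 : ∑ p ∈ PR D₀ (N ^ η), 1 / (p : ℝ) ≤ ∑ p ∈ PR 2 N, 1 / (p : ℝ) :=
      sum_le_sum_of_subset_of_nonneg h5 fun _ _ _ => by positivity
    have h7 := (abs_le.1 (hm 2 N le_rfl (by linarith))).2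
    linarith
  have h5 : C * Real.exp (C * ∑ x ∈ XX ι D₀ (N ^ η), 1 / (x.1 : ℝ)) ≤
      Real.exp (Real.log C + C * (K * (Real.log (Real.log N) +
        (C₁ / Real.log 2 - Real.log (Real.log 2))))) := by
    rw [Real.exp_add, Real.exp_log (by linarith)]
    apply mul_le_mul_of_nonneg_left _ (by linarith)
    apply Real.exp_le_exp.2
    exact mul_le_mul_of_nonneg_left h4 (by linarith)
  refine h5.trans ?_
  rw [Real.exp_log (by linarith)] at h3
  rw [Real.rpow_def_of_pos (by linarith), mul_comm (Real.log N)]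
  exact Real.exp_le_exp.2 h3

/-- Rough numbers: all prime factors are at least `z`. -/
def Rg (z : ℝ) (d : ℕ) : Prop := Squarefree d ∧ ∀ p : ℕ, p.Prime → p ∣ d → z ≤ (p : ℝ)

/-- The well factorable weights against a test function. -/
lemma pair (lam : ℕ → ℝ) (M : ℕ) (α β : Fin M → ℕ → ℝ) (Z D₁ D₂ : ℝ) (hD₁ : 1 ≤ D₁)
    (hD₂ : 1 ≤ D₂) (hZ : D₁ * D₂ = Z) (z : ℝ)
    (hα : ∀ i, Rough z (α i)) (hβ : ∀ i, Rough z (β i))
    (hα' : ∀ i d, α i d ≠ 0 → (d : ℝ) ≤ D₁) (hβ' : ∀ i d, β i d ≠ 0 → (d : ℝ) ≤ D₂)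
    (hlam : ∀ d, lam d ≠ 0 → Squarefree d)
    (h : ∀ d, Squarefree d → lam d = ∑ i, ∑ x ∈ d.divisorsAntidiagonal, α i x.1 * β i x.2)
    (φ : ℕ → ℝ) :
    ∑ d ∈ Icc 1 ⌊Z⌋₊, lam d * φ d = ∑ i, ∑ x ∈ Icc 1 ⌊D₁⌋₊, ∑ y ∈ Icc 1 ⌊D₂⌋₊,
      if Nat.Coprime x y then α i x * β i y * φ (x * y) else 0 := by
  have h1 : ∑ d ∈ Icc 1 ⌊Z⌋₊, lam d * φ d = ∑ d ∈ (Icc 1 ⌊Z⌋₊).filter Squarefree,
      ∑ i, ∑ x ∈ d.divisorsAntidiagonal, α i x.1 * β i x.2 * φ d := by
    rw [sum_filter]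
    refine sum_congr rfl fun d _ => ?_
    by_cases hd : Squarefree d
    · rw [if_pos hd, h d hd, sum_mul]
      refine sum_congr rfl fun i _ => ?_
      rw [sum_mul]
    · rw [if_neg hd]
      have : lam d = 0 := by
        by_contra h2
        exact hd (hlam d h2)
      rw [this, zero_mul]
  rw [h1, sum_comm]
  refine sum_congr rfl fun i _ => ?_
  -- compare the supports
  set Q : Finset (ℕ × ℕ) := ((Icc 1 ⌊D₁⌋₊) ×ˢ (Icc 1 ⌊D₂⌋₊)).filter
    (fun x => Nat.Coprime x.1 x.2 ∧ α i x.1 ≠ 0 ∧ β i x.2 ≠ 0) with hQ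
  have h2 : ∑ x ∈ Icc 1 ⌊D₁⌋₊, ∑ y ∈ Icc 1 ⌊D₂⌋₊,
      (if Nat.Coprime x y then α i x * β i y * φ (x * y) else 0) =
      ∑ x ∈ Q, α i x.1 * β i x.2 * φ (x.1 * x.2) := by
    rw [hQ, sum_filter, sum_product]
    refine sum_congr rfl fun x _ => sum_congr rfl fun y _ => ?_
    by_cases h3 : Nat.Coprime x y
    · rw [if_pos h3]
      by_cases h4 : α i x = 0
      · rw [h4]; simp
      · by_cases h5 : β i y = 0
        · rw [h5]; simp
        · rw [if_pos ⟨h3, h4, h5⟩]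
    · rw [if_neg h3, if_neg (fun h => h3 h.1)]
  have hmaps : ∀ x ∈ Q, x.1 * x.2 ∈ (Icc 1 ⌊Z⌋₊).filter Squarefree := by
    intro x hx
    rw [hQ, mem_filter, mem_product, mem_Icc, mem_Icc] at hx
    obtain ⟨⟨⟨h3, h4⟩, h5, h6⟩, h7, h8, h9⟩ := hx
    rw [mem_filter, mem_Icc]
    refine ⟨⟨Nat.mul_pos h3 h5, ?_⟩, ?_⟩
    · apply Nat.le_floor
      rw [← hZ]
      push_cast
      exact mul_le_mul ((Nat.le_floor_iff (by linarith)).1 h4) ((Nat.le_floor_iff (by linarith)).1 h6)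
        (Nat.cast_nonneg _) (by linarith)
    · exact (Nat.squarefree_mul h7).2 ⟨(hα i _ h8).1, (hβ i _ h9).1⟩
  rw [h2, ← sum_fiberwise_of_maps_to hmaps]
  refine sum_congr rfl fun d hd => ?_
  rw [mem_filter] at hd
  symm
  apply sum_subset_zero_on_sdiff
  · intro x hx
    rw [mem_filter] at hx
    rw [Nat.mem_divisorsAntidiagonal]
    exact ⟨hx.2, hd.2.ne_zero⟩
  · intro x hx
    rw [Finset.mem_sdiff, Nat.mem_divisorsAntidiagonal] at hx
    obtain ⟨⟨h3, h4⟩, h5⟩ := hx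
    by_contra h6
    apply h5
    have h7 : α i x.1 ≠ 0 := fun h => h6 (by rw [h]; simp)
    have h8 : β i x.2 ≠ 0 := fun h => h6 (by rw [h]; simp)
    have h9 : 0 < x.1 * x.2 := by rw [h3]; exact Nat.pos_of_ne_zero h4
    rw [mem_filter, hQ, mem_filter, mem_product, mem_Icc, mem_Icc]
    refine ⟨⟨⟨⟨Nat.pos_of_mul_pos_right h9, Nat.le_floor (hα' i _ h7)⟩,
      Nat.pos_of_mul_pos_left h9, Nat.le_floor (hβ' i _ h8)⟩, ?_, h7, h8⟩, h3⟩
    exact Nat.coprime_of_squarefree_mul (by rw [h3]; exact hd.2)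
  · intro x hx
    rw [mem_filter] at hx
    rw [hx.2]

end Pool.Agent.GapTwo.VAR_
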