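import Pool.Agent.Work.MP_1ea053_nt.VARA

/-!
# Block VARD: one dyadic range
-/

set_option autoImplicit false

namespace Pool.Agent.GapTwo.VAR_

open Finset Filter
open scoped Classical Topology

/-- The sums over the two divisibility conditions. -/
noncomputable def SS (I : Finset ℕ) (A₁ A₂ : ℕ) (Ω : ℕ → ℝ) (d e : ℕ) : ℝ :=
  ∑ n ∈ I.filter (fun n => d ∣ A₁ * n + 1 ∧ e ∣ A₂ * n + 1), Ω n

/-- Progression hypothesis. -/
def Prog (I : Finset ℕ) (A₁ A₂ : ℕ) (Ω : ℕ → ℝ) (z MΩ B : ℝ) : Prop :=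
  ∀ d e : ℕ, Rg z d → Rg z e → Nat.Coprime d e →
    |SS I A₁ A₂ Ω d e - MΩ * (1 / (d : ℝ) * (1 / (e : ℝ)))| ≤ B

lemma SS_zero (I : Finset ℕ) (A₁ A₂ : ℕ) (hS : SamePr A₁ A₂) (Ω : ℕ → ℝ) (d e : ℕ)
    (h : ¬ Nat.Coprime d e) : SS I A₁ A₂ Ω d e = 0 := by
  unfold SS
  rw [filter_false_of_mem, sum_empty]
  rintro n _ ⟨h1, h2⟩
  exact h (Nat.Coprime.of_dvd h1 h2 (cop A₁ A₂ hS n))

section one

variable {I : Finset ℕ} {A₁ A₂ : ℕ} {Ω : ℕ → ℝ} {z MΩ B : ℝ}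

lemma SS_bd (hS : SamePr A₁ A₂) (hB : 0 ≤ B) (hP : Prog I A₁ A₂ Ω z MΩ B) (d e : ℕ)
    (hd : Rg z d) (he : Rg z e) :
    |SS I A₁ A₂ Ω d e - MΩ * (1 / (d : ℝ) * (1 / (e : ℝ)))| ≤
      B + |MΩ| * (if Nat.Coprime d e then 0 else 1 / (d : ℝ) * (1 / (e : ℝ))) := by
  by_cases h : Nat.Coprime d e
  · rw [if_pos h, mul_zero, add_zero]
    exact hP d e hd he h
  · rw [if_neg h, SS_zero I A₁ A₂ hS Ω d e h, zero_sub, abs_neg, abs_mul]
    have : 0 ≤ 1 / (d : ℝ) * (1 / (e : ℝ)) := by positivity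
    rw [abs_of_nonneg this]
    linarith

/-- Sums of two rough bounded functions against the progression sums. -/
lemma small (hS : SamePr A₁ A₂) (hB : 0 ≤ B) (hz : 2 ≤ z) (hP : Prog I A₁ A₂ Ω z MΩ B)
    (m : ℕ) (s t : Finset ℕ) (hs : s ⊆ Icc 1 m) (ht : t ⊆ Icc 1 m) (f g : ℕ → ℝ)
    (hf : Rough z f) (hg : Rough z g) (hf1 : ∀ d, |f d| ≤ 1) (hg1 : ∀ d, |g d| ≤ 1) (T : ℝ)
    (hT : (s.card : ℝ) * t.card ≤ T) :
    |∑ d ∈ s, ∑ e ∈ t, f d * g e * (SS I A₁ A₂ Ω d e - MΩ * (1 / (d : ℝ) * (1 / (e : ℝ))))| ≤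
      T * B + |MΩ| * (2 / z * (1 + Real.log m) ^ 2) := by
  set s' := s.filter (fun d => f d ≠ 0) with hs'
  have h1 : ∀ d ∈ s, ∀ e ∈ t, |f d * g e * (SS I A₁ A₂ Ω d e -
      MΩ * (1 / (d : ℝ) * (1 / (e : ℝ))))| ≤ B + |MΩ| * (if f d ≠ 0 then
        (if Nat.Coprime d e then 0 else 1 / (d : ℝ) * (1 / (e : ℝ))) else 0) := by
    intro d _ e _
    have hnn : 0 ≤ |MΩ| * (if f d ≠ 0 then
        (if Nat.Coprime d e then 0 else 1 / (d : ℝ) * (1 / (e : ℝ))) else 0) := by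
      apply mul_nonneg (abs_nonneg _)
      split_ifs <;> positivity
    by_cases h2 : f d = 0
    · rw [h2, zero_mul, zero_mul, abs_zero]
      rw [h2] at hnn
      linarith
    · by_cases h3 : g e = 0
      · rw [h3, mul_zero, zero_mul, abs_zero]
        linarith
      · have h4 := SS_bd hS hB hP d e (hf d h2) (hg e h3)
        rw [if_pos h2, abs_mul, abs_mul]
        have h5 : |f d| * |g e| ≤ 1 := by
          have := mul_le_mul (hf1 d) (hg1 e) (abs_nonneg _) zero_le_one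
          linarith
        calc _ ≤ 1 * |SS I A₁ A₂ Ω d e - MΩ * (1 / (d : ℝ) * (1 / (e : ℝ)))| :=
              mul_le_mul_of_nonneg_right h5 (abs_nonneg _)
          _ ≤ _ := by rw [one_mul]; exact h4
  have h2 : |∑ d ∈ s, ∑ e ∈ t, f d * g e * (SS I A₁ A₂ Ω d e -
      MΩ * (1 / (d : ℝ) * (1 / (e : ℝ))))| ≤ ∑ d ∈ s, ∑ e ∈ t, (B + |MΩ| * (if f d ≠ 0 then
        (if Nat.Coprime d e then 0 else 1 / (d : ℝ) * (1 / (e : ℝ))) else 0)) := by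
    refine (abs_sum_le_sum_abs _ _).trans (sum_le_sum fun d hd => ?_)
    exact (abs_sum_le_sum_abs _ _).trans (sum_le_sum fun e he => h1 d hd e he)
  refine h2.trans ?_
  have h3 : ∑ d ∈ s, ∑ e ∈ t, (B + |MΩ| * (if f d ≠ 0 then
        (if Nat.Coprime d e then 0 else 1 / (d : ℝ) * (1 / (e : ℝ))) else 0)) =
      (s.card : ℝ) * t.card * B + |MΩ| * ∑ d ∈ s', ∑ e ∈ t,
        (if Nat.Coprime d e then 0 else 1 / (d : ℝ) * (1 / (e : ℝ))) := by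
    simp only [sum_add_distrib, sum_const, nsmul_eq_mul, ← mul_sum]
    rw [hs', sum_filter, mul_assoc]
    congr 2
    refine sum_congr rfl fun d _ => ?_
    split_ifs
    · rfl
    · simp
  rw [h3]
  have h4 := nc z hz m s' t ((filter_subset _ _).trans hs) ht
    (fun d hd => (hf d (mem_filter.1 hd).2).2)
  have h5 : (s.card : ℝ) * t.card * B ≤ T * B := mul_le_mul_of_nonneg_right hT hB
  have h6 := mul_le_mul_of_nonneg_left h4 (abs_nonneg MΩ)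
  linarith

end one

/-- `gg` as a sum over an interval. -/
lemma gg_Icc (lam : ℕ → ℝ) (Z : ℝ) (h : ∀ d, lam d ≠ 0 → (d : ℝ) ≤ Z) (L : ℕ) (hL : 0 < L) :
    gg lam L = ∑ d ∈ Icc 1 ⌊Z⌋₊, lam d * (if d ∣ L then 1 else 0) := by
  unfold gg
  have h1 : ∑ d ∈ Icc 1 ⌊Z⌋₊, lam d * (if d ∣ L then (1 : ℝ) else 0) =
      ∑ d ∈ (Icc 1 ⌊Z⌋₊).filter (fun d => d ∣ L), lam d := by
    rw [sum_filter]
    refine sum_congr rfl fun d _ => ?_
    split_ifs <;> simp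
  rw [h1]
  symm
  apply sum_subset
  · intro d hd
    rw [mem_filter] at hd
    exact Nat.mem_divisors.2 ⟨hd.2, hL.ne'⟩
  · intro d hd hd'
    by_contra h2
    apply hd'
    have h3 := Nat.mem_divisors.1 hd
    rw [mem_filter, mem_Icc]
    exact ⟨⟨Nat.pos_of_dvd_of_pos h3.1 hL, Nat.le_floor (h d h2)⟩, h3.1⟩

/-- `n` is bad if its value has a large square factor. -/
def Bad (z : ℝ) (L : ℕ) : Prop := ∃ p : ℕ, p.Prime ∧ z ≤ (p : ℝ) ∧ p ^ 2 ∣ L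

/-- The error made by dropping the coprimality condition. -/
lemma err_bd (lam : ℕ → ℝ) (M : ℕ) (α β : Fin M → ℕ → ℝ) (Z D₁ D₂ : ℝ) (hD₁ : 1 ≤ D₁)
    (hD₂ : 1 ≤ D₂) (hZ : D₁ * D₂ = Z) (z : ℝ)
    (hα : ∀ i, Rough z (α i)) (hβ : ∀ i, Rough z (β i))
    (hα1 : ∀ i d, |α i d| ≤ 1) (hβ1 : ∀ i d, |β i d| ≤ 1)
    (hα' : ∀ i d, α i d ≠ 0 → (d : ℝ) ≤ D₁) (hβ' : ∀ i d, β i d ≠ 0 → (d : ℝ) ≤ D₂)
    (hlam : ∀ d, lam d ≠ 0 → Squarefree d) (hlamZ : ∀ d, lam d ≠ 0 → (d : ℝ) ≤ Z)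
    (h : ∀ d, Squarefree d → lam d = ∑ i, ∑ x ∈ d.divisorsAntidiagonal, α i x.1 * β i x.2)
    (L : ℕ) (hL : 0 < L) :
    |∑ i, ∑ x ∈ Icc 1 ⌊D₁⌋₊, ∑ y ∈ Icc 1 ⌊D₂⌋₊, α i x * β i y * (if x * y ∣ L then 1 else 0)
      - gg lam L| ≤ if Bad z L then (M : ℝ) * (L.divisors.card : ℝ) ^ 2 else 0 := by
  rw [gg_Icc lam Z hlamZ L hL, pair lam M α β Z D₁ D₂ hD₁ hD₂ hZ z hα hβ hα' hβ' hlam h
    (fun d => if d ∣ L then 1 else 0)]
  simp only [← sum_sub_distrib]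
  have h1 : ∀ i, ∀ x ∈ Icc 1 ⌊D₁⌋₊, ∀ y ∈ Icc 1 ⌊D₂⌋₊,
      |α i x * β i y * (if x * y ∣ L then 1 else 0) -
        (if Nat.Coprime x y then α i x * β i y * (if x * y ∣ L then 1 else 0) else 0)| ≤
      (if Bad z L then 1 else 0) * ((if x ∣ L then 1 else 0) * (if y ∣ L then 1 else 0)) := by
    intro i x _ y _
    have hnn : 0 ≤ (if Bad z L then (1 : ℝ) else 0) *
        ((if x ∣ L then 1 else 0) * (if y ∣ L then 1 else 0)) := by
      split_ifs <;> norm_num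
    by_cases h2 : Nat.Coprime x y
    · rw [if_pos h2, sub_self, abs_zero]
      exact hnn
    · rw [if_neg h2, sub_zero]
      by_cases h3 : x * y ∣ L
      · by_cases h4 : α i x = 0
        · rw [h4]; simpa using hnn
        · by_cases h5 : β i y = 0
          · rw [h5]; simpa using hnn
          · obtain ⟨p, hp, hpd⟩ := Nat.exists_prime_and_dvd
              (fun h' => h2 (Nat.coprime_iff_gcd_eq_one.2 h'))
            have h6 : p ∣ x := hpd.trans (Nat.gcd_dvd_left _ _)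
            have h7 : p ∣ y := hpd.trans (Nat.gcd_dvd_right _ _)
            have hb : Bad z L := ⟨p, hp, (hα i x h4).2 p hp h6, by
              rw [pow_two]; exact (mul_dvd_mul h6 h7).trans h3⟩
            rw [if_pos hb, if_pos ((dvd_mul_right x y).trans h3),
              if_pos ((dvd_mul_left y x).trans h3), if_pos h3, mul_one, abs_mul]
            have := mul_le_mul (hα1 i x) (hβ1 i y) (abs_nonneg _) zero_le_one
            linarith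
      · rw [if_neg h3, mul_zero, abs_zero]
        exact hnn
  have hdiv : ∀ a : ℕ, ∑ x ∈ Icc 1 a, (if x ∣ L then (1 : ℝ) else 0) ≤ L.divisors.card := by
    intro a
    rw [← sum_filter, sum_const, nsmul_eq_mul, mul_one]
    exact_mod_cast card_le_card fun x hx => by
      rw [mem_filter] at hx
      exact Nat.mem_divisors.2 ⟨hx.2, hL.ne'⟩
  have hdiv0 : ∀ a : ℕ, 0 ≤ ∑ x ∈ Icc 1 a, (if x ∣ L then (1 : ℝ) else 0) := fun a =>
    sum_nonneg fun x _ => by split_ifs <;> norm_num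
  calc _ ≤ ∑ i : Fin M, ∑ x ∈ Icc 1 ⌊D₁⌋₊, ∑ y ∈ Icc 1 ⌊D₂⌋₊,
        (if Bad z L then (1 : ℝ) else 0) * ((if x ∣ L then 1 else 0) * (if y ∣ L then 1 else 0)) := by
        refine (abs_sum_le_sum_abs _ _).trans (sum_le_sum fun i _ => ?_)
        refine (abs_sum_le_sum_abs _ _).trans (sum_le_sum fun x hx => ?_)
        exact (abs_sum_le_sum_abs _ _).trans (sum_le_sum fun y hy => h1 i x hx y hy)
    _ = ∑ _i : Fin M, (if Bad z L then (1 : ℝ) else 0) *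
          ((∑ x ∈ Icc 1 ⌊D₁⌋₊, (if x ∣ L then (1 : ℝ) else 0)) *
            ∑ y ∈ Icc 1 ⌊D₂⌋₊, (if y ∣ L then (1 : ℝ) else 0)) := by
        refine sum_congr rfl fun i _ => ?_
        rw [sum_mul_sum, mul_sum]
        refine sum_congr rfl fun x _ => ?_
        rw [mul_sum]
    _ ≤ _ := by
        rw [sum_const, card_univ, Fintype.card_fin, nsmul_eq_mul]
        by_cases hb : Bad z L
        · rw [if_pos hb, if_pos hb, one_mul, pow_two]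
          apply mul_le_mul_of_nonneg_left _ (Nat.cast_nonneg _)
          exact mul_le_mul (hdiv _) (hdiv _) (hdiv0 _) (Nat.cast_nonneg _)
        · rw [if_neg hb, if_neg hb, zero_mul, mul_zero]

/-- The product sums against the main term. -/
lemma gam_bd (lam : ℕ → ℝ) (M : ℕ) (α β : Fin M → ℕ → ℝ) (Z D₁ D₂ : ℝ) (hD₁ : 1 ≤ D₁)
    (hD₂ : 1 ≤ D₂) (hZ : D₁ * D₂ = Z) (z : ℝ) (hz : 2 ≤ z)
    (hα : ∀ i, Rough z (α i)) (hβ : ∀ i, Rough z (β i))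
    (hα1 : ∀ i d, |α i d| ≤ 1) (hβ1 : ∀ i d, |β i d| ≤ 1)
    (hα' : ∀ i d, α i d ≠ 0 → (d : ℝ) ≤ D₁) (hβ' : ∀ i d, β i d ≠ 0 → (d : ℝ) ≤ D₂)
    (hlam : ∀ d, lam d ≠ 0 → Squarefree d)
    (h : ∀ d, Squarefree d → lam d = ∑ i, ∑ x ∈ d.divisorsAntidiagonal, α i x.1 * β i x.2)
    (m : ℕ) (hm₁ : ⌊D₁⌋₊ ≤ m) (hm₂ : ⌊D₂⌋₊ ≤ m) :
    |∑ i, (∑ x ∈ Icc 1 ⌊D₁⌋₊, α i x * (1 / (x : ℝ))) * (∑ y ∈ Icc 1 ⌊D₂⌋₊, β i y * (1 / (y : ℝ)))
      - ∑ d ∈ Icc 1 ⌊Z⌋₊, lam d * (1 / (d : ℝ))| ≤ M * (2 / z * (1 + Real.log m) ^ 2) := by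
  rw [pair lam M α β Z D₁ D₂ hD₁ hD₂ hZ z hα hβ hα' hβ' hlam h (fun d => 1 / (d : ℝ)),
    ← sum_sub_distrib]
  have h1 : ∀ i, |(∑ x ∈ Icc 1 ⌊D₁⌋₊, α i x * (1 / (x : ℝ))) *
      (∑ y ∈ Icc 1 ⌊D₂⌋₊, β i y * (1 / (y : ℝ))) - ∑ x ∈ Icc 1 ⌊D₁⌋₊, ∑ y ∈ Icc 1 ⌊D₂⌋₊,
        (if Nat.Coprime x y then α i x * β i y * (1 / ((x * y : ℕ) : ℝ)) else 0)| ≤
      2 / z * (1 + Real.log m) ^ 2 := by
    intro i
    rw [sum_mul_sum]
    simp only [← sum_sub_distrib]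
    set s' := (Icc 1 ⌊D₁⌋₊).filter (fun d => α i d ≠ 0) with hs'
    have h2 : ∀ x ∈ Icc 1 ⌊D₁⌋₊, ∀ y ∈ Icc 1 ⌊D₂⌋₊,
        |α i x * (1 / (x : ℝ)) * (β i y * (1 / (y : ℝ))) -
          (if Nat.Coprime x y then α i x * β i y * (1 / ((x * y : ℕ) : ℝ)) else 0)| ≤
        if α i x ≠ 0 then (if Nat.Coprime x y then 0 else 1 / (x : ℝ) * (1 / (y : ℝ))) else 0 := by
      intro x _ y _
      have e1 : α i x * β i y * (1 / ((x * y : ℕ) : ℝ)) =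
          α i x * (1 / (x : ℝ)) * (β i y * (1 / (y : ℝ))) := by
        push_cast
        rw [← one_div_mul_one_div]
        ring
      by_cases h3 : Nat.Coprime x y
      · rw [if_pos h3, e1, sub_self, abs_zero]
        split_ifs <;> exact le_rfl
      · rw [if_neg h3, sub_zero]
        by_cases h4 : α i x = 0
        · rw [h4]; simp
        · rw [if_pos h4, if_neg h3]
          rw [abs_mul, abs_mul, abs_mul, abs_of_nonneg (by positivity : 0 ≤ 1 / (x : ℝ)),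
            abs_of_nonneg (by positivity : 0 ≤ 1 / (y : ℝ))]
          have h5 := hα1 i x
          have h6 := hβ1 i y
          calc |α i x| * (1 / (x : ℝ)) * (|β i y| * (1 / (y : ℝ)))
              ≤ 1 * (1 / (x : ℝ)) * (1 * (1 / (y : ℝ))) := by gcongr
            _ = _ := by ring
    have h3 := nc z hz m s' (Icc 1 ⌊D₂⌋₊) ((filter_subset _ _).trans (Icc_subset_Icc_right hm₁))
      (Icc_subset_Icc_right hm₂) (fun d hd => (hα i d (mem_filter.1 hd).2).2)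
    calc _ ≤ ∑ x ∈ Icc 1 ⌊D₁⌋₊, ∑ y ∈ Icc 1 ⌊D₂⌋₊, (if α i x ≠ 0 then
          (if Nat.Coprime x y then 0 else 1 / (x : ℝ) * (1 / (y : ℝ))) else 0) := by
          refine (abs_sum_le_sum_abs _ _).trans (sum_le_sum fun x hx => ?_)
          exact (abs_sum_le_sum_abs _ _).trans (sum_le_sum fun y hy => h2 x hx y hy)
      _ = ∑ x ∈ s', ∑ y ∈ Icc 1 ⌊D₂⌋₊,
            (if Nat.Coprime x y then 0 else 1 / (x : ℝ) * (1 / (y : ℝ))) := by
          rw [hs', sum_filter]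
          refine sum_congr rfl fun x _ => ?_
          split_ifs
          · rfl
          · simp
      _ ≤ _ := h3
  refine (abs_sum_le_sum_abs _ _).trans ((sum_le_sum fun i _ => h1 i).trans (le_of_eq ?_))
  rw [sum_const, card_univ, Fintype.card_fin, nsmul_eq_mul]

/-- The number of bad `n`. -/
lemma card_bad {W : ℕ} {N κ : ℝ} (hW : 0 < W) (hκ0 : 0 < κ) (hκ1 : κ ≤ 1) (hN : 1 ≤ N)
    (A : ℕ) (z : ℝ) (hz : 2 ≤ z) :
    ((((II (N / W) κ).filter fun n => Bad z (A * n + 1)).card : ℕ) : ℝ) ≤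
      (2 * A + 2) * N * (2 / z) := by
  set V : ℝ := (2 * A + 1) * N + 1 with hV
  have h1 : (II (N / W) κ).filter (fun n => Bad z (A * n + 1)) ⊆
      (PR z V).biUnion fun p => (II (N / W) κ).filter fun n => p ^ 2 ∣ A * n + 1 := by
    intro n hn
    rw [mem_filter] at hn
    obtain ⟨h2, p, hp, hpz, hpd⟩ := hn
    rw [mem_biUnion]
    refine ⟨p, mem_PR.2 ⟨hp, hpz, ?_⟩, mem_filter.2 ⟨h2, hpd⟩⟩
    have h3 := K3_.lin_le hW hκ0 hκ1 hN h2 A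
    have h4 : p ≤ A * n + 1 := (Nat.le_self_pow (by norm_num) p).trans (Nat.le_of_dvd (by omega) hpd)
    have h5 : (p : ℝ) ≤ ((A * n + 1 : ℕ) : ℝ) := by exact_mod_cast h4
    linarith
  have h2 : ((((II (N / W) κ).filter fun n => Bad z (A * n + 1)).card : ℕ) : ℝ) ≤
      ∑ p ∈ PR z V, (((II (N / W) κ).filter fun n => p ^ 2 ∣ A * n + 1).card : ℝ) := by
    exact_mod_cast (card_le_card h1).trans card_biUnion_le
  refine h2.trans ?_
  have h3 : ∀ p ∈ PR z V, (((II (N / W) κ).filter fun n => p ^ 2 ∣ A * n + 1).card : ℝ) ≤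
      (2 * A + 2) * N * (1 / (p : ℝ) ^ 2) := by
    intro p hp
    have h4 := K3_.card_dvd hW hκ0 hκ1 hN A (p ^ 2) (pow_pos (mem_PR.1 hp).1.pos 2)
    refine h4.trans (le_of_eq ?_)
    push_cast
    ring
  refine (sum_le_sum h3).trans ?_
  rw [← mul_sum]
  exact mul_le_mul_of_nonneg_left (sum_inv_sq_le hz) (by positivity)

end Pool.Agent.GapTwo.VAR_
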