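import Pool.Agent.Work.MP_1ea053_nt.VARB

/-!
# Block VARD: one dyadic range, assembled
-/

set_option autoImplicit false

namespace Pool.Agent.GapTwo.VAR_

open Finset Filter
open scoped Classical Topology

/-- The sum over the first conditions. -/
lemma sum_U (I : Finset ℕ) (A₁ A₂ : ℕ) (Ω : ℕ → ℝ) (M : ℕ) (α β : Fin M → ℕ → ℝ) (lam : ℕ → ℝ)
    (s₁ s₂ t : Finset ℕ) :
    ∑ i, ∑ x ∈ s₁, ∑ y ∈ s₂, ∑ e ∈ t, α i x * β i y * lam e *
      ∑ n ∈ I.filter (fun n => x ∣ A₁ * n + 1 ∧ e ∣ A₂ * n + 1),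
        Ω n * (if x * y ∣ A₁ * n + 1 then 1 else 0) =
    ∑ e ∈ t, lam e * ∑ n ∈ I.filter (fun n => e ∣ A₂ * n + 1), Ω n *
      ∑ i, ∑ x ∈ s₁, ∑ y ∈ s₂, α i x * β i y * (if x * y ∣ A₁ * n + 1 then 1 else 0) := by
  have h1 : ∀ x y e : ℕ, ∑ n ∈ I.filter (fun n => x ∣ A₁ * n + 1 ∧ e ∣ A₂ * n + 1),
        Ω n * (if x * y ∣ A₁ * n + 1 then (1 : ℝ) else 0) =
      ∑ n ∈ I.filter (fun n => e ∣ A₂ * n + 1), Ω n * (if x * y ∣ A₁ * n + 1 then 1 else 0) := by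
    intro x y e
    rw [sum_filter, sum_filter]
    refine sum_congr rfl fun n _ => ?_
    by_cases h2 : x * y ∣ A₁ * n + 1
    · have h3 : x ∣ A₁ * n + 1 := (dvd_mul_right x y).trans h2
      simp only [h3, true_and]
    · rw [if_neg h2, mul_zero]
      split_ifs <;> rfl
  simp only [h1]
  have h2 : ∀ e ∈ t, lam e * ∑ n ∈ I.filter (fun n => e ∣ A₂ * n + 1), Ω n *
      ∑ i, ∑ x ∈ s₁, ∑ y ∈ s₂, α i x * β i y * (if x * y ∣ A₁ * n + 1 then (1 : ℝ) else 0) =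
      ∑ i, ∑ x ∈ s₁, ∑ y ∈ s₂, α i x * β i y * lam e * ∑ n ∈ I.filter (fun n => e ∣ A₂ * n + 1),
        Ω n * (if x * y ∣ A₁ * n + 1 then 1 else 0) := by
    intro e _
    have h3 : ∀ n ∈ I.filter (fun n => e ∣ A₂ * n + 1), Ω n *
        ∑ i, ∑ x ∈ s₁, ∑ y ∈ s₂, α i x * β i y * (if x * y ∣ A₁ * n + 1 then (1 : ℝ) else 0) =
        ∑ i, ∑ x ∈ s₁, ∑ y ∈ s₂, α i x * β i y * (Ω n * (if x * y ∣ A₁ * n + 1 then 1 else 0)) := by
      intro n _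
      simp only [mul_sum]
      refine sum_congr rfl fun i _ => sum_congr rfl fun x _ => sum_congr rfl fun y _ => ?_
      ring
    rw [sum_congr rfl h3, sum_comm, mul_sum]
    refine sum_congr rfl fun i _ => ?_
    rw [sum_comm, mul_sum]
    refine sum_congr rfl fun x _ => ?_
    rw [sum_comm, mul_sum]
    refine sum_congr rfl fun y _ => ?_
    rw [← mul_sum]
    ring
  rw [sum_congr rfl h2]
  symm
  rw [sum_comm]
  refine sum_congr rfl fun i _ => ?_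
  rw [sum_comm]
  refine sum_congr rfl fun x _ => ?_
  rw [sum_comm]

/-- The sum of the progression sums against the sieve weights. -/
lemma sum_SS (I : Finset ℕ) (A₁ A₂ : ℕ) (Ω : ℕ → ℝ) (lam : ℕ → ℝ) (Z : ℝ)
    (h : ∀ d, lam d ≠ 0 → (d : ℝ) ≤ Z) (e : ℕ) :
    ∑ d ∈ Icc 1 ⌊Z⌋₊, lam d * SS I A₁ A₂ Ω d e =
      ∑ n ∈ I.filter (fun n => e ∣ A₂ * n + 1), Ω n * gg lam (A₁ * n + 1) := by
  have h1 : ∀ n ∈ I.filter (fun n => e ∣ A₂ * n + 1), Ω n * gg lam (A₁ * n + 1) =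
      ∑ d ∈ Icc 1 ⌊Z⌋₊, lam d * (if d ∣ A₁ * n + 1 then Ω n else 0) := by
    intro n _
    rw [gg_Icc lam Z h _ (Nat.succ_pos _), mul_sum]
    refine sum_congr rfl fun d _ => ?_
    split_ifs <;> ring
  rw [sum_congr rfl h1, sum_comm]
  refine sum_congr rfl fun d _ => ?_
  rw [← mul_sum]
  unfold SS
  rw [← sum_filter, filter_filter]
  congr 2
  apply filter_congr
  intro n _
  exact and_comm

lemma triple (s₁ s₂ t : Finset ℕ) (f g h : ℕ → ℝ) (c : ℝ) :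
    c * ((∑ x ∈ s₁, f x) * (∑ y ∈ s₂, g y)) * (∑ e ∈ t, h e) =
      ∑ x ∈ s₁, ∑ y ∈ s₂, ∑ e ∈ t, c * (f x * g y) * h e := by
  have key : ∀ H : ℝ, c * ((∑ x ∈ s₁, f x) * (∑ y ∈ s₂, g y)) * H =
      ∑ x ∈ s₁, ∑ y ∈ s₂, c * (f x * g y) * H := by
    intro H
    rw [sum_mul_sum, mul_sum, sum_mul]
    refine sum_congr rfl fun x _ => ?_
    rw [mul_sum, sum_mul]
  rw [key]
  refine sum_congr rfl fun x _ => sum_congr rfl fun y _ => ?_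
  rw [mul_sum]

/-- One dyadic range. -/
lemma dyadic {I : Finset ℕ} {A₁ A₂ : ℕ} {Ω : ℕ → ℝ} {z MΩ B : ℝ} (hS : SamePr A₁ A₂)
    (hB : 0 ≤ B) (hz : 2 ≤ z) (hP : Prog I A₁ A₂ Ω z MΩ B) (lam : ℕ → ℝ) (M : ℕ)
    (α β : Fin M → ℕ → ℝ) (Z D₁ D₂ : ℝ) (hD₁ : 1 ≤ D₁) (hD₂ : 1 ≤ D₂) (hZ : D₁ * D₂ = Z)
    (hα : ∀ i, Rough z (α i)) (hβ : ∀ i, Rough z (β i))
    (hα1 : ∀ i d, |α i d| ≤ 1) (hβ1 : ∀ i d, |β i d| ≤ 1)
    (hα' : ∀ i d, α i d ≠ 0 → (d : ℝ) ≤ D₁) (hβ' : ∀ i d, β i d ≠ 0 → (d : ℝ) ≤ D₂)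
    (hlam1 : ∀ d, |lam d| ≤ 1) (hlamR : Rough z lam) (hlamZ : ∀ d, lam d ≠ 0 → (d : ℝ) ≤ Z)
    (h : ∀ d, Squarefree d → lam d = ∑ i, ∑ x ∈ d.divisorsAntidiagonal, α i x.1 * β i x.2)
    (m : ℕ) (hm₁ : ⌊D₁⌋₊ ≤ m) (hm₂ : ⌊D₂⌋₊ ≤ m) (E : ℝ) (hE : 0 ≤ E) (hmE : ⌊2 * E⌋₊ ≤ m)
    (T : ℝ) (hT : D₁ * (2 * E) ≤ T) (P : ℝ) (hP0 : 0 ≤ P) (hΩ : ∀ n ∈ I, |Ω n| ≤ P)
    (hd1 : ∀ n ∈ I, ((A₁ * n + 1).divisors.card : ℝ) ≤ P)
    (hd2 : ∀ n ∈ I, ((A₂ * n + 1).divisors.card : ℝ) ≤ P)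
    (NB : ℝ) (hNB : ((I.filter (fun n => Bad z (A₁ * n + 1))).card : ℝ) ≤ NB) (KB : ℝ)
    (hK : ∀ i, |∑ d₁ ∈ Icc 1 ⌊D₁⌋₊, ∑ d₂ ∈ Icc 1 ⌊D₂⌋₊, ∑ e ∈ Ioc ⌊E⌋₊ ⌊2 * E⌋₊,
      α i d₁ * β i d₂ * lam e *
      ∑ n ∈ I.filter (fun n => d₁ ∣ A₁ * n + 1 ∧ e ∣ A₂ * n + 1),
      Ω n * ((if d₁ * d₂ ∣ A₁ * n + 1 then 1 else 0) - 1 / (d₂ : ℝ))| ≤ KB) :
    |∑ e ∈ Ioc ⌊E⌋₊ ⌊2 * E⌋₊, lam e * (∑ d ∈ Icc 1 ⌊Z⌋₊, lam d * SS I A₁ A₂ Ω d e)
      - MΩ * (∑ d ∈ Icc 1 ⌊Z⌋₊, lam d * (1 / (d : ℝ))) *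
        ∑ e ∈ Ioc ⌊E⌋₊ ⌊2 * E⌋₊, lam e * (1 / (e : ℝ))| ≤
      M * KB + NB * (P * (M * P ^ 2) * P) +
        M * ((1 + Real.log m) * (T * B + |MΩ| * (2 / z * (1 + Real.log m) ^ 2))) +
        |MΩ| * (M * (2 / z * (1 + Real.log m) ^ 2)) * (1 + Real.log m) := by
  set t := Ioc ⌊E⌋₊ ⌊2 * E⌋₊ with ht
  set s₁ := Icc 1 ⌊D₁⌋₊ with hs₁
  set s₂ := Icc 1 ⌊D₂⌋₊ with hs₂
  set Λ := 1 + Real.log (m : ℝ) with hΛ
  have hΛ0 : 0 ≤ Λ := by
    have := Real.log_natCast_nonneg m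
    linarith
  have htm : t ⊆ Icc 1 m := by
    intro e he
    rw [ht, mem_Ioc] at he
    rw [mem_Icc]
    omega
  have hs₁m : s₁ ⊆ Icc 1 m := Icc_subset_Icc_right hm₁
  have hs₂m : s₂ ⊆ Icc 1 m := Icc_subset_Icc_right hm₂
  set U : Fin M → ℝ := fun i => ∑ x ∈ s₁, ∑ y ∈ s₂, ∑ e ∈ t, α i x * β i y * lam e *
      ∑ n ∈ I.filter (fun n => x ∣ A₁ * n + 1 ∧ e ∣ A₂ * n + 1),
        Ω n * (if x * y ∣ A₁ * n + 1 then 1 else 0) with hU
  set V : Fin M → ℝ := fun i => ∑ x ∈ s₁, ∑ y ∈ s₂, ∑ e ∈ t, α i x * β i y * lam e *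
      (1 / (y : ℝ) * SS I A₁ A₂ Ω x e) with hV
  have hUV : ∀ i, |U i - V i| ≤ KB := by
    intro i
    have h1 : U i - V i = ∑ d₁ ∈ s₁, ∑ d₂ ∈ s₂, ∑ e ∈ t, α i d₁ * β i d₂ * lam e *
        ∑ n ∈ I.filter (fun n => d₁ ∣ A₁ * n + 1 ∧ e ∣ A₂ * n + 1),
        Ω n * ((if d₁ * d₂ ∣ A₁ * n + 1 then 1 else 0) - 1 / (d₂ : ℝ)) := by
      simp only [hU, hV, ← sum_sub_distrib]
      refine sum_congr rfl fun x _ => sum_congr rfl fun y _ => sum_congr rfl fun e _ => ?_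
      rw [← mul_sub]
      congr 1
      unfold SS
      rw [mul_sum, ← sum_sub_distrib]
      refine sum_congr rfl fun n _ => ?_
      ring
    rw [h1]
    exact hK i
  -- the error of the bad values
  set err : ℕ → ℝ := fun n => ∑ i, ∑ x ∈ s₁, ∑ y ∈ s₂,
    α i x * β i y * (if x * y ∣ A₁ * n + 1 then 1 else 0) - gg lam (A₁ * n + 1) with herr
  have herr1 : ∀ n, |err n| ≤ if Bad z (A₁ * n + 1) then
      (M : ℝ) * ((A₁ * n + 1).divisors.card : ℝ) ^ 2 else 0 := fun n =>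
    err_bd lam M α β Z D₁ D₂ hD₁ hD₂ hZ z hα hβ hα1 hβ1 hα' hβ' (fun d hd => (hlamR d hd).1) hlamZ h
      (A₁ * n + 1) (Nat.succ_pos _)
  set G := ∑ e ∈ t, lam e * (∑ d ∈ Icc 1 ⌊Z⌋₊, lam d * SS I A₁ A₂ Ω d e) with hG
  set Err := ∑ e ∈ t, lam e * ∑ n ∈ I.filter (fun n => e ∣ A₂ * n + 1), Ω n * err n with hErr
  have hGU : ∑ i, U i = G + Err := by
    simp only [hU]
    rw [sum_U, hG, hErr, ← sum_add_distrib]
    refine sum_congr rfl fun e _ => ?_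
    rw [sum_SS I A₁ A₂ Ω lam Z hlamZ e, ← mul_add, ← sum_add_distrib]
    congr 1
    refine sum_congr rfl fun n _ => ?_
    simp only [herr]
    ring
  have hErrb : |Err| ≤ NB * (P * (M * P ^ 2) * P) := by
    have h1 : |Err| ≤ ∑ e ∈ t, ∑ n ∈ I.filter (fun n => e ∣ A₂ * n + 1), |Ω n * err n| := by
      rw [hErr]
      refine (abs_sum_le_sum_abs _ _).trans (sum_le_sum fun e _ => ?_)
      rw [abs_mul]
      calc _ ≤ 1 * |∑ n ∈ I.filter (fun n => e ∣ A₂ * n + 1), Ω n * err n| :=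
            mul_le_mul_of_nonneg_right (hlam1 e) (abs_nonneg _)
        _ ≤ _ := by
            rw [one_mul]
            exact abs_sum_le_sum_abs _ _
    have h2 : ∑ e ∈ t, ∑ n ∈ I.filter (fun n => e ∣ A₂ * n + 1), |Ω n * err n| =
        ∑ n ∈ I, |Ω n * err n| * (t.filter (fun e => e ∣ A₂ * n + 1)).card := by
      simp only [sum_filter]
      rw [sum_comm]
      refine sum_congr rfl fun n _ => ?_
      rw [← sum_filter, sum_const, nsmul_eq_mul, mul_comm]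
    have h3 : ∀ n ∈ I, |Ω n * err n| * (t.filter (fun e => e ∣ A₂ * n + 1)).card ≤
        if Bad z (A₁ * n + 1) then P * (M * P ^ 2) * P else 0 := by
      intro n hn
      have e1 := herr1 n
      by_cases hb : Bad z (A₁ * n + 1)
      · rw [if_pos hb] at e1 ⊢
        rw [abs_mul]
        have e2 : |err n| ≤ M * P ^ 2 := by
          refine e1.trans ?_
          apply mul_le_mul_of_nonneg_left _ (Nat.cast_nonneg _)
          exact pow_le_pow_left₀ (Nat.cast_nonneg _) (hd1 n hn) 2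
        have e3 : ((t.filter (fun e => e ∣ A₂ * n + 1)).card : ℝ) ≤ P := by
          refine le_trans ?_ (hd2 n hn)
          exact_mod_cast card_le_card fun e he => by
            rw [mem_filter] at he
            exact Nat.mem_divisors.2 ⟨he.2, by omega⟩
        exact mul_le_mul (mul_le_mul (hΩ n hn) e2 (abs_nonneg _) hP0) e3 (Nat.cast_nonneg _)
          (by positivity)
      · rw [if_neg hb] at e1 ⊢
        have : |err n| = 0 := le_antisymm e1 (abs_nonneg _)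
        rw [abs_mul, this, mul_zero, zero_mul]
    rw [h2] at h1
    refine h1.trans ((sum_le_sum h3).trans ?_)
    rw [← sum_filter, sum_const, nsmul_eq_mul]
    exact mul_le_mul_of_nonneg_right hNB (by positivity)
  -- the main terms
  set Se := ∑ e ∈ t, lam e * (1 / (e : ℝ)) with hSe
  have hSeb : |Se| ≤ Λ := by
    rw [hSe]
    refine (abs_sum_le_sum_abs _ _).trans ?_
    calc ∑ e ∈ t, |lam e * (1 / (e : ℝ))| ≤ ∑ e ∈ t, 1 / (e : ℝ) := by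
          refine sum_le_sum fun e _ => ?_
          rw [abs_mul, abs_of_nonneg (by positivity : 0 ≤ 1 / (e : ℝ))]
          calc _ ≤ 1 * (1 / (e : ℝ)) := mul_le_mul_of_nonneg_right (hlam1 e) (by positivity)
            _ = _ := one_mul _
      _ ≤ ∑ e ∈ Icc 1 m, 1 / (e : ℝ) :=
          sum_le_sum_of_subset_of_nonneg htm fun _ _ _ => by positivity
      _ ≤ _ := sum_inv m
  set Q := T * B + |MΩ| * (2 / z * Λ ^ 2) with hQ
  have hT0 : ((s₁.card : ℝ)) * t.card ≤ T := by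
    refine le_trans ?_ hT
    have e1 : (s₁.card : ℝ) ≤ D₁ := by
      rw [hs₁, Nat.card_Icc, Nat.add_sub_cancel]
      exact Nat.floor_le (by linarith)
    have e2 : (t.card : ℝ) ≤ 2 * E := by
      rw [ht, Nat.card_Ioc]
      have : ((⌊2 * E⌋₊ - ⌊E⌋₊ : ℕ) : ℝ) ≤ (⌊2 * E⌋₊ : ℝ) := by exact_mod_cast Nat.sub_le _ _
      exact this.trans (Nat.floor_le (by linarith))
    exact mul_le_mul e1 e2 (Nat.cast_nonneg _) (by linarith)
  have hQ0 : 0 ≤ Q := by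
    have : 0 ≤ T := le_trans (by positivity) hT0
    positivity
  set Gi : Fin M → ℝ := fun i => (∑ x ∈ s₁, α i x * (1 / (x : ℝ))) *
    (∑ y ∈ s₂, β i y * (1 / (y : ℝ))) with hGi
  have hVb : ∀ i, |V i - MΩ * Gi i * Se| ≤ Λ * Q := by
    intro i
    have h1 : V i - MΩ * Gi i * Se = ∑ y ∈ s₂, β i y * (1 / (y : ℝ)) *
        ∑ x ∈ s₁, ∑ e ∈ t, α i x * lam e *
          (SS I A₁ A₂ Ω x e - MΩ * (1 / (x : ℝ) * (1 / (e : ℝ)))) := by
      have h2 : MΩ * Gi i * Se = ∑ x ∈ s₁, ∑ y ∈ s₂, ∑ e ∈ t, α i x * β i y * lam e *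
          (1 / (y : ℝ) * (MΩ * (1 / (x : ℝ) * (1 / (e : ℝ))))) := by
        refine (triple s₁ s₂ t (fun x => α i x * (1 / (x : ℝ))) (fun y => β i y * (1 / (y : ℝ)))
          (fun e => lam e * (1 / (e : ℝ))) MΩ).trans ?_
        refine sum_congr rfl fun x _ => sum_congr rfl fun y _ => sum_congr rfl fun e _ => ?_
        ring
      rw [h2]
      simp only [hV, ← sum_sub_distrib]
      rw [sum_comm]
      refine sum_congr rfl fun y _ => ?_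
      rw [mul_sum]
      refine sum_congr rfl fun x _ => ?_
      rw [mul_sum]
      refine sum_congr rfl fun e _ => ?_
      ring
    have h2 := small hS hB hz hP m s₁ t hs₁m htm (α i) lam (hα i) hlamR (hα1 i) hlam1 T hT0
    rw [h1]
    calc _ ≤ ∑ y ∈ s₂, 1 / (y : ℝ) * Q := by
          refine (abs_sum_le_sum_abs _ _).trans (sum_le_sum fun y _ => ?_)
          rw [abs_mul]
          apply mul_le_mul _ h2 (abs_nonneg _) (by positivity)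
          rw [abs_mul, abs_of_nonneg (by positivity : 0 ≤ 1 / (y : ℝ))]
          calc _ ≤ 1 * (1 / (y : ℝ)) := mul_le_mul_of_nonneg_right (hβ1 i y) (by positivity)
            _ = _ := one_mul _
      _ = (∑ y ∈ s₂, 1 / (y : ℝ)) * Q := by rw [sum_mul]
      _ ≤ Λ * Q := by
          apply mul_le_mul_of_nonneg_right _ hQ0
          refine le_trans ?_ (sum_inv m)
          exact sum_le_sum_of_subset_of_nonneg hs₂m fun _ _ _ => by positivity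
  have hgam := gam_bd lam M α β Z D₁ D₂ hD₁ hD₂ hZ z hz hα hβ hα1 hβ1 hα' hβ'
    (fun d hd => (hlamR d hd).1) h m hm₁ hm₂
  set γ := ∑ d ∈ Icc 1 ⌊Z⌋₊, lam d * (1 / (d : ℝ)) with hγ
  have hdec : G - MΩ * γ * Se = ∑ i, (U i - V i) + ∑ i, (V i - MΩ * Gi i * Se) +
      MΩ * (∑ i, Gi i - γ) * Se - Err := by
    rw [sum_sub_distrib, sum_sub_distrib, hGU]
    have : ∑ i, MΩ * Gi i * Se = MΩ * (∑ i, Gi i) * Se := by
      rw [← sum_mul, ← mul_sum]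
    rw [this]
    ring
  rw [hdec]
  have b1 : |∑ i, (U i - V i)| ≤ M * KB := by
    refine (abs_sum_le_sum_abs _ _).trans ((sum_le_sum fun i _ => hUV i).trans (le_of_eq ?_))
    rw [sum_const, card_univ, Fintype.card_fin, nsmul_eq_mul]
  have b2 : |∑ i, (V i - MΩ * Gi i * Se)| ≤ M * (Λ * Q) := by
    refine (abs_sum_le_sum_abs _ _).trans ((sum_le_sum fun i _ => hVb i).trans (le_of_eq ?_))
    rw [sum_const, card_univ, Fintype.card_fin, nsmul_eq_mul]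
  have b3 : |MΩ * (∑ i, Gi i - γ) * Se| ≤ |MΩ| * (M * (2 / z * Λ ^ 2)) * Λ := by
    rw [abs_mul, abs_mul]
    exact mul_le_mul (mul_le_mul_of_nonneg_left hgam (abs_nonneg _)) hSeb (abs_nonneg _)
      (by positivity)
  have b4 := abs_sub (∑ i, (U i - V i) + ∑ i, (V i - MΩ * Gi i * Se) + MΩ * (∑ i, Gi i - γ) * Se) Err
  have b5 := abs_add_le (∑ i, (U i - V i) + ∑ i, (V i - MΩ * Gi i * Se)) (MΩ * (∑ i, Gi i - γ) * Se)
  have b6 := abs_add_le (∑ i, (U i - V i)) (∑ i, (V i - MΩ * Gi i * Se))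
  linarith

end Pool.Agent.GapTwo.VAR_
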